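import Pool.Agent.Lib.MP_267da7_pr.T0

/-!
# A1: the functions `th n`

Induction on `n`; the statement for `n` has five parts
(a) `th n` continuous on `[0,oo)`, (b) `th n 0 = 0`, (c) `th n > 0` on `(0,oo)`,
(d) `HasDerivAt (th n) (w n m * th n m) m` for `m > 0`, (e) `m * w n m -> n + 1` as `m -> 0+`.

`n = 0`: `th 0 m = 2 sinh(m/2)`, derivative `cosh(m/2) = w 0 m * th 0 m`;
`m * w 0 m = (m/2) cosh(m/2) / sinh(m/2) -> 1`.

`n -> n+1`: put `J m = int_0^m (th n)^2`, so `J' = (th n)^2` for `m > 0`, `J > 0`, `J -> 0` at `0+` and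
`th (n+1) m = (2n+3) J m / th n m`.  (b): `J 0 = 0` (also `x / 0 = 0` in Lean).  (c) clear.  (d): quotient rule:
`th (n+1)' = (2n+3) ((th n)^3 - J * w n * th n) / (th n)^2 = (2n+3) th n - w n * th (n+1) = w (n+1) * th (n+1)` by the definition
of `w (n+1)`.  (a): continuity for `m > 0` follows from (d).  At `0`: by (e) for `n` there is `d > 0` with `w n > 0` on `(0,d)`,
so `th n` is nondecreasing on `(0,d)`, `J m <= m * (th n m)^2`, `0 <= th (n+1) m <= (2n+3) m * th n m -> 0`.
(e): `m * w (n+1) m = m (th n m)^2 / J m - m * w n m`.  By l'Hopital (`0/0` at `0+`):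
`(m (th n m)^2)' / J' = ((th n)^2 + 2 m * w n * (th n)^2) / (th n)^2 = 1 + 2 m * w n m -> 2n + 3`, so the limit is
`(2n+3) - (n+1) = n + 2`.
-/

open Real MeasureTheory Set Filter
open scoped Topology

namespace LPPEnd

/-- the integral of the square of a continuous function on `[0,oo)` -/
private theorem A1_int {f : ℝ → ℝ} (hf : ContinuousOn f (Ici 0)) :
    (∀ m, 0 < m → HasDerivAt (fun m => ∫ t in (0:ℝ)..m, f t ^ 2) (f m ^ 2) m) ∧
    Tendsto (fun m => ∫ t in (0:ℝ)..m, f t ^ 2) (𝓝[>] 0) (𝓝 0) := by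
  have hF : Continuous (fun t : ℝ => f (max t 0) ^ 2) := by
    apply Continuous.pow
    exact hf.comp_continuous (continuous_id.max continuous_const) (fun x => by simp)
  have he : ∀ m, 0 ≤ m → (∫ t in (0:ℝ)..m, f t ^ 2) = ∫ t in (0:ℝ)..m, f (max t 0) ^ 2 := by
    intro m hm
    apply intervalIntegral.integral_congr
    intro t ht
    rw [uIcc_of_le hm] at ht
    simp only
    rw [max_eq_left ht.1]
  constructor
  · intro m hm
    have h1 := (hF.integral_hasStrictDerivAt 0 m).hasDerivAt
    have h2 : (fun m => ∫ t in (0:ℝ)..m, f t ^ 2) =ᶠ[𝓝 m]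
        fun m => ∫ t in (0:ℝ)..m, f (max t 0) ^ 2 := by
      filter_upwards [lt_mem_nhds hm] with x hx
      exact he x hx.le
    have h3 := h1.congr_of_eventuallyEq h2
    rw [max_eq_left hm.le] at h3
    exact h3
  · have h1 : Tendsto (fun m => ∫ t in (0:ℝ)..m, f (max t 0) ^ 2) (𝓝 0)
        (𝓝 (∫ t in (0:ℝ)..0, f (max t 0) ^ 2)) :=
      (hF.integral_hasStrictDerivAt 0 0).hasDerivAt.continuousAt.tendsto
    rw [intervalIntegral.integral_same] at h1
    have h2 := h1.mono_left (nhdsWithin_le_nhds (s := Ioi (0:ℝ)))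
    apply h2.congr'
    filter_upwards [self_mem_nhdsWithin] with m hm
    exact (he m (le_of_lt hm)).symm

private theorem A1_zero :
    ContinuousOn (th 0) (Ici 0) ∧ th 0 0 = 0 ∧ (∀ m, 0 < m → 0 < th 0 m) ∧
    (∀ m, 0 < m → HasDerivAt (th 0) (w 0 m * th 0 m) m) ∧
    Tendsto (fun m => m * w 0 m) (𝓝[>] 0) (𝓝 (((0:ℕ) : ℝ) + 1)) := by
  have hth : th 0 = fun m => 2 * Real.sinh (m / 2) := by ext m; simp [th]
  have hsinh : ∀ m : ℝ, 0 < m → 0 < Real.sinh (m / 2) := fun m hm =>
    Real.sinh_pos_iff.2 (by positivity)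
  have hd : ∀ m : ℝ, HasDerivAt (fun m => 2 * Real.sinh (m / 2)) (Real.cosh (m / 2)) m := by
    intro m
    have h1 := (((hasDerivAt_id m).div_const 2).sinh).const_mul 2
    refine h1.congr_deriv ?_
    simp only [id]
    ring
  refine ⟨?_, ?_, ?_, ?_, ?_⟩
  · rw [hth]
    exact fun x _ => (hd x).continuousAt.continuousWithinAt
  · simp [th]
  · intro m hm
    rw [hth]
    have := hsinh m hm
    positivity
  · intro m hm
    rw [hth]
    refine (hd m).congr_deriv ?_
    have := (hsinh m hm).ne'
    simp only [w]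
    field_simp
  · -- limit
    have h1 : Tendsto (slope (fun m => 2 * Real.sinh (m / 2)) 0) (𝓝[>] 0)
        (𝓝 (Real.cosh (0 / 2))) :=
      (hasDerivAt_iff_tendsto_slope.1 (hd 0)).mono_left
        (nhdsWithin_mono _ (fun x (hx : 0 < x) => ne_of_gt hx))
    have h2 : Tendsto (fun m : ℝ => Real.cosh (m / 2)) (𝓝[>] 0) (𝓝 (Real.cosh (0 / 2))) := by
      have : Continuous (fun m : ℝ => Real.cosh (m / 2)) := by fun_prop
      exact (this.tendsto 0).mono_left nhdsWithin_le_nhds
    have h3 := h2.div h1 (by simp)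
    rw [div_self (by simp)] at h3
    simp only [Nat.cast_zero, zero_add]
    apply h3.congr'
    filter_upwards [self_mem_nhdsWithin] with m hm
    have hm' : (0:ℝ) < m := hm
    have hs := (hsinh m hm').ne'
    simp only [Pi.div_apply, slope_def_field, w, zero_div, Real.sinh_zero, mul_zero, sub_zero]
    field_simp

theorem A1 (n : ℕ) :
    ContinuousOn (th n) (Ici 0) ∧ th n 0 = 0 ∧ (∀ m, 0 < m → 0 < th n m) ∧
    (∀ m, 0 < m → HasDerivAt (th n) (w n m * th n m) m) ∧
    Tendsto (fun m => m * w n m) (𝓝[>] 0) (𝓝 ((n : ℝ) + 1)) := by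
  induction n with
  | zero => exact A1_zero
  | succ n ih =>
    obtain ⟨hc, h0, hp, hd, hl⟩ := ih
    obtain ⟨hJd, hJl⟩ := A1_int hc
    set J : ℝ → ℝ := fun m => ∫ t in (0:ℝ)..m, th n t ^ 2 with hJ
    have hth : ∀ m, th (n + 1) m = (2 * (n : ℝ) + 3) * J m / th n m := fun m => by
      simp [th, hJ]
    have hJp : ∀ m, 0 < m → 0 < J m := by
      intro m hm
      apply intervalIntegral.intervalIntegral_pos_of_pos_on _ _ hm
      · apply ContinuousOn.intervalIntegrable
        apply ContinuousOn.pow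
        apply hc.mono
        rw [uIcc_of_le hm.le]
        exact Icc_subset_Ici_self
      · intro x hx
        have := hp x hx.1
        positivity
    have hp1 : ∀ m, 0 < m → 0 < th (n + 1) m := by
      intro m hm
      rw [hth]
      have := hp m hm
      have := hJp m hm
      positivity
    have hd1 : ∀ m, 0 < m → HasDerivAt (th (n + 1)) (w (n + 1) m * th (n + 1) m) m := by
      intro m hm
      have h1 := ((hJd m hm).const_mul (2 * (n : ℝ) + 3)).div (hd m hm) (hp m hm).ne'
      have h2 : th (n + 1) = (fun m => (2 * (n : ℝ) + 3) * J m) / th n := by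
        ext x; rw [hth]; rfl
      have p0 := (hp m hm).ne'
      have p1 := (hp1 m hm).ne'
      have pJ := (hJp m hm).ne'
      have e1 : w (n + 1) m * th (n + 1) m = (2 * (n : ℝ) + 3) * th n m - w n m * th (n + 1) m := by
        simp only [w]
        field_simp
      rw [e1, h2]
      refine h1.congr_deriv ?_
      simp only [Pi.div_apply]
      field_simp
    have hzero : th (n + 1) 0 = 0 := by
      rw [hth, h0]; simp
    -- bound near 0
    have hpos : ∀ᶠ m in 𝓝[>] (0:ℝ), 0 < m * w n m := by
      have : (0:ℝ) < (n : ℝ) + 1 := by positivity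
      exact hl.eventually (lt_mem_nhds this)
    obtain ⟨d, hd0, hdw⟩ : ∃ d : ℝ, 0 < d ∧ ∀ m, 0 < m → m < d → 0 < w n m := by
      rw [eventually_nhdsWithin_iff, Metric.eventually_nhds_iff] at hpos
      obtain ⟨d, hd0, hd1⟩ := hpos
      refine ⟨d, hd0, fun m hm hmd => ?_⟩
      have h1 := hd1 (y := m) (by rw [Real.dist_eq, sub_zero, abs_of_pos hm]; exact hmd) hm
      exact (mul_pos_iff_of_pos_left hm).1 h1
    have hJle : ∀ m, 0 < m → m < d → J m ≤ m * th n m ^ 2 := by
      intro m hm hmd
      have hmono : MonotoneOn (th n) (Icc 0 m) := by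
        apply monotoneOn_of_deriv_nonneg (convex_Icc 0 m)
        · exact hc.mono Icc_subset_Ici_self
        · intro x hx
          rw [interior_Icc] at hx
          exact (hd x hx.1).differentiableAt.differentiableWithinAt
        · intro x hx
          rw [interior_Icc] at hx
          rw [(hd x hx.1).deriv]
          exact (mul_pos (hdw x hx.1 (hx.2.trans hmd)) (hp x hx.1)).le
      have h1 : (∫ t in (0:ℝ)..m, th n t ^ 2) ≤ ∫ t in (0:ℝ)..m, th n m ^ 2 := by
        apply intervalIntegral.integral_mono_on hm.le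
        · apply ContinuousOn.intervalIntegrable
          apply ContinuousOn.pow
          apply hc.mono
          rw [uIcc_of_le hm.le]
          exact Icc_subset_Ici_self
        · exact intervalIntegrable_const
        · intro x hx
          apply pow_le_pow_left₀ _ (hmono hx (right_mem_Icc.2 hm.le) hx.2)
          rcases hx.1.lt_or_eq with h | h
          · exact (hp x h).le
          · rw [← h, h0]
      rw [intervalIntegral.integral_const] at h1
      simpa [hJ] using h1
    have hthl : Tendsto (th n) (𝓝[>] 0) (𝓝 0) := by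
      have := (hc 0 self_mem_Ici).tendsto
      rw [h0] at this
      exact this.mono_left (nhdsWithin_mono _ Ioi_subset_Ici_self)
    have hidl : Tendsto (fun m : ℝ => m) (𝓝[>] 0) (𝓝 0) := LPPChain.lim_id
    have hth1l : Tendsto (th (n + 1)) (𝓝[>] 0) (𝓝 0) := by
      have hu : Tendsto (fun m => (2 * (n : ℝ) + 3) * (m * th n m)) (𝓝[>] 0) (𝓝 0) := by
        have := (hidl.mul hthl).const_mul (2 * (n : ℝ) + 3)
        simpa using this
      apply tendsto_of_tendsto_of_tendsto_of_le_of_le' tendsto_const_nhds hu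
      · filter_upwards [self_mem_nhdsWithin] with m hm
        exact (hp1 m hm).le
      · have : Ioo (0:ℝ) d ∈ 𝓝[>] (0:ℝ) := Ioo_mem_nhdsGT hd0
        filter_upwards [this] with m hm
        have p0 := hp m hm.1
        have h2 := hJle m hm.1 hm.2
        rw [hth, div_le_iff₀ p0]
        have h3 : (0:ℝ) ≤ 2 * (n : ℝ) + 3 := by positivity
        nlinarith [mul_le_mul_of_nonneg_left h2 h3]
    refine ⟨?_, hzero, hp1, hd1, ?_⟩
    · intro x hx
      rcases (mem_Ici.1 hx).lt_or_eq with h | h
      · exact (hd1 x h).continuousAt.continuousWithinAt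
      · rw [← h]
        rw [← continuousWithinAt_Ioi_iff_Ici]
        unfold ContinuousWithinAt
        rw [hzero]
        exact hth1l
    · -- limit of m w
      have hN : ∀ m, 0 < m → HasDerivAt (fun m => m * th n m ^ 2)
          (th n m ^ 2 + m * (2 * th n m * (w n m * th n m))) m := by
        intro m hm
        have h1 := (hasDerivAt_id m).mul ((hd m hm).pow 2)
        refine h1.congr_deriv ?_
        simp
      have hNl : Tendsto (fun m => m * th n m ^ 2) (𝓝[>] 0) (𝓝 0) := by
        have := hidl.mul (hthl.pow 2)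
        simpa using this
      have hratio : Tendsto (fun m => (th n m ^ 2 + m * (2 * th n m * (w n m * th n m))) /
          (th n m ^ 2)) (𝓝[>] 0) (𝓝 (1 + 2 * ((n : ℝ) + 1))) := by
        have h1 := (hl.const_mul 2).const_add 1
        apply h1.congr'
        filter_upwards [self_mem_nhdsWithin] with m hm
        have p0 := (hp m hm).ne'
        field_simp
      have hq := HasDerivAt.lhopital_zero_nhdsGT
        (f := fun m => m * th n m ^ 2) (g := J)
        (f' := fun m => th n m ^ 2 + m * (2 * th n m * (w n m * th n m)))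
        (g' := fun m => th n m ^ 2) (a := 0) (l := 𝓝 (1 + 2 * ((n : ℝ) + 1)))
        (by filter_upwards [self_mem_nhdsWithin] with m hm; exact hN m hm)
        (by filter_upwards [self_mem_nhdsWithin] with m hm; exact hJd m hm)
        (by
          filter_upwards [self_mem_nhdsWithin] with m hm
          have := (hp m hm).ne'
          positivity)
        hNl hJl hratio
      have h2 := hq.sub hl
      have e : (1 + 2 * ((n : ℝ) + 1)) - ((n : ℝ) + 1) = ((n + 1 : ℕ) : ℝ) + 1 := by
        push_cast; ring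
      rw [e] at h2
      apply h2.congr'
      filter_upwards [self_mem_nhdsWithin] with m hm
      have hm' : (0:ℝ) < m := hm
      have p0 := (hp m hm').ne'
      have pJ := (hJp m hm').ne'
      have h3 : w (n + 1) m = (2 * (n : ℝ) + 3) * th n m / th (n + 1) m - w n m := rfl
      rw [h3, hth]
      field_simp

theorem th_cont (n : ℕ) : ContinuousOn (th n) (Ici 0) := (A1 n).1
theorem th_zero (n : ℕ) : th n 0 = 0 := (A1 n).2.1
theorem th_pos (n : ℕ) (m : ℝ) (hm : 0 < m) : 0 < th n m := (A1 n).2.2.1 m hm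
theorem th_deriv (n : ℕ) (m : ℝ) (hm : 0 < m) : HasDerivAt (th n) (w n m * th n m) m :=
  (A1 n).2.2.2.1 m hm
theorem mw_lim (n : ℕ) : Tendsto (fun m => m * w n m) (𝓝[>] 0) (𝓝 ((n : ℝ) + 1)) :=
  (A1 n).2.2.2.2

end LPPEnd
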