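import Pool.Agent.Lib.MP_267da7_pr.A1

/-!
# A2: Riccati equations, smoothness, limit of `m^2 V_n`

(1) `w_n' = V_n - w_n^2`.  `n = 0`: `w 0 = cosh(m/2)/(2 sinh(m/2))`, derivative `1/4 - w_0^2`.
`n -> n+1`: by definition `w (n+1) + w n = (2n+3) th n / th (n+1) =: o`, and by A1 `o' = o (w_n - w_(n+1))`, i.e.
`(w_n + w_(n+1))' = (w_n + w_(n+1)) (w_n - w_(n+1)) = w_n^2 - w_(n+1)^2`; so
`w_(n+1)' = w_n^2 - w_(n+1)^2 - (V_n - w_n^2) = 2 w_n^2 - V_n - w_(n+1)^2 = V_(n+1) - w_(n+1)^2`.

(2) `V_n' = VD_n`: from the definitions and (1), by induction.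

(3) smoothness of `w n` and `V n` on the open set `(0,oo)`: `w n` is differentiable with derivative `V n - (w n)^2` and `V (n+1)`
is a polynomial in `w n, V n`.  Induction on `n`: `V n` is smooth; then by induction on `k`, `w n` is `C^k`:
if `w n` is `C^k` then its derivative `V n - (w n)^2` is `C^k` and `w n` is `C^(k+1)`
(`contDiffOn_succ_iff_deriv_of_isOpen` or similar).

(4) `m^2 V_n -> n(n+1)`: induction, `m^2 V_(n+1) = 2 (m w_n)^2 - m^2 V_n -> 2 (n+1)^2 - n(n+1) = (n+1)(n+2)`.
-/

open Real MeasureTheory Set Filter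
open scoped Topology

namespace LPPEnd

/-- the chain `e^(m/2), cc_0 th_0, cc_1 th_1, ...` -/
noncomputable def ch : ℕ → ℝ → ℝ
  | 0, m => Real.exp (m / 2)
  | n + 1, m => cc n * th n m

theorem cc_pos (n : ℕ) : 0 < cc n := by
  induction n with
  | zero => simp [cc]
  | succ n ih =>
    simp only [cc]
    positivity

theorem ch_isChain : LPPChain.IsChain ch := by
  have h0 : ∀ x : ℝ, ch 1 x * ch 0 x = Real.exp x - 1 := by
    intro x
    simp only [ch, cc, th]
    rw [Real.sinh_eq]
    have e1 : Real.exp (x / 2) * Real.exp (x / 2) = Real.exp x := by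
      rw [← Real.exp_add]; congr 1; ring
    have e2 : Real.exp (-(x / 2)) * Real.exp (x / 2) = 1 := by
      rw [← Real.exp_add]; simp
    linear_combination e1 - e2
  have hs : ∀ (n : ℕ) (x : ℝ), 0 < x → ch (n + 2) x * ch (n + 1) x =
      cc n ^ 2 * ∫ t in (0:ℝ)..x, th n t ^ 2 := by
    intro n x hx
    have hp := (th_pos n x hx).ne'
    simp only [ch, cc, th]
    field_simp
  have hJd : ∀ (n : ℕ) (m : ℝ), 0 < m →
      HasDerivAt (fun m => ∫ t in (0:ℝ)..m, th n t ^ 2) (th n m ^ 2) m := by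
    intro n m hm
    have h1 : HasDerivAt (fun x => th (n + 1) x * th n x / (2 * (n : ℝ) + 3)) (th n m ^ 2) m := by
      have hd := ((th_deriv (n + 1) m hm).mul (th_deriv n m hm)).div_const (2 * (n : ℝ) + 3)
      refine hd.congr_deriv ?_
      have hp := (th_pos n m hm).ne'
      have hp1 := (th_pos (n + 1) m hm).ne'
      simp only [w]
      field_simp
      ring
    have h2 : (fun m => ∫ t in (0:ℝ)..m, th n t ^ 2) =ᶠ[𝓝 m]
        (fun x => th (n + 1) x * th n x / (2 * (n : ℝ) + 3)) := by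
      filter_upwards [lt_mem_nhds hm] with x hx
      have hp := (th_pos n x hx).ne'
      simp only [th]
      field_simp
    exact h1.congr_of_eventuallyEq h2
  have hlim : ∀ n : ℕ, Tendsto (th n) (𝓝[>] 0) (𝓝 0) := by
    intro n
    have := (th_cont n 0 self_mem_Ici).tendsto
    rw [th_zero] at this
    exact this.mono_left (nhdsWithin_mono _ Ioi_subset_Ici_self)
  refine ⟨fun m _ => rfl, ?_, ?_, ?_⟩
  · intro n m hm
    cases n with
    | zero => exact Real.exp_pos _
    | succ n => exact mul_pos (cc_pos n) (th_pos n m hm)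
  · intro n m hm
    cases n with
    | zero =>
      have h1 : (fun x => ch (0 + 1) x * ch 0 x) = fun x => Real.exp x - 1 := by
        ext x; exact h0 x
      rw [h1]
      have h2 := (Real.hasDerivAt_exp m).sub_const 1
      refine h2.congr_deriv ?_
      simp only [ch]
      rw [sq, ← Real.exp_add]; congr 1; ring
    | succ n =>
      have h2 : (fun x => ch (n + 1 + 1) x * ch (n + 1) x) =ᶠ[𝓝 m]
          fun x => cc n ^ 2 * ∫ t in (0:ℝ)..x, th n t ^ 2 := by
        filter_upwards [lt_mem_nhds hm] with x hx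
        exact hs n x hx
      have h3 := ((hJd n m hm).const_mul (cc n ^ 2)).congr_of_eventuallyEq h2
      refine h3.congr_deriv ?_
      simp only [ch]
      ring
  · intro n
    cases n with
    | zero =>
      have h1 : (fun x => ch (0 + 1) x * ch 0 x) = fun x => Real.exp x - 1 := by
        ext x; exact h0 x
      rw [h1]
      have := LPPChain.lim_exp.sub_const 1
      simpa using this
    | succ n =>
      simp only [ch]
      have := ((hlim (n + 1)).const_mul (cc (n + 1))).mul ((hlim n).const_mul (cc n))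
      simpa using this

theorem chc_succ (n : ℕ) {m : ℝ} (hm : 0 < m) :
    LPPChain.c ch (n + 1) m = th (n + 1) m / ((2 * n + 3) * th n m) := by
  have hp := (th_pos n m hm).ne'
  have hc := (cc_pos n).ne'
  simp only [LPPChain.c, ch, cc]
  field_simp

theorem chw (n : ℕ) {m : ℝ} (hm : 0 < m) : LPPChain.w ch (n + 1) m = w n m := by
  induction n with
  | zero =>
    have hs : 0 < Real.sinh (m / 2) := Real.sinh_pos_iff.2 (by positivity)
    have hs' := hs.ne'
    simp only [LPPChain.w, LPPChain.c, ch, cc, th, w]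
    have hc : Real.cosh (m / 2) = Real.exp (m / 2) - Real.sinh (m / 2) := by
      have := Real.cosh_add_sinh (m / 2)
      linarith
    rw [hc]
    have he := (Real.exp_pos (m / 2)).ne'
    field_simp
  | succ n ih =>
    have h1 : LPPChain.w ch (n + 1 + 1) m =
      1 / LPPChain.c ch (n + 1) m - LPPChain.w ch (n + 1) m := rfl
    rw [h1, ih, chc_succ n hm]
    simp only [w]
    rw [one_div_div]

theorem chV (n : ℕ) {m : ℝ} (hm : 0 < m) : LPPChain.V ch n m = V n m := by
  induction n with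
  | zero => simp [LPPChain.V, V]
  | succ n ih => simp only [LPPChain.V, V, ih, chw n hm]

theorem chVD (n : ℕ) {m : ℝ} (hm : 0 < m) : LPPChain.V' ch n m = VD n m := by
  induction n with
  | zero => simp [LPPChain.V', VD]
  | succ n ih => simp only [LPPChain.V', VD, ih, chw n hm, chV n hm]

theorem w_deriv (n : ℕ) (m : ℝ) (hm : 0 < m) : HasDerivAt (w n) (V n m - w n m ^ 2) m := by
  have h1 := LPPChain.hasDerivAt_w' ch_isChain n m hm
  rw [chw n hm, chV n hm] at h1
  apply h1.congr_of_eventuallyEq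
  filter_upwards [lt_mem_nhds hm] with x hx
  exact (chw n hx).symm

theorem V_deriv (n : ℕ) (m : ℝ) (hm : 0 < m) : HasDerivAt (V n) (VD n m) m := by
  have h1 := LPPChain.hasDerivAt_V ch_isChain n m hm
  rw [chVD n hm] at h1
  apply h1.congr_of_eventuallyEq
  filter_upwards [lt_mem_nhds hm] with x hx
  exact (chV n hx).symm

private theorem A2_smooth (n : ℕ) : ContDiffOn ℝ (⊤ : ℕ∞) (V n) (Ioi 0) ∧
    ContDiffOn ℝ (⊤ : ℕ∞) (w n) (Ioi 0) := by
  have key : ∀ n : ℕ, ContDiffOn ℝ (⊤ : ℕ∞) (V n) (Ioi 0) →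
      ContDiffOn ℝ (⊤ : ℕ∞) (w n) (Ioi 0) := by
    intro n hV
    rw [contDiffOn_infty] at hV ⊢
    intro k
    induction k with
    | zero =>
      rw [Nat.cast_zero, contDiffOn_zero]
      intro x hx
      exact (w_deriv n x hx).continuousAt.continuousWithinAt
    | succ k ih =>
      have h2 : ContDiffOn ℝ ((k : WithTop ℕ∞) + 1) (w n) (Ioi 0) := by
        rw [contDiffOn_succ_iff_deriv_of_isOpen isOpen_Ioi]
        refine ⟨fun x hx => (w_deriv n x hx).differentiableAt.differentiableWithinAt, ?_, ?_⟩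
        · intro h
          exact absurd h (by simp)
        · have h3 : ContDiffOn ℝ k (fun x => V n x - w n x ^ 2) (Ioi 0) :=
            (hV k).sub (ih.pow 2)
          apply h3.congr
          intro x hx
          exact (w_deriv n x hx).deriv
      exact_mod_cast h2
  induction n with
  | zero =>
    have h1 : ContDiffOn ℝ (⊤ : ℕ∞) (V 0) (Ioi 0) := by
      have : V 0 = fun _ => 1 / 4 := by ext; simp [V]
      rw [this]; exact contDiffOn_const
    exact ⟨h1, key 0 h1⟩
  | succ n ih =>
    have h1 : ContDiffOn ℝ (⊤ : ℕ∞) (V (n + 1)) (Ioi 0) := by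
      have : V (n + 1) = fun m => 2 * w n m ^ 2 - V n m := by ext; simp [V]
      rw [this]
      exact (contDiffOn_const.mul (ih.2.pow 2)).sub ih.1
    exact ⟨h1, key _ h1⟩

theorem w_smooth (n : ℕ) : ContDiffOn ℝ (⊤ : ℕ∞) (w n) (Ioi 0) := (A2_smooth n).2

theorem V_smooth (n : ℕ) : ContDiffOn ℝ (⊤ : ℕ∞) (V n) (Ioi 0) := (A2_smooth n).1

theorem mV_lim (n : ℕ) :
    Tendsto (fun m => m ^ 2 * V n m) (𝓝[>] 0) (𝓝 ((n : ℝ) * (n + 1))) := by
  induction n with
  | zero =>
    have h1 : Tendsto (fun m : ℝ => m ^ 2 * (1 / 4)) (𝓝[>] 0) (𝓝 (0 ^ 2 * (1 / 4))) :=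
      (LPPChain.lim_id.pow 2).mul_const _
    simpa [V] using h1
  | succ n ih =>
    have h1 := (((mw_lim n).pow 2).const_mul 2).sub ih
    have e : 2 * ((n : ℝ) + 1) ^ 2 - (n : ℝ) * (n + 1) = ((n + 1 : ℕ) : ℝ) * (((n + 1 : ℕ) : ℝ) + 1) := by
      push_cast; ring
    rw [e] at h1
    apply h1.congr
    intro m
    simp only [V]
    ring

end LPPEnd
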