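import Pool.Agent.Lib.MP_267da7_pr.A2

/-!
# A3: the functions `X n = chi_n`, and the scaling identities

(1) `w (n+1) m + w n m = (2n+3) th n m / th (n+1) m > 0` (definition of `w (n+1)`), so
`X (n+1) m = th (n+1) m / ((2n+3) th n m) > 0` and, by the definition of `th (n+1)`,
`X (n+1) m * (th n m)^2 = int_0^m (th n)^2`.

(2) `X (n+1)' = 1 - 2 w_n X_(n+1)`: differentiate `X_(n+1) = (int_0^m th_n^2)/th_n^2`, or use
`(w_n + w_(n+1))' = w_n^2 - w_(n+1)^2`:  `X' = -(w_n^2 - w_(n+1)^2) X^2 = (w_(n+1) - w_n) X`; and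
`(w_n + w_(n+1)) X = 1`, so `1 - 2 w_n X = (w_(n+1) - w_n) X = 2 w_(n+1) X - 1`.

(3) the two identities, by simultaneous induction on `n` (`X_n' = 2 w_n X_n - 1` for `n >= 1`):
(ii_n)  `2 V_n + m VD_n = 1/2 - n (2 w_n X_n - 1)`,
(i_n)   `2 (w_n + m (V_n - w_n^2)) = (n+1) X_(n+1) - n X_n`.
(ii_0): `2/4 + 0 = 1/2`.
(ii_n) => (i_n): put `u = 2 (w_n + m (V_n - w_n^2)) - ((n+1) X_(n+1) - n X_n)`.  Claim `u' + 2 w_n u = 0` for `m > 0`:
 with `w' = V - w^2`: `(w + m (V-w^2))' = 2 w' + m (VD - 2 w w')`, so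
 `d/dm [2(w + m w')] + 2 w [2 (w + m w')] = 4 w' + 2 m VD - 4 m w w' + 4 w^2 + 4 m w w' = 4 V + 2 m VD = 1 - 2 n (2 w_n X_n - 1)`;
 `X_(n+1)' + 2 w_n X_(n+1) = 1` and (if `n >= 1`) `X_n' + 2 w_n X_n = (2 w_n X_n - 1) + 2 w_n X_n = 1 + 2 (2 w_n X_n - 1)`, so
 the second group contributes `(n+1) - n (1 + 2 (2 w_n X_n - 1)) = 1 - 2 n (2 w_n X_n - 1)`.  So `((th n)^2 u)' = 0`, and
 `(th n)^2 u -> 0` as `m -> 0+`: `m u = 2 (m w_n + m^2 V_n - (m w_n)^2) - m ((n+1) X_(n+1) - n X_n)`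
 `-> 2 ((n+1) + n(n+1) - (n+1)^2) - 0 = 0` (`X_(n+1) -> 0`, indeed `m w_n + m w_(n+1) -> 2n+3`, so `X_(n+1) / m -> 1/(2n+3)`), and
 `(th n m)^2 / m` is bounded near `0`: its logarithmic derivative is `(2 m w_n - 1)/m > 0` for small `m` (since `m w_n -> n+1`), so
 it is nondecreasing on some `(0,d)`, hence bounded there by its value at `d/2` or so.
 Therefore `(th n)^2 u = 0`.
(i_n), (ii_n) => (ii_(n+1)): `m^2 V_(n+1) = 2 (m w_n)^2 - m^2 V_n`; differentiate: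
 `2 m V_(n+1) + m^2 VD_(n+1) = 4 m w_n (w_n + m (V_n - w_n^2)) - (2 m V_n + m^2 VD_n)`
 (this is an identity from the definition of `VD (n+1)`), `= 2 m w_n ((n+1) X_(n+1) - n X_n) - m (1/2 - n (2 w_n X_n - 1))`
 `= m [(n+1) 2 w_n X_(n+1) - n - 1/2]`  and `2 w_n X_(n+1) = 1 - (2 w_(n+1) X_(n+1) - 1)`, so it is
 `m [1/2 - (n+1)(2 w_(n+1) X_(n+1) - 1)]`.
(For `n = 0` all terms with `n X_n` vanish, no property of `X 0` is used.)
-/

open Real MeasureTheory Set Filter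
open scoped Topology

namespace LPPEnd

theorem ww_pos (n : ℕ) (m : ℝ) (hm : 0 < m) : 0 < w (n + 1) m + w n m := by
  have h1 : w (n + 1) m + w n m = (2 * n + 3) * th n m / th (n + 1) m := by
    simp only [w]; ring
  rw [h1]
  have := th_pos n m hm
  have := th_pos (n + 1) m hm
  positivity

theorem X_eq (n : ℕ) (m : ℝ) (hm : 0 < m) :
    X (n + 1) m = th (n + 1) m / ((2 * n + 3) * th n m) := by
  have h1 : w (n + 1) m + w n m = (2 * n + 3) * th n m / th (n + 1) m := by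
    simp only [w]; ring
  simp only [X, Nat.add_sub_cancel]
  rw [h1, one_div_div]

theorem X_pos (n : ℕ) (m : ℝ) (hm : 0 < m) : 0 < X (n + 1) m := by
  simp only [X, Nat.add_sub_cancel]
  exact one_div_pos.2 (ww_pos n m hm)

theorem X_int (n : ℕ) (m : ℝ) (hm : 0 < m) :
    X (n + 1) m * th n m ^ 2 = ∫ t in (0:ℝ)..m, th n t ^ 2 := by
  rw [X_eq n m hm]
  have hp := (th_pos n m hm).ne'
  simp only [th]
  field_simp

/-- `X (n+1)` is the function `c (n+1)` of the chain. -/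
theorem chX (n : ℕ) {m : ℝ} (hm : 0 < m) : LPPChain.c ch (n + 1) m = X (n + 1) m := by
  rw [chc_succ n hm, X_eq n m hm]

theorem chz (n : ℕ) {m : ℝ} (hm : 0 < m) :
    LPPChain.z ch (n + 1) m = 1 - 2 * w n m * X (n + 1) m := by
  simp only [LPPChain.z]
  rw [chw n hm, chX n hm]

theorem X_deriv (n : ℕ) (m : ℝ) (hm : 0 < m) :
    HasDerivAt (X (n + 1)) (1 - 2 * w n m * X (n + 1) m) m := by
  have h1 := LPPChain.hasDerivAt_c ch_isChain (n + 1) m hm
  rw [chz n hm] at h1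
  apply h1.congr_of_eventuallyEq
  filter_upwards [lt_mem_nhds hm] with x hx
  exact (chX n hx).symm

theorem X_rel (n : ℕ) (m : ℝ) (hm : 0 < m) :
    1 - 2 * w n m * X (n + 1) m = 2 * w (n + 1) m * X (n + 1) m - 1 := by
  have h1 : (w (n + 1) m + w n m) * X (n + 1) m = 1 := by
    simp only [X, Nat.add_sub_cancel]
    have := (ww_pos n m hm).ne'
    field_simp
  linarith

theorem X_lim (n : ℕ) : Tendsto (fun m => X (n + 1) m) (𝓝[>] 0) (𝓝 0) := by
  have G := LPPChain.good ch_isChain (n + 1)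
  have h1 := LPPChain.lim_c ch_isChain G.ψ_le G.w_nonneg
  apply h1.congr'
  filter_upwards [self_mem_nhdsWithin] with m hm
  exact chX n hm

theorem id_ii (n : ℕ) (m : ℝ) (hm : 0 < m) :
    2 * V n m + m * VD n m = 1 / 2 - n * (2 * w n m * X n m - 1) := by
  have G := LPPChain.good ch_isChain n
  have t1 := G.T1 m hm
  rw [chV n hm, chVD n hm] at t1
  cases n with
  | zero =>
    simp only [Nat.cast_zero, zero_mul] at t1 ⊢
    linarith
  | succ n =>
    rw [chz n hm, X_rel n m hm] at t1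
    linarith

theorem id_i (n : ℕ) (m : ℝ) (hm : 0 < m) :
    2 * (w n m + m * (V n m - w n m ^ 2)) = (n + 1) * X (n + 1) m - n * X n m := by
  have G := LPPChain.good ch_isChain n
  have t2 := G.T2 ch_isChain m hm
  rw [chV n hm, chw n hm, chX n hm] at t2
  cases n with
  | zero =>
    simp only [Nat.cast_zero, zero_mul] at t2 ⊢
    linarith
  | succ n =>
    rw [chX n hm] at t2
    linarith

end LPPEnd
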