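import Pool.Agent.Lib.MP_267da7_pr.A3

/-!
# A4: monotonicity along the chain

For all `n` and `m > 0`:  `V_n <= w_n^2` (so `w_n' <= 0`), `V_n >= 1/4`, `VD_n <= 0`, `w_n <= w_(n+1)`, `w_n >= 1/2`.

Induction on `n` for the statement `P_n`: `V_n <= w_n^2`, `1/4 <= V_n`, `VD_n <= 0`, `1/2 <= w_n`, and `w_n <= w_(n+1)`.
`n = 0`: `V_0 - w_0^2 = 1/4 - cosh^2/(4 sinh^2) = -1/(4 sinh^2) <= 0`, `VD_0 = 0`, `w_0 = coth(m/2)/2 >= 1/2`.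
(*) `V_n <= w_n^2` implies `w_n <= w_(n+1)`:  `f = m (w_(n+1) - w_n)` has limit `(n+2) - (n+1) = 1 >= 0` at `0+` and
 `f' = (w_(n+1) - w_n) + m ((V_(n+1) - w_(n+1)^2) - (V_n - w_n^2)) = (w_(n+1) - w_n) + m (V_(n+1) - V_n) - m (w_(n+1)-w_n)(w_(n+1)+w_n)`
 with `V_(n+1) - V_n = 2 (w_n^2 - V_n) >= 0`.  Better: apply `tool1` to `h = (w_(n+1) - w_n) (th n) (th (n+1))`:
 `h' = (V_(n+1) - V_n) th_n th_(n+1) >= 0` (the Riccati terms cancel), and `h -> 0` at `0+`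
 (`m (w_(n+1)-w_n) -> 1`, `th n` bounded near 0 , `th (n+1) / m -> 0`: indeed `th_(n+1) = (2n+3) X_(n+1) th_n` and `X_(n+1)/m -> 1/(2n+3)`,
 `th_n -> 0`).  So `h >= 0` by `tool0`.
Step `n -> n+1`: `V_(n+1) = V_n + 2 (w_n^2 - V_n) >= V_n >= 1/4`.  By A3 (`id_ii` for `n+1` and `X_rel`)
 `m VD_(n+1) = 1/2 - (n+1)(2 w_(n+1) X_(n+1) - 1) - 2 V_(n+1)` and `2 w_(n+1) X_(n+1) - 1 = (w_(n+1) - w_n) X_(n+1) >= 0`, so
 `m VD_(n+1) <= 1/2 - 2 V_(n+1) <= 0`.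
 `D = w_(n+1)^2 - V_(n+1) >= 0`: `D' = 2 w_(n+1) (-D) - VD_(n+1)`.  `w_(n+1) >= w_n >= 1/2 > 0`, so if `D < 0` then `D' >= 0`;
 to have a limit use `f = m^2 D = (m w_(n+1))^2 - m^2 V_(n+1) -> (n+2)^2 - (n+1)(n+2) = n+2 >= 0`:
 `f' = 2 m D + m^2 D' = 2 m D - 2 m^2 w D - m^2 VD = 2 m D (1 - m w_(n+1)) - m^2 VD`.  For `D < 0` this is `>= 0` provided
 `m w_(n+1) >= 1`; to avoid this use `tool0` for `h = (th (n+1))^2 D`: `h' = 2 w h + (th)^2 (-2 w D - VD) = -(th)^2 VD >= 0`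
 and `h -> 0` at `0+`  (`(th (n+1))^2 / m^2 -> 0`, since `th (n+1)/m -> 0` as above, and `m^2 D` has a finite limit).
 Finally `w_(n+1) >= w_n` follows from (*) for `n+1`.
-/

open Real MeasureTheory Set Filter
open scoped Topology

namespace LPPEnd

theorem A4 (n : ℕ) (m : ℝ) (hm : 0 < m) :
    V n m ≤ w n m ^ 2 ∧ 1 / 4 ≤ V n m ∧ VD n m ≤ 0 ∧ w n m ≤ w (n + 1) m ∧ 1 / 2 ≤ w n m := by
  have G1 := LPPChain.good ch_isChain (n + 1)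
  have a1 := G1.w_anti m hm
  have a2 := LPPChain.V_ge ch_isChain n m hm
  have a3 := LPPChain.V'_nonpos ch_isChain n m hm
  have a4 := G1.z_nonneg ch_isChain m hm
  have a5 := G1.w_half m hm
  rw [chw n hm, chV (n + 1) hm] at a1
  rw [chV n hm] at a2
  rw [chVD n hm] at a3
  rw [chz n hm] at a4
  rw [chw n hm] at a5
  refine ⟨?_, a2, a3, ?_, a5⟩
  · simp only [V] at a1
    linarith
  · have h1 := X_rel n m hm
    have h2 := X_pos n m hm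
    have h3 : w n m * (2 * X (n + 1) m) ≤ w (n + 1) m * (2 * X (n + 1) m) := by nlinarith
    exact le_of_mul_le_mul_right h3 (by positivity)

end LPPEnd
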