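import Pool.Agent.Lib.MP_267da7_pr.A4

/-!
# A5: quantitative bounds along the chain

For all `n`, `m > 0` (write `W = m w_n`, `v = m^2 V_n`):
(a) `n(n+1) + m^2/(4(2n+1)) <= v <= n(n+1) + m^2/4`,
(b) `n + 1 <= W <= n + 1 + (n+1) m^2/(4(2n+3))`,
(c) `(n+1) w_(n+1) <= (n+2) w_n`,
(d) `0 <= 2 w_(n+1) X_(n+1) - 1 <= 1/(2n+3)`,
(e) `X_(n+1) <= m/(2n+3)`, `X_(n+1) <= 1`.

Induction on `n` for  Q_n: `1/(2(2n+1)) <= 2 V_n + m VD_n` for all `m > 0`.   Q_0: `1/2 + 0 >= 1/2`.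
Q_n => (a) lower: `f = v - m^2/(4(2n+1))`, `f' = m (2 V_n + m VD_n) - m/(2(2n+1)) >= 0`, limit `n(n+1)` at `0+` (`mV_lim`), `tool0`.
(a) upper: `f = n(n+1) + m^2/4 - v`, `f' = m/2 - m (2V_n + m VD_n) = m n (2 w_n X_n - 1) >= 0` by `id_ii` and
 (for `n >= 1`) `2 w_n X_n - 1 = (w_n - w_(n-1)) X_n >= 0` (A4, X_rel); limit `0`.
(b) lower: `f = W - (n+1)`, `m f' = W + v - W^2`; if `f < 0`, then `m f' >= W - W^2 + n(n+1) = (n+1-W)(W+n) >= 0` as `W > 0`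
 (`w_n >= 1/2`, A4).  `tool1`, limit `0`.
K_n := `(n+1) v - n W^2 >= 0`: `m K' = (n+1) m^2 (2V_n + m VD_n) - 2 n W (W - W^2 + v)` and `v = (K + n W^2)/(n+1)`, so
 `m K' = (n+1) m^2 (2 V_n + m VD_n) + 2 n W^2 (W - (n+1))/(n+1) - (2n/(n+1)) W K`; if `K < 0` then `m K' >= 0`.  `tool1`, limit
 `(n+1) n (n+1) - n (n+1)^2 = 0`.
 So `V_n >= (n/(n+1)) w_n^2` and `V_(n+1) = 2 w_n^2 - V_n <= ((n+2)/(n+1)) w_n^2`.
(c) `f = (n+2) W_n - (n+1) W_(n+1)`, limit `0`.  With `v_n = 2 W_n^2 - v_(n+1)`: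
 `m f' = (n+2)(W_n + v_n - W_n^2) - (n+1)(W_(n+1) + v_(n+1) - W_(n+1)^2) = f + (n+2) W_n^2 + (n+1) W_(n+1)^2 - (2n+3) v_(n+1)`
 `>= f + (n+2) W_n^2 + (n+1) W_(n+1)^2 - (2n+3)((n+2)/(n+1)) W_n^2 = f + (1/(n+1)) [((n+1) W_(n+1))^2 - ((n+2) W_n)^2]`
 `= f (1 - ((n+1) W_(n+1) + (n+2) W_n)/(n+1))`, and the bracket is `<= 1 - (n+2) <= 0` (as `W_n >= n+1`, `W_(n+1) >= 0`), so if
 `f < 0` then `m f' >= 0`.  `tool1`.
(d) `2 w_(n+1) X_(n+1) - 1 = (w_(n+1) - w_n)/(w_(n+1) + w_n)`; `>= 0` by A4; `<= 1/(2n+3)` iff `(2n+2) w_(n+1) <= (2n+4) w_n`: (c).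
Q_(n+1): `id_ii` for `n+1` and (d): `2 V_(n+1) + m VD_(n+1) >= 1/2 - (n+1)/(2n+3) = 1/(2(2n+3))`.
(e) `X_(n+1)' = 1 - 2 w_n X_(n+1) = 2 w_(n+1) X_(n+1) - 1 <= 1/(2n+3)`, limit `0` (`X_lim`): `tool0` for `m/(2n+3) - X_(n+1)`.
 `X_(n+1) = 1/(w_(n+1) + w_n) <= 1` as `w >= 1/2`.
(b) upper: by `id_i`, `W_n' = w_n + m (V_n - w_n^2) = ((n+1) X_(n+1) - n X_n)/2 <= (n+1) m/(2 (2n+3))` (for `n >= 1`, `X_n >= 0`),
 `tool0` for `(n+1) + (n+1) m^2/(4(2n+3)) - W_n`, limit `0`.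
-/

open Real MeasureTheory Set Filter
open scoped Topology

namespace LPPEnd

/-- derivative of `m ^ 2 * V n m`. -/
private lemma a5_dv (n : ℕ) (m : ℝ) (hm : 0 < m) :
    HasDerivAt (fun m => m ^ 2 * V n m) (m * (2 * V n m + m * VD n m)) m := by
  have h := (hasDerivAt_pow 2 m).mul (V_deriv n m hm)
  refine h.congr_deriv ?_
  simp
  ring

/-- derivative of `m * w n m`. -/
private lemma a5_dW (n : ℕ) (m : ℝ) (hm : 0 < m) :
    HasDerivAt (fun m => m * w n m) (w n m + m * (V n m - w n m ^ 2)) m := by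
  have h := (hasDerivAt_id' m).mul (w_deriv n m hm)
  refine h.congr_deriv ?_
  ring

private lemma a5_dsq (c m : ℝ) : HasDerivAt (fun m : ℝ => m ^ 2 * c) (2 * m * c) m := by
  have h := (hasDerivAt_pow 2 m).mul_const c
  refine h.congr_deriv ?_
  simp

private lemma a5_lsq (c : ℝ) : Tendsto (fun m : ℝ => m ^ 2 * c) (𝓝[>] 0) (𝓝 0) := by
  have h : Tendsto (fun m : ℝ => m ^ 2 * c) (𝓝 0) (𝓝 (0 ^ 2 * c)) := by
    apply Continuous.tendsto
    fun_prop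
  have h2 : (0 : ℝ) ^ 2 * c = 0 := by ring
  rw [h2] at h
  exact h.mono_left nhdsWithin_le_nhds

private lemma a5_llin (c : ℝ) : Tendsto (fun m : ℝ => m * c) (𝓝[>] 0) (𝓝 0) := by
  have h : Tendsto (fun m : ℝ => m * c) (𝓝 0) (𝓝 (0 * c)) := by
    apply Continuous.tendsto
    fun_prop
  rw [zero_mul] at h
  exact h.mono_left nhdsWithin_le_nhds

private lemma a5_wpos (n : ℕ) (m : ℝ) (hm : 0 < m) : 0 < w n m := by
  have := (A4 n m hm).2.2.2.2
  linarith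

/-- `(w_(n+1) + w_n) X_(n+1) = 1`. -/
private lemma a5_sX (n : ℕ) (m : ℝ) (hm : 0 < m) :
    (w (n + 1) m + w n m) * X (n + 1) m = 1 := by
  have := X_rel n m hm
  linarith

private lemma a5_dX (n : ℕ) (m : ℝ) (hm : 0 < m) :
    2 * w (n + 1) m * X (n + 1) m - 1 = (w (n + 1) m - w n m) * X (n + 1) m := by
  have := a5_sX n m hm
  linarith

private lemma a5_dlow (n : ℕ) (m : ℝ) (hm : 0 < m) :
    0 ≤ 2 * w (n + 1) m * X (n + 1) m - 1 := by
  rw [a5_dX n m hm]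
  have h1 := (A4 n m hm).2.2.2.1
  exact mul_nonneg (by linarith) (X_pos n m hm).le

/-- upper bound for `v`. -/
private lemma a5_vup (n : ℕ) (m : ℝ) (hm : 0 < m) :
    m ^ 2 * V n m ≤ (n : ℝ) * (n + 1) + m ^ 2 / 4 := by
  have h := tool0 (fun m => m ^ 2 * (1 / 4) - m ^ 2 * V n m)
    (fun m => 2 * m * (1 / 4) - m * (2 * V n m + m * VD n m))
    (fun m hm => (a5_dsq (1 / 4) m).sub (a5_dv n m hm))
    (by
      intro m hm
      have h1 := id_ii n m hm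
      have h2 : 0 ≤ (n : ℝ) * (2 * w n m * X n m - 1) := by
        rcases n with _ | n
        · simp
        · exact mul_nonneg (by positivity) (a5_dlow n m hm)
      show 0 ≤ 2 * m * (1 / 4) - m * (2 * V n m + m * VD n m)
      rw [h1]
      have h3 := mul_nonneg hm.le h2
      linarith)
    (0 - (n : ℝ) * (n + 1)) ((a5_lsq (1 / 4)).sub (mV_lim n)) m hm
  have h' : 0 - (n : ℝ) * (n + 1) ≤ m ^ 2 * (1 / 4) - m ^ 2 * V n m := h
  linarith

/-- lower bound for `v` from `Q_n`. -/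
private lemma a5_vlow (n : ℕ)
    (hQ : ∀ m, 0 < m → 1 / (2 * (2 * (n : ℝ) + 1)) ≤ 2 * V n m + m * VD n m)
    (m : ℝ) (hm : 0 < m) :
    (n : ℝ) * (n + 1) + m ^ 2 / (4 * (2 * n + 1)) ≤ m ^ 2 * V n m := by
  have h := tool0 (fun m => m ^ 2 * V n m - m ^ 2 * (1 / (4 * (2 * (n : ℝ) + 1))))
    (fun m => m * (2 * V n m + m * VD n m) - 2 * m * (1 / (4 * (2 * (n : ℝ) + 1))))
    (fun m hm => (a5_dv n m hm).sub (a5_dsq _ m))
    (by
      intro m hm
      have h1 := mul_le_mul_of_nonneg_left (hQ m hm) hm.le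
      have h2 : 2 * m * (1 / (4 * (2 * (n : ℝ) + 1))) = m * (1 / (2 * (2 * (n : ℝ) + 1))) := by
        field_simp
        ring
      show 0 ≤ m * (2 * V n m + m * VD n m) - 2 * m * (1 / (4 * (2 * (n : ℝ) + 1)))
      rw [h2]
      linarith)
    ((n : ℝ) * (n + 1) - 0) ((mV_lim n).sub (a5_lsq _)) m hm
  have h' : (n : ℝ) * (n + 1) - 0 ≤ m ^ 2 * V n m - m ^ 2 * (1 / (4 * (2 * (n : ℝ) + 1))) := h
  have h2 : m ^ 2 / (4 * (2 * (n : ℝ) + 1)) = m ^ 2 * (1 / (4 * (2 * (n : ℝ) + 1))) := by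
    field_simp
  rw [h2]
  linarith

/-- lower bound for `W` from the lower bound for `v`. -/
private lemma a5_wlow (n : ℕ) (hv : ∀ m, 0 < m → (n : ℝ) * (n + 1) ≤ m ^ 2 * V n m)
    (m : ℝ) (hm : 0 < m) : (n : ℝ) + 1 ≤ m * w n m := by
  have h := tool1 (fun m => m * w n m - ((n : ℝ) + 1))
    (fun m => w n m + m * (V n m - w n m ^ 2))
    (fun m hm => (a5_dW n m hm).sub_const _)
    (by
      intro m hm hf
      have hW : 0 < m * w n m := mul_pos hm (a5_wpos n m hm)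
      have hf' : m * w n m - ((n : ℝ) + 1) < 0 := hf
      have h1 := hv m hm
      have h2 : 0 ≤ ((n : ℝ) + 1 - m * w n m) * (m * w n m + n) := by
        apply mul_nonneg (by linarith)
        have : (0 : ℝ) ≤ n := Nat.cast_nonneg n
        linarith
      have h3 : 0 ≤ m * (w n m + m * (V n m - w n m ^ 2)) := by
        nlinarith
      show 0 ≤ w n m + m * (V n m - w n m ^ 2)
      exact nonneg_of_mul_nonneg_right h3 hm)
    0 le_rfl (by
      have h1 := (mw_lim n).sub_const ((n : ℝ) + 1)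
      rwa [sub_self] at h1) m hm
  have h' : 0 ≤ m * w n m - ((n : ℝ) + 1) := h
  linarith

/-- `(n+1) v >= n W^2`. -/
private lemma a5_K (n : ℕ)
    (hQ : ∀ m, 0 < m → 0 ≤ 2 * V n m + m * VD n m)
    (hW : ∀ m, 0 < m → (n : ℝ) + 1 ≤ m * w n m)
    (m : ℝ) (hm : 0 < m) :
    (n : ℝ) * (m * w n m) ^ 2 ≤ (n + 1) * (m ^ 2 * V n m) := by
  have h := tool1 (fun m => ((n : ℝ) + 1) * (m ^ 2 * V n m) - n * (m * w n m) ^ 2)
    (fun m => ((n : ℝ) + 1) * (m * (2 * V n m + m * VD n m))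
      - n * (2 * (m * w n m) * (w n m + m * (V n m - w n m ^ 2))))
    (by
      intro m hm
      have h1 := ((a5_dv n m hm).const_mul ((n : ℝ) + 1)).sub
        (((a5_dW n m hm).pow 2).const_mul (n : ℝ))
      refine h1.congr_deriv ?_
      simp)
    (by
      intro m hm hf
      have hf' : ((n : ℝ) + 1) * (m ^ 2 * V n m) - n * (m * w n m) ^ 2 < 0 := hf
      have h1 := hQ m hm
      have h2 := hW m hm
      have hn : (0 : ℝ) ≤ n := Nat.cast_nonneg n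
      have hn1 : (0 : ℝ) < n + 1 := by linarith
      have hWp : 0 < m * w n m := by linarith
      set K : ℝ := ((n : ℝ) + 1) * (m ^ 2 * V n m) - n * (m * w n m) ^ 2 with hK
      have e1 : ((n : ℝ) + 1) * (m * (((n : ℝ) + 1) * (m * (2 * V n m + m * VD n m))
          - n * (2 * (m * w n m) * (w n m + m * (V n m - w n m ^ 2)))))
          = ((n : ℝ) + 1) ^ 2 * (m ^ 2 * (2 * V n m + m * VD n m))
            + 2 * n * (m * w n m) ^ 2 * (m * w n m - (n + 1)) + 2 * n * (m * w n m) * (-K) := by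
        rw [hK]
        ring
      have e2 : 0 ≤ ((n : ℝ) + 1) ^ 2 * (m ^ 2 * (2 * V n m + m * VD n m)) := by positivity
      have e3 : 0 ≤ 2 * (n : ℝ) * (m * w n m) ^ 2 * (m * w n m - (n + 1)) :=
        mul_nonneg (by positivity) (by linarith)
      have e4 : 0 ≤ 2 * (n : ℝ) * (m * w n m) * (-K) :=
        mul_nonneg (by positivity) (by linarith)
      have e5 : 0 ≤ ((n : ℝ) + 1) * (m * (((n : ℝ) + 1) * (m * (2 * V n m + m * VD n m))
          - n * (2 * (m * w n m) * (w n m + m * (V n m - w n m ^ 2))))) := by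
        rw [e1]
        linarith
      exact nonneg_of_mul_nonneg_right (nonneg_of_mul_nonneg_right e5 hn1) hm)
    0 le_rfl (by
      have h1 := ((mV_lim n).const_mul ((n : ℝ) + 1)).sub (((mw_lim n).pow 2).const_mul (n : ℝ))
      have h2 : ((n : ℝ) + 1) * ((n : ℝ) * (n + 1)) - n * ((n : ℝ) + 1) ^ 2 = 0 := by ring
      rwa [h2] at h1) m hm
  have h' : 0 ≤ ((n : ℝ) + 1) * (m ^ 2 * V n m) - n * (m * w n m) ^ 2 := h
  linarith

/-- (c) from the bound `K >= 0`. -/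
private lemma a5_c (n : ℕ)
    (hW : ∀ m, 0 < m → (n : ℝ) + 1 ≤ m * w n m)
    (hK : ∀ m, 0 < m → (n : ℝ) * (m * w n m) ^ 2 ≤ (n + 1) * (m ^ 2 * V n m))
    (m : ℝ) (hm : 0 < m) :
    ((n : ℝ) + 1) * w (n + 1) m ≤ (n + 2) * w n m := by
  have h := tool1 (fun m => ((n : ℝ) + 2) * (m * w n m) - (n + 1) * (m * w (n + 1) m))
    (fun m => ((n : ℝ) + 2) * (w n m + m * (V n m - w n m ^ 2))
      - (n + 1) * (w (n + 1) m + m * (V (n + 1) m - w (n + 1) m ^ 2)))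
    (fun m hm => ((a5_dW n m hm).const_mul _).sub ((a5_dW (n + 1) m hm).const_mul _))
    (by
      intro m hm hf
      have hf' : ((n : ℝ) + 2) * (m * w n m) - (n + 1) * (m * w (n + 1) m) < 0 := hf
      have h1 := hK m hm
      have h2 := hW m hm
      have hn : (0 : ℝ) ≤ n := Nat.cast_nonneg n
      have hn1 : (0 : ℝ) < n + 1 := by linarith
      have hV : V (n + 1) m = 2 * w n m ^ 2 - V n m := rfl
      have hW1 : 0 < m * w (n + 1) m := mul_pos hm (a5_wpos (n + 1) m hm)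
      rw [hV]
      set f : ℝ := ((n : ℝ) + 2) * (m * w n m) - (n + 1) * (m * w (n + 1) m) with hfd
      have e1 : ((n : ℝ) + 1) * (m * (((n : ℝ) + 2) * (w n m + m * (V n m - w n m ^ 2))
          - (n + 1) * (w (n + 1) m + m * (2 * w n m ^ 2 - V n m - w (n + 1) m ^ 2))))
          = (-f) * ((((n : ℝ) + 1) * (m * w (n + 1) m) + (n + 2) * (m * w n m)) - (n + 1))
            + (2 * n + 3) * ((n + 1) * (m ^ 2 * V n m) - n * (m * w n m) ^ 2) := by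
        rw [hfd]
        ring
      have e2 : 0 ≤ (-f) * ((((n : ℝ) + 1) * (m * w (n + 1) m) + (n + 2) * (m * w n m)) - (n + 1)) := by
        apply mul_nonneg (by linarith)
        have e3 : 0 < ((n : ℝ) + 1) * (m * w (n + 1) m) := mul_pos hn1 hW1
        have e4 : ((n : ℝ) + 2) * (n + 1) ≤ (n + 2) * (m * w n m) :=
          mul_le_mul_of_nonneg_left h2 (by linarith)
        nlinarith
      have e5 : 0 ≤ (2 * (n : ℝ) + 3) * ((n + 1) * (m ^ 2 * V n m) - n * (m * w n m) ^ 2) :=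
        mul_nonneg (by linarith) (by linarith)
      have e6 : 0 ≤ ((n : ℝ) + 1) * (m * (((n : ℝ) + 2) * (w n m + m * (V n m - w n m ^ 2))
          - (n + 1) * (w (n + 1) m + m * (2 * w n m ^ 2 - V n m - w (n + 1) m ^ 2)))) := by
        rw [e1]
        linarith
      exact nonneg_of_mul_nonneg_right (nonneg_of_mul_nonneg_right e6 hn1) hm)
    0 le_rfl (by
      have h1 := ((mw_lim n).const_mul ((n : ℝ) + 2)).sub ((mw_lim (n + 1)).const_mul ((n : ℝ) + 1))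
      have h2 : ((n : ℝ) + 2) * ((n : ℝ) + 1) - (n + 1) * (((n + 1 : ℕ) : ℝ) + 1) = 0 := by
        push_cast
        ring
      rwa [h2] at h1) m hm
  have h' : 0 ≤ ((n : ℝ) + 2) * (m * w n m) - (n + 1) * (m * w (n + 1) m) := h
  have h2 : 0 ≤ m * (((n : ℝ) + 2) * w n m - (n + 1) * w (n + 1) m) := by
    have : m * (((n : ℝ) + 2) * w n m - (n + 1) * w (n + 1) m)
      = ((n : ℝ) + 2) * (m * w n m) - (n + 1) * (m * w (n + 1) m) := by ring
    rw [this]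
    exact h'
  have h3 := nonneg_of_mul_nonneg_right h2 hm
  linarith

/-- upper half of (d) from (c). -/
private lemma a5_dup (n : ℕ) (m : ℝ) (hm : 0 < m)
    (hc : ((n : ℝ) + 1) * w (n + 1) m ≤ (n + 2) * w n m) :
    2 * w (n + 1) m * X (n + 1) m - 1 ≤ 1 / (2 * (n : ℝ) + 3) := by
  rw [a5_dX n m hm]
  have hn : (0 : ℝ) ≤ n := Nat.cast_nonneg n
  rw [le_div_iff₀ (by linarith)]
  have h1 := a5_sX n m hm
  have h2 := X_pos n m hm
  have h3 : (2 * (n : ℝ) + 3) * (w (n + 1) m - w n m) ≤ w (n + 1) m + w n m := by linarith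
  have h4 := mul_le_mul_of_nonneg_right h3 h2.le
  rw [h1] at h4
  linarith

/-- everything that follows from `Q_n`. -/
private lemma a5_step (n : ℕ)
    (hQ : ∀ m, 0 < m → 1 / (2 * (2 * (n : ℝ) + 1)) ≤ 2 * V n m + m * VD n m)
    (m : ℝ) (hm : 0 < m) :
    (n : ℝ) + 1 ≤ m * w n m ∧ ((n : ℝ) + 1) * w (n + 1) m ≤ (n + 2) * w n m := by
  have hn : (0 : ℝ) ≤ n := Nat.cast_nonneg n
  have hv : ∀ m, 0 < m → (n : ℝ) * (n + 1) ≤ m ^ 2 * V n m := by
    intro m hm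
    have h1 := a5_vlow n hQ m hm
    have h2 : 0 ≤ m ^ 2 / (4 * (2 * (n : ℝ) + 1)) := by positivity
    linarith
  have hW := a5_wlow n hv
  have hQ' : ∀ m, 0 < m → 0 ≤ 2 * V n m + m * VD n m := by
    intro m hm
    have h1 := hQ m hm
    have h2 : 0 ≤ 1 / (2 * (2 * (n : ℝ) + 1)) := by positivity
    linarith
  exact ⟨hW m hm, a5_c n hW (a5_K n hQ' hW) m hm⟩

theorem A5_Q (n : ℕ) (m : ℝ) (hm : 0 < m) :
    1 / (2 * (2 * (n : ℝ) + 1)) ≤ 2 * V n m + m * VD n m := by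
  induction n generalizing m with
  | zero =>
    have h1 : V 0 m = 1 / 4 := rfl
    have h2 : VD 0 m = 0 := rfl
    rw [h1, h2]
    norm_num
  | succ n ih =>
    have h1 := (a5_step n ih m hm).2
    have h2 := a5_dup n m hm h1
    have h3 := id_ii (n + 1) m hm
    rw [h3]
    push_cast
    have hn : (0 : ℝ) ≤ n := Nat.cast_nonneg n
    have h4 := mul_le_mul_of_nonneg_left h2 (by linarith : (0 : ℝ) ≤ (n : ℝ) + 1)
    have h5 : 1 / (2 * (2 * ((n : ℝ) + 1) + 1)) = 1 / 2 - ((n : ℝ) + 1) * (1 / (2 * (n : ℝ) + 3)) := by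
      have h6 : (2 * (n : ℝ) + 3) ≠ 0 := by positivity
      have h7 : (2 * ((n : ℝ) + 1) + 1) = 2 * (n : ℝ) + 3 := by ring
      rw [h7]
      field_simp
      ring
    rw [h5]
    linarith

theorem A5_v (n : ℕ) (m : ℝ) (hm : 0 < m) :
    (n : ℝ) * (n + 1) + m ^ 2 / (4 * (2 * n + 1)) ≤ m ^ 2 * V n m ∧
    m ^ 2 * V n m ≤ (n : ℝ) * (n + 1) + m ^ 2 / 4 :=
  ⟨a5_vlow n (A5_Q n) m hm, a5_vup n m hm⟩

theorem A5_c (n : ℕ) (m : ℝ) (hm : 0 < m) :
    ((n : ℝ) + 1) * w (n + 1) m ≤ (n + 2) * w n m :=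
  (a5_step n (A5_Q n) m hm).2

theorem A5_d (n : ℕ) (m : ℝ) (hm : 0 < m) :
    0 ≤ 2 * w (n + 1) m * X (n + 1) m - 1 ∧
    2 * w (n + 1) m * X (n + 1) m - 1 ≤ 1 / (2 * (n : ℝ) + 3) :=
  ⟨a5_dlow n m hm, a5_dup n m hm (A5_c n m hm)⟩

theorem A5_X (n : ℕ) (m : ℝ) (hm : 0 < m) :
    X (n + 1) m ≤ m / (2 * (n : ℝ) + 3) ∧ X (n + 1) m ≤ 1 := by
  constructor
  · have h := tool0 (fun m => m * (1 / (2 * (n : ℝ) + 3)) - X (n + 1) m)
      (fun m => 1 * (1 / (2 * (n : ℝ) + 3)) - (1 - 2 * w n m * X (n + 1) m))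
      (fun m hm => ((hasDerivAt_id' m).mul_const _).sub (X_deriv n m hm))
      (by
        intro m hm
        have h1 := (A5_d n m hm).2
        have h2 := X_rel n m hm
        show 0 ≤ 1 * (1 / (2 * (n : ℝ) + 3)) - (1 - 2 * w n m * X (n + 1) m)
        rw [h2]
        linarith)
      (0 - 0) ((a5_llin _).sub (X_lim n)) m hm
    have h' : (0 : ℝ) - 0 ≤ m * (1 / (2 * (n : ℝ) + 3)) - X (n + 1) m := h
    have h2 : m / (2 * (n : ℝ) + 3) = m * (1 / (2 * (n : ℝ) + 3)) := by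
      field_simp
    rw [h2]
    linarith
  · have h1 := a5_sX n m hm
    have h2 := (A4 n m hm).2.2.2.2
    have h3 := (A4 (n + 1) m hm).2.2.2.2
    have h4 := X_pos n m hm
    nlinarith

theorem A5_w (n : ℕ) (m : ℝ) (hm : 0 < m) :
    (n : ℝ) + 1 ≤ m * w n m ∧ m * w n m ≤ n + 1 + (n + 1) * m ^ 2 / (4 * (2 * n + 3)) := by
  refine ⟨(a5_step n (A5_Q n) m hm).1, ?_⟩
  have hn : (0 : ℝ) ≤ n := Nat.cast_nonneg n
  have h := tool0 (fun m => m ^ 2 * (((n : ℝ) + 1) / (4 * (2 * n + 3))) - m * w n m)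
    (fun m => 2 * m * (((n : ℝ) + 1) / (4 * (2 * n + 3))) - (w n m + m * (V n m - w n m ^ 2)))
    (fun m hm => (a5_dsq _ m).sub (a5_dW n m hm))
    (by
      intro m hm
      have h1 := id_i n m hm
      have h2 := (A5_X n m hm).1
      have h3 : 0 ≤ (n : ℝ) * X n m := by
        rcases n with _ | n
        · simp
        · exact mul_nonneg (by positivity) (X_pos n m hm).le
      have h4 := mul_le_mul_of_nonneg_left h2 (by linarith : (0 : ℝ) ≤ (n : ℝ) + 1)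
      have h5 : 2 * m * (((n : ℝ) + 1) / (4 * (2 * n + 3))) = (((n : ℝ) + 1) * (m / (2 * (n : ℝ) + 3))) / 2 := by
        field_simp
        ring
      show 0 ≤ 2 * m * (((n : ℝ) + 1) / (4 * (2 * n + 3))) - (w n m + m * (V n m - w n m ^ 2))
      rw [h5]
      linarith)
    (0 - ((n : ℝ) + 1)) ((a5_lsq _).sub (mw_lim n)) m hm
  have h' : 0 - ((n : ℝ) + 1) ≤ m ^ 2 * (((n : ℝ) + 1) / (4 * (2 * n + 3))) - m * w n m := h
  have h2 : ((n : ℝ) + 1) * m ^ 2 / (4 * (2 * n + 3)) = m ^ 2 * (((n : ℝ) + 1) / (4 * (2 * n + 3))) := by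
    field_simp
  rw [h2]
  linarith

end LPPEnd
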