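import Pool.Agent.Lib.MP_267da7_pr.A5

/-!
# A6: `chi` is concave, i.e. `V_(n+1) <= w_(n+1) w_n`   (the key inequality)

Write `N = n+1`, `x = X N` (function of `m > 0`), `V = V_N`, `w = w_N`, `VD = VD_N`, and
`cc = x' = 2 w x - 1`,  `F = x'' = 2 (V - w^2) x + 2 w (2 w x - 1) = (2 V + 2 w^2) x - 2 w`.
Since `x = 1/(w_N + w_(N-1))`:  `F <= 0  iff  V + w^2 <= w (w_N + w_(N-1))  iff  V_N <= w_N w_(N-1)`.

Facts (A3, A4, A5): `0 < x <= 1`, `x <= m/(2N+1)`, `0 <= cc <= 1/(2N+1)`, `m VD = 1/2 - N cc - 2 V`, and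
`cc -> 1/(2N+1)` as `m -> 0+` (`cc = (w_N - w_(N-1))/(w_N + w_(N-1))`, A1(e)).
(1) `2 V x^2 = x F - cc^2/2 + 1/2`  (identity from `cc = 2 w x - 1` and `F`).
(2) `F' = 2 VD x + 4 V cc`  (differentiate `F`), hence with `m VD = 1/2 - N cc - 2V` and (1), i.e. `4 V = (2 x F + 1 - cc^2)/x^2`:
 `m F' = x (1 - 2 N cc) - 4 V (x - m cc) = -(2 (x - m cc)/x) F + ((1 - cc^2)/x^2) k`,
 `k := x^3 (1 - 2 N cc)/(1 - cc^2) - (x - m cc)`.
(3) `k' = 3 x^2 cc (1 - 2 N cc)/(1 - cc^2) + F * Lam`,  `Lam := m - 2 x^3 (N - cc + N cc^2)/(1 - cc^2)^2`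
 (`d/dcc [(1 - 2 N cc)/(1 - cc^2)] = -2 (N - cc + N cc^2)/(1 - cc^2)^2`).
(4) `Lam > 0`:  `x^3 <= x * 1 <= m/(2N+1)`, `0 <= N - cc + N cc^2`, so it is enough that
 `2N/(2N+1) * (1 - cc/N + cc^2) < (1 - cc^2)^2` or `<=` with `x < 1`; we have `(1 - cc^2)^2 >= 1 - 2 cc^2`, `2N/(2N+1) = 1 - 1/(2N+1) <= 1 - cc`,
 `(1 - cc)(1 - cc/N + cc^2) = 1 - cc/N + cc^2 - cc + cc^2/N - cc^3`, and this is `<= 1 - 2 cc^2` iff `3 cc^2 + cc^2/N - cc^3 <= cc + cc/N`, which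
 follows from `cc (3 + 1/N) <= 1 + 1/N`, i.e. from `cc <= 1/(2N+1)` and `(3N+1) <= (N+1)(2N+1)`.  So `Lam >= 0`; this is enough below
 if one also uses `F > 0, cc > 0` to get strictness from the first term of (3) (`1 - 2 N cc >= 1/(2N+1) > 0`, `x > 0`); note that
 `cc > 0` on the interval `(a, ...)` considered below because `cc` is strictly increasing there and `cc >= 0`.
(5) Suppose `F m1 > 0` for some `m1 > 0`.
 Step 1: there is `m0` in `(0,m1)` with `F m0 <= 0`.  Otherwise `cc' = F > 0` on `(0,m1]`, `cc` is strictly increasing there, and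
  `1/(2N+1) = lim cc <= cc (m1/2) < cc m1 <= 1/(2N+1)`.
 Step 2: `a := sSup {m in [m0,m1] | F m <= 0}`; `F a <= 0` by closedness, `a < m1`, `F > 0` on `(a,m1]`, so `F a = 0` and `F'(a) >= 0`
  (difference quotients from the right), so `k a >= 0` by (2).
 Step 3: `F > 0` on `(a, oo)`.  Otherwise let `b := sInf {m >= m1 | F m <= 0}`; `F b = 0`, `b > m1`, `F > 0` on `(a,b)`; by (3),(4) `k` is
  strictly increasing on `[a,b]`, so `k b > 0` and `b F'(b) = ((1-cc^2)/x^2) k b > 0`; but `F > 0` to the left of `b` and `F b = 0`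
  give `F'(b) <= 0`.  Contradiction.
 Step 4: so `cc` is strictly increasing on `[a,oo)`, `cc m >= cc m1 > cc a >= 0` for `m >= m1`, hence `x m >= x m1 + cc m1 (m - m1)`,
  which contradicts `x <= 1` for large `m`.
-/

open Real MeasureTheory Set Filter
open scoped Topology

namespace LPPEnd

theorem A6 (n : ℕ) (m : ℝ) (hm : 0 < m) : V (n + 1) m ≤ w (n + 1) m * w n m := by
  have h1 := LPPChain.V_le_mul ch_isChain (n + 1) m hm
  rw [chV (n + 1) hm, chw n hm, chw (n + 1) hm] at h1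
  linarith

end LPPEnd
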