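import Pool.Agent.Lib.MP_267da7_pr.A6

/-!
# A7: joint convexity of `U(x,R,s) = (e^x/s)^2 V_N(e^x R/s)` on `R x (0,oo) x (0,oo)`

Along a line `t -> (x0 + t xi, R0 + t rho, s0 + t sg)`, `t` in `[0,1]`, put `E = e^x/s`, `m = E R`, `h = E^2 V_N(m)`.
`E'/E = e1 := xi - sg/s`, `e1' = q^2` with `q = sg/s`; `m'/m = b := e1 + a`, `a = rho/R`, `a' = -a^2`, so `b' = q^2 - a^2`.
Write `V, V', V''` for `V_N, VD_N` and the derivative of `VD_N` at `m` and `G = 2 V + m V'`, `Hh = 4 V + 5 m V' + m^2 V''`.  Then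
`h' = E^2 (2 e1 V + m V' b)`,
`h'' = E^2 [ 2 e1 (2 e1 V + m V' b) + 2 e1' V + 2 e1 V' m b + (V' + m V'') m b^2 + m V' b' ]`
`    = E^2 [ (4V - m V') a^2 - 4 G a b + Hh b^2 + G q^2 ]`   (use `e1 = b - a`).
Facts: `G = 1/2 - N (2 w_N X_N - 1) >= 0` (A3 `id_ii`, A5 `A5_Q` gives `G > 0`).
`(4V - m V') - 2 G = -3 m V' >= 0` (A4).
`Hh - 2 G = 3 m V' + m^2 V'' = m G'` where `G' = 3 V' + m V''` is the derivative of `G`; and from `G = 1/2 - N (2 w_N X_N - 1)`:
`G' = -N F_N`, `F_N = (2 V_N + 2 w_N^2) X_N - 2 w_N <= 0` for `N >= 1` by A6 (`F_N <= 0` iff `V_N <= w_N w_(N-1)`), so `G' >= 0`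
(for `N = 0`: `V = 1/4`, everything explicit, `G' = 0`).  So
`h''/E^2 >= 2 G a^2 - 4 G a b + 2 G b^2 + G q^2 = 2 G (a-b)^2 + G q^2 >= 0`.
Hence `h` is convex on `[0,1]` and `h(mu) <= lam h(0) + mu h(1)` where `lam + mu = 1` (the point `t = mu` is
`(lam x0 + mu x1, ...)` if the line goes from the `0`-data to the `1`-data).
(One can use `convexOn_of_deriv2_nonneg` or, maybe easier, monotonicity of `h'` and `MonotoneOn.convexOn_of_deriv`.)
-/

open Real MeasureTheory Set Filter
open scoped Topology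

namespace LPPEnd

/-- `G = 2 V_N + m V_N'` is nondecreasing. -/
theorem A7_G (N : ℕ) (m : ℝ) (hm : 0 < m) :
    ∃ V2 : ℝ, HasDerivAt (VD N) V2 m ∧ 0 ≤ 3 * VD N m + m * V2 := by
  cases N with
  | zero =>
    refine ⟨0, ?_, ?_⟩
    · have h : VD 0 = fun _ => (0 : ℝ) := by
        funext y
        simp [VD]
      rw [h]
      exact hasDerivAt_const m (0 : ℝ)
    · simp [VD]
  | succ n =>
    set N : ℕ := n + 1 with hN
    have hw := w_deriv N m hm
    have hX := X_deriv n m hm
    rw [X_rel n m hm] at hX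
    have hV := V_deriv N m hm
    have hnum : HasDerivAt (fun y => 1 / 2 - (N : ℝ) * (2 * w N y * X N y - 1) - 2 * V N y)
        (-((N : ℝ) * (2 * (V N m - w N m ^ 2) * X N m + 2 * w N m * (2 * w N m * X N m - 1))) - 2 * VD N m) m := by
      have h1 := ((hw.const_mul 2).mul hX).sub_const 1
      have h2 := (h1.const_mul (N : ℝ)).const_sub (1 / 2)
      have h3 := h2.sub (hV.const_mul 2)
      refine h3.congr_deriv ?_
      ring
    have hq := hnum.div (hasDerivAt_id m) hm.ne'
    have hev : VD N =ᶠ[𝓝 m] fun y => (1 / 2 - (N : ℝ) * (2 * w N y * X N y - 1) - 2 * V N y) / id y := by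
      filter_upwards [lt_mem_nhds hm] with y hy
      have h1 := id_ii N y hy
      rw [eq_div_iff (by simpa using hy.ne')]
      simp only [id]
      linarith
    refine ⟨_, hq.congr_of_eventuallyEq hev, ?_⟩
    have hii := id_ii N m hm
    have hXp : 0 < X N m := X_pos n m hm
    have hww : 0 < w N m + w n m := ww_pos n m hm
    have hXd : X N m * (w N m + w n m) = 1 := by
      have : X N m = 1 / (w N m + w n m) := by
        simp [X, hN]
      rw [this]
      field_simp
    have hA6 : V N m ≤ w N m * w n m := A6 n m hm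
    have hF : (V N m + w N m ^ 2) * X N m - w N m ≤ 0 := by
      have h1 : w N m = w N m * (w N m + w n m) * X N m := by
        rw [mul_assoc, mul_comm (w N m + w n m), hXd, mul_one]
      have h2 : (V N m + w N m ^ 2) * X N m - w N m = (V N m - w N m * w n m) * X N m := by
        nlinarith
      rw [h2]
      exact mul_nonpos_of_nonpos_of_nonneg (by linarith) hXp.le
    have hNn : (0 : ℝ) ≤ N := Nat.cast_nonneg _
    have hnum2 : 1 / 2 - (N : ℝ) * (2 * w N m * X N m - 1) - 2 * V N m = m * VD N m := by linarith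
    have key : 3 * VD N m + m * (((-((N : ℝ) * (2 * (V N m - w N m ^ 2) * X N m + 2 * w N m * (2 * w N m * X N m - 1))) -
        2 * VD N m) * id m - (1 / 2 - (N : ℝ) * (2 * w N m * X N m - 1) - 2 * V N m) * 1) / id m ^ 2) =
        -(2 * (N : ℝ)) * ((V N m + w N m ^ 2) * X N m - w N m) := by
      rw [hnum2]
      simp only [id]
      field_simp
      ring
    rw [key]
    nlinarith

/-- the derivatives of `UU` along a line -/
theorem A7_h1 (N : ℕ) (x0 xi R0 rho s0 sg t : ℝ) (hR : 0 < R0 + t * rho) (hs : 0 < s0 + t * sg) :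
    HasDerivAt (fun t => UU N (x0 + t * xi) (R0 + t * rho) (s0 + t * sg))
      ((Real.exp (x0 + t * xi) / (s0 + t * sg)) ^ 2 *
        (2 * (xi - sg / (s0 + t * sg)) * V N (Real.exp (x0 + t * xi) * (R0 + t * rho) / (s0 + t * sg)) +
          Real.exp (x0 + t * xi) * (R0 + t * rho) / (s0 + t * sg) * (xi - sg / (s0 + t * sg) + rho / (R0 + t * rho)) *
            VD N (Real.exp (x0 + t * xi) * (R0 + t * rho) / (s0 + t * sg)))) t := by
  have hx : HasDerivAt (fun t => x0 + t * xi) xi t := by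
    simpa using ((hasDerivAt_id t).mul_const xi).const_add x0
  have hRd : HasDerivAt (fun t => R0 + t * rho) rho t := by
    simpa using ((hasDerivAt_id t).mul_const rho).const_add R0
  have hsd : HasDerivAt (fun t => s0 + t * sg) sg t := by
    simpa using ((hasDerivAt_id t).mul_const sg).const_add s0
  have hE := (hx.exp).div hsd hs.ne'
  have hm := ((hx.exp).mul hRd).div hsd hs.ne'
  have hmpos : 0 < Real.exp (x0 + t * xi) * (R0 + t * rho) / (s0 + t * sg) := by positivity
  have hV := V_deriv N _ hmpos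
  have hVm := HasDerivAt.comp t hV hm
  have h := (hE.pow 2).mul hVm
  refine (h.congr_deriv ?_)
  have hS := hs.ne'
  have hRR := hR.ne'
  clear h hVm hV hm hE hx hRd hsd hmpos hR hs
  simp only [Function.comp, Pi.div_apply, Pi.mul_apply, Pi.pow_apply, Nat.cast_ofNat, Nat.add_one_sub_one, pow_one]
  generalize V N (Real.exp (x0 + t * xi) * (R0 + t * rho) / (s0 + t * sg)) = v
  generalize VD N (Real.exp (x0 + t * xi) * (R0 + t * rho) / (s0 + t * sg)) = vd
  generalize Real.exp (x0 + t * xi) = e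
  generalize s0 + t * sg = S at hS ⊢
  generalize R0 + t * rho = RR at hRR ⊢
  field_simp
  ring

theorem A7_h2 (N : ℕ) (x0 xi R0 rho s0 sg t V2 : ℝ) (hR : 0 < R0 + t * rho) (hs : 0 < s0 + t * sg)
    (hV2 : HasDerivAt (VD N) V2 (Real.exp (x0 + t * xi) * (R0 + t * rho) / (s0 + t * sg))) :
    HasDerivAt (fun t => (Real.exp (x0 + t * xi) / (s0 + t * sg)) ^ 2 *
        (2 * (xi - sg / (s0 + t * sg)) * V N (Real.exp (x0 + t * xi) * (R0 + t * rho) / (s0 + t * sg)) +
          Real.exp (x0 + t * xi) * (R0 + t * rho) / (s0 + t * sg) * (xi - sg / (s0 + t * sg) + rho / (R0 + t * rho)) *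
            VD N (Real.exp (x0 + t * xi) * (R0 + t * rho) / (s0 + t * sg))))
      ((Real.exp (x0 + t * xi) / (s0 + t * sg)) ^ 2 *
        ((4 * V N (Real.exp (x0 + t * xi) * (R0 + t * rho) / (s0 + t * sg)) -
            Real.exp (x0 + t * xi) * (R0 + t * rho) / (s0 + t * sg) * VD N (Real.exp (x0 + t * xi) * (R0 + t * rho) / (s0 + t * sg))) *
            (rho / (R0 + t * rho)) ^ 2 -
          4 * (2 * V N (Real.exp (x0 + t * xi) * (R0 + t * rho) / (s0 + t * sg)) +
            Real.exp (x0 + t * xi) * (R0 + t * rho) / (s0 + t * sg) * VD N (Real.exp (x0 + t * xi) * (R0 + t * rho) / (s0 + t * sg))) *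
            (rho / (R0 + t * rho)) * (xi - sg / (s0 + t * sg) + rho / (R0 + t * rho)) +
          (4 * V N (Real.exp (x0 + t * xi) * (R0 + t * rho) / (s0 + t * sg)) +
            5 * (Real.exp (x0 + t * xi) * (R0 + t * rho) / (s0 + t * sg)) *
              VD N (Real.exp (x0 + t * xi) * (R0 + t * rho) / (s0 + t * sg)) +
            (Real.exp (x0 + t * xi) * (R0 + t * rho) / (s0 + t * sg)) ^ 2 * V2) *
            (xi - sg / (s0 + t * sg) + rho / (R0 + t * rho)) ^ 2 +
          (2 * V N (Real.exp (x0 + t * xi) * (R0 + t * rho) / (s0 + t * sg)) +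
            Real.exp (x0 + t * xi) * (R0 + t * rho) / (s0 + t * sg) * VD N (Real.exp (x0 + t * xi) * (R0 + t * rho) / (s0 + t * sg))) *
            (sg / (s0 + t * sg)) ^ 2)) t := by
  have hx : HasDerivAt (fun t => x0 + t * xi) xi t := by
    simpa using ((hasDerivAt_id t).mul_const xi).const_add x0
  have hRd : HasDerivAt (fun t => R0 + t * rho) rho t := by
    simpa using ((hasDerivAt_id t).mul_const rho).const_add R0
  have hsd : HasDerivAt (fun t => s0 + t * sg) sg t := by
    simpa using ((hasDerivAt_id t).mul_const sg).const_add s0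
  have hE := (hx.exp).div hsd hs.ne'
  have hm := ((hx.exp).mul hRd).div hsd hs.ne'
  have hmpos : 0 < Real.exp (x0 + t * xi) * (R0 + t * rho) / (s0 + t * sg) := by positivity
  have hV := V_deriv N _ hmpos
  have hVm := HasDerivAt.comp t hV hm
  have hVDm := HasDerivAt.comp t hV2 hm
  have hq : HasDerivAt (fun t => sg / (s0 + t * sg)) (-(sg / (s0 + t * sg)) ^ 2) t := by
    have h := (hasDerivAt_const t sg).div hsd hs.ne'
    refine h.congr_deriv ?_
    field_simp
    ring
  have ha : HasDerivAt (fun t => rho / (R0 + t * rho)) (-(rho / (R0 + t * rho)) ^ 2) t := by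
    have h := (hasDerivAt_const t rho).div hRd hR.ne'
    refine h.congr_deriv ?_
    field_simp
    ring
  have he1 : HasDerivAt (fun t => xi - sg / (s0 + t * sg)) ((sg / (s0 + t * sg)) ^ 2) t := by
    simpa using hq.const_sub xi
  have hb := he1.add ha
  have hP1 := (he1.const_mul 2).mul hVm
  have hP2 := (hm.mul hb).mul hVDm
  have h := (hE.pow 2).mul (hP1.add hP2)
  refine (h.congr_deriv ?_)
  have hS := hs.ne'
  have hRR := hR.ne'
  clear h hP1 hP2 hb he1 ha hq hVDm hVm hV hm hE hx hRd hsd hmpos hR hs hV2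
  simp only [Function.comp, Pi.div_apply, Pi.mul_apply, Pi.pow_apply, Pi.add_apply, Nat.cast_ofNat, Nat.add_one_sub_one, pow_one]
  generalize V N (Real.exp (x0 + t * xi) * (R0 + t * rho) / (s0 + t * sg)) = v
  generalize VD N (Real.exp (x0 + t * xi) * (R0 + t * rho) / (s0 + t * sg)) = vd
  generalize Real.exp (x0 + t * xi) = e
  generalize s0 + t * sg = S at hS ⊢
  generalize R0 + t * rho = RR at hRR ⊢
  field_simp
  ring

theorem A7 (N : ℕ) (x0 x1 R0 R1 s0 s1 lam mu : ℝ) (hR0 : 0 < R0) (hR1 : 0 < R1)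
    (hs0 : 0 < s0) (hs1 : 0 < s1) (hl : 0 < lam) (hmu : 0 < mu) (h1 : lam + mu = 1) :
    UU N (lam * x0 + mu * x1) (lam * R0 + mu * R1) (lam * s0 + mu * s1) ≤
      lam * UU N x0 R0 s0 + mu * UU N x1 R1 s1 := by
  have hRt : ∀ t ∈ Icc (0 : ℝ) 1, 0 < R0 + t * (R1 - R0) := by
    intro t ht
    obtain ⟨h0, h2⟩ := ht
    rcases eq_or_lt_of_le h0 with h | h
    · rw [← h]
      simpa using hR0
    · nlinarith [mul_pos h hR1, mul_nonneg (sub_nonneg.2 h2) hR0.le]
  have hst : ∀ t ∈ Icc (0 : ℝ) 1, 0 < s0 + t * (s1 - s0) := by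
    intro t ht
    obtain ⟨h0, h2⟩ := ht
    rcases eq_or_lt_of_le h0 with h | h
    · rw [← h]
      simpa using hs0
    · nlinarith [mul_pos h hs1, mul_nonneg (sub_nonneg.2 h2) hs0.le]
  have hconv : ConvexOn ℝ (Icc (0 : ℝ) 1)
      (fun t => UU N (x0 + t * (x1 - x0)) (R0 + t * (R1 - R0)) (s0 + t * (s1 - s0))) := by
    have hV2 : ∀ t ∈ Icc (0 : ℝ) 1, ∃ V2 : ℝ,
        HasDerivAt (VD N) V2 (Real.exp (x0 + t * (x1 - x0)) * (R0 + t * (R1 - R0)) / (s0 + t * (s1 - s0))) ∧
        0 ≤ 3 * VD N (Real.exp (x0 + t * (x1 - x0)) * (R0 + t * (R1 - R0)) / (s0 + t * (s1 - s0))) +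
          Real.exp (x0 + t * (x1 - x0)) * (R0 + t * (R1 - R0)) / (s0 + t * (s1 - s0)) * V2 := by
      intro t ht
      have h2 := hRt t ht
      have h3 := hst t ht
      exact A7_G N _ (by positivity)
    choose! V2 hV2d hV2p using hV2
    refine convexOn_of_hasDerivWithinAt2_nonneg (convex_Icc 0 1) ?_
      (fun t ht => (A7_h1 N x0 (x1 - x0) R0 (R1 - R0) s0 (s1 - s0) t (hRt t (interior_subset ht))
        (hst t (interior_subset ht))).hasDerivWithinAt)
      (fun t ht => (A7_h2 N x0 (x1 - x0) R0 (R1 - R0) s0 (s1 - s0) t (V2 t) (hRt t (interior_subset ht))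
        (hst t (interior_subset ht)) (hV2d t (interior_subset ht))).hasDerivWithinAt) ?_
    · intro t ht
      exact (A7_h1 N x0 (x1 - x0) R0 (R1 - R0) s0 (s1 - s0) t (hRt t ht)
        (hst t ht)).continuousAt.continuousWithinAt
    · intro t ht
      have hti := interior_subset ht
      have h2 := hRt t hti
      have h3 := hst t hti
      have hT := hV2p t hti
      have hmpos : 0 < Real.exp (x0 + t * (x1 - x0)) * (R0 + t * (R1 - R0)) / (s0 + t * (s1 - s0)) := by positivity
      have hG := A5_Q N _ hmpos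
      have hD := (A4 N _ hmpos).2.2.1
      apply mul_nonneg (by positivity)
      generalize Real.exp (x0 + t * (x1 - x0)) * (R0 + t * (R1 - R0)) / (s0 + t * (s1 - s0)) = m at hmpos hT hG hD ⊢
      generalize (x1 - x0) - (s1 - s0) / (s0 + t * (s1 - s0)) + (R1 - R0) / (R0 + t * (R1 - R0)) = b
      generalize (R1 - R0) / (R0 + t * (R1 - R0)) = a
      generalize (s1 - s0) / (s0 + t * (s1 - s0)) = q
      generalize V2 t = v2 at hT ⊢
      have hG0 : 0 ≤ 2 * V N m + m * VD N m := by
        refine le_trans ?_ hG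
        positivity
      have hD0 : 0 ≤ -(3 * (m * VD N m)) := by
        have : m * VD N m ≤ 0 := mul_nonpos_of_nonneg_of_nonpos hmpos.le hD
        linarith
      have hT0 : 0 ≤ m * (3 * VD N m + m * v2) := mul_nonneg hmpos.le hT
      have e : (4 * V N m - m * VD N m) * a ^ 2 - 4 * (2 * V N m + m * VD N m) * a * b +
          (4 * V N m + 5 * m * VD N m + m ^ 2 * v2) * b ^ 2 + (2 * V N m + m * VD N m) * q ^ 2 =
          2 * (2 * V N m + m * VD N m) * (a - b) ^ 2 + (-(3 * (m * VD N m))) * a ^ 2 +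
            (m * (3 * VD N m + m * v2)) * b ^ 2 + (2 * V N m + m * VD N m) * q ^ 2 := by ring
      rw [e]
      positivity
  have h := hconv.2 (left_mem_Icc.2 zero_le_one) (right_mem_Icc.2 zero_le_one) hl.le hmu.le h1
  simp only [smul_eq_mul, mul_zero, mul_one, zero_add, zero_mul, add_zero, one_mul, add_sub_cancel] at h
  have ex : lam * x0 + mu * x1 = x0 + mu * (x1 - x0) := by
    have : lam = 1 - mu := by linarith
    rw [this]
    ring
  have eR : lam * R0 + mu * R1 = R0 + mu * (R1 - R0) := by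
    have : lam = 1 - mu := by linarith
    rw [this]
    ring
  have es : lam * s0 + mu * s1 = s0 + mu * (s1 - s0) := by
    have : lam = 1 - mu := by linarith
    rw [this]
    ring
  rw [ex, eR, es]
  exact h

end LPPEnd
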