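import Pool.Agent.Lib.MP_267da7_pr.A5

/-!
# A8: limits at infinity and the logarithmic derivative of `P_N`

(1) `w_n -> 1/2` and `V_n -> 1/4` as `m -> oo`.  Induction on `n`; `V_0 = 1/4`.  Given `V_n -> 1/4`: `w_n` is nonincreasing
 (A4: `w_n' = V_n - w_n^2 <= 0`) and `>= 1/2`, so `w_n -> l >= 1/2`; if `l > 1/2` then `w_n' -> 1/4 - l^2 < 0`, so `w_n -> -oo`,
 contradiction.  Then `V_(n+1) = 2 w_n^2 - V_n -> 1/4`.

(2) put `l m = sum_(n<N) (w_n m - 1/2)`.  Then `l' = sum_(n<N) (V_n - w_n^2) = -(V_N - 1/4)/2` since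
 `V_(n+1) - V_n = 2 (w_n^2 - V_n)`.  Let `b = l + m l' = l - m (V_N - 1/4)/2` (the derivative of `m l`).
 `b' = l' - (V_N - 1/4)/2 - m VD_N/2 = 1/4 - (2 V_N + m VD_N)/2 = (N/2)(2 w_N X_N - 1) >= 0` by `id_ii` and A5_d
 (for `N = 0` it is `0`).
 Claim `b <= 0`: if `b m1 > 0` then for `m >= m1`, `(m l)' >= b m1`, so `m l(m) >= m1 l(m1) + b(m1) (m - m1)` and dividing by `m`,
 `lim l >= b m1 > 0`, but `l -> 0` by (1).
-/

open Real MeasureTheory Set Filter
open scoped Topology

namespace LPPEnd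

/-- logarithmic derivative of `P_N`. -/
noncomputable def ell (N : ℕ) (m : ℝ) : ℝ := ∑ n ∈ Finset.range N, (w n m - 1 / 2)

theorem a8_half (n : ℕ) (m : ℝ) (hm : 0 < m) : 1 / 2 ≤ w n m := (A4 n m hm).2.2.2.2

/-- `w n` is nonincreasing on `(0, oo)` -/
theorem a8_anti (n : ℕ) : AntitoneOn (w n) (Ioi 0) := by
  refine antitoneOn_of_deriv_nonpos (convex_Ioi 0) ?_ ?_ ?_
  · exact fun x hx => (w_deriv n x hx).continuousAt.continuousWithinAt
  · rw [interior_Ioi]
    exact fun x hx => (w_deriv n x hx).differentiableAt.differentiableWithinAt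
  · rw [interior_Ioi]
    intro x hx
    rw [(w_deriv n x hx).deriv]
    have := (A4 n x hx).1
    linarith

/-- a nonincreasing function on `(0, oo)` bounded below has a limit -/
theorem a8_lim (n : ℕ) : ∃ l, 1 / 2 ≤ l ∧ Tendsto (w n) atTop (𝓝 l) := by
  let g : ℝ → ℝ := fun m => w n (max m 1)
  have hg : Antitone g := by
    intro a b hab
    exact a8_anti n (mem_Ioi.2 (lt_of_lt_of_le zero_lt_one (le_max_right _ _)))
      (mem_Ioi.2 (lt_of_lt_of_le zero_lt_one (le_max_right _ _))) (max_le_max hab le_rfl)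
  have hb : BddBelow (range g) := ⟨1 / 2, by
    rintro _ ⟨m, rfl⟩
    exact a8_half n _ (lt_of_lt_of_le zero_lt_one (le_max_right _ _))⟩
  have hl := tendsto_atTop_ciInf hg hb
  refine ⟨⨅ i, g i, le_ciInf fun m => a8_half n _ (lt_of_lt_of_le zero_lt_one (le_max_right _ _)), ?_⟩
  refine hl.congr' ?_
  filter_upwards [eventually_ge_atTop 1] with m hm
  simp only [g, max_eq_left hm]

/-- if `f' -> c < 0` then `f` is not bounded below -/
theorem a8_not_bdd (f f' : ℝ → ℝ) (hd : ∀ m, 0 < m → HasDerivAt f (f' m) m) (c : ℝ) (hc : c < 0)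
    (hf : Tendsto f' atTop (𝓝 c)) (b : ℝ) (hb : ∀ m, 0 < m → b ≤ f m) : False := by
  have h1 : ∀ᶠ m in atTop, f' m < c / 2 := hf.eventually (gt_mem_nhds (by linarith))
  obtain ⟨M, hM⟩ := eventually_atTop.1 h1
  set M₀ := max M 1 with hM₀
  have hM₀1 : 0 < M₀ := lt_of_lt_of_le zero_lt_one (le_max_right _ _)
  have h2 : ∀ m, M₀ ≤ m → f m - f M₀ ≤ c / 2 * (m - M₀) := by
    intro m hm
    refine Convex.image_sub_le_mul_sub_of_deriv_le (convex_Ici M₀) ?_ ?_ ?_ M₀ self_mem_Ici m hm hm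
    · exact fun x hx => (hd x (lt_of_lt_of_le hM₀1 hx)).continuousAt.continuousWithinAt
    · rw [interior_Ici]
      exact fun x hx => (hd x (hM₀1.trans hx)).differentiableAt.differentiableWithinAt
    · rw [interior_Ici]
      intro x hx
      rw [(hd x (hM₀1.trans hx)).deriv]
      exact (hM x ((le_max_left _ _).trans hx.le)).le
  set D := (f M₀ - b + 1) / (-(c / 2)) with hD
  have hD0 : 0 < D := div_pos (by linarith [hb M₀ hM₀1]) (by linarith)
  have h3 := h2 (M₀ + D) (by linarith)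
  have h4 := hb (M₀ + D) (by linarith)
  have h5 : c / 2 * (M₀ + D - M₀) = -(f M₀ - b + 1) := by
    have h6 : -(c / 2) ≠ 0 := by linarith
    have h7 : D * -(c / 2) = f M₀ - b + 1 := div_mul_cancel₀ _ h6
    rw [← h7]
    ring
  linarith

theorem a8_step (n : ℕ) (hV : Tendsto (V n) atTop (𝓝 (1 / 4))) : Tendsto (w n) atTop (𝓝 (1 / 2)) := by
  obtain ⟨l, hl1, hl⟩ := a8_lim n
  rcases hl1.eq_or_lt with h | h
  · rwa [h]
  · exfalso
    have h1 : Tendsto (fun m => V n m - w n m ^ 2) atTop (𝓝 (1 / 4 - l ^ 2)) := hV.sub (hl.pow 2)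
    exact a8_not_bdd (w n) _ (fun m hm => w_deriv n m hm) _ (by nlinarith) h1 (1 / 2) (a8_half n)

theorem a8_V (n : ℕ) : Tendsto (V n) atTop (𝓝 (1 / 4)) := by
  induction n with
  | zero =>
    have : V 0 = fun _ => (1 / 4 : ℝ) := by
      funext m
      rfl
    rw [this]
    exact tendsto_const_nhds
  | succ n ih =>
    have h1 := a8_step n ih
    have h2 : Tendsto (fun m => 2 * w n m ^ 2 - V n m) atTop (𝓝 (2 * (1 / 2) ^ 2 - 1 / 4)) :=
      ((h1.pow 2).const_mul 2).sub ih
    have h3 : (2 * (1 / 2) ^ 2 - 1 / 4 : ℝ) = 1 / 4 := by norm_num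
    rw [h3] at h2
    exact h2

theorem w_tendsto (n : ℕ) : Tendsto (w n) atTop (𝓝 (1 / 2)) := a8_step n (a8_V n)

theorem a8_ell_tendsto (N : ℕ) : Tendsto (ell N) atTop (𝓝 0) := by
  have h1 : Tendsto (fun m => ∑ n ∈ Finset.range N, (w n m - 1 / 2)) atTop (𝓝 (∑ _n ∈ Finset.range N, (1 / 2 - 1 / 2))) :=
    tendsto_finsetSum _ fun n _ => (w_tendsto n).sub tendsto_const_nhds
  have h2 : ∑ _n ∈ Finset.range N, ((1 : ℝ) / 2 - 1 / 2) = 0 := by simp
  rw [h2] at h1
  exact h1

theorem a8_V_sum (N : ℕ) (m : ℝ) : ∑ n ∈ Finset.range N, (V n m - w n m ^ 2) = -(V N m - 1 / 4) / 2 := by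
  induction N with
  | zero =>
    have : V 0 m = 1 / 4 := rfl
    rw [this]
    simp
  | succ N ih =>
    have : V (N + 1) m = 2 * w N m ^ 2 - V N m := rfl
    rw [Finset.sum_range_succ, ih, this]
    ring

theorem ell_deriv (N : ℕ) (m : ℝ) (hm : 0 < m) :
    HasDerivAt (ell N) (-(V N m - 1 / 4) / 2) m := by
  rw [← a8_V_sum N m]
  exact HasDerivAt.fun_sum fun n _ => (w_deriv n m hm).sub_const _

/-- the derivative of `m * ell N m` is nondecreasing -/
theorem a8_mono (N : ℕ) : MonotoneOn (fun m => ell N m - m * (V N m - 1 / 4) / 2) (Ioi 0) := by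
  have hd : ∀ m, 0 < m → HasDerivAt (fun m => ell N m - m * (V N m - 1 / 4) / 2)
      (1 / 4 - (2 * V N m + m * VD N m) / 2) m := by
    intro m hm
    have h1 := (ell_deriv N m hm).sub (((hasDerivAt_id m).mul ((V_deriv N m hm).sub_const (1 / 4))).div_const 2)
    refine h1.congr_deriv ?_
    simp only [id]
    ring
  refine monotoneOn_of_deriv_nonneg (convex_Ioi 0) ?_ ?_ ?_
  · exact fun x hx => (hd x hx).continuousAt.continuousWithinAt
  · rw [interior_Ioi]
    exact fun x hx => (hd x hx).differentiableAt.differentiableWithinAt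
  · rw [interior_Ioi]
    intro x hx
    rw [(hd x hx).deriv, id_ii N x hx]
    cases N with
    | zero => norm_num
    | succ n =>
      have h1 := (A5_d n x hx).1
      have h2 : (0 : ℝ) ≤ ((n + 1 : ℕ) : ℝ) := Nat.cast_nonneg _
      nlinarith [mul_nonneg h2 h1]

theorem A8 (N : ℕ) (m : ℝ) (hm : 0 < m) : ell N m - m * (V N m - 1 / 4) / 2 ≤ 0 := by
  by_contra hcon
  push Not at hcon
  set b := ell N m - m * (V N m - 1 / 4) / 2 with hb
  have hd : ∀ x, 0 < x → HasDerivAt (fun x => x * ell N x) (ell N x - x * (V N x - 1 / 4) / 2) x := by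
    intro x hx
    refine ((hasDerivAt_id x).mul (ell_deriv N x hx)).congr_deriv ?_
    simp only [id]
    ring
  have h1 : ∀ x, m ≤ x → b * (x - m) ≤ x * ell N x - m * ell N m := by
    intro x hx
    refine Convex.mul_sub_le_image_sub_of_le_deriv (convex_Ici m) (f := fun x => x * ell N x) ?_ ?_ ?_ m self_mem_Ici x hx hx
    · exact fun y hy => (hd y (lt_of_lt_of_le hm hy)).continuousAt.continuousWithinAt
    · rw [interior_Ici]
      exact fun y hy => (hd y (hm.trans hy)).differentiableAt.differentiableWithinAt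
    · rw [interior_Ici]
      intro y hy
      rw [(hd y (hm.trans hy)).deriv]
      exact a8_mono N hm (hm.trans hy) (le_of_lt hy)
  have h2 : Tendsto (fun x => ell N x) atTop (𝓝 0) := a8_ell_tendsto N
  have h3 : Tendsto (fun x : ℝ => b + (m * ell N m - b * m) / x) atTop (𝓝 (b + 0)) :=
    tendsto_const_nhds.add (tendsto_const_nhds.div_atTop tendsto_id)
  have h4 : b + 0 ≤ 0 := by
    refine le_of_tendsto_of_tendsto h3 h2 ?_
    filter_upwards [eventually_ge_atTop m] with x hx
    have hx0 : 0 < x := lt_of_lt_of_le hm hx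
    have h5 := h1 x hx
    have h6 : b + (m * ell N m - b * m) / x = (b * (x - m) + m * ell N m) / x := by
      field_simp
      ring
    rw [h6, div_le_iff₀ hx0]
    linarith
  linarith

theorem ell_nonneg (N : ℕ) (m : ℝ) (hm : 0 < m) : 0 ≤ ell N m :=
  Finset.sum_nonneg fun n _ => sub_nonneg.2 (a8_half n m hm)

theorem a8_cc_pos (n : ℕ) : 0 < cc n := by
  induction n with
  | zero => exact zero_lt_one
  | succ n ih => exact div_pos ih (by positivity)

theorem PN_deriv (N : ℕ) (m : ℝ) (hm : 0 < m) :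
    HasDerivAt (PN N) (ell N m * PN N m) m := by
  have h1 : HasDerivAt (fun t => ∏ i ∈ Finset.range N, (cc i * th i t))
      ((∑ i ∈ Finset.range N, w i m) * ∏ i ∈ Finset.range N, (cc i * th i m)) m := by
    induction N with
    | zero => simpa using hasDerivAt_const m (1 : ℝ)
    | succ N ih =>
      have h2 := ih.mul ((th_deriv N m hm).const_mul (cc N))
      have h3 : (fun t => ∏ i ∈ Finset.range (N + 1), (cc i * th i t))
          = (fun t => ∏ i ∈ Finset.range N, (cc i * th i t)) * fun t => cc N * th N t := by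
        funext t
        simp only [Pi.mul_apply]
        rw [Finset.prod_range_succ]
      rw [h3]
      refine h2.congr_deriv ?_
      rw [Finset.prod_range_succ, Finset.sum_range_succ]
      ring
  have h2 : HasDerivAt (fun t : ℝ => Real.exp (-(N * t) / 2)) (Real.exp (-(N * m) / 2) * (-(N : ℝ) / 2)) m := by
    have h3 : HasDerivAt (fun t : ℝ => -(N * t) / 2) (-(N : ℝ) / 2) m := by
      have h4 := (((hasDerivAt_id m).const_mul (N : ℝ)).neg).div_const 2
      refine h4.congr_deriv ?_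
      ring
    exact h3.exp
  have h5 := h2.mul h1
  have h6 : PN N = (fun t : ℝ => Real.exp (-(N * t) / 2)) * fun t => ∏ i ∈ Finset.range N, (cc i * th i t) := by
    funext t
    rfl
  rw [h6]
  refine h5.congr_deriv ?_
  simp only [Pi.mul_apply, ell, Finset.sum_sub_distrib, Finset.sum_const, Finset.card_range, nsmul_eq_mul]
  ring

theorem PN_pos (N : ℕ) (m : ℝ) (hm : 0 < m) : 0 < PN N m :=
  mul_pos (Real.exp_pos _) (Finset.prod_pos fun i _ => mul_pos (a8_cc_pos i) (th_pos i m hm))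

theorem PN_cont (N : ℕ) : ContinuousOn (PN N) (Ici 0) := by
  have h1 : ContinuousOn (fun t => ∏ i ∈ Finset.range N, (cc i * th i t)) (Ici 0) :=
    continuousOn_finsetProd _ fun i _ => continuousOn_const.mul (th_cont i)
  exact ContinuousOn.mul (by fun_prop) h1

end LPPEnd
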