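import Pool.Agent.Lib.MP_267da7_pr.A2

/-!
# B1: the coefficient functions `c n j`

`c n j` is (for `j >= 1`) the coefficient of `T^(j-1)`.  By induction on `n`:
* `c n j = 0` identically for `j > n+1` (and for `j = 0`), `c n 1 = 1` identically (note `c n 0 = 0`, so `deriv (c n 0) = 0`);
* `c n j` is smooth on `(0,oo)` (`w n` is, by A2; `deriv` of a function smooth on the open set `(0,oo)` is smooth there:
  `ContDiffOn.deriv_of_isOpen`).
* the recursion `c_(n+1,j+1) = c_(n,j+1) + (2/m^2) ((m w_n - (n+1)) c_(n,j) - m c_(n,j)')` for `m > 0`.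
-/

open Real MeasureTheory Set Filter
open scoped Topology

namespace LPPEnd

private theorem b1_zero_fun (n : ℕ) : ∀ j, (j = 0 ∨ n + 1 < j) → c n j = fun _ => 0 := by
  induction n with
  | zero =>
    intro j hj
    rcases j with _ | _ | j
    · rfl
    · omega
    · rfl
  | succ n ih =>
    intro j hj
    cases j with
    | zero => rfl
    | succ j =>
      have h1 := ih (j + 1) (by omega)
      have h2 := ih j (by omega)
      funext m
      change c n (j + 1) m + 2 / m * ((w n m - (n + 1) / m) * c n j m - deriv (c n j) m) = 0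
      rw [h1, h2, deriv_const]
      ring

private theorem b1_one_fun (n : ℕ) : c n 1 = fun _ => 1 := by
  induction n with
  | zero => rfl
  | succ n ih =>
    funext m
    change c n 1 m + 2 / m * ((w n m - (n + 1) / m) * c n 0 m - deriv (c n 0) m) = 1
    rw [ih, b1_zero_fun n 0 (Or.inl rfl), deriv_const]
    ring

theorem c_smooth (n j : ℕ) : ContDiffOn ℝ (⊤ : ℕ∞) (c n j) (Ioi 0) := by
  induction n generalizing j with
  | zero =>
    rcases j with _ | _ | j
    · exact contDiffOn_const
    · exact contDiffOn_const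
    · exact contDiffOn_const
  | succ n ih =>
    cases j with
    | zero => exact contDiffOn_const
    | succ j =>
      have hinv : ContDiffOn ℝ (⊤ : ℕ∞) (fun m : ℝ => m⁻¹) (Ioi 0) := by
        intro m hm
        exact (contDiffAt_inv ℝ (ne_of_gt hm)).contDiffWithinAt
      have hd : ContDiffOn ℝ (⊤ : ℕ∞) (deriv (c n j)) (Ioi 0) :=
        (ih j).deriv_of_isOpen isOpen_Ioi (by simp)
      have h1 : ContDiffOn ℝ (⊤ : ℕ∞) (fun m : ℝ => c n (j + 1) m +
          2 * m⁻¹ * ((w n m - (n + 1) * m⁻¹) * c n j m - deriv (c n j) m)) (Ioi 0) :=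
        (ih (j + 1)).add ((contDiffOn_const.mul hinv).mul
          ((((w_smooth n).sub (contDiffOn_const.mul hinv)).mul (ih j)).sub hd))
      refine h1.congr fun m hm => ?_
      change c n (j + 1) m + 2 / m * ((w n m - (n + 1) / m) * c n j m - deriv (c n j) m) = _
      rw [div_eq_mul_inv, div_eq_mul_inv]

theorem c_zero (n j : ℕ) (hj : j = 0 ∨ n + 1 < j) (m : ℝ) : c n j m = 0 := by
  rw [b1_zero_fun n j hj]

theorem c_one (n : ℕ) (m : ℝ) : c n 1 m = 1 := by
  rw [b1_one_fun n]

theorem c_succ (n j : ℕ) (m : ℝ) (hm : 0 < m) :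
    c (n + 1) (j + 1) m = c n (j + 1) m
      + 2 / m ^ 2 * ((m * w n m - (n + 1)) * c n j m - m * deriv (c n j) m) := by
  change c n (j + 1) m + 2 / m * ((w n m - (n + 1) / m) * c n j m - deriv (c n j) m) = _
  field_simp

theorem c_hasDeriv (n j : ℕ) (m : ℝ) (hm : 0 < m) : HasDerivAt (c n j) (deriv (c n j) m) m :=
  (((c_smooth n j).contDiffAt (Ioi_mem_nhds hm)).differentiableAt (by simp)).hasDerivAt

theorem c_hasDeriv2 (n j : ℕ) (m : ℝ) (hm : 0 < m) :
    HasDerivAt (deriv (c n j)) (deriv (deriv (c n j)) m) m := by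
  have hd : ContDiffOn ℝ (⊤ : ℕ∞) (deriv (c n j)) (Ioi 0) :=
    (c_smooth n j).deriv_of_isOpen isOpen_Ioi (by simp)
  exact ((hd.contDiffAt (Ioi_mem_nhds hm)).differentiableAt (by simp)).hasDerivAt

end LPPEnd
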