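import Pool.Agent.Lib.MP_267da7_pr.B1

/-!
# B2: the two differential identities for the coefficients

Write `b_j = c n j`, `A_j = c (n+1) j`, `W = m w_n`, `v = m^2 V_n`, so `W' = (W + v - W^2)/m` (A2).  `'` = `deriv`, `m > 0`.
(U_j)  `A_(j+1) = b_(j+1) + (2/m^2) ((W - n - 1) b_j - m b_j')`  (`c_succ`), i.e.
       `b_j' = ((W-n-1)/m) b_j - (m/2) (A_(j+1) - b_(j+1))`.
(E_n)  for all `j`:  `m b_(j+2)' + (j+1) b_(j+2) = b_(j+1)'' + (2(n+1)/m) b_(j+1)' + (1/4 - V_n + n(n+1)/m^2) b_(j+1)`.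
(D_n)  for all `j`:  `m A_(j+1)' - (m^2/2) A_(j+2) + (n+2+W) A_(j+1) = (2n+3-2j) b_(j+1) - (m^2/2) b_(j+2) + (1/2) b_j`.

(E_0): `b_1 = 1`, all others `0`; `V_0 = 1/4`.

(E_n) => (D_n).  `j = 0`: `A_1 = b_1 = 1`, `b_0 = 0`: `-(m^2/2)(A_2 - b_2) + (n+2+W) = 2n+3`, which is (U_1) (`b_1' = 0`).
`j >= 1`: differentiate (U_j):  `A_(j+1)' = b_(j+1)' + d/dm[(2/m^2)((W-n-1) b_j - m b_j')]`, and insert `b_j''` from (E_n) (index `j-1`):
`b_j'' = m b_(j+1)' + j b_(j+1) - (2(n+1)/m) b_j' - (1/4 - V_n + n(n+1)/m^2) b_j`;  insert (U_(j+1)) for `A_(j+2)` and (U_j) for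
`A_(j+1)`.  Everything cancels (`field_simp; ring` or `linear_combination`).

(D_n) => (E_(n+1)).  Differentiate (D_n) at index `j`:
`A_(j+1)' + m A_(j+1)'' - m A_(j+2) - (m^2/2) A_(j+2)' + (n+2+W) A_(j+1)' + W' A_(j+1)`
`   = (2n+3-2j) b_(j+1)' - m b_(j+2) - (m^2/2) b_(j+2)' + (1/2) b_j'`.
On the right insert (U) for `b_(j+1)', b_(j+2)', b_j'`:
`RHS = ((W-n-1)/m) [(2n+3-2j) b_(j+1) - (m^2/2) b_(j+2) + b_j/2]`
`      - (m/2)[(2n+3-2j)(A_(j+2) - b_(j+2)) - (m^2/2)(A_(j+3) - b_(j+3)) + (1/2)(A_(j+1) - b_(j+1))] - m b_(j+2)`.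
The first bracket is the right side of (D_n,j), and by (D_n,j+1):
`(2n+1-2j) b_(j+2) - (m^2/2) b_(j+3) + b_(j+1)/2 = m A_(j+2)' - (m^2/2) A_(j+3) + (n+2+W) A_(j+2)`, so
`RHS = ((W-n-1)/m) [m A_(j+1)' - (m^2/2) A_(j+2) + (n+2+W) A_(j+1)] + (m/2)[m A_(j+2)' + (W - n - 1 + 2j) A_(j+2) - A_(j+1)/2]`.
Comparing, and with `W' - (W-n-1)(n+2+W)/m = (v - 2W^2 + (n+1)(n+2))/m = (-m^2 V_(n+1) + (n+1)(n+2))/m`:
`m A_(j+1)'' + (2n+4) A_(j+1)' + A_(j+1) [ (-m^2 V_(n+1) + (n+1)(n+2))/m + m/4 ] - m^2 A_(j+2)' - m (j+1) A_(j+2) = 0`,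
which is `m` times (E_(n+1)).
-/

open Real MeasureTheory Set Filter
open scoped Topology

namespace LPPEnd

private theorem b2_alg1 (m w V n i b1 b1' b1'' b2 b2' b3 A2 A2' A3 : ℝ) (hm : m ≠ 0)
    (hE : m * b2' + (i + 1) * b2 = b1'' + 2 * (n + 1) / m * b1' + (1 / 4 - V + n * (n + 1) / m ^ 2) * b1)
    (hA2 : A2 = b2 + 2 / m ^ 2 * ((m * w - (n + 1)) * b1 - m * b1'))
    (hA3 : A3 = b3 + 2 / m ^ 2 * ((m * w - (n + 1)) * b2 - m * b2'))
    (hA2' : A2' = b2' + (-(4 / m ^ 3) * ((m * w - (n + 1)) * b1 - m * b1') +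
      2 / m ^ 2 * ((w + m * (V - w ^ 2)) * b1 + (m * w - (n + 1)) * b1' - (b1' + m * b1'')))) :
    m * A2' - m ^ 2 / 2 * A3 + (n + 2 + m * w) * A2 =
      (2 * n + 3 - 2 * (i + 1)) * b2 - m ^ 2 / 2 * b3 + 1 / 2 * b1 := by
  rw [hA2, hA3, hA2']
  have h : b1'' = m * b2' + (i + 1) * b2 - 2 * (n + 1) / m * b1' - (1 / 4 - V + n * (n + 1) / m ^ 2) * b1 := by
    linarith
  rw [h]
  field_simp
  ring

private theorem b2_alg2 (m w V n j b0 b0' b1 b1' b2 b2' b3 A1 A1' A1'' A2 A2' A3 : ℝ) (hm : m ≠ 0)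
    (hU0 : A1 = b1 + 2 / m ^ 2 * ((m * w - (n + 1)) * b0 - m * b0'))
    (hU1 : A2 = b2 + 2 / m ^ 2 * ((m * w - (n + 1)) * b1 - m * b1'))
    (hU2 : A3 = b3 + 2 / m ^ 2 * ((m * w - (n + 1)) * b2 - m * b2'))
    (hD0 : m * A1' - m ^ 2 / 2 * A2 + (n + 2 + m * w) * A1 =
      (2 * n + 3 - 2 * j) * b1 - m ^ 2 / 2 * b2 + 1 / 2 * b0)
    (hD1 : m * A2' - m ^ 2 / 2 * A3 + (n + 2 + m * w) * A2 =
      (2 * n + 3 - 2 * (j + 1)) * b2 - m ^ 2 / 2 * b3 + 1 / 2 * b1)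
    (hDD : (A1' + m * A1'') - (m * A2 + m ^ 2 / 2 * A2') + ((w + m * (V - w ^ 2)) * A1 + (n + 2 + m * w) * A1') =
      (2 * n + 3 - 2 * j) * b1' - (m * b2 + m ^ 2 / 2 * b2') + 1 / 2 * b0') :
    m * A2' + (j + 1) * A2 =
      A1'' + 2 * ((n + 1) + 1) / m * A1' + (1 / 4 - (2 * w ^ 2 - V) + (n + 1) * ((n + 1) + 1) / m ^ 2) * A1 := by
  have e0 : b0' = (m * w - (n + 1)) / m * b0 - m / 2 * (A1 - b1) := by
    rw [hU0]; field_simp; ring
  have e1 : b1' = (m * w - (n + 1)) / m * b1 - m / 2 * (A2 - b2) := by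
    rw [hU1]; field_simp; ring
  have e2 : b2' = (m * w - (n + 1)) / m * b2 - m / 2 * (A3 - b3) := by
    rw [hU2]; field_simp; ring
  rw [e0, e1, e2] at hDD
  field_simp at hDD hD0 hD1 ⊢
  linear_combination (-1) * hDD + 2 * (m * w - n - 1) * hD0 + m ^ 2 * hD1

private theorem b2_deriv_succ (n j : ℕ) (m : ℝ) (hm : 0 < m) :
    deriv (c (n + 1) (j + 1)) m = deriv (c n (j + 1)) m +
      (-(4 / m ^ 3) * ((m * w n m - (n + 1)) * c n j m - m * deriv (c n j) m) +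
      2 / m ^ 2 * ((w n m + m * (V n m - w n m ^ 2)) * c n j m + (m * w n m - (n + 1)) * deriv (c n j) m
        - (deriv (c n j) m + m * deriv (deriv (c n j)) m))) := by
  have h1 := c_hasDeriv n (j + 1) m hm
  have h2 : HasDerivAt (fun m : ℝ => 2 / m ^ 2) (-(4 / m ^ 3)) m := by
    have := (hasDerivAt_const m (2 : ℝ)).div (hasDerivAt_pow 2 m) (by positivity)
    refine this.congr_deriv ?_
    field_simp
    norm_num
    ring
  have h3 : HasDerivAt (fun m : ℝ => m * w n m - (n + 1)) (w n m + m * (V n m - w n m ^ 2)) m := by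
    have := ((hasDerivAt_id m).mul (w_deriv n m hm)).sub_const ((n : ℝ) + 1)
    refine this.congr_deriv ?_
    simp only [id]
    ring
  have h4 := h3.mul (c_hasDeriv n j m hm)
  have h5 : HasDerivAt (fun m : ℝ => m * deriv (c n j) m)
      (deriv (c n j) m + m * deriv (deriv (c n j)) m) m := by
    have := (hasDerivAt_id m).mul (c_hasDeriv2 n j m hm)
    refine this.congr_deriv ?_
    simp only [id]
    ring
  have h6 := h1.add (h2.mul (h4.sub h5))
  have h7 : c (n + 1) (j + 1) =ᶠ[𝓝 m] fun m => c n (j + 1) m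
      + 2 / m ^ 2 * ((m * w n m - (n + 1)) * c n j m - m * deriv (c n j) m) := by
    filter_upwards [Ioi_mem_nhds hm] with y hy
    exact c_succ n j y hy
  exact (h6.congr_of_eventuallyEq h7).deriv

private theorem b2_D (n : ℕ) (hE : ∀ (j : ℕ) (m : ℝ), 0 < m →
    m * deriv (c n (j + 2)) m + (j + 1) * c n (j + 2) m =
      deriv (deriv (c n (j + 1))) m + 2 * (n + 1) / m * deriv (c n (j + 1)) m
        + (1 / 4 - V n m + n * (n + 1) / m ^ 2) * c n (j + 1) m) (j : ℕ) (m : ℝ) (hm : 0 < m) :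
    m * deriv (c (n + 1) (j + 1)) m - m ^ 2 / 2 * c (n + 1) (j + 2) m
        + (n + 2 + m * w n m) * c (n + 1) (j + 1) m =
      (2 * n + 3 - 2 * j) * c n (j + 1) m - m ^ 2 / 2 * c n (j + 2) m + 1 / 2 * c n j m := by
  cases j with
  | zero =>
    have h1 : deriv (c (n + 1) (0 + 1)) m = 0 := by
      have : c (n + 1) (0 + 1) = fun _ => 1 := by
        funext x
        exact c_one (n + 1) x
      rw [this, deriv_const]
    have h2 : deriv (c n 1) m = 0 := by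
      have : c n 1 = fun _ => 1 := by
        funext x
        exact c_one n x
      rw [this, deriv_const]
    have h3 := c_succ n 1 m hm
    rw [h2, c_one] at h3
    rw [h1]
    have h4 : c (n + 1) (0 + 1) m = 1 := c_one (n + 1) m
    have h5 : c n (0 + 1) m = 1 := c_one n m
    have h6 : c n 0 m = 0 := c_zero n 0 (Or.inl rfl) m
    have h7 : c (n + 1) (0 + 2) m = c (n + 1) (1 + 1) m := rfl
    have h8 : c n (0 + 2) m = c n (1 + 1) m := rfl
    rw [h4, h5, h6, h7, h8, h3]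
    push_cast
    field_simp
    ring
  | succ i =>
    have h1 := hE i m hm
    have h2 := c_succ n (i + 1) m hm
    have h3 := c_succ n (i + 2) m hm
    have h4 := b2_deriv_succ n (i + 1) m hm
    have := b2_alg1 m (w n m) (V n m) n i (c n (i + 1) m) (deriv (c n (i + 1)) m)
      (deriv (deriv (c n (i + 1))) m) (c n (i + 2) m) (deriv (c n (i + 2)) m) (c n (i + 3) m)
      (c (n + 1) (i + 2) m) (deriv (c (n + 1) (i + 2)) m) (c (n + 1) (i + 3) m) hm.ne' h1 h2 h3 h4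
    push_cast
    exact this

private theorem b2_E (n : ℕ) (hD : ∀ (j : ℕ) (m : ℝ), 0 < m →
    m * deriv (c (n + 1) (j + 1)) m - m ^ 2 / 2 * c (n + 1) (j + 2) m
        + (n + 2 + m * w n m) * c (n + 1) (j + 1) m =
      (2 * n + 3 - 2 * j) * c n (j + 1) m - m ^ 2 / 2 * c n (j + 2) m + 1 / 2 * c n j m)
    (j : ℕ) (m : ℝ) (hm : 0 < m) :
    m * deriv (c (n + 1) (j + 2)) m + (j + 1) * c (n + 1) (j + 2) m =
      deriv (deriv (c (n + 1) (j + 1))) m + 2 * ((n + 1 : ℕ) + 1) / m * deriv (c (n + 1) (j + 1)) m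
        + (1 / 4 - V (n + 1) m + (n + 1 : ℕ) * ((n + 1 : ℕ) + 1) / m ^ 2) * c (n + 1) (j + 1) m := by
  have hw := w_deriv n m hm
  have hsq : HasDerivAt (fun m : ℝ => m ^ 2 / 2) m m := by
    have := (hasDerivAt_pow 2 m).div_const 2
    refine this.congr_deriv ?_
    simp
  have hid : HasDerivAt (fun m : ℝ => m) 1 m := hasDerivAt_id m
  have hA1 := c_hasDeriv (n + 1) (j + 1) m hm
  have hA1' := c_hasDeriv2 (n + 1) (j + 1) m hm
  have hA2 := c_hasDeriv (n + 1) (j + 2) m hm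
  have hb0 := c_hasDeriv n j m hm
  have hb1 := c_hasDeriv n (j + 1) m hm
  have hb2 := c_hasDeriv n (j + 2) m hm
  have hcoef : HasDerivAt (fun m : ℝ => (n : ℝ) + 2 + m * w n m) (w n m + m * (V n m - w n m ^ 2)) m := by
    have := (hid.mul hw).const_add ((n : ℝ) + 2)
    refine this.congr_deriv ?_
    ring
  have hL := ((hid.mul hA1').sub (hsq.mul hA2)).add (hcoef.mul hA1)
  have hR := ((hb1.const_mul (2 * (n : ℝ) + 3 - 2 * j)).sub (hsq.mul hb2)).add (hb0.const_mul (1 / 2))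
  have heq : (fun m => (2 * (n : ℝ) + 3 - 2 * j) * c n (j + 1) m - m ^ 2 / 2 * c n (j + 2) m + 1 / 2 * c n j m)
      =ᶠ[𝓝 m] fun m => m * deriv (c (n + 1) (j + 1)) m - m ^ 2 / 2 * c (n + 1) (j + 2) m
        + (n + 2 + m * w n m) * c (n + 1) (j + 1) m := by
    filter_upwards [Ioi_mem_nhds hm] with y hy
    exact (hD j y hy).symm
  have hu := (HasDerivAt.congr_of_eventuallyEq hL heq).unique hR
  have hV : V (n + 1) m = 2 * w n m ^ 2 - V n m := rfl
  rw [hV]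
  have := b2_alg2 m (w n m) (V n m) n j (c n j m) (deriv (c n j) m) (c n (j + 1) m)
    (deriv (c n (j + 1)) m) (c n (j + 2) m) (deriv (c n (j + 2)) m) (c n (j + 3) m)
    (c (n + 1) (j + 1) m) (deriv (c (n + 1) (j + 1)) m) (deriv (deriv (c (n + 1) (j + 1))) m)
    (c (n + 1) (j + 2) m) (deriv (c (n + 1) (j + 2)) m) (c (n + 1) (j + 3) m) hm.ne'
    (c_succ n j m hm) (c_succ n (j + 1) m hm) (c_succ n (j + 2) m hm) (hD j m hm) (by
      have := hD (j + 1) m hm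
      push_cast at this
      exact this) (by
      linear_combination hu)
  push_cast
  exact this

theorem c_E (n j : ℕ) (m : ℝ) (hm : 0 < m) :
    m * deriv (c n (j + 2)) m + (j + 1) * c n (j + 2) m =
      deriv (deriv (c n (j + 1))) m + 2 * (n + 1) / m * deriv (c n (j + 1)) m
        + (1 / 4 - V n m + n * (n + 1) / m ^ 2) * c n (j + 1) m := by
  induction n generalizing j m with
  | zero =>
    have h2 : c 0 (j + 2) = fun _ => 0 := by
      funext x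
      exact c_zero 0 (j + 2) (Or.inr (by omega)) x
    have hV : V 0 m = 1 / 4 := rfl
    cases j with
    | zero =>
      have h1 : c 0 (0 + 1) = fun _ => 1 := by
        funext x
        exact c_one 0 x
      rw [h2, h1, hV]
      simp
    | succ i =>
      have h1 : c 0 (i + 1 + 1) = fun _ => 0 := by
        funext x
        exact c_zero 0 (i + 1 + 1) (Or.inr (by omega)) x
      rw [h2, h1, hV]
      simp
  | succ n ih =>
    exact b2_E n (fun j m hm => b2_D n ih j m hm) j m hm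

theorem c_D (n j : ℕ) (m : ℝ) (hm : 0 < m) :
    m * deriv (c (n + 1) (j + 1)) m - m ^ 2 / 2 * c (n + 1) (j + 2) m
        + (n + 2 + m * w n m) * c (n + 1) (j + 1) m =
      (2 * n + 3 - 2 * j) * c n (j + 1) m - m ^ 2 / 2 * c n (j + 2) m + 1 / 2 * c n j m :=
  b2_D n (fun j m hm => c_E n j m hm) j m hm

end LPPEnd
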