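import Pool.Agent.Lib.MP_267da7_pr.B2
import Pool.Agent.Lib.MP_267da7_pr.A5

/-!
# B3: the coefficients are bounded near `0`

Claim (induction on `n`): for all `j` there is `C` with `|c n j m| <= C` and `|m * deriv (c n j) m| <= C` for `0 < m <= 1`.
`n = 0` is trivial.  Step `n -> n+1` (write `A_j = c (n+1) j`, `b_j = c n j`, `W = m w_n`; `0 <= W <= C` on `(0,1]` by A5_w):
* crude bound: by `c_succ`, `|A_j| <= C m^(-2)` on `(0,1]` for every `j`.
* downward induction on `j` (for `j > n+2`, `A_j = 0` by `c_zero`): assume `A_(j+2)` is bounded on `(0,1]`.  By `c_D`,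
  with `rho = m^(n+2) th_n` (`rho' = rho (n+2+W)/m`, by A1),
  `(rho A_(j+1))' = (rho/m) R_j`, `R_j = (m^2/2) A_(j+2) + (2n+3-2j) b_(j+1) - (m^2/2) b_(j+2) + b_j/2`, `|R_j| <= C` on `(0,1]`.
  Also `rho' >= rho/m`  (`n+2+W >= 1`).  So `C rho + rho A_(j+1)` and `C rho - rho A_(j+1)` are nondecreasing on `(0,1]`, and they tend to `0` at
  `0+` (`rho m^(-2) = m^n th_n -> 0`, crude bound).  Hence `|A_(j+1)| <= C` on `(0,1]`.
  (`A_0 = 0`.)  The induction runs over `j = n+2, n+1, ..., 0` for `A_(j+1)`.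
* derivative: by `c_D`, `m A_(j+1)' = R_j - (n+2+W) A_(j+1)` is bounded.
-/

open Real MeasureTheory Set Filter
open scoped Topology

namespace LPPEnd

/-- bounded on `(0, 1]` -/
private def Bd (f : ℝ → ℝ) : Prop := ∃ C : ℝ, ∀ m, 0 < m → m ≤ 1 → |f m| ≤ C

private theorem Bd.add {f g : ℝ → ℝ} (hf : Bd f) (hg : Bd g) : Bd fun m => f m + g m := by
  obtain ⟨C, hC⟩ := hf
  obtain ⟨D, hD⟩ := hg
  exact ⟨C + D, fun m h1 h2 => (abs_add_le _ _).trans (add_le_add (hC m h1 h2) (hD m h1 h2))⟩

private theorem Bd.mul {f g : ℝ → ℝ} (hf : Bd f) (hg : Bd g) : Bd fun m => f m * g m := by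
  obtain ⟨C, hC⟩ := hf
  obtain ⟨D, hD⟩ := hg
  refine ⟨C * D, fun m h1 h2 => ?_⟩
  rw [abs_mul]
  exact mul_le_mul (hC m h1 h2) (hD m h1 h2) (abs_nonneg _) ((abs_nonneg _).trans (hC m h1 h2))

private theorem bd_const (a : ℝ) : Bd fun _ => a := ⟨|a|, fun _ _ _ => le_rfl⟩

private theorem bd_id : Bd fun m => m := ⟨1, fun m h1 h2 => by rw [abs_of_pos h1]; exact h2⟩

private theorem Bd.sub {f g : ℝ → ℝ} (hf : Bd f) (hg : Bd g) : Bd fun m => f m - g m := by
  obtain ⟨C, hC⟩ := hf
  obtain ⟨D, hD⟩ := hg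
  refine ⟨C + D, fun m h1 h2 => ?_⟩
  change |f m - g m| ≤ C + D
  rw [sub_eq_add_neg]
  refine (abs_add_le _ _).trans (add_le_add (hC m h1 h2) ?_)
  rw [abs_neg]
  exact hD m h1 h2

private theorem Bd.congr {f g : ℝ → ℝ} (hf : Bd f) (h : ∀ m, 0 < m → m ≤ 1 → g m = f m) : Bd g := by
  obtain ⟨C, hC⟩ := hf
  exact ⟨C, fun m h1 h2 => by rw [h m h1 h2]; exact hC m h1 h2⟩

private theorem bd_W (n : ℕ) : Bd fun m => m * w n m := by
  refine ⟨(n : ℝ) + 1 + (n + 1), fun m h1 h2 => ?_⟩
  obtain ⟨h3, h4⟩ := A5_w n m h1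
  have hn : (0 : ℝ) ≤ n := Nat.cast_nonneg n
  rw [abs_of_nonneg (by linarith)]
  refine h4.trans (add_le_add le_rfl ?_)
  rw [div_le_iff₀ (by positivity)]
  have : m ^ 2 ≤ 1 := by nlinarith
  nlinarith

private theorem bd_ode (n : ℕ) (f f' R : ℝ → ℝ) (hf : ∀ m, 0 < m → HasDerivAt f (f' m) m)
    (hode : ∀ m, 0 < m → m * f' m = R m - (n + 2 + m * w n m) * f m) (hR : Bd R)
    (hcrude : Bd fun m => m ^ 2 * f m) : Bd f := by
  obtain ⟨C0, hC0⟩ := hR
  obtain ⟨K, hK⟩ := hcrude
  set C := max C0 0 with hC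
  have hCR : ∀ m, 0 < m → m ≤ 1 → |R m| ≤ C := fun m h1 h2 => (hC0 m h1 h2).trans (le_max_left _ _)
  have hCnn : 0 ≤ C := le_max_right _ _
  have hKnn : 0 ≤ K := (abs_nonneg _).trans (hK 1 one_pos le_rfl)
  have hthlim : Tendsto (th n) (𝓝[>] 0) (𝓝 0) := by
    have h1 := (th_cont n) 0 (mem_Ici.2 le_rfl)
    have h2 : Tendsto (th n) (𝓝[Ici 0] 0) (𝓝 (th n 0)) := h1
    rw [th_zero] at h2
    exact h2.mono_left (nhdsWithin_mono _ Ioi_subset_Ici_self)
  -- the integrating factor
  let rho : ℝ → ℝ := fun m => m ^ (n + 2) * th n m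
  have hrho : ∀ m, 0 < m → HasDerivAt rho (rho m * (n + 2 + m * w n m) / m) m := by
    intro m hm
    have := (hasDerivAt_pow (n + 2) m).mul (th_deriv n m hm)
    refine this.congr_deriv ?_
    simp only [rho]
    rw [(rfl : n + 2 - 1 = n + 1)]
    push_cast
    field_simp
    ring
  have hrhopos : ∀ m, 0 < m → 0 < rho m := fun m hm => mul_pos (pow_pos hm _) (th_pos n m hm)
  have key : ∀ s : ℝ, |s| = 1 → ∀ m, 0 < m → m ≤ 1 → 0 ≤ C * rho m + s * (rho m * f m) := by
    intro s hs
    let φ : ℝ → ℝ := fun m => C * rho m + s * (rho m * f m)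
    have hφ : ∀ m, 0 < m → HasDerivAt φ (rho m / m * (C * (n + 2 + m * w n m) + s * R m)) m := by
      intro m hm
      have := ((hrho m hm).const_mul C).add (((hrho m hm).mul (hf m hm)).const_mul s)
      refine this.congr_deriv ?_
      have h1 := hode m hm
      have h2 : f' m = (R m - (n + 2 + m * w n m) * f m) / m := by
        rw [← h1]
        field_simp
      rw [h2]
      field_simp
      ring
    have hmono : MonotoneOn φ (Ioc 0 1) := by
      refine monotoneOn_of_deriv_nonneg (convex_Ioc 0 1)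
        (fun m hm => (hφ m hm.1).continuousAt.continuousWithinAt) ?_ ?_
      · intro m hm
        rw [interior_Ioc] at hm
        exact (hφ m hm.1).differentiableAt.differentiableWithinAt
      · intro m hm
        rw [interior_Ioc] at hm
        rw [(hφ m hm.1).deriv]
        have h1 := (A5_w n m hm.1).1
        have h2 := hCR m hm.1 hm.2.le
        have h3 : |s * R m| ≤ C := by rw [abs_mul, hs, one_mul]; exact h2
        have h4 := (abs_le.1 h3).1
        have h5 : C ≤ C * (n + 2 + m * w n m) := by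
          have hn : (0 : ℝ) ≤ n := Nat.cast_nonneg n
          nlinarith
        exact mul_nonneg (div_nonneg (hrhopos m hm.1).le hm.1.le) (by linarith)
    have hlim : Tendsto φ (𝓝[>] 0) (𝓝 0) := by
      have hb : ∀ᶠ m in 𝓝[>] (0:ℝ), ‖φ m‖ ≤ (C + K) * th n m := by
        have : ∀ᶠ m in 𝓝[>] (0:ℝ), m ∈ Ioc (0:ℝ) 1 := Ioc_mem_nhdsGT one_pos
        filter_upwards [this] with m hm
        have hth := th_pos n m hm.1
        have h1 : rho m ≤ th n m := by
          simp only [rho]
          have : m ^ (n + 2) ≤ 1 := pow_le_one₀ hm.1.le hm.2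
          nlinarith
        have h2 : |rho m * f m| ≤ K * th n m := by
          have e1 : rho m * f m = (m ^ n * th n m) * (m ^ 2 * f m) := by
            simp only [rho]
            ring
          rw [e1, abs_mul, mul_comm]
          have e2 : |m ^ n * th n m| ≤ th n m := by
            rw [abs_of_nonneg (mul_nonneg (pow_nonneg hm.1.le _) hth.le)]
            have : m ^ n ≤ 1 := pow_le_one₀ hm.1.le hm.2
            nlinarith
          exact mul_le_mul (hK m hm.1 hm.2) e2 (abs_nonneg _) hKnn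
        rw [Real.norm_eq_abs]
        simp only [φ]
        calc |C * rho m + s * (rho m * f m)| ≤ |C * rho m| + |s * (rho m * f m)| := abs_add_le _ _
          _ ≤ C * th n m + K * th n m := by
              refine add_le_add ?_ ?_
              · rw [abs_of_nonneg (mul_nonneg hCnn (hrhopos m hm.1).le)]
                exact mul_le_mul_of_nonneg_left h1 hCnn
              · rw [abs_mul, hs, one_mul]
                exact h2
          _ = (C + K) * th n m := by ring
      have h0 : Tendsto (fun m => (C + K) * th n m) (𝓝[>] 0) (𝓝 0) := by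
        have := hthlim.const_mul (C + K)
        rwa [mul_zero] at this
      exact squeeze_zero_norm' hb h0
    intro m hm hm1
    refine le_of_tendsto (b := φ m) hlim ?_
    have : ∀ᶠ x in 𝓝[>] (0:ℝ), x ∈ Ioc (0:ℝ) m := Ioc_mem_nhdsGT hm
    filter_upwards [this] with x hx
    exact hmono ⟨hx.1, hx.2.trans hm1⟩ ⟨hm, hm1⟩ hx.2
  refine ⟨C, fun m hm hm1 => ?_⟩
  have h1 := key 1 abs_one m hm hm1
  have h2 := key (-1) (by rw [abs_neg, abs_one]) m hm hm1
  have hr := hrhopos m hm
  rw [abs_le]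
  constructor
  · by_contra hcon
    push Not at hcon
    nlinarith
  · by_contra hcon
    push Not at hcon
    nlinarith

private theorem b3_main (n : ℕ) : ∀ j, Bd (c n j) ∧ Bd fun m => m * deriv (c n j) m := by
  induction n with
  | zero =>
    intro j
    have hc : ∃ a : ℝ, c 0 j = fun _ => a := by
      rcases j with _ | _ | j
      · exact ⟨0, funext fun x => c_zero 0 0 (Or.inl rfl) x⟩
      · exact ⟨1, funext fun x => c_one 0 x⟩
      · exact ⟨0, funext fun x => c_zero 0 (j + 2) (Or.inr (by omega)) x⟩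
    obtain ⟨a, ha⟩ := hc
    rw [ha]
    refine ⟨bd_const a, ?_⟩
    refine (bd_const 0).congr fun m _ _ => ?_
    rw [deriv_const, mul_zero]
  | succ n ih =>
    have hRbd : ∀ j, Bd (c (n + 1) (j + 2)) → Bd fun m => m ^ 2 / 2 * c (n + 1) (j + 2) m +
        ((2 * (n : ℝ) + 3 - 2 * j) * c n (j + 1) m - m ^ 2 / 2 * c n (j + 2) m + 1 / 2 * c n j m) := by
      intro j h
      have hsq : Bd fun m => m ^ 2 / 2 := by
        refine ((bd_id.mul bd_id).mul (bd_const (1 / 2))).congr fun m _ _ => ?_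
        ring
      exact (hsq.mul h).add ((((bd_const _).mul (ih (j + 1)).1).sub (hsq.mul (ih (j + 2)).1)).add
        ((bd_const _).mul (ih j).1))
    have hode : ∀ j m, 0 < m → m * deriv (c (n + 1) (j + 1)) m =
        (m ^ 2 / 2 * c (n + 1) (j + 2) m +
        ((2 * (n : ℝ) + 3 - 2 * j) * c n (j + 1) m - m ^ 2 / 2 * c n (j + 2) m + 1 / 2 * c n j m)) -
        (n + 2 + m * w n m) * c (n + 1) (j + 1) m := by
      intro j m hm
      have := c_D n j m hm
      linarith
    have hA : ∀ i j, n + 3 ≤ j + i → Bd (c (n + 1) j) := by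
      intro i
      induction i with
      | zero =>
        intro j hj
        refine (bd_const 0).congr fun m _ _ => ?_
        exact c_zero (n + 1) j (Or.inr (by omega)) m
      | succ i ihi =>
        intro j hj
        cases j with
        | zero =>
          refine (bd_const 0).congr fun m _ _ => ?_
          exact c_zero (n + 1) 0 (Or.inl rfl) m
        | succ j =>
          refine bd_ode n (c (n + 1) (j + 1)) (deriv (c (n + 1) (j + 1))) _
            (fun m hm => c_hasDeriv (n + 1) (j + 1) m hm) (hode j)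
            (hRbd j (ihi (j + 2) (by omega))) ?_
          have h1 : Bd fun m => m * m * c n (j + 1) m +
              2 * ((m * w n m - (n + 1)) * c n j m - m * deriv (c n j) m) :=
            ((bd_id.mul bd_id).mul (ih (j + 1)).1).add ((bd_const 2).mul
              ((((bd_W n).sub (bd_const _)).mul (ih j).1).sub (ih j).2))
          refine h1.congr fun m hm _ => ?_
          rw [c_succ n j m hm]
          field_simp
    intro j
    have hj := hA (n + 3) j (by omega)
    refine ⟨hj, ?_⟩
    cases j with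
    | zero =>
      refine (bd_const 0).congr fun m _ _ => ?_
      have : c (n + 1) 0 = fun _ => 0 := funext fun x => c_zero (n + 1) 0 (Or.inl rfl) x
      rw [this, deriv_const, mul_zero]
    | succ j =>
      refine ((hRbd j (hA (n + 3) (j + 2) (by omega))).sub
        (((bd_const ((n : ℝ) + 2)).add (bd_W n)).mul hj)).congr fun m hm _ => ?_
      exact hode j m hm

theorem c_bdd_zero (n j : ℕ) :
    ∃ C : ℝ, ∀ m, 0 < m → m ≤ 1 → |c n j m| ≤ C ∧ |m * deriv (c n j) m| ≤ C := by
  obtain ⟨⟨C, hC⟩, ⟨D, hD⟩⟩ := b3_main n j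
  exact ⟨max C D, fun m h1 h2 => ⟨(hC m h1 h2).trans (le_max_left _ _),
    (hD m h1 h2).trans (le_max_right _ _)⟩⟩

end LPPEnd
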