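import Pool.Agent.Lib.MP_267da7_pr.B1
import Pool.Agent.Lib.MP_267da7_pr.A5

/-!
# B4: the coefficients are bounded near infinity

For `f : R -> R` define `NB 0 f := exists C, forall m >= 1, |f m| <= C` and
`NB (k+1) f := NB 0 f and (forall m > 0, DifferentiableAt R f m) and NB k (deriv f)`.
(The definition is given below.)  Facts:
* congruence: `f = g` on `(0,oo)` and `NB k f` imply `NB k g` (the derivatives agree on the open set `(0,oo)`).
* `NB (k+1) f -> NB k f`;  sums and products: `NB k f, NB k g` imply `NB k (f+g)`, `NB k (f*g)` (induction on `k`, with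
  `deriv (f*g) = f' g + f g'` on `(0,oo)` and the congruence); constants.
* `fun m => 1/m`: its derivative is `-(1/m)^2`, so `NB k` for all `k` by induction.
* `w n` and `V n`: induction on `n`.  `V 0` constant; `V (n+1) = 2 (w n)^2 - V n`.  `w n`: for `m >= 1`,
  `1/2 <= w n m` (A4) and `w n m <= w n 1` (it is nonincreasing, `w' = V - w^2 <= 0`), so `NB 0`; if `NB k (w n)` then
  `deriv (w n) = V n - (w n)^2` on `(0,oo)` is `NB k`, so `NB (k+1) (w n)`.
* `c n j`: by induction on `n`, for all `k` and `j`, `NB k (c n j)`: the recursion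
  `c_(n+1,j+1) = c_(n,j+1) + 2 (1/m) ((w_n - (n+1)(1/m)) c_(n,j) - deriv c_(n,j))` and `NB (k+1) (c n j)` gives `NB k (deriv (c n j))`.
-/

open Real MeasureTheory Set Filter
open scoped Topology

namespace LPPEnd

/-- iterated derivatives up to order `k` bounded on `[1,oo)`. -/
def NB : ℕ → (ℝ → ℝ) → Prop
  | 0, f => ∃ C : ℝ, ∀ m, 1 ≤ m → |f m| ≤ C
  | k + 1, f => (∃ C : ℝ, ∀ m, 1 ≤ m → |f m| ≤ C) ∧ (∀ m, 0 < m → DifferentiableAt ℝ f m) ∧
      NB k (deriv f)

private theorem nb_zero {k : ℕ} {f : ℝ → ℝ} (h : NB k f) : ∃ C : ℝ, ∀ m, 1 ≤ m → |f m| ≤ C := by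
  cases k with
  | zero => exact h
  | succ k => exact h.1

private theorem nb_congr (k : ℕ) : ∀ f g : ℝ → ℝ, (∀ m, 0 < m → g m = f m) → NB k f → NB k g := by
  induction k with
  | zero =>
    rintro f g h ⟨C, hC⟩
    exact ⟨C, fun m hm => by rw [h m (by linarith)]; exact hC m hm⟩
  | succ k ih =>
    rintro f g h ⟨⟨C, hC⟩, hd, hk⟩
    have he : ∀ m, 0 < m → g =ᶠ[𝓝 m] f := by
      intro m hm
      filter_upwards [Ioi_mem_nhds hm] with y hy
      exact h y hy
    refine ⟨⟨C, fun m hm => by rw [h m (by linarith)]; exact hC m hm⟩, ?_, ?_⟩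
    · intro m hm
      exact (hd m hm).congr_of_eventuallyEq (he m hm)
    · exact ih (deriv f) (deriv g) (fun m hm => (he m hm).deriv_eq) hk

private theorem nb_pred (k : ℕ) : ∀ f : ℝ → ℝ, NB (k + 1) f → NB k f := by
  induction k with
  | zero => exact fun f h => h.1
  | succ k ih => exact fun f h => ⟨h.1, h.2.1, ih _ h.2.2⟩

private theorem nb_const (k : ℕ) : ∀ a : ℝ, NB k fun _ => a := by
  induction k with
  | zero => exact fun a => ⟨|a|, fun _ _ => le_rfl⟩
  | succ k ih =>
    intro a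
    refine ⟨⟨|a|, fun _ _ => le_rfl⟩, fun m _ => differentiableAt_const a, ?_⟩
    have : deriv (fun _ : ℝ => a) = fun _ => 0 := by
      funext x
      exact deriv_const x a
    rw [this]
    exact ih 0

private theorem nb_add (k : ℕ) : ∀ f g : ℝ → ℝ, NB k f → NB k g → NB k fun m => f m + g m := by
  induction k with
  | zero =>
    rintro f g ⟨C, hC⟩ ⟨D, hD⟩
    exact ⟨C + D, fun m hm => (abs_add_le _ _).trans (add_le_add (hC m hm) (hD m hm))⟩
  | succ k ih =>
    rintro f g ⟨⟨C, hC⟩, hf, hf'⟩ ⟨⟨D, hD⟩, hg, hg'⟩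
    refine ⟨⟨C + D, fun m hm => (abs_add_le _ _).trans (add_le_add (hC m hm) (hD m hm))⟩,
      fun m hm => (hf m hm).add (hg m hm), ?_⟩
    refine nb_congr k _ _ ?_ (ih _ _ hf' hg')
    intro m hm
    exact deriv_add (hf m hm) (hg m hm)

private theorem nb_mul (k : ℕ) : ∀ f g : ℝ → ℝ, NB k f → NB k g → NB k fun m => f m * g m := by
  induction k with
  | zero =>
    rintro f g ⟨C, hC⟩ ⟨D, hD⟩
    refine ⟨C * D, fun m hm => ?_⟩
    rw [abs_mul]
    exact mul_le_mul (hC m hm) (hD m hm) (abs_nonneg _) ((abs_nonneg _).trans (hC m hm))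
  | succ k ih =>
    rintro f g hF hG
    obtain ⟨⟨C, hC⟩, hf, hf'⟩ := id hF
    obtain ⟨⟨D, hD⟩, hg, hg'⟩ := id hG
    refine ⟨⟨C * D, fun m hm => ?_⟩, fun m hm => (hf m hm).mul (hg m hm), ?_⟩
    · rw [abs_mul]
      exact mul_le_mul (hC m hm) (hD m hm) (abs_nonneg _) ((abs_nonneg _).trans (hC m hm))
    · refine nb_congr k _ _ ?_ (nb_add k _ _ (ih _ _ hf' (nb_pred k g hG)) (ih _ _ (nb_pred k f hF) hg'))
      intro m hm
      exact deriv_mul (hf m hm) (hg m hm)

private theorem nb_inv (k : ℕ) : NB k fun m => m⁻¹ := by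
  have h0 : ∀ m : ℝ, 1 ≤ m → |m⁻¹| ≤ 1 := by
    intro m hm
    rw [abs_of_nonneg (inv_nonneg.2 (by linarith))]
    exact inv_le_one_of_one_le₀ hm
  induction k with
  | zero => exact ⟨1, h0⟩
  | succ k ih =>
    refine ⟨⟨1, h0⟩, fun m hm => differentiableAt_inv hm.ne', ?_⟩
    refine nb_congr k _ _ ?_ (nb_mul k _ _ (nb_const k (-1)) (nb_mul k _ _ ih ih))
    intro m hm
    rw [deriv_inv]
    field_simp

private theorem nb_w_of (n : ℕ) (hV : ∀ k, NB k (V n)) : ∀ k, NB k (w n) := by
  have hanti : AntitoneOn (w n) (Ioi 0) := by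
    refine antitoneOn_of_deriv_nonpos (convex_Ioi 0)
      (fun m hm => (w_deriv n m hm).continuousAt.continuousWithinAt) ?_ ?_
    · intro m hm
      rw [interior_Ioi] at hm
      exact (w_deriv n m hm).differentiableAt.differentiableWithinAt
    · intro m hm
      rw [interior_Ioi] at hm
      rw [(w_deriv n m hm).deriv]
      have := (A4 n m hm).1
      linarith
  have h0 : ∃ C : ℝ, ∀ m, 1 ≤ m → |w n m| ≤ C := by
    refine ⟨w n 1, fun m hm => ?_⟩
    have hm0 : (0 : ℝ) < m := by linarith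
    rw [abs_of_nonneg (by
      have := (A5_w n m hm0).1
      have hn : (0 : ℝ) ≤ n := Nat.cast_nonneg n
      by_contra hcon
      push Not at hcon
      nlinarith)]
    exact hanti (mem_Ioi.2 one_pos) (mem_Ioi.2 hm0) hm
  intro k
  induction k with
  | zero => exact h0
  | succ k ih =>
    refine ⟨h0, fun m hm => (w_deriv n m hm).differentiableAt, ?_⟩
    refine nb_congr k _ _ ?_ (nb_add k _ _ (hV k) (nb_mul k _ _ (nb_const k (-1)) (nb_mul k _ _ ih ih)))
    intro m hm
    rw [(w_deriv n m hm).deriv]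
    ring

private theorem nb_V (n : ℕ) : ∀ k, NB k (V n) := by
  induction n with
  | zero => exact fun k => nb_const k (1 / 4)
  | succ n ih =>
    intro k
    have hw := nb_w_of n ih k
    refine nb_congr k _ _ ?_ (nb_add k _ _ (nb_mul k _ _ (nb_const k 2) (nb_mul k _ _ hw hw))
      (nb_mul k _ _ (nb_const k (-1)) (ih k)))
    intro m hm
    change 2 * w n m ^ 2 - V n m = _
    ring

private theorem nb_c (n : ℕ) : ∀ j k, NB k (c n j) := by
  induction n with
  | zero =>
    intro j k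
    rcases j with _ | _ | j
    · exact nb_const k 0
    · exact nb_const k 1
    · exact nb_const k 0
  | succ n ih =>
    intro j k
    cases j with
    | zero => exact nb_const k 0
    | succ j =>
      have hw := nb_w_of n (nb_V n) k
      have h1 := nb_add k _ _ (ih (j + 1) k) (nb_mul k _ _ (nb_mul k _ _ (nb_const k 2) (nb_inv k))
        (nb_add k _ _ (nb_mul k _ _ (nb_add k _ _ hw (nb_mul k _ _ (nb_const k (-((n : ℝ) + 1))) (nb_inv k)))
          (ih j k)) (nb_mul k _ _ (nb_const k (-1)) (ih j (k + 1)).2.2)))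
      refine nb_congr k _ _ ?_ h1
      intro m hm
      rw [c_succ n j m hm]
      field_simp
      ring

theorem c_bdd_top (n j : ℕ) : ∃ C : ℝ, ∀ m, 1 ≤ m → |c n j m| ≤ C := nb_c n j 0

end LPPEnd
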