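import Pool.Agent.Lib.MP_267da7_pr.B3
import Pool.Agent.Lib.MP_267da7_pr.B4

/-!
# B5: analytic properties of `Xi`

* derivatives: finite sums; `XiM`, `XiMM`, `XiT` are defined in Defs.
* `Xi_pde`: with `a_i = c n (i+1)`: multiply (E_n) (`c_E`, index `j = i`) by `e^(-T/4) T^i` and sum over `0 <= i <= n`
  (`a_(n+1) = c n (n+2) = 0`, `a_0 = 1`, so `a_0' = 0`).
  `XiT = -Xi/4 + e^(-T/4) sum (i+1) a_(i+1) T^i`,  `(m/T) XiM = e^(-T/4) sum_(i>=1) m a_i' T^(i-1) = e^(-T/4) sum_i m a_(i+1)' T^i`.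
* `Xi_succ`: `c_succ`, summed: `sum_i c_(n+1,i+1) T^i = sum_i c_(n,i+1) T^i + (2/m^2) sum_i ((W-n-1) c_(n,i) - m c_(n,i)') T^i`, and
  `sum_i c_(n,i) T^i = T sum_i c_(n,i+1) T^i` (`c n 0 = 0`).
* boundedness: `|Xi n T m - e^(-T/4)| <= C T` for `0 < T <= 1`, uniformly in `m > 0`, and `|Xi n T m| <= C` for `0 < T <= T0`
  (B3 + B4: all coefficients are bounded on `(0,oo)`; `a_0 = 1`).
-/

open Real MeasureTheory Set Filter
open scoped Topology

namespace LPPEnd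

theorem B5_c_fun_zero (n j : ℕ) (hj : j = 0 ∨ n + 1 < j) : c n j = fun _ => 0 :=
  funext fun m => c_zero n j hj m

theorem B5_deriv_zero (n j : ℕ) (hj : j = 0 ∨ n + 1 < j) (m : ℝ) : deriv (c n j) m = 0 := by
  rw [B5_c_fun_zero n j hj]
  simp

theorem B5_deriv_one (n : ℕ) (m : ℝ) : deriv (c n 1) m = 0 := by
  rw [show c n 1 = fun _ => 1 from funext fun m => c_one n m]
  simp

theorem Xi_hasDerivM (n : ℕ) (T m : ℝ) (hm : 0 < m) :
    HasDerivAt (fun m => Xi n T m) (XiM n T m) m := by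
  unfold Xi XiM
  refine HasDerivAt.const_mul _ (HasDerivAt.fun_sum fun i _ => ?_)
  exact (c_hasDeriv n (i + 1) m hm).mul_const _

theorem Xi_hasDerivMM (n : ℕ) (T m : ℝ) (hm : 0 < m) :
    HasDerivAt (fun m => XiM n T m) (XiMM n T m) m := by
  unfold XiM XiMM
  refine HasDerivAt.const_mul _ (HasDerivAt.fun_sum fun i _ => ?_)
  exact (c_hasDeriv2 n (i + 1) m hm).mul_const _

theorem Xi_hasDerivT (n : ℕ) (T m : ℝ) : HasDerivAt (fun T => Xi n T m) (XiT n T m) T := by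
  unfold XiT Xi
  have h1 : HasDerivAt (fun T : ℝ => Real.exp (-T / 4)) (Real.exp (-T / 4) * (-1 / 4)) T :=
    (((hasDerivAt_id' T).neg).div_const 4).exp
  have h2 : HasDerivAt (fun T : ℝ => ∑ i ∈ Finset.range (n + 1), c n (i + 1) m * T ^ i)
      (∑ i ∈ Finset.range (n + 1), c n (i + 1) m * (i * T ^ (i - 1))) T :=
    HasDerivAt.fun_sum fun i _ => (hasDerivAt_pow i T).const_mul _
  refine (h1.mul h2).congr_deriv ?_
  rw [Finset.sum_range_succ' (fun i => c n (i + 1) m * (i * T ^ (i - 1)))]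
  simp only [Nat.cast_zero, zero_mul, mul_zero, add_zero, Nat.cast_add, Nat.cast_one,
    Nat.add_sub_cancel]
  have h3 : ∑ i ∈ Finset.range n, c n (i + 1 + 1) m * (((i : ℝ) + 1) * T ^ i) =
      ∑ i ∈ Finset.range n, ((i : ℝ) + 1) * c n (i + 2) m * T ^ i :=
    Finset.sum_congr rfl fun i _ => by ring
  rw [h3]
  ring

theorem B5_cont (n j : ℕ) : ContinuousOn (c n j) (Ioi 0) := (c_smooth n j).continuousOn

theorem B5_smooth1 (n j : ℕ) : ContDiffOn ℝ (⊤ : ℕ∞) (deriv (c n j)) (Ioi 0) :=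
  (c_smooth n j).deriv_of_isOpen isOpen_Ioi (by simp)

theorem B5_smooth2 (n j : ℕ) : ContDiffOn ℝ (⊤ : ℕ∞) (deriv (deriv (c n j))) (Ioi 0) :=
  (B5_smooth1 n j).deriv_of_isOpen isOpen_Ioi (by simp)

theorem B5_contSum (n : ℕ) (f : ℕ → ℝ → ℝ) (hf : ∀ i, ContinuousOn (f i) (Ioi 0)) :
    ContinuousOn (fun p : ℝ × ℝ => Real.exp (-p.1 / 4) * ∑ i ∈ Finset.range n, f i p.2 * p.1 ^ i)
      (univ ×ˢ Ioi 0) := by
  refine ContinuousOn.mul (by fun_prop) ?_
  refine continuousOn_finsetSum _ fun i _ => ContinuousOn.mul ?_ (by fun_prop)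
  exact (hf i).comp continuousOn_snd fun p hp => hp.2

theorem Xi_contOn (n : ℕ) : ContinuousOn (fun p : ℝ × ℝ => Xi n p.1 p.2) (univ ×ˢ Ioi 0) :=
  B5_contSum (n + 1) (fun i => c n (i + 1)) fun i => B5_cont n (i + 1)

theorem XiM_contOn (n : ℕ) : ContinuousOn (fun p : ℝ × ℝ => XiM n p.1 p.2) (univ ×ˢ Ioi 0) :=
  B5_contSum (n + 1) (fun i => deriv (c n (i + 1))) fun i => (B5_smooth1 n (i + 1)).continuousOn

theorem XiMM_contOn (n : ℕ) : ContinuousOn (fun p : ℝ × ℝ => XiMM n p.1 p.2) (univ ×ˢ Ioi 0) :=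
  B5_contSum (n + 1) (fun i => deriv (deriv (c n (i + 1))))
    fun i => (B5_smooth2 n (i + 1)).continuousOn

theorem XiT_contOn (n : ℕ) : ContinuousOn (fun p : ℝ × ℝ => XiT n p.1 p.2) (univ ×ˢ Ioi 0) := by
  refine ContinuousOn.add (ContinuousOn.mul continuousOn_const (Xi_contOn n)) ?_
  exact B5_contSum n (fun i m => ((i : ℝ) + 1) * c n (i + 2) m)
    fun i => continuousOn_const.mul (B5_cont n (i + 2))

theorem Xi_pde (n : ℕ) (T m : ℝ) (hT : 0 < T) (hm : 0 < m) :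
    XiT n T m = XiMM n T m + (2 * (n + 1) / m - m / T) * XiM n T m
      - (V n m - n * (n + 1) / m ^ 2) * Xi n T m := by
  -- the sum of the identities (E_n)
  have hE : ∑ i ∈ Finset.range (n + 1), (m * deriv (c n (i + 2)) m + (i + 1) * c n (i + 2) m) * T ^ i =
      ∑ i ∈ Finset.range (n + 1), (deriv (deriv (c n (i + 1))) m
        + 2 * (n + 1) / m * deriv (c n (i + 1)) m
        + (1 / 4 - V n m + n * (n + 1) / m ^ 2) * c n (i + 1) m) * T ^ i :=
    Finset.sum_congr rfl fun i _ => by rw [c_E n i m hm]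
  have hR : ∑ i ∈ Finset.range (n + 1), (deriv (deriv (c n (i + 1))) m
        + 2 * (n + 1) / m * deriv (c n (i + 1)) m
        + (1 / 4 - V n m + n * (n + 1) / m ^ 2) * c n (i + 1) m) * T ^ i =
      ∑ i ∈ Finset.range (n + 1), deriv (deriv (c n (i + 1))) m * T ^ i
        + 2 * (n + 1) / m * ∑ i ∈ Finset.range (n + 1), deriv (c n (i + 1)) m * T ^ i
        + (1 / 4 - V n m + n * (n + 1) / m ^ 2) * ∑ i ∈ Finset.range (n + 1), c n (i + 1) m * T ^ i := by
    rw [Finset.mul_sum, Finset.mul_sum, ← Finset.sum_add_distrib, ← Finset.sum_add_distrib]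
    exact Finset.sum_congr rfl fun i _ => by ring
  have hLs : ∑ i ∈ Finset.range (n + 1), (m * deriv (c n (i + 2)) m + (i + 1) * c n (i + 2) m) * T ^ i =
      m * ∑ i ∈ Finset.range n, deriv (c n (i + 2)) m * T ^ i
        + ∑ i ∈ Finset.range n, ((i : ℝ) + 1) * c n (i + 2) m * T ^ i := by
    rw [Finset.sum_range_succ, B5_deriv_zero n (n + 2) (Or.inr (by omega)),
      c_zero n (n + 2) (Or.inr (by omega)), Finset.mul_sum, ← Finset.sum_add_distrib]
    have : ∀ i ∈ Finset.range n, (m * deriv (c n (i + 2)) m + (i + 1) * c n (i + 2) m) * T ^ i =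
        m * (deriv (c n (i + 2)) m * T ^ i) + ((i : ℝ) + 1) * c n (i + 2) m * T ^ i :=
      fun i _ => by ring
    rw [Finset.sum_congr rfl this]
    ring
  have hM : ∑ i ∈ Finset.range (n + 1), deriv (c n (i + 1)) m * T ^ i =
      T * ∑ i ∈ Finset.range n, deriv (c n (i + 2)) m * T ^ i := by
    rw [Finset.sum_range_succ', B5_deriv_one, zero_mul, add_zero, Finset.mul_sum]
    exact Finset.sum_congr rfl fun i _ => by ring
  rw [hLs, hR] at hE
  unfold XiT XiMM XiM Xi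
  have hM2 : m / T * ∑ i ∈ Finset.range (n + 1), deriv (c n (i + 1)) m * T ^ i =
      m * ∑ i ∈ Finset.range n, deriv (c n (i + 2)) m * T ^ i := by
    rw [hM]
    field_simp
  linear_combination (Real.exp (-T / 4)) * hE + (Real.exp (-T / 4)) * hM2

theorem Xi_succ (n : ℕ) (T m : ℝ) (hT : 0 < T) (hm : 0 < m) :
    Xi (n + 1) T m = Xi n T m
      + 2 * T / m ^ 2 * ((m * w n m - (n + 1)) * Xi n T m - m * XiM n T m) := by
  have h1 : ∑ i ∈ Finset.range (n + 1 + 1), c (n + 1) (i + 1) m * T ^ i =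
      ∑ i ∈ Finset.range (n + 1 + 1), c n (i + 1) m * T ^ i
      + 2 / m ^ 2 * ((m * w n m - (n + 1)) * ∑ i ∈ Finset.range (n + 1 + 1), c n i m * T ^ i
        - m * ∑ i ∈ Finset.range (n + 1 + 1), deriv (c n i) m * T ^ i) := by
    rw [Finset.mul_sum, Finset.mul_sum, ← Finset.sum_sub_distrib, Finset.mul_sum,
      ← Finset.sum_add_distrib]
    refine Finset.sum_congr rfl fun i _ => ?_
    rw [c_succ n i m hm]
    ring
  have h2 : ∑ i ∈ Finset.range (n + 1 + 1), c n (i + 1) m * T ^ i =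
      ∑ i ∈ Finset.range (n + 1), c n (i + 1) m * T ^ i := by
    rw [Finset.sum_range_succ, c_zero n (n + 1 + 1) (Or.inr (by omega)), zero_mul, add_zero]
  have h3 : ∑ i ∈ Finset.range (n + 1 + 1), c n i m * T ^ i =
      T * ∑ i ∈ Finset.range (n + 1), c n (i + 1) m * T ^ i := by
    rw [Finset.sum_range_succ', c_zero n 0 (Or.inl rfl), zero_mul, add_zero, Finset.mul_sum]
    exact Finset.sum_congr rfl fun i _ => by ring
  have h4 : ∑ i ∈ Finset.range (n + 1 + 1), deriv (c n i) m * T ^ i =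
      T * ∑ i ∈ Finset.range (n + 1), deriv (c n (i + 1)) m * T ^ i := by
    rw [Finset.sum_range_succ', B5_deriv_zero n 0 (Or.inl rfl), zero_mul, add_zero, Finset.mul_sum]
    exact Finset.sum_congr rfl fun i _ => by ring
  unfold Xi XiM
  rw [h1, h2, h3, h4]
  ring

/-- all coefficients are bounded on `(0,oo)` -/
theorem B5_bdd (n j : ℕ) : ∃ C : ℝ, 0 ≤ C ∧ ∀ m, 0 < m → |c n j m| ≤ C := by
  obtain ⟨C1, h1⟩ := c_bdd_zero n j
  obtain ⟨C2, h2⟩ := c_bdd_top n j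
  refine ⟨max C1 C2, ?_, fun m hm => ?_⟩
  · exact (abs_nonneg _).trans ((h1 1 one_pos le_rfl).1.trans (le_max_left _ _))
  · rcases le_total m 1 with h | h
    · exact (h1 m hm h).1.trans (le_max_left _ _)
    · exact (h2 m h).trans (le_max_right _ _)

theorem Xi_near (n : ℕ) :
    ∃ C : ℝ, 0 ≤ C ∧ ∀ T m : ℝ, 0 < T → T ≤ 1 → 0 < m → |Xi n T m - 1| ≤ C * T := by
  choose B hB0 hB using fun j => B5_bdd n j
  have hS0 : 0 ≤ ∑ i ∈ Finset.range n, B (i + 2) := Finset.sum_nonneg fun i _ => hB0 _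
  refine ⟨1 + ∑ i ∈ Finset.range n, B (i + 2), by linarith, fun T m hT hT1 hm => ?_⟩
  have h1 : Xi n T m - 1 = (Real.exp (-T / 4) - 1) +
      Real.exp (-T / 4) * ∑ i ∈ Finset.range n, c n (i + 2) m * T ^ (i + 1) := by
    unfold Xi
    rw [Finset.sum_range_succ', c_one]
    simp only [pow_zero, mul_one]
    ring
  have h2 : |Real.exp (-T / 4) - 1| ≤ T := by
    have h3 : Real.exp (-T / 4) ≤ 1 := Real.exp_le_one_iff.mpr (by linarith)
    have h4 := Real.add_one_le_exp (-T / 4)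
    rw [abs_of_nonpos (by linarith)]
    linarith
  have h5 : |Real.exp (-T / 4) * ∑ i ∈ Finset.range n, c n (i + 2) m * T ^ (i + 1)| ≤
      (∑ i ∈ Finset.range n, B (i + 2)) * T := by
    rw [abs_mul, abs_of_pos (Real.exp_pos _), Finset.sum_mul]
    have h3 : Real.exp (-T / 4) ≤ 1 := Real.exp_le_one_iff.mpr (by linarith)
    have h6 : |∑ i ∈ Finset.range n, c n (i + 2) m * T ^ (i + 1)| ≤
        ∑ i ∈ Finset.range n, B (i + 2) * T := by
      refine (Finset.abs_sum_le_sum_abs _ _).trans (Finset.sum_le_sum fun i _ => ?_)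
      rw [abs_mul, abs_of_pos (pow_pos hT _)]
      refine mul_le_mul (hB _ m hm) ?_ (pow_pos hT _).le (hB0 _)
      calc T ^ (i + 1) ≤ T ^ 1 := pow_le_pow_of_le_one hT.le hT1 (by omega)
        _ = T := pow_one T
    calc Real.exp (-T / 4) * |∑ i ∈ Finset.range n, c n (i + 2) m * T ^ (i + 1)|
        ≤ 1 * |∑ i ∈ Finset.range n, c n (i + 2) m * T ^ (i + 1)| :=
          mul_le_mul_of_nonneg_right h3 (abs_nonneg _)
      _ ≤ _ := by rw [one_mul]; exact h6
  rw [h1]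
  refine (abs_add_le _ _).trans ?_
  linarith

theorem Xi_bdd (n : ℕ) (T0 : ℝ) :
    ∃ C : ℝ, 0 ≤ C ∧ ∀ T m : ℝ, 0 < T → T ≤ T0 → 0 < m → |Xi n T m| ≤ C := by
  choose B hB0 hB using fun j => B5_bdd n j
  refine ⟨∑ i ∈ Finset.range (n + 1), B (i + 1) * |T0| ^ i,
    Finset.sum_nonneg fun i _ => mul_nonneg (hB0 _) (pow_nonneg (abs_nonneg _) _),
    fun T m hT hT1 hm => ?_⟩
  unfold Xi
  rw [abs_mul, abs_of_pos (Real.exp_pos _)]
  have h3 : Real.exp (-T / 4) ≤ 1 := Real.exp_le_one_iff.mpr (by linarith)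
  have h6 : |∑ i ∈ Finset.range (n + 1), c n (i + 1) m * T ^ i| ≤
      ∑ i ∈ Finset.range (n + 1), B (i + 1) * |T0| ^ i := by
    refine (Finset.abs_sum_le_sum_abs _ _).trans (Finset.sum_le_sum fun i _ => ?_)
    rw [abs_mul, abs_of_pos (pow_pos hT _)]
    exact mul_le_mul (hB _ m hm) (pow_le_pow_left₀ hT.le (hT1.trans (le_abs_self _)) _)
      (pow_pos hT _).le (hB0 _)
  calc Real.exp (-T / 4) * |∑ i ∈ Finset.range (n + 1), c n (i + 1) m * T ^ i|
      ≤ 1 * |∑ i ∈ Finset.range (n + 1), c n (i + 1) m * T ^ i| :=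
        mul_le_mul_of_nonneg_right h3 (abs_nonneg _)
    _ ≤ _ := by rw [one_mul]; exact h6

end LPPEnd
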