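import Pool.Agent.Lib.MP_267da7_pr.B5

/-!
# B6: the change of variables `(v,R)`

`Tv x B v = e^(2x)/(B (1 + B v))`, `mv x B v R = e^x R/(1 + B v)`.  For `B > 0`, `v >= 0` (so `1 + B v > 0`), `R > 0`:
`d/dv Tv = -(B/(1+Bv)) Tv`, `d/dv mv = -(B/(1+Bv)) mv`, `d/dR mv = mv/R = e^x/(1+Bv)`, and `mv^2/(R^2 Tv) = B/(1+Bv)`.
So for `E v R = Xi n (Tv v) (mv v R)`:
`E_v = -(B/(1+Bv)) (Tv XiT + mv XiM) = -(mv^2/R^2)(XiT + (mv/Tv) XiM)`, `E_R = (mv/R) XiM`, `E_RR = (mv/R)^2 XiMM`.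
(chain rule in two variables for `E_v`: `Xi n T m` is jointly `C^1` on `R x (0,oo)`; simplest: it is a finite sum
`e^(-T/4) sum c_i(m) T^i`, differentiate `v -> e^(-Tv/4) c_i(mv v) (Tv v)^i` directly and compare.)
By `Xi_pde`:  `-E_v = (mv/R)^2 (XiMM + (2(n+1)/m) XiM - U Xi) = E_RR + (2(n+1)/R) E_R - (mv/R)^2 (V_n(mv) - n(n+1)/mv^2) E`.
-/

open Real MeasureTheory Set Filter
open scoped Topology

namespace LPPEnd

noncomputable def Tv (x B v : ℝ) : ℝ := Real.exp (2 * x) / (B * (1 + B * v))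

noncomputable def mv (x B v R : ℝ) : ℝ := Real.exp x * R / (1 + B * v)

/-- `Xi` in the new variables -/
noncomputable def EE (n : ℕ) (x B v R : ℝ) : ℝ := Xi n (Tv x B v) (mv x B v R)

noncomputable def EEv (n : ℕ) (x B v R : ℝ) : ℝ :=
  -((mv x B v R / R) ^ 2 * (XiT n (Tv x B v) (mv x B v R)
    + mv x B v R / Tv x B v * XiM n (Tv x B v) (mv x B v R)))

noncomputable def EER (n : ℕ) (x B v R : ℝ) : ℝ :=
  Real.exp x / (1 + B * v) * XiM n (Tv x B v) (mv x B v R)

noncomputable def EERR (n : ℕ) (x B v R : ℝ) : ℝ :=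
  (Real.exp x / (1 + B * v)) ^ 2 * XiMM n (Tv x B v) (mv x B v R)

theorem B6_chain (n : ℕ) (T m : ℝ → ℝ) (T' m' v : ℝ) (hT : HasDerivAt T T' v)
    (hm : HasDerivAt m m' v) (hpos : 0 < m v) :
    HasDerivAt (fun v => Xi n (T v) (m v)) (T' * XiT n (T v) (m v) + m' * XiM n (T v) (m v)) v := by
  have h1 : ∀ i ∈ Finset.range (n + 1), HasDerivAt (fun v => c n (i + 1) (m v) * (T v) ^ i)
      (deriv (c n (i + 1)) (m v) * m' * (T v) ^ i
        + c n (i + 1) (m v) * ((i : ℝ) * (T v) ^ (i - 1) * T')) v := by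
    intro i _
    have h2 : HasDerivAt (fun v => c n (i + 1) (m v)) (deriv (c n (i + 1)) (m v) * m') v :=
      (c_hasDeriv n (i + 1) (m v) hpos).comp v hm
    exact h2.mul (hT.pow i)
  have h3 := HasDerivAt.fun_sum h1
  have h4 : HasDerivAt (fun v => Real.exp (-(T v) / 4)) (Real.exp (-(T v) / 4) * (-T' / 4)) v :=
    (hT.neg.div_const 4).exp
  have h5 := h4.mul h3
  refine h5.congr_deriv ?_
  unfold XiT XiM Xi
  have h6 : ∑ i ∈ Finset.range (n + 1), (deriv (c n (i + 1)) (m v) * m' * (T v) ^ i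
        + c n (i + 1) (m v) * ((i : ℝ) * (T v) ^ (i - 1) * T'))
      = m' * ∑ i ∈ Finset.range (n + 1), deriv (c n (i + 1)) (m v) * (T v) ^ i
        + T' * ∑ i ∈ Finset.range n, ((i : ℝ) + 1) * c n (i + 2) (m v) * (T v) ^ i := by
    rw [Finset.sum_add_distrib, Finset.mul_sum, Finset.mul_sum]
    congr 1
    · exact Finset.sum_congr rfl fun i _ => by ring
    · rw [Finset.sum_range_succ']
      simp only [Nat.cast_zero, zero_mul, mul_zero, add_zero]
      refine Finset.sum_congr rfl fun i _ => ?_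
      rw [Nat.add_sub_cancel]
      push_cast
      ring
  rw [h6]
  ring

theorem B6_Tv (x B v : ℝ) (hB : 0 < B) (hv : 0 ≤ v) :
    HasDerivAt (fun v => Tv x B v) (-(B / (1 + B * v)) * Tv x B v) v := by
  have hD : 0 < 1 + B * v := by positivity
  have h1 : HasDerivAt (fun v : ℝ => B * (1 + B * v)) (B * (0 + B * 1)) v :=
    (((hasDerivAt_const v (1 : ℝ)).add ((hasDerivAt_id v).const_mul B))).const_mul B
  have h2 := (hasDerivAt_const v (Real.exp (2 * x))).div h1 (by positivity)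
  refine h2.congr_deriv ?_
  unfold Tv
  field_simp
  ring

theorem B6_mv (x B v R : ℝ) (hB : 0 < B) (hv : 0 ≤ v) :
    HasDerivAt (fun v => mv x B v R) (-(B / (1 + B * v)) * mv x B v R) v := by
  have hD : 0 < 1 + B * v := by positivity
  have h1 : HasDerivAt (fun v : ℝ => 1 + B * v) (0 + B * 1) v :=
    ((hasDerivAt_const v (1 : ℝ)).add ((hasDerivAt_id v).const_mul B))
  have h2 := (hasDerivAt_const v (Real.exp x * R)).div h1 hD.ne'
  refine h2.congr_deriv ?_
  unfold mv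
  field_simp
  ring

theorem B6_pos (x B v R : ℝ) (hB : 0 < B) (hv : 0 ≤ v) (hR : 0 < R) : 0 < mv x B v R := by
  unfold mv
  have := Real.exp_pos x
  positivity

theorem B6_posT (x B v : ℝ) (hB : 0 < B) (hv : 0 ≤ v) : 0 < Tv x B v := by
  unfold Tv
  have := Real.exp_pos (2 * x)
  positivity

theorem B6_mvR (x B v R : ℝ) (_hB : 0 < B) (_hv : 0 ≤ v) :
    HasDerivAt (fun R => mv x B v R) (Real.exp x / (1 + B * v)) R := by
  unfold mv
  have h1 := ((hasDerivAt_id R).const_mul (Real.exp x)).div_const (1 + B * v)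
  refine h1.congr_deriv ?_
  ring

theorem EE_v (n : ℕ) (x B v R : ℝ) (hB : 0 < B) (hv : 0 ≤ v) (hR : 0 < R) :
    HasDerivAt (fun v => EE n x B v R) (EEv n x B v R) v := by
  have h1 := B6_chain n (fun v => Tv x B v) (fun v => mv x B v R) _ _ v
    (B6_Tv x B v hB hv) (B6_mv x B v R hB hv) (B6_pos x B v R hB hv hR)
  refine h1.congr_deriv ?_
  have hD : 0 < 1 + B * v := by positivity
  have hT := (B6_posT x B v hB hv).ne'
  have hk : (mv x B v R / R) ^ 2 = B / (1 + B * v) * Tv x B v := by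
    unfold mv Tv
    have h2 : Real.exp (2 * x) = Real.exp x ^ 2 := by
      rw [← Real.exp_nat_mul]
      norm_num
    rw [h2]
    field_simp
  simp only [EEv]
  rw [hk]
  field_simp
  ring

theorem EE_R (n : ℕ) (x B v R : ℝ) (hB : 0 < B) (hv : 0 ≤ v) (hR : 0 < R) :
    HasDerivAt (fun R => EE n x B v R) (EER n x B v R) R := by
  have h1 := (Xi_hasDerivM n (Tv x B v) (mv x B v R) (B6_pos x B v R hB hv hR)).comp R
    (B6_mvR x B v R hB hv)
  refine h1.congr_deriv ?_
  unfold EER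
  ring

theorem EE_RR (n : ℕ) (x B v R : ℝ) (hB : 0 < B) (hv : 0 ≤ v) (hR : 0 < R) :
    HasDerivAt (fun R => EER n x B v R) (EERR n x B v R) R := by
  have h1 := ((Xi_hasDerivMM n (Tv x B v) (mv x B v R) (B6_pos x B v R hB hv hR)).comp R
    (B6_mvR x B v R hB hv)).const_mul (Real.exp x / (1 + B * v))
  refine h1.congr_deriv ?_
  unfold EERR
  ring

theorem EE_cont (n : ℕ) (x B : ℝ) (hB : 0 < B) :
    ContinuousOn (fun p : ℝ × ℝ => EE n x B p.1 p.2) (Ici 0 ×ˢ Ioi 0) := by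
  have h0 : ContinuousOn (fun p : ℝ × ℝ => ((Tv x B p.1, mv x B p.1 p.2) : ℝ × ℝ))
      (Ici 0 ×ˢ Ioi 0) := by
    have hne : ∀ p ∈ (Ici (0 : ℝ) ×ˢ Ioi (0 : ℝ)), 1 + B * p.1 ≠ 0 := by
      intro p hp
      have h1 : 0 ≤ p.1 := hp.1
      positivity
    refine ContinuousOn.prodMk ?_ ?_
    · unfold Tv
      refine ContinuousOn.div continuousOn_const (by fun_prop) fun p hp => ?_
      exact mul_ne_zero hB.ne' (hne p hp)
    · unfold mv
      exact ContinuousOn.div (by fun_prop) (by fun_prop) hne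
  refine (Xi_contOn n).comp h0 fun p hp => ?_
  exact ⟨mem_univ _, B6_pos x B p.1 p.2 hB hp.1 hp.2⟩

/-- the equation, in the form used for the linear maximum principle -/
theorem EE_pde (n : ℕ) (x B v R : ℝ) (hB : 0 < B) (hv : 0 ≤ v) (hR : 0 < R) :
    EEv n x B v R + EERR n x B v R + 2 * (n + 1) / R * EER n x B v R =
      (Real.exp x / (1 + B * v)) ^ 2 *
        (V n (mv x B v R) - n * (n + 1) / (mv x B v R) ^ 2) * EE n x B v R := by
  have hD : 0 < 1 + B * v := by positivity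
  have hT := B6_posT x B v hB hv
  have hm := B6_pos x B v R hB hv hR
  have h1 := Xi_pde n (Tv x B v) (mv x B v R) hT hm
  have hq : mv x B v R / R = Real.exp x / (1 + B * v) := by
    unfold mv
    field_simp
  have hm1 : mv x B v R = Real.exp x / (1 + B * v) * R := by
    unfold mv
    ring
  unfold EEv EERR EER EE
  rw [h1, hq]
  have he := Real.exp_pos x
  generalize XiMM n (Tv x B v) (mv x B v R) = a
  generalize XiM n (Tv x B v) (mv x B v R) = b
  generalize Xi n (Tv x B v) (mv x B v R) = c0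
  generalize V n (mv x B v R) = d
  have hr : 2 * ((n : ℝ) + 1) / R = (Real.exp x / (1 + B * v)) * (2 * ((n : ℝ) + 1) / mv x B v R) := by
    rw [hm1]
    field_simp
  rw [hr]
  generalize mv x B v R = mm
  ring

end LPPEnd
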