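import Pool.Agent.Lib.MP_267da7_pr.Defs

/-!
# M1: linear maximum principle

`b(R) = log ((1+R^2)/R)`: `b >= log 2 > 0`, `b -> oo` as `R -> 0+` and `R -> oo`, `b' = (R^2-1)/(R(R^2+1))`,
`b'' = 1/R^2 + (2 - 2R^2)/(1+R^2)^2 <= 1/R^2 + 2`, and `2 al b'/R = 2 al (-1/R^2 + 2/(1+R^2)) <= -2 al/R^2 + 4 al`.  Hence for `al >= 1`
`b'' + (2 al/R) b' <= 2 + 4 al =: K`.  Let `K' = K + 1`.

Suppose `g v0 R0 < 0`; let `d = -g v0 R0 / 2 > 0`.  Choose `H > v0` with `g H R >= -d` for all `R > 0`.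
For `eps > 0` put `G v R = g v R + eps (b R + K' (H - v))` on `[0,H] x (0,oo)`.  `G` is continuous and tends to `+oo` as `R -> 0`
or `R -> oo` uniformly in `v` (`g >= -C`), so it attains its minimum at some `(vs, Rs)`: choose `0 < r1 < R0 < r2` such that
`G > G v0 R0` outside `[0,H] x [r1,r2]`, and use compactness.
Case `vs = H`: `G >= g(H,Rs) >= -d`.
Case `vs < H`: `G_v >= 0` at the minimum (right derivative; `= 0` if `vs > 0`), `G_R = 0`, `G_RR >= 0`.  So `g_v >= eps K'`,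
 `g_R = -eps b'`, `g_RR >= -eps b''` and `g_v + g_RR + (2 al/R) g_R >= eps (K' - b'' - (2al/R) b') >= eps > 0`.  If `g(vs,Rs) < 0` this
 contradicts the hypothesis; so `g(vs,Rs) >= 0` and `G(vs,Rs) >= 0`.
In both cases `G v0 R0 >= -d`, so `g v0 R0 >= -d - eps (b R0 + K' H)`; let `eps -> 0`: `g v0 R0 >= -d`, i.e. `-2d >= -d`.
Contradiction.
(Second derivative test: if `f` has a local minimum at `t0`, `f' = f1` near `t0`, `f1` has derivative `f2` at `t0`, then `f2 >= 0`.)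
-/

open Real MeasureTheory Set Filter
open scoped Topology

namespace LPPEnd

/-- the barrier -/
noncomputable def bar (R : ℝ) : ℝ := Real.log ((1 + R ^ 2) / R)

theorem bar_pos (R : ℝ) (hR : 0 < R) : 0 < bar R := by
  apply Real.log_pos
  rw [lt_div_iff₀ hR]
  nlinarith [sq_nonneg (R - 1)]

theorem bar_deriv (R : ℝ) (hR : 0 < R) :
    HasDerivAt bar ((R ^ 2 - 1) / (R * (R ^ 2 + 1))) R := by
  have h1 : HasDerivAt (fun R : ℝ => (1 + R ^ 2) / R) (((2 * R) * R - (1 + R ^ 2) * 1) / R ^ 2) R := by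
    have ha : HasDerivAt (fun R : ℝ => 1 + R ^ 2) (2 * R) R := by
      simpa using (hasDerivAt_pow 2 R).const_add 1
    exact ha.div (hasDerivAt_id R) hR.ne'
  have h2 : (1 + R ^ 2) / R ≠ 0 := by positivity
  have h3 : HasDerivAt bar _ R := h1.log h2
  have h4 : (R ^ 2 - 1) / (R * (R ^ 2 + 1)) = (2 * R * R - (1 + R ^ 2) * 1) / R ^ 2 / ((1 + R ^ 2) / R) := by
    field_simp
    ring
  rw [h4]
  exact h3

theorem bar_deriv2 (R : ℝ) (hR : 0 < R) :
    ∃ b2 : ℝ, HasDerivAt (fun R => (R ^ 2 - 1) / (R * (R ^ 2 + 1))) b2 R ∧ b2 ≤ 1 / R ^ 2 + 2 := by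
  refine ⟨((2 * R) * (R * (R ^ 2 + 1)) - (R ^ 2 - 1) * (3 * R ^ 2 + 1)) / (R * (R ^ 2 + 1)) ^ 2, ?_, ?_⟩
  · have ha : HasDerivAt (fun R : ℝ => R ^ 2 - 1) (2 * R) R := by
      simpa using (hasDerivAt_pow 2 R).sub_const 1
    have hb : HasDerivAt (fun R : ℝ => R * (R ^ 2 + 1)) (3 * R ^ 2 + 1) R := by
      have hc : HasDerivAt (fun R : ℝ => R ^ 2 + 1) (2 * R) R := by
        simpa using (hasDerivAt_pow 2 R).add_const 1
      have h5 := (hasDerivAt_id R).mul hc
      have h6 : 3 * R ^ 2 + 1 = 1 * (R ^ 2 + 1) + R * (2 * R) := by ring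
      rw [h6]
      exact h5
    exact ha.div hb (by positivity)
  · rw [div_le_iff₀ (by positivity)]
    have : (1 / R ^ 2 + 2) * (R * (R ^ 2 + 1)) ^ 2 = (R ^ 2 + 1) ^ 2 + 2 * R ^ 2 * (R ^ 2 + 1) ^ 2 := by
      field_simp
    rw [this]
    have h4 : 0 ≤ R ^ 2 := sq_nonneg R
    have h5 : 0 ≤ 2 * R ^ 2 * (R ^ 4 + 3 * R ^ 2) := by positivity
    nlinarith

theorem bar_zero : Tendsto bar (𝓝[>] 0) atTop := by
  have h1 : Tendsto (fun R : ℝ => -Real.log R) (𝓝[>] 0) atTop :=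
    tendsto_neg_atBot_atTop.comp Real.tendsto_log_nhdsGT_zero
  refine tendsto_atTop_mono' _ ?_ h1
  filter_upwards [self_mem_nhdsWithin] with R hR
  have hR' : 0 < R := hR
  rw [← Real.log_inv]
  apply Real.log_le_log (by positivity)
  rw [inv_eq_one_div]
  gcongr
  nlinarith [sq_nonneg R]

theorem bar_top : Tendsto bar atTop atTop := by
  refine tendsto_atTop_mono' _ ?_ Real.tendsto_log_atTop
  filter_upwards [eventually_gt_atTop 0] with R hR
  apply Real.log_le_log hR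
  rw [le_div_iff₀ hR]
  nlinarith

/-- second derivative test -/
theorem min_second (f f1 : ℝ → ℝ) (t0 f2 r : ℝ) (hr : 0 < r)
    (h1 : ∀ t ∈ Ioo (t0 - r) (t0 + r), HasDerivAt f (f1 t) t)
    (h2 : HasDerivAt f1 f2 t0) (hmin : IsLocalMin f t0) : f1 t0 = 0 ∧ 0 ≤ f2 := by
  have h10 : f1 t0 = 0 := hmin.hasDerivAt_eq_zero (h1 t0 ⟨by linarith, by linarith⟩)
  refine ⟨h10, ?_⟩
  by_contra hneg
  push Not at hneg
  have hsl := hasDerivAt_iff_tendsto_slope.1 h2
  have hev : ∀ᶠ t in 𝓝[≠] t0, slope f1 t0 t < 0 := hsl (Iio_mem_nhds hneg)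
  have hev2 : ∀ᶠ t in 𝓝[>] t0, slope f1 t0 t < 0 :=
    hev.filter_mono (nhdsWithin_mono _ (fun x hx => ne_of_gt hx))
  have hev3 : ∀ᶠ t in 𝓝[>] t0, f t0 ≤ f t := Filter.Eventually.filter_mono nhdsWithin_le_nhds hmin
  have hev4 : ∀ᶠ t in 𝓝[>] t0, t < t0 + r := Filter.Eventually.filter_mono nhdsWithin_le_nhds
    (Iio_mem_nhds (by linarith))
  obtain ⟨u, hu, hsub⟩ := mem_nhdsGT_iff_exists_Ioo_subset.1 (hev2.and (hev3.and hev4))
  have hu' : t0 < u := hu
  set t := (t0 + u) / 2 with ht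
  have ht1 : t0 < t := by rw [ht]; linarith
  have ht2 : t < u := by rw [ht]; linarith
  obtain ⟨_, hft, htr⟩ := hsub ⟨ht1, ht2⟩
  obtain ⟨c, hc, hcs⟩ := exists_hasDerivAt_eq_slope f f1 ht1
    (fun x hx => (h1 x ⟨by linarith [hx.1], by linarith [hx.2]⟩).continuousAt.continuousWithinAt)
    (fun x hx => h1 x ⟨by linarith [hx.1], by linarith [hx.2]⟩)
  have hc1 : 0 ≤ f1 c := by
    rw [hcs]; exact div_nonneg (by linarith) (by linarith)
  have hc2 : slope f1 t0 c < 0 := (hsub ⟨hc.1, by linarith [hc.2]⟩).1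
  rw [slope_def_field, h10, sub_zero] at hc2
  have hc3 : 0 ≤ f1 c / (c - t0) := div_nonneg hc1 (by linarith [hc.1])
  linarith

theorem M1_right (f : ℝ → ℝ) (t0 f1 u : ℝ) (hu : t0 < u) (h1 : HasDerivAt f f1 t0)
    (hmin : ∀ t ∈ Ioo t0 u, f t0 ≤ f t) : 0 ≤ f1 := by
  have hsl := hasDerivAt_iff_tendsto_slope.1 h1
  have hsl2 : Tendsto (slope f t0) (𝓝[>] t0) (𝓝 f1) :=
    hsl.mono_left (nhdsWithin_mono _ (fun x hx => ne_of_gt hx))
  refine ge_of_tendsto hsl2 ?_
  filter_upwards [Ioo_mem_nhdsGT hu] with t ht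
  rw [slope_def_field]
  exact div_nonneg (by linarith [hmin t ht]) (by linarith [ht.1])

theorem M1_bar (al : ℝ) (hal : 1 ≤ al) (R b2 : ℝ) (hR : 0 < R) (hb : b2 ≤ 1 / R ^ 2 + 2) :
    b2 + 2 * al / R * ((R ^ 2 - 1) / (R * (R ^ 2 + 1))) ≤ 2 + 4 * al := by
  have h1 : 2 * al / R * ((R ^ 2 - 1) / (R * (R ^ 2 + 1))) = 2 * al * (2 / (1 + R ^ 2)) - 2 * al * (1 / R ^ 2) := by
    field_simp
    ring
  rw [h1]
  have h2 : 2 / (1 + R ^ 2) ≤ 2 := by
    rw [div_le_iff₀ (by positivity)]; nlinarith [sq_nonneg R]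
  have h3 : 0 ≤ 1 / R ^ 2 := by positivity
  nlinarith

theorem M1 (al : ℝ) (hal : 1 ≤ al) (g gv gR gRR : ℝ → ℝ → ℝ)
    (hcont : ContinuousOn (fun p : ℝ × ℝ => g p.1 p.2) (Ici 0 ×ˢ Ioi 0))
    (hv : ∀ v R, 0 ≤ v → 0 < R → HasDerivAt (fun v => g v R) (gv v R) v)
    (hR : ∀ v R, 0 ≤ v → 0 < R → HasDerivAt (fun R => g v R) (gR v R) R)
    (hRR : ∀ v R, 0 ≤ v → 0 < R → HasDerivAt (fun R => gR v R) (gRR v R) R)
    (hineq : ∀ v R, 0 ≤ v → 0 < R → g v R < 0 → gv v R + gRR v R + 2 * al / R * gR v R ≤ 0)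
    (hbdd : ∃ C : ℝ, ∀ v R, 0 ≤ v → 0 < R → -C ≤ g v R)
    (hlim : ∀ d > 0, ∃ H0, ∀ v, H0 ≤ v → ∀ R, 0 < R → -d ≤ g v R) :
    ∀ v R, 0 ≤ v → 0 < R → 0 ≤ g v R := by
  intro v0 R0 hv0 hR0
  by_contra hneg
  push Not at hneg
  set d : ℝ := -g v0 R0 / 2 with hd
  have hdpos : 0 < d := by rw [hd]; linarith
  obtain ⟨H0, hH0⟩ := hlim d hdpos
  obtain ⟨C, hC⟩ := hbdd
  set H : ℝ := max H0 (v0 + 1) with hH
  have hH1 : H0 ≤ H := le_max_left _ _
  have hH2 : v0 + 1 ≤ H := le_max_right _ _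
  set K : ℝ := 3 + 4 * al with hK
  have hKpos : 0 < K := by rw [hK]; linarith
  have claim : ∀ eps : ℝ, 0 < eps → -d ≤ g v0 R0 + eps * (bar R0 + K * (H - v0)) := by
    intro eps heps
    set G : ℝ → ℝ → ℝ := fun v R => g v R + eps * (bar R + K * (H - v)) with hG
    set M : ℝ := (G v0 R0 + C) / eps with hM
    have hz : ∀ᶠ R in 𝓝[>] (0:ℝ), M < bar R := bar_zero.eventually_gt_atTop M
    obtain ⟨δ, hδ, hδ'⟩ := mem_nhdsGT_iff_exists_Ioo_subset.1 hz
    have hδ0 : 0 < δ := hδ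
    obtain ⟨r2', hr2'⟩ := Filter.eventually_atTop.1 (bar_top.eventually_gt_atTop M)
    set r1 : ℝ := min (δ / 2) (R0 / 2) with hr1
    have hr1pos : 0 < r1 := lt_min (by linarith) (by linarith)
    have hr1a : r1 ≤ δ / 2 := min_le_left _ _
    have hr1b : r1 ≤ R0 / 2 := min_le_right _ _
    set r2 : ℝ := max r2' (R0 + 1) with hr2
    have hr2a : r2' ≤ r2 := le_max_left _ _
    have hr2b : R0 + 1 ≤ r2 := le_max_right _ _
    have hout : ∀ v R, 0 ≤ v → v ≤ H → 0 < R → M < bar R → G v0 R0 < G v R := by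
      intro v R h1 h2 h3 h4
      have h5 : G v0 R0 + C < eps * bar R := by
        rw [hM, div_lt_iff₀ heps] at h4; linarith
      have h6 : 0 ≤ eps * (K * (H - v)) := by
        have : 0 ≤ H - v := by linarith
        positivity
      have h7 := hC v R h1 h3
      show G v0 R0 < g v R + eps * (bar R + K * (H - v))
      linarith
    have hcompact : IsCompact (Icc (0:ℝ) H ×ˢ Icc r1 r2) := isCompact_Icc.prod isCompact_Icc
    have hcontG : ContinuousOn (fun p : ℝ × ℝ => G p.1 p.2) (Icc (0:ℝ) H ×ˢ Icc r1 r2) := by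
      refine ContinuousOn.add ?_ ?_
      · exact hcont.mono (fun p hp => ⟨hp.1.1, lt_of_lt_of_le hr1pos hp.2.1⟩)
      · refine ContinuousOn.mul continuousOn_const (ContinuousOn.add ?_ ?_)
        · intro p hp
          have hpos : 0 < p.2 := lt_of_lt_of_le hr1pos hp.2.1
          have h1 : ContinuousAt bar p.2 := (bar_deriv p.2 hpos).continuousAt
          exact (ContinuousAt.comp (f := fun p : ℝ × ℝ => p.2) h1 continuousAt_snd).continuousWithinAt
        · exact (continuous_const.mul (continuous_const.sub continuous_fst)).continuousOn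
    obtain ⟨⟨vs, Rs⟩, hmem, hmin⟩ := hcompact.exists_isMinOn
      ⟨(v0, R0), ⟨⟨hv0, by linarith⟩, ⟨by linarith, by linarith⟩⟩⟩ hcontG
    have hvs0 : 0 ≤ vs := hmem.1.1
    have hvsH : vs ≤ H := hmem.1.2
    have hRs : 0 < Rs := lt_of_lt_of_le hr1pos hmem.2.1
    have hmin0 : G vs Rs ≤ G v0 R0 :=
      hmin (a := (v0, R0)) ⟨⟨hv0, by linarith⟩, ⟨by linarith, by linarith⟩⟩
    have hglob : ∀ v R, 0 ≤ v → v ≤ H → 0 < R → G vs Rs ≤ G v R := by
      intro v R h1 h2 h3
      by_cases h4 : r1 ≤ R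
      · by_cases h5 : R ≤ r2
        · exact hmin (a := (v, R)) ⟨⟨h1, h2⟩, ⟨h4, h5⟩⟩
        · push Not at h5
          exact hmin0.trans (hout v R h1 h2 h3 (hr2' R (by linarith))).le
      · push Not at h4
        exact hmin0.trans (hout v R h1 h2 h3 (hδ' ⟨h3, by linarith⟩)).le
    have hkey : -d ≤ G vs Rs := by
      have hbp : 0 < bar Rs := bar_pos Rs hRs
      by_cases hcase : vs < H
      · have hHv : 0 < H - vs := by linarith
        by_cases hg : 0 ≤ g vs Rs
        · have : 0 ≤ eps * (bar Rs + K * (H - vs)) := by positivity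
          show -d ≤ g vs Rs + eps * (bar Rs + K * (H - vs))
          linarith
        · exfalso
          push Not at hg
          obtain ⟨b2, hb2, hb2'⟩ := bar_deriv2 Rs hRs
          -- v direction
          have hvd : HasDerivAt (fun v => G v Rs) (gv vs Rs + eps * (0 + K * (-1))) vs := by
            refine (hv vs Rs hvs0 hRs).add ?_
            refine HasDerivAt.const_mul eps ?_
            refine (hasDerivAt_const vs (bar Rs)).add ?_
            refine HasDerivAt.const_mul K ?_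
            simpa using (hasDerivAt_id vs).const_sub H
          have h1 := M1_right (fun v => G v Rs) vs _ H hcase hvd
            (fun t ht => hglob t Rs (by linarith [ht.1]) ht.2.le hRs)
          -- R direction
          have hRd : ∀ t ∈ Ioo (Rs - Rs) (Rs + Rs), HasDerivAt (fun R => G vs R)
              ((fun R => gR vs R + eps * ((R ^ 2 - 1) / (R * (R ^ 2 + 1)) + 0)) t) t := by
            intro t ht
            have ht0 : 0 < t := by have := ht.1; linarith
            refine (hR vs t hvs0 ht0).add ?_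
            refine HasDerivAt.const_mul eps ?_
            exact (bar_deriv t ht0).add (hasDerivAt_const t _)
          have hRRd : HasDerivAt (fun R => gR vs R + eps * ((R ^ 2 - 1) / (R * (R ^ 2 + 1)) + 0))
              (gRR vs Rs + eps * (b2 + 0)) Rs := by
            refine (hRR vs Rs hvs0 hRs).add ?_
            refine HasDerivAt.const_mul eps ?_
            exact hb2.add (hasDerivAt_const Rs (0:ℝ))
          have hlm : IsLocalMin (fun R => G vs R) Rs := by
            filter_upwards [Ioi_mem_nhds hRs] with R hRpos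
            exact hglob vs R hvs0 hvsH hRpos
          obtain ⟨h2, h3⟩ := min_second (fun R => G vs R) _ Rs _ Rs hRs hRd hRRd hlm
          simp only [add_zero] at h2 h3
          have h4 := hineq vs Rs hvs0 hRs hg
          have h5 := M1_bar al hal Rs b2 hRs hb2'
          have h6 : gR vs Rs = -(eps * ((Rs ^ 2 - 1) / (Rs * (Rs ^ 2 + 1)))) := by linarith
          rw [h6] at h4
          have h7 : eps * (b2 + 2 * al / Rs * ((Rs ^ 2 - 1) / (Rs * (Rs ^ 2 + 1)))) ≤ eps * (2 + 4 * al) :=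
            mul_le_mul_of_nonneg_left h5 heps.le
          have h8 : 2 * al / Rs * -(eps * ((Rs ^ 2 - 1) / (Rs * (Rs ^ 2 + 1)))) =
              -(eps * (2 * al / Rs * ((Rs ^ 2 - 1) / (Rs * (Rs ^ 2 + 1))))) := by ring
          rw [h8] at h4
          have h9 : gv vs Rs ≥ eps * K := by linarith
          rw [hK] at h9
          have h10 : eps * (b2 + 2 * al / Rs * ((Rs ^ 2 - 1) / (Rs * (Rs ^ 2 + 1)))) =
            eps * b2 + eps * (2 * al / Rs * ((Rs ^ 2 - 1) / (Rs * (Rs ^ 2 + 1)))) := by ring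
          rw [h10] at h7
          have h11 : eps * (3 + 4 * al) = eps * (2 + 4 * al) + eps := by ring
          rw [h11] at h9
          linarith
      · have hvH : vs = H := le_antisymm hvsH (not_lt.1 hcase)
        have h1 := hH0 H hH1 Rs hRs
        show -d ≤ g vs Rs + eps * (bar Rs + K * (H - vs))
        rw [hvH, sub_self, mul_zero, add_zero]
        have : 0 ≤ eps * bar Rs := by positivity
        linarith
    exact hkey.trans hmin0
  have hb0 := bar_pos R0 hR0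
  have hQ : 0 < bar R0 + K * (H - v0) := by
    have : 0 < H - v0 := by linarith
    positivity
  have h1 := claim (d / (2 * (bar R0 + K * (H - v0)))) (by positivity)
  have h2 : d / (2 * (bar R0 + K * (H - v0))) * (bar R0 + K * (H - v0)) = d / 2 := by
    field_simp
  rw [h2] at h1
  have h3 : g v0 R0 = -2 * d := by rw [hd]; ring
  rw [h3] at h1
  linarith

end LPPEnd
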