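import Pool.Agent.Lib.MP_267da7_pr.B6
import Pool.Agent.Lib.MP_267da7_pr.M1

/-!
# B7: bounds for `Xi`:  `e^(-T/4) <= Xi_n(T,m) <= e^(-T/(4(2n+1)))`

Given `T0, m0 > 0` take `B = 1`, `x = (log T0)/2`, `R0 = m0/e^x`; then `Tv x 1 0 = T0`, `mv x 1 0 R0 = m0`.
Write `q = (e^x/(1+v))^2 = (mv/R)^2`, `U = V_n(mv) - n(n+1)/mv^2`; by A5_v: `u <= U <= 1/4` with `u = 1/(4(2n+1))`.
`Tv = e^(2x)/(1+v)`, `d/dv Tv = -Tv/(1+v) = -q` (as `q = e^(2x)/(1+v)^2`).
Lower bound: `g v R = EE v R - e^(-Tv/4)`: `d/dv e^(-Tv/4) = (q/4) e^(-Tv/4)`, so by `EE_pde`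
 `g_v + g_RR + (2(n+1)/R) g_R = q U EE - (q/4) e^(-Tv/4) = q U g + q (U - 1/4) e^(-Tv/4) <= 0` if `g < 0`  (`U >= 0`).
Upper bound: `g = e^(-u Tv) - EE`: `g_v + g_RR + (2(n+1)/R) g_R = q u e^(-u Tv) - q U EE = q U g + q (u - U) e^(-u Tv) <= 0` if `g < 0`.
Both `g` are bounded (`Xi_bdd` with `T0 := e^(2x)`) and tend to `0` uniformly in `R` as `v -> oo` (`Tv -> 0`, `Xi_near`).
Apply `M1` with `al = n+1`, at `(v,R) = (0,R0)`.
-/

open Real MeasureTheory Set Filter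
open scoped Topology

namespace LPPEnd

private theorem b7_Tv_deriv (x v : ℝ) (hv : 0 ≤ v) :
    HasDerivAt (fun v => Tv x 1 v) (-(Real.exp x / (1 + 1 * v)) ^ 2) v := by
  unfold Tv
  have h1 : HasDerivAt (fun v : ℝ => 1 * (1 + 1 * v)) 1 v := by
    have := ((hasDerivAt_id v).const_add 1)
    refine (this.congr_of_eventuallyEq ?_)
    filter_upwards with y
    simp
  have h2 := (hasDerivAt_const v (Real.exp (2 * x))).div h1 (by positivity)
  refine h2.congr_deriv ?_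
  have h3 : Real.exp (2 * x) = Real.exp x ^ 2 := by rw [← Real.exp_nat_mul]; norm_num
  rw [h3]
  field_simp
  ring

private theorem b7_exp_deriv (u x v : ℝ) (hv : 0 ≤ v) :
    HasDerivAt (fun v => Real.exp (-(u * Tv x 1 v)))
      (u * (Real.exp x / (1 + 1 * v)) ^ 2 * Real.exp (-(u * Tv x 1 v))) v := by
  have := (((b7_Tv_deriv x v hv).const_mul u).neg).exp
  refine this.congr_deriv ?_
  change Real.exp (-(u * Tv x 1 v)) * -(u * -(Real.exp x / (1 + 1 * v)) ^ 2) = _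
  ring

private theorem b7_Tv_pos (x v : ℝ) (hv : 0 ≤ v) : 0 < Tv x 1 v := by
  unfold Tv
  positivity

private theorem b7_Tv_le (x v : ℝ) (hv : 0 ≤ v) : Tv x 1 v ≤ Real.exp (2 * x) := by
  unfold Tv
  rw [div_le_iff₀ (by positivity)]
  nlinarith [Real.exp_pos (2 * x)]

private theorem b7_mv_pos (x v R : ℝ) (hv : 0 ≤ v) (hR : 0 < R) : 0 < mv x 1 v R := by
  unfold mv
  positivity

private theorem b7_U (n : ℕ) (m : ℝ) (hm : 0 < m) :
    1 / (4 * (2 * (n : ℝ) + 1)) ≤ V n m - n * (n + 1) / m ^ 2 ∧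
      V n m - n * (n + 1) / m ^ 2 ≤ 1 / 4 := by
  obtain ⟨h1, h2⟩ := A5_v n m hm
  have hm2 : 0 < m ^ 2 := by positivity
  have e : V n m - n * (n + 1) / m ^ 2 = (m ^ 2 * V n m - n * (n + 1)) / m ^ 2 := by
    field_simp
  rw [e]
  constructor
  · rw [le_div_iff₀ hm2]
    have : 1 / (4 * (2 * (n : ℝ) + 1)) * m ^ 2 = m ^ 2 / (4 * (2 * n + 1)) := by ring
    rw [this]
    linarith
  · rw [div_le_iff₀ hm2]
    linarith

private theorem b7_Tv_cont (x u : ℝ) :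
    ContinuousOn (fun p : ℝ × ℝ => Real.exp (-(u * Tv x 1 p.1))) (Ici 0 ×ˢ Ioi 0) := by
  have h : ContinuousOn (fun v : ℝ => Real.exp (-(u * Tv x 1 v))) (Ici 0) :=
    fun v hv => (b7_exp_deriv u x v hv).continuousAt.continuousWithinAt
  exact h.comp continuousOn_fst fun p hp => hp.1

private theorem b7_small (n : ℕ) (x u : ℝ) (hu : 0 ≤ u) (hu1 : u ≤ 1) : ∀ d > 0, ∃ H0 : ℝ, ∀ v, H0 ≤ v →
    0 ≤ v → ∀ R, 0 < R → |EE n x 1 v R - Real.exp (-(u * Tv x 1 v))| ≤ d := by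
  intro d hd
  obtain ⟨C, hC, hX⟩ := Xi_near n
  refine ⟨Real.exp (2 * x) * (1 + (C + 1) / d), fun v hv hv0 R hR => ?_⟩
  have hT := b7_Tv_pos x v hv0
  have hT1 : Tv x 1 v * (1 + (C + 1) / d) ≤ 1 := by
    unfold Tv
    rw [div_mul_eq_mul_div, div_le_iff₀ (by positivity)]
    linarith
  have hT2 : Tv x 1 v ≤ 1 := by
    have : 0 ≤ Tv x 1 v * ((C + 1) / d) := by positivity
    nlinarith
  have hT3 : Tv x 1 v * (C + 1) ≤ d := by
    have h1 : Tv x 1 v * ((C + 1) / d) ≤ 1 := by nlinarith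
    rw [mul_div_assoc', div_le_one hd] at h1
    exact h1
  have h1 := hX (Tv x 1 v) (mv x 1 v R) hT hT2 (b7_mv_pos x v R hv0 hR)
  have h2 : |Real.exp (-(u * Tv x 1 v)) - 1| ≤ Tv x 1 v := by
    rw [abs_le]
    have hx : u * Tv x 1 v ≤ Tv x 1 v := by nlinarith
    have hx0 : 0 ≤ u * Tv x 1 v := by positivity
    constructor
    · have := Real.add_one_le_exp (-(u * Tv x 1 v))
      linarith
    · have : Real.exp (-(u * Tv x 1 v)) ≤ 1 := Real.exp_le_one_iff.2 (by linarith)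
      linarith
  have h3 : EE n x 1 v R - Real.exp (-(u * Tv x 1 v)) =
      (Xi n (Tv x 1 v) (mv x 1 v R) - 1) - (Real.exp (-(u * Tv x 1 v)) - 1) := by
    unfold EE
    ring
  rw [h3]
  rw [abs_le] at h1 h2 ⊢
  constructor <;> nlinarith

private theorem b7_bdd (n : ℕ) (x u : ℝ) (hu : 0 ≤ u) : ∃ C : ℝ, ∀ v R, 0 ≤ v → 0 < R →
    |EE n x 1 v R - Real.exp (-(u * Tv x 1 v))| ≤ C := by
  obtain ⟨C, hC, hX⟩ := Xi_bdd n (Real.exp (2 * x))
  refine ⟨C + 1, fun v R hv hR => ?_⟩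
  have h1 := hX (Tv x 1 v) (mv x 1 v R) (b7_Tv_pos x v hv) (b7_Tv_le x v hv) (b7_mv_pos x v R hv hR)
  have h2 : Real.exp (-(u * Tv x 1 v)) ≤ 1 := by
    have := b7_Tv_pos x v hv
    exact Real.exp_le_one_iff.2 (by nlinarith)
  have h3 := Real.exp_pos (-(u * Tv x 1 v))
  unfold EE
  rw [abs_le] at h1 ⊢
  constructor <;> linarith

private theorem b7_lower (n : ℕ) (x : ℝ) : ∀ v R, 0 ≤ v → 0 < R →
    0 ≤ EE n x 1 v R - Real.exp (-(1 / 4 * Tv x 1 v)) := by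
  refine M1 ((n : ℝ) + 1) (by linarith [(Nat.cast_nonneg n : (0:ℝ) ≤ n)])
    (fun v R => EE n x 1 v R - Real.exp (-(1 / 4 * Tv x 1 v)))
    (fun v R => EEv n x 1 v R - 1 / 4 * (Real.exp x / (1 + 1 * v)) ^ 2 * Real.exp (-(1 / 4 * Tv x 1 v)))
    (fun v R => EER n x 1 v R) (fun v R => EERR n x 1 v R) ?_ ?_ ?_ ?_ ?_ ?_ ?_
  · exact (EE_cont n x 1 one_pos).sub (b7_Tv_cont x (1 / 4))
  · intro v R hv hR
    exact (EE_v n x 1 v R one_pos hv hR).sub (b7_exp_deriv (1 / 4) x v hv)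
  · intro v R hv hR
    exact (EE_R n x 1 v R one_pos hv hR).sub_const _
  · intro v R hv hR
    exact EE_RR n x 1 v R one_pos hv hR
  · intro v R hv hR hg
    have hp := EE_pde n x 1 v R one_pos hv hR
    obtain ⟨h1, h2⟩ := b7_U n (mv x 1 v R) (b7_mv_pos x v R hv hR)
    have hu : 0 ≤ 1 / (4 * (2 * (n : ℝ) + 1)) := by positivity
    set U := V n (mv x 1 v R) - n * (n + 1) / (mv x 1 v R) ^ 2 with hU
    set q := (Real.exp x / (1 + 1 * v)) ^ 2 with hq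
    have hq0 : 0 ≤ q := by positivity
    set E := EE n x 1 v R with hE
    set e := Real.exp (-(1 / 4 * Tv x 1 v)) with he
    have he0 : 0 < e := Real.exp_pos _
    have h3 : EEv n x 1 v R - 1 / 4 * q * e + EERR n x 1 v R + 2 * ((n : ℝ) + 1) / R * EER n x 1 v R =
        q * U * (E - e) + q * (U - 1 / 4) * e := by linarith
    rw [h3]
    have h4 : q * U * (E - e) ≤ 0 := mul_nonpos_of_nonneg_of_nonpos (mul_nonneg hq0 (hu.trans h1)) hg.le
    have h5 : q * (U - 1 / 4) * e ≤ 0 :=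
      mul_nonpos_of_nonpos_of_nonneg (mul_nonpos_of_nonneg_of_nonpos hq0 (by linarith)) he0.le
    linarith
  · obtain ⟨C, hC⟩ := b7_bdd n x (1 / 4) (by norm_num)
    exact ⟨C, fun v R hv hR => (abs_le.1 (hC v R hv hR)).1⟩
  · intro d hd
    obtain ⟨H0, hH⟩ := b7_small n x (1 / 4) (by norm_num) (by norm_num) d hd
    exact ⟨max H0 0, fun v hv R hR =>
      (abs_le.1 (hH v ((le_max_left _ _).trans hv) ((le_max_right _ _).trans hv) R hR)).1⟩

private theorem b7_upper (n : ℕ) (x : ℝ) : ∀ v R, 0 ≤ v → 0 < R →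
    0 ≤ Real.exp (-(1 / (4 * (2 * (n : ℝ) + 1)) * Tv x 1 v)) - EE n x 1 v R := by
  have hn : (0:ℝ) ≤ n := Nat.cast_nonneg n
  have hu : 0 ≤ 1 / (4 * (2 * (n : ℝ) + 1)) := by positivity
  have hu1 : 1 / (4 * (2 * (n : ℝ) + 1)) ≤ 1 := by
    rw [div_le_one (by positivity)]
    linarith
  set u := 1 / (4 * (2 * (n : ℝ) + 1)) with hudef
  refine M1 ((n : ℝ) + 1) (by linarith)
    (fun v R => Real.exp (-(u * Tv x 1 v)) - EE n x 1 v R)
    (fun v R => u * (Real.exp x / (1 + 1 * v)) ^ 2 * Real.exp (-(u * Tv x 1 v)) - EEv n x 1 v R)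
    (fun v R => -EER n x 1 v R) (fun v R => -EERR n x 1 v R) ?_ ?_ ?_ ?_ ?_ ?_ ?_
  · exact (b7_Tv_cont x u).sub (EE_cont n x 1 one_pos)
  · intro v R hv hR
    exact (b7_exp_deriv u x v hv).sub (EE_v n x 1 v R one_pos hv hR)
  · intro v R hv hR
    exact (EE_R n x 1 v R one_pos hv hR).const_sub _
  · intro v R hv hR
    exact (EE_RR n x 1 v R one_pos hv hR).neg
  · intro v R hv hR hg
    have hp := EE_pde n x 1 v R one_pos hv hR
    obtain ⟨h1, h2⟩ := b7_U n (mv x 1 v R) (b7_mv_pos x v R hv hR)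
    set U := V n (mv x 1 v R) - n * (n + 1) / (mv x 1 v R) ^ 2 with hU
    set q := (Real.exp x / (1 + 1 * v)) ^ 2 with hq
    have hq0 : 0 ≤ q := by positivity
    set E := EE n x 1 v R with hE
    set e := Real.exp (-(u * Tv x 1 v)) with he
    have he0 : 0 < e := Real.exp_pos _
    have h3 : u * q * e - EEv n x 1 v R + -EERR n x 1 v R + 2 * ((n : ℝ) + 1) / R * -EER n x 1 v R =
        q * U * (e - E) + q * (u - U) * e := by linarith
    rw [h3]
    have h4 : q * U * (e - E) ≤ 0 := mul_nonpos_of_nonneg_of_nonpos (mul_nonneg hq0 (hu.trans h1)) hg.le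
    have h5 : q * (u - U) * e ≤ 0 :=
      mul_nonpos_of_nonpos_of_nonneg (mul_nonpos_of_nonneg_of_nonpos hq0 (by linarith)) he0.le
    linarith
  · obtain ⟨C, hC⟩ := b7_bdd n x u hu
    refine ⟨C, fun v R hv hR => ?_⟩
    have := (abs_le.1 (hC v R hv hR)).2
    linarith
  · intro d hd
    obtain ⟨H0, hH⟩ := b7_small n x u hu hu1 d hd
    refine ⟨max H0 0, fun v hv R hR => ?_⟩
    have := (abs_le.1 (hH v ((le_max_left _ _).trans hv) ((le_max_right _ _).trans hv) R hR)).2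
    linarith

private theorem b7_pt (T m : ℝ) (hT : 0 < T) (hm : 0 < m) :
    Tv (Real.log T / 2) 1 0 = T ∧ mv (Real.log T / 2) 1 0 (m / Real.exp (Real.log T / 2)) = m := by
  constructor
  · unfold Tv
    rw [mul_div_cancel₀ _ (two_ne_zero), Real.exp_log hT]
    norm_num
  · unfold mv
    have := Real.exp_pos (Real.log T / 2)
    rw [mul_zero, add_zero, div_one]
    field_simp

theorem Xi_lower (n : ℕ) (T m : ℝ) (hT : 0 < T) (hm : 0 < m) :
    Real.exp (-T / 4) ≤ Xi n T m := by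
  obtain ⟨h1, h2⟩ := b7_pt T m hT hm
  have h := b7_lower n (Real.log T / 2) 0 (m / Real.exp (Real.log T / 2)) le_rfl (by positivity)
  unfold EE at h
  rw [h1, h2] at h
  have e : -T / 4 = -(1 / 4 * T) := by ring
  rw [e]
  linarith

theorem Xi_upper (n : ℕ) (T m : ℝ) (hT : 0 < T) (hm : 0 < m) :
    Xi n T m ≤ Real.exp (-T / (4 * (2 * n + 1))) := by
  obtain ⟨h1, h2⟩ := b7_pt T m hT hm
  have h := b7_upper n (Real.log T / 2) 0 (m / Real.exp (Real.log T / 2)) le_rfl (by positivity)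
  unfold EE at h
  rw [h1, h2] at h
  have e : -T / (4 * (2 * (n : ℝ) + 1)) = -(1 / (4 * (2 * (n : ℝ) + 1)) * T) := by ring
  rw [e]
  linarith

end LPPEnd
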