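import Pool.Agent.Lib.MP_267da7_pr.B7

/-!
# B8: gradient bound for `log Xi`

By `Xi_succ`: `m XiM_n = (m w_n - (n+1)) Xi_n - (m^2/(2T)) (Xi_(n+1) - Xi_n)`.  By A5_w: `0 <= m w_n - (n+1) <= (n+1) m^2/(4(2n+3)) <= m^2/4`.
By B7, `e^(-T/4) <= Xi_n <= 1` and the same for `n+1`, so `|Xi_(n+1) - Xi_n| <= 1 - e^(-T/4) <= (e^(T/4) - 1) Xi_n`
(`(e^(T/4) - 1) Xi_n >= (e^(T/4) - 1) e^(-T/4) = 1 - e^(-T/4)`).  And `(e^(T/4) - 1)/(2T) <= e^(T/4)/8 <= e^(T0/4)/8` (`e^y - 1 <= y e^y`).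
So `|XiM_n| <= (1/4 + e^(T0/4)/8) m Xi_n`.
-/

open Real MeasureTheory Set Filter
open scoped Topology

namespace LPPEnd

theorem Xi_pos (n : ℕ) (T m : ℝ) (hT : 0 < T) (hm : 0 < m) : 0 < Xi n T m :=
  (Real.exp_pos _).trans_le (Xi_lower n T m hT hm)

theorem Xi_le_one (n : ℕ) (T m : ℝ) (hT : 0 < T) (hm : 0 < m) : Xi n T m ≤ 1 := by
  refine (Xi_upper n T m hT hm).trans ?_
  rw [Real.exp_le_one_iff]
  exact div_nonpos_of_nonpos_of_nonneg (by linarith) (by positivity)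

theorem XiM_bound (n : ℕ) (T0 T m : ℝ) (hT : 0 < T) (hT0 : T ≤ T0) (hm : 0 < m) :
    |XiM n T m| ≤ (1 / 4 + Real.exp (T0 / 4) / 8) * m * Xi n T m := by
  have hs := Xi_succ n T m hT hm
  obtain ⟨hw1, hw2⟩ := A5_w n m hm
  have hX := Xi_pos n T m hT hm
  have h1 := Xi_lower n T m hT hm
  have h2 := Xi_le_one n T m hT hm
  have h3 := Xi_lower (n + 1) T m hT hm
  have h4 := Xi_le_one (n + 1) T m hT hm
  have hA0 : 0 ≤ m * w n m - (n + 1) := by linarith
  have hA1 : m * w n m - (n + 1) ≤ m ^ 2 / 4 := by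
    have h5 : ((n : ℝ) + 1) * m ^ 2 / (4 * (2 * n + 3)) ≤ m ^ 2 / 4 := by
      rw [div_le_div_iff₀ (by positivity) (by norm_num)]
      have : (0 : ℝ) ≤ (n : ℝ) * m ^ 2 := by positivity
      nlinarith [sq_nonneg m]
    linarith
  have hy : Real.exp (T / 4) - 1 ≤ T / 4 * Real.exp (T / 4) := by
    have h6 := Real.add_one_le_exp (-(T / 4))
    have h7 : Real.exp (-(T / 4)) * Real.exp (T / 4) = 1 := by
      rw [← Real.exp_add]
      simp
    have h8 := Real.exp_pos (T / 4)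
    nlinarith
  have hee : Real.exp (-T / 4) * Real.exp (T / 4) = 1 := by
    rw [← Real.exp_add]
    have : -T / 4 + T / 4 = 0 := by ring
    rw [this, Real.exp_zero]
  have hE1 : 1 ≤ Real.exp (T / 4) := Real.one_le_exp (by positivity)
  have hD : |Xi (n + 1) T m - Xi n T m| ≤ T / 4 * Real.exp (T0 / 4) * Xi n T m := by
    have h9 : |Xi (n + 1) T m - Xi n T m| ≤ 1 - Real.exp (-T / 4) := by
      rw [abs_le]
      constructor <;> linarith
    have h10 : 1 - Real.exp (-T / 4) ≤ (Real.exp (T / 4) - 1) * Xi n T m := by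
      have : 1 - Real.exp (-T / 4) = (Real.exp (T / 4) - 1) * Real.exp (-T / 4) := by
        linarith
      rw [this]
      exact mul_le_mul_of_nonneg_left h1 (by linarith)
    have h11 : (Real.exp (T / 4) - 1) * Xi n T m ≤ T / 4 * Real.exp (T0 / 4) * Xi n T m := by
      apply mul_le_mul_of_nonneg_right _ hX.le
      refine hy.trans ?_
      apply mul_le_mul_of_nonneg_left _ (by positivity)
      exact Real.exp_le_exp.2 (by linarith)
    linarith
  have hmX : m * XiM n T m = (m * w n m - (n + 1)) * Xi n T m -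
      m ^ 2 / (2 * T) * (Xi (n + 1) T m - Xi n T m) := by
    rw [hs]
    field_simp
    ring
  have hb : |m * XiM n T m| ≤ m * ((1 / 4 + Real.exp (T0 / 4) / 8) * m * Xi n T m) := by
    rw [hmX]
    refine (abs_sub _ _).trans ?_
    rw [abs_of_nonneg (mul_nonneg hA0 hX.le), abs_mul, abs_of_pos (by positivity : 0 < m ^ 2 / (2 * T))]
    have h12 : (m * w n m - (n + 1)) * Xi n T m ≤ m ^ 2 / 4 * Xi n T m :=
      mul_le_mul_of_nonneg_right hA1 hX.le
    have h13 : m ^ 2 / (2 * T) * |Xi (n + 1) T m - Xi n T m| ≤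
        m ^ 2 / (2 * T) * (T / 4 * Real.exp (T0 / 4) * Xi n T m) :=
      mul_le_mul_of_nonneg_left hD (by positivity)
    have h14 : m ^ 2 / (2 * T) * (T / 4 * Real.exp (T0 / 4) * Xi n T m) =
        m ^ 2 * (Real.exp (T0 / 4) / 8) * Xi n T m := by
      field_simp
      ring
    rw [h14] at h13
    have h15 : m * ((1 / 4 + Real.exp (T0 / 4) / 8) * m * Xi n T m) =
        m ^ 2 / 4 * Xi n T m + m ^ 2 * (Real.exp (T0 / 4) / 8) * Xi n T m := by ring
    rw [h15]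
    linarith
  rw [abs_mul, abs_of_pos hm] at hb
  exact le_of_mul_le_mul_left hb hm

end LPPEnd
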