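import Pool.Agent.Lib.MP_267da7_pr.M2
import Pool.Agent.Lib.MP_267da7_pr.B8
import Pool.Agent.Lib.MP_267da7_pr.A7

/-!
# C1: `(B,x) -> Xi_N(e^(2x)/B, e^x)` is log-concave on `(0,oo) x R`

For data `(x,B)` put `f v R = log (EE N x B v R)` (`EE > 0` by `Xi_pos`).  Then `f_v = EEv/EE`, `f_R = EER/EE`, `f_RR = EERR/EE - (EER/EE)^2`, and
`EE_pde` divided by `EE`: `f_v + f_RR + f_R^2 + (2(N+1)/R) f_R = q (V_N(m) - N(N+1)/m^2)`, `q = (e^x/(1+Bv))^2 = (m/R)^2`, `m = mv`.  With `al = N+1`: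
`(f_RR - al/R^2) + (al/R + f_R)^2 = f_RR + f_R^2 + (2 al/R) f_R + (al^2 - al)/R^2`, `al^2 - al = N(N+1)`, and `q N(N+1)/m^2 = N(N+1)/R^2`, so
`-f_v = (f_RR - al/R^2) + (al/R + f_R)^2 - q V_N(m)`, and `q V_N(m) = UU N x R (1 + B v)`.
Apply `M2` with the data `(x0,B0)`, `(x1,B1)` and the middle data `(lam x0 + mu x1, lam B0 + mu B1)`; `1 + (lam B0 + mu B1) v = lam (1 + B0 v) + mu (1 + B1 v)`,
so `hconv` is A7.  `f_i <= 0`: `Xi_le_one`.  `f >= -tau v` with `tau v = Tv/4` for the middle data: `Xi_lower`; `tau` is nonincreasing, `tau v <= tau 0`,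
`tau -> 0`.  `|f_R| = (e^x/(1+Bv)) |XiM/Xi| <= (e^x/(1+Bv)) C0 m <= C0 e^(2x) R` by `XiM_bound` with `T0 = Tv(0)` (`Tv v <= Tv 0`).
Conclusion at `v = 0`, `R0 = R1 = 1` (`Tv x B 0 = e^(2x)/B`, `mv x B 0 1 = e^x`), exponentiate.
-/

open Real MeasureTheory Set Filter
open scoped Topology

namespace LPPEnd

private theorem c1_Tv_pos (x B v : ℝ) (hB : 0 < B) (hv : 0 ≤ v) : 0 < Tv x B v := by
  unfold Tv
  positivity

private theorem c1_mv_pos (x B v R : ℝ) (hB : 0 < B) (hv : 0 ≤ v) (hR : 0 < R) :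
    0 < mv x B v R := by
  unfold mv
  positivity

private theorem c1_EE_pos (N : ℕ) (x B v R : ℝ) (hB : 0 < B) (hv : 0 ≤ v) (hR : 0 < R) :
    0 < EE N x B v R :=
  Xi_pos N _ _ (c1_Tv_pos x B v hB hv) (c1_mv_pos x B v R hB hv hR)

private theorem c1_Tv_le (x B v : ℝ) (hB : 0 < B) (hv : 0 ≤ v) : Tv x B v ≤ Tv x B 0 := by
  unfold Tv
  have h1 : 0 ≤ B * v := by positivity
  apply div_le_div_of_nonneg_left (Real.exp_pos _).le (by positivity)
  nlinarith [mul_nonneg hB.le h1]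

private theorem c1_cont (N : ℕ) (x B : ℝ) (hB : 0 < B) :
    ContinuousOn (fun p : ℝ × ℝ => Real.log (EE N x B p.1 p.2)) (Ici 0 ×ˢ Ioi 0) := by
  apply ContinuousOn.log (EE_cont N x B hB)
  rintro ⟨v, R⟩ ⟨hv, hR⟩
  exact (c1_EE_pos N x B v R hB hv hR).ne'

private theorem c1_v (N : ℕ) (x B v R : ℝ) (hB : 0 < B) (hv : 0 ≤ v) (hR : 0 < R) :
    HasDerivAt (fun v => Real.log (EE N x B v R)) (EEv N x B v R / EE N x B v R) v :=
  (EE_v N x B v R hB hv hR).log (c1_EE_pos N x B v R hB hv hR).ne'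

private theorem c1_R (N : ℕ) (x B v R : ℝ) (hB : 0 < B) (hv : 0 ≤ v) (hR : 0 < R) :
    HasDerivAt (fun R => Real.log (EE N x B v R)) (EER N x B v R / EE N x B v R) R :=
  (EE_R N x B v R hB hv hR).log (c1_EE_pos N x B v R hB hv hR).ne'

private theorem c1_RR (N : ℕ) (x B v R : ℝ) (hB : 0 < B) (hv : 0 ≤ v) (hR : 0 < R) :
    HasDerivAt (fun R => EER N x B v R / EE N x B v R)
      (EERR N x B v R / EE N x B v R - (EER N x B v R / EE N x B v R) ^ 2) R := by
  have hne := (c1_EE_pos N x B v R hB hv hR).ne'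
  have h := (EE_RR N x B v R hB hv hR).div (EE_R N x B v R hB hv hR) hne
  have e : EERR N x B v R / EE N x B v R - (EER N x B v R / EE N x B v R) ^ 2
      = (EERR N x B v R * EE N x B v R - EER N x B v R * EER N x B v R) / EE N x B v R ^ 2 := by
    field_simp
  rw [e]
  exact h

private theorem c1_pde (N : ℕ) (x B v R : ℝ) (hB : 0 < B) (hv : 0 ≤ v) (hR : 0 < R) :
    -(EEv N x B v R / EE N x B v R) =
      ((EERR N x B v R / EE N x B v R - (EER N x B v R / EE N x B v R) ^ 2)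
        - ((N : ℝ) + 1) / R ^ 2) + (((N : ℝ) + 1) / R + EER N x B v R / EE N x B v R) ^ 2
        - UU N x R (1 + B * v) := by
  have hne := (c1_EE_pos N x B v R hB hv hR).ne'
  have hs : 0 < 1 + B * v := by positivity
  have h := EE_pde N x B v R hB hv hR
  have hU : UU N x R (1 + B * v) = (Real.exp x / (1 + B * v)) ^ 2 * V N (mv x B v R) := by
    unfold UU mv
    congr 2
  have hm : (Real.exp x / (1 + B * v)) ^ 2 * ((N : ℝ) * (N + 1) / (mv x B v R) ^ 2)
      = (N : ℝ) * (N + 1) / R ^ 2 := by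
    unfold mv
    have := (Real.exp_pos x).ne'
    field_simp
  rw [hU]
  set E := EE N x B v R with hE
  set W := (Real.exp x / (1 + B * v)) ^ 2 with hW
  have h2 : EEv N x B v R = W * V N (mv x B v R) * E - (N : ℝ) * (N + 1) / R ^ 2 * E
      - EERR N x B v R - 2 * (N + 1) / R * EER N x B v R := by
    have h3 : W * (V N (mv x B v R) - (N : ℝ) * (N + 1) / (mv x B v R) ^ 2) * E
        = W * V N (mv x B v R) * E - (W * ((N : ℝ) * (N + 1) / (mv x B v R) ^ 2)) * E := by ring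
    rw [h3, hm] at h
    linarith
  rw [h2]
  field_simp
  ring

private theorem c1_le (N : ℕ) (x B v R : ℝ) (hB : 0 < B) (hv : 0 ≤ v) (hR : 0 < R) :
    Real.log (EE N x B v R) ≤ 0 :=
  Real.log_nonpos (c1_EE_pos N x B v R hB hv hR).le
    (Xi_le_one N _ _ (c1_Tv_pos x B v hB hv) (c1_mv_pos x B v R hB hv hR))

private theorem c1_ge (N : ℕ) (x B v R : ℝ) (hB : 0 < B) (hv : 0 ≤ v) (hR : 0 < R) :
    -(Tv x B v / 4) ≤ Real.log (EE N x B v R) := by
  rw [Real.le_log_iff_exp_le (c1_EE_pos N x B v R hB hv hR)]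
  have h := Xi_lower N _ _ (c1_Tv_pos x B v hB hv) (c1_mv_pos x B v R hB hv hR)
  rw [← neg_div]
  exact h

private theorem c1_grad (N : ℕ) (x B v R : ℝ) (hB : 0 < B) (hv : 0 ≤ v) (hR : 0 < R) :
    |EER N x B v R / EE N x B v R| ≤
      ((1 / 4 + Real.exp (Tv x B 0 / 4) / 8) * Real.exp (2 * x)) * R := by
  have hpos := c1_EE_pos N x B v R hB hv hR
  have hs : 1 ≤ 1 + B * v := by
    have : 0 ≤ B * v := by positivity
    linarith
  have hs0 : 0 < 1 + B * v := by linarith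
  have h := XiM_bound N (Tv x B 0) (Tv x B v) (mv x B v R) (c1_Tv_pos x B v hB hv)
    (c1_Tv_le x B v hB hv) (c1_mv_pos x B v R hB hv hR)
  rw [abs_div, abs_of_pos hpos, div_le_iff₀ hpos]
  unfold EER
  rw [abs_mul, abs_of_pos (div_pos (Real.exp_pos x) hs0)]
  set C0 := 1 / 4 + Real.exp (Tv x B 0 / 4) / 8 with hC0
  have hC0p : 0 < C0 := by positivity
  calc Real.exp x / (1 + B * v) * |XiM N (Tv x B v) (mv x B v R)|
      ≤ Real.exp x / (1 + B * v) * (C0 * mv x B v R * Xi N (Tv x B v) (mv x B v R)) :=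
        mul_le_mul_of_nonneg_left h (by positivity)
    _ = C0 * (Real.exp (2 * x) / (1 + B * v) ^ 2) * R * EE N x B v R := by
        unfold EE mv
        have : Real.exp (2 * x) = Real.exp x * Real.exp x := by
          rw [← Real.exp_add]; ring_nf
        rw [this]
        field_simp
    _ ≤ C0 * Real.exp (2 * x) * R * EE N x B v R := by
        apply mul_le_mul_of_nonneg_right _ hpos.le
        apply mul_le_mul_of_nonneg_right _ hR.le
        apply mul_le_mul_of_nonneg_left _ hC0p.le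
        apply div_le_self (Real.exp_pos _).le
        nlinarith

private theorem c1_tau (x B : ℝ) (hB : 0 < B) :
    Tendsto (fun v => Tv x B v / 4) atTop (𝓝 0) := by
  have h1 : Tendsto (fun v : ℝ => B * (1 + B * v)) atTop atTop := by
    apply Tendsto.const_mul_atTop hB
    apply tendsto_atTop_add_const_left
    exact Tendsto.const_mul_atTop hB tendsto_id
  have h2 : Tendsto (fun v : ℝ => Real.exp (2 * x) / (B * (1 + B * v))) atTop (𝓝 0) :=
    Tendsto.div_atTop tendsto_const_nhds h1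
  have h3 := h2.div_const 4
  simpa [Tv] using h3

theorem C1 (N : ℕ) (B0 B1 x0 x1 lam mu : ℝ) (hB0 : 0 < B0) (hB1 : 0 < B1) (hl : 0 < lam)
    (hmu : 0 < mu) (h1 : lam + mu = 1) :
    Xi N (Real.exp (2 * x0) / B0) (Real.exp x0) ^ lam *
      Xi N (Real.exp (2 * x1) / B1) (Real.exp x1) ^ mu ≤
    Xi N (Real.exp (2 * (lam * x0 + mu * x1)) / (lam * B0 + mu * B1))
      (Real.exp (lam * x0 + mu * x1)) := by
  set x := lam * x0 + mu * x1 with hx
  set B := lam * B0 + mu * B1 with hBd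
  have hB : 0 < B := by positivity
  have key := M2 ((N : ℝ) + 1) (by have : (0:ℝ) ≤ N := Nat.cast_nonneg N; linarith) lam mu hl hmu h1
    (fun v R => Real.log (EE N x B v R)) (fun v R => Real.log (EE N x0 B0 v R))
    (fun v R => Real.log (EE N x1 B1 v R))
    (fun v R => EEv N x B v R / EE N x B v R) (fun v R => EEv N x0 B0 v R / EE N x0 B0 v R)
    (fun v R => EEv N x1 B1 v R / EE N x1 B1 v R)
    (fun v R => EER N x B v R / EE N x B v R) (fun v R => EER N x0 B0 v R / EE N x0 B0 v R)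
    (fun v R => EER N x1 B1 v R / EE N x1 B1 v R)
    (fun v R => EERR N x B v R / EE N x B v R - (EER N x B v R / EE N x B v R) ^ 2)
    (fun v R => EERR N x0 B0 v R / EE N x0 B0 v R - (EER N x0 B0 v R / EE N x0 B0 v R) ^ 2)
    (fun v R => EERR N x1 B1 v R / EE N x1 B1 v R - (EER N x1 B1 v R / EE N x1 B1 v R) ^ 2)
    (fun v R => UU N x R (1 + B * v)) (fun v R => UU N x0 R (1 + B0 * v))
    (fun v R => UU N x1 R (1 + B1 * v))
    (fun v => Tv x B v / 4)
    ((1 / 4 + Real.exp (Tv x B 0 / 4) / 8) * Real.exp (2 * x)) (Tv x B 0 / 4)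
    (by positivity)
    (c1_cont N x B hB) (c1_cont N x0 B0 hB0) (c1_cont N x1 B1 hB1)
    (fun v R hv hR => c1_v N x B v R hB hv hR) (fun v R hv hR => c1_v N x0 B0 v R hB0 hv hR)
    (fun v R hv hR => c1_v N x1 B1 v R hB1 hv hR)
    (fun v R hv hR => c1_R N x B v R hB hv hR) (fun v R hv hR => c1_R N x0 B0 v R hB0 hv hR)
    (fun v R hv hR => c1_R N x1 B1 v R hB1 hv hR)
    (fun v R hv hR => c1_RR N x B v R hB hv hR) (fun v R hv hR => c1_RR N x0 B0 v R hB0 hv hR)
    (fun v R hv hR => c1_RR N x1 B1 v R hB1 hv hR)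
    (fun v R hv hR => c1_pde N x B v R hB hv hR) (fun v R hv hR => c1_pde N x0 B0 v R hB0 hv hR)
    (fun v R hv hR => c1_pde N x1 B1 v R hB1 hv hR)
    (by
      intro v R0 R1 hv hR0 hR1
      have h0 : 0 ≤ B0 * v := by positivity
      have h0' : 0 ≤ B1 * v := by positivity
      have h2 := A7 N x0 x1 R0 R1 (1 + B0 * v) (1 + B1 * v) lam mu hR0 hR1 (by linarith)
        (by linarith) hl hmu h1
      have h3 : lam * (1 + B0 * v) + mu * (1 + B1 * v) = 1 + B * v := by
        rw [hBd]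
        linear_combination h1
      rw [h3] at h2
      exact h2)
    (fun v R hv hR => c1_le N x0 B0 v R hB0 hv hR) (fun v R hv hR => c1_le N x1 B1 v R hB1 hv hR)
    (fun v R hv hR => c1_ge N x B v R hB hv hR)
    (by
      intro v hv
      constructor
      · have := c1_Tv_pos x B v hB hv
        positivity
      · have := c1_Tv_le x B v hB hv
        show Tv x B v / 4 ≤ Tv x B 0 / 4
        linarith)
    (c1_tau x B hB)
    (fun v R hv hR => c1_grad N x B v R hB hv hR)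
    0 1 1 le_rfl one_pos one_pos
  have hT : ∀ y b : ℝ, Tv y b 0 = Real.exp (2 * y) / b := by
    intro y b
    simp [Tv]
  have hM : ∀ y b : ℝ, mv y b 0 1 = Real.exp y := by
    intro y b
    simp [mv]
  have hE : ∀ y b : ℝ, EE N y b 0 1 = Xi N (Real.exp (2 * y) / b) (Real.exp y) := by
    intro y b
    unfold EE
    rw [hT, hM]
  have p0 : 0 < EE N x0 B0 0 1 := c1_EE_pos N x0 B0 0 1 hB0 le_rfl one_pos
  have p1 : 0 < EE N x1 B1 0 1 := c1_EE_pos N x1 B1 0 1 hB1 le_rfl one_pos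
  have pp : 0 < EE N x B 0 1 := c1_EE_pos N x B 0 1 hB le_rfl one_pos
  rw [← hE x0 B0, ← hE x1 B1, ← hE x B]
  simp only [Real.log_one, mul_zero, mul_one, zero_add, h1] at key
  rw [Real.rpow_def_of_pos p0, Real.rpow_def_of_pos p1, ← Real.exp_add,
    ← Real.le_log_iff_exp_le pp]
  linarith

end LPPEnd
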