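import Pool.Agent.Lib.MP_267da7_pr.A8

/-!
# D1: `S_N(e^x) e^(-x)` is log-concave (`N >= 1`)

`P = PN N`, `S m = int_0^m P > 0` for `m > 0`, `S' = P`.  Let `a m = m * ell N m` (`= m P'/P`); `a' = ell - m (V-1/4)/2 <= 0` (A8).
(1) `f = m P - (1 + a) S`; `f' = P + m P' - a' S - (1+a) P = -a' S >= 0` (`m P' = a P`).
 `f -> 0` at `0+`: `m P -> 0`, `S -> 0`, `a = sum_(n<N) (m w_n - m/2) -> sum (n+1)` is bounded (A1).  `tool0`: `(1+a) S <= m P`.
(2) `K = m P / S`: `K' = (P/S)(1 + a - m P/S) <= 0` by (1).  So `K` is nonincreasing on `(0,oo)`.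
(3) `F x = log (S (e^x)) - x` has derivative `K(e^x) - 1`, nonincreasing, so `F` is concave on `R`:
 `lam F x0 + mu F x1 <= F (lam x0 + mu x1)`; exponentiate.
-/

open Real MeasureTheory Set Filter
open scoped Topology

namespace LPPEnd

theorem D1_int (N : ℕ) (m : ℝ) (hm : 0 ≤ m) : IntervalIntegrable (PN N) volume 0 m := by
  apply ContinuousOn.intervalIntegrable
  refine (PN_cont N).mono ?_
  rw [uIcc_of_le hm]
  exact fun x hx => hx.1

theorem SN_deriv (N : ℕ) (m : ℝ) (hm : 0 < m) : HasDerivAt (SN N) (PN N m) m := by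
  have h1 : StronglyMeasurableAtFilter (PN N) (𝓝 m) volume :=
    ContinuousOn.stronglyMeasurableAtFilter isOpen_Ioi
      ((PN_cont N).mono (fun x hx => le_of_lt hx)) m hm
  exact intervalIntegral.integral_hasDerivAt_right (D1_int N m hm.le) h1 (PN_deriv N m hm).continuousAt

theorem SN_pos (N : ℕ) (m : ℝ) (hm : 0 < m) : 0 < SN N m :=
  intervalIntegral.intervalIntegral_pos_of_pos_on (D1_int N m hm.le) (fun x hx => PN_pos N x hx.1) hm

theorem D1_SN_lim (N : ℕ) : Tendsto (SN N) (𝓝[>] 0) (𝓝 0) := by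
  have h0 : (0:ℝ) ≤ 1 := zero_le_one
  have h1 : IntegrableOn (PN N) (uIcc 0 1) volume := by
    have := D1_int N 1 h0
    rw [intervalIntegrable_iff_integrableOn_Icc_of_le h0] at this
    rwa [uIcc_of_le h0]
  have h2 : ContinuousOn (SN N) (uIcc 0 1) := intervalIntegral.continuousOn_primitive_interval h1
  have h3 : ContinuousWithinAt (SN N) (uIcc 0 1) 0 := h2 0 (by rw [uIcc_of_le h0]; exact ⟨le_rfl, h0⟩)
  have h4 : SN N 0 = 0 := by simp [SN]
  have h5 : Tendsto (SN N) (𝓝[uIcc 0 1] 0) (𝓝 0) := by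
    have := h3.tendsto
    rwa [h4] at this
  refine h5.mono_left ?_
  rw [uIcc_of_le h0]
  exact nhdsWithin_le_of_mem (Icc_mem_nhdsGT one_pos)

theorem D1_PN_lim (N : ℕ) : Tendsto (fun m => m * PN N m) (𝓝[>] 0) (𝓝 0) := by
  have h1 : ContinuousWithinAt (PN N) (Ici 0) 0 := PN_cont N 0 self_mem_Ici
  have h2 : Tendsto (PN N) (𝓝[>] 0) (𝓝 (PN N 0)) :=
    h1.tendsto.mono_left (nhdsWithin_mono _ Ioi_subset_Ici_self)
  have h3 : Tendsto (fun m : ℝ => m) (𝓝[>] 0) (𝓝 0) := tendsto_id.mono_left nhdsWithin_le_nhds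
  simpa using h3.mul h2

theorem D1_a_lim (N : ℕ) : ∃ c : ℝ, Tendsto (fun m => m * ell N m) (𝓝[>] 0) (𝓝 c) := by
  refine ⟨∑ n ∈ Finset.range N, (((n : ℝ) + 1) - 0 * (1 / 2)), ?_⟩
  have h3 : Tendsto (fun m : ℝ => m) (𝓝[>] 0) (𝓝 0) := tendsto_id.mono_left nhdsWithin_le_nhds
  have h1 : Tendsto (fun m => ∑ n ∈ Finset.range N, (m * w n m - m * (1 / 2))) (𝓝[>] 0)
      (𝓝 (∑ n ∈ Finset.range N, (((n : ℝ) + 1) - 0 * (1 / 2)))) :=
    tendsto_finsetSum _ fun n _ => (mw_lim n).sub (h3.mul_const _)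
  refine h1.congr fun m => ?_
  unfold ell
  rw [Finset.mul_sum]
  exact Finset.sum_congr rfl fun n _ => by ring

theorem D1_step1 (N : ℕ) (m : ℝ) (hm : 0 < m) : (1 + m * ell N m) * SN N m ≤ m * PN N m := by
  have hd : ∀ m, 0 < m → HasDerivAt (fun m => m * PN N m - (1 + m * ell N m) * SN N m)
      (-(ell N m - m * (V N m - 1 / 4) / 2) * SN N m) m := by
    intro m hm
    have h1 := (hasDerivAt_id m).mul (PN_deriv N m hm)
    have h2 := (hasDerivAt_id m).mul (ell_deriv N m hm)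
    have h3 := (h2.const_add 1).mul (SN_deriv N m hm)
    have h4 := h1.sub h3
    refine h4.congr_deriv ?_
    simp only [id, Pi.mul_apply]
    ring
  have hnn : ∀ m, 0 < m → 0 ≤ -(ell N m - m * (V N m - 1 / 4) / 2) * SN N m := by
    intro m hm
    have h1 := A8 N m hm
    have h2 := SN_pos N m hm
    exact mul_nonneg (by linarith) h2.le
  obtain ⟨c, hc⟩ := D1_a_lim N
  have hl : Tendsto (fun m => m * PN N m - (1 + m * ell N m) * SN N m) (𝓝[>] 0) (𝓝 0) := by
    have := (D1_PN_lim N).sub ((hc.const_add 1).mul (D1_SN_lim N))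
    simpa using this
  have := tool0 _ _ hd hnn 0 hl m hm
  linarith

theorem D1_K_deriv (N : ℕ) (m : ℝ) (hm : 0 < m) : HasDerivAt (fun m => m * PN N m / SN N m)
    (PN N m * ((1 + m * ell N m) * SN N m - m * PN N m) / SN N m ^ 2) m := by
  have h1 := (hasDerivAt_id m).mul (PN_deriv N m hm)
  have h2 := h1.div (SN_deriv N m hm) (SN_pos N m hm).ne'
  refine h2.congr_deriv ?_
  simp only [id, Pi.mul_apply]
  ring

theorem D1_K_anti (N : ℕ) : AntitoneOn (fun m => m * PN N m / SN N m) (Ioi 0) := by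
  apply antitoneOn_of_deriv_nonpos (convex_Ioi 0)
  · exact fun m hm => (D1_K_deriv N m hm).continuousAt.continuousWithinAt
  · rw [interior_Ioi]
    exact fun m hm => (D1_K_deriv N m hm).differentiableAt.differentiableWithinAt
  · rw [interior_Ioi]
    intro m hm
    rw [(D1_K_deriv N m hm).deriv]
    have h1 := D1_step1 N m hm
    have h2 := PN_pos N m hm
    exact div_nonpos_of_nonpos_of_nonneg (mul_nonpos_of_nonneg_of_nonpos h2.le (by linarith)) (sq_nonneg _)

theorem D1_F (N : ℕ) : ConcaveOn ℝ univ (fun x => Real.log (SN N (Real.exp x)) - x) := by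
  have hd : ∀ x, HasDerivAt (fun x => Real.log (SN N (Real.exp x)) - x)
      (Real.exp x * PN N (Real.exp x) / SN N (Real.exp x) - 1) x := by
    intro x
    have h1 : HasDerivAt (fun x => SN N (Real.exp x)) (PN N (Real.exp x) * Real.exp x) x :=
      (SN_deriv N (Real.exp x) (Real.exp_pos x)).comp x (Real.hasDerivAt_exp x)
    have h2 := (h1.log (SN_pos N _ (Real.exp_pos x)).ne').sub (hasDerivAt_id x)
    refine h2.congr_deriv ?_
    ring
  have hderiv : deriv (fun x => Real.log (SN N (Real.exp x)) - x) =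
      fun x => Real.exp x * PN N (Real.exp x) / SN N (Real.exp x) - 1 := funext fun x => (hd x).deriv
  apply Antitone.concaveOn_univ_of_deriv (fun x => (hd x).differentiableAt)
  rw [hderiv]
  intro x y hxy
  have := D1_K_anti N (Real.exp_pos x) (Real.exp_pos y) (Real.exp_le_exp.2 hxy)
  simpa using this

theorem D1_pow (S x lam : ℝ) (hS : 0 < S) : (S * Real.exp (-x)) ^ lam = Real.exp (lam * (Real.log S - x)) := by
  rw [Real.rpow_def_of_pos (mul_pos hS (Real.exp_pos _)), Real.log_mul hS.ne' (Real.exp_pos _).ne', Real.log_exp]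
  congr 1; ring

theorem D1 (N : ℕ) (hN : 1 ≤ N) (x0 x1 lam mu : ℝ) (hl : 0 < lam) (hmu : 0 < mu)
    (h1 : lam + mu = 1) :
    (SN N (Real.exp x0) * Real.exp (-x0)) ^ lam * (SN N (Real.exp x1) * Real.exp (-x1)) ^ mu ≤
      SN N (Real.exp (lam * x0 + mu * x1)) * Real.exp (-(lam * x0 + mu * x1)) := by
  have _ := hN
  have hF := (D1_F N).2 (mem_univ x0) (mem_univ x1) hl.le hmu.le h1
  simp only [smul_eq_mul] at hF
  have hp := SN_pos N _ (Real.exp_pos (lam * x0 + mu * x1))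
  rw [D1_pow _ _ _ (SN_pos N _ (Real.exp_pos x0)), D1_pow _ _ _ (SN_pos N _ (Real.exp_pos x1)), ← Real.exp_add]
  have h2 : SN N (Real.exp (lam * x0 + mu * x1)) * Real.exp (-(lam * x0 + mu * x1)) =
      Real.exp (Real.log (SN N (Real.exp (lam * x0 + mu * x1))) - (lam * x0 + mu * x1)) := by
    rw [Real.exp_sub, Real.exp_log hp, Real.exp_neg, div_eq_mul_inv]
  rw [h2]
  exact Real.exp_le_exp.2 hF

end LPPEnd
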