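import Mathlib

/-!
# Definitions for the log-concavity of the endpoint in point-to-line exponential LPP (MP_267da7_pr)
-/

open Real MeasureTheory Set Filter
open scoped Topology

namespace LPPEnd

/-! ## Part A: the Darboux chain -/

/-- `theta_n` (positive on `(0,oo)`, of order `m^(n+1)` at `0`). -/
noncomputable def th : ℕ → ℝ → ℝ
  | 0, m => 2 * Real.sinh (m / 2)
  | n + 1, m => (2 * n + 3) * (∫ t in (0:ℝ)..m, th n t ^ 2) / th n m

/-- `w_n = theta_n' / theta_n`. -/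
noncomputable def w : ℕ → ℝ → ℝ
  | 0, m => Real.cosh (m / 2) / (2 * Real.sinh (m / 2))
  | n + 1, m => (2 * n + 3) * th n m / th (n + 1) m - w n m

/-- The potential `V_n = w_n' + w_n^2`. -/
noncomputable def V : ℕ → ℝ → ℝ
  | 0, _ => 1 / 4
  | n + 1, m => 2 * w n m ^ 2 - V n m

/-- The derivative of `V_n`. -/
noncomputable def VD : ℕ → ℝ → ℝ
  | 0, _ => 0
  | n + 1, m => 4 * w n m * (V n m - w n m ^ 2) - VD n m

/-- `chi_n = 1/(w_n + w_(n-1))`, used for `n >= 1`. -/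
noncomputable def X (n : ℕ) (m : ℝ) : ℝ := 1 / (w n m + w (n - 1) m)

/-- The function `U(x,R,s) = (e^x/s)^2 V_N(e^x R / s)`. -/
noncomputable def UU (N : ℕ) (x R s : ℝ) : ℝ := (Real.exp x / s) ^ 2 * V N (Real.exp x * R / s)

/-! ## Part B: the kernel `Xi_n` -/

/-- `c n (i+1)` is the coefficient of `T^i` in `e^(T/4) Xi_n(T,m)`; `c n 0 = 0`. -/
noncomputable def c : ℕ → ℕ → ℝ → ℝ
  | 0, 0, _ => 0
  | 0, 1, _ => 1
  | 0, _ + 2, _ => 0
  | _ + 1, 0, _ => 0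
  | n + 1, j + 1, m =>
      c n (j + 1) m + 2 / m * ((w n m - (n + 1) / m) * c n j m - deriv (c n j) m)

/-- `Xi_n(T,m) = e^(-T/4) sum_(i <= n) c_(n,i+1)(m) T^i`. -/
noncomputable def Xi (n : ℕ) (T m : ℝ) : ℝ :=
  Real.exp (-T / 4) * ∑ i ∈ Finset.range (n + 1), c n (i + 1) m * T ^ i

/-- first derivative of `Xi` in `m` -/
noncomputable def XiM (n : ℕ) (T m : ℝ) : ℝ :=
  Real.exp (-T / 4) * ∑ i ∈ Finset.range (n + 1), deriv (c n (i + 1)) m * T ^ i

/-- second derivative of `Xi` in `m` -/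
noncomputable def XiMM (n : ℕ) (T m : ℝ) : ℝ :=
  Real.exp (-T / 4) * ∑ i ∈ Finset.range (n + 1), deriv (deriv (c n (i + 1))) m * T ^ i

/-- derivative of `Xi` in `T` -/
noncomputable def XiT (n : ℕ) (T m : ℝ) : ℝ :=
  -(1 / 4) * Xi n T m
    + Real.exp (-T / 4) * ∑ i ∈ Finset.range n, (i + 1) * c n (i + 2) m * T ^ i

/-! ## the integrals `psi` -/

/-- `Omega_n(T,m)`, up to a constant. -/
noncomputable def Om (n : ℕ) (T m : ℝ) : ℝ :=
  (1 / 2) ^ n * m ^ (n + 1) * T ^ (-(n : ℝ) - 3 / 2) * Real.exp (-m ^ 2 / (4 * T)) * Xi n T m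

/-- `psi_(n,a)(m) = int_0^oo T^a/a! Omega_n(T,m) dT`. -/
noncomputable def psi (n a : ℕ) (m : ℝ) : ℝ :=
  ∫ T in Ioi (0:ℝ), T ^ a / (a.factorial : ℝ) * Om n T m

/-- Bessel type integrals. -/
noncomputable def Kb (β m : ℝ) : ℝ :=
  ∫ T in Ioi (0:ℝ), T ^ β * Real.exp (-m ^ 2 / (4 * T) - T / 4)

/-! ## the function `P_N` and its primitive -/

/-- constants `c_n`, `c_0 = 1`, `c_(n+1) = c_n/(2n+3)`. -/
noncomputable def cc : ℕ → ℝ
  | 0 => 1
  | n + 1 => cc n / (2 * n + 3)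

/-- `P_N(t) = e^(-Nt/2) prod_(i<N) c_i theta_i(t)`. -/
noncomputable def PN (N : ℕ) (t : ℝ) : ℝ :=
  Real.exp (-(N * t) / 2) * ∏ i ∈ Finset.range N, (cc i * th i t)

/-- `S_N(m) = int_0^m P_N`. -/
noncomputable def SN (N : ℕ) (m : ℝ) : ℝ := ∫ t in (0:ℝ)..m, PN N t

/-! ## Part F: the functions `g_a` and power series -/

/-- `g_0 = 2 sinh(t/2)`, `g_(a+1)'' = g_(a+1)/4 + g_a`, zero initial data. -/
noncomputable def g : ℕ → ℝ → ℝ
  | 0, t => 2 * Real.sinh (t / 2)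
  | a + 1, t => Real.exp (t / 2) * (∫ s in (0:ℝ)..t, Real.exp (-s / 2) * g a s)
      - Real.exp (-t / 2) * (∫ s in (0:ℝ)..t, Real.exp (s / 2) * g a s)

/-- derivative of `g_a`. -/
noncomputable def gp : ℕ → ℝ → ℝ
  | 0, t => Real.cosh (t / 2)
  | a + 1, t => (1 / 2) * (Real.exp (t / 2) * (∫ s in (0:ℝ)..t, Real.exp (-s / 2) * g a s)
      + Real.exp (-t / 2) * (∫ s in (0:ℝ)..t, Real.exp (s / 2) * g a s))

/-- the power series `z = 1/4 + x`. -/
noncomputable def Z : PowerSeries ℝ := PowerSeries.C (1 / 4 : ℝ) + PowerSeries.X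

/-- `dp f f' j` represents the `j`-th derivative of `f` if `f'' = z f`. -/
noncomputable def dp (f f' : PowerSeries ℝ) : ℕ → PowerSeries ℝ
  | 0 => f
  | 1 => f'
  | j + 2 => Z * dp f f' j

/-- The power series of the `g_a(t)`. -/
noncomputable def Gs (t : ℝ) : PowerSeries ℝ := PowerSeries.mk fun a => g a t

/-- The power series of the `g_a'(t)`. -/
noncomputable def Gs' (t : ℝ) : PowerSeries ℝ := PowerSeries.mk fun a => gp a t

/-- The power series `sum (-1)^a psi_(0,a)(t) x^a`. -/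
noncomputable def Es (t : ℝ) : PowerSeries ℝ := PowerSeries.mk fun a => (-1) ^ a * psi 0 a t

/-- its derivative. -/
noncomputable def Es' (t : ℝ) : PowerSeries ℝ :=
  PowerSeries.mk fun a => (-1) ^ a * (w 0 t * psi 0 a t - psi 1 a t)

/-- the coefficients of the differential operator `(d - w_(n-1)) ... (d - w_0) = sum_j ga_(n,j) d^j`. -/
noncomputable def ga : ℕ → ℕ → ℝ → ℝ
  | 0, 0, _ => 1
  | 0, _ + 1, _ => 0
  | n + 1, 0, t => deriv (ga n 0) t - w n t * ga n 0 t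
  | n + 1, j + 1, t => ga n j t + deriv (ga n (j + 1)) t - w n t * ga n (j + 1) t

/-- `Psi_(a,i) = g_a^(i)`, `a, i < N`. -/
noncomputable def Psi (N : ℕ) (t : ℝ) : Matrix (Fin N) (Fin N) ℝ :=
  Matrix.of fun a i => PowerSeries.coeff (a : ℕ) (dp (Gs t) (Gs' t) i)

/-- `DPsi_(a,i) = g_a^(i+1)`. -/
noncomputable def DPsi (N : ℕ) (t : ℝ) : Matrix (Fin N) (Fin N) ℝ :=
  Matrix.of fun a i => PowerSeries.coeff (a : ℕ) (dp (Gs t) (Gs' t) (i + 1))

/-- `Y = Psi' Psi^(-1)`. -/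
noncomputable def Y (N : ℕ) (t : ℝ) : Matrix (Fin N) (Fin N) ℝ := DPsi N t * (Psi N t)⁻¹

/-- the vector `xi = D_N e`. -/
noncomputable def xi (N : ℕ) (t : ℝ) : Fin N → ℝ :=
  fun a => ∑ j ∈ Finset.range (N + 1), ga N j t * PowerSeries.coeff (a : ℕ) (dp (Es t) (Es' t) j)

/-! ## Part G: last passage percolation and the determinants -/

/-- last passage value (0-based cells). -/
noncomputable def L (x : ℕ → ℕ → ℝ) : ℕ → ℕ → ℝ
  | 0, 0 => x 0 0
  | 0, j + 1 => x 0 (j + 1) + L x 0 j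
  | i + 1, 0 => x (i + 1) 0 + L x i 0
  | i + 1, j + 1 => x (i + 1) (j + 1) + max (L x i (j + 1)) (L x (i + 1) j)

/-- last passage value before the weight of the cell is added. -/
noncomputable def Lp (x : ℕ → ℕ → ℝ) : ℕ → ℕ → ℝ
  | 0, 0 => 0
  | 0, j + 1 => L x 0 j
  | i + 1, 0 => L x i 0
  | i + 1, j + 1 => max (L x i (j + 1)) (L x (i + 1) j)

/-- distribution function of the exponential law of rate one. -/
noncomputable def ex (t : ℝ) : ℝ := if 0 ≤ t then 1 - Real.exp (-t) else 0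

/-- `1_(t >= 0)`. -/
noncomputable def ex0 (t : ℝ) : ℝ := if 0 ≤ t then 1 else 0

/-- corners (rows) of the Young diagram with row lengths `lam`. -/
def corners (N : ℕ) (lam : ℕ → ℕ) : Finset ℕ :=
  (Finset.range N).filter fun i => lam (i + 1) < lam i

/-- remove the corner of row `i`. -/
def rem (lam : ℕ → ℕ) (i : ℕ) : ℕ → ℕ := Function.update lam i (lam i - 1)

/-- the configurations for which all last passage values on the diagram are at most `M`. -/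
def Aset (lam : ℕ → ℕ) (M : ℝ) : Set (ℕ → ℕ → ℝ) :=
  {x | ∀ i j, j < lam i → L x i j ≤ M}

/-- the staircase `(N, N-1, ..., 1)`. -/
def stair (N : ℕ) : ℕ → ℕ := fun i => N - i

/-- `H_(N,a)`, the functions `I(a,N;t)`. -/
noncomputable def H (N : ℕ) : ℕ → ℝ → ℝ
  | 0, t => t ^ (N - 1) / ((N - 1).factorial : ℝ)
  | a + 1, t => Real.exp (-t) * ∫ s in (0:ℝ)..t, Real.exp s * H N a s

/-- the determinant matrix of the diagram `lam`. -/
noncomputable def Dm (N : ℕ) (lam : ℕ → ℕ) (t : ℝ) : Matrix (Fin N) (Fin N) ℝ :=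
  Matrix.of fun i j => iteratedDeriv (N - 1 - (j : ℕ) + (i : ℕ)) (H N (lam i)) t

end LPPEnd
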