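import Pool.Agent.Lib.MP_267da7_pr.Defs

/-!
# E1: quantile functions and the one-dimensional Prekopa-Leindler inequality

`quantile`: let `F = int f > 0` and `Ph x = (int_(Iic x) f)/F`.  `Ph` has derivative `f x / F > 0` (fundamental theorem), is strictly
increasing, tends to `0` at `-oo` and `1` at `+oo`; so it is a bijection `R -> (0,1)`; let `q` be the inverse (for `t` in `(0,1)` choose `q t` with
`Ph (q t) = t`).  `q` is continuous on `(0,1)` and `HasDerivAt.of_local_left_inverse` gives `q' = F / f (q t)`.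

`PL`: let `F = int f`, `G = int g`, `qf, qg` the quantiles of `f, g`, `z = lam qf + mu qg` on `(0,1)`; `z' = lam F/f(qf) + mu G/g(qg) > 0`, so `z` is
strictly increasing, and by weighted AM-GM `z' >= (F/f(qf))^lam (G/g(qg))^mu`.  Change of variables (`integral_image_eq_integral_abs_deriv_smul` on
`Ioo 0 1`): `int h >= int_(z((0,1))) h = int_0^1 h(z t) z'(t) dt >= int_0^1 f(qf)^lam g(qg)^mu (F/f(qf))^lam (G/g(qg))^mu dt = F^lam G^mu`.
-/

open Real MeasureTheory Set Filter
open scoped Topology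

namespace LPPEnd

theorem E1_int_pos (f : ℝ → ℝ) (hc : Continuous f) (hp : ∀ x, 0 < f x) (hi : Integrable f) :
    0 < ∫ x, f x := by
  rw [integral_pos_iff_support_of_nonneg (fun x => (hp x).le) hi]
  have : Function.support f = Set.univ := by
    ext x
    simp [(hp x).ne']
  rw [this]
  simp

theorem quantile (f : ℝ → ℝ) (hc : Continuous f) (hp : ∀ x, 0 < f x) (hi : Integrable f) :
    ∃ q : ℝ → ℝ, ∀ t ∈ Ioo (0:ℝ) 1, HasDerivAt q ((∫ x, f x) / f (q t)) t := by
  set F := ∫ x, f x with hF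
  have hF0 : 0 < F := E1_int_pos f hc hp hi
  set B := ∫ x in Iic (0:ℝ), f x with hB
  set A := ∫ x in Ioi (0:ℝ), f x with hA
  have hAB : B + A = F := by
    have := integral_add_compl (μ := volume) (f := f) (s := Iic (0:ℝ)) measurableSet_Iic hi
    rw [compl_Iic] at this
    exact this
  obtain ⟨P, hP⟩ : ∃ P : ℝ → ℝ, ∀ x, P x = ((∫ t in (0:ℝ)..x, f t) + B) / F := ⟨_, fun _ => rfl⟩
  have hPd : ∀ x, HasDerivAt P (f x / F) x := by
    intro x
    have h1 : HasDerivAt (fun x => ∫ t in (0:ℝ)..x, f t) (f x) x :=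
      intervalIntegral.integral_hasDerivAt_right (hc.intervalIntegrable _ _)
        hc.stronglyMeasurable.stronglyMeasurableAtFilter hc.continuousAt
    have h2 := (h1.add_const B).div_const F
    exact h2.congr_of_eventuallyEq (Eventually.of_forall fun y => hP y)
  have hPm : StrictMono P := by
    refine strictMono_of_deriv_pos fun x => ?_
    rw [(hPd x).deriv]
    exact div_pos (hp x) hF0
  have hPtop : Tendsto P atTop (𝓝 1) := by
    have h1 := intervalIntegral_tendsto_integral_Ioi (μ := volume) (f := f) (0:ℝ) hi.integrableOn tendsto_id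
    have h2 := (h1.add_const B).div_const F
    rw [← hA, add_comm A B, hAB, div_self hF0.ne'] at h2
    exact h2.congr fun x => (hP x).symm
  have hPbot : Tendsto P atBot (𝓝 0) := by
    have h1 := intervalIntegral_tendsto_integral_Iic (μ := volume) (f := f) (0:ℝ) hi.integrableOn tendsto_id
    have h2 := (h1.neg.add_const B).div_const F
    rw [← hB, neg_add_cancel, zero_div] at h2
    refine h2.congr fun x => ?_
    rw [hP, intervalIntegral.integral_symm, neg_neg]
    rfl
  have hPc : Continuous P := continuous_iff_continuousAt.2 fun x => (hPd x).continuousAt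
  have hex : ∀ t ∈ Ioo (0:ℝ) 1, ∃ x, P x = t := by
    intro t ht
    obtain ⟨a, ha⟩ := (hPbot.eventually (eventually_lt_nhds ht.1)).exists
    obtain ⟨b, hb⟩ := (hPtop.eventually (eventually_gt_nhds ht.2)).exists
    exact mem_range_of_exists_le_of_exists_ge hPc ⟨a, ha.le⟩ ⟨b, hb.le⟩
  choose! q hq using hex
  refine ⟨q, fun t ht => ?_⟩
  have hev : ∀ᶠ s in 𝓝 t, s ∈ Ioo (0:ℝ) 1 := isOpen_Ioo.mem_nhds ht
  have hcont : ContinuousAt q t := by
    refine tendsto_order.2 ⟨fun a ha => ?_, fun b hb => ?_⟩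
    · have h1 : P a < t := by
        have := hPm ha
        rwa [hq t ht] at this
      filter_upwards [hev, eventually_gt_nhds h1] with s hs hs2
      rw [← hPm.lt_iff_lt, hq s hs]
      exact hs2
    · have h1 : t < P b := by
        have := hPm hb
        rwa [hq t ht] at this
      filter_upwards [hev, eventually_lt_nhds h1] with s hs hs2
      rw [← hPm.lt_iff_lt, hq s hs]
      exact hs2
  have h3 := HasDerivAt.of_local_left_inverse hcont (hPd (q t)) (div_pos (hp _) hF0).ne'
    (by filter_upwards [hev] with s hs using hq s hs)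
  rwa [inv_div] at h3

theorem PL (f g h : ℝ → ℝ) (hf : Continuous f) (hg : Continuous g) (hh : Continuous h)
    (pf : ∀ x, 0 < f x) (pg : ∀ x, 0 < g x) (ph : ∀ x, 0 < h x)
    (jf : Integrable f) (jg : Integrable g) (jh : Integrable h)
    (lam mu : ℝ) (hl : 0 < lam) (hmu : 0 < mu) (h1 : lam + mu = 1)
    (hfg : ∀ x y, f x ^ lam * g y ^ mu ≤ h (lam * x + mu * y)) :
    (∫ x, f x) ^ lam * (∫ x, g x) ^ mu ≤ ∫ x, h x := by
  obtain ⟨qf, hqf⟩ := quantile f hf pf jf
  obtain ⟨qg, hqg⟩ := quantile g hg pg jg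
  have hF0 := E1_int_pos f hf pf jf
  have hG0 := E1_int_pos g hg pg jg
  set F := ∫ x, f x with hF
  set G := ∫ x, g x with hG
  obtain ⟨z, hz⟩ : ∃ z : ℝ → ℝ, ∀ t, z t = lam * qf t + mu * qg t := ⟨_, fun _ => rfl⟩
  obtain ⟨z', hz'⟩ : ∃ z' : ℝ → ℝ, ∀ t, z' t = lam * (F / f (qf t)) + mu * (G / g (qg t)) := ⟨_, fun _ => rfl⟩
  have hzd : ∀ t ∈ Ioo (0:ℝ) 1, HasDerivAt z (z' t) t := by
    intro t ht
    rw [hz']
    exact (((hqf t ht).const_mul lam).add ((hqg t ht).const_mul mu)).congr_of_eventuallyEq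
      (Eventually.of_forall fun y => hz y)
  have hz'0 : ∀ t, 0 < z' t := by
    intro t
    rw [hz']
    have := pf (qf t)
    have := pg (qg t)
    positivity
  have hinj : InjOn z (Ioo (0:ℝ) 1) := by
    refine StrictMonoOn.injOn (strictMonoOn_of_deriv_pos (convex_Ioo 0 1) ?_ ?_)
    · exact fun t ht => (hzd t ht).continuousAt.continuousWithinAt
    · intro t ht
      rw [interior_Ioo] at ht
      rw [(hzd t ht).deriv]
      exact hz'0 t
  have hd : ∀ t ∈ Ioo (0:ℝ) 1, HasDerivWithinAt z (z' t) (Ioo (0:ℝ) 1) t :=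
    fun t ht => (hzd t ht).hasDerivWithinAt
  have e1 := integral_image_eq_integral_abs_deriv_smul measurableSet_Ioo hd hinj h
  have e2 : ∫ x in z '' Ioo (0:ℝ) 1, h x ≤ ∫ x, h x :=
    setIntegral_le_integral jh (Eventually.of_forall fun x => (ph x).le)
  have e3 : IntegrableOn (fun t => |z' t| • h (z t)) (Ioo (0:ℝ) 1) :=
    (integrableOn_image_iff_integrableOn_abs_deriv_smul measurableSet_Ioo hd hinj h).1 jh.integrableOn
  refine le_trans ?_ e2
  rw [e1]
  have e4 : ∫ _t in Ioo (0:ℝ) 1, F ^ lam * G ^ mu = F ^ lam * G ^ mu := by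
    rw [setIntegral_const]
    simp
  rw [← e4]
  refine setIntegral_mono_on (integrableOn_const (by simp)) e3 measurableSet_Ioo fun t _ => ?_
  rw [abs_of_pos (hz'0 t), smul_eq_mul, hz, hz']
  have p1 := pf (qf t)
  have p2 := pg (qg t)
  have a1 : (F / f (qf t)) ^ lam * (G / g (qg t)) ^ mu ≤ lam * (F / f (qf t)) + mu * (G / g (qg t)) :=
    Real.geom_mean_le_arith_mean2_weighted hl.le hmu.le (by positivity) (by positivity) h1
  have a2 := hfg (qf t) (qg t)
  calc F ^ lam * G ^ mu = ((F / f (qf t)) ^ lam * (G / g (qg t)) ^ mu) * (f (qf t) ^ lam * g (qg t) ^ mu) := by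
        rw [Real.div_rpow hF0.le p1.le, Real.div_rpow hG0.le p2.le]
        have q1 : f (qf t) ^ lam ≠ 0 := (Real.rpow_pos_of_pos p1 _).ne'
        have q2 : g (qg t) ^ mu ≠ 0 := (Real.rpow_pos_of_pos p2 _).ne'
        field_simp
    _ ≤ _ := mul_le_mul a1 a2 (by positivity) (by positivity)

end LPPEnd
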