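import Pool.Agent.Lib.MP_267da7_pr.E1

/-!
# E2: Ball's lemma (radial form of Prekopa-Leindler)
-/

open Real MeasureTheory Set Filter
open scoped Topology

namespace LPPEnd

/-- transport by the exponential -/
lemma E2_exp (N : ℕ) (f : ℝ → ℝ) (jf : IntegrableOn (fun r => r ^ N * f r) (Ioi 0)) :
    Integrable (fun y => exp y ^ (N + 1) * f (exp y)) ∧
      ∫ y, exp y ^ (N + 1) * f (exp y) = ∫ r in Ioi (0:ℝ), r ^ N * f r := by
  have him : exp '' univ = Ioi 0 := by rw [image_univ, range_exp]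
  have hd : ∀ x ∈ (univ : Set ℝ), HasDerivWithinAt exp (exp x) univ x := fun x _ =>
    (hasDerivAt_exp x).hasDerivWithinAt
  have hinj : InjOn exp univ := exp_injective.injOn
  have e : (fun x : ℝ => |exp x| • ((fun r : ℝ => r ^ N * f r) (exp x))) =
      fun y => exp y ^ (N + 1) * f (exp y) := by
    funext y
    rw [abs_of_pos (exp_pos y), smul_eq_mul, pow_succ]
    ring
  have h1 := integrableOn_image_iff_integrableOn_abs_deriv_smul MeasurableSet.univ hd hinj
    (fun r => r ^ N * f r)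
  have h2 := integral_image_eq_integral_abs_deriv_smul MeasurableSet.univ hd hinj
    (fun r => r ^ N * f r)
  rw [him] at h1 h2
  rw [e] at h1
  constructor
  · exact integrableOn_univ.mp (h1.mp jf)
  · rw [h2, setIntegral_univ]
    exact congrArg _ e.symm

/-- the radial quantile function -/
lemma E2_rad (N : ℕ) (f : ℝ → ℝ) (hf : ContinuousOn f (Ioi 0)) (pf : ∀ r, 0 < r → 0 < f r)
    (jf : IntegrableOn (fun r => r ^ N * f r) (Ioi 0)) :
    0 < (∫ r in Ioi (0:ℝ), r ^ N * f r) ∧ ∃ q : ℝ → ℝ, (∀ t, 0 < q t) ∧ ∀ t ∈ Ioo (0:ℝ) 1,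
      HasDerivAt q ((∫ r in Ioi (0:ℝ), r ^ N * f r) / (q t ^ N * f (q t))) t := by
  obtain ⟨hi, hF⟩ := E2_exp N f jf
  have hc : Continuous fun y => exp y ^ (N + 1) * f (exp y) := by
    refine (continuous_exp.pow _).mul ?_
    rw [← continuousOn_univ]
    exact hf.comp continuous_exp.continuousOn fun y _ => exp_pos y
  have hp : ∀ y, 0 < exp y ^ (N + 1) * f (exp y) := fun y =>
    mul_pos (pow_pos (exp_pos y) _) (pf _ (exp_pos y))
  refine ⟨?_, ?_⟩
  · rw [← hF]
    rw [integral_pos_iff_support_of_nonneg (fun y => (hp y).le) hi]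
    have : Function.support (fun y => exp y ^ (N + 1) * f (exp y)) = univ := by
      ext y
      simp only [Function.mem_support, mem_univ, iff_true]
      exact (hp y).ne'
    rw [this]
    simp
  · obtain ⟨q, hq⟩ := quantile _ hc hp hi
    refine ⟨fun t => exp (q t), fun t => exp_pos _, fun t ht => ?_⟩
    have h := (hq t ht).exp
    rw [hF] at h
    convert h using 1
    have h1 := (exp_pos (q t)).ne'
    have h2 := (pf _ (exp_pos (q t))).ne'
    show _ / (exp (q t) ^ N * f (exp (q t))) = _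
    rw [pow_succ]
    field_simp

/-- the pointwise inequality -/
lemma E2_point (N : ℕ) (F G r s a b u v al be z hz lam mu : ℝ) (hF : 0 < F) (hG : 0 < G)
    (hr : 0 < r) (hs : 0 < s) (hu : 0 < u) (hv : 0 < v) (hl : 0 < lam) (hmu : 0 < mu)
    (hzd : z = 1 / (lam / r + mu / s)) (hal : al = lam * z / r) (hbe : be = mu * z / s)
    (ha : a = F ^ (-(1:ℝ) / (N + 1))) (hb : b = G ^ (-(1:ℝ) / (N + 1)))
    (hh : u ^ al * v ^ be ≤ hz) :
    ((lam * a + mu * b)⁻¹) ^ (N + 1) ≤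
      (z ^ 2 * (lam * (F / (r ^ N * u)) / r ^ 2 + mu * (G / (s ^ N * v)) / s ^ 2)) *
        (z ^ N * hz) := by
  have hz0 : 0 < z := by rw [hzd]; positivity
  have hal0 : 0 < al := by rw [hal]; positivity
  have hbe0 : 0 < be := by rw [hbe]; positivity
  have hsum : al + be = 1 := by
    rw [hal, hbe, hzd]
    field_simp
  have ha0 : 0 < a := by rw [ha]; positivity
  have hb0 : 0 < b := by rw [hb]; positivity
  have hN : (0:ℝ) < N + 1 := by positivity
  have haF : F = a⁻¹ ^ (N + 1) := by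
    rw [ha, ← rpow_neg hF.le, ← rpow_natCast, ← rpow_mul hF.le]
    have : -(-(1:ℝ) / (N + 1)) * ((N + 1 : ℕ) : ℝ) = 1 := by
      push_cast
      field_simp
    rw [this, rpow_one]
  have hbG : G = b⁻¹ ^ (N + 1) := by
    rw [hb, ← rpow_neg hG.le, ← rpow_natCast, ← rpow_mul hG.le]
    have : -(-(1:ℝ) / (N + 1)) * ((N + 1 : ℕ) : ℝ) = 1 := by
      push_cast
      field_simp
    rw [this, rpow_one]
  -- P, Q
  have hP0 : 0 < a⁻¹ / r := by positivity
  have hQ0 : 0 < b⁻¹ / s := by positivity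
  have hFP : F / r ^ (N + 1) = (a⁻¹ / r) ^ (N + 1) := by rw [haF, div_pow]
  have hGQ : G / s ^ (N + 1) = (b⁻¹ / s) ^ (N + 1) := by rw [hbG, div_pow]
  -- GM >= HM
  have hGH : (z * (lam * a + mu * b))⁻¹ ≤ (a⁻¹ / r) ^ al * (b⁻¹ / s) ^ be := by
    have h := geom_mean_le_arith_mean2_weighted hal0.le hbe0.le (inv_pos.mpr hP0).le
      (inv_pos.mpr hQ0).le hsum
    have e1 : al * (a⁻¹ / r)⁻¹ + be * (b⁻¹ / s)⁻¹ = z * (lam * a + mu * b) := by
      rw [hal, hbe]
      field_simp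
    rw [e1, inv_rpow hP0.le, inv_rpow hQ0.le, ← mul_inv] at h
    rw [inv_le_comm₀ (by positivity) (by positivity)]
    exact h
  have hW : (lam * a + mu * b)⁻¹ ≤ z * ((a⁻¹ / r) ^ al * (b⁻¹ / s) ^ be) := by
    have h := mul_le_mul_of_nonneg_left hGH hz0.le
    rw [mul_inv, ← mul_assoc, mul_inv_cancel₀ hz0.ne', one_mul] at h
    exact h
  -- AM-GM
  have hAG := geom_mean_le_arith_mean2_weighted hal0.le hbe0.le
    (p₁ := F / (r ^ (N + 1) * u)) (p₂ := G / (s ^ (N + 1) * v)) (by positivity) (by positivity) hsum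
  have hAG2 : (F / (r ^ (N + 1) * u)) ^ al * (G / (s ^ (N + 1) * v)) ^ be * (u ^ al * v ^ be) =
      ((a⁻¹ / r) ^ al * (b⁻¹ / s) ^ be) ^ (N + 1) := by
    have e1 : F / (r ^ (N + 1) * u) * u = (a⁻¹ / r) ^ (N + 1) := by
      rw [← hFP]
      field_simp
    have e2 : G / (s ^ (N + 1) * v) * v = (b⁻¹ / s) ^ (N + 1) := by
      rw [← hGQ]
      field_simp
    have e3 : (F / (r ^ (N + 1) * u)) ^ al * u ^ al = ((a⁻¹ / r) ^ al) ^ (N + 1) := by
      rw [← mul_rpow (by positivity) hu.le, e1, ← rpow_natCast, ← rpow_mul hP0.le,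
        ← rpow_natCast, ← rpow_mul hP0.le, mul_comm]
    have e4 : (G / (s ^ (N + 1) * v)) ^ be * v ^ be = ((b⁻¹ / s) ^ be) ^ (N + 1) := by
      rw [← mul_rpow (by positivity) hv.le, e2, ← rpow_natCast, ← rpow_mul hQ0.le,
        ← rpow_natCast, ← rpow_mul hQ0.le, mul_comm]
    calc (F / (r ^ (N + 1) * u)) ^ al * (G / (s ^ (N + 1) * v)) ^ be * (u ^ al * v ^ be)
        = ((F / (r ^ (N + 1) * u)) ^ al * u ^ al) * ((G / (s ^ (N + 1) * v)) ^ be * v ^ be) := by
          ring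
      _ = _ := by rw [e3, e4, mul_pow]
  have e5 : (z ^ 2 * (lam * (F / (r ^ N * u)) / r ^ 2 + mu * (G / (s ^ N * v)) / s ^ 2)) =
      z * (al * (F / (r ^ (N + 1) * u)) + be * (G / (s ^ (N + 1) * v))) := by
    rw [hal, hbe]
    field_simp
    ring
  rw [e5]
  have huv : 0 < u ^ al * v ^ be := by positivity
  calc ((lam * a + mu * b)⁻¹) ^ (N + 1)
      ≤ (z * ((a⁻¹ / r) ^ al * (b⁻¹ / s) ^ be)) ^ (N + 1) := by
        exact pow_le_pow_left₀ (by positivity) hW _
    _ = z * ((F / (r ^ (N + 1) * u)) ^ al * (G / (s ^ (N + 1) * v)) ^ be) *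
          (z ^ N * (u ^ al * v ^ be)) := by
        rw [mul_pow, ← hAG2, pow_succ z]
        ring
    _ ≤ z * (al * (F / (r ^ (N + 1) * u)) + be * (G / (s ^ (N + 1) * v))) * (z ^ N * hz) := by
        gcongr

theorem Ball (N : ℕ) (f g h : ℝ → ℝ) (hf : ContinuousOn f (Ioi 0)) (hg : ContinuousOn g (Ioi 0))
    (hh : ContinuousOn h (Ioi 0)) (pf : ∀ r, 0 < r → 0 < f r) (pg : ∀ r, 0 < r → 0 < g r)
    (ph : ∀ r, 0 < r → 0 < h r)
    (jf : IntegrableOn (fun r => r ^ N * f r) (Ioi 0))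
    (jg : IntegrableOn (fun r => r ^ N * g r) (Ioi 0))
    (jh : IntegrableOn (fun r => r ^ N * h r) (Ioi 0))
    (lam mu : ℝ) (hl : 0 < lam) (hmu : 0 < mu) (h1 : lam + mu = 1)
    (hfg : ∀ r s, 0 < r → 0 < s →
      f r ^ (lam * (1 / (lam / r + mu / s)) / r) * g s ^ (mu * (1 / (lam / r + mu / s)) / s) ≤
        h (1 / (lam / r + mu / s))) :
    (∫ r in Ioi (0:ℝ), r ^ N * h r) ^ (-(1:ℝ) / (N + 1)) ≤
      lam * (∫ r in Ioi (0:ℝ), r ^ N * f r) ^ (-(1:ℝ) / (N + 1)) +
      mu * (∫ r in Ioi (0:ℝ), r ^ N * g r) ^ (-(1:ℝ) / (N + 1)) := by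
  obtain ⟨hF, q, hq0, hq⟩ := E2_rad N f hf pf jf
  obtain ⟨hG, w, hw0, hw⟩ := E2_rad N g hg pg jg
  set F := ∫ r in Ioi (0:ℝ), r ^ N * f r with hFd
  set G := ∫ r in Ioi (0:ℝ), r ^ N * g r with hGd
  set a := F ^ (-(1:ℝ) / (N + 1)) with ha
  set b := G ^ (-(1:ℝ) / (N + 1)) with hb
  have ha0 : 0 < a := by positivity
  have hb0 : 0 < b := by positivity
  let z : ℝ → ℝ := fun t => 1 / (lam / q t + mu / w t)
  let z' : ℝ → ℝ := fun t => z t ^ 2 * (lam * (F / (q t ^ N * f (q t))) / q t ^ 2 +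
    mu * (G / (w t ^ N * g (w t))) / w t ^ 2)
  have hu0 : ∀ t, 0 < lam / q t + mu / w t := fun t => by
    have := hq0 t
    have := hw0 t
    positivity
  have hz0 : ∀ t, 0 < z t := fun t => one_div_pos.mpr (hu0 t)
  have hz'0 : ∀ t, 0 < z' t := fun t => by
    have h1 := hq0 t
    have h2 := hw0 t
    have h3 := pf _ h1
    have h4 := pg _ h2
    have h5 := hz0 t
    show 0 < z t ^ 2 * (lam * (F / (q t ^ N * f (q t))) / q t ^ 2 +
      mu * (G / (w t ^ N * g (w t))) / w t ^ 2)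
    positivity
  have hzd : ∀ t ∈ Ioo (0:ℝ) 1, HasDerivAt z (z' t) t := by
    intro t ht
    have h1 := hq0 t
    have h2 := hw0 t
    have h3 := ((hq t ht).inv h1.ne').const_mul lam
    have h4 := ((hw t ht).inv h2.ne').const_mul mu
    have h5 := (h3.add h4).inv (by
      have := hu0 t
      rw [div_eq_mul_inv, div_eq_mul_inv] at this
      exact this.ne')
    have e : z = (fun y => lam * (q y)⁻¹ + mu * (w y)⁻¹)⁻¹ := by
      funext y
      show 1 / (lam / q y + mu / w y) = (lam * (q y)⁻¹ + mu * (w y)⁻¹)⁻¹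
      rw [one_div, div_eq_mul_inv, div_eq_mul_inv]
    rw [e]
    refine h5.congr_deriv ?_
    show _ = z t ^ 2 * (lam * (F / (q t ^ N * f (q t))) / q t ^ 2 +
      mu * (G / (w t ^ N * g (w t))) / w t ^ 2)
    have e2 : z t = (lam * (q t)⁻¹ + mu * (w t)⁻¹)⁻¹ := by rw [e]; rfl
    rw [e2]
    have h6 : (0:ℝ) < lam * (q t)⁻¹ + mu * (w t)⁻¹ := by positivity
    show -(lam * (-(F / (q t ^ N * f (q t))) / q t ^ 2) + mu * (-(G / (w t ^ N * g (w t))) / w t ^ 2)) /
      (lam * (q t)⁻¹ + mu * (w t)⁻¹) ^ 2 = _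
    rw [inv_pow, inv_mul_eq_div]
    congr 1
    ring
  have hmono : StrictMonoOn z (Ioo 0 1) := by
    apply strictMonoOn_of_deriv_pos (convex_Ioo 0 1)
    · intro t ht
      exact (hzd t ht).continuousAt.continuousWithinAt
    · intro t ht
      rw [interior_Ioo] at ht
      rw [(hzd t ht).deriv]
      exact hz'0 t
  have hzdw : ∀ t ∈ Ioo (0:ℝ) 1, HasDerivWithinAt z (z' t) (Ioo 0 1) t := fun t ht =>
    (hzd t ht).hasDerivWithinAt
  have hsub : z '' Ioo 0 1 ⊆ Ioi 0 := by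
    rintro _ ⟨t, _, rfl⟩
    exact hz0 t
  have hint := (integrableOn_image_iff_integrableOn_abs_deriv_smul measurableSet_Ioo hzdw
    hmono.injOn (fun r => r ^ N * h r)).mp (jh.mono_set hsub)
  have hval := integral_image_eq_integral_abs_deriv_smul measurableSet_Ioo hzdw
    hmono.injOn (fun r => r ^ N * h r)
  set K : ℝ := ((lam * a + mu * b)⁻¹) ^ (N + 1) with hK
  have hWpos : 0 < lam * a + mu * b := by positivity
  have hK0 : 0 < K := by positivity
  have hlow : K ≤ ∫ r in Ioi (0:ℝ), r ^ N * h r := by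
    calc K = ∫ t in Ioo (0:ℝ) 1, K := by
          rw [setIntegral_const]
          simp
      _ ≤ ∫ t in Ioo (0:ℝ) 1, |z' t| • (fun r => r ^ N * h r) (z t) := by
          apply setIntegral_mono_on (by simp) hint measurableSet_Ioo
          intro t ht
          rw [abs_of_pos (hz'0 t), smul_eq_mul]
          exact E2_point N F G (q t) (w t) a b (f (q t)) (g (w t)) _ _ (z t) (h (z t)) lam mu hF hG
            (hq0 t) (hw0 t) (pf _ (hq0 t)) (pg _ (hw0 t)) hl hmu rfl rfl rfl ha hb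
            (hfg (q t) (w t) (hq0 t) (hw0 t))
      _ = ∫ r in z '' Ioo 0 1, r ^ N * h r := hval.symm
      _ ≤ ∫ r in Ioi (0:ℝ), r ^ N * h r := by
          apply setIntegral_mono_set jh
          · refine (ae_restrict_iff' measurableSet_Ioi).mpr (Eventually.of_forall ?_)
            intro r hr
            exact mul_nonneg (pow_nonneg (le_of_lt hr) _) (ph r hr).le
          · exact LE.le.eventuallyLE hsub
  have hN : (0:ℝ) < N + 1 := by positivity
  have hneg : -(1:ℝ) / (N + 1) ≤ 0 := by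
    apply div_nonpos_of_nonpos_of_nonneg (by norm_num) hN.le
  calc (∫ r in Ioi (0:ℝ), r ^ N * h r) ^ (-(1:ℝ) / (N + 1)) ≤ K ^ (-(1:ℝ) / (N + 1)) :=
        rpow_le_rpow_of_nonpos hK0 hlow hneg
    _ = lam * a + mu * b := by
        rw [hK, ← rpow_natCast, ← rpow_mul (by positivity)]
        have : ((N + 1 : ℕ) : ℝ) * (-(1:ℝ) / (N + 1)) = -1 := by
          push_cast
          field_simp
        rw [this, rpow_neg (by positivity), rpow_one, inv_inv]

end LPPEnd
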