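import Pool.Agent.Lib.MP_267da7_pr.Defs

/-!
# E3: the Beta type recursion and the sign argument

`betaInt N rho j = int_0^oo t^j (t+rho)^(-(N+1)) dt`, `rho > 0`, `j <= N-1`: integrable (`<= t^j rho^(-(N+1))` near `0`,
`<= t^(j-N-1) <= t^(-2)` near infinity).
`beta_rec`: for `1 <= j <= N-1`: `d/dt [t^j (t+rho)^(-N)] = j t^(j-1) (t+rho)^(-N) - N t^j (t+rho)^(-N-1) = (t+rho)^(-N-1) [j rho t^(j-1) - (N-j) t^j]`;
the function `t^j (t+rho)^(-N)` vanishes at `0` and at infinity, so `j rho J_(j-1) = (N-j) J_j`.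

`sign_arg`: write `J j = int t^j pi`, `p j = J j/(j! (N-1-j)!)`; all `J j > 0`.  Let `rho > 0` with `rho^2 = p(a+1)/p(a-1)`, and
`pi0 t = sg^(-(N+1)) (t+rho)^(-(N+1))` with `sg > 0` such that `J0 (a-1) = J (a-1)` (`J0 j = int t^j pi0 = sg^(-(N+1)) betaInt N rho j`).
By `beta_rec`, `p0 j / p0 (j-1) = (J0 j/J0 (j-1)) (N-j)/j = rho` (`p0 j = J0 j/(j!(N-1-j)!)`; `(N-1-(j-1))! = (N-j) (N-1-j)!`).
So `p0(a-1) = p(a-1)`, `p0(a+1) = rho^2 p0(a-1) = p(a+1)`, i.e. `J0 (a+1) = J (a+1)`, and `p0(a)^2 = p(a-1) p(a+1)`.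
Claim `J a >= J0 a` (this is the theorem).  Suppose `J a < J0 a`.  Let `D = pi - pi0`: `int t^(a-1) D = 0 = int t^(a+1) D`, `int t^a D < 0`.
Let `A = pi^(-1/(N+1))` (convex), `A0 t = pi0^(-1/(N+1)) = sg (t+rho)` (affine), `I = {t > 0 : A t < A0 t} = {t > 0 : D t > 0}`: `I` is convex
(`A - A0` is convex).
* `I` empty: `D <= 0` everywhere, `int t^(a-1) D = 0`, so `D = 0` a.e. and `int t^a D = 0`.  Contradiction.
* `I` nonempty, not bounded above: let `t1 = inf I >= 0`; then `D > 0` on `(t1,oo)` and `D <= 0` on `(0,t1)`, so `(t - t1) D >= 0` a.e. and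
  `0 <= int t^(a-1) (t - t1) D = int t^a D < 0`.  Contradiction.
* `I` nonempty and bounded: `t1 = inf I`, `t2 = sup I`: `0 <= t1 <= t2`, `t2 > 0`, `D > 0` on `(t1,t2)`, `D <= 0` on `(0,t1)` and `(t2,oo)`:
  `-(t-t1)(t-t2) D >= 0` a.e. and `0 <= int t^(a-1) (-(t-t1)(t-t2)) D = (t1+t2) int t^a D < 0`.  Contradiction.
-/

open Real MeasureTheory Set Filter
open scoped Topology

namespace LPPEnd

noncomputable def betaInt (N : ℕ) (rho : ℝ) (j : ℕ) : ℝ :=
  ∫ t in Ioi (0:ℝ), t ^ j / (t + rho) ^ (N + 1)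

private theorem e3_inv_sq (rho : ℝ) (hr : 0 < rho) :
    IntegrableOn (fun t : ℝ => 1 / (t + rho) ^ 2) (Ioi 0) := by
  have hd : ∀ x ∈ Ioi (0:ℝ), HasDerivAt (fun t : ℝ => -(t + rho)⁻¹) (1 / (x + rho) ^ 2) x := by
    intro x hx
    have hx' : x + rho ≠ 0 := by
      have : (0:ℝ) < x := hx
      positivity
    have := (((hasDerivAt_id x).add_const rho).inv hx').neg
    refine this.congr_deriv ?_
    simp only [id]
    ring
  refine integrableOn_Ioi_deriv_of_nonneg (g := fun t : ℝ => -(t + rho)⁻¹) (l := 0) ?_ hd ?_ ?_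
  · have : ContinuousAt (fun t : ℝ => -(t + rho)⁻¹) 0 := by
      refine (ContinuousAt.inv₀ (by fun_prop) ?_).neg
      rw [zero_add]
      exact hr.ne'
    exact this.continuousWithinAt
  · intro x _
    positivity
  · have h1 : Tendsto (fun t : ℝ => t + rho) atTop atTop := tendsto_atTop_add_const_right _ _ tendsto_id
    have h2 := (tendsto_inv_atTop_zero.comp h1).neg
    rw [neg_zero] at h2
    exact h2

private theorem e3_cont (M : ℕ) (rho : ℝ) (hr : 0 < rho) (j : ℕ) :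
    ContinuousOn (fun t : ℝ => t ^ j / (t + rho) ^ M) (Ici 0) := by
  refine ContinuousOn.div (by fun_prop) (by fun_prop) ?_
  intro t ht
  have : (0:ℝ) ≤ t := ht
  positivity

private theorem e3_bound (N : ℕ) (rho : ℝ) (hr : 0 < rho) (j : ℕ) (hj : j + 1 ≤ N) (t : ℝ) (ht : 0 < t) :
    t ^ j / (t + rho) ^ (N + 1) ≤ (1 / rho) ^ (N - 1 - j) * (1 / (t + rho) ^ 2) := by
  have htr : 0 < t + rho := by positivity
  have h1 : (t + rho) ^ (N + 1) = (t + rho) ^ j * (t + rho) ^ (N - 1 - j) * (t + rho) ^ 2 := by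
    rw [← pow_add, ← pow_add]
    congr 1
    omega
  have h0 : (1 / rho) ^ (N - 1 - j) * (1 / (t + rho) ^ 2) = 1 / (rho ^ (N - 1 - j) * (t + rho) ^ 2) := by
    rw [one_div_pow]
    field_simp
  rw [h1, h0, div_le_div_iff₀ (by positivity) (by positivity)]
  have h2 : t ^ j ≤ (t + rho) ^ j := pow_le_pow_left₀ ht.le (by linarith) _
  have h3 : rho ^ (N - 1 - j) ≤ (t + rho) ^ (N - 1 - j) := pow_le_pow_left₀ hr.le (by linarith) _
  calc t ^ j * (rho ^ (N - 1 - j) * (t + rho) ^ 2) ≤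
      (t + rho) ^ j * ((t + rho) ^ (N - 1 - j) * (t + rho) ^ 2) :=
        mul_le_mul h2 (mul_le_mul_of_nonneg_right h3 (by positivity)) (by positivity) (by positivity)
    _ = 1 * ((t + rho) ^ j * (t + rho) ^ (N - 1 - j) * (t + rho) ^ 2) := by ring

private theorem e3_pos {f : ℝ → ℝ} (hf : IntegrableOn f (Ioi 0)) (hpos : ∀ t, 0 < t → 0 < f t) :
    0 < ∫ t in Ioi (0:ℝ), f t := by
  rw [setIntegral_pos_iff_support_of_nonneg_ae]
  · have : Function.support f ∩ Ioi 0 = Ioi 0 := by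
      ext t
      simp only [mem_inter_iff, Function.mem_support, mem_Ioi]
      exact ⟨fun h => h.2, fun h => ⟨(hpos t h).ne', h⟩⟩
    rw [this, Real.volume_Ioi]
    exact ENNReal.zero_lt_top
  · rw [Filter.EventuallyLE, ae_restrict_iff' measurableSet_Ioi]
    exact Eventually.of_forall fun t ht => (hpos t ht).le
  · exact hf

theorem beta_int (N : ℕ) (rho : ℝ) (hr : 0 < rho) (j : ℕ) (hj : j + 1 ≤ N) :
    IntegrableOn (fun t : ℝ => t ^ j / (t + rho) ^ (N + 1)) (Ioi 0) ∧ 0 < betaInt N rho j := by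
  have hint : IntegrableOn (fun t : ℝ => t ^ j / (t + rho) ^ (N + 1)) (Ioi 0) := by
    refine Integrable.mono' ((e3_inv_sq rho hr).const_mul ((1 / rho) ^ (N - 1 - j))) ?_ ?_
    · exact ((e3_cont (N + 1) rho hr j).mono Ioi_subset_Ici_self).aestronglyMeasurable measurableSet_Ioi
    · rw [ae_restrict_iff' measurableSet_Ioi]
      refine Eventually.of_forall fun t ht => ?_
      have ht' : (0:ℝ) < t := ht
      rw [Real.norm_of_nonneg (by positivity)]
      exact e3_bound N rho hr j hj t ht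
  refine ⟨hint, e3_pos hint fun t ht => ?_⟩
  positivity

theorem beta_rec (N : ℕ) (rho : ℝ) (hr : 0 < rho) (j : ℕ) (h1 : 1 ≤ j) (hj : j + 1 ≤ N) :
    (j : ℝ) * rho * betaInt N rho (j - 1) = ((N : ℝ) - j) * betaInt N rho j := by
  obtain ⟨i, rfl⟩ : ∃ i, j = i + 1 := ⟨j - 1, by omega⟩
  have hi1 := (beta_int N rho hr i (by omega)).1
  have hi2 := (beta_int N rho hr (i + 1) hj).1
  have hd : ∀ x ∈ Ioi (0:ℝ), HasDerivAt (fun t : ℝ => t ^ (i + 1) / (t + rho) ^ N)
      ((((i + 1 : ℕ) : ℝ) * rho) * (x ^ i / (x + rho) ^ (N + 1)) -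
        ((N : ℝ) - (i + 1 : ℕ)) * (x ^ (i + 1) / (x + rho) ^ (N + 1))) x := by
    intro x hx
    have hx0 : (0:ℝ) < x := hx
    have hx' : x + rho ≠ 0 := by positivity
    have hN : N = (N - 1) + 1 := by omega
    have e1 := hasDerivAt_pow (i + 1) x
    have e2 : HasDerivAt (fun t : ℝ => (t + rho) ^ N) (N * (x + rho) ^ (N - 1)) x := by
      have := ((hasDerivAt_id x).add_const rho).pow N
      refine this.congr_deriv ?_
      simp
    have e3 := e1.div e2 (pow_ne_zero N hx')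
    refine e3.congr_deriv ?_
    rw [Nat.add_sub_cancel]
    have hN' : (x + rho) ^ N = (x + rho) ^ (N - 1) * (x + rho) := by
      rw [← pow_succ, ← hN]
    rw [pow_succ (x + rho) N, hN']
    field_simp
    push_cast
    ring
  have hint : IntegrableOn (fun x : ℝ => (((i + 1 : ℕ) : ℝ) * rho) * (x ^ i / (x + rho) ^ (N + 1)) -
        ((N : ℝ) - (i + 1 : ℕ)) * (x ^ (i + 1) / (x + rho) ^ (N + 1))) (Ioi 0) :=
    (hi1.const_mul _).sub (hi2.const_mul _)
  have hlim : Tendsto (fun t : ℝ => t ^ (i + 1) / (t + rho) ^ N) atTop (𝓝 0) := by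
    have hb : ∀ᶠ t in atTop, ‖(t ^ (i + 1) / (t + rho) ^ N : ℝ)‖ ≤ (1 / rho) ^ (N - 1 - (i + 1)) * (t + rho)⁻¹ := by
      filter_upwards [eventually_gt_atTop (0:ℝ)] with t ht
      rw [Real.norm_of_nonneg (by positivity)]
      have h2 := e3_bound N rho hr (i + 1) hj t ht
      have h3 : t ^ (i + 1) / (t + rho) ^ N = t ^ (i + 1) / (t + rho) ^ (N + 1) * (t + rho) := by
        rw [pow_succ (t + rho) N]
        field_simp
      rw [h3]
      calc t ^ (i + 1) / (t + rho) ^ (N + 1) * (t + rho) ≤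
          ((1 / rho) ^ (N - 1 - (i + 1)) * (1 / (t + rho) ^ 2)) * (t + rho) :=
            mul_le_mul_of_nonneg_right h2 (by positivity)
        _ = _ := by field_simp
    have h1 : Tendsto (fun t : ℝ => t + rho) atTop atTop := tendsto_atTop_add_const_right _ _ tendsto_id
    have h2 := (tendsto_inv_atTop_zero.comp h1).const_mul ((1 / rho) ^ (N - 1 - (i + 1)))
    rw [mul_zero] at h2
    exact squeeze_zero_norm' hb h2
  have h := integral_Ioi_of_hasDerivAt_of_tendsto
    ((e3_cont N rho hr (i + 1)) 0 (mem_Ici.2 le_rfl)) hd hint hlim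
  rw [integral_sub (hi1.const_mul _) (hi2.const_mul _), integral_const_mul, integral_const_mul] at h
  rw [Nat.add_sub_cancel]
  unfold betaInt
  have h0 : (0:ℝ) ^ (i + 1) / (0 + rho) ^ N = 0 := by
    rw [zero_pow (by omega), zero_div]
  rw [h0] at h
  linarith

private theorem e3_poly (a : ℕ) (D : ℝ → ℝ) (ha : 1 ≤ a)
    (h1 : IntegrableOn (fun t => t ^ (a - 1) * D t) (Ioi 0))
    (h2 : IntegrableOn (fun t => t ^ a * D t) (Ioi 0))
    (h3 : IntegrableOn (fun t => t ^ (a + 1) * D t) (Ioi 0))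
    (z1 : ∫ t in Ioi (0:ℝ), t ^ (a - 1) * D t = 0) (z3 : ∫ t in Ioi (0:ℝ), t ^ (a + 1) * D t = 0)
    (α β γ : ℝ) (hβ : 0 < β) (hq : ∀ t, 0 < t → 0 ≤ (α + β * t + γ * t ^ 2) * D t) :
    0 ≤ ∫ t in Ioi (0:ℝ), t ^ a * D t := by
  obtain ⟨b, rfl⟩ : ∃ b, a = b + 1 := ⟨a - 1, by omega⟩
  rw [Nat.add_sub_cancel] at h1 z1
  have h4 : 0 ≤ ∫ t in Ioi (0:ℝ), (α * (t ^ b * D t) + β * (t ^ (b + 1) * D t)) + γ * (t ^ (b + 1 + 1) * D t) := by
    refine setIntegral_nonneg measurableSet_Ioi fun t ht => ?_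
    have ht' : (0:ℝ) < t := ht
    have e : (α * (t ^ b * D t) + β * (t ^ (b + 1) * D t)) + γ * (t ^ (b + 1 + 1) * D t) =
        t ^ b * ((α + β * t + γ * t ^ 2) * D t) := by ring
    rw [e]
    exact mul_nonneg (by positivity) (hq t ht)
  have h12 : IntegrableOn (fun t => α * (t ^ b * D t) + β * (t ^ (b + 1) * D t)) (Ioi 0) :=
    (h1.const_mul α).add (h2.const_mul β)
  rw [integral_add h12 (h3.const_mul γ),
    integral_add (h1.const_mul α) (h2.const_mul β), integral_const_mul, integral_const_mul,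
    integral_const_mul, z1, z3] at h4
  by_contra hcon
  push Not at hcon
  nlinarith

private theorem e3_shape (D : ℝ → ℝ) (hconv : (Ioi (0:ℝ) ∩ {t | 0 < D t}).OrdConnected) :
    ∃ α β γ : ℝ, 0 < β ∧ ∀ t, 0 < t → 0 ≤ (α + β * t + γ * t ^ 2) * D t := by
  set S := Ioi (0:ℝ) ∩ {t | 0 < D t} with hS
  have hnot : ∀ t, 0 < t → t ∉ S → D t ≤ 0 := by
    intro t ht h
    by_contra hcon
    push Not at hcon
    exact h ⟨ht, hcon⟩
  rcases S.eq_empty_or_nonempty with h0 | hne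
  · refine ⟨-1, 2, -1, by norm_num, fun t ht => ?_⟩
    have h1 := hnot t ht (by rw [h0]; exact notMem_empty t)
    have h2 : (-1 + 2 * t + -1 * t ^ 2) = -(t - 1) ^ 2 := by ring
    rw [h2]
    nlinarith [sq_nonneg (t - 1)]
  · have hbb : BddBelow S := ⟨0, fun t ht => (mem_Ioi.1 ht.1).le⟩
    set t1 := sInf S with ht1
    have hlow : ∀ t, t < t1 → t ∉ S := fun t ht h => absurd (csInf_le hbb h) (not_le.2 ht)
    by_cases hba : BddAbove S
    · set t2 := sSup S with ht2
      have hup : ∀ t, t2 < t → t ∉ S := fun t ht h => absurd (le_csSup hba h) (not_le.2 ht)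
      have ht1nn : 0 ≤ t1 := le_csInf hne fun t ht => (mem_Ioi.1 ht.1).le
      have ht2pos : 0 < t2 := by
        obtain ⟨t, ht⟩ := hne
        exact lt_of_lt_of_le (mem_Ioi.1 ht.1) (le_csSup hba ht)
      refine ⟨-(t1 * t2), t1 + t2, -1, by linarith, fun t ht => ?_⟩
      have e : -(t1 * t2) + (t1 + t2) * t + -1 * t ^ 2 = (t - t1) * (t2 - t) := by ring
      rw [e]
      rcases lt_trichotomy t t1 with h1 | h1 | h1
      · have h2 := hnot t ht (hlow t h1)
        have h3 : t < t2 ∨ t2 ≤ t := lt_or_ge t t2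
        have h4 : t1 ≤ t2 := by
          obtain ⟨s, hs⟩ := hne
          exact (csInf_le hbb hs).trans (le_csSup hba hs)
        have h5 : (t - t1) * (t2 - t) ≤ 0 := mul_nonpos_of_nonpos_of_nonneg (by linarith) (by linarith)
        exact mul_nonneg_of_nonpos_of_nonpos h5 h2
      · rw [h1, sub_self, zero_mul, zero_mul]
      · rcases lt_trichotomy t t2 with h2 | h2 | h2
        · obtain ⟨s, hs, hs'⟩ := exists_lt_of_csInf_lt hne h1
          obtain ⟨u, hu, hu'⟩ := exists_lt_of_lt_csSup hne h2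
          have h3 := (hconv.out hs hu ⟨hs'.le, hu'.le⟩).2
          exact mul_nonneg (mul_nonneg (by linarith) (by linarith)) (le_of_lt h3)
        · rw [h2, sub_self, mul_zero, zero_mul]
        · have h3 := hnot t ht (hup t h2)
          have h5 : (t - t1) * (t2 - t) ≤ 0 := mul_nonpos_of_nonneg_of_nonpos (by linarith) (by linarith)
          exact mul_nonneg_of_nonpos_of_nonpos h5 h3
    · refine ⟨-t1, 1, 0, one_pos, fun t ht => ?_⟩
      have e : -t1 + 1 * t + 0 * t ^ 2 = t - t1 := by ring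
      rw [e]
      rcases lt_trichotomy t t1 with h1 | h1 | h1
      · exact mul_nonneg_of_nonpos_of_nonpos (by linarith) (hnot t ht (hlow t h1))
      · rw [h1, sub_self, zero_mul]
      · obtain ⟨s, hs, hs'⟩ := exists_lt_of_csInf_lt hne h1
        rw [not_bddAbove_iff] at hba
        obtain ⟨u, hu, hu'⟩ := hba t
        have h3 := (hconv.out hs hu ⟨hs'.le, hu'.le⟩).2
        exact mul_nonneg (by linarith) (le_of_lt h3)

theorem sign_arg (N a : ℕ) (ha : 1 ≤ a) (haN : a + 2 ≤ N) (pi : ℝ → ℝ)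
    (hpos : ∀ t, 0 < t → 0 < pi t)
    (hconv : ConvexOn ℝ (Ioi 0) (fun t => pi t ^ (-(1:ℝ) / (N + 1))))
    (hi : ∀ j, j + 1 ≤ N → IntegrableOn (fun t => t ^ j * pi t) (Ioi 0)) :
    ((∫ t in Ioi (0:ℝ), t ^ (a - 1) * pi t) / (((a - 1).factorial : ℝ) * ((N - a).factorial : ℝ))) *
      ((∫ t in Ioi (0:ℝ), t ^ (a + 1) * pi t) /
        (((a + 1).factorial : ℝ) * ((N - 2 - a).factorial : ℝ))) ≤
    ((∫ t in Ioi (0:ℝ), t ^ a * pi t) / ((a.factorial : ℝ) * ((N - 1 - a).factorial : ℝ))) ^ 2 := by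
  have hJpos : ∀ j, j + 1 ≤ N → 0 < ∫ t in Ioi (0:ℝ), t ^ j * pi t := fun j hj =>
    e3_pos (hi j hj) fun t ht => mul_pos (pow_pos ht j) (hpos t ht)
  have i1 := hi (a - 1) (by omega)
  have i2 := hi a (by omega)
  have i3 := hi (a + 1) (by omega)
  have p1 := hJpos (a - 1) (by omega)
  have p2 := hJpos a (by omega)
  have p3 := hJpos (a + 1) (by omega)
  set J1 := ∫ t in Ioi (0:ℝ), t ^ (a - 1) * pi t with hJ1
  set J2 := ∫ t in Ioi (0:ℝ), t ^ a * pi t with hJ2
  set J3 := ∫ t in Ioi (0:ℝ), t ^ (a + 1) * pi t with hJ3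
  have haR : (1:ℝ) ≤ a := by exact_mod_cast ha
  have haNR : (a:ℝ) + 2 ≤ N := by exact_mod_cast haN
  have q1 : (0:ℝ) < N - a := by linarith
  have q2 : (0:ℝ) < N - a - 1 := by linarith
  have q0 : (0:ℝ) < a := by linarith
  -- the parameter rho
  set rho := Real.sqrt (J3 / J1 * (((N - a) * (N - a - 1)) / (a * (a + 1)))) with hrho
  have hr2 : rho ^ 2 = J3 / J1 * (((N - a) * (N - a - 1)) / (a * (a + 1))) :=
    Real.sq_sqrt (by positivity)
  have hrpos : 0 < rho := Real.sqrt_pos.2 (by positivity)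
  obtain ⟨b1, c1⟩ := beta_int N rho hrpos (a - 1) (by omega)
  obtain ⟨b2, c2⟩ := beta_int N rho hrpos a (by omega)
  obtain ⟨b3, c3⟩ := beta_int N rho hrpos (a + 1) (by omega)
  have r1 := beta_rec N rho hrpos a ha (by omega)
  have r2 := beta_rec N rho hrpos (a + 1) (by omega) (by omega)
  rw [Nat.add_sub_cancel] at r2
  push_cast at r2
  set κ := J1 / betaInt N rho (a - 1) with hκ
  have hκpos : 0 < κ := div_pos p1 c1
  -- the difference
  let D : ℝ → ℝ := fun t => pi t - κ / (t + rho) ^ (N + 1)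
  have hDint : ∀ j, IntegrableOn (fun t => t ^ j * pi t) (Ioi 0) →
      IntegrableOn (fun t : ℝ => t ^ j / (t + rho) ^ (N + 1)) (Ioi 0) →
      IntegrableOn (fun t => t ^ j * D t) (Ioi 0) ∧
      ∫ t in Ioi (0:ℝ), t ^ j * D t = (∫ t in Ioi (0:ℝ), t ^ j * pi t) - κ * betaInt N rho j := by
    intro j h1 h2
    have e : (fun t => t ^ j * D t) = fun t => t ^ j * pi t - κ * (t ^ j / (t + rho) ^ (N + 1)) := by
      funext t
      simp only [D]
      ring
    rw [e]
    refine ⟨h1.sub (h2.const_mul κ), ?_⟩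
    rw [integral_sub h1 (h2.const_mul κ), integral_const_mul]
    rfl
  obtain ⟨d1, e1⟩ := hDint (a - 1) i1 b1
  obtain ⟨d2, e2⟩ := hDint a i2 b2
  obtain ⟨d3, e3⟩ := hDint (a + 1) i3 b3
  have k1 : κ * betaInt N rho (a - 1) = J1 := by
    rw [hκ]
    field_simp
  have k2 : κ * betaInt N rho a = J1 * (a * rho / (N - a)) := by
    have : betaInt N rho a = a * rho / (N - a) * betaInt N rho (a - 1) := by
      field_simp
      linarith
    rw [this, ← k1]
    ring
  have k3 : κ * betaInt N rho (a + 1) = J3 := by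
    have : betaInt N rho (a + 1) = (a + 1) * rho / (N - a - 1) * betaInt N rho a := by
      field_simp
      linarith
    rw [this]
    calc κ * ((a + 1) * rho / (N - a - 1) * betaInt N rho a) =
        (a + 1) * rho / (N - a - 1) * (κ * betaInt N rho a) := by ring
      _ = J1 * rho ^ 2 * ((a * (a + 1)) / ((N - a) * (N - a - 1))) := by
          rw [k2]
          field_simp
      _ = J3 := by
          rw [hr2]
          field_simp
  -- the shape of the difference
  have hM : (0:ℝ) < (N:ℝ) + 1 := by positivity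
  have hshape : (Ioi (0:ℝ) ∩ {t | 0 < D t}).OrdConnected := by
    have hset : Ioi (0:ℝ) ∩ {t | 0 < D t} =
        {t ∈ Ioi (0:ℝ) | pi t ^ (-(1:ℝ) / (N + 1)) - κ ^ (-(1:ℝ) / (N + 1)) * (t + rho) < 0} := by
      ext t
      simp only [mem_inter_iff, mem_Ioi, mem_ofPred_eq]
      refine and_congr_right fun ht => ?_
      have htr : 0 < t + rho := by positivity
      have h1 : (κ / (t + rho) ^ (N + 1)) ^ (-(1:ℝ) / (N + 1)) = κ ^ (-(1:ℝ) / (N + 1)) * (t + rho) := by
        rw [Real.div_rpow hκpos.le (by positivity), div_eq_mul_inv]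
        congr 1
        rw [← Real.rpow_natCast, ← Real.rpow_mul htr.le, ← Real.rpow_neg htr.le]
        have : -((((N + 1 : ℕ) : ℝ)) * (-(1:ℝ) / (N + 1))) = 1 := by
          push_cast
          field_simp
        rw [this, Real.rpow_one]
      rw [← h1, sub_neg]
      simp only [D, sub_pos]
      have hneg : -(1:ℝ) / (N + 1) < 0 := div_neg_of_neg_of_pos (by norm_num) hM
      exact (Real.rpow_lt_rpow_iff_of_neg (hpos t ht) (by positivity) hneg).symm
    rw [hset]
    have hlin : ConvexOn ℝ (Ioi (0:ℝ)) fun t => pi t ^ (-(1:ℝ) / (N + 1)) -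
        κ ^ (-(1:ℝ) / (N + 1)) * (t + rho) := by
      refine hconv.sub ?_
      refine ⟨convex_Ioi 0, fun x _ y _ p q _ _ hpq => ?_⟩
      simp only [smul_eq_mul]
      have hq : q = 1 - p := by linarith
      rw [hq]
      apply le_of_eq
      ring
    exact (hlin.convex_lt 0).ordConnected
  obtain ⟨α, β, γ, hβ, hq⟩ := e3_shape D hshape
  have hmain := e3_poly a D ha d1 d2 d3 (by rw [e1, k1, ← hJ1, sub_self]) (by rw [e3, k3, ← hJ3, sub_self])
    α β γ hβ hq
  rw [e2, k2, ← hJ2] at hmain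
  have hJ2ge : J1 * (a * rho / (N - a)) ≤ J2 := by linarith
  -- factorials
  have f1 : ((a.factorial : ℝ)) = a * ((a - 1).factorial : ℝ) := by
    have := Nat.mul_factorial_pred (show a ≠ 0 by omega)
    exact_mod_cast this.symm
  have f2 : (((a + 1).factorial : ℝ)) = (a + 1) * (a * ((a - 1).factorial : ℝ)) := by
    rw [Nat.factorial_succ, ← f1]
    push_cast
    ring
  have f3 : (((N - 1 - a).factorial : ℝ)) = (N - a - 1) * ((N - 2 - a).factorial : ℝ) := by
    have h1 : N - 1 - a = (N - 2 - a) + 1 := by omega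
    rw [h1, Nat.factorial_succ]
    push_cast
    congr 1
    have : ((N - 2 - a : ℕ) : ℝ) = N - 2 - a := by
      rw [Nat.cast_sub (by omega), Nat.cast_sub (by omega)]
      push_cast
      ring
    rw [this]
    ring
  have f4 : (((N - a).factorial : ℝ)) = (N - a) * ((N - a - 1) * ((N - 2 - a).factorial : ℝ)) := by
    have h1 : N - a = (N - 1 - a) + 1 := by omega
    rw [← f3]
    nth_rewrite 1 [h1]
    rw [Nat.factorial_succ]
    push_cast
    congr 1
    have : ((N - 1 - a : ℕ) : ℝ) = N - 1 - a := by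
      rw [Nat.cast_sub (by omega), Nat.cast_sub (by omega)]
      push_cast
      ring
    rw [this]
    ring
  have g1 : (0:ℝ) < ((a - 1).factorial : ℝ) := by exact_mod_cast Nat.factorial_pos _
  have g2 : (0:ℝ) < ((N - 2 - a).factorial : ℝ) := by exact_mod_cast Nat.factorial_pos _
  rw [f4, f2, f1, f3]
  have h5 : (J1 * (a * rho / (N - a))) ^ 2 ≤ J2 ^ 2 := pow_le_pow_left₀ (by positivity) hJ2ge 2
  have h6 : (J1 * (a * rho / (N - a))) ^ 2 = J1 * J3 * (a * (N - a - 1) / ((a + 1) * (N - a))) := by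
    have : (J1 * (a * rho / (N - a))) ^ 2 = J1 ^ 2 * a ^ 2 / (N - a) ^ 2 * rho ^ 2 := by
      field_simp
    rw [this, hr2]
    field_simp
  rw [h6] at h5
  have h7 : J1 / (((a - 1).factorial : ℝ) * ((N - a) * ((N - a - 1) * ((N - 2 - a).factorial : ℝ)))) *
      (J3 / ((a + 1) * (a * ((a - 1).factorial : ℝ)) * ((N - 2 - a).factorial : ℝ))) =
      J1 * J3 * (a * (N - a - 1) / ((a + 1) * (N - a))) /
        ((a * ((a - 1).factorial : ℝ)) * ((N - a - 1) * ((N - 2 - a).factorial : ℝ))) ^ 2 := by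
    field_simp
  rw [h7, div_pow]
  exact div_le_div_of_nonneg_right h5 (by positivity)

end LPPEnd
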