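import Pool.Agent.Lib.MP_267da7_pr.B8
import Pool.Agent.Lib.MP_267da7_pr.D1

/-!
# E4: the functions `bet`, `sx`, `G2`: positivity, continuity, integrability, bounds

`u = 1/(4(2N+1))`.  `bet N B x = sqrt B e^(-B/4) Xi N (e^(2x)/B) (e^x)`, for `B > 0`:
`0 < bet N B x <= sqrt B e^(-B/4) e^(-u e^(2x)/B) <= sqrt B e^(-B/4)`  (`Xi_pos`, `Xi_upper`).
`sx N x = S_N(e^x) e^(-x)`, `S_N m = int_0^m P_N`; under `hP`: `0 < sx N x <= 1` and `sx N x <= e^x` (`S_N m <= m`, `S_N m <= m^2/2`).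
Continuity in `x`: `Xi_contOn`, and `SN` is continuous on `(0,oo)`.
Bound: `int sx bet bet' dx <= sqrt(B1 B2) e^(-(B1+B2)/4) int min(1,e^x) e^(-u e^(2x)/B1) dx`, and
`int_(x<0) e^x = 1`, `int_(x>0) e^(-u e^(2x)/B1) dx <= int_(x>0) B1/(u e^(2x)) dx = B1/(2u) = 2 (2N+1) B1` (`e^(-y) <= 1/y`).
-/

open Real MeasureTheory Set Filter
open scoped Topology

namespace LPPEnd

noncomputable def bet (N : ℕ) (B x : ℝ) : ℝ :=
  Real.sqrt B * Real.exp (-B / 4) * Xi N (Real.exp (2 * x) / B) (Real.exp x)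

noncomputable def sx (N : ℕ) (x : ℝ) : ℝ := SN N (Real.exp x) * Real.exp (-x)

noncomputable def G2 (N : ℕ) (B1 B2 : ℝ) : ℝ := ∫ x, sx N x * bet N B1 x * bet N B2 x

theorem bet_pos (N : ℕ) (B x : ℝ) (hB : 0 < B) : 0 < bet N B x := by
  unfold bet
  have h1 := Xi_pos N (Real.exp (2 * x) / B) (Real.exp x) (by positivity) (Real.exp_pos x)
  positivity

/-- joint continuity, used for measurability -/
theorem bet_cont2 (N : ℕ) : ContinuousOn (fun p : ℝ × ℝ => bet N p.1 p.2) (Ioi 0 ×ˢ univ) := by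
  unfold bet
  have h1 : ContinuousOn (fun p : ℝ × ℝ => Real.sqrt p.1 * Real.exp (-p.1 / 4))
      (Ioi 0 ×ˢ univ) := by
    apply Continuous.continuousOn
    fun_prop
  have h2 : ContinuousOn (fun p : ℝ × ℝ => (Real.exp (2 * p.2) / p.1, Real.exp p.2))
      (Ioi 0 ×ˢ univ) := by
    apply ContinuousOn.prodMk
    · apply ContinuousOn.div
      · apply Continuous.continuousOn
        fun_prop
      · exact continuous_fst.continuousOn
      · intro p hp
        exact ne_of_gt hp.1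
    · apply Continuous.continuousOn
      fun_prop
  have h3 := (Xi_contOn N).comp h2 (fun p _ => ⟨mem_univ _, Real.exp_pos p.2⟩)
  exact h1.mul h3

theorem bet_cont (N : ℕ) (B : ℝ) (hB : 0 < B) : Continuous (bet N B) := by
  have h1 : ContinuousOn (fun x : ℝ => bet N B x) univ := by
    have h2 : ContinuousOn (fun x : ℝ => (B, x)) univ := by
      apply Continuous.continuousOn
      fun_prop
    exact (bet_cont2 N).comp h2 (fun x _ => ⟨hB, mem_univ x⟩)
  exact continuousOn_univ.1 h1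

theorem sx_pos (N : ℕ) (x : ℝ) : 0 < sx N x :=
  mul_pos (SN_pos N _ (Real.exp_pos x)) (Real.exp_pos _)

theorem sx_cont (N : ℕ) : Continuous (sx N) := by
  unfold sx
  apply Continuous.mul
  · rw [continuous_iff_continuousAt]
    intro x
    exact ContinuousAt.comp (f := Real.exp) (g := SN N)
      (SN_deriv N (Real.exp x) (Real.exp_pos x)).continuousAt Real.continuous_exp.continuousAt
  · fun_prop

private theorem e4_PN_int (N : ℕ) (m : ℝ) (hm : 0 < m) :
    IntervalIntegrable (PN N) volume 0 m := by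
  apply ContinuousOn.intervalIntegrable
  rw [uIcc_of_le hm.le]
  exact (PN_cont N).mono Icc_subset_Ici_self

private theorem e4_SN_le (N : ℕ) (hP : ∀ t, 0 < t → PN N t ≤ 1 ∧ PN N t ≤ t) (m : ℝ)
    (hm : 0 < m) : SN N m ≤ m ∧ SN N m ≤ m ^ 2 := by
  unfold SN
  constructor
  · calc ∫ t in (0:ℝ)..m, PN N t ≤ ∫ _ in (0:ℝ)..m, (1 : ℝ) :=
          intervalIntegral.integral_mono_on_of_le_Ioo hm.le (e4_PN_int N m hm)
            intervalIntegrable_const (fun t ht => (hP t ht.1).1)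
      _ = m := by simp
  · calc ∫ t in (0:ℝ)..m, PN N t ≤ ∫ t in (0:ℝ)..m, t :=
          intervalIntegral.integral_mono_on_of_le_Ioo hm.le (e4_PN_int N m hm)
            (continuous_id.intervalIntegrable 0 m) (fun t ht => (hP t ht.1).2)
      _ = m ^ 2 / 2 := by rw [integral_id]; ring
      _ ≤ m ^ 2 := by nlinarith [sq_nonneg m]

private theorem e4_sx_le (N : ℕ) (hP : ∀ t, 0 < t → PN N t ≤ 1 ∧ PN N t ≤ t) (x : ℝ) :
    sx N x ≤ 1 ∧ sx N x ≤ Real.exp x := by
  obtain ⟨h1, h2⟩ := e4_SN_le N hP (Real.exp x) (Real.exp_pos x)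
  unfold sx
  have h3 := Real.exp_pos (-x)
  constructor
  · calc SN N (Real.exp x) * Real.exp (-x) ≤ Real.exp x * Real.exp (-x) := by gcongr
      _ = 1 := by rw [← Real.exp_add]; simp
  · calc SN N (Real.exp x) * Real.exp (-x) ≤ Real.exp x ^ 2 * Real.exp (-x) := by gcongr
      _ = Real.exp x := by
        rw [sq, mul_assoc, ← Real.exp_add]
        simp

private theorem e4_bet_le (N : ℕ) (B x : ℝ) (hB : 0 < B) :
    bet N B x ≤ Real.sqrt B * Real.exp (-B / 4) ∧
      bet N B x ≤ Real.sqrt B * Real.exp (-B / 4) *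
        Real.exp (-(Real.exp (2 * x) / B) / (4 * (2 * N + 1))) := by
  have h0 : 0 ≤ Real.sqrt B * Real.exp (-B / 4) := by positivity
  have hT : 0 < Real.exp (2 * x) / B := by positivity
  unfold bet
  constructor
  · exact mul_le_of_le_one_right h0 (Xi_le_one N _ _ hT (Real.exp_pos x))
  · exact mul_le_mul_of_nonneg_left (Xi_upper N _ _ hT (Real.exp_pos x)) h0

private theorem e4_exp_le (y : ℝ) (hy : 0 < y) : Real.exp (-y) ≤ 1 / y := by
  rw [Real.exp_neg, ← one_div]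
  apply one_div_le_one_div_of_le hy
  have := Real.add_one_le_exp y
  linarith

/-- the dominating function -/
private noncomputable def e4_D (N : ℕ) (B1 B2 x : ℝ) : ℝ :=
  Real.sqrt (B1 * B2) * Real.exp (-(B1 + B2) / 4) *
    ((Iic (0:ℝ)).indicator Real.exp x +
      (Ioi (0:ℝ)).indicator (fun x => 4 * (2 * N + 1) * B1 * Real.exp (-2 * x)) x)

private theorem e4_D_int (N : ℕ) (B1 B2 : ℝ) : Integrable (e4_D N B1 B2) := by
  unfold e4_D
  apply Integrable.const_mul
  apply Integrable.add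
  · exact (integrable_indicator_iff measurableSet_Iic).2 (integrableOn_exp_Iic 0)
  · apply (integrable_indicator_iff measurableSet_Ioi).2
    exact (integrableOn_exp_mul_Ioi (by norm_num : (-2:ℝ) < 0) 0).const_mul _

private theorem e4_D_val (N : ℕ) (B1 B2 : ℝ) : ∫ x, e4_D N B1 B2 x =
    Real.sqrt (B1 * B2) * Real.exp (-(B1 + B2) / 4) * (1 + 2 * (2 * N + 1) * B1) := by
  unfold e4_D
  rw [integral_const_mul, integral_add]
  · congr 1
    rw [integral_indicator measurableSet_Iic, integral_indicator measurableSet_Ioi,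
      integral_exp_Iic_zero, integral_const_mul, integral_exp_mul_Ioi (by norm_num : (-2:ℝ) < 0) 0]
    simp only [mul_zero, Real.exp_zero]
    ring
  · exact (integrable_indicator_iff measurableSet_Iic).2 (integrableOn_exp_Iic 0)
  · apply (integrable_indicator_iff measurableSet_Ioi).2
    exact (integrableOn_exp_mul_Ioi (by norm_num : (-2:ℝ) < 0) 0).const_mul _

private theorem e4_dom (N : ℕ) (hP : ∀ t, 0 < t → PN N t ≤ 1 ∧ PN N t ≤ t) (B1 B2 : ℝ)
    (h1 : 0 < B1) (h2 : 0 < B2) (x : ℝ) :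
    sx N x * bet N B1 x * bet N B2 x ≤ e4_D N B1 B2 x := by
  obtain ⟨hs1, hs2⟩ := e4_sx_le N hP x
  obtain ⟨hb1, hb1'⟩ := e4_bet_le N B1 x h1
  obtain ⟨hb2, -⟩ := e4_bet_le N B2 x h2
  have hs0 := (sx_pos N x).le
  have hp1 := (bet_pos N B1 x h1).le
  have hp2 := (bet_pos N B2 x h2).le
  have hK : Real.sqrt (B1 * B2) * Real.exp (-(B1 + B2) / 4) =
      (Real.sqrt B1 * Real.exp (-B1 / 4)) * (Real.sqrt B2 * Real.exp (-B2 / 4)) := by
    rw [Real.sqrt_mul h1.le, show -(B1 + B2) / 4 = -B1 / 4 + -B2 / 4 by ring, Real.exp_add]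
    ring
  set K1 := Real.sqrt B1 * Real.exp (-B1 / 4) with hK1
  set K2 := Real.sqrt B2 * Real.exp (-B2 / 4) with hK2
  have hK1' : 0 ≤ K1 := by positivity
  have hK2' : 0 ≤ K2 := by positivity
  unfold e4_D
  rw [hK]
  rcases le_or_gt x 0 with hx | hx
  · rw [indicator_of_mem (show x ∈ Iic (0:ℝ) from hx),
      indicator_of_notMem (show x ∉ Ioi (0:ℝ) from not_lt.2 hx), add_zero]
    calc sx N x * bet N B1 x * bet N B2 x ≤ Real.exp x * K1 * K2 := by gcongr
      _ = K1 * K2 * Real.exp x := by ring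
  · rw [indicator_of_notMem (show x ∉ Iic (0:ℝ) from not_le.2 hx),
      indicator_of_mem (show x ∈ Ioi (0:ℝ) from hx), zero_add]
    have hy : 0 < Real.exp (2 * x) / B1 / (4 * (2 * N + 1)) := by positivity
    have h3 : Real.exp (-(Real.exp (2 * x) / B1) / (4 * (2 * N + 1))) ≤
        4 * (2 * N + 1) * B1 * Real.exp (-2 * x) := by
      have h4 := e4_exp_le _ hy
      have h5 : 1 / (Real.exp (2 * x) / B1 / (4 * (2 * N + 1))) =
          4 * (2 * N + 1) * B1 * Real.exp (-2 * x) := by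
        rw [show -2 * x = -(2 * x) by ring, Real.exp_neg]
        have := Real.exp_pos (2 * x)
        field_simp
      rw [h5] at h4
      rw [neg_div]
      exact h4
    calc sx N x * bet N B1 x * bet N B2 x
        ≤ 1 * (K1 * Real.exp (-(Real.exp (2 * x) / B1) / (4 * (2 * N + 1)))) * K2 := by
          gcongr
      _ ≤ 1 * (K1 * (4 * (2 * N + 1) * B1 * Real.exp (-2 * x))) * K2 := by gcongr
      _ = K1 * K2 * (4 * (2 * N + 1) * B1 * Real.exp (-2 * x)) := by ring

private theorem e4_nonneg (N : ℕ) (B1 B2 : ℝ) (h1 : 0 < B1) (h2 : 0 < B2) (x : ℝ) :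
    0 < sx N x * bet N B1 x * bet N B2 x :=
  mul_pos (mul_pos (sx_pos N x) (bet_pos N B1 x h1)) (bet_pos N B2 x h2)

theorem G_int (N : ℕ) (hP : ∀ t, 0 < t → PN N t ≤ 1 ∧ PN N t ≤ t) (B1 B2 : ℝ) (h1 : 0 < B1)
    (h2 : 0 < B2) : Integrable (fun x => sx N x * bet N B1 x * bet N B2 x) := by
  have hc : Continuous (fun x => sx N x * bet N B1 x * bet N B2 x) :=
    ((sx_cont N).mul (bet_cont N B1 h1)).mul (bet_cont N B2 h2)
  refine (e4_D_int N B1 B2).mono' hc.aestronglyMeasurable (Eventually.of_forall fun x => ?_)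
  rw [Real.norm_of_nonneg (e4_nonneg N B1 B2 h1 h2 x).le]
  exact e4_dom N hP B1 B2 h1 h2 x

theorem G2_pos (N : ℕ) (hP : ∀ t, 0 < t → PN N t ≤ 1 ∧ PN N t ≤ t) (B1 B2 : ℝ) (h1 : 0 < B1)
    (h2 : 0 < B2) : 0 < G2 N B1 B2 := by
  unfold G2
  rw [integral_pos_iff_support_of_nonneg (fun x => (e4_nonneg N B1 B2 h1 h2 x).le)
    (G_int N hP B1 B2 h1 h2)]
  have h3 : Function.support (fun x => sx N x * bet N B1 x * bet N B2 x) = univ := by
    ext x
    simp only [Function.mem_support, mem_univ, iff_true]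
    exact (e4_nonneg N B1 B2 h1 h2 x).ne'
  rw [h3]
  simp

theorem G2_le (N : ℕ) (hP : ∀ t, 0 < t → PN N t ≤ 1 ∧ PN N t ≤ t) (B1 B2 : ℝ) (h1 : 0 < B1)
    (h2 : 0 < B2) :
    G2 N B1 B2 ≤ Real.sqrt (B1 * B2) * Real.exp (-(B1 + B2) / 4) * (1 + 2 * (2 * N + 1) * B1) := by
  rw [← e4_D_val]
  unfold G2
  exact integral_mono (G_int N hP B1 B2 h1 h2) (e4_D_int N B1 B2)
    (fun x => e4_dom N hP B1 B2 h1 h2 x)

end LPPEnd
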