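import Pool.Agent.Lib.MP_267da7_pr.E4
import Pool.Agent.Lib.MP_267da7_pr.E2
import Pool.Agent.Lib.MP_267da7_pr.C1

/-!
# E5: log-concavity of `G2`, and convexity of `Pi^(-1/(N+1))`

(1) `bet` is log-concave jointly: `C1` for the `Xi` factor, and `sqrt B e^(-B/4)` is log-concave in `B`
(`(lam B0 + mu B1)^(1/2) >= B0^(lam/2) B1^(mu/2)` by AM-GM, the exponential is log-affine).  `sx` is log-concave by `D1` (`1 <= N`).
So for `x, y` the integrands satisfy the hypothesis of `PL` (E1), which gives `G2_logconc`.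

(2) for fixed `tau > 0` the function `r -> G2 N r (r tau)` is positive and log-concave on `(0,oo)`, so `log` of it is concave on the open set
`(0,oo)`, hence continuous (`ConcaveOn.continuousOn` or similar): `G2_ray_cont`.

(3) `Pi N tau = int_0^oo r^N G2 N r (r tau) dr`: integrable by `G2_le` (`r^N r sqrt(tau) e^(-r(1+tau)/4)(1 + 2(2N+1) r)`), positive.
`Pi_conv`: `Ball` (E2) with `f r = G2 N r (r t0)`, `g s = G2 N s (s t1)`, `h z = G2 N z (z (lam t0 + mu t1))`: with `z = 1/(lam/r + mu/s)`,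
`al = lam z/r`, `be = mu z/s`: `al + be = 1`, `al r + be s = lam z + mu z = z`, `al r t0 + be s t1 = z (lam t0 + mu t1)`, so `G2_logconc` with the
weights `al, be` is the hypothesis.  Conclusion: `ConvexOn`.
-/

open Real MeasureTheory Set Filter
open scoped Topology

namespace LPPEnd

theorem e5_bet (N : ℕ) (B0 B1 x0 x1 lam mu : ℝ) (hB0 : 0 < B0) (hB1 : 0 < B1) (hl : 0 < lam)
    (hmu : 0 < mu) (h1 : lam + mu = 1) :
    bet N B0 x0 ^ lam * bet N B1 x1 ^ mu ≤ bet N (lam * B0 + mu * B1) (lam * x0 + mu * x1) := by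
  have hC := C1 N B0 B1 x0 x1 lam mu hB0 hB1 hl hmu h1
  have hX0 : 0 < Xi N (Real.exp (2 * x0) / B0) (Real.exp x0) :=
    Xi_pos N _ _ (by positivity) (Real.exp_pos _)
  have hX1 : 0 < Xi N (Real.exp (2 * x1) / B1) (Real.exp x1) :=
    Xi_pos N _ _ (by positivity) (Real.exp_pos _)
  have hs : √B0 ^ lam * √B1 ^ mu ≤ √(lam * B0 + mu * B1) := by
    have hg := Real.geom_mean_le_arith_mean2_weighted hl.le hmu.le hB0.le hB1.le h1
    have h2 := Real.sqrt_le_sqrt hg
    refine le_trans (le_of_eq ?_) h2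
    rw [Real.sqrt_mul (by positivity), Real.sqrt_eq_rpow, Real.sqrt_eq_rpow, Real.sqrt_eq_rpow,
      Real.sqrt_eq_rpow, ← Real.rpow_mul hB0.le, ← Real.rpow_mul hB1.le, ← Real.rpow_mul hB0.le,
      ← Real.rpow_mul hB1.le, mul_comm lam, mul_comm mu]
  have he : Real.exp (-B0 / 4) ^ lam * Real.exp (-B1 / 4) ^ mu =
      Real.exp (-(lam * B0 + mu * B1) / 4) := by
    rw [← Real.exp_mul, ← Real.exp_mul, ← Real.exp_add]
    congr 1
    ring
  unfold bet
  rw [Real.mul_rpow (by positivity) hX0.le, Real.mul_rpow (by positivity) (by positivity),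
    Real.mul_rpow (by positivity) hX1.le, Real.mul_rpow (by positivity) (by positivity)]
  have e : √B0 ^ lam * Real.exp (-B0 / 4) ^ lam *
      Xi N (Real.exp (2 * x0) / B0) (Real.exp x0) ^ lam *
      (√B1 ^ mu * Real.exp (-B1 / 4) ^ mu * Xi N (Real.exp (2 * x1) / B1) (Real.exp x1) ^ mu) =
      (√B0 ^ lam * √B1 ^ mu) * (Real.exp (-B0 / 4) ^ lam * Real.exp (-B1 / 4) ^ mu) *
      (Xi N (Real.exp (2 * x0) / B0) (Real.exp x0) ^ lam *
        Xi N (Real.exp (2 * x1) / B1) (Real.exp x1) ^ mu) := by ring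
  rw [e, he]
  refine mul_le_mul (mul_le_mul_of_nonneg_right hs (Real.exp_pos _).le) hC ?_ (by positivity)
  exact mul_nonneg (Real.rpow_nonneg hX0.le _) (Real.rpow_nonneg hX1.le _)

theorem G2_logconc (N : ℕ) (hN : 1 ≤ N) (hP : ∀ t, 0 < t → PN N t ≤ 1 ∧ PN N t ≤ t)
    (a1 a2 b1 b2 lam mu : ℝ) (ha1 : 0 < a1) (ha2 : 0 < a2) (hb1 : 0 < b1) (hb2 : 0 < b2)
    (hl : 0 < lam) (hmu : 0 < mu) (h1 : lam + mu = 1) :
    G2 N a1 a2 ^ lam * G2 N b1 b2 ^ mu ≤ G2 N (lam * a1 + mu * b1) (lam * a2 + mu * b2) := by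
  have hc1 : 0 < lam * a1 + mu * b1 := by positivity
  have hc2 : 0 < lam * a2 + mu * b2 := by positivity
  have pos : ∀ B1 B2 x : ℝ, 0 < B1 → 0 < B2 → 0 < sx N x * bet N B1 x * bet N B2 x :=
    fun B1 B2 x h h' => mul_pos (mul_pos (sx_pos N x) (bet_pos N B1 x h)) (bet_pos N B2 x h')
  have con : ∀ B1 B2 : ℝ, 0 < B1 → 0 < B2 →
      Continuous (fun x => sx N x * bet N B1 x * bet N B2 x) :=
    fun B1 B2 h h' => ((sx_cont N).mul (bet_cont N B1 h)).mul (bet_cont N B2 h')
  refine PL _ _ _ (con a1 a2 ha1 ha2) (con b1 b2 hb1 hb2) (con _ _ hc1 hc2)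
    (fun x => pos _ _ x ha1 ha2) (fun x => pos _ _ x hb1 hb2) (fun x => pos _ _ x hc1 hc2)
    (G_int N hP _ _ ha1 ha2) (G_int N hP _ _ hb1 hb2) (G_int N hP _ _ hc1 hc2) lam mu hl hmu h1 ?_
  intro x y
  have hD := D1 N hN x y lam mu hl hmu h1
  have hB1 := e5_bet N a1 b1 x y lam mu ha1 hb1 hl hmu h1
  have hB2 := e5_bet N a2 b2 x y lam mu ha2 hb2 hl hmu h1
  have p1 := sx_pos N x
  have p2 := sx_pos N y
  have p3 := bet_pos N a1 x ha1
  have p4 := bet_pos N a2 x ha2
  have p5 := bet_pos N b1 y hb1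
  have p6 := bet_pos N b2 y hb2
  have hS : sx N x ^ lam * sx N y ^ mu ≤ sx N (lam * x + mu * y) := hD
  rw [Real.mul_rpow (by positivity) p4.le, Real.mul_rpow p1.le p3.le,
    Real.mul_rpow (by positivity) p6.le, Real.mul_rpow p2.le p5.le]
  have e : sx N x ^ lam * bet N a1 x ^ lam * bet N a2 x ^ lam *
      (sx N y ^ mu * bet N b1 y ^ mu * bet N b2 y ^ mu) =
      (sx N x ^ lam * sx N y ^ mu) * (bet N a1 x ^ lam * bet N b1 y ^ mu) *
        (bet N a2 x ^ lam * bet N b2 y ^ mu) := by ring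
  rw [e]
  have q1 := sx_pos N (lam * x + mu * y)
  have q2 := bet_pos N _ (lam * x + mu * y) hc1
  have q3 := bet_pos N _ (lam * x + mu * y) hc2
  exact mul_le_mul (mul_le_mul hS hB1 (by positivity) q1.le) hB2 (by positivity) (by positivity)

theorem G2_ray_cont (N : ℕ) (hN : 1 ≤ N) (hP : ∀ t, 0 < t → PN N t ≤ 1 ∧ PN N t ≤ t) (tau : ℝ)
    (ht : 0 < tau) : ContinuousOn (fun r => G2 N r (r * tau)) (Ioi 0) := by
  have hpos : ∀ r : ℝ, 0 < r → 0 < G2 N r (r * tau) := fun r hr =>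
    G2_pos N hP r (r * tau) hr (by positivity)
  have hcv : ConcaveOn ℝ (Ioi (0:ℝ)) (fun r => Real.log (G2 N r (r * tau))) := by
    rw [concaveOn_iff_forall_pos]
    refine ⟨convex_Ioi 0, fun x hx y hy a b ha hb hab => ?_⟩
    have hx' : 0 < x := hx
    have hy' : 0 < y := hy
    have h := G2_logconc N hN hP x (x * tau) y (y * tau) a b hx' (by positivity) hy'
      (by positivity) ha hb hab
    have e : a * (x * tau) + b * (y * tau) = (a * x + b * y) * tau := by ring
    rw [e] at h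
    have p1 := hpos x hx'
    have p2 := hpos y hy'
    have h2 := Real.log_le_log (mul_pos (Real.rpow_pos_of_pos p1 a) (Real.rpow_pos_of_pos p2 b)) h
    rw [Real.log_mul (Real.rpow_pos_of_pos p1 a).ne' (Real.rpow_pos_of_pos p2 b).ne',
      Real.log_rpow p1, Real.log_rpow p2] at h2
    simpa [smul_eq_mul] using h2
  have hco := hcv.continuousOn isOpen_Ioi
  refine (hco.rexp).congr fun r hr => ?_
  exact (Real.exp_log (hpos r hr)).symm

noncomputable def PiF (N : ℕ) (tau : ℝ) : ℝ := ∫ r in Ioi (0:ℝ), r ^ N * G2 N r (r * tau)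

theorem e5_mom (k : ℕ) (b : ℝ) (hb : 0 < b) :
    IntegrableOn (fun r : ℝ => r ^ k * Real.exp (-b * r)) (Ioi 0) := by
  have h := integrableOn_rpow_mul_exp_neg_mul_rpow (p := 1) (s := (k : ℝ)) (b := b)
    (by have : (0:ℝ) ≤ k := Nat.cast_nonneg k
        linarith) one_pos hb
  refine h.congr_fun (fun r _ => ?_) measurableSet_Ioi
  simp only [Real.rpow_natCast, Real.rpow_one]

theorem Pi_int (N : ℕ) (hN : 1 ≤ N) (hP : ∀ t, 0 < t → PN N t ≤ 1 ∧ PN N t ≤ t) (tau : ℝ)
    (ht : 0 < tau) : IntegrableOn (fun r => r ^ N * G2 N r (r * tau)) (Ioi 0) := by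
  have hb : 0 < (1 + tau) / 4 := by positivity
  have i1 := (e5_mom (N + 1) _ hb).const_mul √tau
  have i2 := (e5_mom (N + 2) _ hb).const_mul (√tau * (2 * (2 * N + 1)))
  have i3 := i1.add i2
  refine Integrable.mono' i3 ?_ ?_
  · refine ContinuousOn.aestronglyMeasurable ?_ measurableSet_Ioi
    exact (continuous_pow N).continuousOn.mul (G2_ray_cont N hN hP tau ht)
  · refine (ae_restrict_iff' measurableSet_Ioi).2 (Filter.Eventually.of_forall fun r hr => ?_)
    have hr' : 0 < r := hr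
    have p1 := G2_pos N hP r (r * tau) hr' (by positivity)
    have hle := G2_le N hP r (r * tau) hr' (by positivity)
    rw [Real.norm_of_nonneg (by positivity)]
    have es : √(r * (r * tau)) = r * √tau := by
      rw [← mul_assoc, Real.sqrt_mul (by positivity), Real.sqrt_mul_self hr'.le]
    have ee : -(r + r * tau) / 4 = -((1 + tau) / 4) * r := by ring
    rw [es, ee] at hle
    calc r ^ N * G2 N r (r * tau) ≤ r ^ N * (r * √tau * Real.exp (-((1 + tau) / 4) * r) *
          (1 + 2 * (2 * N + 1) * r)) := mul_le_mul_of_nonneg_left hle (by positivity)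
      _ = (fun r : ℝ => √tau * (r ^ (N + 1) * Real.exp (-((1 + tau) / 4) * r))) r +
          (fun r : ℝ => √tau * (2 * (2 * N + 1)) *
            (r ^ (N + 2) * Real.exp (-((1 + tau) / 4) * r))) r := by
        simp only [pow_succ]
        ring

theorem Pi_pos (N : ℕ) (hN : 1 ≤ N) (hP : ∀ t, 0 < t → PN N t ≤ 1 ∧ PN N t ≤ t) (tau : ℝ)
    (ht : 0 < tau) : 0 < PiF N tau := by
  have hpos : ∀ r : ℝ, r ∈ Ioi (0:ℝ) → 0 < r ^ N * G2 N r (r * tau) := fun r hr => by
    have hr' : 0 < r := hr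
    exact mul_pos (pow_pos hr' N) (G2_pos N hP r (r * tau) hr' (by positivity))
  unfold PiF
  rw [setIntegral_pos_iff_support_of_nonneg_ae _ (Pi_int N hN hP tau ht)]
  · have e : Function.support (fun r => r ^ N * G2 N r (r * tau)) ∩ Ioi 0 = Ioi 0 := by
      refine Set.inter_eq_right.2 fun r hr => ?_
      exact (hpos r hr).ne'
    rw [e]
    simp
  · refine (ae_restrict_iff' measurableSet_Ioi).2 (Filter.Eventually.of_forall fun r hr => ?_)
    exact (hpos r hr).le

theorem Pi_conv (N : ℕ) (hN : 1 ≤ N) (hP : ∀ t, 0 < t → PN N t ≤ 1 ∧ PN N t ≤ t) :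
    ConvexOn ℝ (Ioi 0) (fun tau => PiF N tau ^ (-(1:ℝ) / (N + 1))) := by
  rw [convexOn_iff_forall_pos]
  refine ⟨convex_Ioi 0, fun t0 h0 t1 ht1 lam mu hl hmu h1 => ?_⟩
  have h0' : 0 < t0 := h0
  have ht1' : 0 < t1 := ht1
  have hm : 0 < lam * t0 + mu * t1 := by positivity
  simp only [smul_eq_mul]
  unfold PiF
  refine Ball N (fun r => G2 N r (r * t0)) (fun r => G2 N r (r * t1))
    (fun r => G2 N r (r * (lam * t0 + mu * t1)))
    (G2_ray_cont N hN hP t0 h0') (G2_ray_cont N hN hP t1 ht1') (G2_ray_cont N hN hP _ hm)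
    (fun r hr => G2_pos N hP _ _ hr (by positivity))
    (fun r hr => G2_pos N hP _ _ hr (by positivity))
    (fun r hr => G2_pos N hP _ _ hr (by positivity))
    (Pi_int N hN hP t0 h0') (Pi_int N hN hP t1 ht1') (Pi_int N hN hP _ hm) lam mu hl hmu h1 ?_
  intro r s hr hs
  have hden : 0 < lam / r + mu / s := by positivity
  set z := 1 / (lam / r + mu / s) with hz
  have hzp : 0 < z := by positivity
  have hz1 : z * (lam / r + mu / s) = 1 := by
    rw [hz]
    field_simp
  have hal : 0 < lam * z / r := by positivity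
  have hbe : 0 < mu * z / s := by positivity
  have hsum : lam * z / r + mu * z / s = 1 := by
    rw [← hz1]
    ring
  have h := G2_logconc N hN hP r (r * t0) s (s * t1) _ _ hr (by positivity) hs (by positivity)
    hal hbe hsum
  have ea : lam * z / r * r = lam * z := by field_simp
  have eb : mu * z / s * s = mu * z := by field_simp
  have e1 : lam * z / r * r + mu * z / s * s = z := by
    rw [ea, eb, ← add_mul, h1, one_mul]
  have e2 : lam * z / r * (r * t0) + mu * z / s * (s * t1) = z * (lam * t0 + mu * t1) := by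
    rw [← mul_assoc, ea, ← mul_assoc, eb]
    ring
  rw [e1, e2] at h
  exact h

end LPPEnd
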