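import Pool.Agent.Lib.MP_267da7_pr.E4

/-!
# E6: `psi` in the variable `B = m^2/T`

For `m = e^x` substitute `T = m^2/B` in `psi N a m = int_0^oo T^a/a! (1/2)^N m^(N+1) T^(-N-3/2) e^(-m^2/(4T)) Xi N T m dT`
(`dT = m^2 B^(-2) dB`, `m^2/(4T) = B/4`): the powers are `m^(2a - N) B^(N - a - 1/2)`, so
`psi N a (e^x) = ((1/2)^N/a!) e^((2a-N)x) int_(B>0) B^(N-1-a) bet N B x dB`   for `a + 1 <= N`
(`B^(N-a-1/2) e^(-B/4) = B^(N-1-a) sqrt B e^(-B/4)`).
The integrability of `B^(N-1-a) bet N B x` on `(0,oo)` follows from `0 < bet <= sqrt B e^(-B/4)`, and `psi N a m > 0`.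
-/

open Real MeasureTheory Set Filter
open scoped Topology

namespace LPPEnd

theorem bet_mom_int (N j : ℕ) (x : ℝ) : IntegrableOn (fun B => B ^ j * bet N B x) (Ioi 0) := by
  have hdom : IntegrableOn (fun B : ℝ => B ^ ((j : ℝ) + 1 / 2) * Real.exp (-(1 / 4) * B ^ (1 : ℝ)))
      (Ioi 0) :=
    integrableOn_rpow_mul_exp_neg_mul_rpow (by have : (0:ℝ) ≤ j := Nat.cast_nonneg j; linarith)
      one_pos (by norm_num)
  refine Integrable.mono' hdom ?_ ?_
  · refine ContinuousOn.aestronglyMeasurable ?_ measurableSet_Ioi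
    refine (continuousOn_pow j).mul ?_
    have h1 : ContinuousOn (fun B : ℝ => (B, x)) (Ioi 0) := by fun_prop
    exact (bet_cont2 N).comp h1 (fun B hB => ⟨hB, mem_univ _⟩)
  · refine (ae_restrict_iff' measurableSet_Ioi).2 (Eventually.of_forall fun B hB => ?_)
    have hB' : (0:ℝ) < B := hB
    have hb := bet_pos N B x hB'
    rw [Real.norm_eq_abs, abs_of_pos (by positivity)]
    have hle : Xi N (Real.exp (2 * x) / B) (Real.exp x) ≤ 1 :=
      Xi_le_one N _ _ (by positivity) (Real.exp_pos x)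
    have h2 : bet N B x ≤ Real.sqrt B * Real.exp (-B / 4) := by
      unfold bet
      exact mul_le_of_le_one_right (by positivity) hle
    calc B ^ j * bet N B x ≤ B ^ j * (Real.sqrt B * Real.exp (-B / 4)) :=
          mul_le_mul_of_nonneg_left h2 (by positivity)
      _ = B ^ ((j : ℝ) + 1 / 2) * Real.exp (-(1 / 4) * B ^ (1 : ℝ)) := by
          rw [Real.rpow_add hB', Real.rpow_natCast, Real.sqrt_eq_rpow, Real.rpow_one]
          rw [show -(1 / 4) * B = -B / 4 by ring]
          ring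

private theorem e6_point (N a : ℕ) (ha : a + 1 ≤ N) (x B : ℝ) (hB : 0 < B) :
    |-(Real.exp (2 * x) / B ^ 2)| * ((Real.exp (2 * x) / B) ^ a / (a.factorial : ℝ) *
      Om N (Real.exp (2 * x) / B) (Real.exp x)) =
    (1 / 2) ^ N / (a.factorial : ℝ) * Real.exp ((2 * a - N) * x) *
      (B ^ (N - 1 - a) * bet N B x) := by
  obtain ⟨d, rfl⟩ : ∃ d, N = a + 1 + d := ⟨N - (a + 1), by omega⟩
  have hd : a + 1 + d - 1 - a = d := by omega
  rw [hd, abs_neg, abs_of_pos (by positivity)]
  unfold Om bet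
  have h1 : (Real.exp (2 * x) / B) ^ (-((a + 1 + d : ℕ) : ℝ) - 3 / 2) =
      Real.exp (2 * x * (-((a + 1 + d : ℕ) : ℝ) - 3 / 2)) * (B ^ (a + d + 2) * Real.sqrt B) := by
    rw [Real.div_rpow (Real.exp_pos _).le hB.le, ← Real.exp_mul, div_eq_mul_inv,
      ← Real.rpow_neg hB.le]
    congr 1
    rw [Real.sqrt_eq_rpow, ← Real.rpow_natCast, ← Real.rpow_add hB]
    congr 1
    push_cast
    ring
  have h2 : -Real.exp x ^ 2 / (4 * (Real.exp (2 * x) / B)) = -B / 4 := by
    have h3 : Real.exp x ^ 2 = Real.exp (2 * x) := by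
      rw [← Real.exp_nat_mul]
      norm_num
    rw [h3]
    have := (Real.exp_pos (2 * x)).ne'
    field_simp
  rw [h1, h2]
  have h4 : Real.exp x ^ (a + 1 + d + 1) = Real.exp ((a + 1 + d + 1 : ℕ) * x) := by
    rw [← Real.exp_nat_mul]
  have h5 : Real.exp (2 * x) * Real.exp (2 * x) ^ a * Real.exp ((a + 1 + d + 1 : ℕ) * x) *
      Real.exp (2 * x * (-((a + 1 + d : ℕ) : ℝ) - 3 / 2)) =
      Real.exp ((2 * a - (a + 1 + d : ℕ)) * x) := by
    rw [← Real.exp_nat_mul, ← Real.exp_add, ← Real.exp_add, ← Real.exp_add]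
    congr 1
    push_cast
    ring
  rw [h4, ← h5]
  have hf : (a.factorial : ℝ) ≠ 0 := by positivity
  have hBn : B ≠ 0 := hB.ne'
  rw [div_pow]
  field_simp
  ring

theorem psi_bet (N a : ℕ) (ha : a + 1 ≤ N) (x : ℝ) :
    psi N a (Real.exp x) = (1 / 2) ^ N / (a.factorial : ℝ) * Real.exp ((2 * a - N) * x) *
      ∫ B in Ioi (0:ℝ), B ^ (N - 1 - a) * bet N B x := by
  have himg : (fun B : ℝ => Real.exp (2 * x) / B) '' Ioi 0 = Ioi 0 := by
    ext T
    constructor
    · rintro ⟨B, hB, rfl⟩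
      exact div_pos (Real.exp_pos _) hB
    · intro hT
      refine ⟨Real.exp (2 * x) / T, div_pos (Real.exp_pos _) hT, ?_⟩
      have hT' : T ≠ 0 := ne_of_gt hT
      have := (Real.exp_pos (2 * x)).ne'
      field_simp
  have hder : ∀ B ∈ Ioi (0:ℝ), HasDerivWithinAt (fun B : ℝ => Real.exp (2 * x) / B)
      (-(Real.exp (2 * x) / B ^ 2)) (Ioi 0) B := by
    intro B hB
    have hB' : B ≠ 0 := ne_of_gt hB
    have h := ((hasDerivAt_inv hB').const_mul (Real.exp (2 * x))).hasDerivWithinAt (s := Ioi 0)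
    have e : Real.exp (2 * x) * -(B ^ 2)⁻¹ = -(Real.exp (2 * x) / B ^ 2) := by
      rw [div_eq_mul_inv]; ring
    rw [e] at h
    exact h
  have hinj : InjOn (fun B : ℝ => Real.exp (2 * x) / B) (Ioi 0) := by
    intro B hB B' hB' h
    have h1 : B ≠ 0 := ne_of_gt hB
    have h2 : B' ≠ 0 := ne_of_gt hB'
    have h3 := (Real.exp_pos (2 * x)).ne'
    have h' : Real.exp (2 * x) / B = Real.exp (2 * x) / B' := h
    field_simp at h'
    exact h'.symm
  have key := integral_image_eq_integral_abs_deriv_smul measurableSet_Ioi hder hinj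
    (fun T => T ^ a / (a.factorial : ℝ) * Om N T (Real.exp x))
  rw [himg] at key
  unfold psi
  rw [key, ← integral_const_mul]
  refine setIntegral_congr_fun measurableSet_Ioi fun B hB => ?_
  exact e6_point N a ha x B hB

private theorem e6_int (N a : ℕ) (m : ℝ) (hm : 0 < m) :
    IntegrableOn (fun T => T ^ a / (a.factorial : ℝ) * Om N T m) (Ioi 0) := by
  have hu : (0:ℝ) < 1 / (4 * (2 * N + 1)) := by positivity
  have hdom : IntegrableOn (fun T : ℝ => T ^ ((a : ℝ) + 1 / 2) *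
      Real.exp (-(1 / (4 * (2 * N + 1))) * T ^ (1 : ℝ))) (Ioi 0) :=
    integrableOn_rpow_mul_exp_neg_mul_rpow (by have : (0:ℝ) ≤ a := Nat.cast_nonneg a; linarith)
      one_pos hu
  set C : ℝ := 1 / (a.factorial : ℝ) * ((1 / 2) ^ N * m ^ (N + 1)) *
    (((N + 2).factorial : ℝ) * (4 / m ^ 2) ^ (N + 2)) with hC
  refine Integrable.mono' (hdom.const_mul C) ?_ ?_
  · refine ContinuousOn.aestronglyMeasurable ?_ measurableSet_Ioi
    unfold Om
    refine ContinuousOn.mul (by fun_prop) ?_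
    refine ContinuousOn.mul ?_ ?_
    · refine ContinuousOn.mul ?_ ?_
      · refine ContinuousOn.mul (by fun_prop) ?_
        exact fun T hT => (Real.continuousAt_rpow_const T _
          (Or.inl (ne_of_gt hT))).continuousWithinAt
      · refine Real.continuous_exp.comp_continuousOn ?_
        refine ContinuousOn.div (by fun_prop) (by fun_prop) fun T hT => ?_
        have : (0:ℝ) < T := hT
        positivity
    · have h1 : ContinuousOn (fun T : ℝ => (T, m)) (Ioi 0) := by fun_prop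
      exact (Xi_contOn N).comp h1 (fun T _ => ⟨mem_univ _, hm⟩)
  · refine (ae_restrict_iff' measurableSet_Ioi).2 (Eventually.of_forall fun T hT => ?_)
    have hT' : (0:ℝ) < T := hT
    have hXp := Xi_pos N T m hT' hm
    have hXu := Xi_upper N T m hT' hm
    have hOm : 0 < Om N T m := by
      unfold Om
      have := Real.rpow_pos_of_pos hT' (-(N : ℝ) - 3 / 2)
      positivity
    rw [Real.norm_eq_abs, abs_of_pos (by positivity)]
    have hy : 0 < m ^ 2 / (4 * T) := by positivity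
    have h1 : Real.exp (-m ^ 2 / (4 * T)) ≤
        ((N + 2).factorial : ℝ) * (4 / m ^ 2) ^ (N + 2) * T ^ (N + 2) := by
      have h2 := Real.pow_div_factorial_le_exp (m ^ 2 / (4 * T)) hy.le (N + 2)
      have h3 : Real.exp (-m ^ 2 / (4 * T)) = (Real.exp (m ^ 2 / (4 * T)))⁻¹ := by
        rw [← Real.exp_neg]
        congr 1
        ring
      rw [h3]
      have h4 : 0 < (m ^ 2 / (4 * T)) ^ (N + 2) / ((N + 2).factorial : ℝ) := by positivity
      calc (Real.exp (m ^ 2 / (4 * T)))⁻¹ ≤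
            ((m ^ 2 / (4 * T)) ^ (N + 2) / ((N + 2).factorial : ℝ))⁻¹ := inv_anti₀ h4 h2
        _ = ((N + 2).factorial : ℝ) * (4 / m ^ 2) ^ (N + 2) * T ^ (N + 2) := by
            rw [inv_div, div_eq_mul_inv, ← inv_pow, mul_assoc, ← mul_pow]
            congr 2
            rw [inv_div]
            field_simp
    have hr : T ^ (-(N : ℝ) - 3 / 2) * T ^ (N + 2) = T ^ ((1:ℝ) / 2) := by
      rw [← Real.rpow_natCast, ← Real.rpow_add hT']
      congr 1
      push_cast
      ring
    have hTr := Real.rpow_pos_of_pos hT' (-(N : ℝ) - 3 / 2)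
    calc T ^ a / (a.factorial : ℝ) * Om N T m
        = T ^ a / (a.factorial : ℝ) * ((1 / 2) ^ N * m ^ (N + 1) * T ^ (-(N : ℝ) - 3 / 2) *
            Real.exp (-m ^ 2 / (4 * T)) * Xi N T m) := rfl
      _ ≤ T ^ a / (a.factorial : ℝ) * ((1 / 2) ^ N * m ^ (N + 1) * T ^ (-(N : ℝ) - 3 / 2) *
            (((N + 2).factorial : ℝ) * (4 / m ^ 2) ^ (N + 2) * T ^ (N + 2)) *
            Real.exp (-T / (4 * (2 * N + 1)))) := by
          apply mul_le_mul_of_nonneg_left _ (by positivity)
          apply mul_le_mul _ hXu hXp.le (by positivity)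
          exact mul_le_mul_of_nonneg_left h1 (by positivity)
      _ = C * (T ^ ((a : ℝ) + 1 / 2) * Real.exp (-(1 / (4 * (2 * N + 1))) * T ^ (1 : ℝ))) := by
          rw [hC, Real.rpow_add hT', Real.rpow_natCast, Real.rpow_one, ← hr]
          have e : -(1 / (4 * (2 * (N:ℝ) + 1))) * T = -T / (4 * (2 * N + 1)) := by ring
          rw [e]
          ring

theorem psi_pos (N a : ℕ) (m : ℝ) (hm : 0 < m) : 0 < psi N a m := by
  have hpos : ∀ T : ℝ, 0 < T → 0 < T ^ a / (a.factorial : ℝ) * Om N T m := by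
    intro T hT
    have hXp := Xi_pos N T m hT hm
    have := Real.rpow_pos_of_pos hT (-(N : ℝ) - 3 / 2)
    unfold Om
    positivity
  unfold psi
  rw [setIntegral_pos_iff_support_of_nonneg_ae _ (e6_int N a m hm)]
  · have : Function.support (fun T => T ^ a / (a.factorial : ℝ) * Om N T m) ∩ Ioi 0 = Ioi 0 := by
      apply inter_eq_right.2
      intro T hT
      exact (hpos T hT).ne'
    rw [this, Real.volume_Ioi]
    exact ENNReal.coe_lt_top
  · exact (ae_restrict_iff' measurableSet_Ioi).2 (Eventually.of_forall fun T hT => (hpos T hT).le)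

end LPPEnd
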