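import Pool.Agent.Lib.MP_267da7_pr.E5
import Pool.Agent.Lib.MP_267da7_pr.E6
import Pool.Agent.Lib.MP_267da7_pr.E3

/-!
# E7: the integral identity and the log-concavity of `int S psi_a psi_(N-1-a)`

For `j + 1 <= N`, `b = N-1-j`:
`int_(m>0) S_N(m) psi_j(m) psi_b(m) dm = (4^(-N)/(j! b!)) int_(tau>0) tau^j PiF N tau dtau`.
Substitute `m = e^x` (`dm = e^x dx`), insert `psi_bet` twice: `e^x e^((2j-N)x) e^((2b-N)x) S(e^x) = e^(-x) S(e^x) = sx N x` (`2j+2b-2N = -2`), so
`LHS = (4^(-N)/(j! b!)) int_x sx N x (int_B1 B1^b bet N B1 x)(int_B2 B2^j bet N B2 x) dx`; all integrands are nonnegative and jointly measurable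
(continuous on `(0,oo)^2 x R`), so by Tonelli (work with `lintegral`) `= (...) int_B1 int_B2 B1^b B2^j G2 N B1 B2`; substitute `B2 = B1 tau` for fixed
`B1`: `B1^b (B1 tau)^j B1 = B1^N tau^j`; swap again: `int_tau tau^j int_B1 B1^N G2 N B1 (B1 tau) = int_tau tau^j PiF N tau`.
Finiteness (`tau^j PiF N tau` integrable for `j <= N-1`): by `G2_le`, `PiF N tau <= sqrt tau int r^(N+1) e^(-r(1+tau)/4)(1 + 2(2N+1) r) dr
= C1 sqrt tau (1+tau)^(-N-2) + C2 sqrt tau (1+tau)^(-N-3)`, and `j + 1/2 - N - 2 <= -5/2`.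
(One may prove the identity for `lintegral` with `ENNReal.ofReal` first and convert with the finiteness.)

`Emain`: `sign_arg` (E3) with `pi = PiF N` (`Pi_pos`, `Pi_conv`, `int_S` part 1); the constants `4^(-N)` cancel.
-/

open Real MeasureTheory Set Filter
open scoped Topology

namespace LPPEnd

private theorem e7_bet_meas (N : ℕ) : Measurable (fun p : ℝ × ℝ => bet N p.1 p.2) := by
  unfold bet Xi
  have hc : ∀ i, Measurable (fun p : ℝ × ℝ => c N (i + 1) (Real.exp p.2)) := by
    intro i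
    have h : Continuous (fun x : ℝ => c N (i + 1) (Real.exp x)) :=
      (c_smooth N (i + 1)).continuousOn.comp_continuous Real.continuous_exp fun x => Real.exp_pos x
    exact h.measurable.comp measurable_snd
  have hT : Measurable (fun p : ℝ × ℝ => Real.exp (2 * p.2) / p.1) := by fun_prop
  refine Measurable.mul (by fun_prop) (Measurable.mul (by fun_prop) ?_)
  exact Finset.measurable_fun_sum _ fun i _ => (hc i).mul (hT.pow_const i)

private theorem e7_G2_meas (N : ℕ) : StronglyMeasurable (fun p : ℝ × ℝ => G2 N p.1 p.2) := by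
  have h1 : Measurable (fun q : (ℝ × ℝ) × ℝ => sx N q.2 * bet N q.1.1 q.2 * bet N q.1.2 q.2) := by
    have hs : Measurable (sx N) := (sx_cont N).measurable
    have hb := e7_bet_meas N
    exact ((hs.comp measurable_snd).mul
      (hb.comp ((measurable_fst.comp measurable_fst).prodMk measurable_snd))).mul
      (hb.comp ((measurable_snd.comp measurable_fst).prodMk measurable_snd))
  exact h1.stronglyMeasurable.integral_prod_right'

private theorem e7_restr : (volume : Measure (ℝ × ℝ)).restrict (Ioi (0:ℝ) ×ˢ Ioi (0:ℝ)) =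
    ((volume : Measure ℝ).restrict (Ioi 0)).prod ((volume : Measure ℝ).restrict (Ioi 0)) := by
  rw [Measure.prod_restrict]
  rfl

private theorem e7_ae (p : ℝ × ℝ → Prop) (h : ∀ x : ℝ × ℝ, 0 < x.1 → 0 < x.2 → p x) :
    ∀ᵐ x ∂(((volume : Measure ℝ).restrict (Ioi 0)).prod ((volume : Measure ℝ).restrict (Ioi 0))), p x := by
  rw [← e7_restr, ae_restrict_iff' (measurableSet_Ioi.prod measurableSet_Ioi)]
  exact Eventually.of_forall fun x hx => h x hx.1 hx.2

private theorem e7_exp_int (k : ℕ) : IntegrableOn (fun B : ℝ => B ^ k * Real.sqrt B * Real.exp (-B / 4)) (Ioi 0) := by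
  have h := integrableOn_rpow_mul_exp_neg_mul_rpow (p := 1) (s := (k : ℝ) + 1 / 2) (b := 1 / 4)
    (by have := (Nat.cast_nonneg k : (0:ℝ) ≤ k); linarith) one_pos (by norm_num)
  refine h.congr_fun ?_ measurableSet_Ioi
  intro x hx
  have hx0 : (0:ℝ) < x := hx
  simp only
  rw [Real.rpow_add hx0, Real.rpow_natCast, Real.rpow_one, ← Real.sqrt_eq_rpow]
  congr 2
  ring

private theorem e7_F_int (N : ℕ) (hP : ∀ t, 0 < t → PN N t ≤ 1 ∧ PN N t ≤ t) (b j : ℕ) :
    Integrable (fun p : ℝ × ℝ => p.1 ^ b * p.2 ^ j * G2 N p.1 p.2)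
      (((volume : Measure ℝ).restrict (Ioi 0)).prod ((volume : Measure ℝ).restrict (Ioi 0))) := by
  have h1 : Integrable (fun B : ℝ => B ^ b * Real.sqrt B * Real.exp (-B / 4) +
      2 * (2 * N + 1) * (B ^ (b + 1) * Real.sqrt B * Real.exp (-B / 4))) ((volume : Measure ℝ).restrict (Ioi 0)) :=
    (e7_exp_int b).add ((e7_exp_int (b + 1)).const_mul _)
  have h2 : Integrable (fun B : ℝ => B ^ j * Real.sqrt B * Real.exp (-B / 4)) ((volume : Measure ℝ).restrict (Ioi 0)) :=
    e7_exp_int j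
  refine Integrable.mono' (h1.mul_prod h2) ?_ ?_
  · refine (Measurable.aestronglyMeasurable ?_)
    exact ((measurable_fst.pow_const b).mul (measurable_snd.pow_const j)).mul (e7_G2_meas N).measurable
  · refine e7_ae _ fun x hx hy => ?_
    have hG := G2_le N hP x.1 x.2 hx hy
    have hG0 := G2_pos N hP x.1 x.2 hx hy
    rw [Real.norm_of_nonneg (by positivity)]
    calc x.1 ^ b * x.2 ^ j * G2 N x.1 x.2 ≤ x.1 ^ b * x.2 ^ j *
        (Real.sqrt (x.1 * x.2) * Real.exp (-(x.1 + x.2) / 4) * (1 + 2 * (2 * N + 1) * x.1)) :=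
          mul_le_mul_of_nonneg_left hG (by positivity)
      _ = _ := by
          have e : Real.exp (-(x.1 + x.2) / 4) = Real.exp (-x.1 / 4) * Real.exp (-x.2 / 4) := by
            rw [← Real.exp_add]
            congr 1
            ring
          rw [Real.sqrt_mul hx.le, e]
          ring

private theorem e7_Phi_int (N : ℕ) (hP : ∀ t, 0 < t → PN N t ≤ 1 ∧ PN N t ≤ t) (b j : ℕ) :
    Integrable (fun q : ℝ × (ℝ × ℝ) => q.2.1 ^ b * q.2.2 ^ j * (sx N q.1 * bet N q.2.1 q.1 * bet N q.2.2 q.1))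
      ((volume : Measure ℝ).prod
        (((volume : Measure ℝ).restrict (Ioi 0)).prod ((volume : Measure ℝ).restrict (Ioi 0)))) := by
  have hs : Measurable (sx N) := (sx_cont N).measurable
  have hb := e7_bet_meas N
  have hmeas : Measurable (fun q : ℝ × (ℝ × ℝ) => q.2.1 ^ b * q.2.2 ^ j * (sx N q.1 * bet N q.2.1 q.1 * bet N q.2.2 q.1)) := by
    refine Measurable.mul (by fun_prop) ?_
    exact ((hs.comp measurable_fst).mul
      (hb.comp ((measurable_fst.comp measurable_snd).prodMk measurable_fst))).mul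
      (hb.comp ((measurable_snd.comp measurable_snd).prodMk measurable_fst))
  rw [integrable_prod_iff' hmeas.aestronglyMeasurable]
  constructor
  · refine e7_ae _ fun x hx hy => ?_
    exact (G_int N hP x.1 x.2 hx hy).const_mul (x.1 ^ b * x.2 ^ j)
  · refine (e7_F_int N hP b j).congr ?_
    refine e7_ae _ fun x hx hy => ?_
    simp only
    have h1 : ∀ y : ℝ, ‖x.1 ^ b * x.2 ^ j * (sx N y * bet N x.1 y * bet N x.2 y)‖ =
        x.1 ^ b * x.2 ^ j * (sx N y * bet N x.1 y * bet N x.2 y) := by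
      intro y
      have e1 := sx_pos N y
      have e2 := bet_pos N x.1 y hx
      have e3 := bet_pos N x.2 y hy
      exact Real.norm_of_nonneg (by positivity)
    rw [integral_congr_ae (Eventually.of_forall h1), integral_const_mul]
    rfl

/-- the function in the variables `(r, tau)` -/
private theorem e7_Psi_int (N : ℕ) (hP : ∀ t, 0 < t → PN N t ≤ 1 ∧ PN N t ≤ t) (j : ℕ) (hj : j + 1 ≤ N) :
    Integrable (fun p : ℝ × ℝ => p.2 ^ j * (p.1 ^ N * G2 N p.1 (p.1 * p.2)))
      (((volume : Measure ℝ).restrict (Ioi 0)).prod ((volume : Measure ℝ).restrict (Ioi 0))) ∧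
    ∫ p, p.2 ^ j * (p.1 ^ N * G2 N p.1 (p.1 * p.2))
      ∂(((volume : Measure ℝ).restrict (Ioi 0)).prod ((volume : Measure ℝ).restrict (Ioi 0))) =
    ∫ p, p.1 ^ (N - 1 - j) * p.2 ^ j * G2 N p.1 p.2
      ∂(((volume : Measure ℝ).restrict (Ioi 0)).prod ((volume : Measure ℝ).restrict (Ioi 0))) := by
  have hF := e7_F_int N hP (N - 1 - j) j
  have hF' := (integrable_prod_iff hF.aestronglyMeasurable).1 hF
  have hmeas : Measurable (fun p : ℝ × ℝ => p.2 ^ j * (p.1 ^ N * G2 N p.1 (p.1 * p.2))) := by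
    refine (measurable_snd.pow_const j).mul ((measurable_fst.pow_const N).mul ?_)
    exact (e7_G2_meas N).measurable.comp (measurable_fst.prodMk (measurable_fst.mul measurable_snd))
  have hscale : ∀ r : ℝ, 0 < r → ∀ t : ℝ, t ^ j * (r ^ N * G2 N r (r * t)) =
      r * (r ^ (N - 1 - j) * (r * t) ^ j * G2 N r (r * t)) := by
    intro r _ t
    have h1 : r ^ N = r * (r ^ (N - 1 - j) * r ^ j) := by
      rw [← pow_add, ← pow_succ']
      congr 1
      omega
    rw [h1, mul_pow]
    ring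
  have hint1 : ∀ r : ℝ, 0 < r → IntegrableOn (fun t : ℝ => r ^ (N - 1 - j) * t ^ j * G2 N r t) (Ioi 0) →
      IntegrableOn (fun t : ℝ => t ^ j * (r ^ N * G2 N r (r * t))) (Ioi 0) ∧
      ∫ t in Ioi (0:ℝ), t ^ j * (r ^ N * G2 N r (r * t)) =
        ∫ t in Ioi (0:ℝ), r ^ (N - 1 - j) * t ^ j * G2 N r t := by
    intro r hr h
    have h1 := (integrableOn_Ioi_comp_mul_left_iff (fun t : ℝ => r ^ (N - 1 - j) * t ^ j * G2 N r t) 0 hr).2
      (by rw [mul_zero]; exact h)
    constructor
    · refine (h1.const_mul r).congr ?_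
      refine Eventually.of_forall fun t => ?_
      exact (hscale r hr t).symm
    · rw [integral_congr_ae (Eventually.of_forall (hscale r hr)), integral_const_mul]
      have h2 := integral_comp_mul_left_Ioi' (fun t : ℝ => r ^ (N - 1 - j) * t ^ j * G2 N r t) 0 hr
      rw [mul_zero, smul_eq_mul] at h2
      exact h2
  have hae : ∀ᵐ r ∂((volume : Measure ℝ).restrict (Ioi 0)), 0 < r ∧
      IntegrableOn (fun t : ℝ => r ^ (N - 1 - j) * t ^ j * G2 N r t) (Ioi 0) := by
    have h1 : ∀ᵐ r ∂((volume : Measure ℝ).restrict (Ioi 0)), (0:ℝ) < r := by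
      rw [ae_restrict_iff' measurableSet_Ioi]
      exact Eventually.of_forall fun x hx => hx
    filter_upwards [h1, hF'.1] with r hr h2
    exact ⟨hr, h2⟩
  have hint : Integrable (fun p : ℝ × ℝ => p.2 ^ j * (p.1 ^ N * G2 N p.1 (p.1 * p.2)))
      (((volume : Measure ℝ).restrict (Ioi 0)).prod ((volume : Measure ℝ).restrict (Ioi 0))) := by
    rw [integrable_prod_iff hmeas.aestronglyMeasurable]
    constructor
    · filter_upwards [hae] with r hr
      exact (hint1 r hr.1 hr.2).1
    · refine hF'.2.congr ?_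
      filter_upwards [hae] with r hr
      have e1 : ∫ t in Ioi (0:ℝ), ‖r ^ (N - 1 - j) * t ^ j * G2 N r t‖ =
          ∫ t in Ioi (0:ℝ), r ^ (N - 1 - j) * t ^ j * G2 N r t := by
        refine setIntegral_congr_fun measurableSet_Ioi fun t ht => ?_
        have ht0 : (0:ℝ) < t := ht
        have := G2_pos N hP r t hr.1 ht0
        have hr0 := hr.1
        exact Real.norm_of_nonneg (by positivity)
      have e2 : ∫ t in Ioi (0:ℝ), ‖t ^ j * (r ^ N * G2 N r (r * t))‖ =
          ∫ t in Ioi (0:ℝ), t ^ j * (r ^ N * G2 N r (r * t)) := by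
        refine setIntegral_congr_fun measurableSet_Ioi fun t ht => ?_
        have ht0 : (0:ℝ) < t := ht
        have hr0 := hr.1
        have := G2_pos N hP r (r * t) hr.1 (by positivity)
        exact Real.norm_of_nonneg (by positivity)
      rw [e1, e2, (hint1 r hr.1 hr.2).2]
  refine ⟨hint, ?_⟩
  rw [integral_prod _ hint, integral_prod _ hF]
  refine integral_congr_ae ?_
  filter_upwards [hae] with r hr
  exact (hint1 r hr.1 hr.2).2

theorem Pi_mom_int (N : ℕ) (hN : 1 ≤ N) (hP : ∀ t, 0 < t → PN N t ≤ 1 ∧ PN N t ≤ t) (j : ℕ)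
    (hj : j + 1 ≤ N) : IntegrableOn (fun t => t ^ j * PiF N t) (Ioi 0) := by
  have h := (e7_Psi_int N hP j hj).1.integral_prod_right
  refine h.congr (Eventually.of_forall fun t => ?_)
  simp only
  rw [integral_const_mul]
  rfl

theorem int_S (N : ℕ) (hN : 1 ≤ N) (hP : ∀ t, 0 < t → PN N t ≤ 1 ∧ PN N t ≤ t) (j : ℕ)
    (hj : j + 1 ≤ N) :
    IntegrableOn (fun m => SN N m * (psi N j m * psi N (N - 1 - j) m)) (Ioi 0) ∧
    ∫ m in Ioi (0:ℝ), SN N m * (psi N j m * psi N (N - 1 - j) m) =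
      (1 / 4) ^ N / ((j.factorial : ℝ) * ((N - 1 - j).factorial : ℝ)) *
        ∫ t in Ioi (0:ℝ), t ^ j * PiF N t := by
  obtain ⟨hΨ, hΨ2⟩ := e7_Psi_int N hP j hj
  have hΦ := e7_Phi_int N hP (N - 1 - j) j
  set κ : ℝ := (1 / 4) ^ N / ((j.factorial : ℝ) * ((N - 1 - j).factorial : ℝ)) with hκ
  -- the inner integral
  have hinner : ∀ x : ℝ, ∫ p, p.1 ^ (N - 1 - j) * p.2 ^ j * (sx N x * bet N p.1 x * bet N p.2 x)
      ∂(((volume : Measure ℝ).restrict (Ioi 0)).prod ((volume : Measure ℝ).restrict (Ioi 0))) =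
      sx N x * ((∫ B in Ioi (0:ℝ), B ^ (N - 1 - j) * bet N B x) * ∫ B in Ioi (0:ℝ), B ^ j * bet N B x) := by
    intro x
    rw [← integral_prod_mul, ← integral_const_mul]
    refine integral_congr_ae (Eventually.of_forall fun p => ?_)
    simp only
    ring
  have hexp : ∀ x : ℝ, |Real.exp x| • (SN N (Real.exp x) * (psi N j (Real.exp x) * psi N (N - 1 - j) (Real.exp x))) =
      κ * ∫ p, p.1 ^ (N - 1 - j) * p.2 ^ j * (sx N x * bet N p.1 x * bet N p.2 x)
        ∂(((volume : Measure ℝ).restrict (Ioi 0)).prod ((volume : Measure ℝ).restrict (Ioi 0))) := by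
    intro x
    rw [hinner, psi_bet N j hj x, psi_bet N (N - 1 - j) (by omega) x]
    have h1 : N - 1 - (N - 1 - j) = j := by omega
    rw [h1, abs_of_pos (Real.exp_pos x), smul_eq_mul]
    unfold sx
    have h2 : (((N - 1 - j : ℕ) : ℝ)) = N - 1 - j := by
      rw [Nat.cast_sub (by omega), Nat.cast_sub (by omega)]
      push_cast
      ring
    have h3 : Real.exp x * (Real.exp ((2 * (j:ℝ) - N) * x) * Real.exp ((2 * ((N - 1 - j : ℕ) : ℝ) - N) * x)) =
        Real.exp (-x) := by
      rw [← Real.exp_add, ← Real.exp_add, h2]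
      congr 1
      ring
    have h4 : ((1:ℝ) / 2) ^ N * (1 / 2) ^ N = (1 / 4) ^ N := by
      rw [← mul_pow]
      norm_num
    rw [hκ, ← h3, ← h4]
    field_simp
  have himg : Real.exp '' univ = Ioi 0 := by
    rw [image_univ, Real.range_exp]
  have hder : ∀ x ∈ (univ : Set ℝ), HasDerivWithinAt Real.exp (Real.exp x) univ x := fun x _ =>
    (Real.hasDerivAt_exp x).hasDerivWithinAt
  have hinj : InjOn Real.exp univ := Real.exp_injective.injOn
  constructor
  · rw [← himg, integrableOn_image_iff_integrableOn_abs_deriv_smul MeasurableSet.univ hder hinj, integrableOn_univ]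
    refine (hΦ.integral_prod_left.const_mul κ).congr (Eventually.of_forall fun x => ?_)
    exact (hexp x).symm
  · rw [← himg, integral_image_eq_integral_abs_deriv_smul MeasurableSet.univ hder hinj, himg,
      Measure.restrict_univ, integral_congr_ae (Eventually.of_forall hexp), integral_const_mul]
    congr 1
    rw [integral_integral_swap]
    · have h5 : ∀ p : ℝ × ℝ, ∫ x, p.1 ^ (N - 1 - j) * p.2 ^ j * (sx N x * bet N p.1 x * bet N p.2 x) =
          p.1 ^ (N - 1 - j) * p.2 ^ j * G2 N p.1 p.2 := by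
        intro p
        rw [integral_const_mul]
        rfl
      rw [integral_congr_ae (Eventually.of_forall h5), ← hΨ2, integral_prod_symm _ hΨ]
      refine integral_congr_ae (Eventually.of_forall fun t => ?_)
      simp only
      rw [integral_const_mul]
      rfl
    · exact hΦ

theorem Emain (N a : ℕ) (ha : 1 ≤ a) (haN : a + 2 ≤ N)
    (hP : ∀ t, 0 < t → PN N t ≤ 1 ∧ PN N t ≤ t) :
    (∫ m in Ioi (0:ℝ), SN N m * (psi N (a - 1) m * psi N (N - 1 - (a - 1)) m)) *
      (∫ m in Ioi (0:ℝ), SN N m * (psi N (a + 1) m * psi N (N - 1 - (a + 1)) m)) ≤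
    (∫ m in Ioi (0:ℝ), SN N m * (psi N a m * psi N (N - 1 - a) m)) ^ 2 := by
  have hN : 1 ≤ N := by omega
  rw [(int_S N hN hP (a - 1) (by omega)).2, (int_S N hN hP (a + 1) (by omega)).2,
    (int_S N hN hP a (by omega)).2]
  have h := sign_arg N a ha haN (PiF N) (fun t ht => Pi_pos N hN hP t ht) (Pi_conv N hN hP)
    (fun j hj => Pi_mom_int N hN hP j hj)
  have e1 : N - 1 - (a - 1) = N - a := by omega
  have e2 : N - 1 - (a + 1) = N - 2 - a := by omega
  rw [e1, e2]
  have h2 := mul_le_mul_of_nonneg_left h (show (0:ℝ) ≤ ((1 / 4) ^ N) ^ 2 by positivity)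
  refine (le_of_eq ?_).trans (h2.trans (le_of_eq ?_))
  · ring
  · ring

theorem Epos (N a : ℕ) (ha : a + 1 ≤ N) (hP : ∀ t, 0 < t → PN N t ≤ 1 ∧ PN N t ≤ t) :
    0 < ∫ m in Ioi (0:ℝ), SN N m * (psi N a m * psi N (N - 1 - a) m) := by
  have hN : 1 ≤ N := by omega
  rw [(int_S N hN hP a ha).2]
  have h1 : 0 < ∫ t in Ioi (0:ℝ), t ^ a * PiF N t := by
    rw [setIntegral_pos_iff_support_of_nonneg_ae]
    · have : Function.support (fun t => t ^ a * PiF N t) ∩ Ioi 0 = Ioi 0 := by
        ext t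
        simp only [mem_inter_iff, Function.mem_support, mem_Ioi]
        exact ⟨fun h => h.2, fun h => ⟨(mul_pos (pow_pos h a) (Pi_pos N hN hP t h)).ne', h⟩⟩
      rw [this, Real.volume_Ioi]
      exact ENNReal.zero_lt_top
    · rw [Filter.EventuallyLE, ae_restrict_iff' measurableSet_Ioi]
      exact Eventually.of_forall fun t ht => (mul_pos (pow_pos ht a) (Pi_pos N hN hP t ht)).le
    · exact Pi_mom_int N hN hP a ha
  have h2 : (0:ℝ) < (1 / 4) ^ N / ((a.factorial : ℝ) * ((N - 1 - a).factorial : ℝ)) := by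
    have f1 : (0:ℝ) < (a.factorial : ℝ) := by exact_mod_cast Nat.factorial_pos _
    have f2 : (0:ℝ) < ((N - 1 - a).factorial : ℝ) := by exact_mod_cast Nat.factorial_pos _
    positivity
  exact mul_pos h2 h1

end LPPEnd
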