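import Pool.Agent.Lib.MP_267da7_pr.Defs

/-!
# F1: the Bessel type integrals `Kb be m = int_0^oo T^be e^(-m^2/(4T) - T/4) dT`, `m > 0`, `be` real

* integrable and positive: for `T <= 1`, `e^(-m^2/(4T)) <= k! (4T/m^2)^k` with `k > -be`; for `T >= 1` use `e^(-T/4)`.
* `Kb_deriv`: differentiate under the integral (`hasDerivAt_integral_of_dominated_loc_of_deriv_le`), for `m` in `(m0/2, 2 m0)` the derivative
  `-(m/(2T)) T^be e^(..)` is dominated by `(m0/T) T^be e^(-m0^2/(16T) - T/4)`, an integrable function of the same type.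
* `Kb_parts`: `d/dT (T^be e^(-m^2/(4T)-T/4)) = (be T^(be-1) + (m^2/4) T^(be-2) - T^be/4) e^(..)`, and the function tends to `0` at `0+` and at
  `+oo` (`integral_Ioi_of_hasDerivAt_of_tendsto'`).
* `Kb_lim`: for `be > -1`, `0 <= Kb be m <= int T^be e^(-T/4) < oo`, so `m Kb be m -> 0`.
* `Kb_om`: `T = m^2 s`: `m Kb (-3/2) m = int_0^oo s^(-3/2) e^(-1/(4s) - m^2 s/4) ds -> int_0^oo s^(-3/2) e^(-1/(4s)) ds > 0` (dominated convergence; the
  limit integrand is `<= s^(-3/2)` for `s >= 1` and bounded near `0`).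
-/

open Real MeasureTheory Set Filter
open scoped Topology

namespace LPPEnd

/-- the integrand -/
private noncomputable def F1f (be m T : ℝ) : ℝ := T ^ be * Real.exp (-m ^ 2 / (4 * T) - T / 4)

private theorem F1_pos (be m T : ℝ) (hT : 0 < T) : 0 < F1f be m T :=
  mul_pos (rpow_pos_of_pos hT be) (exp_pos _)

private theorem F1_contOn (be m : ℝ) : ContinuousOn (F1f be m) (Ioi 0) := by
  intro T hT
  have hT : 0 < T := hT
  refine ContinuousAt.continuousWithinAt ?_
  unfold F1f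
  refine ContinuousAt.mul (continuousAt_rpow_const _ _ (Or.inl hT.ne')) ?_
  refine ContinuousAt.rexp ?_
  refine ContinuousAt.sub (ContinuousAt.div continuousAt_const
    (continuousAt_const.mul continuousAt_id) ?_) (by fun_prop)
  show (4 : ℝ) * id T ≠ 0
  simp only [id]
  positivity

private theorem F1_meas (be m : ℝ) :
    AEStronglyMeasurable (F1f be m) (volume.restrict (Ioi 0)) :=
  (F1_contOn be m).aestronglyMeasurable measurableSet_Ioi

/-- the basic bound -/
private theorem F1_bound (be m : ℝ) (hm : 0 < m) (k : ℕ) (T : ℝ) (hT : 0 < T) :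
    F1f be m T ≤ ((k.factorial : ℝ) * (4 / m ^ 2) ^ k) *
      (T ^ (be + k) * Real.exp (-(1 / 4) * T ^ (1 : ℝ))) := by
  have h1 : Real.exp (-m ^ 2 / (4 * T)) ≤ (k.factorial : ℝ) * (4 / m ^ 2) ^ k * T ^ k := by
    have hy : (0 : ℝ) ≤ m ^ 2 / (4 * T) := by positivity
    have h2 := Real.pow_div_factorial_le_exp _ hy k
    have h3 : Real.exp (-m ^ 2 / (4 * T)) = (Real.exp (m ^ 2 / (4 * T)))⁻¹ := by
      rw [← Real.exp_neg]
      congr 1
      ring
    rw [h3]
    have hk : (0 : ℝ) < k.factorial := by exact_mod_cast k.factorial_pos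
    have h4 : 0 < (m ^ 2 / (4 * T)) ^ k / (k.factorial : ℝ) := by positivity
    calc (Real.exp (m ^ 2 / (4 * T)))⁻¹ ≤ ((m ^ 2 / (4 * T)) ^ k / (k.factorial : ℝ))⁻¹ :=
          inv_anti₀ h4 h2
      _ = (k.factorial : ℝ) * (4 / m ^ 2) ^ k * T ^ k := by
          rw [inv_div, div_eq_mul_inv, ← inv_pow, inv_div, mul_assoc, ← mul_pow]
          congr 2
          field_simp
  unfold F1f
  have h5 : Real.exp (-m ^ 2 / (4 * T) - T / 4) =
      Real.exp (-m ^ 2 / (4 * T)) * Real.exp (-(1 / 4) * T ^ (1 : ℝ)) := by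
    rw [← Real.exp_add, Real.rpow_one]
    congr 1
    ring
  rw [h5, Real.rpow_add hT, Real.rpow_natCast]
  have h6 : 0 ≤ T ^ be * Real.exp (-(1 / 4) * T ^ (1 : ℝ)) := by positivity
  calc T ^ be * (Real.exp (-m ^ 2 / (4 * T)) * Real.exp (-(1 / 4) * T ^ (1 : ℝ)))
      = (T ^ be * Real.exp (-(1 / 4) * T ^ (1 : ℝ))) * Real.exp (-m ^ 2 / (4 * T)) := by ring
    _ ≤ (T ^ be * Real.exp (-(1 / 4) * T ^ (1 : ℝ))) *
        ((k.factorial : ℝ) * (4 / m ^ 2) ^ k * T ^ k) := mul_le_mul_of_nonneg_left h1 h6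
    _ = _ := by ring

private theorem F1_int (be m : ℝ) (hm : 0 < m) : IntegrableOn (F1f be m) (Ioi 0) := by
  obtain ⟨k, hk⟩ := exists_nat_gt (-1 - be)
  have h1 := (integrableOn_rpow_mul_exp_neg_mul_rpow (s := be + k) (p := 1) (b := 1 / 4)
    (by linarith) (by norm_num) (by norm_num)).const_mul ((k.factorial : ℝ) * (4 / m ^ 2) ^ k)
  refine Integrable.mono' h1 (F1_meas be m) ?_
  filter_upwards [self_mem_ae_restrict measurableSet_Ioi] with T hT
  rw [Real.norm_of_nonneg (F1_pos be m T hT).le]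
  exact F1_bound be m hm k T hT

theorem Kb_int (be m : ℝ) (hm : 0 < m) :
    IntegrableOn (fun T => T ^ be * Real.exp (-m ^ 2 / (4 * T) - T / 4)) (Ioi 0) :=
  F1_int be m hm

private theorem F1_Kb (be m : ℝ) : Kb be m = ∫ T in Ioi (0:ℝ), F1f be m T := rfl

/-- positivity of integrals over the half line of positive integrable functions -/
private theorem F1_pos_int (f : ℝ → ℝ) (hf : ∀ T, 0 < T → 0 < f T)
    (hi : IntegrableOn f (Ioi 0)) : 0 < ∫ T in Ioi (0:ℝ), f T := by
  rw [setIntegral_pos_iff_support_of_nonneg_ae _ hi]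
  · have : Ioi (0:ℝ) ⊆ Function.support f ∩ Ioi 0 := fun T hT => ⟨(hf T hT).ne', hT⟩
    refine lt_of_lt_of_le ?_ (measure_mono this)
    simp
  · filter_upwards [self_mem_ae_restrict measurableSet_Ioi] with T hT
    exact (hf T hT).le

theorem Kb_pos (be m : ℝ) (hm : 0 < m) : 0 < Kb be m :=
  F1_pos_int _ (fun T hT => F1_pos be m T hT) (F1_int be m hm)

private theorem F1_mono (be m m' T : ℝ) (hm : 0 ≤ m) (hmm : m ≤ m') (hT : 0 < T) :
    F1f be m' T ≤ F1f be m T := by
  unfold F1f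
  refine mul_le_mul_of_nonneg_left ?_ (rpow_pos_of_pos hT be).le
  refine Real.exp_le_exp.mpr ?_
  have h1 : m ^ 2 ≤ m' ^ 2 := by gcongr
  have h2 : m ^ 2 / (4 * T) ≤ m' ^ 2 / (4 * T) := by gcongr
  have h3 : -m ^ 2 / (4 * T) = -(m ^ 2 / (4 * T)) := by ring
  have h4 : -m' ^ 2 / (4 * T) = -(m' ^ 2 / (4 * T)) := by ring
  rw [h3, h4]
  linarith

private theorem F1_shift (be m T : ℝ) (hT : 0 < T) : F1f (be - 1) m T = F1f be m T / T := by
  unfold F1f
  rw [Real.rpow_sub_one hT.ne']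
  ring

theorem Kb_deriv (be m : ℝ) (hm : 0 < m) : HasDerivAt (Kb be) (-(m / 2) * Kb (be - 1) m) m := by
  have hs : Ioo (m / 2) (2 * m) ∈ 𝓝 m := Ioo_mem_nhds (by linarith) (by linarith)
  have key := hasDerivAt_integral_of_dominated_loc_of_deriv_le
    (μ := volume.restrict (Ioi (0:ℝ))) (F := fun m T => F1f be m T)
    (F' := fun m T => -(m / 2) * F1f (be - 1) m T) (x₀ := m) (s := Ioo (m / 2) (2 * m))
    (bound := fun T => m * F1f (be - 1) (m / 2) T) hs
    (Eventually.of_forall fun x => F1_meas be x) (F1_int be m hm)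
    ((F1_meas (be - 1) m).const_mul _) ?_ ((F1_int (be - 1) (m / 2) (by linarith)).const_mul m) ?_
  · have h2 := key.2
    have h3 : (∫ T in Ioi (0:ℝ), -(m / 2) * F1f (be - 1) m T) = -(m / 2) * Kb (be - 1) m := by
      rw [integral_const_mul]
      rfl
    rw [h3] at h2
    exact h2
  · filter_upwards [self_mem_ae_restrict measurableSet_Ioi] with T hT x hx
    have hT : 0 < T := hT
    have hx1 : m / 2 < x := hx.1
    have hx2 : x < 2 * m := hx.2
    rw [norm_mul, Real.norm_of_nonneg (F1_pos (be - 1) x T hT).le, Real.norm_eq_abs, abs_neg,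
      abs_of_nonneg (by linarith)]
    refine mul_le_mul (by linarith) (F1_mono _ _ _ _ (by linarith) hx1.le hT)
      (F1_pos _ _ _ hT).le hm.le
  · filter_upwards [self_mem_ae_restrict measurableSet_Ioi] with T hT x hx
    have hT : 0 < T := hT
    have h1 : HasDerivAt (fun x : ℝ => -x ^ 2 / (4 * T) - T / 4) (-(x / 2) / T) x := by
      have h2 := (((hasDerivAt_pow 2 x).neg).div_const (4 * T)).sub_const (T / 4)
      refine h2.congr_deriv ?_
      field_simp
      norm_num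
      ring
    have h3 := (h1.exp).const_mul (T ^ be)
    refine h3.congr_deriv ?_
    rw [F1_shift be x T hT]
    unfold F1f
    field_simp

private theorem F1_lim0 (be m : ℝ) (hm : 0 < m) : Tendsto (F1f be m) (𝓝[>] 0) (𝓝 0) := by
  obtain ⟨k, hk⟩ := exists_nat_gt (1 - be)
  have hub : Tendsto (fun T : ℝ => ((k.factorial : ℝ) * (4 / m ^ 2) ^ k) *
      (T ^ (be + k) * Real.exp (-(1 / 4) * T ^ (1 : ℝ)))) (𝓝[>] 0) (𝓝 0) := by
    have h1 : Tendsto (fun T : ℝ => T ^ (be + k)) (𝓝[>] 0) (𝓝 0) := by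
      have h2 : ContinuousAt (fun T : ℝ => T ^ (be + k)) 0 :=
        continuousAt_rpow_const _ _ (Or.inr (by linarith))
      have h3 := h2.tendsto
      rw [Real.zero_rpow (by linarith)] at h3
      exact h3.mono_left nhdsWithin_le_nhds
    have h4 : Tendsto (fun T : ℝ => Real.exp (-(1 / 4) * T ^ (1 : ℝ))) (𝓝[>] 0) (𝓝 1) := by
      have h5 : ContinuousAt (fun T : ℝ => Real.exp (-(1 / 4) * T ^ (1 : ℝ))) 0 :=
        (continuousAt_const.mul (continuousAt_rpow_const _ _ (Or.inr (by norm_num)))).rexp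
      have h6 := h5.tendsto
      rw [Real.zero_rpow (by norm_num), mul_zero, Real.exp_zero] at h6
      exact h6.mono_left nhdsWithin_le_nhds
    have h7 := (h1.mul h4).const_mul ((k.factorial : ℝ) * (4 / m ^ 2) ^ k)
    simpa using h7
  refine squeeze_zero' ?_ ?_ hub
  · filter_upwards [self_mem_nhdsWithin] with T hT
    exact (F1_pos be m T hT).le
  · filter_upwards [self_mem_nhdsWithin] with T hT
    exact F1_bound be m hm k T hT

private theorem F1_limtop (be m : ℝ) : Tendsto (F1f be m) atTop (𝓝 0) := by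
  have h1 : Tendsto (fun T : ℝ => T ^ be * Real.exp (-(1 / 4) * T)) atTop (𝓝 0) :=
    tendsto_rpow_mul_exp_neg_mul_atTop_nhds_zero be (1 / 4) (by norm_num)
  refine squeeze_zero' ?_ ?_ h1
  · filter_upwards [eventually_gt_atTop 0] with T hT
    exact (F1_pos be m T hT).le
  · filter_upwards [eventually_gt_atTop 0] with T hT
    unfold F1f
    refine mul_le_mul_of_nonneg_left ?_ (rpow_pos_of_pos hT be).le
    refine Real.exp_le_exp.mpr ?_
    have h2 : 0 ≤ m ^ 2 / (4 * T) := by positivity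
    have h3 : -m ^ 2 / (4 * T) = -(m ^ 2 / (4 * T)) := by ring
    rw [h3]
    linarith

theorem Kb_parts (be m : ℝ) (hm : 0 < m) :
    be * Kb (be - 1) m + m ^ 2 / 4 * Kb (be - 2) m = 1 / 4 * Kb be m := by
  set D : ℝ → ℝ := fun T => be * F1f (be - 1) m T + m ^ 2 / 4 * F1f (be - 2) m T
    - 1 / 4 * F1f be m T with hD
  have hder : ∀ T ∈ Ioi (0:ℝ), HasDerivAt (F1f be m) (D T) T := by
    intro T hT
    have hT : 0 < T := hT
    have h1 : HasDerivAt (fun T : ℝ => T ^ be) (be * T ^ (be - 1)) T :=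
      Real.hasDerivAt_rpow_const (Or.inl hT.ne')
    have h2 : HasDerivAt (fun T : ℝ => -m ^ 2 / (4 * T) - T / 4) (m ^ 2 / (4 * T ^ 2) - 1 / 4) T := by
      have h3 : HasDerivAt (fun T : ℝ => 4 * T) 4 T := by
        simpa using (hasDerivAt_id T).const_mul (4 : ℝ)
      have h4 := ((hasDerivAt_const T (-m ^ 2)).div h3 (by positivity)).sub
        ((hasDerivAt_id T).div_const 4)
      refine h4.congr_deriv ?_
      field_simp
      ring
    have h5 := h1.mul h2.exp
    refine h5.congr_deriv ?_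
    rw [hD]
    have hs2 : F1f (be - 2) m T = F1f be m T / T ^ 2 := by
      have := F1_shift (be - 1) m T hT
      rw [show be - 1 - 1 = be - 2 by ring, F1_shift be m T hT] at this
      rw [this]
      field_simp
    simp only []
    rw [hs2, F1_shift be m T hT]
    unfold F1f
    rw [Real.rpow_sub_one hT.ne']
    field_simp
    ring
  have hDint : IntegrableOn D (Ioi 0) :=
    (((F1_int (be - 1) m hm).const_mul be).add
      ((F1_int (be - 2) m hm).const_mul (m ^ 2 / 4))).sub ((F1_int be m hm).const_mul (1 / 4))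
  have hz := integral_Ioi_mul_deriv_eq_deriv_mul (a := (0:ℝ)) (a' := (0:ℝ)) (b' := (0:ℝ))
    (u := fun _ => (1:ℝ)) (u' := fun _ => (0:ℝ)) (v := F1f be m) (v' := D)
    (fun x _ => hasDerivAt_const x 1) hder ?_ ?_ ?_ ?_
  · simp only [one_mul, zero_mul, integral_zero, sub_zero] at hz
    have hsum : ∫ T in Ioi (0:ℝ), D T = be * Kb (be - 1) m + m ^ 2 / 4 * Kb (be - 2) m
        - 1 / 4 * Kb be m := by
      have i1 := (F1_int (be - 1) m hm).const_mul be
      have i2 := (F1_int (be - 2) m hm).const_mul (m ^ 2 / 4)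
      have i3 := (F1_int be m hm).const_mul (1 / 4)
      have e1 : ∫ T in Ioi (0:ℝ), D T = (∫ T in Ioi (0:ℝ), (be * F1f (be - 1) m T
          + m ^ 2 / 4 * F1f (be - 2) m T)) - ∫ T in Ioi (0:ℝ), 1 / 4 * F1f be m T :=
        integral_sub (i1.add i2) i3
      have e2 : ∫ T in Ioi (0:ℝ), (be * F1f (be - 1) m T + m ^ 2 / 4 * F1f (be - 2) m T) =
          (∫ T in Ioi (0:ℝ), be * F1f (be - 1) m T)
            + ∫ T in Ioi (0:ℝ), m ^ 2 / 4 * F1f (be - 2) m T := integral_add i1 i2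
      rw [e1, e2, integral_const_mul, integral_const_mul, integral_const_mul]
      rfl
    rw [hsum] at hz
    linarith
  · have : (fun _ : ℝ => (1:ℝ)) * D = D := by
      funext x
      simp
    rw [this]
    exact hDint
  · have : (fun _ : ℝ => (0:ℝ)) * F1f be m = fun _ => (0:ℝ) := by
      funext x
      simp
    rw [this]
    exact integrableOn_zero
  · have : (fun _ : ℝ => (1:ℝ)) * F1f be m = F1f be m := by
      funext x
      simp
    rw [this]
    exact F1_lim0 be m hm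
  · have : (fun _ : ℝ => (1:ℝ)) * F1f be m = F1f be m := by
      funext x
      simp
    rw [this]
    exact F1_limtop be m

theorem Kb_lim (be : ℝ) (hb : -1 < be) : Tendsto (fun m => m * Kb be m) (𝓝[>] 0) (𝓝 0) := by
  have hi : IntegrableOn (fun T : ℝ => T ^ be * Real.exp (-(1 / 4) * T ^ (1 : ℝ))) (Ioi 0) :=
    integrableOn_rpow_mul_exp_neg_mul_rpow hb (by norm_num) (by norm_num)
  set C : ℝ := ∫ T in Ioi (0:ℝ), T ^ be * Real.exp (-(1 / 4) * T ^ (1 : ℝ)) with hC
  have hle : ∀ m : ℝ, 0 < m → Kb be m ≤ C := by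
    intro m hm
    rw [F1_Kb, hC]
    refine setIntegral_mono_on (F1_int be m hm) hi measurableSet_Ioi ?_
    intro T hT
    have := F1_bound be m hm 0 T hT
    simpa using this
  have hub : Tendsto (fun m : ℝ => m * C) (𝓝[>] 0) (𝓝 0) := by
    have h1 : Tendsto (fun m : ℝ => m * C) (𝓝 0) (𝓝 (0 * C)) := tendsto_id.mul_const C
    rw [zero_mul] at h1
    exact h1.mono_left nhdsWithin_le_nhds
  refine squeeze_zero' ?_ ?_ hub
  · filter_upwards [self_mem_nhdsWithin] with m hm
    exact mul_nonneg (le_of_lt hm) (Kb_pos be m hm).le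
  · filter_upwards [self_mem_nhdsWithin] with m hm
    exact mul_le_mul_of_nonneg_left (hle m hm) (le_of_lt hm)

/-- the limit integrand -/
private noncomputable def F1g (m s : ℝ) : ℝ :=
  s ^ (-3 / 2 : ℝ) * Real.exp (-1 / (4 * s) - m ^ 2 * s / 4)

private theorem F1g_pos (m s : ℝ) (hs : 0 < s) : 0 < F1g m s :=
  mul_pos (rpow_pos_of_pos hs _) (exp_pos _)

private theorem F1g_contOn (m : ℝ) : ContinuousOn (F1g m) (Ioi 0) := by
  intro T hT
  have hT : 0 < T := hT
  refine ContinuousAt.continuousWithinAt ?_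
  unfold F1g
  refine ContinuousAt.mul (continuousAt_rpow_const _ _ (Or.inl hT.ne')) ?_
  refine ContinuousAt.rexp ?_
  refine ContinuousAt.sub (ContinuousAt.div continuousAt_const
    (continuousAt_const.mul continuousAt_id) ?_) (by fun_prop)
  show (4 : ℝ) * id T ≠ 0
  simp only [id]
  positivity

private theorem F1g_meas (m : ℝ) :
    AEStronglyMeasurable (F1g m) (volume.restrict (Ioi 0)) :=
  (F1g_contOn m).aestronglyMeasurable measurableSet_Ioi

private theorem F1g_le (m s : ℝ) (hs : 0 < s) : F1g m s ≤ F1g 0 s := by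
  unfold F1g
  refine mul_le_mul_of_nonneg_left ?_ (rpow_pos_of_pos hs _).le
  refine Real.exp_le_exp.mpr ?_
  have h2 : 0 ≤ m ^ 2 * s / 4 := by positivity
  have h3 : (0:ℝ) ^ 2 * s / 4 = 0 := by ring
  rw [h3]
  linarith

private theorem F1g_int : IntegrableOn (F1g 0) (Ioi 0) := by
  have h0 : Ioi (0:ℝ) = Ioc 0 1 ∪ Ioi 1 := (Ioc_union_Ioi_eq_Ioi (by norm_num)).symm
  rw [h0]
  refine IntegrableOn.union ?_ ?_
  · have hc : IntegrableOn (fun _ : ℝ => (32 : ℝ)) (Ioc 0 1) :=
      integrableOn_const (by simp)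
    refine Integrable.mono' hc ((F1g_meas 0).mono_measure
      (Measure.restrict_mono Ioc_subset_Ioi_self le_rfl)) ?_
    filter_upwards [self_mem_ae_restrict measurableSet_Ioc] with s hs
    have hs0 : 0 < s := hs.1
    rw [Real.norm_of_nonneg (F1g_pos 0 s hs0).le]
    unfold F1g
    have hy : (0 : ℝ) ≤ 1 / (4 * s) := by positivity
    have h2 := Real.pow_div_factorial_le_exp _ hy 2
    have h3 : Real.exp (-1 / (4 * s) - (0:ℝ) ^ 2 * s / 4) = (Real.exp (1 / (4 * s)))⁻¹ := by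
      rw [← Real.exp_neg]
      congr 1
      ring
    rw [h3]
    have h4 : 0 < (1 / (4 * s)) ^ 2 / ((2 : ℕ).factorial : ℝ) := by positivity
    have h5 : (Real.exp (1 / (4 * s)))⁻¹ ≤ 32 * s ^ 2 := by
      calc (Real.exp (1 / (4 * s)))⁻¹ ≤ ((1 / (4 * s)) ^ 2 / ((2 : ℕ).factorial : ℝ))⁻¹ :=
            inv_anti₀ h4 h2
        _ = 32 * s ^ 2 := by
            rw [Nat.factorial_two]
            push_cast
            field_simp
            norm_num
    have h6 : s ^ (-3 / 2 : ℝ) * s ^ 2 ≤ 1 := by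
      rw [← Real.rpow_natCast s 2, ← Real.rpow_add hs0]
      refine Real.rpow_le_one hs0.le hs.2 ?_
      norm_num
    have h7 : 0 < s ^ (-3 / 2 : ℝ) := rpow_pos_of_pos hs0 _
    calc s ^ (-3 / 2 : ℝ) * (Real.exp (1 / (4 * s)))⁻¹ ≤ s ^ (-3 / 2 : ℝ) * (32 * s ^ 2) :=
          mul_le_mul_of_nonneg_left h5 h7.le
      _ = 32 * (s ^ (-3 / 2 : ℝ) * s ^ 2) := by ring
      _ ≤ 32 := by linarith
  · have hc : IntegrableOn (fun s : ℝ => s ^ (-3 / 2 : ℝ)) (Ioi 1) :=
      integrableOn_Ioi_rpow_of_lt (by norm_num) (by norm_num)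
    refine Integrable.mono' hc ((F1g_meas 0).mono_measure
      (Measure.restrict_mono (Ioi_subset_Ioi (by norm_num)) le_rfl)) ?_
    filter_upwards [self_mem_ae_restrict measurableSet_Ioi] with s hs
    have hs1 : 1 < s := hs
    have hs0 : 0 < s := by linarith
    rw [Real.norm_of_nonneg (F1g_pos 0 s hs0).le]
    unfold F1g
    have h7 : 0 < s ^ (-3 / 2 : ℝ) := rpow_pos_of_pos hs0 _
    have h8 : Real.exp (-1 / (4 * s) - (0:ℝ) ^ 2 * s / 4) ≤ 1 := by
      rw [Real.exp_le_one_iff]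
      have h9 : 0 ≤ 1 / (4 * s) := by positivity
      have h10 : -1 / (4 * s) - (0:ℝ) ^ 2 * s / 4 = -(1 / (4 * s)) := by ring
      rw [h10]
      linarith
    calc s ^ (-3 / 2 : ℝ) * Real.exp (-1 / (4 * s) - (0:ℝ) ^ 2 * s / 4)
        ≤ s ^ (-3 / 2 : ℝ) * 1 := mul_le_mul_of_nonneg_left h8 h7.le
      _ = s ^ (-3 / 2 : ℝ) := mul_one _

private theorem F1_subst (m : ℝ) (hm : 0 < m) :
    m * Kb (-3 / 2) m = ∫ s in Ioi (0:ℝ), F1g m s := by
  have h1 := integral_comp_mul_left_Ioi (F1f (-3 / 2) m) 0 (b := m ^ 2) (by positivity)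
  rw [mul_zero, smul_eq_mul] at h1
  rw [F1_Kb]
  have h2 : ∫ T in Ioi (0:ℝ), F1f (-3 / 2) m T =
      m ^ 2 * ∫ s in Ioi (0:ℝ), F1f (-3 / 2) m (m ^ 2 * s) := by
    rw [h1]
    field_simp
  rw [h2, ← mul_assoc, ← integral_const_mul]
  refine setIntegral_congr_fun measurableSet_Ioi ?_
  intro s hs
  have hs : 0 < s := hs
  show m * m ^ 2 * F1f (-3 / 2) m (m ^ 2 * s) = F1g m s
  unfold F1f F1g
  have h3 : (m ^ 2 * s) ^ (-3 / 2 : ℝ) = (m ^ 3)⁻¹ * s ^ (-3 / 2 : ℝ) := by
    rw [Real.mul_rpow (by positivity) hs.le, ← Real.rpow_natCast m 2, ← Real.rpow_mul hm.le,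
      ← Real.rpow_natCast m 3, ← Real.rpow_neg hm.le]
    congr 2
    norm_num
  have h4 : -m ^ 2 / (4 * (m ^ 2 * s)) - m ^ 2 * s / 4 = -1 / (4 * s) - m ^ 2 * s / 4 := by
    congr 1
    field_simp
  rw [h3, h4]
  field_simp

theorem Kb_om : ∃ om : ℝ, 0 < om ∧ Tendsto (fun m => m * Kb (-3 / 2) m) (𝓝[>] 0) (𝓝 om) := by
  refine ⟨∫ s in Ioi (0:ℝ), F1g 0 s, F1_pos_int _ (fun s hs => F1g_pos 0 s hs) F1g_int, ?_⟩
  have h1 : Tendsto (fun m => ∫ s in Ioi (0:ℝ), F1g m s) (𝓝[>] 0)
      (𝓝 (∫ s in Ioi (0:ℝ), F1g 0 s)) := by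
    refine tendsto_integral_filter_of_dominated_convergence (F1g 0)
      (Eventually.of_forall fun m => F1g_meas m) ?_ F1g_int ?_
    · refine Eventually.of_forall fun m => ?_
      filter_upwards [self_mem_ae_restrict measurableSet_Ioi] with s hs
      rw [Real.norm_of_nonneg (F1g_pos m s hs).le]
      exact F1g_le m s hs
    · refine Eventually.of_forall fun s => ?_
      have hc : Continuous (fun m : ℝ => F1g m s) := by
        unfold F1g
        fun_prop
      exact (hc.tendsto 0).mono_left nhdsWithin_le_nhds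
  refine h1.congr' ?_
  filter_upwards [self_mem_nhdsWithin] with m hm
  exact (F1_subst m hm).symm

end LPPEnd
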