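import Pool.Agent.Lib.MP_267da7_pr.Defs

/-!
# F5: algebra of the series `dp`

`dp f f' (2k) = Z^k f`, `dp f f' (2k+1) = Z^k f'`.
`kap`: suppose `e g' - e' g = C om`.  For all `i, j`:
 `dp e e' j * dp g g' i - dp e e' i * dp g g' j` is `0` if `i + j` is even, `C om * Z^((i+j-1)/2)` if `i` is odd and `j` even, and
 `-C om * Z^((i+j-1)/2)` if `i` is even and `j` odd.
 (`j = 2k, i = 2l+1`: `Z^k e Z^l g' - Z^l e' Z^k g = Z^(k+l)(e g' - e' g)`.)
`kap2`: suppose `g'^2 - Z g^2 = 1`.  `dp g g' (j+1) * dp g g' i - dp g g' j * dp g g' (i+1)` is `0` if `i+j` is even, `Z^((i+j-1)/2)` if `j` is even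
 and `i` odd  (`j = 2k, i = 2l+1`: `Z^k g' Z^l g' - Z^k g Z^(l+1) g = Z^(k+l)`), and `-Z^((i+j-1)/2)` if `j` is odd and `i` even.
`coeff_Z`: `coeff N (Z^k) = 0` for `k < N` and `coeff N (Z^N) = 1` (`Z = C (1/4) + X`; `(Z)^k` is the image of a polynomial of degree `k`, monic).
Consequences:
`sym_coeff` for `i, j < N`: `coeff (N-1) (dp_(j+1) * dp_i) = coeff (N-1) (dp_j * dp_(i+1))`: if `i + j` is odd then `i + j <= 2N-3`, so `(i+j-1)/2 <= N-2 < N-1`.
`orth_coeff`: for `i < N`, `j <= N`: `coeff (N-1) (dp e e' j * dp g g' i - dp e e' i * dp g g' j) = 0` unless `i = N-1`, `j = N`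
 (`(i+j-1)/2 <= N-1` with equality iff `i+j = 2N-1`); for `i = N-1`, `j = N` it is `(-1)^N om`.
-/

open Real MeasureTheory Set Filter
open scoped Topology

namespace LPPEnd

theorem dp_even (f f' : PowerSeries ℝ) (k : ℕ) : dp f f' (2 * k) = Z ^ k * f := by
  induction k with
  | zero => simp [dp]
  | succ k ih =>
    have h : 2 * (k + 1) = 2 * k + 2 := by ring
    rw [h, dp, ih, pow_succ]
    ring

theorem dp_odd (f f' : PowerSeries ℝ) (k : ℕ) : dp f f' (2 * k + 1) = Z ^ k * f' := by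
  induction k with
  | zero => simp [dp]
  | succ k ih =>
    have h : 2 * (k + 1) + 1 = (2 * k + 1) + 2 := by ring
    rw [h, dp, ih, pow_succ]
    ring

private theorem F5_Z_poly (k : ℕ) :
    Z ^ k = (((Polynomial.X + Polynomial.C (1 / 4 : ℝ)) ^ k : Polynomial ℝ) : PowerSeries ℝ) := by
  rw [Polynomial.coe_pow, Polynomial.coe_add, Polynomial.coe_X, Polynomial.coe_C, Z, add_comm]

theorem coeff_Z_lt (N k : ℕ) (hk : k < N) : PowerSeries.coeff N (Z ^ k) = 0 := by
  rw [F5_Z_poly, Polynomial.coeff_coe]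
  apply Polynomial.coeff_eq_zero_of_natDegree_lt
  rw [Polynomial.natDegree_pow, Polynomial.natDegree_X_add_C]
  omega

theorem coeff_Z_eq (N : ℕ) : PowerSeries.coeff N (Z ^ N) = 1 := by
  rw [F5_Z_poly, Polynomial.coeff_coe]
  have hm : ((Polynomial.X + Polynomial.C (1 / 4 : ℝ)) ^ N : Polynomial ℝ).Monic :=
    (Polynomial.monic_X_add_C _).pow N
  have hd : ((Polynomial.X + Polynomial.C (1 / 4 : ℝ)) ^ N : Polynomial ℝ).natDegree = N := by
    rw [Polynomial.natDegree_pow, Polynomial.natDegree_X_add_C]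
    omega
  have := hm.coeff_natDegree
  rwa [hd] at this

theorem sym_coeff (N : ℕ) (f f' : PowerSeries ℝ) (h : f' ^ 2 - Z * f ^ 2 = 1) (i j : ℕ)
    (hi : i < N) (hj : j < N) :
    PowerSeries.coeff (N - 1) (dp f f' (j + 1) * dp f f' i) =
      PowerSeries.coeff (N - 1) (dp f f' j * dp f f' (i + 1)) := by
  rcases Nat.even_or_odd' i with ⟨l, rfl | rfl⟩ <;> rcases Nat.even_or_odd' j with ⟨k, rfl | rfl⟩
  · rw [dp_odd, dp_even, dp_even, dp_odd]
    congr 1
    ring
  · have h1 : 2 * k + 1 + 1 = 2 * (k + 1) := by ring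
    rw [h1, dp_odd, dp_even, dp_even, dp_odd]
    have h2 : Z ^ (k + 1) * f * (Z ^ l * f) = Z ^ k * f' * (Z ^ l * f') - Z ^ (k + l) := by
      have : Z ^ (k + l) = Z ^ (k + l) * (f' ^ 2 - Z * f ^ 2) := by rw [h, mul_one]
      rw [this]
      ring
    rw [h2, map_sub, coeff_Z_lt (N - 1) (k + l) (by omega), sub_zero]
  · have h1 : 2 * l + 1 + 1 = 2 * (l + 1) := by ring
    rw [h1, dp_odd, dp_even, dp_even, dp_odd]
    have h2 : Z ^ k * f * (Z ^ (l + 1) * f) = Z ^ k * f' * (Z ^ l * f') - Z ^ (k + l) := by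
      have : Z ^ (k + l) = Z ^ (k + l) * (f' ^ 2 - Z * f ^ 2) := by rw [h, mul_one]
      rw [this]
      ring
    rw [h2, map_sub, coeff_Z_lt (N - 1) (k + l) (by omega), sub_zero]
  · have h1 : 2 * k + 1 + 1 = 2 * (k + 1) := by ring
    have h2 : 2 * l + 1 + 1 = 2 * (l + 1) := by ring
    rw [h1, h2, dp_odd, dp_even, dp_even, dp_odd]
    congr 1
    ring

theorem orth_coeff (N : ℕ) (e e' f f' : PowerSeries ℝ) (om : ℝ)
    (h : e * f' - e' * f = PowerSeries.C om) (i j : ℕ) (hi : i < N) (hj : j ≤ N) :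
    PowerSeries.coeff (N - 1) (dp e e' j * dp f f' i) -
      PowerSeries.coeff (N - 1) (dp e e' i * dp f f' j) =
      if i + 1 = N ∧ j = N then (-1) ^ N * om else 0 := by
  rcases Nat.even_or_odd' i with ⟨l, rfl | rfl⟩ <;> rcases Nat.even_or_odd' j with ⟨k, rfl | rfl⟩
  · rw [if_neg (by omega), dp_even, dp_even, dp_even, dp_even, ← map_sub]
    have : Z ^ k * e * (Z ^ l * f) - Z ^ l * e * (Z ^ k * f) = 0 := by ring
    rw [this, map_zero]
  · rw [dp_odd, dp_even, dp_even, dp_odd, ← map_sub]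
    have h2 : Z ^ k * e' * (Z ^ l * f) - Z ^ l * e * (Z ^ k * f')
        = PowerSeries.C (-om) * Z ^ (k + l) := by
      have h3 : PowerSeries.C (-om) = -(PowerSeries.C om : PowerSeries ℝ) := map_neg _ _
      rw [h3, ← h]
      ring
    rw [h2, PowerSeries.coeff_C_mul]
    by_cases hc : 2 * l + 1 = N ∧ 2 * k + 1 = N
    · have hkl : k + l = N - 1 := by omega
      rw [if_pos hc, hkl, coeff_Z_eq, ← hc.2, (odd_two_mul_add_one k).neg_one_pow]
      ring
    · rw [if_neg hc, coeff_Z_lt (N - 1) (k + l) (by omega), mul_zero]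
  · rw [dp_odd, dp_even, dp_even, dp_odd, ← map_sub]
    have h2 : Z ^ k * e * (Z ^ l * f') - Z ^ l * e' * (Z ^ k * f)
        = PowerSeries.C om * Z ^ (k + l) := by
      rw [← h]
      ring
    rw [h2, PowerSeries.coeff_C_mul]
    by_cases hc : 2 * l + 1 + 1 = N ∧ 2 * k = N
    · have hkl : k + l = N - 1 := by omega
      rw [if_pos hc, hkl, coeff_Z_eq, ← hc.2, (even_two_mul k).neg_one_pow]
      ring
    · rw [if_neg hc, coeff_Z_lt (N - 1) (k + l) (by omega), mul_zero]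
  · rw [if_neg (by omega), dp_odd, dp_odd, dp_odd, dp_odd, ← map_sub]
    have : Z ^ k * e' * (Z ^ l * f') - Z ^ l * e' * (Z ^ k * f') = 0 := by ring
    rw [this, map_zero]

end LPPEnd
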