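import Pool.Agent.Lib.MP_267da7_pr.F7
import Pool.Agent.Lib.MP_267da7_pr.F5

/-!
# F9: orthogonality of the vector `xi`

`xi N t a = DE N a t` (definition).  For `i < N`:
`sum_a xi_a Psi_(rev a, i) = coeff (N-1) ((sum_(j<=N) ga_(N,j) dp E j) * dp G i) = sum_j ga_(N,j) coeff (N-1) (dpE j * dpG i)`
`= coeff (N-1) (dpE i * sum_j ga_(N,j) dpG j) + sum_j ga_(N,j) [coeff (N-1)(dpE j dpG i) - coeff (N-1) (dpE i dpG j)]`.
The series `sum_j ga_(N,j) dpG j` has coefficients `DG N a t = 0` for `a < N` (`DG_zero`), so the first term is `0`.  By `orth_coeff` the second is `0` for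
`i < N-1` and `ga_(N,N) (-1)^N om = (-1)^N om` for `i = N-1`.
-/

open Real MeasureTheory Set Filter
open scoped Topology

namespace LPPEnd

private theorem F9_conv (N : ℕ) (hN : 0 < N) (P Q : PowerSeries ℝ) :
    ∑ a : Fin N, PowerSeries.coeff (a : ℕ) P * PowerSeries.coeff ((Fin.rev a : Fin N) : ℕ) Q =
      PowerSeries.coeff (N - 1) (P * Q) := by
  obtain ⟨M, rfl⟩ : ∃ M, N = M + 1 := ⟨N - 1, by omega⟩
  rw [PowerSeries.coeff_mul, Nat.add_sub_cancel,
    Finset.Nat.sum_antidiagonal_eq_sum_range_succ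
      (fun x y => PowerSeries.coeff x P * PowerSeries.coeff y Q) M,
    ← Fin.sum_univ_eq_sum_range
      (fun x => PowerSeries.coeff x P * PowerSeries.coeff (M - x) Q) M.succ]
  refine Finset.sum_congr rfl fun a _ => ?_
  rw [Fin.val_rev]
  congr 3
  omega

theorem xi_orth (N : ℕ) : ∃ nu : ℝ, nu ≠ 0 ∧ ∀ t, 0 < t → ∀ i : Fin N,
    ∑ a : Fin N, xi N t a * Psi N t (Fin.rev a) i = if (i : ℕ) + 1 = N then nu else 0 := by
  obtain ⟨om, hom, hes⟩ := es_id
  refine ⟨(-1) ^ N * om, mul_ne_zero (pow_ne_zero _ (by norm_num)) hom.ne', ?_⟩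
  intro t ht i
  have hN : 0 < N := lt_of_le_of_lt (Nat.zero_le _) i.isLt
  have h1 : ∑ a : Fin N, xi N t a * Psi N t (Fin.rev a) i =
      ∑ j ∈ Finset.range (N + 1), ga N j t *
        PowerSeries.coeff (N - 1) (dp (Es t) (Es' t) j * dp (Gs t) (Gs' t) i) := by
    have h2 : ∀ j ∈ Finset.range (N + 1), ga N j t *
        PowerSeries.coeff (N - 1) (dp (Es t) (Es' t) j * dp (Gs t) (Gs' t) i) =
        ∑ a : Fin N, ga N j t * PowerSeries.coeff (a : ℕ) (dp (Es t) (Es' t) j) *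
          PowerSeries.coeff ((Fin.rev a : Fin N) : ℕ) (dp (Gs t) (Gs' t) i) := by
      intro j _
      rw [← F9_conv N hN, Finset.mul_sum]
      refine Finset.sum_congr rfl fun a _ => ?_
      ring
    rw [Finset.sum_congr rfl h2, Finset.sum_comm]
    refine Finset.sum_congr rfl fun a _ => ?_
    rw [← Finset.sum_mul]
    rfl
  have h3 : ∑ j ∈ Finset.range (N + 1), ga N j t *
        PowerSeries.coeff (N - 1) (dp (Es t) (Es' t) i * dp (Gs t) (Gs' t) j) = 0 := by
    have h2 : ∀ j ∈ Finset.range (N + 1), ga N j t *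
        PowerSeries.coeff (N - 1) (dp (Es t) (Es' t) i * dp (Gs t) (Gs' t) j) =
        ∑ a : Fin N, PowerSeries.coeff (a : ℕ) (dp (Es t) (Es' t) i) *
          (ga N j t * PowerSeries.coeff ((Fin.rev a : Fin N) : ℕ) (dp (Gs t) (Gs' t) j)) := by
      intro j _
      rw [← F9_conv N hN, Finset.mul_sum]
      refine Finset.sum_congr rfl fun a _ => ?_
      ring
    rw [Finset.sum_congr rfl h2, Finset.sum_comm]
    refine Finset.sum_eq_zero fun a _ => ?_
    rw [← Finset.mul_sum]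
    have h4 := DG_zero N ((Fin.rev a : Fin N) : ℕ) (Fin.rev a).isLt t ht
    unfold DG at h4
    rw [h4, mul_zero]
  have h5 : ∑ a : Fin N, xi N t a * Psi N t (Fin.rev a) i =
      ∑ j ∈ Finset.range (N + 1), ga N j t *
        (if (i : ℕ) + 1 = N ∧ j = N then (-1) ^ N * om else 0) := by
    have h6 : ∑ j ∈ Finset.range (N + 1), ga N j t *
        PowerSeries.coeff (N - 1) (dp (Es t) (Es' t) j * dp (Gs t) (Gs' t) i) =
        ∑ j ∈ Finset.range (N + 1), ga N j t *
        PowerSeries.coeff (N - 1) (dp (Es t) (Es' t) j * dp (Gs t) (Gs' t) i) -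
        ∑ j ∈ Finset.range (N + 1), ga N j t *
        PowerSeries.coeff (N - 1) (dp (Es t) (Es' t) i * dp (Gs t) (Gs' t) j) := by
      rw [h3, sub_zero]
    rw [h1, h6, ← Finset.sum_sub_distrib]
    refine Finset.sum_congr rfl fun j hj => ?_
    rw [← mul_sub, orth_coeff N (Es t) (Es' t) (Gs t) (Gs' t) om (hes t ht) i j i.isLt
      (Nat.lt_succ_iff.mp (Finset.mem_range.mp hj))]
  rw [h5, Finset.sum_eq_single_of_mem N (Finset.mem_range.mpr (Nat.lt_succ_self N))]
  · rw [ga_diag, one_mul]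
    by_cases h : (i : ℕ) + 1 = N
    · rw [if_pos ⟨h, rfl⟩, if_pos h]
    · rw [if_neg (fun h' => h h'.1), if_neg h]
  · intro j _ hj
    rw [if_neg (fun h' => hj h'.2), mul_zero]

end LPPEnd
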