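import Pool.Agent.Lib.MP_267da7_pr.F8
import Pool.Agent.Lib.MP_267da7_pr.F9

/-!
# F10: `Y' = K xi xi^T J` with a constant `K`

Write `Q = Zm - Y^2 = Y'` (F8), `xi = xi N t`, `J` the flip, `(J xi)_a = xi_(rev a)`.  `t > 0`, `N >= 1`.
(1) `Q Psi_i = 0` for `i < N-1` (`Y_col`), and `(J xi)^T Psi_i = 0` for `i < N-1`, `= nu` for `i = N-1` (`xi_orth`, reindexed by `rev`).  So with
 `y = Q Psi_(N-1)/nu`: `(Q - y (J xi)^T) Psi = 0`, hence `Q = y (J xi)^T`: `Q_(a,b) = y_a xi_(rev b)`.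
(2) `Q` is persymmetric, `Q_(a,b) = Q_(rev b, rev a)` (`Y_sym` for all times and the derivative; or directly: `Y_sym` gives it for `Y^2`, and `Zm` is
 persymmetric).  So `y_a xi_(rev b) = y_(rev b) xi_a` for all `a, b`.  `xi` is not the zero vector (`nu` is not `0`); `xi_a = (-1)^(a+N) psi N a t` (`DE_eq`) and
 `psi > 0` (hypothesis `hpsi`), so all components are nonzero and `y_a = kap xi_a`, where `kap = y_0/xi_0`.  So `Q_(a,b) = kap(t) xi_a xi_(rev b)`.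
(3) `kap` is constant on `(0,oo)`: `xi' = -Y xi`: by `xi_orth`, for `i <= N-1`: `0 = d/dt ((J xi)^T Psi_i) = (J xi')^T Psi_i + (J xi)^T Psi_(i)'`,
 `Psi' = DPsi = Y Psi`; so `((J xi')^T + (J xi)^T Y) Psi = 0`, `(J xi')^T = -(J xi)^T Y = -(J Y xi)^T` (`Y^T J = J Y`), i.e. `xi' = -Y xi`.
 (`xi` is differentiable: `DE_deriv`.)
 `Q = Zm - Y^2`, so `Q' = -Q Y - Y Q`.  And `kap = Q_(0,N-1)/xi_0^2` is differentiable;
 `Q' = kap' xi (J xi)^T + kap (xi' (J xi)^T + xi (J xi')^T) = kap' xi (J xi)^T - kap (Y xi (J xi)^T + xi (J xi)^T Y) = kap' xi (J xi)^T - (Y Q + Q Y)`.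
 So `kap' xi (J xi)^T = 0`, `kap' = 0`.
(4) diagonal entries: `(Y_(a,a))' = Q_(a,a) = kap xi_a xi_(rev a) = kap (-1)^(a + N + (N-1-a) + N) psi_a psi_(N-1-a) = K psi_a psi_(N-1-a)`,
 `K = kap (-1)^(3N-1)`.
-/

open Real MeasureTheory Set Filter
open scoped Topology

namespace LPPEnd

/-- the matrix `Q` -/
noncomputable def F10_Q (N : ℕ) (t : ℝ) : Matrix (Fin N) (Fin N) ℝ := Zm N - Y N t * Y N t

theorem F10_xi_deriv (N : ℕ) (t : ℝ) (ht : 0 < t) (a : Fin N) :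
    HasDerivAt (fun t => xi N t a) (DE (N + 1) a t + w N t * DE N a t) t := DE_deriv N a t ht

theorem F10_Psi_deriv (N : ℕ) (t : ℝ) (a i : Fin N) :
    HasDerivAt (fun t => Psi N t a i) (DPsi N t a i) t := dpG_deriv a i t

theorem F10_unit (N : ℕ) (t : ℝ) (ht : 0 < t) : IsUnit (Psi N t).det :=
  isUnit_iff_ne_zero.2 (det_Psi_pos N t ht).ne'

theorem F10_cancel (N : ℕ) (t : ℝ) (ht : 0 < t) (A B : Matrix (Fin N) (Fin N) ℝ)
    (h : A * Psi N t = B * Psi N t) : A = B := by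
  have h1 := congrArg (fun M => M * (Psi N t)⁻¹) h
  simpa [Matrix.mul_assoc, Matrix.mul_nonsing_inv _ (F10_unit N t ht)] using h1

theorem F10_cancel_vec (N : ℕ) (t : ℝ) (ht : 0 < t) (v : Fin N → ℝ)
    (h : ∀ i, ∑ b, v b * Psi N t b i = 0) : ∀ b, v b = 0 := by
  intro b
  have h1 : (Matrix.of fun _ b => v b : Matrix (Fin N) (Fin N) ℝ) = 0 := by
    apply F10_cancel N t ht
    ext a i
    rw [Matrix.mul_apply, Matrix.zero_mul]
    exact h i
  exact congrFun (congrFun h1 b) b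

theorem F10_orth (N : ℕ) (nu : ℝ)
    (h : ∀ t, 0 < t → ∀ i : Fin N, ∑ a : Fin N, xi N t a * Psi N t (Fin.rev a) i = if (i : ℕ) + 1 = N then nu else 0)
    (t : ℝ) (ht : 0 < t) (i : Fin N) :
    ∑ b : Fin N, xi N t (Fin.rev b) * Psi N t b i = if (i : ℕ) + 1 = N then nu else 0 := by
  rw [← h t ht i, ← Equiv.sum_comp (Fin.revPerm : Fin N ≃ Fin N)]
  refine Finset.sum_congr rfl fun a _ => ?_
  simp only [Fin.revPerm_apply, Fin.rev_rev]

theorem F10_Qsym (N : ℕ) (t : ℝ) (ht : 0 < t) (a b : Fin N) :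
    F10_Q N t a b = F10_Q N t (Fin.rev b) (Fin.rev a) := by
  have h1 : (Y N t * Y N t) (Fin.rev b) (Fin.rev a) = (Y N t * Y N t) a b := by
    rw [Matrix.mul_apply, Matrix.mul_apply, ← Equiv.sum_comp (Fin.revPerm : Fin N ≃ Fin N)]
    refine Finset.sum_congr rfl fun c _ => ?_
    simp only [Fin.revPerm_apply]
    rw [← Y_sym N t ht c b, ← Y_sym N t ht a c]
    ring
  have h2 : Zm N (Fin.rev b) (Fin.rev a) = Zm N a b := by
    simp only [Zm, Matrix.of_apply, Fin.rev_inj, Fin.val_rev]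
    have e1 : (b = a) ↔ (a = b) := eq_comm
    have e2 : (N - ((b : ℕ) + 1) = N - ((a : ℕ) + 1) + 1) ↔ ((a : ℕ) = (b : ℕ) + 1) := by
      have := a.2; have := b.2
      constructor <;> intro h <;> omega
    simp only [e1, e2]
  unfold F10_Q
  rw [Matrix.sub_apply, Matrix.sub_apply, h1, h2]

/-- (1): `Q = y (J xi)^T` -/
theorem F10_rank (N : ℕ) (nu : ℝ) (hnu : nu ≠ 0)
    (h : ∀ t, 0 < t → ∀ i : Fin N, ∑ a : Fin N, xi N t a * Psi N t (Fin.rev a) i = if (i : ℕ) + 1 = N then nu else 0)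
    (t : ℝ) (ht : 0 < t) : ∃ y : Fin N → ℝ, ∀ a b, F10_Q N t a b = y a * xi N t (Fin.rev b) := by
  by_cases hN : N = 0
  · subst hN; exact ⟨fun _ => 0, fun a => a.elim0⟩
  obtain ⟨n, rfl⟩ : ∃ n, N = n + 1 := ⟨N - 1, by omega⟩
  refine ⟨fun a => (F10_Q (n + 1) t * Psi (n + 1) t) a (Fin.last n) / nu, ?_⟩
  have h1 : F10_Q (n + 1) t = Matrix.of fun a b =>
      (F10_Q (n + 1) t * Psi (n + 1) t) a (Fin.last n) / nu * xi (n + 1) t (Fin.rev b) := by
    apply F10_cancel (n + 1) t ht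
    ext a i
    have h2 : ((Matrix.of fun a b =>
        (F10_Q (n + 1) t * Psi (n + 1) t) a (Fin.last n) / nu * xi (n + 1) t (Fin.rev b) :
          Matrix (Fin (n + 1)) (Fin (n + 1)) ℝ) * Psi (n + 1) t) a i =
        (F10_Q (n + 1) t * Psi (n + 1) t) a (Fin.last n) / nu *
          ∑ b : Fin (n + 1), xi (n + 1) t (Fin.rev b) * Psi (n + 1) t b i := by
      rw [Matrix.mul_apply, Finset.mul_sum]
      refine Finset.sum_congr rfl fun b _ => ?_
      simp only [Matrix.of_apply]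
      ring
    rw [h2, F10_orth (n + 1) nu h t ht i]
    by_cases hi : (i : ℕ) + 1 = n + 1
    · rw [if_pos hi, div_mul_cancel₀ _ hnu]
      have : i = Fin.last n := Fin.ext (by simpa using hi)
      rw [this]
    · rw [if_neg hi, mul_zero]
      exact Y_col (n + 1) t ht a i (by have := i.2; omega)
  intro a b
  exact congrFun (congrFun h1 a) b

/-- (3): `xi' = - Y xi` -/
theorem F10_xi' (N : ℕ) (nu : ℝ)
    (h : ∀ t, 0 < t → ∀ i : Fin N, ∑ a : Fin N, xi N t a * Psi N t (Fin.rev a) i = if (i : ℕ) + 1 = N then nu else 0)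
    (t : ℝ) (ht : 0 < t) (a : Fin N) :
    DE (N + 1) a t + w N t * DE N a t = -∑ c : Fin N, Y N t a c * xi N t c := by
  set x' : Fin N → ℝ := fun a => DE (N + 1) a t + w N t * DE N a t with hx'
  have hz : ∀ i : Fin N, ∑ b : Fin N, (x' (Fin.rev b) + ∑ c : Fin N, xi N t (Fin.rev c) * Y N t c b) * Psi N t b i = 0 := by
    intro i
    have hd : HasDerivAt (fun t => ∑ b : Fin N, xi N t (Fin.rev b) * Psi N t b i)
        (∑ b : Fin N, (x' (Fin.rev b) * Psi N t b i + xi N t (Fin.rev b) * DPsi N t b i)) t :=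
      HasDerivAt.fun_sum fun b _ => (F10_xi_deriv N t ht (Fin.rev b)).mul (F10_Psi_deriv N t b i)
    have hc : HasDerivAt (fun t => ∑ b : Fin N, xi N t (Fin.rev b) * Psi N t b i) 0 t := by
      refine (hasDerivAt_const t (if (i : ℕ) + 1 = N then nu else 0)).congr_of_eventuallyEq ?_
      filter_upwards [Ioi_mem_nhds ht] with s hs
      exact F10_orth N nu h s hs i
    have h0 := hd.unique hc
    rw [← h0, Finset.sum_add_distrib]
    have h1 : ∑ b : Fin N, xi N t (Fin.rev b) * DPsi N t b i =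
        ∑ b : Fin N, (∑ c : Fin N, xi N t (Fin.rev c) * Y N t c b) * Psi N t b i := by
      rw [← Y_mul N t ht]
      simp only [Matrix.mul_apply, Finset.mul_sum, Finset.sum_mul]
      rw [Finset.sum_comm]
      refine Finset.sum_congr rfl fun b _ => Finset.sum_congr rfl fun c _ => ?_
      ring
    rw [h1, ← Finset.sum_add_distrib]
    refine Finset.sum_congr rfl fun b _ => ?_
    ring
  have hv := F10_cancel_vec N t ht _ hz (Fin.rev a)
  rw [Fin.rev_rev] at hv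
  have h2 : ∑ c : Fin N, xi N t (Fin.rev c) * Y N t c (Fin.rev a) = ∑ c : Fin N, Y N t a c * xi N t c := by
    rw [← Equiv.sum_comp (Fin.revPerm : Fin N ≃ Fin N)]
    refine Finset.sum_congr rfl fun c _ => ?_
    simp only [Fin.revPerm_apply, Fin.rev_rev]
    rw [← Y_sym N t ht a c]
    ring
  rw [h2] at hv
  show x' a = _
  linarith

theorem F10_Q_deriv (N : ℕ) (t : ℝ) (ht : 0 < t) (a b : Fin N) :
    HasDerivAt (fun t => F10_Q N t a b)
      (-(∑ c : Fin N, (F10_Q N t a c * Y N t c b + Y N t a c * F10_Q N t c b))) t := by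
  have h1 : HasDerivAt (fun t => ∑ c : Fin N, Y N t a c * Y N t c b)
      (∑ c : Fin N, (F10_Q N t a c * Y N t c b + Y N t a c * F10_Q N t c b)) t :=
    HasDerivAt.fun_sum fun c _ => (Y_deriv N t ht a c).mul (Y_deriv N t ht c b)
  have h2 := (hasDerivAt_const t (Zm N a b)).fun_sub h1
  rw [zero_sub] at h2
  exact h2

theorem F10_xi_eq (N : ℕ) (t : ℝ) (ht : 0 < t) (a : Fin N) :
    xi N t a = (-1) ^ ((a : ℕ) + N) * psi N a t := DE_eq N a t ht

theorem Ymain (N : ℕ) (hN : 1 ≤ N) (hpsi : ∀ a t, 0 < t → 0 < psi N a t) :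
    ∃ K : ℝ, ∀ t, 0 < t → ∀ a : Fin N,
      HasDerivAt (fun t => Y N t a a) (K * (psi N a t * psi N (N - 1 - a) t)) t := by
  obtain ⟨nu, hnu, hor⟩ := xi_orth N
  obtain ⟨n, rfl⟩ : ∃ n, N = n + 1 := ⟨N - 1, by omega⟩
  have hne : ∀ t, 0 < t → ∀ a : Fin (n + 1), xi (n + 1) t a ≠ 0 := by
    intro t ht a
    rw [F10_xi_eq _ _ ht]
    exact mul_ne_zero (pow_ne_zero _ (by norm_num)) (hpsi a t ht).ne'
  set kap : ℝ → ℝ := fun t => F10_Q (n + 1) t 0 (Fin.rev 0) / xi (n + 1) t 0 ^ 2 with hkap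
  have hQ : ∀ t, 0 < t → ∀ a b, F10_Q (n + 1) t a b = kap t * xi (n + 1) t a * xi (n + 1) t (Fin.rev b) := by
    intro t ht a b
    obtain ⟨y, hy⟩ := F10_rank (n + 1) nu hnu hor t ht
    have h0 := hne t ht 0
    have h1 : y a * xi (n + 1) t 0 = y 0 * xi (n + 1) t a := by
      have := F10_Qsym (n + 1) t ht a (Fin.rev 0)
      rw [hy, hy, Fin.rev_rev, Fin.rev_rev] at this
      exact this
    have h2 : kap t = y 0 / xi (n + 1) t 0 := by
      show F10_Q (n + 1) t 0 (Fin.rev 0) / xi (n + 1) t 0 ^ 2 = _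
      rw [hy, Fin.rev_rev]
      field_simp
    rw [hy, h2]
    have h3 : y a = y 0 / xi (n + 1) t 0 * xi (n + 1) t a := by
      field_simp
      exact h1
    rw [h3]
  have hkd : ∀ t, 0 < t → HasDerivAt kap 0 t := by
    intro t ht
    have h0 := hne t ht 0
    have hx := F10_xi_deriv (n + 1) t ht 0
    rw [F10_xi' (n + 1) nu hor t ht 0] at hx
    have hq := F10_Q_deriv (n + 1) t ht 0 (Fin.rev 0)
    have h1 := hq.fun_div (hx.fun_pow 2) (pow_ne_zero 2 h0)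
    refine h1.congr_deriv ?_
    set S : ℝ := ∑ c : Fin (n + 1), Y (n + 1) t 0 c * xi (n + 1) t c with hS
    have h2 : ∑ c : Fin (n + 1), (F10_Q (n + 1) t 0 c * Y (n + 1) t c (Fin.rev 0) +
        Y (n + 1) t 0 c * F10_Q (n + 1) t c (Fin.rev 0)) = 2 * (kap t * xi (n + 1) t 0 * S) := by
      rw [Finset.sum_add_distrib]
      have h3 : ∑ c : Fin (n + 1), F10_Q (n + 1) t 0 c * Y (n + 1) t c (Fin.rev 0) = kap t * xi (n + 1) t 0 * S := by
        rw [hS, Finset.mul_sum, ← Equiv.sum_comp (Fin.revPerm : Fin (n + 1) ≃ Fin (n + 1))]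
        refine Finset.sum_congr rfl fun c _ => ?_
        simp only [Fin.revPerm_apply]
        rw [hQ t ht, Fin.rev_rev, ← Y_sym (n + 1) t ht 0 c]
        ring
      have h4 : ∑ c : Fin (n + 1), Y (n + 1) t 0 c * F10_Q (n + 1) t c (Fin.rev 0) = kap t * xi (n + 1) t 0 * S := by
        rw [hS, Finset.mul_sum]
        refine Finset.sum_congr rfl fun c _ => ?_
        rw [hQ t ht, Fin.rev_rev]
        ring
      rw [h3, h4]
      ring
    rw [h2, hQ t ht 0 (Fin.rev 0), Fin.rev_rev]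
    rw [div_eq_zero_iff]
    left
    ring
  have hconst : ∀ t, 0 < t → kap t = kap 1 := by
    intro t ht
    exact IsOpen.is_const_of_deriv_eq_zero isOpen_Ioi isPreconnected_Ioi
      (fun x hx => (hkd x hx).differentiableAt.differentiableWithinAt)
      (fun x hx => (hkd x hx).deriv) ht (mem_Ioi.2 one_pos)
  refine ⟨kap 1 * (-1) ^ n, ?_⟩
  intro t ht a
  refine (Y_deriv (n + 1) t ht a a).congr_deriv ?_
  have h1 : (Zm (n + 1) - Y (n + 1) t * Y (n + 1) t) a a = F10_Q (n + 1) t a a := rfl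
  rw [h1, hQ t ht a a, hconst t ht, F10_xi_eq _ _ ht, F10_xi_eq _ _ ht]
  have h2 : ((Fin.rev a : Fin (n + 1)) : ℕ) = n + 1 - 1 - (a : ℕ) := by
    rw [Fin.val_rev]; omega
  rw [h2]
  have h3 : ((-1 : ℝ)) ^ ((a : ℕ) + (n + 1)) * (-1) ^ (n + 1 - 1 - (a : ℕ) + (n + 1)) = (-1) ^ n := by
    rw [← pow_add]
    have ha := a.2
    have : (a : ℕ) + (n + 1) + (n + 1 - 1 - (a : ℕ) + (n + 1)) = n + 2 * (n + 1) := by omega
    rw [this, pow_add, pow_mul]
    simp
  calc kap 1 * ((-1) ^ ((a : ℕ) + (n + 1)) * psi (n + 1) a t) *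
        ((-1) ^ (n + 1 - 1 - (a : ℕ) + (n + 1)) * psi (n + 1) (n + 1 - 1 - (a : ℕ)) t)
      = kap 1 * ((-1) ^ ((a : ℕ) + (n + 1)) * (-1) ^ (n + 1 - 1 - (a : ℕ) + (n + 1))) *
        (psi (n + 1) a t * psi (n + 1) (n + 1 - 1 - (a : ℕ)) t) := by ring
    _ = _ := by rw [h3]

end LPPEnd
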