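import Pool.Agent.Lib.MP_267da7_pr.F1
import Pool.Agent.Lib.MP_267da7_pr.B1

/-!
# F2: `psi` in terms of `Kb`, the ladder, and the boundary values of `psi 0 a`

`psi_eq`: insert the definition of `Xi` (a finite sum) in `psi` and integrate termwise:
`psi n a m = ((1/2)^n/a!) sum_(i <= n) m^(n+1) c n (i+1) m Kb (a + i - n - 3/2) m`  (`T^a T^i T^(-n-3/2) = T^(a+i-n-3/2)` for `T > 0`).

`psi_deriv`: derivative of the `i`-th term (write `a_i = c n (i+1)`, `K_be = Kb be m`, `be_i = a+i-n-3/2`, `W = m w_n`):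
`-d/dm [m^(n+1) a_i K_(be_i)] + w_n m^(n+1) a_i K_(be_i) = (1/2) m^(n+2) a_i K_(be_i - 1) + m^n ((W-n-1) a_i - m a_i') K_(be_i)`.
On the other side, by `c_succ`, `(1/2) m^(n+2) c (n+1) (i+1) = (1/2) m^(n+2) c n (i+1) + m^n ((W-n-1) c n i - m (c n i)')`, and the exponent for `n+1`
is `a + i - (n+1) - 3/2 = be_i - 1 = be_(i-1)`; so
`psi (n+1) a m = ((1/2)^n/a!) sum_(i<=n+1) [ (1/2) m^(n+2) c n (i+1) K_(be_i - 1) + m^n ((W-n-1) c n i - m (c n i)') K_(be_(i-1)) ]`, where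
`c n (n+2) = 0` and `c n 0 = 0`: shifting the second sum by one gives `psi (n+1) a = w_n psi n a - (psi n a)'`.

`psi0`: `psi 0 a m = (1/a!) m Kb (a - 3/2) m`.
First derivative: `(1/a!) (K_(a-3/2) - (m^2/2) K_(a-5/2)) = (1/a!) (2a K_(a-3/2) - (1/2) K_(a-1/2))` by `Kb_parts` with `be = a - 1/2`.
`psi0_second`: differentiate again `(m K_be)'' = -(3m/2) K_(be-1) + (m^3/4) K_(be-2) = (m/4) K_be - m (be + 3/2) K_(be-1)` by `Kb_parts`; with
`be = a - 3/2`: `psi_(0,a)'' = psi_(0,a)/4 - (a/a!) m K_(a-1-3/2) = psi_(0,a)/4 - psi_(0,a-1)` (`a >= 1`), `psi_(0,0)'' = psi_(0,0)/4`.  The first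
derivative of `psi 0 a` is `w_0 psi_(0,a) - psi_(1,a)` by `psi_deriv`.
`psi0_lim`: `Kb_lim` (`a >= 1`: `a - 3/2 > -1`) and `Kb_om`.  `psi0_lim'`: `m psi_(0,a)' = (1/a!)(2a m K_(a-3/2) - (1/2) m K_(a-1/2)) -> 0` by `Kb_lim`
(for `a = 0` the first term is absent).
-/

open Real MeasureTheory Set Filter
open scoped Topology

namespace LPPEnd

theorem psi_eq (n a : ℕ) (m : ℝ) (hm : 0 < m) :
    psi n a m = (1 / 2) ^ n / (a.factorial : ℝ) * ∑ i ∈ Finset.range (n + 1),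
      m ^ (n + 1) * c n (i + 1) m * Kb ((a : ℝ) + i - n - 3 / 2) m := by
  have h1 : ∀ T ∈ Ioi (0:ℝ), T ^ a / (a.factorial : ℝ) * Om n T m =
      ∑ i ∈ Finset.range (n + 1), ((1 / 2) ^ n / (a.factorial : ℝ) * (m ^ (n + 1) * c n (i + 1) m)) *
        (T ^ ((a : ℝ) + i - n - 3 / 2) * Real.exp (-m ^ 2 / (4 * T) - T / 4)) := by
    intro T hT
    have hT0 : (0:ℝ) < T := hT
    have hx : Real.exp (-m ^ 2 / (4 * T) - T / 4) = Real.exp (-m ^ 2 / (4 * T)) * Real.exp (-T / 4) := by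
      rw [← Real.exp_add]
      congr 1
      ring
    unfold Om Xi
    rw [Finset.mul_sum, Finset.mul_sum, Finset.mul_sum]
    refine Finset.sum_congr rfl fun i _ => ?_
    have hp : T ^ ((a : ℝ) + i - n - 3 / 2) = T ^ a * T ^ i * T ^ (-(n : ℝ) - 3 / 2) := by
      rw [← Real.rpow_natCast T a, ← Real.rpow_natCast T i, ← Real.rpow_add hT0, ← Real.rpow_add hT0]
      congr 1
      ring
    rw [hp, hx]
    ring
  unfold psi
  rw [setIntegral_congr_fun measurableSet_Ioi h1, integral_finsetSum]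
  · rw [Finset.mul_sum]
    refine Finset.sum_congr rfl fun i _ => ?_
    rw [integral_const_mul]
    unfold Kb
    ring
  · intro i _
    exact (Kb_int _ m hm).const_mul _

private theorem f2_c0 (n : ℕ) (m : ℝ) : deriv (c n 0) m = 0 := by
  have h : c n 0 = fun _ => 0 := funext fun x => c_zero n 0 (Or.inl rfl) x
  rw [h, deriv_const]

theorem psi_deriv (n a : ℕ) (m : ℝ) (hm : 0 < m) :
    HasDerivAt (psi n a) (w n m * psi n a m - psi (n + 1) a m) m := by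
  have h1 : psi n a =ᶠ[𝓝 m] fun m => (1 / 2) ^ n / (a.factorial : ℝ) * ∑ i ∈ Finset.range (n + 1),
      m ^ (n + 1) * c n (i + 1) m * Kb ((a : ℝ) + i - n - 3 / 2) m := by
    filter_upwards [lt_mem_nhds hm] with x hx
    exact psi_eq n a x hx
  have h2 : HasDerivAt (fun m => (1 / 2) ^ n / (a.factorial : ℝ) * ∑ i ∈ Finset.range (n + 1),
      m ^ (n + 1) * c n (i + 1) m * Kb ((a : ℝ) + i - n - 3 / 2) m)
      ((1 / 2) ^ n / (a.factorial : ℝ) * ∑ i ∈ Finset.range (n + 1),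
        ((((n + 1 : ℕ) : ℝ) * m ^ n * c n (i + 1) m + m ^ (n + 1) * deriv (c n (i + 1)) m) *
          Kb ((a : ℝ) + i - n - 3 / 2) m + m ^ (n + 1) * c n (i + 1) m *
            (-(m / 2) * Kb ((a : ℝ) + i - n - 3 / 2 - 1) m))) m := by
    refine HasDerivAt.const_mul _ (HasDerivAt.fun_sum fun i _ => ?_)
    have h3 : HasDerivAt (fun m : ℝ => m ^ (n + 1)) (((n + 1 : ℕ) : ℝ) * m ^ n) m := by
      simpa using hasDerivAt_pow (n + 1) m
    exact (h3.mul (c_hasDeriv n (i + 1) m hm)).mul (Kb_deriv _ m hm)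
  refine HasDerivAt.congr_of_eventuallyEq (h2.congr_deriv ?_) h1
  rw [psi_eq n a m hm, psi_eq (n + 1) a m hm]
  have e1 : ∀ i : ℕ, (a : ℝ) + i - ((n + 1 : ℕ) : ℝ) - 3 / 2 = (a : ℝ) + i - n - 3 / 2 - 1 := by
    intro i
    push_cast
    ring
  have e2 : ∀ i : ℕ, (a : ℝ) + ((i + 1 : ℕ) : ℝ) - n - 3 / 2 - 1 = (a : ℝ) + i - n - 3 / 2 := by
    intro i
    push_cast
    ring
  have h4 : ∑ i ∈ Finset.range (n + 1 + 1), m ^ (n + 1 + 1) * c (n + 1) (i + 1) m *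
      Kb ((a : ℝ) + i - ((n + 1 : ℕ) : ℝ) - 3 / 2) m =
      ∑ i ∈ Finset.range (n + 1), m ^ (n + 1 + 1) * c n (i + 1) m * Kb ((a : ℝ) + i - n - 3 / 2 - 1) m +
      ∑ i ∈ Finset.range (n + 1), 2 * m ^ n * ((m * w n m - (n + 1)) * c n (i + 1) m -
        m * deriv (c n (i + 1)) m) * Kb ((a : ℝ) + i - n - 3 / 2) m := by
    have h5 : ∀ i ∈ Finset.range (n + 1 + 1), m ^ (n + 1 + 1) * c (n + 1) (i + 1) m *
        Kb ((a : ℝ) + i - ((n + 1 : ℕ) : ℝ) - 3 / 2) m =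
        m ^ (n + 1 + 1) * c n (i + 1) m * Kb ((a : ℝ) + i - n - 3 / 2 - 1) m +
        2 * m ^ n * ((m * w n m - (n + 1)) * c n i m - m * deriv (c n i) m) *
          Kb ((a : ℝ) + i - n - 3 / 2 - 1) m := by
      intro i _
      rw [c_succ n i m hm, e1]
      have hm' : m ≠ 0 := hm.ne'
      field_simp
      ring
    rw [Finset.sum_congr rfl h5, Finset.sum_add_distrib]
    congr 1
    · rw [Finset.sum_range_succ _ (n + 1), c_zero n (n + 1 + 1) (Or.inr (by omega)) m]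
      simp
    · rw [Finset.sum_range_succ' _ (n + 1), c_zero n 0 (Or.inl rfl) m, f2_c0]
      simp only [e2]
      simp
  rw [h4]
  have h6 : ∀ i ∈ Finset.range (n + 1),
      ((((n + 1 : ℕ) : ℝ) * m ^ n * c n (i + 1) m + m ^ (n + 1) * deriv (c n (i + 1)) m) *
          Kb ((a : ℝ) + i - n - 3 / 2) m + m ^ (n + 1) * c n (i + 1) m *
            (-(m / 2) * Kb ((a : ℝ) + i - n - 3 / 2 - 1) m)) =
      w n m * (m ^ (n + 1) * c n (i + 1) m * Kb ((a : ℝ) + i - n - 3 / 2) m) -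
        (1 / 2) * (m ^ (n + 1 + 1) * c n (i + 1) m * Kb ((a : ℝ) + i - n - 3 / 2 - 1) m +
          2 * m ^ n * ((m * w n m - (n + 1)) * c n (i + 1) m -
            m * deriv (c n (i + 1)) m) * Kb ((a : ℝ) + i - n - 3 / 2) m) := by
    intro i _
    push_cast
    ring
  rw [Finset.sum_congr rfl h6, Finset.sum_sub_distrib, ← Finset.mul_sum, ← Finset.mul_sum,
    Finset.sum_add_distrib]
  ring

private theorem f2_psi0 (a : ℕ) (m : ℝ) (hm : 0 < m) :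
    psi 0 a m = 1 / (a.factorial : ℝ) * (m * Kb ((a : ℝ) - 3 / 2) m) := by
  rw [psi_eq 0 a m hm, Finset.sum_range_one, c_one]
  have h : (a : ℝ) + ((0 : ℕ) : ℝ) - ((0 : ℕ) : ℝ) - 3 / 2 = (a : ℝ) - 3 / 2 := by
    push_cast
    ring
  rw [h]
  ring

private theorem f2_first (a : ℕ) (m : ℝ) (hm : 0 < m) :
    w 0 m * psi 0 a m - psi 1 a m =
      1 / (a.factorial : ℝ) * (Kb ((a : ℝ) - 3 / 2) m - m ^ 2 / 2 * Kb ((a : ℝ) - 3 / 2 - 1) m) := by
  have h1 := psi_deriv 0 a m hm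
  have h2 : psi 0 a =ᶠ[𝓝 m] fun m => 1 / (a.factorial : ℝ) * (m * Kb ((a : ℝ) - 3 / 2) m) := by
    filter_upwards [lt_mem_nhds hm] with x hx
    exact f2_psi0 a x hx
  have h3 : HasDerivAt (fun m => 1 / (a.factorial : ℝ) * (m * Kb ((a : ℝ) - 3 / 2) m))
      (1 / (a.factorial : ℝ) * (1 * Kb ((a : ℝ) - 3 / 2) m +
        m * (-(m / 2) * Kb ((a : ℝ) - 3 / 2 - 1) m))) m :=
    ((hasDerivAt_id' m).mul (Kb_deriv _ m hm)).const_mul _
  rw [h1.unique (h3.congr_of_eventuallyEq h2)]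
  ring

theorem psi0_second (a : ℕ) (m : ℝ) (hm : 0 < m) :
    HasDerivAt (fun m => w 0 m * psi 0 a m - psi 1 a m)
      (1 / 4 * psi 0 a m - (if a = 0 then 0 else psi 0 (a - 1) m)) m := by
  have h2 : (fun m => w 0 m * psi 0 a m - psi 1 a m) =ᶠ[𝓝 m] fun m =>
      1 / (a.factorial : ℝ) * (Kb ((a : ℝ) - 3 / 2) m - m ^ 2 / 2 * Kb ((a : ℝ) - 3 / 2 - 1) m) := by
    filter_upwards [lt_mem_nhds hm] with x hx
    exact f2_first a x hx
  have h4 : HasDerivAt (fun m : ℝ => m ^ 2 / 2) m m := by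
    have := (hasDerivAt_pow 2 m).div_const 2
    refine this.congr_deriv ?_
    norm_num
  have h3 : HasDerivAt (fun m =>
      1 / (a.factorial : ℝ) * (Kb ((a : ℝ) - 3 / 2) m - m ^ 2 / 2 * Kb ((a : ℝ) - 3 / 2 - 1) m))
      (1 / (a.factorial : ℝ) * (-(m / 2) * Kb ((a : ℝ) - 3 / 2 - 1) m -
        (m * Kb ((a : ℝ) - 3 / 2 - 1) m + m ^ 2 / 2 * (-(m / 2) * Kb ((a : ℝ) - 3 / 2 - 1 - 1) m)))) m :=
    ((Kb_deriv _ m hm).sub (h4.mul (Kb_deriv _ m hm))).const_mul _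
  refine (h3.congr_deriv ?_).congr_of_eventuallyEq h2
  have hp := Kb_parts ((a : ℝ) - 3 / 2) m hm
  have e1 : (a : ℝ) - 3 / 2 - 1 - 1 = (a : ℝ) - 3 / 2 - 2 := by ring
  rw [e1, f2_psi0 a m hm]
  split_ifs with ha
  · subst ha
    simp only [Nat.cast_zero] at hp ⊢
    linear_combination (1 / ((Nat.factorial 0 : ℕ) : ℝ)) * m * hp
  · obtain ⟨b, rfl⟩ := Nat.exists_eq_succ_of_ne_zero ha
    have hb : (((b + 1).factorial : ℕ) : ℝ) = (b + 1) * (b.factorial : ℝ) := by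
      rw [Nat.factorial_succ]
      push_cast
      ring
    have hb0 : (b.factorial : ℝ) ≠ 0 := Nat.cast_ne_zero.2 (Nat.factorial_ne_zero b)
    have hb1 : (b : ℝ) + 1 ≠ 0 := by positivity
    have e2 : ((b + 1 : ℕ) : ℝ) - 3 / 2 - 1 = (b : ℝ) - 3 / 2 := by
      push_cast
      ring
    simp only [Nat.succ_eq_add_one, Nat.add_sub_cancel] at hp ⊢
    rw [f2_psi0 b m hm, hb]
    rw [e2] at hp ⊢
    push_cast at hp ⊢
    generalize Kb ((b : ℝ) - 3 / 2) m = K2 at hp ⊢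
    generalize Kb ((b : ℝ) + 1 - 3 / 2 - 2) m = K3 at hp ⊢
    generalize Kb ((b : ℝ) + 1 - 3 / 2) m = K1 at hp ⊢
    have e5 : 1 / (b.factorial : ℝ) = 1 / (((b : ℝ) + 1) * (b.factorial : ℝ)) * (b + 1) := by
      field_simp
    rw [e5]
    linear_combination (1 / (((b : ℝ) + 1) * (b.factorial : ℝ))) * m * hp

private theorem f2_ev : ∀ᶠ m : ℝ in 𝓝[>] 0, 0 < m := self_mem_nhdsWithin

theorem psi0_lim_zero : ∃ om : ℝ, 0 < om ∧ Tendsto (psi 0 0) (𝓝[>] 0) (𝓝 om) := by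
  obtain ⟨om, h0, h1⟩ := Kb_om
  refine ⟨om, h0, h1.congr' ?_⟩
  filter_upwards [f2_ev] with m hm
  rw [f2_psi0 0 m hm]
  simp only [Nat.factorial_zero, Nat.cast_one, Nat.cast_zero]
  have h : (0 : ℝ) - 3 / 2 = -3 / 2 := by ring
  rw [h]
  ring

theorem psi0_lim (a : ℕ) (ha : 1 ≤ a) : Tendsto (psi 0 a) (𝓝[>] 0) (𝓝 0) := by
  have ha' : (1 : ℝ) ≤ a := by exact_mod_cast ha
  have h1 := (Kb_lim ((a : ℝ) - 3 / 2) (by linarith)).const_mul (1 / (a.factorial : ℝ))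
  rw [mul_zero] at h1
  refine h1.congr' ?_
  filter_upwards [f2_ev] with m hm
  rw [f2_psi0 a m hm]

theorem psi0_lim' (a : ℕ) :
    Tendsto (fun m => m * (w 0 m * psi 0 a m - psi 1 a m)) (𝓝[>] 0) (𝓝 0) := by
  have key : ∀ m : ℝ, 0 < m → m * (w 0 m * psi 0 a m - psi 1 a m) =
      1 / (a.factorial : ℝ) * (2 * a * (m * Kb ((a : ℝ) - 3 / 2) m) - 1 / 2 * (m * Kb ((a : ℝ) - 1 / 2) m)) := by
    intro m hm
    rw [f2_first a m hm]
    have hp := Kb_parts ((a : ℝ) - 1 / 2) m hm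
    have e1 : (a : ℝ) - 1 / 2 - 1 = (a : ℝ) - 3 / 2 := by ring
    have e2 : (a : ℝ) - 1 / 2 - 2 = (a : ℝ) - 3 / 2 - 1 := by ring
    rw [e1, e2] at hp
    linear_combination (-2 * (1 / (a.factorial : ℝ)) * m) * hp
  have h2 := (Kb_lim ((a : ℝ) - 1 / 2) (by have : (0 : ℝ) ≤ a := Nat.cast_nonneg a; linarith)).const_mul (1 / 2)
  have h3 : Tendsto (fun m => 2 * (a : ℝ) * (m * Kb ((a : ℝ) - 3 / 2) m)) (𝓝[>] 0) (𝓝 0) := by
    rcases Nat.eq_zero_or_pos a with rfl | ha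
    · simp
    · have ha' : (1 : ℝ) ≤ a := by exact_mod_cast ha
      have h4 := (Kb_lim ((a : ℝ) - 3 / 2) (by linarith)).const_mul (2 * (a : ℝ))
      rwa [mul_zero] at h4
  have h5 := (h3.sub h2).const_mul (1 / (a.factorial : ℝ))
  rw [mul_zero, sub_zero, mul_zero] at h5
  refine h5.congr' ?_
  filter_upwards [f2_ev] with m hm
  exact (key m hm).symm

end LPPEnd
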