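import Pool.Agent.Lib.MP_267da7_pr.Defs

/-!
# F3: the functions `g a`

`g 0 = 2 sinh(t/2)`, `gp 0 = cosh(t/2)`.  `g (a+1) t = e^(t/2) A t - e^(-t/2) B t`, `A t = int_0^t e^(-s/2) g a`, `B t = int_0^t e^(s/2) g a`,
`gp (a+1) t = (e^(t/2) A t + e^(-t/2) B t)/2`.  All continuous on `R` (induction).
`(g (a+1))' = (1/2)(e^(t/2) A + e^(-t/2) B) + (g a - g a) = gp (a+1)`,
`(gp (a+1))' = (1/4)(e^(t/2) A - e^(-t/2) B) + (1/2)(g a + g a) = g (a+1)/4 + g a`.
-/

open Real MeasureTheory Set Filter
open scoped Topology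

namespace LPPEnd

private theorem F3_gs (a : ℕ) (t : ℝ) : g (a + 1) t =
    Real.exp (t / 2) * (∫ s in (0:ℝ)..t, Real.exp (-s / 2) * g a s)
      - Real.exp (-t / 2) * (∫ s in (0:ℝ)..t, Real.exp (s / 2) * g a s) := rfl

private theorem F3_gps (a : ℕ) (t : ℝ) : gp (a + 1) t =
    (1 / 2) * (Real.exp (t / 2) * (∫ s in (0:ℝ)..t, Real.exp (-s / 2) * g a s)
      + Real.exp (-t / 2) * (∫ s in (0:ℝ)..t, Real.exp (s / 2) * g a s)) := rfl

private theorem F3_int (a : ℕ) (ha : Continuous (g a)) (t : ℝ) :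
    HasDerivAt (fun t => ∫ s in (0:ℝ)..t, Real.exp (-s / 2) * g a s)
      (Real.exp (-t / 2) * g a t) t ∧
    HasDerivAt (fun t => ∫ s in (0:ℝ)..t, Real.exp (s / 2) * g a s)
      (Real.exp (t / 2) * g a t) t := by
  have h1 : Continuous (fun s => Real.exp (-s / 2) * g a s) := by fun_prop
  have h2 : Continuous (fun s => Real.exp (s / 2) * g a s) := by fun_prop
  exact ⟨intervalIntegral.integral_hasDerivAt_right (h1.intervalIntegrable _ _)
      h1.stronglyMeasurable.stronglyMeasurableAtFilter h1.continuousAt,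
    intervalIntegral.integral_hasDerivAt_right (h2.intervalIntegrable _ _)
      h2.stronglyMeasurable.stronglyMeasurableAtFilter h2.continuousAt⟩

private theorem F3_exp (t : ℝ) : HasDerivAt (fun t : ℝ => Real.exp (t / 2))
    (Real.exp (t / 2) / 2) t ∧
    HasDerivAt (fun t : ℝ => Real.exp (-t / 2)) (-(Real.exp (-t / 2) / 2)) t := by
  constructor
  · have h1 := ((hasDerivAt_id t).div_const 2).exp
    refine h1.congr_deriv ?_
    simp only [id]
    ring
  · have h1 := ((hasDerivAt_id t).neg.div_const 2).exp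
    refine h1.congr_deriv ?_
    simp only [Pi.neg_apply, id]
    ring

private theorem F3_mul (t : ℝ) : Real.exp (t / 2) * Real.exp (-t / 2) = 1 := by
  rw [← Real.exp_add]
  have : t / 2 + -t / 2 = 0 := by ring
  rw [this, Real.exp_zero]

private theorem F3_step (a : ℕ) (ha : Continuous (g a)) (t : ℝ) :
    HasDerivAt (g (a + 1)) (gp (a + 1) t) t ∧
    HasDerivAt (gp (a + 1)) (1 / 4 * g (a + 1) t + g a t) t := by
  obtain ⟨hA, hB⟩ := F3_int a ha t
  obtain ⟨e1, e2⟩ := F3_exp t
  have hm := F3_mul t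
  constructor
  · have h1 := (e1.mul hA).sub (e2.mul hB)
    have h2 : g (a + 1) = ((fun t : ℝ => Real.exp (t / 2))
        * fun t => ∫ s in (0:ℝ)..t, Real.exp (-s / 2) * g a s)
        - ((fun t : ℝ => Real.exp (-t / 2)) * fun t => ∫ s in (0:ℝ)..t, Real.exp (s / 2) * g a s) := by
      funext u
      rfl
    rw [h2]
    refine h1.congr_deriv ?_
    rw [F3_gps]
    ring
  · have h1 := ((e1.mul hA).add (e2.mul hB)).const_mul (1 / 2)
    have h2 : gp (a + 1) = fun y => 1 / 2 * (((fun t : ℝ => Real.exp (t / 2))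
        * fun t => ∫ s in (0:ℝ)..t, Real.exp (-s / 2) * g a s)
        + ((fun t : ℝ => Real.exp (-t / 2)) * fun t => ∫ s in (0:ℝ)..t, Real.exp (s / 2) * g a s)) y := by
      funext u
      rfl
    rw [h2]
    refine h1.congr_deriv ?_
    rw [F3_gs]
    linear_combination (g a t) * hm

private theorem F3_zero (t : ℝ) : HasDerivAt (g 0) (gp 0 t) t ∧
    HasDerivAt (gp 0) (1 / 4 * g 0 t) t := by
  have hh : HasDerivAt (fun t : ℝ => t / 2) (1 / 2) t := by
    simpa using (hasDerivAt_id t).div_const 2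
  constructor
  · have h1 := (hh.sinh).const_mul 2
    refine h1.congr_deriv ?_
    change _ = Real.cosh (t / 2)
    ring
  · have h1 := hh.cosh
    refine h1.congr_deriv ?_
    change _ = 1 / 4 * (2 * Real.sinh (t / 2))
    ring

private theorem F3_cont (a : ℕ) : Continuous (g a) := by
  induction a with
  | zero =>
    exact continuous_iff_continuousAt.2 fun t => (F3_zero t).1.continuousAt
  | succ a ih =>
    exact continuous_iff_continuousAt.2 fun t => (F3_step a ih t).1.continuousAt

theorem g_deriv (a : ℕ) (t : ℝ) : HasDerivAt (g a) (gp a t) t := by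
  cases a with
  | zero => exact (F3_zero t).1
  | succ a => exact (F3_step a (F3_cont a) t).1

theorem gp_deriv (a : ℕ) (t : ℝ) :
    HasDerivAt (gp a) (1 / 4 * g a t + (if a = 0 then 0 else g (a - 1) t)) t := by
  cases a with
  | zero =>
    refine (F3_zero t).2.congr_deriv ?_
    simp
  | succ a =>
    refine (F3_step a (F3_cont a) t).2.congr_deriv ?_
    rw [if_neg (Nat.succ_ne_zero a), Nat.add_sub_cancel]

theorem g_zero (a : ℕ) : g a 0 = 0 := by
  cases a with
  | zero =>
    change 2 * Real.sinh (0 / 2) = 0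
    simp
  | succ a =>
    rw [F3_gs]
    simp

theorem gp_zero (a : ℕ) : gp a 0 = if a = 0 then 1 else 0 := by
  cases a with
  | zero =>
    change Real.cosh (0 / 2) = _
    simp
  | succ a =>
    rw [F3_gps]
    simp

end LPPEnd
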