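import Pool.Agent.Lib.MP_267da7_pr.F2
import Pool.Agent.Lib.MP_267da7_pr.F3

/-!
# F4: power series identities

Coefficientwise differentiation of `Gs`, `Gs'`, `Es`, `Es'`.
-/

open Real MeasureTheory Set Filter
open scoped Topology

namespace LPPEnd

theorem f4_coeff_Z (f : PowerSeries ℝ) (b : ℕ) :
    PowerSeries.coeff b (Z * f) = 1 / 4 * PowerSeries.coeff b f +
      (if b = 0 then 0 else PowerSeries.coeff (b - 1) f) := by
  unfold Z
  rw [add_mul, map_add, PowerSeries.coeff_C_mul]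
  cases b with
  | zero => simp
  | succ b => rw [PowerSeries.coeff_succ_X_mul, if_neg (Nat.succ_ne_zero b), Nat.add_sub_cancel]

/-- coefficientwise derivative -/
def F4HD (f : ℝ → PowerSeries ℝ) (f' : PowerSeries ℝ) (t : ℝ) : Prop :=
  ∀ a, HasDerivAt (fun s => PowerSeries.coeff a (f s)) (PowerSeries.coeff a f') t

theorem F4HD.mulZ {f : ℝ → PowerSeries ℝ} {f' : PowerSeries ℝ} {t : ℝ} (h : F4HD f f' t) :
    F4HD (fun s => Z * f s) (Z * f') t := by
  intro a
  simp only [f4_coeff_Z]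
  refine ((h a).const_mul (1 / 4)).add ?_
  by_cases ha : a = 0
  · simp only [if_pos ha]
    exact hasDerivAt_const t 0
  · simp only [if_neg ha]
    exact h (a - 1)

theorem F4HD.mul {f g : ℝ → PowerSeries ℝ} {f' g' : PowerSeries ℝ} {t : ℝ} (hf : F4HD f f' t)
    (hg : F4HD g g' t) : F4HD (fun s => f s * g s) (f' * g t + f t * g') t := by
  intro a
  rw [map_add, PowerSeries.coeff_mul, PowerSeries.coeff_mul, ← Finset.sum_add_distrib]
  simp only [PowerSeries.coeff_mul]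
  exact HasDerivAt.fun_sum fun p _ => (hf p.1).mul (hg p.2)

theorem F4HD.sub {f g : ℝ → PowerSeries ℝ} {f' g' : PowerSeries ℝ} {t : ℝ} (hf : F4HD f f' t)
    (hg : F4HD g g' t) : F4HD (fun s => f s - g s) (f' - g') t := by
  intro a
  simp only [map_sub]
  exact (hf a).sub (hg a)

theorem f4_dp (f f' : ℝ → PowerSeries ℝ) (t : ℝ) (h1 : F4HD f (f' t) t)
    (h2 : F4HD f' (Z * f t) t) (j : ℕ) :
    F4HD (fun s => dp (f s) (f' s) j) (dp (f t) (f' t) (j + 1)) t ∧
      F4HD (fun s => dp (f s) (f' s) (j + 1)) (dp (f t) (f' t) (j + 2)) t := by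
  induction j with
  | zero => exact ⟨h1, h2⟩
  | succ j ih => exact ⟨ih.2, ih.1.mulZ⟩

theorem f4_G1 (t : ℝ) : F4HD Gs (Gs' t) t := by
  intro a
  simp only [Gs, Gs', PowerSeries.coeff_mk]
  exact g_deriv a t

theorem f4_G2 (t : ℝ) : F4HD Gs' (Z * Gs t) t := by
  intro a
  rw [f4_coeff_Z]
  simp only [Gs, Gs', PowerSeries.coeff_mk]
  exact gp_deriv a t

theorem f4_E1 (t : ℝ) (ht : 0 < t) : F4HD Es (Es' t) t := by
  intro a
  simp only [Es, Es', PowerSeries.coeff_mk]
  exact (psi_deriv 0 a t ht).const_mul _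

theorem f4_E2 (t : ℝ) (ht : 0 < t) : F4HD Es' (Z * Es t) t := by
  intro a
  rw [f4_coeff_Z]
  simp only [Es, Es', PowerSeries.coeff_mk]
  have h := (psi0_second a t ht).const_mul ((-1) ^ a)
  have e : 1 / 4 * ((-1) ^ a * psi 0 a t) +
      (if a = 0 then 0 else (-1) ^ (a - 1) * psi 0 (a - 1) t) =
      (-1) ^ a * (1 / 4 * psi 0 a t - if a = 0 then 0 else psi 0 (a - 1) t) := by
    by_cases ha : a = 0
    · rw [if_pos ha, if_pos ha]
      ring
    · rw [if_neg ha, if_neg ha]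
      obtain ⟨b, rfl⟩ := Nat.exists_eq_succ_of_ne_zero ha
      rw [Nat.succ_sub_one, pow_succ]
      ring
  rw [e]
  exact h

theorem dpG_deriv (a j : ℕ) (t : ℝ) :
    HasDerivAt (fun t => PowerSeries.coeff a (dp (Gs t) (Gs' t) j))
      (PowerSeries.coeff a (dp (Gs t) (Gs' t) (j + 1))) t :=
  (f4_dp Gs Gs' t (f4_G1 t) (f4_G2 t) j).1 a

theorem dpE_deriv (a j : ℕ) (t : ℝ) (ht : 0 < t) :
    HasDerivAt (fun t => PowerSeries.coeff a (dp (Es t) (Es' t) j))
      (PowerSeries.coeff a (dp (Es t) (Es' t) (j + 1))) t :=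
  (f4_dp Es Es' t (f4_E1 t ht) (f4_E2 t ht) j).1 a

theorem f4_G0 : Gs 0 = 0 := by
  ext a
  simp only [Gs, PowerSeries.coeff_mk, g_zero, map_zero]

theorem f4_G0' : Gs' 0 = 1 := by
  ext a
  simp only [Gs', PowerSeries.coeff_mk, gp_zero, PowerSeries.coeff_one]

theorem gs_id (t : ℝ) : Gs' t ^ 2 - Z * Gs t ^ 2 = 1 := by
  have hd : ∀ t, F4HD (fun s => Gs' s * Gs' s - Z * (Gs s * Gs s)) 0 t := by
    intro t
    have h := ((f4_G2 t).mul (f4_G2 t)).sub ((f4_G1 t).mul (f4_G1 t)).mulZ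
    have e : Z * Gs t * Gs' t + Gs' t * (Z * Gs t) - Z * (Gs' t * Gs t + Gs t * Gs' t) = 0 := by
      ring
    rw [e] at h
    exact h
  ext a
  have hc := is_const_of_deriv_eq_zero (fun s => (hd s a).differentiableAt)
    (fun s => by rw [(hd s a).deriv, map_zero]) t 0
  simp only [f4_G0, f4_G0', mul_zero, sub_zero, mul_one] at hc
  rw [sq, sq, hc]

theorem f4_tE {om : ℝ} (h0 : Tendsto (psi 0 0) (𝓝[>] 0) (𝓝 om)) (i : ℕ) :
    Tendsto (fun t => PowerSeries.coeff i (Es t)) (𝓝[>] 0)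
      (𝓝 (PowerSeries.coeff i (PowerSeries.C om))) := by
  rw [PowerSeries.coeff_C]
  simp only [Es, PowerSeries.coeff_mk]
  cases i with
  | zero => simpa using h0
  | succ i =>
    rw [if_neg (Nat.succ_ne_zero i)]
    simpa using (psi0_lim (i + 1) (Nat.succ_le_succ (Nat.zero_le i))).const_mul ((-1 : ℝ) ^ (i + 1))

theorem f4_tG' (i : ℕ) : Tendsto (fun t => PowerSeries.coeff i (Gs' t)) (𝓝[>] 0)
    (𝓝 (PowerSeries.coeff i (1 : PowerSeries ℝ))) := by
  rw [← f4_G0']
  exact ((f4_G2 0 i).continuousAt.tendsto).mono_left nhdsWithin_le_nhds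

theorem f4_tEG (i j : ℕ) :
    Tendsto (fun t => PowerSeries.coeff i (Es' t) * PowerSeries.coeff j (Gs t)) (𝓝[>] 0)
      (𝓝 0) := by
  have h1 : Tendsto (fun t => t * PowerSeries.coeff i (Es' t)) (𝓝[>] 0) (𝓝 0) := by
    simp only [Es', PowerSeries.coeff_mk]
    have h := (psi0_lim' i).const_mul ((-1 : ℝ) ^ i)
    rw [mul_zero] at h
    refine h.congr fun t => ?_
    ring
  have h2 : Tendsto (fun t => t⁻¹ * PowerSeries.coeff j (Gs t)) (𝓝[>] 0)
      (𝓝 (PowerSeries.coeff j (Gs' 0))) := by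
    have h := (f4_G1 0 j).tendsto_slope_zero_right
    refine h.congr fun t => ?_
    rw [zero_add, f4_G0, map_zero, sub_zero, smul_eq_mul]
  have h3 := h1.mul h2
  rw [zero_mul] at h3
  refine h3.congr' ?_
  filter_upwards [self_mem_nhdsWithin] with t ht
  have ht' : t ≠ 0 := ne_of_gt ht
  field_simp

theorem es_id : ∃ om : ℝ, 0 < om ∧
    ∀ t, 0 < t → Es t * Gs' t - Es' t * Gs t = PowerSeries.C om := by
  obtain ⟨om, hom, h0⟩ := psi0_lim_zero
  refine ⟨om, hom, ?_⟩
  intro t ht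
  have hd : ∀ t, 0 < t → F4HD (fun s => Es s * Gs' s - Es' s * Gs s) 0 t := by
    intro t ht
    have h := ((f4_E1 t ht).mul (f4_G2 t)).sub ((f4_E2 t ht).mul (f4_G1 t))
    have e : Es' t * Gs' t + Es t * (Z * Gs t) - (Z * Es t * Gs t + Es' t * Gs' t) = 0 := by
      ring
    rw [e] at h
    exact h
  ext a
  -- the function is constant
  have hconst : ∀ s, 0 < s → PowerSeries.coeff a (Es s * Gs' s - Es' s * Gs s) =
      PowerSeries.coeff a (Es t * Gs' t - Es' t * Gs t) := by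
    intro s hs
    have hexp : ∀ u : ℝ, HasDerivAt (fun u : ℝ => PowerSeries.coeff a
        (Es (Real.exp u) * Gs' (Real.exp u) - Es' (Real.exp u) * Gs (Real.exp u))) 0 u := by
      intro u
      have h := (hd (Real.exp u) (Real.exp_pos u) a).comp u (Real.hasDerivAt_exp u)
      rw [map_zero, zero_mul] at h
      exact h
    have hc := is_const_of_deriv_eq_zero (fun u => (hexp u).differentiableAt)
      (fun u => (hexp u).deriv) (Real.log s) (Real.log t)
    simpa only [Real.exp_log hs, Real.exp_log ht] using hc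
  have hlim : Tendsto (fun s => PowerSeries.coeff a (Es s * Gs' s - Es' s * Gs s)) (𝓝[>] 0)
      (𝓝 (PowerSeries.coeff a (PowerSeries.C om * 1 - 0))) := by
    simp only [map_sub, PowerSeries.coeff_mul, map_zero]
    refine Tendsto.sub (tendsto_finsetSum _ fun p _ => (f4_tE h0 p.1).mul (f4_tG' p.2)) ?_
    have h := tendsto_finsetSum (Finset.HasAntidiagonal.antidiagonal a) fun p _ => f4_tEG p.1 p.2
    simpa only [Finset.sum_const_zero] using h
  have hlim2 : Tendsto (fun s => PowerSeries.coeff a (Es s * Gs' s - Es' s * Gs s)) (𝓝[>] 0)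
      (𝓝 (PowerSeries.coeff a (Es t * Gs' t - Es' t * Gs t))) := by
    refine tendsto_const_nhds.congr' ?_
    filter_upwards [self_mem_nhdsWithin] with s hs
    exact (hconst s hs).symm
  have h := tendsto_nhds_unique hlim2 hlim
  rw [h, mul_one, sub_zero]

end LPPEnd
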