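import Pool.Agent.Lib.MP_267da7_pr.F4
import Pool.Agent.Lib.MP_267da7_pr.A5

/-!
# F6: the operators `(d - w_(n-1)) ... (d - w_0)` applied to `g` and `e`

`ga n j` are smooth on `(0,oo)` (A2), `ga n n = 1`, `ga n j = 0` for `j > n` (induction).
`DG n a t = sum_(j<=n) ga_(n,j) coeff a (dp Gs Gs' j)`, `DE` the same for `Es`.
`DG_deriv`: product rule: `(DG n a)' = sum_j ga_(n,j)' d_j + ga_(n,j) d_(j+1)` (`d_j = coeff a (dp .. j)`, F4), and by the recursion of `ga` this is
`DG (n+1) a + w_n DG n a`.  The same for `DE`, `t > 0`.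
`DE_eq`: `DE 0 a = coeff a Es = (-1)^a psi 0 a`; step: `DE (n+1) a = (DE n a)' - w_n DE n a = (-1)^(a+n) (psi_(n,a)' - w_n psi_(n,a)) = -(-1)^(a+n) psi_(n+1,a)`
by `psi_deriv` (F2).

`DG_zero`, `DG_diag`.  Write `f_a = DG n a`, `F_a = DG (n+1) a = f_a' - w_n f_a`.  Induction on `n`, statement `S_n`, for all `a`:
 (i) for `t > 0`: `(f_a')' = V_n f_a + f_(a-1)` (`f_(-1) := 0`), i.e. the function `w_n f_a + F_a` (which is `f_a'`) has derivative `V_n f_a + f_(a-1)`;
 (ii) `f_a -> 0` as `t -> 0+`, and `f_a'` is bounded on `(0,1]`;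
 (iii) `f_a = 0` for `a < n`, `f_n = cc n * th n`.
 `S_0`: `f_a = g_a`: F3 (`V_0 = 1/4`).
 `S_n => S_(n+1)`:  from (i): `F_a' = (f_a')' - w_n' f_a - w_n f_a' = V_n f_a + f_(a-1) - (V_n - w_n^2) f_a - w_n (F_a + w_n f_a) = f_(a-1) - w_n F_a`.  (*)
 So `(th_n F_a)' = th_n f_(a-1)`.  `th_n F_a = th_n f_a' - w_n th_n f_a -> 0` at `0+` (`th_n -> 0`, `f_a'` bounded, `w_n th_n` bounded near `0`:
 `th_n/t` is nondecreasing on `(0,oo)` since `(th_n/t)' = th_n (t w_n - 1)/t^2 >= 0` by A5_w, and `t w_n` is bounded on `(0,1]`).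
 Hence `th_n(t) F_a(t) = int_0^t th_n f_(a-1)` (`= 0` for `a = 0`).  With `th_n` nondecreasing (`w_n >= 0`): `|F_a(t)| <= t sup_(0,t] |f_(a-1)| -> 0`, and by (*)
 `|F_a'| <= |f_(a-1)| + (t w_n) sup |f_(a-1)|` is bounded: (ii).  (iii): `a < n+1`: `f_(a-1) = 0`; `a = n+1`:
 `th_n F_(n+1) = cc_n int_0^t th_n^2 = cc_n th_n th_(n+1)/(2n+3)`, so `F_(n+1) = cc_(n+1) th_(n+1)`.
 (i): derivative of `F_a' = f_(a-1) - w_n F_a`: `f_(a-1)' - w_n' F_a - w_n F_a' = (F_(a-1) + w_n f_(a-1)) - (V_n - w_n^2) F_a - w_n (f_(a-1) - w_n F_a)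
 = F_(a-1) + (2 w_n^2 - V_n) F_a = F_(a-1) + V_(n+1) F_a`.
-/

open Real MeasureTheory Set Filter
open scoped Topology

namespace LPPEnd

noncomputable def DG (n a : ℕ) (t : ℝ) : ℝ :=
  ∑ j ∈ Finset.range (n + 1), ga n j t * PowerSeries.coeff a (dp (Gs t) (Gs' t) j)

noncomputable def DE (n a : ℕ) (t : ℝ) : ℝ :=
  ∑ j ∈ Finset.range (n + 1), ga n j t * PowerSeries.coeff a (dp (Es t) (Es' t) j)

theorem ga_zero (n j : ℕ) (h : n < j) (t : ℝ) : ga n j t = 0 := by
  induction n generalizing j t with
  | zero =>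
    obtain ⟨k, rfl⟩ : ∃ k, j = k + 1 := ⟨j - 1, by omega⟩
    simp [ga]
  | succ n ih =>
    obtain ⟨k, rfl⟩ : ∃ k, j = k + 1 := ⟨j - 1, by omega⟩
    have h1 : ga n k t = 0 := ih k (by omega) t
    have h2 : ga n (k + 1) = fun _ => 0 := by
      funext s
      exact ih (k + 1) (by omega) s
    simp only [ga, h1, h2]
    simp

theorem ga_diag (n : ℕ) (t : ℝ) : ga n n t = 1 := by
  induction n generalizing t with
  | zero => simp [ga]
  | succ n ih =>
    have h2 : ga n (n + 1) = fun _ => 0 := by
      funext s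
      exact ga_zero n (n + 1) (by omega) s
    simp only [ga, ih, h2]
    simp

theorem F6_ga_smooth (n j : ℕ) : ContDiffOn ℝ (⊤ : ℕ∞) (ga n j) (Ioi 0) := by
  induction n generalizing j with
  | zero =>
    cases j with
    | zero =>
      have : ga 0 0 = fun _ => (1 : ℝ) := by
        funext s; simp [ga]
      rw [this]
      exact contDiffOn_const
    | succ j =>
      have : ga 0 (j + 1) = fun _ => (0 : ℝ) := by
        funext s; simp [ga]
      rw [this]
      exact contDiffOn_const
  | succ n ih =>
    have hd : ∀ j, ContDiffOn ℝ (⊤ : ℕ∞) (deriv (ga n j)) (Ioi 0) := fun j =>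
      (ih j).deriv_of_isOpen isOpen_Ioi (by simp)
    cases j with
    | zero =>
      have : ga (n + 1) 0 = fun t => deriv (ga n 0) t - w n t * ga n 0 t := by
        funext s; simp [ga]
      rw [this]
      exact (hd 0).sub ((w_smooth n).mul (ih 0))
    | succ j =>
      have : ga (n + 1) (j + 1) = fun t => ga n j t + deriv (ga n (j + 1)) t
          - w n t * ga n (j + 1) t := by
        funext s; simp [ga]
      rw [this]
      exact ((ih j).add (hd (j + 1))).sub ((w_smooth n).mul (ih (j + 1)))

theorem F6_ga_deriv (n j : ℕ) (t : ℝ) (ht : 0 < t) :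
    HasDerivAt (ga n j) (deriv (ga n j) t) t := by
  have h1 : DifferentiableOn ℝ (ga n j) (Ioi 0) :=
    (F6_ga_smooth n j).differentiableOn (by simp)
  exact (h1.differentiableAt (Ioi_mem_nhds ht)).hasDerivAt

theorem F6_sum_deriv (n : ℕ) (d : ℕ → ℝ → ℝ) (t : ℝ) (ht : 0 < t)
    (hd : ∀ j, HasDerivAt (d j) (d (j + 1) t) t) :
    HasDerivAt (fun t => ∑ j ∈ Finset.range (n + 1), ga n j t * d j t)
      ((∑ j ∈ Finset.range (n + 1 + 1), ga (n + 1) j t * d j t)
        + w n t * ∑ j ∈ Finset.range (n + 1), ga n j t * d j t) t := by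
  have h1 : HasDerivAt (fun t => ∑ j ∈ Finset.range (n + 1), ga n j t * d j t)
      (∑ j ∈ Finset.range (n + 1), (deriv (ga n j) t * d j t + ga n j t * d (j + 1) t)) t := by
    apply HasDerivAt.fun_sum
    intro j _
    exact (F6_ga_deriv n j t ht).mul (hd j)
  convert h1 using 1
  rw [Finset.sum_range_succ' (fun j => ga (n + 1) j t * d j t) (n + 1)]
  have h0 : ga (n + 1) 0 t = deriv (ga n 0) t - w n t * ga n 0 t := by simp [ga]
  have hs : ∀ j, ga (n + 1) (j + 1) t = ga n j t + deriv (ga n (j + 1)) t
      - w n t * ga n (j + 1) t := by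
    intro j; simp [ga]
  rw [h0]
  have e1 : ∑ j ∈ Finset.range (n + 1), ga (n + 1) (j + 1) t * d (j + 1) t
      = (∑ j ∈ Finset.range (n + 1), ga n j t * d (j + 1) t)
        + ∑ j ∈ Finset.range (n + 1), (deriv (ga n (j + 1)) t - w n t * ga n (j + 1) t)
            * d (j + 1) t := by
    rw [← Finset.sum_add_distrib]
    apply Finset.sum_congr rfl
    intro j _
    rw [hs]; ring
  rw [e1]
  have e2 : (∑ j ∈ Finset.range (n + 1), (deriv (ga n (j + 1)) t - w n t * ga n (j + 1) t)
            * d (j + 1) t) + (deriv (ga n 0) t - w n t * ga n 0 t) * d 0 t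
      = ∑ j ∈ Finset.range (n + 1), (deriv (ga n j) t - w n t * ga n j t) * d j t := by
    rw [← Finset.sum_range_succ' (fun j => (deriv (ga n j) t - w n t * ga n j t) * d j t) (n + 1)]
    rw [Finset.sum_range_succ]
    have h2 : ga n (n + 1) = fun _ => 0 := by
      funext s
      exact ga_zero n (n + 1) (by omega) s
    rw [h2]
    simp
  have e3 : (∑ j ∈ Finset.range (n + 1), ga n j t * d (j + 1) t)
      + ((∑ j ∈ Finset.range (n + 1), (deriv (ga n j) t - w n t * ga n j t) * d j t)
        + w n t * ∑ j ∈ Finset.range (n + 1), ga n j t * d j t)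
      = ∑ j ∈ Finset.range (n + 1), (deriv (ga n j) t * d j t + ga n j t * d (j + 1) t) := by
    rw [Finset.mul_sum, ← Finset.sum_add_distrib, ← Finset.sum_add_distrib]
    apply Finset.sum_congr rfl
    intro j _
    ring
  linarith

theorem DG_deriv (n a : ℕ) (t : ℝ) (ht : 0 < t) :
    HasDerivAt (DG n a) (DG (n + 1) a t + w n t * DG n a t) t :=
  F6_sum_deriv n (fun j t => PowerSeries.coeff a (dp (Gs t) (Gs' t) j)) t ht
    (fun j => dpG_deriv a j t)

theorem DE_deriv (n a : ℕ) (t : ℝ) (ht : 0 < t) :
    HasDerivAt (DE n a) (DE (n + 1) a t + w n t * DE n a t) t :=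
  F6_sum_deriv n (fun j t => PowerSeries.coeff a (dp (Es t) (Es' t) j)) t ht
    (fun j => dpE_deriv a j t ht)

theorem DE_eq (n a : ℕ) (t : ℝ) (ht : 0 < t) : DE n a t = (-1) ^ (a + n) * psi n a t := by
  induction n generalizing t with
  | zero =>
    simp [DE, ga, dp, Es]
  | succ n ih =>
    have h1 := DE_deriv n a t ht
    have h2 : HasDerivAt (DE n a) ((-1) ^ (a + n) * (w n t * psi n a t - psi (n + 1) a t)) t := by
      have h3 : HasDerivAt (fun t => (-1 : ℝ) ^ (a + n) * psi n a t)
          ((-1) ^ (a + n) * (w n t * psi n a t - psi (n + 1) a t)) t :=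
        (psi_deriv n a t ht).const_mul _
      apply h3.congr_of_eventuallyEq
      filter_upwards [Ioi_mem_nhds ht] with s hs
      exact ih s hs
    have h4 := h1.unique h2
    rw [ih t ht] at h4
    have : (-1 : ℝ) ^ (a + (n + 1)) = - (-1) ^ (a + n) := by
      rw [← add_assoc, pow_succ]; ring
    rw [this]
    linarith

/-- local version of `tool0`. -/
theorem F6_tool (b : ℝ) (f f' : ℝ → ℝ) (hd : ∀ m, 0 < m → m < b → HasDerivAt f (f' m) m)
    (hf : ∀ m, 0 < m → m < b → 0 ≤ f' m) (l : ℝ) (hl : Tendsto f (𝓝[>] 0) (𝓝 l)) :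
    ∀ m, 0 < m → m < b → l ≤ f m := by
  intro m hm hmb
  have hmono : MonotoneOn f (Ioo 0 b) := by
    apply monotoneOn_of_deriv_nonneg (convex_Ioo 0 b)
    · intro x hx
      exact (hd x hx.1 hx.2).continuousAt.continuousWithinAt
    · intro x hx
      rw [interior_Ioo] at hx
      exact (hd x hx.1 hx.2).differentiableAt.differentiableWithinAt
    · intro x hx
      rw [interior_Ioo] at hx
      rw [(hd x hx.1 hx.2).deriv]
      exact hf x hx.1 hx.2
  apply le_of_tendsto hl
  have : Ioo 0 m ∈ 𝓝[>] (0 : ℝ) := Ioo_mem_nhdsGT hm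
  filter_upwards [this] with x hx
  exact hmono ⟨hx.1, hx.2.trans hmb⟩ ⟨hm, hmb⟩ hx.2.le

theorem F6_zero_of_deriv (f : ℝ → ℝ) (hd : ∀ m, 0 < m → HasDerivAt f 0 m)
    (hl : Tendsto f (𝓝[>] 0) (𝓝 0)) (m : ℝ) (hm : 0 < m) : f m = 0 := by
  have h1 := tool0 f (fun _ => 0) hd (fun _ _ => le_rfl) 0 hl m hm
  have h2 := tool0 (fun x => - f x) (fun _ => 0)
    (fun x hx => ((hd x hx).neg).congr_deriv neg_zero)
    (fun _ _ => le_rfl) 0 (by simpa using hl.neg) m hm
  linarith

theorem F6_th_lim (n : ℕ) : Tendsto (th n) (𝓝[>] 0) (𝓝 0) := by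
  have h := (th_cont n) 0 (by simp)
  have h2 : Tendsto (th n) (𝓝[Ici 0] 0) (𝓝 (th n 0)) := h
  rw [th_zero] at h2
  exact h2.mono_left (nhdsWithin_mono _ Ioi_subset_Ici_self)

theorem F6_tw (n : ℕ) (t : ℝ) (h0 : 0 < t) (h1 : t < 1) :
    0 ≤ t * w n t ∧ t * w n t ≤ 2 * ((n : ℝ) + 1) := by
  have h := A5_w n t h0
  have hn : (0 : ℝ) ≤ n := Nat.cast_nonneg n
  constructor
  · linarith [h.1]
  · refine h.2.trans ?_
    have : ((n : ℝ) + 1) * t ^ 2 / (4 * (2 * n + 3)) ≤ (n : ℝ) + 1 := by
      rw [div_le_iff₀ (by positivity)]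
      have ht2 : t ^ 2 ≤ 1 := by nlinarith
      have : (1 : ℝ) ≤ 4 * (2 * n + 3) := by linarith
      have hp : (0 : ℝ) < (n : ℝ) + 1 := by linarith
      nlinarith
    linarith

/-- `f_(a-1)` with `f_(-1) = 0`. -/
noncomputable def F6_pr (n a : ℕ) (t : ℝ) : ℝ := if a = 0 then 0 else DG n (a - 1) t

theorem F6_S (n : ℕ) : (∀ a t, 0 < t →
      HasDerivAt (fun t => w n t * DG n a t + DG (n + 1) a t)
        (V n t * DG n a t + F6_pr n a t) t) ∧
    (∀ a, ∃ C, 0 ≤ C ∧ ∀ t, 0 < t → t < 1 → |DG n a t| ≤ C * t ∧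
      |w n t * DG n a t + DG (n + 1) a t| ≤ C) ∧
    (∀ a, a < n → ∀ t, 0 < t → DG n a t = 0) ∧
    (∀ t, 0 < t → DG n n t = cc n * th n t) := by
  induction n with
  | zero =>
    have hg : ∀ a, DG 0 a = g a := by
      intro a
      funext t
      simp [DG, ga, dp, Gs]
    have hgp : ∀ a t, 0 < t → w 0 t * DG 0 a t + DG (0 + 1) a t = gp a t := by
      intro a t ht
      have h1 := DG_deriv 0 a t ht
      rw [hg] at h1
      have h2 := h1.unique (g_deriv a t)
      rw [hg]
      linarith
    refine ⟨?_, ?_, ?_, ?_⟩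
    · intro a t ht
      have h1 := gp_deriv a t
      have h2 : HasDerivAt (fun t => w 0 t * DG 0 a t + DG (0 + 1) a t)
          (1 / 4 * g a t + (if a = 0 then 0 else g (a - 1) t)) t := by
        apply h1.congr_of_eventuallyEq
        filter_upwards [Ioi_mem_nhds ht] with s hs
        exact hgp a s hs
      convert h2 using 1
      simp only [V, F6_pr, hg]
    · intro a
      have hc : ContinuousOn (gp a) (Icc 0 1) := fun x _ =>
        (gp_deriv a x).continuousAt.continuousWithinAt
      obtain ⟨C, hC⟩ := isCompact_Icc.exists_bound_of_continuousOn hc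
      have hC0 : 0 ≤ C := (norm_nonneg _).trans (hC 0 (by simp))
      refine ⟨C, hC0, ?_⟩
      intro t ht0 ht1
      constructor
      · rw [hg]
        have h3 := Convex.norm_image_sub_le_of_norm_hasDerivWithin_le (f := g a) (f' := gp a)
          (s := Icc 0 1) (C := C) (x := 0) (y := t)
          (fun x _ => (g_deriv a x).hasDerivWithinAt) (fun x hx => hC x hx) (convex_Icc 0 1)
          (by simp) ⟨ht0.le, ht1.le⟩
        rw [g_zero, sub_zero, sub_zero, Real.norm_eq_abs, Real.norm_eq_abs, abs_of_pos ht0] at h3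
        exact h3
      · rw [hgp a t ht0]
        exact hC t ⟨ht0.le, ht1.le⟩
    · intro a ha
      omega
    · intro t ht
      rw [hg]
      simp [g, cc, th]
  | succ n ih =>
    obtain ⟨hi, hii, hiii, hiv⟩ := ih
    -- derivative of F_a
    have hF : ∀ a t, 0 < t → HasDerivAt (DG (n + 1) a)
        (F6_pr n a t - w n t * DG (n + 1) a t) t := by
      intro a t ht
      have h1 := hi a t ht
      have h2 := (w_deriv n t ht).mul (DG_deriv n a t ht)
      have h3 := h1.sub h2
      have h4 : HasDerivAt (DG (n + 1) a) _ t := h3.congr_of_eventuallyEq (by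
        filter_upwards with s
        simp)
      have e : V n t * DG n a t + F6_pr n a t - ((V n t - w n t ^ 2) * DG n a t
          + w n t * (DG (n + 1) a t + w n t * DG n a t))
          = F6_pr n a t - w n t * DG (n + 1) a t := by ring
      exact h4.congr_deriv e
    have hrel : ∀ a t, 0 < t → w (n + 1) t * DG (n + 1) a t + DG (n + 1 + 1) a t
        = F6_pr n a t - w n t * DG (n + 1) a t := by
      intro a t ht
      have h1 := (DG_deriv (n + 1) a t ht).unique (hF a t ht)
      linarith
    -- derivative of th_n F_a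
    have hTF : ∀ a t, 0 < t → HasDerivAt (fun t => th n t * DG (n + 1) a t)
        (th n t * F6_pr n a t) t := by
      intro a t ht
      have h1 := (th_deriv n t ht).mul (hF a t ht)
      exact h1.congr_deriv (by ring)
    have hprb : ∀ a, ∃ C, 0 ≤ C ∧ ∀ t, 0 < t → t < 1 → |F6_pr n a t| ≤ C * t := by
      intro a
      unfold F6_pr
      by_cases ha : a = 0
      · refine ⟨0, le_rfl, ?_⟩
        intro t _ _
        simp [ha]
      · obtain ⟨C, hC, h⟩ := hii (a - 1)
        refine ⟨C, hC, ?_⟩
        intro t ht0 ht1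
        simp only [ha, if_false]
        exact (h t ht0 ht1).1
    have hlim : ∀ a, Tendsto (fun t => th n t * DG (n + 1) a t) (𝓝[>] 0) (𝓝 0) := by
      intro a
      obtain ⟨C, hC, h⟩ := hii a
      have hb : ∀ t, 0 < t → t < 1 → |DG (n + 1) a t| ≤ C + 2 * ((n : ℝ) + 1) * C := by
        intro t ht0 ht1
        obtain ⟨h1, h2⟩ := h t ht0 ht1
        obtain ⟨h3, h4⟩ := F6_tw n t ht0 ht1
        have e : DG (n + 1) a t = (w n t * DG n a t + DG (n + 1) a t) - w n t * DG n a t := by ring
        rw [e]
        refine (abs_sub _ _).trans ?_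
        have hw : 0 ≤ w n t := by
          by_contra hneg
          push Not at hneg
          have := mul_neg_of_pos_of_neg ht0 hneg
          linarith
        have h5 : |w n t * DG n a t| ≤ 2 * ((n : ℝ) + 1) * C := by
          rw [abs_mul, abs_of_nonneg hw]
          calc w n t * |DG n a t| ≤ w n t * (C * t) := mul_le_mul_of_nonneg_left h1 hw
            _ = (t * w n t) * C := by ring
            _ ≤ 2 * ((n : ℝ) + 1) * C := mul_le_mul_of_nonneg_right h4 hC
        linarith
      have hz : Tendsto (fun t => th n t * (C + 2 * ((n : ℝ) + 1) * C)) (𝓝[>] 0) (𝓝 0) := by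
        simpa using (F6_th_lim n).mul_const (C + 2 * ((n : ℝ) + 1) * C)
      refine squeeze_zero_norm' ?_ hz
      have : Ioo (0 : ℝ) 1 ∈ 𝓝[>] (0 : ℝ) := Ioo_mem_nhdsGT one_pos
      filter_upwards [this] with t ht
      rw [Real.norm_eq_abs, abs_mul, abs_of_pos (th_pos n t ht.1)]
      exact mul_le_mul_of_nonneg_left (hb t ht.1 ht.2) (th_pos n t ht.1).le
    refine ⟨?_, ?_, ?_, ?_⟩
    · intro a t ht
      have hpr : HasDerivAt (F6_pr n a) (F6_pr (n + 1) a t + w n t * F6_pr n a t) t := by
        unfold F6_pr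
        by_cases ha : a = 0
        · simp only [ha, if_true]
          simpa using hasDerivAt_const t (0 : ℝ)
        · simp only [ha, if_false]
          exact DG_deriv n (a - 1) t ht
      have h1 : HasDerivAt (fun t => F6_pr n a t - w n t * DG (n + 1) a t)
          ((F6_pr (n + 1) a t + w n t * F6_pr n a t)
            - ((V n t - w n t ^ 2) * DG (n + 1) a t
              + w n t * (F6_pr n a t - w n t * DG (n + 1) a t))) t :=
        hpr.sub ((w_deriv n t ht).mul (hF a t ht))
      have h2 : HasDerivAt (fun t => w (n + 1) t * DG (n + 1) a t + DG (n + 1 + 1) a t)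
          ((F6_pr (n + 1) a t + w n t * F6_pr n a t)
            - ((V n t - w n t ^ 2) * DG (n + 1) a t
              + w n t * (F6_pr n a t - w n t * DG (n + 1) a t))) t := by
        apply h1.congr_of_eventuallyEq
        filter_upwards [Ioi_mem_nhds ht] with s hs
        exact hrel a s hs
      convert h2 using 1
      have hV : V (n + 1) t = 2 * w n t ^ 2 - V n t := by simp [V]
      rw [hV]
      ring
    · intro a
      obtain ⟨C, hC, hpr⟩ := hprb a
      have hb : ∀ t, 0 < t → t < 1 → |DG (n + 1) a t| ≤ C * t := by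
        intro t ht0 ht1
        have hth := th_pos n t ht0
        have key : ∀ s : ℝ, (s = 1 ∨ s = -1) →
            0 ≤ C * t * th n t + s * (th n t * DG (n + 1) a t) := by
          intro s hs
          apply F6_tool 1 (fun t => C * t * th n t + s * (th n t * DG (n + 1) a t))
            (fun t => (C * th n t + C * t * (w n t * th n t)) + s * (th n t * F6_pr n a t))
            _ _ 0 _ t ht0 ht1
          · intro x hx0 _
            have h1 : HasDerivAt (fun t : ℝ => C * t) C x := by
              simpa using (hasDerivAt_id x).const_mul C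
            exact (h1.mul (th_deriv n x hx0)).add ((hTF a x hx0).const_mul s)
          · intro x hx0 hx1
            have h1 := hpr x hx0 hx1
            have h2 := F6_tw n x hx0 hx1
            have hthx := th_pos n x hx0
            have h3 : C * x * (w n x * th n x) = C * (x * w n x) * th n x := by ring
            have h4 : 0 ≤ C * (x * w n x) * th n x :=
              mul_nonneg (mul_nonneg hC h2.1) hthx.le
            have h5 : |s * (th n x * F6_pr n a x)| ≤ C * th n x := by
              have hs1 : |s| = 1 := by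
                rcases hs with rfl | rfl <;> simp
              rw [abs_mul, hs1, one_mul, abs_mul, abs_of_pos hthx]
              calc th n x * |F6_pr n a x| ≤ th n x * (C * x) :=
                    mul_le_mul_of_nonneg_left h1 hthx.le
                _ ≤ th n x * (C * 1) := by
                    apply mul_le_mul_of_nonneg_left _ hthx.le
                    exact mul_le_mul_of_nonneg_left hx1.le hC
                _ = C * th n x := by ring
            have h6 := neg_abs_le (s * (th n x * F6_pr n a x))
            rw [h3]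
            linarith
          · have h1 : Tendsto (fun t : ℝ => C * t * th n t) (𝓝[>] 0) (𝓝 0) := by
              have h2 : Tendsto (fun t : ℝ => C * t) (𝓝[>] 0) (𝓝 (C * 0)) :=
                ((continuous_const.mul continuous_id).tendsto 0).mono_left nhdsWithin_le_nhds
              simpa using h2.mul (F6_th_lim n)
            have h3 := h1.add ((hlim a).const_mul s)
            simpa using h3
        have k1 := key 1 (Or.inl rfl)
        have k2 := key (-1) (Or.inr rfl)
        rw [abs_le]
        constructor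
        · by_contra hcon
          push Not at hcon
          have := mul_lt_mul_of_pos_left hcon hth
          nlinarith
        · by_contra hcon
          push Not at hcon
          have := mul_lt_mul_of_pos_left hcon hth
          nlinarith
      refine ⟨C + 2 * ((n : ℝ) + 1) * C, by positivity, ?_⟩
      intro t ht0 ht1
      have h1 := hb t ht0 ht1
      have hK : C ≤ C + 2 * ((n : ℝ) + 1) * C := by
        have : 0 ≤ 2 * ((n : ℝ) + 1) * C := by positivity
        linarith
      constructor
      · exact h1.trans (mul_le_mul_of_nonneg_right hK ht0.le)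
      · rw [hrel a t ht0]
        refine (abs_sub _ _).trans ?_
        have h2 := hpr t ht0 ht1
        obtain ⟨h3, h4⟩ := F6_tw n t ht0 ht1
        have hw : 0 ≤ w n t := by
          by_contra hneg
          push Not at hneg
          have := mul_neg_of_pos_of_neg ht0 hneg
          linarith
        have h5 : |w n t * DG (n + 1) a t| ≤ 2 * ((n : ℝ) + 1) * C := by
          rw [abs_mul, abs_of_nonneg hw]
          calc w n t * |DG (n + 1) a t| ≤ w n t * (C * t) := mul_le_mul_of_nonneg_left h1 hw
            _ = (t * w n t) * C := by ring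
            _ ≤ 2 * ((n : ℝ) + 1) * C := mul_le_mul_of_nonneg_right h4 hC
        have h6 : C * t ≤ C := by nlinarith
        linarith
    · intro a ha t ht
      have h0 : ∀ s, 0 < s → F6_pr n a s = 0 := by
        intro s hs
        unfold F6_pr
        by_cases ha0 : a = 0
        · simp [ha0]
        · simp only [ha0, if_false]
          exact hiii (a - 1) (by omega) s hs
      have h1 := F6_zero_of_deriv (fun t => th n t * DG (n + 1) a t) (by
        intro m hm
        have := hTF a m hm
        rw [h0 m hm, mul_zero] at this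
        exact this) (hlim a) t ht
      have h2 := (th_pos n t ht).ne'
      exact (mul_eq_zero.mp h1).resolve_left h2
    · intro t ht
      have hpr : ∀ s, 0 < s → F6_pr n (n + 1) s = cc n * th n s := by
        intro s hs
        unfold F6_pr
        simp only [Nat.add_sub_cancel]
        simpa using hiv s hs
      have hccr : cc (n + 1) * (2 * (n : ℝ) + 3) = cc n := by
        have : (2 * (n : ℝ) + 3) ≠ 0 := by positivity
        simp only [cc]
        field_simp
      have h1 := F6_zero_of_deriv
        (fun t => th n t * DG (n + 1) (n + 1) t - cc (n + 1) * (th n t * th (n + 1) t)) (by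
        intro m hm
        have h2 := hTF (n + 1) m hm
        rw [hpr m hm] at h2
        have h3 := ((th_deriv n m hm).mul (th_deriv (n + 1) m hm)).const_mul (cc (n + 1))
        have h4 := h2.sub h3
        refine h4.congr_deriv ?_
        have hw : w (n + 1) m = (2 * n + 3) * th n m / th (n + 1) m - w n m := by simp [w]
        have h5 := (th_pos (n + 1) m hm).ne'
        rw [hw]
        field_simp
        rw [← hccr]
        ring) (by
        have h2 := (F6_th_lim n).mul (F6_th_lim (n + 1))
        have h3 := (hlim (n + 1)).sub (h2.const_mul (cc (n + 1)))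
        simpa using h3) t ht
      have h2 := (th_pos n t ht).ne'
      have h3 : th n t * (DG (n + 1) (n + 1) t - cc (n + 1) * th (n + 1) t) = 0 := by
        have : th n t * (DG (n + 1) (n + 1) t - cc (n + 1) * th (n + 1) t)
          = th n t * DG (n + 1) (n + 1) t - cc (n + 1) * (th n t * th (n + 1) t) := by ring
        rw [this]
        exact h1
      have h4 := (mul_eq_zero.mp h3).resolve_left h2
      linarith

theorem DG_zero (n a : ℕ) (h : a < n) (t : ℝ) (ht : 0 < t) : DG n a t = 0 :=
  (F6_S n).2.2.1 a h t ht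

theorem DG_diag (n : ℕ) (t : ℝ) (ht : 0 < t) : DG n n t = cc n * th n t :=
  (F6_S n).2.2.2 t ht

end LPPEnd
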