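import Pool.Agent.Lib.MP_267da7_pr.F6

/-!
# F7: the determinant of `Psi`

Let `Gam_(j,i) = ga i j t` (`j, i < N`): upper triangular with diagonal `1` (`ga i j = 0` for `j > i`, `ga_diag`), determinant `1`.
`(Psi * Gam)_(a,i) = sum_(j<N) coeff a (dp j) ga_(i,j) = DG i a t` (terms with `j > i` vanish) is `0` for `a < i` and `cc i * th i t` for
`a = i`: lower triangular.  So `det Psi = prod_(i<N) cc i * th i t > 0` for `t > 0` (`cc i > 0`, `th_pos`).  And `PN N t = e^(-Nt/2) det Psi` by definition.
-/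

open Real MeasureTheory Set Filter
open scoped Topology

namespace LPPEnd

private theorem f7_mul (N : ℕ) (t : ℝ) (a i : Fin N) :
    (Psi N t * (Matrix.of fun j i : Fin N => ga (i : ℕ) (j : ℕ) t)) a i = DG (i : ℕ) (a : ℕ) t := by
  rw [Matrix.mul_apply, DG]
  have h1 : ∑ j ∈ Finset.range ((i : ℕ) + 1), ga (i : ℕ) j t * PowerSeries.coeff (a : ℕ) (dp (Gs t) (Gs' t) j)
      = ∑ j ∈ Finset.range N, ga (i : ℕ) j t * PowerSeries.coeff (a : ℕ) (dp (Gs t) (Gs' t) j) := by
    apply Finset.sum_subset
    · intro j hj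
      rw [Finset.mem_range] at hj ⊢
      have := i.2
      omega
    · intro j _ hj2
      rw [Finset.mem_range] at hj2
      rw [ga_zero (i : ℕ) j (by omega) t, zero_mul]
  rw [h1, Finset.sum_range]
  apply Finset.sum_congr rfl
  intro j _
  rw [Psi, Matrix.of_apply, Matrix.of_apply, mul_comm]

theorem det_Psi (N : ℕ) (t : ℝ) (ht : 0 < t) :
    (Psi N t).det = ∏ i ∈ Finset.range N, (cc i * th i t) := by
  have hG : (Matrix.of fun j i : Fin N => ga (i : ℕ) (j : ℕ) t).det = 1 := by
    rw [Matrix.det_of_upperTriangular]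
    · apply Finset.prod_eq_one
      intro i _
      rw [Matrix.of_apply, ga_diag]
    · intro i j hij
      rw [Matrix.of_apply]
      exact ga_zero _ _ (by simpa using hij) t
  have h2 : (Psi N t * (Matrix.of fun j i : Fin N => ga (i : ℕ) (j : ℕ) t)).det
      = ∏ i ∈ Finset.range N, (cc i * th i t) := by
    rw [Matrix.det_of_lowerTriangular]
    · rw [Finset.prod_range]
      apply Finset.prod_congr rfl
      intro i _
      rw [f7_mul, DG_diag _ _ ht]
    · intro i j hij
      rw [f7_mul]
      exact DG_zero _ _ (by simpa using hij) t ht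
  rw [Matrix.det_mul, hG, mul_one] at h2
  exact h2

private theorem f7_cc_pos (n : ℕ) : 0 < cc n := by
  induction n with
  | zero => simp [cc]
  | succ n ih => rw [cc]; positivity

theorem det_Psi_pos (N : ℕ) (t : ℝ) (ht : 0 < t) : 0 < (Psi N t).det := by
  rw [det_Psi N t ht]
  exact Finset.prod_pos fun i _ => mul_pos (f7_cc_pos i) (th_pos i t ht)

theorem PN_det (N : ℕ) (t : ℝ) (ht : 0 < t) :
    PN N t = Real.exp (-(N * t) / 2) * (Psi N t).det := by
  rw [det_Psi N t ht, PN]

end LPPEnd
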