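import Pool.Agent.Lib.MP_267da7_pr.F7
import Pool.Agent.Lib.MP_267da7_pr.F5

/-!
# F8: the matrix `Y = Psi' Psi^(-1)`

`t > 0`.  `Psi` is invertible (`det_Psi_pos`), `Y Psi = DPsi`.
`Zm` is the matrix of multiplication by `Z` on power series modulo `X^N`: `(Zm)_(a,b) = 1/4` if `a = b`, `1` if `a = b+1`, `0` otherwise;
`coeff a (Z * f) = sum_b Zm_(a,b) coeff b f` for `a < N`.

`Y_deriv`: the entries of `Psi`, `DPsi` are differentiable, `Psi' = DPsi`, `DPsi' = (coeff a (dp (i+2)))_(a,i) = Zm Psi` (`dpG_deriv`).  The entries of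
`Psi^(-1) = (det)^(-1) adjugate` are differentiable, and from `Psi Psi^(-1) = 1`: `(Psi^(-1))' = -Psi^(-1) DPsi Psi^(-1)`.  So
`Y' = Zm Psi Psi^(-1) - DPsi Psi^(-1) DPsi Psi^(-1) = Zm - Y^2`.
(Possible route: `HasDerivAt` for matrix valued functions is entrywise `hasDerivAt_pi`; a lemma: if all entries of `M` are differentiable at `t` and
`det M t` is nonzero, then all entries of `M^(-1)` are differentiable at `t`: `Matrix.inv_def`, `Matrix.adjugate_apply`, `Matrix.det_apply`.)

`Y_col`: for `i + 1 < N`: `Y Psi_i = DPsi_i = Psi_(i+1)` and `Y Psi_(i+1) = DPsi_(i+1) = (coeff a (Z dp i)) = Zm Psi_i`, so `(Zm - Y^2) Psi_i = 0`.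

`Y_sym`: let `J` be the flip, `J_(a,b) = 1` iff `a + b = N-1` (`Fin.rev`).  `sum_a f_a h_(rev a) = coeff (N-1) (f h)` for coefficient vectors.  `sym_coeff` (F5) with
`gs_id` says `DPsi^T J Psi = Psi^T J DPsi`, i.e. `Psi^T Y^T J Psi = Psi^T J Y Psi`, so `Y^T J = J Y`: `Y_(a,b) = Y_(rev b, rev a)`.
-/

open Real MeasureTheory Set Filter
open scoped Topology

namespace LPPEnd

/-- multiplication by `Z` modulo `X^N`. -/
noncomputable def Zm (N : ℕ) : Matrix (Fin N) (Fin N) ℝ :=
  Matrix.of fun a b => if a = b then 1 / 4 else if (a : ℕ) = (b : ℕ) + 1 then 1 else 0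

/-- `coeff a (Z f)` in terms of the matrix `Zm`. -/
private lemma f8_coeff_Z (N : ℕ) (f : PowerSeries ℝ) (a : Fin N) :
    PowerSeries.coeff (a : ℕ) (Z * f) = ∑ b : Fin N, Zm N a b * PowerSeries.coeff (b : ℕ) f := by
  have h1 : ∀ b : Fin N, Zm N a b * PowerSeries.coeff (b : ℕ) f =
      (if a = b then 1 / 4 * PowerSeries.coeff (b : ℕ) f else 0) +
        (if (a : ℕ) = (b : ℕ) + 1 then PowerSeries.coeff (b : ℕ) f else 0) := by
    intro b
    unfold Zm
    rw [Matrix.of_apply]
    by_cases h : a = b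
    · have h2 : ¬ ((a : ℕ) = (b : ℕ) + 1) := by rw [h]; omega
      rw [if_pos h, if_pos h, if_neg h2, add_zero]
    · rw [if_neg h, if_neg h, zero_add]
      by_cases h2 : (a : ℕ) = (b : ℕ) + 1
      · rw [if_pos h2, if_pos h2, one_mul]
      · rw [if_neg h2, if_neg h2, zero_mul]
  rw [Finset.sum_congr rfl (fun b _ => h1 b), Finset.sum_add_distrib, Finset.sum_ite_eq,
    if_pos (Finset.mem_univ _)]
  unfold Z
  rw [add_mul, map_add, PowerSeries.coeff_C_mul]
  congr 1
  obtain ⟨a, ha⟩ := a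
  rcases a with _ | a
  · show PowerSeries.coeff 0 (PowerSeries.X * f) = _
    rw [PowerSeries.coeff_zero_X_mul]
    symm
    apply Finset.sum_eq_zero
    intro b _
    rw [if_neg]
    show ¬ (0 = (b : ℕ) + 1)
    omega
  · show PowerSeries.coeff (a + 1) (PowerSeries.X * f) = _
    rw [PowerSeries.coeff_succ_X_mul]
    rw [Finset.sum_eq_single (⟨a, by omega⟩ : Fin N)]
    · rw [if_pos]
      rfl
    · intro b _ hb
      rw [if_neg]
      intro h
      apply hb
      apply Fin.ext
      have h' : a + 1 = (b : ℕ) + 1 := h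
      show (b : ℕ) = a
      omega
    · intro h
      exact absurd (Finset.mem_univ _) h

private lemma f8_unit (N : ℕ) (t : ℝ) (ht : 0 < t) : IsUnit (Psi N t).det :=
  (det_Psi_pos N t ht).ne'.isUnit

theorem Y_mul (N : ℕ) (t : ℝ) (ht : 0 < t) : Y N t * Psi N t = DPsi N t := by
  unfold Y
  rw [Matrix.mul_assoc, Matrix.nonsing_inv_mul _ (f8_unit N t ht), Matrix.mul_one]

/-- `(Zm Psi)_(a,i) = coeff a (dp (i+2))`. -/
private lemma f8_ZmPsi (N : ℕ) (t : ℝ) (a i : Fin N) :
    (Zm N * Psi N t) a i = PowerSeries.coeff (a : ℕ) (dp (Gs t) (Gs' t) (i + 2)) := by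
  have h1 : dp (Gs t) (Gs' t) ((i : ℕ) + 2) = Z * dp (Gs t) (Gs' t) i := rfl
  rw [h1, f8_coeff_Z, Matrix.mul_apply]
  rfl

private lemma f8_det {N : ℕ} {t : ℝ} (M : ℝ → Matrix (Fin N) (Fin N) ℝ)
    (h : ∀ i j, DifferentiableAt ℝ (fun t => M t i j) t) :
    DifferentiableAt ℝ (fun t => (M t).det) t := by
  simp only [Matrix.det_apply']
  apply DifferentiableAt.fun_sum
  intro σ _
  apply DifferentiableAt.const_mul
  exact DifferentiableAt.fun_finsetProd (fun i _ => h (σ i) i)

private lemma f8_inv {N : ℕ} {t : ℝ} (M : ℝ → Matrix (Fin N) (Fin N) ℝ)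
    (h : ∀ i j, DifferentiableAt ℝ (fun t => M t i j) t) (h0 : (M t).det ≠ 0) (i j : Fin N) :
    DifferentiableAt ℝ (fun t => (M t)⁻¹ i j) t := by
  have h1 : (fun t => (M t)⁻¹ i j) =
      fun t => ((M t).det)⁻¹ * ((M t).updateRow j (Pi.single i 1)).det := by
    funext x
    rw [Matrix.inv_def, Matrix.smul_apply, Matrix.adjugate_apply, Ring.inverse_eq_inv',
      smul_eq_mul]
  rw [h1]
  apply DifferentiableAt.mul ((f8_det M h).inv h0)
  apply f8_det (fun t => (M t).updateRow j (Pi.single i 1))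
  intro a b
  by_cases hab : a = j
  · have h2 : (fun t => (M t).updateRow j (Pi.single i 1) a b) =
        fun _ => (Pi.single i 1 : Fin N → ℝ) b := by
      funext x
      rw [Matrix.updateRow_apply, if_pos hab]
    rw [h2]
    exact differentiableAt_const _
  · have h2 : (fun t => (M t).updateRow j (Pi.single i 1) a b) = fun t => M t a b := by
      funext x
      rw [Matrix.updateRow_apply, if_neg hab]
    rw [h2]
    exact h a b

private lemma f8_dPsi (N : ℕ) (t : ℝ) (a i : Fin N) :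
    HasDerivAt (fun t => Psi N t a i) (DPsi N t a i) t :=
  dpG_deriv a i t

private lemma f8_dDPsi (N : ℕ) (t : ℝ) (a i : Fin N) :
    HasDerivAt (fun t => DPsi N t a i) ((Zm N * Psi N t) a i) t := by
  rw [f8_ZmPsi]
  exact dpG_deriv a (i + 1) t

private lemma f8_Ydiff (N : ℕ) (t : ℝ) (ht : 0 < t) (a b : Fin N) :
    DifferentiableAt ℝ (fun t => Y N t a b) t := by
  have h1 : (fun t => Y N t a b) = fun t => ∑ k, DPsi N t a k * (Psi N t)⁻¹ k b := by
    funext x
    rfl
  rw [h1]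
  apply DifferentiableAt.fun_sum
  intro k _
  apply DifferentiableAt.mul (f8_dDPsi N t a k).differentiableAt
  exact f8_inv (fun t => Psi N t) (fun i j => (f8_dPsi N t i j).differentiableAt)
    (det_Psi_pos N t ht).ne' k b

theorem Y_deriv (N : ℕ) (t : ℝ) (ht : 0 < t) (a b : Fin N) :
    HasDerivAt (fun t => Y N t a b) ((Zm N - Y N t * Y N t) a b) t := by
  set Yd : Matrix (Fin N) (Fin N) ℝ := Matrix.of fun a b => deriv (fun t => Y N t a b) t with hYd
  have h1 : ∀ a b : Fin N, HasDerivAt (fun t => Y N t a b) (Yd a b) t :=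
    fun a b => (f8_Ydiff N t ht a b).hasDerivAt
  have h2 : Yd * Psi N t + Y N t * DPsi N t = Zm N * Psi N t := by
    ext a i
    have h3 : HasDerivAt (fun t => ∑ k, Y N t a k * Psi N t k i)
        (∑ k, (Yd a k * Psi N t k i + Y N t a k * DPsi N t k i)) t :=
      HasDerivAt.fun_sum fun k _ => (h1 a k).mul (f8_dPsi N t k i)
    have h4 : (fun t => ∑ k, Y N t a k * Psi N t k i) =ᶠ[𝓝 t] fun t => DPsi N t a i := by
      filter_upwards [lt_mem_nhds ht] with x hx
      have h5 := congrFun (congrFun (Y_mul N x hx) a) i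
      rw [Matrix.mul_apply] at h5
      exact h5
    have h6 := h3.unique ((f8_dDPsi N t a i).congr_of_eventuallyEq h4)
    rw [Matrix.add_apply, Matrix.mul_apply, Matrix.mul_apply, ← Finset.sum_add_distrib]
    exact h6
  have h3 : Yd * Psi N t = (Zm N - Y N t * Y N t) * Psi N t := by
    rw [Matrix.sub_mul, ← h2, Matrix.mul_assoc, Y_mul N t ht]
    abel
  have h4 : Yd = Zm N - Y N t * Y N t := by
    have h5 := congrArg (fun M => M * (Psi N t)⁻¹) h3
    rwa [Matrix.mul_nonsing_inv_cancel_right _ _ (f8_unit N t ht),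
      Matrix.mul_nonsing_inv_cancel_right _ _ (f8_unit N t ht)] at h5
  rw [← h4]
  exact h1 a b

theorem Y_col (N : ℕ) (t : ℝ) (ht : 0 < t) (a i : Fin N) (hi : (i : ℕ) + 1 < N) :
    ((Zm N - Y N t * Y N t) * Psi N t) a i = 0 := by
  rw [Matrix.sub_mul, Matrix.sub_apply, f8_ZmPsi, Matrix.mul_assoc, Y_mul N t ht]
  have h1 : (Y N t * DPsi N t) a i = (Y N t * Psi N t) a ⟨(i : ℕ) + 1, hi⟩ := by
    rw [Matrix.mul_apply, Matrix.mul_apply]
    rfl
  rw [h1, Y_mul N t ht]
  exact sub_self _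

/-- the coefficient of a product with the flip. -/
private lemma f8_coeff_mul (N : ℕ) (hN : 0 < N) (f h : PowerSeries ℝ) :
    PowerSeries.coeff (N - 1) (f * h) =
      ∑ a : Fin N, PowerSeries.coeff (a : ℕ) f * PowerSeries.coeff (Fin.rev a : ℕ) h := by
  obtain ⟨n, rfl⟩ : ∃ n, N = n + 1 := ⟨N - 1, by omega⟩
  rw [PowerSeries.coeff_mul, Nat.add_sub_cancel,
    Finset.Nat.sum_antidiagonal_eq_sum_range_succ
      (fun i j => PowerSeries.coeff i f * PowerSeries.coeff j h) n, Finset.sum_range]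
  apply Finset.sum_congr rfl
  intro a _
  have h1 : (Fin.rev a : ℕ) = n - (a : ℕ) := by
    rw [Fin.val_rev]
    omega
  rw [h1]

theorem Y_sym (N : ℕ) (t : ℝ) (ht : 0 < t) (a b : Fin N) :
    Y N t a b = Y N t (Fin.rev b) (Fin.rev a) := by
  have hN : 0 < N := a.pos
  set R : Matrix (Fin N) (Fin N) ℝ := (Psi N t).submatrix Fin.revPerm id with hR
  have hRu : IsUnit R.det := by
    rw [hR, Matrix.det_permute]
    refine IsUnit.mul ?_ (f8_unit N t ht)
    rcases Int.units_eq_one_or (Equiv.Perm.sign (Fin.revPerm : Equiv.Perm (Fin N))) with h | h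
    · rw [h]
      simp
    · rw [h]
      simp
  have h1 : (DPsi N t).transpose * R = (Psi N t).transpose *
      ((Y N t).submatrix Fin.rev Fin.rev * R) := by
    ext j i
    have h2 := sym_coeff N (Gs t) (Gs' t) (gs_id t) i j i.2 j.2
    rw [f8_coeff_mul N hN, f8_coeff_mul N hN] at h2
    rw [Matrix.mul_apply, Matrix.mul_apply]
    have h3 : ∀ a : Fin N, ((Y N t).submatrix Fin.rev Fin.rev * R) a i = DPsi N t (Fin.rev a) i := by
      intro a
      rw [← Y_mul N t ht, Matrix.mul_apply, Matrix.mul_apply]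
      rw [← Equiv.sum_comp Fin.revPerm (fun k => Y N t (Fin.rev a) k * Psi N t k i)]
      rfl
    have h8 : ∑ a, (Psi N t).transpose j a * ((Y N t).submatrix Fin.rev Fin.rev * R) a i =
        ∑ a, Psi N t a j * DPsi N t (Fin.rev a) i :=
      Finset.sum_congr rfl fun a _ => by rw [h3 a, Matrix.transpose_apply]
    rw [h8]
    exact h2
  have h4 : (Y N t).transpose = (Y N t).submatrix Fin.rev Fin.rev := by
    rw [← Y_mul N t ht, Matrix.transpose_mul, Matrix.mul_assoc] at h1
    have hPu : IsUnit (Psi N t).transpose.det := by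
      rw [Matrix.det_transpose]
      exact f8_unit N t ht
    have h5 := congrArg (fun M => (Psi N t).transpose⁻¹ * M) h1
    rw [Matrix.nonsing_inv_mul_cancel_left _ _ hPu,
      Matrix.nonsing_inv_mul_cancel_left _ _ hPu] at h5
    have h6 := congrArg (fun M => M * R⁻¹) h5
    rwa [Matrix.mul_nonsing_inv_cancel_right _ _ hRu,
      Matrix.mul_nonsing_inv_cancel_right _ _ hRu] at h6
  have h7 := congrFun (congrFun h4 b) a
  exact h7

end LPPEnd
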