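import Pool.Agent.Lib.MP_267da7_pr.Defs

/-!
# G1: deterministic facts on last passage values (0-based cells)
-/

open Real MeasureTheory Set Filter
open scoped Topology

namespace LPPEnd

theorem L_eq (x : ℕ → ℕ → ℝ) (i j : ℕ) : L x i j = x i j + Lp x i j := by
  cases i with
  | zero =>
    cases j with
    | zero => simp [L, Lp]
    | succ j => simp [L, Lp]
  | succ i =>
    cases j with
    | zero => simp [L, Lp]
    | succ j => simp [L, Lp]

theorem g1_L_le_Lp_i (x : ℕ → ℕ → ℝ) (i j : ℕ) : L x i j ≤ Lp x (i + 1) j := by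
  cases j with
  | zero => simp [Lp]
  | succ j => simp [Lp]

theorem g1_L_le_Lp_j (x : ℕ → ℕ → ℝ) (i j : ℕ) : L x i j ≤ Lp x i (j + 1) := by
  cases i with
  | zero => simp [Lp]
  | succ i => simp [Lp]

theorem g1_L_nonneg (x : ℕ → ℕ → ℝ) (hx : ∀ i j, 0 ≤ x i j) (i j : ℕ) : 0 ≤ L x i j := by
  induction i generalizing j with
  | zero =>
    induction j with
    | zero => simpa [L] using hx 0 0
    | succ j ih =>
      have := hx 0 (j + 1)
      simp only [L]
      linarith
  | succ i ih =>
    cases j with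
    | zero =>
      have h1 := hx (i + 1) 0
      have h2 := ih 0
      simp only [L]
      linarith
    | succ j =>
      have h1 := hx (i + 1) (j + 1)
      have h2 := ih (j + 1)
      have h3 := le_max_left (L x i (j + 1)) (L x (i + 1) j)
      simp only [L]
      linarith

theorem Lp_nonneg (x : ℕ → ℕ → ℝ) (hx : ∀ i j, 0 ≤ x i j) (i j : ℕ) : 0 ≤ Lp x i j := by
  cases i with
  | zero =>
    cases j with
    | zero => simp [Lp]
    | succ j => simpa [Lp] using g1_L_nonneg x hx 0 j
  | succ i => exact (g1_L_nonneg x hx i j).trans (g1_L_le_Lp_i x i j)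

theorem g1_Lp_le_L (x : ℕ → ℕ → ℝ) (hx : ∀ i j, 0 ≤ x i j) (i j : ℕ) : Lp x i j ≤ L x i j := by
  rw [L_eq]
  have := hx i j
  linarith

theorem L_mono (x : ℕ → ℕ → ℝ) (hx : ∀ i j, 0 ≤ x i j) (i j i' j' : ℕ) (hi : i ≤ i')
    (hj : j ≤ j') : L x i j ≤ L x i' j' := by
  have h1 : Monotone (fun a => L x a j) :=
    monotone_nat_of_le_succ fun a => (g1_L_le_Lp_i x a j).trans (g1_Lp_le_L x hx (a + 1) j)
  have h2 : Monotone (fun b => L x i' b) :=
    monotone_nat_of_le_succ fun b => (g1_L_le_Lp_j x i' b).trans (g1_Lp_le_L x hx i' (b + 1))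
  exact (h1 hi).trans (h2 hj)

theorem g1_L_congr (x y : ℕ → ℕ → ℝ) (i j : ℕ)
    (h : ∀ i' j', i' ≤ i → j' ≤ j → x i' j' = y i' j') : L x i j = L y i j := by
  induction i generalizing j with
  | zero =>
    induction j with
    | zero => simpa [L] using h 0 0 le_rfl le_rfl
    | succ j ih =>
      simp only [L]
      rw [h 0 (j + 1) le_rfl le_rfl, ih fun i' j' hi hj => h i' j' hi (by omega)]
  | succ i ih =>
    induction j with
    | zero =>
      simp only [L]
      rw [h (i + 1) 0 le_rfl le_rfl, ih 0 fun i' j' hi hj => h i' j' (by omega) hj]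
    | succ j ihj =>
      simp only [L]
      rw [h (i + 1) (j + 1) le_rfl le_rfl,
        ih (j + 1) fun i' j' hi hj => h i' j' (by omega) hj,
        ihj fun i' j' hi hj => h i' j' hi (by omega)]

theorem Lp_congr (x y : ℕ → ℕ → ℝ) (i j : ℕ)
    (h : ∀ i' j', i' ≤ i → j' ≤ j → (i' ≠ i ∨ j' ≠ j) → x i' j' = y i' j') :
    Lp x i j = Lp y i j := by
  cases i with
  | zero =>
    cases j with
    | zero => simp [Lp]
    | succ j =>
      simp only [Lp]
      exact g1_L_congr x y 0 j fun i' j' hi hj => h i' j' hi (by omega) (Or.inr (by omega))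
  | succ i =>
    cases j with
    | zero =>
      simp only [Lp]
      exact g1_L_congr x y i 0 fun i' j' hi hj => h i' j' (by omega) hj (Or.inl (by omega))
    | succ j =>
      simp only [Lp]
      rw [g1_L_congr x y i (j + 1) fun i' j' hi hj => h i' j' (by omega) hj (Or.inl (by omega)),
        g1_L_congr x y (i + 1) j fun i' j' hi hj => h i' j' hi (by omega) (Or.inr (by omega))]

theorem g1_ev_meas (i j : ℕ) : Measurable (fun x : ℕ → ℕ → ℝ => x i j) :=
  (measurable_pi_apply j).comp (measurable_pi_apply i)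

theorem L_meas (i j : ℕ) : Measurable (fun x : ℕ → ℕ → ℝ => L x i j) := by
  induction i generalizing j with
  | zero =>
    induction j with
    | zero =>
      simp only [L]
      exact g1_ev_meas 0 0
    | succ j ih =>
      simp only [L]
      exact (g1_ev_meas 0 (j + 1)).add ih
  | succ i ih =>
    induction j with
    | zero =>
      simp only [L]
      exact (g1_ev_meas (i + 1) 0).add (ih 0)
    | succ j ihj =>
      simp only [L]
      exact (g1_ev_meas (i + 1) (j + 1)).add ((ih (j + 1)).max ihj)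

theorem Lp_meas (i j : ℕ) : Measurable (fun x : ℕ → ℕ → ℝ => Lp x i j) := by
  cases i with
  | zero =>
    cases j with
    | zero =>
      simp only [Lp]
      exact measurable_const
    | succ j =>
      simp only [Lp]
      exact L_meas 0 j
  | succ i =>
    cases j with
    | zero =>
      simp only [Lp]
      exact L_meas i 0
    | succ j =>
      simp only [Lp]
      exact (L_meas i (j + 1)).max (L_meas (i + 1) j)

theorem g1_mem_corners (N : ℕ) (lam : ℕ → ℕ) (i : ℕ) :
    i ∈ corners N lam ↔ i < N ∧ lam (i + 1) < lam i := by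
  simp [corners]

theorem g1_corner (N : ℕ) (lam : ℕ → ℕ) (hl : Antitone lam) (h0 : lam N = 0) (i j : ℕ)
    (hj : j < lam i) : ∃ i' ∈ corners N lam, i ≤ i' ∧ j < lam i' := by
  have hiN : i < N := by
    by_contra h
    have := hl (not_lt.1 h)
    omega
  have hP : j < lam (Nat.findGreatest (fun a => j < lam a) N) :=
    Nat.findGreatest_spec (P := fun a => j < lam a) hiN.le hj
  have hle : i ≤ Nat.findGreatest (fun a => j < lam a) N :=
    Nat.le_findGreatest (P := fun a => j < lam a) hiN.le hj
  have hN : Nat.findGreatest (fun a => j < lam a) N ≤ N := Nat.findGreatest_le N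
  have hmax : ∀ k, Nat.findGreatest (fun a => j < lam a) N < k → k ≤ N → ¬ j < lam k :=
    fun k hk hkN => Nat.findGreatest_is_greatest (P := fun a => j < lam a) hk hkN
  generalize Nat.findGreatest (fun a => j < lam a) N = i' at hP hle hN hmax
  have hlt : i' < N := by
    rcases hN.lt_or_eq with h | h
    · exact h
    · rw [h, h0] at hP
      omega
  refine ⟨i', (g1_mem_corners N lam i').2 ⟨hlt, ?_⟩, hle, hP⟩
  have := hmax (i' + 1) (by omega) (by omega)
  omega

theorem Aset_iff (N : ℕ) (lam : ℕ → ℕ) (hl : Antitone lam) (h0 : lam N = 0) (M : ℝ)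
    (x : ℕ → ℕ → ℝ) (hx : ∀ i j, 0 ≤ x i j) :
    x ∈ Aset lam M ↔ ∀ i ∈ corners N lam, L x i (lam i - 1) ≤ M := by
  constructor
  · intro h i hi
    have h1 := (g1_mem_corners N lam i).1 hi
    exact h i (lam i - 1) (by omega)
  · intro h i j hj
    obtain ⟨i', hi', hii, hj'⟩ := g1_corner N lam hl h0 i j hj
    exact (L_mono x hx i j i' (lam i' - 1) hii (by omega)).trans (h i' hi')

theorem g1_le_Lp (x : ℕ → ℕ → ℝ) (hx : ∀ i j, 0 ≤ x i j) (i j i0 j0 : ℕ) (hi : i ≤ i0)
    (hj : j ≤ j0) (h : i < i0 ∨ j < j0) : L x i j ≤ Lp x i0 j0 := by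
  rcases h with h | h
  · obtain ⟨a, rfl⟩ : ∃ a, i0 = a + 1 := ⟨i0 - 1, by omega⟩
    exact (L_mono x hx i j a j0 (by omega) hj).trans (g1_L_le_Lp_i x a j0)
  · obtain ⟨b, rfl⟩ : ∃ b, j0 = b + 1 := ⟨j0 - 1, by omega⟩
    exact (L_mono x hx i j i0 b hi (by omega)).trans (g1_L_le_Lp_j x i0 b)

theorem g1_rem_self (lam : ℕ → ℕ) (i : ℕ) : rem lam i i = lam i - 1 := by
  simp [rem]

theorem g1_rem_of_ne (lam : ℕ → ℕ) {i a : ℕ} (h : a ≠ i) : rem lam i a = lam a := by
  simp [rem, h]

theorem Aset_rem_iff (N : ℕ) (lam : ℕ → ℕ) (hl : Antitone lam) (h0 : lam N = 0) (M : ℝ)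
    (hM : 0 ≤ M) (x : ℕ → ℕ → ℝ) (hx : ∀ i j, 0 ≤ x i j) (i0 : ℕ) (hi0 : i0 ∈ corners N lam) :
    x ∈ Aset (rem lam i0) M ↔
      Lp x i0 (lam i0 - 1) ≤ M ∧ ∀ i ∈ (corners N lam).erase i0, L x i (lam i - 1) ≤ M := by
  have hc := (g1_mem_corners N lam i0).1 hi0
  constructor
  · intro h
    refine ⟨?_, ?_⟩
    · obtain ⟨j0, hj0⟩ : ∃ j0, lam i0 = j0 + 1 := ⟨lam i0 - 1, by omega⟩
      rw [hj0, Nat.add_sub_cancel]
      cases i0 with
      | zero =>
        cases j0 with
        | zero => simpa [Lp] using hM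
        | succ j =>
          simp only [Lp]
          exact h 0 j (by rw [g1_rem_self]; omega)
      | succ i =>
        have hli : lam (i + 1) ≤ lam i := hl (Nat.le_succ i)
        cases j0 with
        | zero =>
          simp only [Lp]
          exact h i 0 (by rw [g1_rem_of_ne lam (by omega)]; omega)
        | succ j =>
          simp only [Lp]
          refine max_le (h i (j + 1) ?_) (h (i + 1) j ?_)
          · rw [g1_rem_of_ne lam (by omega)]
            omega
          · rw [g1_rem_self]
            omega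
    · intro i hi
      rw [Finset.mem_erase] at hi
      have h1 := (g1_mem_corners N lam i).1 hi.2
      exact h i (lam i - 1) (by rw [g1_rem_of_ne lam hi.1]; omega)
  · rintro ⟨h1, h2⟩ i j hj
    have hj' : j < lam i := by
      by_cases hi : i = i0
      · subst hi
        rw [g1_rem_self] at hj
        omega
      · rwa [g1_rem_of_ne lam hi] at hj
    obtain ⟨i', hi', hii, hji⟩ := g1_corner N lam hl h0 i j hj'
    by_cases hi'0 : i' = i0
    · subst hi'0
      refine (g1_le_Lp x hx i j i' (lam i' - 1) hii (by omega) ?_).trans h1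
      rcases hii.lt_or_eq with h | h
      · exact Or.inl h
      · subst h
        rw [g1_rem_self] at hj
        exact Or.inr hj
    · exact (L_mono x hx i j i' (lam i' - 1) hii (by omega)).trans
        (h2 i' (Finset.mem_erase.2 ⟨hi'0, hi'⟩))

theorem rem_anti (N : ℕ) (lam : ℕ → ℕ) (hl : Antitone lam) (h0 : lam N = 0) (i0 : ℕ)
    (hi0 : i0 ∈ corners N lam) :
    Antitone (rem lam i0) ∧ rem lam i0 N = 0 ∧
      ∑ i ∈ Finset.range N, rem lam i0 i + 1 = ∑ i ∈ Finset.range N, lam i := by
  have hc := (g1_mem_corners N lam i0).1 hi0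
  refine ⟨?_, ?_, ?_⟩
  · intro a b hab
    by_cases ha : a = i0
    · by_cases hb : b = i0
      · rw [ha, hb]
      · subst ha
        rw [g1_rem_self, g1_rem_of_ne lam hb]
        have h1 : lam b ≤ lam (a + 1) := hl (by omega)
        omega
    · by_cases hb : b = i0
      · subst hb
        rw [g1_rem_self, g1_rem_of_ne lam ha]
        have h1 : lam b ≤ lam a := hl hab
        omega
      · rw [g1_rem_of_ne lam ha, g1_rem_of_ne lam hb]
        exact hl hab
  · rw [g1_rem_of_ne lam (by omega), h0]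
  · have hmem : i0 ∈ Finset.range N := Finset.mem_range.2 hc.1
    rw [← Finset.add_sum_erase _ (rem lam i0) hmem, ← Finset.add_sum_erase _ lam hmem,
      g1_rem_self]
    have h1 : ∑ i ∈ (Finset.range N).erase i0, rem lam i0 i =
        ∑ i ∈ (Finset.range N).erase i0, lam i :=
      Finset.sum_congr rfl fun i hi => g1_rem_of_ne lam (Finset.mem_erase.1 hi).1
    rw [h1]
    omega

end LPPEnd
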