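import Pool.Agent.Lib.MP_267da7_pr.Defs

/-!
# G2: independent exponential variables against independent thresholds

`ProbabilityTheory.expMeasure 1` has distribution function `ex`: `P(W <= x) = ex x` (`cdf_expMeasure_eq`), in particular `W >= 0` almost surely.

`G2_indep`: `C, D` disjoint finite sets of cells, `F c`, `c in C`, measurable functions of the variables of `D`, `S` a measurable set of values of the
variables of `D`.  Then
`P( W_D in S and W_c <= F c (W_D) for all c in C ) = E[ 1_S(W_D) prod_(c in C) ex (F c (W_D)) ]`.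
Proof: `iIndepFun.indepFun_finset` gives the independence of `W_C` and `W_D`; the joint law is the product measure
(`indepFun_iff_map_prod_eq_prod_map_map`), the law of `W_C` is `Measure.pi (expMeasure 1)` (`iIndepFun_iff_map_fun_eq_pi_map` for the subfamily).
Fubini (`Measure.prod_apply` after swapping, or `lintegral_prod`): for fixed `y = W_D`, the measure of `{z | forall c, z c <= F c y}` = `Set.pi univ (Iic (F c y))` is
`prod_c expMeasure 1 (Iic (F c y)) = prod_c ofReal (ex (F c y))` (`Measure.pi_pi`).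

`G2_one`: the same idea with one more variable: `c0` not in `C`, not in `D`; `F c y s` jointly measurable in `(y,s)`:
`P( W_c <= F c (W_D) (W_c0) for all c in C ) = E[ int_(s>0) e^(-s) prod_(c in C) ex (F c (W_D) s) ds ]`: apply `G2_indep` with `D` replaced by `insert c0 D`,
then the independence of `W_c0` and `W_D` and Fubini; `expMeasure 1` has density `e^(-s) 1_(s>=0)`.
-/

open Real MeasureTheory Set Filter
open scoped Topology

namespace LPPEnd

variable {Om' : Type*} [MeasurableSpace Om'] (P : Measure Om') [IsProbabilityMeasure P]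
  (W : ℕ × ℕ → Om' → ℝ)

theorem g2_meas_ex : Measurable ex := by
  unfold ex
  exact Measurable.ite measurableSet_Ici (by fun_prop) measurable_const

theorem g2_Iic (x : ℝ) : ProbabilityTheory.expMeasure 1 (Iic x) = ENNReal.ofReal (ex x) := by
  have := ProbabilityTheory.isProbabilityMeasure_expMeasure (one_pos : (0 : ℝ) < 1)
  rw [← ProbabilityTheory.ofReal_cdf, ProbabilityTheory.cdf_expMeasure_eq one_pos]
  unfold ex
  simp only [one_mul]

theorem g2_lint (g : ℝ → ENNReal) (hg : Measurable g) :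
    ∫⁻ s, g s ∂(ProbabilityTheory.expMeasure 1) =
      ∫⁻ s in Ioi (0:ℝ), ENNReal.ofReal (Real.exp (-s)) * g s := by
  have hm : Measurable (ProbabilityTheory.exponentialPDF 1) :=
    (ProbabilityTheory.measurable_exponentialPDFReal 1).ennreal_ofReal
  have e1 : ProbabilityTheory.expMeasure 1 = volume.withDensity (ProbabilityTheory.exponentialPDF 1) := rfl
  rw [e1, lintegral_withDensity_eq_lintegral_mul volume hm hg]
  have e2 : ∀ s : ℝ, (ProbabilityTheory.exponentialPDF 1 * g) s =
      (Ici (0:ℝ)).indicator (fun s => ENNReal.ofReal (Real.exp (-s)) * g s) s := by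
    intro s
    rw [Pi.mul_apply, ProbabilityTheory.exponentialPDF_eq]
    by_cases h : 0 ≤ s
    · rw [if_pos h, indicator_of_mem (mem_Ici.2 h)]
      simp only [one_mul]
    · rw [if_neg h, indicator_of_notMem (fun h2 => h (mem_Ici.1 h2))]
      simp
  simp_rw [e2]
  rw [lintegral_indicator measurableSet_Ici]
  exact (setLIntegral_congr Ioi_ae_eq_Ici).symm

theorem W_nonneg (hm : ∀ z, Measurable (W z))
    (hlaw : ∀ z, P.map (W z) = ProbabilityTheory.expMeasure 1) : ∀ᵐ ω ∂P, ∀ z, 0 ≤ W z ω := by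
  rw [ae_all_iff]
  intro z
  have h1 : P {ω | ¬ 0 ≤ W z ω} ≤ 0 := by
    calc P {ω | ¬ 0 ≤ W z ω} ≤ P ((W z) ⁻¹' (Iic 0)) := by
          refine measure_mono fun ω hω => ?_
          simp only [Set.mem_ofPred_eq, not_le] at hω
          exact mem_preimage.2 (mem_Iic.2 hω.le)
      _ = P.map (W z) (Iic 0) := (Measure.map_apply (hm z) measurableSet_Iic).symm
      _ = 0 := by
          rw [hlaw z, g2_Iic]
          simp [ex]
  exact le_antisymm h1 bot_le

theorem g2_pi (hm : ∀ z, Measurable (W z)) (hind : ProbabilityTheory.iIndepFun W P)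
    (hlaw : ∀ z, P.map (W z) = ProbabilityTheory.expMeasure 1) (C : Finset (ℕ × ℕ)) :
    P.map (fun ω (c : C) => W c ω) = Measure.pi (fun _ : C => ProbabilityTheory.expMeasure 1) := by
  have h := ProbabilityTheory.iIndepFun.precomp (g := fun c : C => (c : ℕ × ℕ)) Subtype.val_injective hind
  have h2 : P.map (fun ω (c : C) => W c ω) = Measure.pi (fun c : C => P.map (W c)) :=
    ProbabilityTheory.iIndepFun.map_fun_eq_pi_map (f := fun c : C => W c)
      (fun c : C => (hm c).aemeasurable) h
  rw [h2]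
  congr 1
  funext c
  exact hlaw c

theorem G2_indep (hm : ∀ z, Measurable (W z)) (hind : ProbabilityTheory.iIndepFun W P)
    (hlaw : ∀ z, P.map (W z) = ProbabilityTheory.expMeasure 1)
    (C D : Finset (ℕ × ℕ)) (hCD : Disjoint C D) (F : ℕ × ℕ → (D → ℝ) → ℝ)
    (hF : ∀ c, Measurable (F c)) (S : Set (D → ℝ)) (hS : MeasurableSet S) :
    P {ω | (fun d : D => W d ω) ∈ S ∧ ∀ c ∈ C, W c ω ≤ F c (fun d : D => W d ω)} =
      ∫⁻ ω, S.indicator (fun _ => (1 : ENNReal)) (fun d : D => W d ω) *
        ∏ c ∈ C, ENNReal.ofReal (ex (F c (fun d : D => W d ω))) ∂P := by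
  have := ProbabilityTheory.isProbabilityMeasure_expMeasure (one_pos : (0 : ℝ) < 1)
  have hmC : Measurable (fun ω (c : C) => W c ω) := measurable_pi_lambda _ fun c => hm c
  have hmD : Measurable (fun ω (d : D) => W d ω) := measurable_pi_lambda _ fun d => hm d
  have hI := hind.indepFun_finset D C hCD.symm hm
  have hJ := (ProbabilityTheory.indepFun_iff_map_prod_eq_prod_map_map hmD.aemeasurable hmC.aemeasurable).1 hI
  rw [g2_pi P W hm hind hlaw C] at hJ
  set A : Set ((D → ℝ) × (C → ℝ)) := {p | p.1 ∈ S ∧ ∀ c : C, p.2 c ≤ F c p.1} with hA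
  have hAm : MeasurableSet A := by
    have h1 : A = (Prod.fst ⁻¹' S) ∩ ⋂ c : C, {p : (D → ℝ) × (C → ℝ) | p.2 c ≤ F c p.1} := by
      ext p
      simp [hA]
    rw [h1]
    refine (measurable_fst hS).inter (MeasurableSet.iInter fun c => ?_)
    exact measurableSet_le ((measurable_pi_apply c).comp measurable_snd) ((hF c).comp measurable_fst)
  have e1 : {ω | (fun d : D => W d ω) ∈ S ∧ ∀ c ∈ C, W c ω ≤ F c (fun d : D => W d ω)} =
      (fun ω => ((fun d : D => W d ω), (fun c : C => W c ω))) ⁻¹' A := by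
    ext ω
    simp [hA]
  rw [e1, ← Measure.map_apply (hmD.prodMk hmC) hAm, hJ, Measure.prod_apply hAm]
  have e2 : ∀ y : D → ℝ, (Measure.pi (fun _ : C => ProbabilityTheory.expMeasure 1)) (Prod.mk y ⁻¹' A) =
      S.indicator (fun _ => (1 : ENNReal)) y * ∏ c ∈ C, ENNReal.ofReal (ex (F c y)) := by
    intro y
    by_cases hy : y ∈ S
    · have e3 : Prod.mk y ⁻¹' A = Set.pi univ (fun c : C => Iic (F c y)) := by
        ext z
        rw [mem_preimage, mem_univ_pi]
        exact ⟨fun h c => h.2 c, fun h => ⟨hy, fun c => h c⟩⟩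
      rw [e3, Measure.pi_pi, indicator_of_mem hy, one_mul, ← Finset.prod_coe_sort C]
      exact Finset.prod_congr rfl fun c _ => g2_Iic _
    · have e3 : Prod.mk y ⁻¹' A = ∅ := by
        ext z
        simp [hA, hy]
      rw [e3, indicator_of_notMem hy, zero_mul, measure_empty]
  simp_rw [e2]
  rw [lintegral_map _ hmD]
  refine Measurable.mul (measurable_const.indicator hS) ?_
  exact Finset.measurable_prod _ fun c _ => (g2_meas_ex.comp (hF c)).ennreal_ofReal

theorem G2_one (hm : ∀ z, Measurable (W z)) (hind : ProbabilityTheory.iIndepFun W P)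
    (hlaw : ∀ z, P.map (W z) = ProbabilityTheory.expMeasure 1)
    (C D : Finset (ℕ × ℕ)) (hCD : Disjoint C D) (c0 : ℕ × ℕ) (h0C : c0 ∉ C) (h0D : c0 ∉ D)
    (F : ℕ × ℕ → (D → ℝ) → ℝ → ℝ) (hF : ∀ c, Measurable (fun p : (D → ℝ) × ℝ => F c p.1 p.2)) :
    P {ω | ∀ c ∈ C, W c ω ≤ F c (fun d : D => W d ω) (W c0 ω)} =
      ∫⁻ ω, (∫⁻ s in Ioi (0:ℝ), ENNReal.ofReal (Real.exp (-s)) *
        ∏ c ∈ C, ENNReal.ofReal (ex (F c (fun d : D => W d ω) s))) ∂P := by
  classical
  have := ProbabilityTheory.isProbabilityMeasure_expMeasure (one_pos : (0 : ℝ) < 1)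
  have hmD : Measurable (fun ω (d : D) => W d ω) := measurable_pi_lambda _ fun d => hm d
  set D' : Finset (ℕ × ℕ) := insert c0 D with hD'
  have hCD' : Disjoint C D' := by
    rw [hD', Finset.disjoint_insert_right]
    exact ⟨h0C, hCD⟩
  set F' : ℕ × ℕ → (D' → ℝ) → ℝ := fun c y =>
    F c (fun d : D => y ⟨d, Finset.mem_insert_of_mem d.2⟩) (y ⟨c0, Finset.mem_insert_self _ _⟩) with hF'
  have hF'm : ∀ c, Measurable (F' c) := by
    intro c
    have h1 : Measurable (fun y : D' → ℝ => ((fun d : D => y ⟨d, Finset.mem_insert_of_mem d.2⟩),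
        y ⟨c0, Finset.mem_insert_self _ _⟩)) :=
      (measurable_pi_lambda _ fun d => measurable_pi_apply _).prodMk (measurable_pi_apply _)
    exact (hF c).comp h1
  have h1 := G2_indep P W hm hind hlaw C D' hCD' F' hF'm univ MeasurableSet.univ
  simp only [mem_univ, true_and, indicator_univ, one_mul] at h1
  refine h1.trans ?_
  set G : (D → ℝ) × ℝ → ENNReal := fun p => ∏ c ∈ C, ENNReal.ofReal (ex (F c p.1 p.2)) with hG
  have hGm : Measurable G :=
    Finset.measurable_prod _ fun c _ => (g2_meas_ex.comp (hF c)).ennreal_ofReal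
  have hI0 := hind.indepFun_finset D {c0} (by simpa using h0D) hm
  have hI : ProbabilityTheory.IndepFun (fun ω (d : D) => W d ω) (W c0) P := by
    have h3 : Measurable (fun y : (({c0} : Finset (ℕ × ℕ)) → ℝ) => y ⟨c0, Finset.mem_singleton_self _⟩) :=
      measurable_pi_apply (⟨c0, Finset.mem_singleton_self _⟩ : ({c0} : Finset (ℕ × ℕ)))
    exact hI0.comp measurable_id h3
  have hJ := (ProbabilityTheory.indepFun_iff_map_prod_eq_prod_map_map hmD.aemeasurable (hm c0).aemeasurable).1 hI
  rw [hlaw c0] at hJ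
  have e1 : ∫⁻ ω, ∏ c ∈ C, ENNReal.ofReal (ex (F' c (fun d : D' => W d ω))) ∂P =
      ∫⁻ ω, G ((fun d : D => W d ω), W c0 ω) ∂P := rfl
  rw [e1, ← lintegral_map hGm (hmD.prodMk (hm c0)), hJ, lintegral_prod _ hGm.aemeasurable]
  have e2 : ∀ y : D → ℝ, ∫⁻ s, G (y, s) ∂(ProbabilityTheory.expMeasure 1) =
      ∫⁻ s in Ioi (0:ℝ), ENNReal.ofReal (Real.exp (-s)) * G (y, s) := fun y =>
    g2_lint _ (hGm.comp measurable_prodMk_left)
  rw [lintegral_map (hGm.lintegral_prod_right') hmD]
  refine lintegral_congr fun ω => ?_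
  exact e2 _

end LPPEnd
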