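import Pool.Agent.Lib.MP_267da7_pr.G1
import Pool.Agent.Lib.MP_267da7_pr.G2

/-!
# G3: the last passage probabilities as expectations over the inner weights

`xW W om i j = W (i,j) om`.  `lam` antitone, `lam N = 0`, `M >= 0`.  Let `C` = the corner cells `(i, lam i - 1)`, `i in corners N lam` (the map
`i -> (i, lam i - 1)` is injective), `D` = the other cells `(i,j)`, `j < lam i`, `i < N`.  For a corner `i` the value `Lp x i (lam i - 1)` is a measurable function of
the weights in `D`: by `Lp_congr` it only depends on the cells `<= (i, lam i - 1)` different from it, which are cells of `lam` and are not corner cells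
(`i' <= i`, `j' <= lam i - 1`, not equal: if `i' < i` then `j' <= lam i - 1 < lam i <= lam i'`, and if `(i', j')` were the corner cell of row `i'`,
`j' = lam i' - 1 >= lam i - 1 >= j'` would give `lam i' = lam i`, contradicting `lam (i'+1) < lam i'`).
Almost surely all weights are nonnegative (`W_nonneg`).
`P_A`: `Aset_iff` and `L = x + Lp` (`L_eq`): the event is `W_c <= M - Lp_c` for all `c in C`; `G2_indep` with `S = univ`.
`P_A_rem`: `Aset_rem_iff`: the event is `Lp_(i0) <= M` and `W_c <= M - Lp_c` for the other corners; `G2_indep` with `S = {Lp_(i0) <= M}`,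
 `1_S = ex0 (M - Lp_(i0))`.
`P_arg` (for `lam = stair N` or any `lam`): the event `L_i <= L_(i0)` for all corners `i` is, for `i != i0`, `W_i <= W_(i0) + Lp_(i0) - Lp_i`; `G2_one`, and substitute
 `t = s + Lp_(i0)`: `int_(s>0) e^(-s) prod ex (s + Lp_(i0) - Lp_i) ds = int_(t>0) (ex0 - ex)(t - Lp_(i0)) prod ex (t - Lp_i) dt`, since
 `(ex0 - ex)(t - l) = e^(-(t-l))` for `t >= l` and `0` for `t < l`, and `Lp_(i0) >= 0`.
-/

open Real MeasureTheory Set Filter
open scoped Topology

namespace LPPEnd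

/-- the weights as a function of the cell -/
def xW {Om' : Type*} (W : ℕ × ℕ → Om' → ℝ) (ω : Om') : ℕ → ℕ → ℝ := fun i j => W (i, j) ω

/-- the corner cells -/
private def G3_C (lam : ℕ → ℕ) (R : Finset ℕ) : Finset (ℕ × ℕ) :=
  R.image fun i => (i, lam i - 1)

/-- the other cells of the diagram -/
private def G3_D (N : ℕ) (lam : ℕ → ℕ) : Finset (ℕ × ℕ) :=
  ((Finset.range N ×ˢ Finset.range (lam 0)).filter fun c => c.2 < lam c.1) \
    G3_C lam (corners N lam)

/-- extension of a configuration on `D` by zero -/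
private noncomputable def G3_ext (N : ℕ) (lam : ℕ → ℕ) (y : G3_D N lam → ℝ) : ℕ → ℕ → ℝ :=
  fun i j => if h : (i, j) ∈ G3_D N lam then y ⟨(i, j), h⟩ else 0

private theorem G3_ext_meas (N : ℕ) (lam : ℕ → ℕ) : Measurable (G3_ext N lam) := by
  refine measurable_pi_iff.mpr fun i => measurable_pi_iff.mpr fun j => ?_
  unfold G3_ext
  by_cases h : (i, j) ∈ G3_D N lam
  · simp only [h, dif_pos]
    exact measurable_pi_apply _
  · simp only [h, dif_neg, not_false_eq_true]
    exact measurable_const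

private theorem G3_disj (N : ℕ) (lam : ℕ → ℕ) (R : Finset ℕ) (hR : R ⊆ corners N lam) :
    Disjoint (G3_C lam R) (G3_D N lam) := by
  refine Disjoint.mono_left (Finset.image_subset_image hR) ?_
  exact Finset.sdiff_disjoint.symm

private theorem G3_prod {M : Type*} [CommMonoid M] (lam : ℕ → ℕ) (R : Finset ℕ)
    (f : ℕ × ℕ → M) : ∏ c ∈ G3_C lam R, f c = ∏ i ∈ R, f (i, lam i - 1) := by
  unfold G3_C
  refine Finset.prod_image fun a _ b _ h => ?_
  exact (Prod.ext_iff.mp h).1

private theorem G3_ball (lam : ℕ → ℕ) (R : Finset ℕ) (p : ℕ × ℕ → Prop) :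
    (∀ c ∈ G3_C lam R, p c) ↔ ∀ i ∈ R, p (i, lam i - 1) := by
  unfold G3_C
  rw [Finset.forall_mem_image]

private theorem G3_Lp (N : ℕ) (lam : ℕ → ℕ) (hl : Antitone lam) (i : ℕ)
    (hi : i ∈ corners N lam) (x : ℕ → ℕ → ℝ) :
    Lp x i (lam i - 1) =
      Lp (G3_ext N lam fun d => x (d : ℕ × ℕ).1 (d : ℕ × ℕ).2) i (lam i - 1) := by
  rw [corners, Finset.mem_filter, Finset.mem_range] at hi
  refine Lp_congr _ _ _ _ fun i' j' hi' hj' hne => ?_
  have hmem : (i', j') ∈ G3_D N lam := by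
    unfold G3_D
    rw [Finset.mem_sdiff, Finset.mem_filter, Finset.mem_product, Finset.mem_range,
      Finset.mem_range]
    have h1 : lam i ≤ lam i' := hl hi'
    have h2 : lam i' ≤ lam 0 := hl (Nat.zero_le _)
    refine ⟨⟨⟨by simp only; omega, by simp only; omega⟩, by simp only; omega⟩, ?_⟩
    intro hc
    unfold G3_C at hc
    rw [Finset.mem_image] at hc
    obtain ⟨k, hk, hkk⟩ := hc
    rw [corners, Finset.mem_filter, Finset.mem_range] at hk
    have hk1 : k = i' := (Prod.ext_iff.mp hkk).1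
    have hk2 : lam k - 1 = j' := (Prod.ext_iff.mp hkk).2
    subst hk1
    rcases Nat.lt_or_ge k i with hlt | hge
    · have h3 : lam i ≤ lam (k + 1) := hl hlt
      omega
    · have : k = i := le_antisymm hi' hge
      subst this
      rcases hne with h | h
      · exact h rfl
      · exact h hk2.symm
  unfold G3_ext
  rw [dif_pos hmem]

variable {Om' : Type*} [MeasurableSpace Om'] (P : Measure Om') [IsProbabilityMeasure P]
  (W : ℕ × ℕ → Om' → ℝ)

private theorem G3_Lp' (N : ℕ) (lam : ℕ → ℕ) (hl : Antitone lam) (i : ℕ)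
    (hi : i ∈ corners N lam) (ω : Om') :
    Lp (G3_ext N lam fun d : G3_D N lam => W d ω) i (lam i - 1) =
      Lp (xW W ω) i (lam i - 1) := (G3_Lp N lam hl i hi (xW W ω)).symm

private theorem G3_FL_meas (N : ℕ) (lam : ℕ → ℕ) (i j : ℕ) :
    Measurable fun y : G3_D N lam → ℝ => Lp (G3_ext N lam y) i j :=
  (Lp_meas i j).comp (G3_ext_meas N lam)

theorem P_A (hm : ∀ z, Measurable (W z)) (hind : ProbabilityTheory.iIndepFun W P)
    (hlaw : ∀ z, P.map (W z) = ProbabilityTheory.expMeasure 1) (N : ℕ) (lam : ℕ → ℕ)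
    (hl : Antitone lam) (h0 : lam N = 0) (M : ℝ) (hM : 0 ≤ M) :
    P {ω | xW W ω ∈ Aset lam M} =
      ∫⁻ ω, ∏ i ∈ corners N lam, ENNReal.ofReal (ex (M - Lp (xW W ω) i (lam i - 1))) ∂P := by
  have h := G2_indep P W hm hind hlaw (G3_C lam (corners N lam)) (G3_D N lam)
    (G3_disj N lam _ (Finset.Subset.refl _))
    (fun c y => M - Lp (G3_ext N lam y) c.1 c.2)
    (fun c => measurable_const.sub (G3_FL_meas N lam c.1 c.2)) univ MeasurableSet.univ
  have e1 : P {ω | xW W ω ∈ Aset lam M} =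
      P {ω | (fun d : G3_D N lam => W d ω) ∈ (univ : Set (G3_D N lam → ℝ)) ∧
        ∀ c ∈ G3_C lam (corners N lam),
          W c ω ≤ M - Lp (G3_ext N lam fun d : G3_D N lam => W d ω) c.1 c.2} := by
    refine measure_congr ?_
    filter_upwards [W_nonneg P W hm hlaw] with ω hω
    refine propext ?_
    change xW W ω ∈ Aset lam M ↔ _ ∧ ∀ c ∈ G3_C lam (corners N lam),
          W c ω ≤ M - Lp (G3_ext N lam fun d : G3_D N lam => W d ω) c.1 c.2
    rw [Aset_iff N lam hl h0 M (xW W ω) (fun i j => hω (i, j)), G3_ball]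
    constructor
    · intro h
      refine ⟨mem_univ _, fun i hi => ?_⟩
      have h1 := h i hi
      rw [L_eq] at h1
      rw [G3_Lp' W N lam hl i hi]
      change xW W ω i (lam i - 1) ≤ _
      linarith
    · rintro ⟨-, h⟩ i hi
      have h1 := h i hi
      rw [G3_Lp' W N lam hl i hi] at h1
      change xW W ω i (lam i - 1) ≤ _ at h1
      rw [L_eq]
      linarith
  rw [e1, h]
  refine lintegral_congr fun ω => ?_
  rw [indicator_of_mem (mem_univ _), one_mul, G3_prod]
  refine Finset.prod_congr rfl fun i hi => ?_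
  rw [G3_Lp' W N lam hl i hi]

theorem P_A_rem (hm : ∀ z, Measurable (W z)) (hind : ProbabilityTheory.iIndepFun W P)
    (hlaw : ∀ z, P.map (W z) = ProbabilityTheory.expMeasure 1) (N : ℕ) (lam : ℕ → ℕ)
    (hl : Antitone lam) (h0 : lam N = 0) (M : ℝ) (hM : 0 ≤ M) (i0 : ℕ)
    (hi0 : i0 ∈ corners N lam) :
    P {ω | xW W ω ∈ Aset (rem lam i0) M} =
      ∫⁻ ω, ENNReal.ofReal (ex0 (M - Lp (xW W ω) i0 (lam i0 - 1))) *
        ∏ i ∈ (corners N lam).erase i0,
          ENNReal.ofReal (ex (M - Lp (xW W ω) i (lam i - 1))) ∂P := by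
  have hS : MeasurableSet {y : G3_D N lam → ℝ | Lp (G3_ext N lam y) i0 (lam i0 - 1) ≤ M} :=
    measurableSet_le (G3_FL_meas N lam _ _) measurable_const
  have h := G2_indep P W hm hind hlaw (G3_C lam ((corners N lam).erase i0)) (G3_D N lam)
    (G3_disj N lam _ (Finset.erase_subset _ _))
    (fun c y => M - Lp (G3_ext N lam y) c.1 c.2)
    (fun c => measurable_const.sub (G3_FL_meas N lam c.1 c.2)) _ hS
  have e1 : P {ω | xW W ω ∈ Aset (rem lam i0) M} =
      P {ω | (fun d : G3_D N lam => W d ω) ∈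
          {y : G3_D N lam → ℝ | Lp (G3_ext N lam y) i0 (lam i0 - 1) ≤ M} ∧
        ∀ c ∈ G3_C lam ((corners N lam).erase i0),
          W c ω ≤ M - Lp (G3_ext N lam fun d : G3_D N lam => W d ω) c.1 c.2} := by
    refine measure_congr ?_
    filter_upwards [W_nonneg P W hm hlaw] with ω hω
    refine propext ?_
    change xW W ω ∈ Aset (rem lam i0) M ↔
      Lp (G3_ext N lam fun d : G3_D N lam => W d ω) i0 (lam i0 - 1) ≤ M ∧
      ∀ c ∈ G3_C lam ((corners N lam).erase i0),
          W c ω ≤ M - Lp (G3_ext N lam fun d : G3_D N lam => W d ω) c.1 c.2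
    rw [Aset_rem_iff N lam hl h0 M hM (xW W ω) (fun i j => hω (i, j)) i0 hi0, G3_ball,
      G3_Lp' W N lam hl i0 hi0]
    refine and_congr_right fun _ => ?_
    refine forall₂_congr fun i hi => ?_
    rw [G3_Lp' W N lam hl i (Finset.mem_of_mem_erase hi), L_eq]
    change _ ↔ xW W ω i (lam i - 1) ≤ _
    constructor <;> intro h <;> linarith
  rw [e1, h]
  refine lintegral_congr fun ω => ?_
  rw [G3_prod]
  congr 1
  · by_cases h1 : Lp (xW W ω) i0 (lam i0 - 1) ≤ M
    · rw [indicator_of_mem]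
      · unfold ex0
        rw [if_pos (sub_nonneg.mpr h1)]
        simp
      · change Lp (G3_ext N lam fun d : G3_D N lam => W d ω) i0 (lam i0 - 1) ≤ M
        rw [G3_Lp' W N lam hl i0 hi0]
        exact h1
    · rw [indicator_of_notMem]
      · unfold ex0
        rw [if_neg fun h2 => h1 (sub_nonneg.mp h2)]
        simp
      · change ¬ Lp (G3_ext N lam fun d : G3_D N lam => W d ω) i0 (lam i0 - 1) ≤ M
        rw [G3_Lp' W N lam hl i0 hi0]
        exact h1
  · refine Finset.prod_congr rfl fun i hi => ?_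
    rw [G3_Lp' W N lam hl i (Finset.mem_of_mem_erase hi)]

/-- the substitution `t = s + l` -/
private theorem G3_subst (l : ℝ) (hl : 0 ≤ l) (g : ℝ → ENNReal) :
    ∫⁻ s in Ioi (0:ℝ), ENNReal.ofReal (Real.exp (-s)) * g (s + l) =
      ∫⁻ t in Ioi (0:ℝ), ENNReal.ofReal (ex0 (t - l) - ex (t - l)) * g t := by
  rw [← lintegral_indicator measurableSet_Ioi, ← lintegral_indicator measurableSet_Ioi]
  refine Eq.trans (lintegral_congr_ae ?_) (lintegral_add_right_eq_self _ l)
  have hae : ∀ᵐ s : ℝ, s ≠ 0 := by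
    rw [ae_iff]
    simp
  filter_upwards [hae] with s hs
  rcases lt_or_gt_of_ne hs with h | h
  · rw [indicator_of_notMem (by simpa using h.le)]
    have e : ENNReal.ofReal (ex0 s - ex s) = 0 := by
      unfold ex0 ex
      rw [if_neg (not_le.mpr h), if_neg (not_le.mpr h)]
      simp
    by_cases h2 : s + l ∈ Ioi (0 : ℝ)
    · rw [indicator_of_mem h2, add_sub_cancel_right, e, zero_mul]
    · rw [indicator_of_notMem h2]
  · rw [indicator_of_mem (mem_Ioi.mpr h), indicator_of_mem (mem_Ioi.mpr (by linarith)),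
      add_sub_cancel_right]
    congr 2
    unfold ex0 ex
    rw [if_pos h.le, if_pos h.le]
    ring

theorem P_arg (hm : ∀ z, Measurable (W z)) (hind : ProbabilityTheory.iIndepFun W P)
    (hlaw : ∀ z, P.map (W z) = ProbabilityTheory.expMeasure 1) (N : ℕ) (lam : ℕ → ℕ)
    (hl : Antitone lam) (h0 : lam N = 0) (i0 : ℕ) (hi0 : i0 ∈ corners N lam) :
    P {ω | ∀ i ∈ corners N lam, L (xW W ω) i (lam i - 1) ≤ L (xW W ω) i0 (lam i0 - 1)} =
      ∫⁻ ω, (∫⁻ t in Ioi (0:ℝ),
        ENNReal.ofReal (ex0 (t - Lp (xW W ω) i0 (lam i0 - 1)) -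
          ex (t - Lp (xW W ω) i0 (lam i0 - 1))) *
        ∏ i ∈ (corners N lam).erase i0,
          ENNReal.ofReal (ex (t - Lp (xW W ω) i (lam i - 1)))) ∂P := by
  have hc0 : (i0, lam i0 - 1) ∈ G3_C lam (corners N lam) :=
    Finset.mem_image_of_mem (fun i => (i, lam i - 1)) hi0
  have h := G2_one P W hm hind hlaw (G3_C lam ((corners N lam).erase i0)) (G3_D N lam)
    (G3_disj N lam _ (Finset.erase_subset _ _)) (i0, lam i0 - 1)
    (by
      unfold G3_C
      rw [Finset.mem_image]
      rintro ⟨k, hk, hkk⟩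
      exact Finset.ne_of_mem_erase hk (Prod.ext_iff.mp hkk).1)
    (Finset.disjoint_left.mp (G3_disj N lam _ (Finset.Subset.refl _)) hc0)
    (fun c y s => s + Lp (G3_ext N lam y) i0 (lam i0 - 1) - Lp (G3_ext N lam y) c.1 c.2)
    (fun c => (measurable_snd.add ((G3_FL_meas N lam _ _).comp measurable_fst)).sub
      ((G3_FL_meas N lam _ _).comp measurable_fst))
  have e1 : {ω | ∀ i ∈ corners N lam,
        L (xW W ω) i (lam i - 1) ≤ L (xW W ω) i0 (lam i0 - 1)} =
      {ω | ∀ c ∈ G3_C lam ((corners N lam).erase i0),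
          W c ω ≤ W (i0, lam i0 - 1) ω +
            Lp (G3_ext N lam fun d : G3_D N lam => W d ω) i0 (lam i0 - 1) -
            Lp (G3_ext N lam fun d : G3_D N lam => W d ω) c.1 c.2} := by
    ext ω
    rw [mem_ofPred_eq, mem_ofPred_eq, G3_ball, G3_Lp' W N lam hl i0 hi0]
    constructor
    · intro h i hi
      have h1 := h i (Finset.mem_of_mem_erase hi)
      rw [L_eq, L_eq] at h1
      rw [G3_Lp' W N lam hl i (Finset.mem_of_mem_erase hi)]
      change xW W ω i (lam i - 1) ≤ xW W ω i0 (lam i0 - 1) + _ - _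
      linarith
    · intro h i hi
      by_cases hii : i = i0
      · rw [hii]
      · have h1 := h i (Finset.mem_erase.mpr ⟨hii, hi⟩)
        rw [G3_Lp' W N lam hl i hi] at h1
        change xW W ω i (lam i - 1) ≤ xW W ω i0 (lam i0 - 1) + _ - _ at h1
        rw [L_eq, L_eq]
        linarith
  rw [e1, h]
  refine lintegral_congr_ae ?_
  filter_upwards [W_nonneg P W hm hlaw] with ω hω
  have h2 : 0 ≤ Lp (xW W ω) i0 (lam i0 - 1) := Lp_nonneg _ (fun i j => hω (i, j)) _ _
  rw [← G3_subst _ h2 fun t => ∏ i ∈ (corners N lam).erase i0,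
          ENNReal.ofReal (ex (t - Lp (xW W ω) i (lam i - 1)))]
  refine lintegral_congr fun s => ?_
  rw [G3_prod, G3_Lp' W N lam hl i0 hi0]
  congr 1
  refine Finset.prod_congr rfl fun i hi => ?_
  rw [G3_Lp' W N lam hl i (Finset.mem_of_mem_erase hi)]

end LPPEnd
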