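import Pool.Agent.Lib.MP_267da7_pr.G3

/-!
# G4: the evolution equation of the last passage probabilities

`Pl W P lam M = P(all last passage values on the diagram are <= M)` (real number).

`ex_prod`: `C` finite nonempty, `l : N -> R` nonnegative, `M >= 0`:
`prod_(i in C) ex (M - l i) = int_0^M sum_(i in C) ((ex0 - ex)(t - l i)) prod_(k in C.erase i) ex (t - l k) dt`.
Let `m = max_C l`.  For `t < m` every term of the sum vanishes (if `i` is not the index of the maximum then the product contains `ex (t - m) = 0`, if it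
is, then `(ex0 - ex)(t - m) = 0`).  For `t >= m` (so `t >= l i` for all `i`) the sum is the derivative of `prod_i (1 - e^(-(t - l i)))`, which is `0` at
`t = m`.  So the integral is `0` for `M <= m` and `prod (1 - e^(-(M - l i)))` for `M >= m`.

`Pl_eq`: for `lam` with at least one corner: `Pl lam M = int_0^M sum_(i in corners) (Pl (rem lam i) t - Pl lam t) dt`, `M >= 0`.
By `P_A`, `P_A_rem` (as real expectations, all integrands in `[0,1]`): `Pl lam t = E prod_i ex (t - Lp_i)`, `Pl (rem lam i) t = E ex0 (t - Lp_i) prod_(k != i) ex (t - Lp_k)`, so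
`Pl (rem lam i) t - Pl lam t = E (ex0 - ex)(t - Lp_i) prod_(k != i) ex (t - Lp_k)`; `ex_prod` with `l i = Lp_i(om)` (nonnegative almost surely), take the
expectation and use Fubini (`intervalIntegral` of an expectation, bounded jointly measurable integrand).

`Pl_arg`: `P_arg` and Fubini: `P(L_i <= L_(i0) for all corners i) = int_(t>0) (Pl (rem lam i0) t - Pl lam t) dt`; the integrand is nonnegative; integrable
because the left side is finite.
-/

open Real MeasureTheory Set Filter
open scoped Topology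

namespace LPPEnd

private theorem G4_ex_nonneg (t : ℝ) : 0 ≤ ex t := by
  unfold ex
  split_ifs with h
  · have : Real.exp (-t) ≤ 1 := Real.exp_le_one_iff.mpr (by linarith)
    linarith
  · exact le_refl _

private theorem G4_ex_le_one (t : ℝ) : ex t ≤ 1 := by
  unfold ex
  split_ifs with h
  · have := Real.exp_pos (-t)
    linarith
  · exact zero_le_one

private theorem G4_ex0_nonneg (t : ℝ) : 0 ≤ ex0 t := by
  unfold ex0
  split_ifs
  · exact zero_le_one
  · exact le_refl _

private theorem G4_ex0_le_one (t : ℝ) : ex0 t ≤ 1 := by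
  unfold ex0
  split_ifs
  · exact le_refl _
  · exact zero_le_one

private theorem G4_ex_le_ex0 (t : ℝ) : ex t ≤ ex0 t := by
  unfold ex ex0
  split_ifs with h
  · have := Real.exp_pos (-t)
    linarith
  · exact le_refl _

private theorem G4_ex_eq_max (t : ℝ) : ex t = 1 - Real.exp (-(max t 0)) := by
  unfold ex
  split_ifs with h
  · rw [max_eq_left h]
  · rw [max_eq_right (not_le.mp h).le]
    simp

private theorem G4_ex_cont : Continuous ex := by
  have : ex = fun t => 1 - Real.exp (-(max t 0)) := funext G4_ex_eq_max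
  rw [this]
  fun_prop

private theorem G4_ex_meas : Measurable ex := G4_ex_cont.measurable

private theorem G4_ex0_meas : Measurable ex0 := by
  unfold ex0
  exact Measurable.ite measurableSet_Ici measurable_const measurable_const

private theorem G4_ex_deriv (l t : ℝ) :
    HasDerivWithinAt (fun s => ex (s - l)) (ex0 (t - l) - ex (t - l)) (Ioi t) t := by
  by_cases h : 0 ≤ t - l
  · have e : ex0 (t - l) - ex (t - l) = Real.exp (-(t - l)) := by
      unfold ex ex0
      rw [if_pos h, if_pos h]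
      ring
    rw [e]
    have h1 : HasDerivWithinAt (fun s => 1 - Real.exp (-(s - l))) (Real.exp (-(t - l))) (Ioi t) t := by
      have h2 : HasDerivAt (fun s : ℝ => -(s - l)) (-1) t := by
        exact ((hasDerivAt_id t).sub_const l).neg
      have h3 := (h2.exp.const_sub 1).hasDerivWithinAt (s := Ioi t)
      refine h3.congr_deriv ?_
      ring
    refine h1.congr ?_ ?_
    · intro s hs
      have : 0 ≤ s - l := by
        have := mem_Ioi.mp hs
        linarith
      unfold ex
      rw [if_pos this]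
    · unfold ex
      rw [if_pos h]
  · have e : ex0 (t - l) - ex (t - l) = 0 := by
      unfold ex ex0
      rw [if_neg h, if_neg h, sub_zero]
    rw [e]
    have h1 : HasDerivAt (fun s => ex (s - l)) 0 t := by
      refine (hasDerivAt_const t (0 : ℝ)).congr_of_eventuallyEq ?_
      have hlt : t < l := by
        push Not at h
        linarith
      filter_upwards [Iio_mem_nhds hlt] with s hs
      unfold ex
      rw [if_neg]
      have := mem_Iio.mp hs
      linarith
    exact h1.hasDerivWithinAt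

/-- the integrand of `ex_prod` -/
private noncomputable def G4_g (C : Finset ℕ) (l : ℕ → ℝ) (t : ℝ) : ℝ :=
  ∑ i ∈ C, (ex0 (t - l i) - ex (t - l i)) * ∏ k ∈ C.erase i, ex (t - l k)

private theorem G4_prod_nonneg (C : Finset ℕ) (l : ℕ → ℝ) (t : ℝ) :
    0 ≤ ∏ k ∈ C, ex (t - l k) := Finset.prod_nonneg fun _ _ => G4_ex_nonneg _

private theorem G4_prod_le_one (C : Finset ℕ) (l : ℕ → ℝ) (t : ℝ) :
    ∏ k ∈ C, ex (t - l k) ≤ 1 :=
  Finset.prod_le_one (fun _ _ => G4_ex_nonneg _) fun _ _ => G4_ex_le_one _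

private theorem G4_term_nonneg (C : Finset ℕ) (l : ℕ → ℝ) (t : ℝ) (i : ℕ) :
    0 ≤ (ex0 (t - l i) - ex (t - l i)) * ∏ k ∈ C.erase i, ex (t - l k) :=
  mul_nonneg (sub_nonneg.mpr (G4_ex_le_ex0 _)) (G4_prod_nonneg _ _ _)

private theorem G4_term_le_one (C : Finset ℕ) (l : ℕ → ℝ) (t : ℝ) (i : ℕ) :
    (ex0 (t - l i) - ex (t - l i)) * ∏ k ∈ C.erase i, ex (t - l k) ≤ 1 := by
  have h1 : ex0 (t - l i) - ex (t - l i) ≤ 1 := by
    have := G4_ex0_le_one (t - l i)
    have := G4_ex_nonneg (t - l i)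
    linarith
  exact mul_le_one₀ h1 (G4_prod_nonneg _ _ _) (G4_prod_le_one _ _ _)

private theorem G4_meas_ex (l : ℕ → ℝ) (k : ℕ) : Measurable fun t : ℝ => ex (t - l k) :=
  G4_ex_meas.comp (measurable_id.sub_const _)

private theorem G4_meas_ex0 (l : ℕ → ℝ) (k : ℕ) : Measurable fun t : ℝ => ex0 (t - l k) :=
  G4_ex0_meas.comp (measurable_id.sub_const _)

private theorem G4_g_meas (C : Finset ℕ) (l : ℕ → ℝ) : Measurable (G4_g C l) := by
  unfold G4_g
  refine Finset.measurable_fun_sum _ fun i _ => ?_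
  exact ((G4_meas_ex0 l i).sub (G4_meas_ex l i)).mul
    (Finset.measurable_fun_prod _ fun k _ => G4_meas_ex l k)

private theorem G4_g_bound (C : Finset ℕ) (l : ℕ → ℝ) (t : ℝ) : ‖G4_g C l t‖ ≤ C.card := by
  have h0 : 0 ≤ G4_g C l t := Finset.sum_nonneg fun i _ => G4_term_nonneg C l t i
  rw [Real.norm_of_nonneg h0]
  unfold G4_g
  refine (Finset.sum_le_card_nsmul _ _ 1 fun i _ => G4_term_le_one C l t i).trans ?_
  simp

theorem ex_prod (C : Finset ℕ) (hC : C.Nonempty) (l : ℕ → ℝ) (hl : ∀ i, 0 ≤ l i) (M : ℝ)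
    (hM : 0 ≤ M) :
    ∏ i ∈ C, ex (M - l i) =
      ∫ t in (0:ℝ)..M, ∑ i ∈ C, (ex0 (t - l i) - ex (t - l i)) * ∏ k ∈ C.erase i, ex (t - l k) := by
  have hcont : Continuous fun t : ℝ => ∏ i ∈ C, ex (t - l i) :=
    continuous_finsetProd _ fun i _ => G4_ex_cont.comp (continuous_id.sub continuous_const)
  have hder : ∀ x ∈ Ioo (min 0 M) (max 0 M),
      HasDerivWithinAt (fun t : ℝ => ∏ i ∈ C, ex (t - l i)) (G4_g C l x) (Ioi x) x := by
    intro x _
    have h := HasDerivWithinAt.fun_finsetProd (u := C) (f := fun i t => ex (t - l i))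
      (f' := fun i => ex0 (x - l i) - ex (x - l i)) (s := Ioi x) (x := x)
      fun i _ => G4_ex_deriv (l i) x
    refine h.congr_deriv ?_
    unfold G4_g
    refine Finset.sum_congr rfl fun i _ => ?_
    rw [smul_eq_mul, mul_comm]
  have hint : IntervalIntegrable (G4_g C l) volume 0 M := by
    rw [intervalIntegrable_iff]
    refine Measure.integrableOn_of_bounded (M := (C.card : ℝ)) ?_ ?_ ?_
    · simp
    · exact (G4_g_meas C l).aestronglyMeasurable
    · exact Filter.Eventually.of_forall fun t => G4_g_bound C l t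
  have h := intervalIntegral.integral_eq_sub_of_hasDeriv_right hcont.continuousOn hder hint
  have h0 : ∏ i ∈ C, ex (0 - l i) = 0 := by
    obtain ⟨i, hi⟩ := hC
    refine Finset.prod_eq_zero hi ?_
    rw [G4_ex_eq_max, max_eq_right (by linarith [hl i])]
    simp
  rw [h0, sub_zero] at h
  exact h.symm

variable {Om' : Type*} [MeasurableSpace Om'] (P : Measure Om') [IsProbabilityMeasure P]
  (W : ℕ × ℕ → Om' → ℝ)

/-- last passage probabilities -/
noncomputable def Pl {Om' : Type*} [MeasurableSpace Om'] (P : Measure Om')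
    (W : ℕ × ℕ → Om' → ℝ) (lam : ℕ → ℕ) (M : ℝ) : ℝ :=
  (P {ω | xW W ω ∈ Aset lam M}).toReal

private theorem G4_xW_meas (hm : ∀ z, Measurable (W z)) : Measurable (xW W) := by
  refine measurable_pi_iff.mpr fun i => measurable_pi_iff.mpr fun j => ?_
  exact hm (i, j)

private theorem G4_Lp_meas (hm : ∀ z, Measurable (W z)) (i j : ℕ) :
    Measurable fun ω => Lp (xW W ω) i j := (Lp_meas i j).comp (G4_xW_meas W hm)

/-- the value of `Lp` at the corner of row `i` -/
private noncomputable def G4_l (lam : ℕ → ℕ) (ω : Om') (i : ℕ) : ℝ :=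
  Lp (xW W ω) i (lam i - 1)

private theorem G4_l_meas (hm : ∀ z, Measurable (W z)) (lam : ℕ → ℕ) (i : ℕ) :
    Measurable fun p : ℝ × Om' => p.1 - G4_l W lam p.2 i :=
  measurable_fst.sub ((G4_Lp_meas W hm i (lam i - 1)).comp measurable_snd)

private theorem G4_exl_meas (hm : ∀ z, Measurable (W z)) (lam : ℕ → ℕ) (i : ℕ) :
    Measurable fun p : ℝ × Om' => ex (p.1 - G4_l W lam p.2 i) :=
  G4_ex_meas.comp (G4_l_meas W hm lam i)

private theorem G4_ex0l_meas (hm : ∀ z, Measurable (W z)) (lam : ℕ → ℕ) (i : ℕ) :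
    Measurable fun p : ℝ × Om' => ex0 (p.1 - G4_l W lam p.2 i) :=
  G4_ex0_meas.comp (G4_l_meas W hm lam i)

private theorem G4_term_meas (hm : ∀ z, Measurable (W z)) (lam : ℕ → ℕ) (C : Finset ℕ) (i : ℕ) :
    Measurable fun p : ℝ × Om' =>
      (ex0 (p.1 - G4_l W lam p.2 i) - ex (p.1 - G4_l W lam p.2 i)) *
        ∏ k ∈ C.erase i, ex (p.1 - G4_l W lam p.2 k) :=
  ((G4_ex0l_meas W hm lam i).sub (G4_exl_meas W hm lam i)).mul
    (Finset.measurable_fun_prod _ fun k _ => G4_exl_meas W hm lam k)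

private theorem G4_Pl (hm : ∀ z, Measurable (W z)) (hind : ProbabilityTheory.iIndepFun W P)
    (hlaw : ∀ z, P.map (W z) = ProbabilityTheory.expMeasure 1) (N : ℕ) (lam : ℕ → ℕ)
    (hl : Antitone lam) (h0 : lam N = 0) (M : ℝ) (hM : 0 ≤ M) :
    Pl P W lam M = ∫ ω, ∏ i ∈ corners N lam, ex (M - G4_l W lam ω i) ∂P := by
  have hmeas : Measurable fun ω => ∏ i ∈ corners N lam, ex (M - G4_l W lam ω i) :=
    Finset.measurable_fun_prod _ fun k _ =>
      (G4_exl_meas W hm lam k).comp (measurable_const.prodMk measurable_id)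
  rw [Pl, P_A P W hm hind hlaw N lam hl h0 M hM, integral_eq_lintegral_of_nonneg_ae
    (Filter.Eventually.of_forall fun ω => G4_prod_nonneg _ _ _) hmeas.aestronglyMeasurable]
  congr 1
  refine lintegral_congr fun ω => ?_
  rw [ENNReal.ofReal_prod_of_nonneg fun _ _ => G4_ex_nonneg _]
  rfl

private theorem G4_Pl_rem (hm : ∀ z, Measurable (W z)) (hind : ProbabilityTheory.iIndepFun W P)
    (hlaw : ∀ z, P.map (W z) = ProbabilityTheory.expMeasure 1) (N : ℕ) (lam : ℕ → ℕ)
    (hl : Antitone lam) (h0 : lam N = 0) (M : ℝ) (hM : 0 ≤ M) (i0 : ℕ)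
    (hi0 : i0 ∈ corners N lam) :
    Pl P W (rem lam i0) M = ∫ ω, ex0 (M - G4_l W lam ω i0) *
      ∏ i ∈ (corners N lam).erase i0, ex (M - G4_l W lam ω i) ∂P := by
  have hmeas : Measurable fun ω => ex0 (M - G4_l W lam ω i0) *
      ∏ i ∈ (corners N lam).erase i0, ex (M - G4_l W lam ω i) :=
    ((G4_ex0l_meas W hm lam i0).comp (measurable_const.prodMk measurable_id)).mul
    (Finset.measurable_fun_prod _ fun k _ =>
      (G4_exl_meas W hm lam k).comp (measurable_const.prodMk measurable_id))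
  rw [Pl, P_A_rem P W hm hind hlaw N lam hl h0 M hM i0 hi0, integral_eq_lintegral_of_nonneg_ae
    (Filter.Eventually.of_forall fun ω => mul_nonneg (G4_ex0_nonneg _) (G4_prod_nonneg _ _ _))
    hmeas.aestronglyMeasurable]
  congr 1
  refine lintegral_congr fun ω => ?_
  rw [ENNReal.ofReal_mul (G4_ex0_nonneg _),
    ENNReal.ofReal_prod_of_nonneg fun _ _ => G4_ex_nonneg _]
  rfl

private theorem G4_int1 (hm : ∀ z, Measurable (W z)) (lam : ℕ → ℕ) (C : Finset ℕ) (M : ℝ) :
    Integrable (fun ω => ∏ i ∈ C, ex (M - G4_l W lam ω i)) P := by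
  refine Integrable.of_bound (C := 1) ?_ ?_
  · exact (Finset.measurable_fun_prod _ fun k _ =>
      (G4_exl_meas W hm lam k).comp (measurable_const.prodMk measurable_id)).aestronglyMeasurable
  · refine Filter.Eventually.of_forall fun ω => ?_
    rw [Real.norm_of_nonneg (G4_prod_nonneg _ _ _)]
    exact G4_prod_le_one _ _ _

private theorem G4_int2 (hm : ∀ z, Measurable (W z)) (lam : ℕ → ℕ) (C : Finset ℕ) (M : ℝ)
    (i0 : ℕ) : Integrable (fun ω => ex0 (M - G4_l W lam ω i0) *
      ∏ i ∈ C, ex (M - G4_l W lam ω i)) P := by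
  refine Integrable.of_bound (C := 1) ?_ ?_
  · exact (((G4_ex0l_meas W hm lam i0).comp (measurable_const.prodMk measurable_id)).mul
      (Finset.measurable_fun_prod _ fun k _ =>
        (G4_exl_meas W hm lam k).comp
          (measurable_const.prodMk measurable_id))).aestronglyMeasurable
  · refine Filter.Eventually.of_forall fun ω => ?_
    rw [Real.norm_of_nonneg (mul_nonneg (G4_ex0_nonneg _) (G4_prod_nonneg _ _ _))]
    exact mul_le_one₀ (G4_ex0_le_one _) (G4_prod_nonneg _ _ _) (G4_prod_le_one _ _ _)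

/-- the difference of the probabilities as an expectation -/
private theorem G4_diff (hm : ∀ z, Measurable (W z)) (hind : ProbabilityTheory.iIndepFun W P)
    (hlaw : ∀ z, P.map (W z) = ProbabilityTheory.expMeasure 1) (N : ℕ) (lam : ℕ → ℕ)
    (hl : Antitone lam) (h0 : lam N = 0) (M : ℝ) (hM : 0 ≤ M) (i0 : ℕ)
    (hi0 : i0 ∈ corners N lam) :
    Pl P W (rem lam i0) M - Pl P W lam M =
      ∫ ω, (ex0 (M - G4_l W lam ω i0) - ex (M - G4_l W lam ω i0)) *
        ∏ i ∈ (corners N lam).erase i0, ex (M - G4_l W lam ω i) ∂P := by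
  rw [G4_Pl_rem P W hm hind hlaw N lam hl h0 M hM i0 hi0,
    G4_Pl P W hm hind hlaw N lam hl h0 M hM,
    ← integral_sub (G4_int2 P W hm lam _ M i0) (G4_int1 P W hm lam _ M)]
  refine integral_congr_ae (Filter.Eventually.of_forall fun ω => ?_)
  simp only
  rw [← Finset.mul_prod_erase _ _ hi0]
  ring

theorem Pl_eq (hm : ∀ z, Measurable (W z)) (hind : ProbabilityTheory.iIndepFun W P)
    (hlaw : ∀ z, P.map (W z) = ProbabilityTheory.expMeasure 1) (N : ℕ) (lam : ℕ → ℕ)
    (hl : Antitone lam) (h0 : lam N = 0) (hne : (corners N lam).Nonempty) (M : ℝ) (hM : 0 ≤ M) :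
    Pl P W lam M =
      ∫ t in (0:ℝ)..M, ∑ i ∈ corners N lam, (Pl P W (rem lam i) t - Pl P W lam t) := by
  have hL : ∀ᵐ ω ∂P, ∀ i, 0 ≤ G4_l W lam ω i := by
    filter_upwards [W_nonneg P W hm hlaw] with ω hω i
    exact Lp_nonneg _ (fun a b => hω (a, b)) _ _
  have hGm : Measurable fun p : ℝ × Om' => G4_g (corners N lam) (G4_l W lam p.2) p.1 := by
    unfold G4_g
    exact Finset.measurable_fun_sum _ fun i _ => G4_term_meas W hm lam _ i
  have e1 : (∫ t in (0:ℝ)..M, ∑ i ∈ corners N lam, (Pl P W (rem lam i) t - Pl P W lam t)) =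
      ∫ t in (0:ℝ)..M, ∫ ω, G4_g (corners N lam) (G4_l W lam ω) t ∂P := by
    refine intervalIntegral.integral_congr fun t ht => ?_
    rw [uIcc_of_le hM] at ht
    unfold G4_g
    rw [integral_finsetSum]
    · refine Finset.sum_congr rfl fun i hi => ?_
      exact G4_diff P W hm hind hlaw N lam hl h0 t ht.1 i hi
    · intro i _
      refine Integrable.of_bound (C := 1) ?_ ?_
      · exact ((G4_term_meas W hm lam _ i).comp
          (measurable_const.prodMk measurable_id)).aestronglyMeasurable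
      · refine Filter.Eventually.of_forall fun ω => ?_
        rw [Real.norm_of_nonneg (G4_term_nonneg _ _ _ _)]
        exact G4_term_le_one _ _ _ _
  rw [e1, G4_Pl P W hm hind hlaw N lam hl h0 M hM, intervalIntegral.integral_of_le hM,
    integral_integral_swap]
  · refine integral_congr_ae ?_
    filter_upwards [hL] with ω hω
    rw [ex_prod _ hne _ hω M hM, intervalIntegral.integral_of_le hM]
    rfl
  · refine Integrable.of_bound (C := ((corners N lam).card : ℝ)) ?_ ?_
    · exact hGm.aestronglyMeasurable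
    · exact Filter.Eventually.of_forall fun p => G4_g_bound _ _ _

/-- bounded and measurable -/
theorem Pl_meas (hm : ∀ z, Measurable (W z)) (lam : ℕ → ℕ) :
    Measurable (Pl P W lam) ∧ ∀ M, 0 ≤ Pl P W lam M ∧ Pl P W lam M ≤ 1 := by
  refine ⟨Monotone.measurable ?_, fun M => ⟨ENNReal.toReal_nonneg, ?_⟩⟩
  · intro a b hab
    refine ENNReal.toReal_mono (measure_ne_top _ _) (measure_mono ?_)
    intro ω hω i j hj
    exact (hω i j hj).trans hab
  · exact ENNReal.toReal_le_of_le_ofReal zero_le_one (by simpa using prob_le_one)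

theorem Pl_arg (hm : ∀ z, Measurable (W z)) (hind : ProbabilityTheory.iIndepFun W P)
    (hlaw : ∀ z, P.map (W z) = ProbabilityTheory.expMeasure 1) (N : ℕ) (lam : ℕ → ℕ)
    (hl : Antitone lam) (h0 : lam N = 0) (i0 : ℕ) (hi0 : i0 ∈ corners N lam) :
    IntegrableOn (fun t => Pl P W (rem lam i0) t - Pl P W lam t) (Ioi 0) ∧
    (∀ t, 0 ≤ t → Pl P W lam t ≤ Pl P W (rem lam i0) t) ∧
    (P {ω | ∀ i ∈ corners N lam,
        L (xW W ω) i (lam i - 1) ≤ L (xW W ω) i0 (lam i0 - 1)}).toReal =
      ∫ t in Ioi (0:ℝ), (Pl P W (rem lam i0) t - Pl P W lam t) := by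
  have hnn : ∀ t, 0 ≤ t → Pl P W lam t ≤ Pl P W (rem lam i0) t := by
    intro t ht
    rw [← sub_nonneg, G4_diff P W hm hind hlaw N lam hl h0 t ht i0 hi0]
    exact integral_nonneg fun ω => G4_term_nonneg _ _ _ _
  have hmeas : Measurable fun t => Pl P W (rem lam i0) t - Pl P W lam t :=
    (Pl_meas P W hm _).1.sub (Pl_meas P W hm _).1
  have key : P {ω | ∀ i ∈ corners N lam,
        L (xW W ω) i (lam i - 1) ≤ L (xW W ω) i0 (lam i0 - 1)} =
      ∫⁻ t in Ioi (0:ℝ), ENNReal.ofReal (Pl P W (rem lam i0) t - Pl P W lam t) := by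
    rw [P_arg P W hm hind hlaw N lam hl h0 i0 hi0]
    have e1 : ∀ (ω : Om') (t : ℝ), ENNReal.ofReal (ex0 (t - Lp (xW W ω) i0 (lam i0 - 1)) -
          ex (t - Lp (xW W ω) i0 (lam i0 - 1))) *
        ∏ i ∈ (corners N lam).erase i0, ENNReal.ofReal (ex (t - Lp (xW W ω) i (lam i - 1))) =
        ENNReal.ofReal ((ex0 (t - G4_l W lam ω i0) - ex (t - G4_l W lam ω i0)) *
        ∏ i ∈ (corners N lam).erase i0, ex (t - G4_l W lam ω i)) := by
      intro ω t
      rw [ENNReal.ofReal_mul (sub_nonneg.mpr (G4_ex_le_ex0 _)),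
        ENNReal.ofReal_prod_of_nonneg fun _ _ => G4_ex_nonneg _]
      rfl
    simp_rw [e1]
    rw [lintegral_lintegral_swap]
    · refine setLIntegral_congr_fun measurableSet_Ioi fun t ht => ?_
      rw [G4_diff P W hm hind hlaw N lam hl h0 t (mem_Ioi.mp ht).le i0 hi0,
        ofReal_integral_eq_lintegral_ofReal]
      · refine Integrable.of_bound (C := 1) ?_ ?_
        · exact ((G4_term_meas W hm lam _ i0).comp
            (measurable_const.prodMk measurable_id)).aestronglyMeasurable
        · refine Filter.Eventually.of_forall fun ω => ?_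
          rw [Real.norm_of_nonneg (G4_term_nonneg _ _ _ _)]
          exact G4_term_le_one _ _ _ _
      · exact Filter.Eventually.of_forall fun ω => G4_term_nonneg _ _ _ _
    · refine Measurable.aemeasurable ?_
      exact ((G4_term_meas W hm lam (corners N lam) i0).comp measurable_swap).ennreal_ofReal
  have hfin : ∫⁻ t in Ioi (0:ℝ), ENNReal.ofReal (Pl P W (rem lam i0) t - Pl P W lam t) < ⊤ := by
    rw [← key]
    exact measure_lt_top _ _
  have hae : ∀ᵐ t ∂(volume.restrict (Ioi (0:ℝ))), 0 ≤ Pl P W (rem lam i0) t - Pl P W lam t := by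
    filter_upwards [ae_restrict_mem measurableSet_Ioi] with t ht
    exact sub_nonneg.mpr (hnn t (mem_Ioi.mp ht).le)
  refine ⟨⟨hmeas.aestronglyMeasurable, ?_⟩, hnn, ?_⟩
  · rw [hasFiniteIntegral_iff_ofReal hae]
    exact hfin
  · rw [key, integral_eq_lintegral_of_nonneg_ae hae hmeas.aestronglyMeasurable]

end LPPEnd
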