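import Pool.Agent.Lib.MP_267da7_pr.H1

/-!
# H2: the determinants satisfy the evolution equation of the last passage probabilities

`N >= 1`, `lam : N -> N` antitone with `lam N = 0`.  `Dm N lam t` has the entry `(i,j)`: `D^(N-1-j+i) H_(lam i)`.
Row `i` of `Dm N lam` as a vector: `r_i(a) = (D^(N-1-j+i) H_a)_j`; its derivative is `r_i(a)' = (D^(N-j+i) H_a)_j`.
(1) `r_i(a)' = r_(i+1)(a)` for `i + 1 < N`  (as vectors: `N-1-j+(i+1) = N-j+i`, since `j <= N-1`).
(2) `r_i(a+1)' = r_i(a) - r_i(a+1)`  (`H_rec`).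
(3) `r_(N-1)(0)' = 0`: the orders are `N - j + N - 1 >= N`  (`H_zero_deriv`).
`det_deriv`: the derivative of the determinant is `sum_(i<N) det(row i replaced by its derivative)` (multilinearity; e.g. via `Matrix.det_apply` and the
derivative of a product, or `AlternatingMap`/`MultilinearMap` derivative).  Let `i < N`:
* `i` a corner (`lam (i+1) < lam i`, so `lam i >= 1`): by (2), `r_i(lam i)' = r_i(lam i - 1) - r_i(lam i)`, so the term is
  `det Dm (rem lam i) - det Dm lam`.
* `i` not a corner and `i + 1 < N`: `lam i = lam (i+1)`, the new row `i` equals row `i+1` by (1): the term is `0`.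
* `i = N-1` not a corner: `lam (N-1) = lam N = 0`: the term is `0` by (3).
`det_init`: if some corner exists then `lam 0 >= 1` and row `0` at `t = 0` is `(D^(N-1-j) H_(lam 0)(0))_j = 0` by `H_init`.
`det_empty`: `lam = 0` on `{0,..,N-1}`: the entry is `t^(j-i)/(j-i)!` for `j >= i` and `0` for `j < i` (`H_zero_deriv`): upper triangular with ones on the
diagonal.
-/

open Real MeasureTheory Set Filter
open scoped Topology

namespace LPPEnd

private lemma h2_prod_update {n : ℕ} (A : Matrix (Fin n) (Fin n) ℝ) (i : Fin n) (v : Fin n → ℝ)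
    (σ : Fin n → Fin n) : ∏ l, (A.updateRow i v) l (σ l) =
      (∏ l ∈ Finset.univ.erase i, A l (σ l)) * v (σ i) := by
  rw [← Finset.mul_prod_erase _ (fun l => (A.updateRow i v) l (σ l)) (Finset.mem_univ i),
    Matrix.updateRow_self, mul_comm]
  congr 1
  refine Finset.prod_congr rfl fun l hl => ?_
  rw [Matrix.updateRow_ne (Finset.ne_of_mem_erase hl)]

private lemma h2_det_rows {n : ℕ} (A : Matrix (Fin n) (Fin n) ℝ) :
    A.det = ∑ σ : Equiv.Perm (Fin n), ((Equiv.Perm.sign σ : ℤ) : ℝ) * ∏ l, A l (σ l) := by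
  rw [← Matrix.det_transpose, Matrix.det_apply']
  rfl

private lemma h2_det_deriv {n : ℕ} (A : ℝ → Matrix (Fin n) (Fin n) ℝ)
    (A' : Matrix (Fin n) (Fin n) ℝ) (t : ℝ)
    (h : ∀ i j, HasDerivAt (fun t => A t i j) (A' i j) t) :
    HasDerivAt (fun t => (A t).det) (∑ i, ((A t).updateRow i (A' i)).det) t := by
  have h1 : ∀ σ : Equiv.Perm (Fin n), HasDerivAt (fun t => ∏ l, A t l (σ l))
      (∑ i, (∏ l ∈ Finset.univ.erase i, A t l (σ l)) • A' i (σ i)) t := fun σ =>
    HasDerivAt.fun_finsetProd (u := Finset.univ) (f := fun l t => A t l (σ l))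
      (f' := fun i => A' i (σ i)) fun i _ => h i (σ i)
  have h2 : HasDerivAt (fun t => ∑ σ : Equiv.Perm (Fin n),
      ((Equiv.Perm.sign σ : ℤ) : ℝ) * ∏ l, A t l (σ l))
      (∑ σ : Equiv.Perm (Fin n), ((Equiv.Perm.sign σ : ℤ) : ℝ) *
        ∑ i, (∏ l ∈ Finset.univ.erase i, A t l (σ l)) • A' i (σ i)) t :=
    HasDerivAt.fun_sum fun σ _ => (h1 σ).const_mul _
  have h3 : (fun t => (A t).det) = fun t => ∑ σ : Equiv.Perm (Fin n),
      ((Equiv.Perm.sign σ : ℤ) : ℝ) * ∏ l, A t l (σ l) := by
    funext t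
    exact h2_det_rows (A t)
  have h4 : (∑ i, ((A t).updateRow i (A' i)).det) = ∑ σ : Equiv.Perm (Fin n),
      ((Equiv.Perm.sign σ : ℤ) : ℝ) *
        ∑ i, (∏ l ∈ Finset.univ.erase i, A t l (σ l)) • A' i (σ i) := by
    rw [Finset.sum_congr rfl fun i _ => h2_det_rows ((A t).updateRow i (A' i)), Finset.sum_comm]
    refine Finset.sum_congr rfl fun σ _ => ?_
    rw [Finset.mul_sum]
    refine Finset.sum_congr rfl fun i _ => ?_
    rw [h2_prod_update, smul_eq_mul]
  rw [h3, h4]
  exact h2

private lemma h2_entry (N a m : ℕ) (t : ℝ) :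
    HasDerivAt (fun t => iteratedDeriv m (H N a) t) (iteratedDeriv (m + 1) (H N a) t) t := by
  have h1 : Differentiable ℝ (iteratedDeriv m (H N a)) :=
    (H_smooth N a).differentiable_iteratedDeriv m (by exact_mod_cast WithTop.coe_lt_top m)
  rw [iteratedDeriv_succ]
  exact (h1 t).hasDerivAt

/-- the term of row `i`: difference of determinants as a determinant with a differentiated row -/
private lemma h2_row (N : ℕ) (lam : ℕ → ℕ) (i : Fin N) (hi : 1 ≤ lam i) (t : ℝ) :
    (Dm N (rem lam i) t).det - (Dm N lam t).det =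
      ((Dm N lam t).updateRow i
        (fun j => iteratedDeriv (N - 1 - (j : ℕ) + (i : ℕ) + 1) (H N (lam i)) t)).det := by
  obtain ⟨a, ha⟩ : ∃ a, lam i = a + 1 := ⟨lam i - 1, by omega⟩
  have h1 : Dm N (rem lam i) t = (Dm N lam t).updateRow i
      (fun j => iteratedDeriv (N - 1 - (j : ℕ) + (i : ℕ)) (H N a) t) := by
    ext l j
    by_cases hl : l = i
    · subst hl
      rw [Matrix.updateRow_self]
      simp only [Dm, rem, Matrix.of_apply, Function.update_self, ha, Nat.add_sub_cancel]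
    · have hl' : (l : ℕ) ≠ (i : ℕ) := fun h => hl (Fin.ext h)
      rw [Matrix.updateRow_ne hl]
      simp only [Dm, rem, Matrix.of_apply, Function.update_of_ne hl']
  have h2 : (fun j : Fin N => iteratedDeriv (N - 1 - (j : ℕ) + (i : ℕ)) (H N a) t) =
      (fun j : Fin N => iteratedDeriv (N - 1 - (j : ℕ) + (i : ℕ) + 1) (H N (lam i)) t) +
        (Dm N lam t) i := by
    funext j
    rw [Pi.add_apply, ha, H_rec]
    simp only [Dm, Matrix.of_apply, ha]
    ring
  rw [h1, h2, Matrix.det_updateRow_add, Matrix.updateRow_eq_self, add_sub_cancel_right]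

theorem det_deriv (N : ℕ) (hN : 1 ≤ N) (lam : ℕ → ℕ) (hl : Antitone lam) (h0 : lam N = 0) (t : ℝ) :
    HasDerivAt (fun t => (Dm N lam t).det)
      (∑ i ∈ corners N lam, ((Dm N (rem lam i) t).det - (Dm N lam t).det)) t := by
  have h1 := h2_det_deriv (fun t => Dm N lam t) (Matrix.of fun i j : Fin N =>
    iteratedDeriv (N - 1 - (j : ℕ) + (i : ℕ) + 1) (H N (lam i)) t) t (fun i j => by
      simp only [Dm, Matrix.of_apply]
      exact h2_entry N (lam i) _ t)
  have h2 : (∑ i : Fin N, ((Dm N lam t).updateRow i ((Matrix.of fun i j : Fin N =>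
      iteratedDeriv (N - 1 - (j : ℕ) + (i : ℕ) + 1) (H N (lam i)) t) i)).det) =
      ∑ i ∈ corners N lam, ((Dm N (rem lam i) t).det - (Dm N lam t).det) := by
    rw [corners, Finset.sum_filter, Finset.sum_range]
    refine Finset.sum_congr rfl fun i _ => ?_
    by_cases hc : lam ((i : ℕ) + 1) < lam i
    · rw [if_pos hc, h2_row N lam i (by omega) t]
      rfl
    · rw [if_neg hc]
      have hle : lam ((i : ℕ) + 1) ≤ lam i := hl (Nat.le_succ _)
      have heq : lam ((i : ℕ) + 1) = lam i := le_antisymm hle (not_lt.1 hc)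
      by_cases hi : (i : ℕ) + 1 < N
      · have hne : i ≠ (⟨(i : ℕ) + 1, hi⟩ : Fin N) := fun h => by
          have h3 := congrArg Fin.val h
          simp at h3
        refine Matrix.det_zero_of_row_eq hne ?_
        rw [Matrix.updateRow_self, Matrix.updateRow_ne hne.symm]
        funext j
        simp only [Dm, Matrix.of_apply, heq]
        rfl
      · have hiN : (i : ℕ) + 1 = N := by have := i.2; omega
        have hz : lam i = 0 := by rw [← heq, hiN, h0]
        refine Matrix.det_eq_zero_of_row_eq_zero i fun j => ?_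
        rw [Matrix.updateRow_self, Matrix.of_apply, hz, H_zero_deriv N _ hN, if_neg]
        have := j.2
        omega
  rw [h2] at h1
  exact h1

/-- the term of row `i`: difference of determinants as a determinant with a differentiated row -/
theorem det_row (N : ℕ) (hN : 1 ≤ N) (lam : ℕ → ℕ) (i : Fin N) (hi : 1 ≤ lam i) (t : ℝ) :
    (Dm N (rem lam i) t).det - (Dm N lam t).det =
      ((Dm N lam t).updateRow i
        (fun j => iteratedDeriv (N - 1 - (j : ℕ) + (i : ℕ) + 1) (H N (lam i)) t)).det := by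
  exact h2_row N lam i hi t

theorem det_init (N : ℕ) (hN : 1 ≤ N) (lam : ℕ → ℕ) (hl : Antitone lam) (h0 : lam N = 0)
    (hne : (corners N lam).Nonempty) : (Dm N lam 0).det = 0 := by
  obtain ⟨i, hi⟩ := hne
  rw [corners, Finset.mem_filter, Finset.mem_range] at hi
  have h1 : lam i ≤ lam 0 := hl (Nat.zero_le i)
  obtain ⟨a, ha⟩ : ∃ a, lam 0 = a + 1 := ⟨lam 0 - 1, by omega⟩
  refine Matrix.det_eq_zero_of_row_eq_zero (⟨0, hN⟩ : Fin N) fun j => ?_
  simp only [Dm, Matrix.of_apply, ha]
  exact H_init N a _ (by omega)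

theorem det_empty (N : ℕ) (hN : 1 ≤ N) (lam : ℕ → ℕ) (hz : ∀ i, i < N → lam i = 0) (t : ℝ) :
    (Dm N lam t).det = 1 := by
  have h1 : ∀ i j : Fin N, Dm N lam t i j = if (i : ℕ) ≤ j then
      t ^ ((j : ℕ) - i) / (((j : ℕ) - i).factorial : ℝ) else 0 := by
    intro i j
    simp only [Dm, Matrix.of_apply]
    have hi := i.2
    have hj := j.2
    rw [hz i hi, H_zero_deriv N _ hN]
    by_cases h : (i : ℕ) ≤ j
    · rw [if_pos h, if_pos (by omega)]
      have h2 : N - 1 - (N - 1 - (j : ℕ) + (i : ℕ)) = (j : ℕ) - i := by omega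
      rw [h2]
    · rw [if_neg h, if_neg (by omega)]
  rw [Matrix.det_of_isUpperTriangular]
  · refine Finset.prod_eq_one fun i _ => ?_
    rw [h1, if_pos le_rfl, Nat.sub_self, pow_zero, Nat.factorial_zero, Nat.cast_one, div_one]
  · intro i j hij
    rw [h1, if_neg]
    exact not_le.2 hij

end LPPEnd
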