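import Pool.Agent.Lib.MP_267da7_pr.G4
import Pool.Agent.Lib.MP_267da7_pr.H2

/-!
# G5: `Pl lam = det Dm lam`, limits

`Pl_det`: for `lam` antitone with `lam N = 0` and `M >= 0`: `Pl lam M = det (Dm N lam M)`.  Strong induction on `sum_(i<N) lam i`.
If there is no corner then `lam = 0` on `{0..N-1}` (the last row with `lam i > 0` is a corner) and on all of `N`, `Aset lam M = univ`, `Pl = 1 = det` (`det_empty`).
Otherwise let `r` be the number of corners; by induction (`rem_anti`) and `Pl_eq`: `Pl lam M = int_0^M (S t - r Pl lam t) dt` with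
`S t = sum_i det Dm (rem lam i) t` continuous, and `D M := det Dm lam M` satisfies the same integral equation (`det_deriv`, `det_init`, fundamental theorem).
The difference `u` is measurable and bounded on bounded intervals and satisfies `u M = -r int_0^M u`; so `u` is continuous on `[0,oo)`, then differentiable
with `u' = -r u` on `(0,oo)`, `u 0 = 0`, hence `(e^(r t) u)' = 0` and `u = 0`.

`Pl_le`: `Pl lam t <= 1 - e^(-t) <= t` if `lam 0 >= 1`, `t >= 0`: the event is contained in `{W (0,0) <= t}`.
`Pl_lim`: `Pl lam t -> 1` as `t -> oo`: the events increase to the full space (finitely many cells), `tendsto_measure_iUnion_atTop`.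
-/

open Real MeasureTheory Set Filter
open scoped Topology

namespace LPPEnd

variable {Om' : Type*} [MeasurableSpace Om'] (P : Measure Om') [IsProbabilityMeasure P]
  (W : ℕ × ℕ → Om' → ℝ)

/-- the integral inequality -/
private theorem g5_zero (u : ℝ → ℝ) (r K M0 : ℝ) (hr : 0 ≤ r) (hK : 0 ≤ K)
    (hu : ∀ t, 0 ≤ t → t ≤ M0 → |u t| ≤ K)
    (hi : ∀ M, 0 ≤ M → M ≤ M0 → IntervalIntegrable u volume 0 M)
    (he : ∀ M, 0 ≤ M → M ≤ M0 → u M = -(r * ∫ t in (0:ℝ)..M, u t)) :
    ∀ M, 0 ≤ M → M ≤ M0 → u M = 0 := by
  have key : ∀ n : ℕ, ∀ M, 0 ≤ M → M ≤ M0 → |u M| ≤ K * (r ^ n * M ^ n / (n.factorial : ℝ)) := by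
    intro n
    induction n with
    | zero =>
      intro M h0 h1
      simpa using hu M h0 h1
    | succ n ih =>
      intro M h0 h1
      rw [he M h0 h1, abs_neg, abs_mul, abs_of_nonneg hr]
      have h2 : |∫ t in (0:ℝ)..M, u t| ≤
          ∫ t in (0:ℝ)..M, K * (r ^ n * t ^ n / (n.factorial : ℝ)) := by
        refine (intervalIntegral.abs_integral_le_integral_abs h0).trans ?_
        apply intervalIntegral.integral_mono_on h0 (hi M h0 h1).abs
        · apply Continuous.intervalIntegrable
          fun_prop
        · intro t ht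
          exact ih t ht.1 (ht.2.trans h1)
      have h3 : ∫ t in (0:ℝ)..M, K * (r ^ n * t ^ n / (n.factorial : ℝ)) =
          K * (r ^ n * M ^ (n + 1) / ((n + 1).factorial : ℝ)) := by
        have e1 : (fun t : ℝ => K * (r ^ n * t ^ n / (n.factorial : ℝ))) =
            fun t => (K * r ^ n / (n.factorial : ℝ)) * t ^ n := by
          funext t
          ring
        rw [e1, intervalIntegral.integral_const_mul, integral_pow]
        rw [Nat.factorial_succ]
        push_cast
        have : (n.factorial : ℝ) ≠ 0 := by positivity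
        have : (n : ℝ) + 1 ≠ 0 := by positivity
        field_simp
        simp
      rw [h3] at h2
      calc r * |∫ t in (0:ℝ)..M, u t| ≤ r * (K * (r ^ n * M ^ (n + 1) / ((n + 1).factorial : ℝ))) :=
            mul_le_mul_of_nonneg_left h2 hr
        _ = K * (r ^ (n + 1) * M ^ (n + 1) / ((n + 1).factorial : ℝ)) := by ring
  intro M h0 h1
  have ht := (FloorSemiring.tendsto_pow_div_factorial_atTop (r * M)).const_mul K
  rw [mul_zero] at ht
  have h2 : |u M| ≤ 0 := by
    refine ge_of_tendsto' ht fun n => ?_
    have := key n M h0 h1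
    rwa [mul_pow]
  exact abs_eq_zero.1 (le_antisymm h2 (abs_nonneg _))

/-- no corners: the diagram is empty -/
private theorem g5_empty (N : ℕ) (lam : ℕ → ℕ) (hl : Antitone lam) (h0 : lam N = 0)
    (hne : ¬ (corners N lam).Nonempty) : ∀ i, lam i = 0 := by
  have h1 : ∀ i, i < N → lam i ≤ lam (i + 1) := by
    intro i hi
    by_contra h
    push Not at h
    exact hne ⟨i, Finset.mem_filter.2 ⟨Finset.mem_range.2 hi, h⟩⟩
  have h2 : ∀ k, k ≤ N → lam (N - k) = 0 := by
    intro k
    induction k with
    | zero =>
      intro _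
      rw [Nat.sub_zero]
      exact h0
    | succ k ih =>
      intro hk
      have h3 := ih (by omega)
      have h4 := h1 (N - (k + 1)) (by omega)
      rw [show N - (k + 1) + 1 = N - k by omega, h3] at h4
      omega
  intro i
  rcases le_or_gt i N with hi | hi
  · have := h2 (N - i) (by omega)
    rwa [show N - (N - i) = i by omega] at this
  · have := hl hi.le
    omega

theorem Pl_det (hm : ∀ z, Measurable (W z)) (hind : ProbabilityTheory.iIndepFun W P)
    (hlaw : ∀ z, P.map (W z) = ProbabilityTheory.expMeasure 1) (N : ℕ) (hN : 1 ≤ N)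
    (lam : ℕ → ℕ) (hl : Antitone lam) (h0 : lam N = 0) (M : ℝ) (hM : 0 ≤ M) :
    Pl P W lam M = (Dm N lam M).det := by
  have key : ∀ (n : ℕ) (lam : ℕ → ℕ), Antitone lam → lam N = 0 →
      ∑ i ∈ Finset.range N, lam i = n → ∀ M, 0 ≤ M → Pl P W lam M = (Dm N lam M).det := by
    intro n
    induction n with
    | zero =>
      intro lam hl h0 hs M _
      have hz : ∀ i, i < N → lam i = 0 := by
        intro i hi
        exact (Finset.sum_eq_zero_iff.1 hs) i (Finset.mem_range.2 hi)
      have hall : ∀ i, lam i = 0 := by
        intro i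
        rcases lt_or_ge i N with hi | hi
        · exact hz i hi
        · have := hl hi
          omega
      rw [det_empty N hN lam hz]
      unfold Pl
      have huniv : {ω | xW W ω ∈ Aset lam M} = univ := by
        ext ω
        simp only [mem_ofPred_eq, mem_univ, iff_true]
        intro i j hj
        rw [hall i] at hj
        omega
      rw [huniv, measure_univ]
      simp
    | succ n ih =>
      intro lam hl h0 hs M hM
      have hne : (corners N lam).Nonempty := by
        by_contra hne
        have hall := g5_empty N lam hl h0 hne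
        have : ∑ i ∈ Finset.range N, lam i = 0 := Finset.sum_eq_zero fun i _ => hall i
        omega
      set C := corners N lam with hC
      have hrem : ∀ i ∈ C, ∀ t, 0 ≤ t → Pl P W (rem lam i) t = (Dm N (rem lam i) t).det := by
        intro i hi t ht
        obtain ⟨h1, h2, h3⟩ := rem_anti N lam hl h0 i hi
        exact ih (rem lam i) h1 h2 (by omega) t ht
      have hDc : Continuous (fun t => (Dm N lam t).det) := by
        rw [continuous_iff_continuousAt]
        intro t
        exact (det_deriv N hN lam hl h0 t).continuousAt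
      have hRc : ∀ i ∈ C, Continuous (fun t => (Dm N (rem lam i) t).det) := by
        intro i hi
        obtain ⟨h1, h2, -⟩ := rem_anti N lam hl h0 i hi
        rw [continuous_iff_continuousAt]
        intro t
        exact (det_deriv N hN (rem lam i) h1 h2 t).continuousAt
      obtain ⟨hfm, hfb⟩ := Pl_meas P W hm lam
      have hfi : ∀ M, IntervalIntegrable (Pl P W lam) volume 0 M := by
        intro M
        apply IntervalIntegrable.mono_fun (g := Pl P W lam)
          (intervalIntegrable_const (c := (1:ℝ))) hfm.aestronglyMeasurable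
        refine Eventually.of_forall fun t => ?_
        change ‖Pl P W lam t‖ ≤ ‖(1:ℝ)‖
        rw [Real.norm_of_nonneg (hfb t).1, norm_one]
        exact (hfb t).2
      set S : ℝ → ℝ := fun t => ∑ i ∈ C, (Dm N (rem lam i) t).det with hS
      have hSc : Continuous S := continuous_finsetSum C hRc
      have hf : ∀ M, 0 ≤ M → Pl P W lam M = (∫ t in (0:ℝ)..M, S t) -
          C.card * ∫ t in (0:ℝ)..M, Pl P W lam t := by
        intro M hM
        have h1 := Pl_eq P W hm hind hlaw N lam hl h0 hne M hM
        rw [h1]
        have h2 : ∫ t in (0:ℝ)..M, ∑ i ∈ corners N lam, (Pl P W (rem lam i) t - Pl P W lam t) =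
            ∫ t in (0:ℝ)..M, (S t - C.card * Pl P W lam t) := by
          apply intervalIntegral.integral_congr
          intro t ht
          rw [uIcc_of_le hM] at ht
          simp only
          rw [Finset.sum_sub_distrib, Finset.sum_const, nsmul_eq_mul]
          congr 1
          exact Finset.sum_congr rfl fun i hi => hrem i hi t ht.1
        rw [h2, intervalIntegral.integral_sub (hSc.intervalIntegrable 0 M)
          ((hfi M).const_mul _), intervalIntegral.integral_const_mul]
      have hD : ∀ M, (Dm N lam M).det = (∫ t in (0:ℝ)..M, S t) -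
          C.card * ∫ t in (0:ℝ)..M, (Dm N lam t).det := by
        intro M
        have h1 : ∀ t ∈ uIcc (0:ℝ) M, HasDerivAt (fun t => (Dm N lam t).det)
            (S t - C.card * (Dm N lam t).det) t := by
          intro t _
          have h2 := det_deriv N hN lam hl h0 t
          rw [Finset.sum_sub_distrib, Finset.sum_const, nsmul_eq_mul] at h2
          exact h2
        have h3 := intervalIntegral.integral_eq_sub_of_hasDerivAt h1
          ((hSc.sub (continuous_const.mul hDc)).intervalIntegrable 0 M)
        rw [det_init N hN lam hl h0 hne, sub_zero] at h3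
        rw [← h3, intervalIntegral.integral_sub (hSc.intervalIntegrable 0 M)
          ((hDc.intervalIntegrable 0 M).const_mul _), intervalIntegral.integral_const_mul]
      -- the difference
      obtain ⟨K, hK⟩ := isCompact_Icc.exists_bound_of_continuousOn
        (s := Icc (0:ℝ) M) (f := fun t => (Dm N lam t).det) hDc.continuousOn
      have hK0 : 0 ≤ K := (norm_nonneg _).trans (hK 0 ⟨le_rfl, hM⟩)
      have hzero := g5_zero (fun t => Pl P W lam t - (Dm N lam t).det) C.card (1 + K) M
        (Nat.cast_nonneg _) (by linarith) (by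
          intro t ht0 ht1
          have h1 := hK t ⟨ht0, ht1⟩
          rw [Real.norm_eq_abs] at h1
          have h2 := hfb t
          have h3 := abs_le.1 h1
          rw [abs_le]
          constructor
          · linarith [h3.2]
          · linarith [h3.1])
        (fun M _ _ => (hfi M).sub (hDc.intervalIntegrable 0 M)) (by
          intro M' h1 _
          rw [intervalIntegral.integral_sub (hfi M') (hDc.intervalIntegrable 0 M')]
          have e1 := hf M' h1
          have e2 := hD M'
          rw [e1, e2]
          ring) M hM le_rfl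
      exact sub_eq_zero.1 hzero
  exact key _ lam hl h0 rfl M hM

theorem Pl_le (hm : ∀ z, Measurable (W z))
    (hlaw : ∀ z, P.map (W z) = ProbabilityTheory.expMeasure 1) (lam : ℕ → ℕ) (h1 : 1 ≤ lam 0)
    (t : ℝ) (ht : 0 ≤ t) : Pl P W lam t ≤ t := by
  have hsub : {ω | xW W ω ∈ Aset lam t} ⊆ W (0, 0) ⁻¹' Iic t := by
    intro ω hω
    have h2 := hω 0 0 (by omega)
    rw [L] at h2
    exact h2
  have hpr : IsProbabilityMeasure (ProbabilityTheory.expMeasure 1) :=
    ProbabilityTheory.isProbabilityMeasure_expMeasure one_pos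
  have h3 : P (W (0, 0) ⁻¹' Iic t) = ENNReal.ofReal (1 - Real.exp (-t)) := by
    rw [← Measure.map_apply (hm (0, 0)) measurableSet_Iic, hlaw,
      ← ProbabilityTheory.ofReal_cdf, ProbabilityTheory.cdf_expMeasure_eq one_pos, if_pos ht, one_mul]
  have h4 : 0 ≤ 1 - Real.exp (-t) := by
    have : Real.exp (-t) ≤ 1 := Real.exp_le_one_iff.2 (by linarith)
    linarith
  have h5 : Pl P W lam t ≤ 1 - Real.exp (-t) := by
    unfold Pl
    refine ENNReal.toReal_le_of_le_ofReal h4 ?_
    rw [← h3]
    exact measure_mono hsub
  have h6 := Real.add_one_le_exp (-t)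
  linarith

theorem Pl_lim (hm : ∀ z, Measurable (W z)) (N : ℕ) (lam : ℕ → ℕ) (hl : Antitone lam)
    (h0 : lam N = 0) : Tendsto (Pl P W lam) atTop (𝓝 1) := by
  have hmono : Monotone (fun M : ℝ => {ω | xW W ω ∈ Aset lam M}) := by
    intro M M' hMM ω hω i j hj
    exact (hω i j hj).trans hMM
  have hU : ⋃ M : ℝ, {ω | xW W ω ∈ Aset lam M} = univ := by
    ext ω
    simp only [mem_iUnion, mem_ofPred_eq, mem_univ, iff_true]
    refine ⟨∑ i ∈ Finset.range N, ∑ j ∈ Finset.range (lam 0), |L (xW W ω) i j|, ?_⟩
    intro i j hj
    have hi : i < N := by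
      by_contra hi
      have h1 := hl (not_lt.1 hi)
      omega
    have hj' : j < lam 0 := lt_of_lt_of_le hj (hl (Nat.zero_le i))
    have h1 : |L (xW W ω) i j| ≤ ∑ j ∈ Finset.range (lam 0), |L (xW W ω) i j| :=
      Finset.single_le_sum (f := fun j => |L (xW W ω) i j|) (fun _ _ => abs_nonneg _)
        (Finset.mem_range.2 hj')
    have h2 : ∑ j ∈ Finset.range (lam 0), |L (xW W ω) i j| ≤
        ∑ i ∈ Finset.range N, ∑ j ∈ Finset.range (lam 0), |L (xW W ω) i j| :=
      Finset.single_le_sum (f := fun i => ∑ j ∈ Finset.range (lam 0), |L (xW W ω) i j|)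
        (fun _ _ => Finset.sum_nonneg fun _ _ => abs_nonneg _) (Finset.mem_range.2 hi)
    exact (le_abs_self _).trans (h1.trans h2)
  have ht := tendsto_measure_iUnion_atTop (μ := P) hmono
  rw [hU, measure_univ] at ht
  have h1 := (ENNReal.tendsto_toReal ENNReal.one_ne_top).comp ht
  rw [ENNReal.toReal_one] at h1
  exact h1

end LPPEnd
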