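import Pool.Agent.Lib.MP_267da7_pr.Defs

/-!
# H1: the functions `H N a`
-/

open Real MeasureTheory Set Filter
open scoped Topology

namespace LPPEnd

private theorem h1_hasDerivAt_prim (f : ℝ → ℝ) (hf : Continuous f) (t : ℝ) :
    HasDerivAt (fun t => ∫ s in (0:ℝ)..t, f s) (f t) t :=
  intervalIntegral.integral_hasDerivAt_right (hf.intervalIntegrable _ _)
    (hf.stronglyMeasurableAtFilter _ _) hf.continuousAt

private theorem h1_contDiff_prim (f : ℝ → ℝ) (hf : ContDiff ℝ (⊤ : ℕ∞) f) :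
    ContDiff ℝ (⊤ : ℕ∞) (fun t => ∫ s in (0:ℝ)..t, f s) := by
  rw [contDiff_infty_iff_deriv]
  refine ⟨fun t => (h1_hasDerivAt_prim f hf.continuous t).differentiableAt, ?_⟩
  have h : deriv (fun t => ∫ s in (0:ℝ)..t, f s) = f :=
    funext fun t => (h1_hasDerivAt_prim f hf.continuous t).deriv
  rw [h]
  exact hf

private theorem h1_H_zero (N : ℕ) :
    H N 0 = fun t => t ^ (N - 1) / ((N - 1).factorial : ℝ) := rfl

private theorem h1_H_succ (N a : ℕ) :
    H N (a + 1) = fun t => Real.exp (-t) * ∫ s in (0:ℝ)..t, Real.exp s * H N a s := rfl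

theorem H_smooth (N a : ℕ) : ContDiff ℝ (⊤ : ℕ∞) (H N a) := by
  induction a with
  | zero =>
    rw [h1_H_zero]
    exact (contDiff_id.pow _).div_const _
  | succ a ih =>
    rw [h1_H_succ]
    exact (Real.contDiff_exp.comp contDiff_neg).mul
      (h1_contDiff_prim _ (Real.contDiff_exp.mul ih))

private theorem h1_deriv (N a : ℕ) :
    deriv (H N (a + 1)) = fun t => H N a t - H N (a + 1) t := by
  funext t
  have h1 : HasDerivAt (fun t : ℝ => ∫ s in (0:ℝ)..t, Real.exp s * H N a s)
      (Real.exp t * H N a t) t :=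
    h1_hasDerivAt_prim (fun s => Real.exp s * H N a s)
      (Real.continuous_exp.mul (H_smooth N a).continuous) t
  have h2 : HasDerivAt (fun t : ℝ => Real.exp (-t)) (Real.exp (-t) * (-1)) t :=
    (hasDerivAt_neg t).exp
  have h3 := (h2.mul h1).deriv
  have h4 : deriv (H N (a + 1)) t =
      Real.exp (-t) * (-1) * (∫ s in (0:ℝ)..t, Real.exp s * H N a s) +
        Real.exp (-t) * (Real.exp t * H N a t) := h3
  have h5 : H N (a + 1) t = Real.exp (-t) * ∫ s in (0:ℝ)..t, Real.exp s * H N a s := rfl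
  rw [h4, h5, ← mul_assoc (Real.exp (-t)), ← Real.exp_add, neg_add_cancel, Real.exp_zero]
  ring

theorem H_rec (N a k : ℕ) (t : ℝ) :
    iteratedDeriv (k + 1) (H N (a + 1)) t =
      iteratedDeriv k (H N a) t - iteratedDeriv k (H N (a + 1)) t := by
  rw [iteratedDeriv_succ', h1_deriv]
  have hle : ((k : ℕ∞) : WithTop ℕ∞) ≤ ((⊤ : ℕ∞) : WithTop ℕ∞) := by exact_mod_cast le_top
  exact iteratedDeriv_fun_sub (((H_smooth N a).of_le hle).contDiffAt)
    (((H_smooth N (a + 1)).of_le hle).contDiffAt)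

theorem H_zero_deriv (N k : ℕ) (hN : 1 ≤ N) (t : ℝ) :
    iteratedDeriv k (H N 0) t =
      if k + 1 ≤ N then t ^ (N - 1 - k) / ((N - 1 - k).factorial : ℝ) else 0 := by
  obtain ⟨m, rfl⟩ : ∃ m, N = m + 1 := ⟨N - 1, by omega⟩
  induction k generalizing t with
  | zero =>
    rw [iteratedDeriv_zero, if_pos (by omega)]
    simp [H]
  | succ k ih =>
    rw [iteratedDeriv_succ, funext ih]
    by_cases h : k + 1 + 1 ≤ m + 1
    · have h' : k + 1 ≤ m + 1 := by omega
      simp only [if_pos h, if_pos h', Nat.add_sub_cancel]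
      obtain ⟨j, hj⟩ : ∃ j, m - k = j + 1 := ⟨m - k - 1, by omega⟩
      have hj' : m - (k + 1) = j := by omega
      rw [hj, hj']
      have h1 : HasDerivAt (fun t : ℝ => t ^ (j + 1) / ((j + 1).factorial : ℝ))
          (((j + 1 : ℕ) : ℝ) * t ^ j / ((j + 1).factorial : ℝ)) t := by
        have h2 := (hasDerivAt_pow (j + 1) t).div_const ((j + 1).factorial : ℝ)
        simpa using h2
      rw [h1.deriv, Nat.factorial_succ, Nat.cast_mul]
      have h3 : ((j + 1 : ℕ) : ℝ) ≠ 0 := by positivity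
      have h4 : (j.factorial : ℝ) ≠ 0 := by positivity
      field_simp
    · simp only [if_neg h]
      by_cases h' : k + 1 ≤ m + 1
      · have h5 : m - k = 0 := by omega
        simp [h', h5]
      · simp [h']

theorem H_init (N a k : ℕ) (hk : k + 1 ≤ N) : iteratedDeriv k (H N (a + 1)) 0 = 0 := by
  induction k generalizing a with
  | zero =>
    rw [iteratedDeriv_zero, h1_H_succ]
    simp
  | succ k ih =>
    rw [H_rec, ih a (by omega), sub_zero]
    cases a with
    | zero =>
      rw [H_zero_deriv N k (by omega), if_pos (by omega)]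
      rw [zero_pow (by omega), zero_div]
    | succ a => exact ih a (by omega)

theorem H_init1 (N a : ℕ) (hN : 1 ≤ N) :
    iteratedDeriv N (H N (a + 1)) 0 = if a = 0 then 1 else 0 := by
  obtain ⟨m, rfl⟩ : ∃ m, N = m + 1 := ⟨N - 1, by omega⟩
  rw [H_rec, H_init (m + 1) a m le_rfl, sub_zero]
  cases a with
  | zero =>
    rw [H_zero_deriv (m + 1) m (by omega)]
    simp
  | succ a =>
    rw [H_init (m + 1) a m le_rfl]
    simp

end LPPEnd
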