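import Pool.Agent.Lib.MP_267da7_pr.H2
import Pool.Agent.Lib.MP_267da7_pr.F8

/-!
# H3: the staircase determinant

`stair N i = N - i`.
(1) `stair_fun`: for `i < N`: `iteratedDeriv i (H N (N-i)) t = e^(-t/2) g (N-1-i) t` for all real `t`.  Let `f_i = iteratedDeriv i (H N (N-i))`
 (`i <= N`), `f_N = iteratedDeriv N (H N 0) = 0`.  By `H_rec`: `D^(i+1) H_(N-i) + D^i H_(N-i) = D^i H_(N-i-1)`; differentiate once:
 `f_i'' + f_i' = D^(i+1) H_(N-(i+1)) = f_(i+1)`.  Initial values (`H_init`, `H_init1`): `f_i 0 = 0`, `f_i' 0 = D^(i+1) H_(N-i) 0 = 0` for `i+1 < N` and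
 `= 1` for `i = N-1`.  With `k_i = e^(t/2) f_i`: `k_i'' = k_i/4 + k_(i+1)`, the same initial value problem as `g (N-1-i)` (F3: `g_a'' = g_a/4 + g_(a-1)`,
 `g_a 0 = 0`, `g_a' 0 = delta_(a0)`).  Uniqueness (downward induction on `i`): a `C^2` function with `u'' = u/4`, `u 0 = u' 0 = 0` vanishes
 (`(e^(-t/2) (u' + u/2))' = 0`, so `u' + u/2 = 0`, so `e^(t/2) u` is constant, so `u = 0`).
(2) `exp_iter`: `iteratedDeriv l (fun t => e^(-t/2) g a t) t = e^(-t/2) sum_(k<=l) C(l,k) (-1/2)^(l-k) coeff a (dp Gs Gs' k)` (induction on `l`,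
 `dpG_deriv`, Pascal).
(3) So with `a = N-1-i`, `l = N-1-j` (`D^(N-1-j+i) H_(N-i) = D^(N-1-j) (D^i H_(N-i))`): `Dm N stair = e^(-t/2) (Psi U)` with rows and columns reversed,
 `U_(k,l) = C(l,k)(-1/2)^(l-k)` upper triangular with unit diagonal, a constant matrix.  Reversing rows and columns does not change the
 determinant (`Matrix.det_submatrix_equiv_self` with `Fin.revPerm`).  So `det Dm = e^(-Nt/2) det Psi = PN N t`.
(4) row `i` replaced by its derivative (`det_row`): with `F = e^(-t/2) Psi U`, `F' = -F/2 + e^(-t/2) DPsi U` (U constant), `F' F^(-1) = Y - 1/2`, and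
 `det (F with row a replaced by row a of F') = det F * (F' F^(-1))_(a,a) = PN (Y_(a,a) - 1/2)`, `a = N-1-i` (Cramer: row `a` of `F'` is
 `sum_b (F' F^(-1))_(a,b) (row b of F)`).
-/

open Real MeasureTheory Set Filter
open scoped Topology

namespace LPPEnd

/-- uniqueness for `f'' + f' = 0` -/
theorem H3_unique (f f1 : ℝ → ℝ) (h : ∀ t, HasDerivAt f (f1 t) t) (h1 : ∀ t, HasDerivAt f1 (-f1 t) t)
    (h0 : f 0 = 0) (h10 : f1 0 = 0) : ∀ t, f t = 0 := by
  have hc1 : ∀ t, HasDerivAt (fun t => Real.exp t * f1 t) 0 t := by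
    intro t
    refine ((Real.hasDerivAt_exp t).mul (h1 t)).congr_deriv ?_
    ring
  have h2 : ∀ t, f1 t = 0 := by
    intro t
    have := is_const_of_deriv_eq_zero (fun x => (hc1 x).differentiableAt) (fun x => (hc1 x).deriv) t 0
    simp only [h10, mul_zero] at this
    exact (mul_eq_zero.1 this).resolve_left (Real.exp_pos t).ne'
  intro t
  have hc : ∀ t, HasDerivAt f 0 t := fun t => by simpa [h2 t] using h t
  rw [is_const_of_deriv_eq_zero (fun x => (hc x).differentiableAt) (fun x => (hc x).deriv) t 0, h0]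

theorem H3_Hderiv (N a k : ℕ) (t : ℝ) :
    HasDerivAt (iteratedDeriv k (H N a)) (iteratedDeriv (k + 1) (H N a) t) t := by
  rw [iteratedDeriv_succ]
  have h1 : Differentiable ℝ (iteratedDeriv k (H N a)) :=
    (H_smooth N a).differentiable_iteratedDeriv k (by
      exact_mod_cast ENat.natCast_lt_top k)
  exact (h1 t).hasDerivAt

theorem H3_src (a : ℕ) (t : ℝ) : HasDerivAt (fun t => Real.exp (-t / 2) * g a t)
    (Real.exp (-t / 2) * (gp a t - g a t / 2)) t := by
  have h1 : HasDerivAt (fun t : ℝ => Real.exp (-t / 2)) (Real.exp (-t / 2) * (-1 / 2)) t := by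
    have : HasDerivAt (fun t : ℝ => -t / 2) (-1 / 2) t := by
      simpa using ((hasDerivAt_id t).neg).div_const 2
    exact this.exp
  refine (h1.mul (g_deriv a t)).congr_deriv ?_
  ring

theorem H3_src2 (a : ℕ) (t : ℝ) : HasDerivAt (fun t => Real.exp (-t / 2) * (gp a t - g a t / 2))
    (Real.exp (-t / 2) * (if a = 0 then 0 else g (a - 1) t) - Real.exp (-t / 2) * (gp a t - g a t / 2)) t := by
  have h1 : HasDerivAt (fun t : ℝ => Real.exp (-t / 2)) (Real.exp (-t / 2) * (-1 / 2)) t := by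
    have : HasDerivAt (fun t : ℝ => -t / 2) (-1 / 2) t := by
      simpa using ((hasDerivAt_id t).neg).div_const 2
    exact this.exp
  refine (h1.mul ((gp_deriv a t).fun_sub ((g_deriv a t).div_const 2))).congr_deriv ?_
  ring

theorem H3_fun (N a : ℕ) (ha : a < N) : ∀ t : ℝ,
    iteratedDeriv (N - 1 - a) (H N (a + 1)) t = Real.exp (-t / 2) * g a t := by
  induction a with
  | zero =>
    intro t
    have key := H3_unique
      (fun t => iteratedDeriv (N - 1 - 0) (H N (0 + 1)) t - Real.exp (-t / 2) * g 0 t)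
      (fun t => iteratedDeriv (N - 1 - 0 + 1) (H N (0 + 1)) t - Real.exp (-t / 2) * (gp 0 t - g 0 t / 2))
      (fun t => (H3_Hderiv N (0 + 1) (N - 1 - 0) t).sub (H3_src 0 t))
      (fun t => by
        refine ((H3_Hderiv N (0 + 1) (N - 1 - 0 + 1) t).sub (H3_src2 0 t)).congr_deriv ?_
        rw [H_rec N 0 (N - 1 - 0 + 1) t, show N - 1 - 0 + 1 = N by omega, H_zero_deriv N N (by omega) t,
          if_neg (by omega), if_pos rfl]
        ring)
      (by rw [H_init N 0 (N - 1 - 0) (by omega), g_zero]; simp)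
      (by rw [show N - 1 - 0 + 1 = N by omega, H_init1 N 0 (by omega), g_zero, gp_zero]; simp) t
    linarith
  | succ a ih =>
    intro t
    have ih' := ih (by omega)
    have key := H3_unique
      (fun t => iteratedDeriv (N - 1 - (a + 1)) (H N (a + 1 + 1)) t - Real.exp (-t / 2) * g (a + 1) t)
      (fun t => iteratedDeriv (N - 1 - (a + 1) + 1) (H N (a + 1 + 1)) t -
        Real.exp (-t / 2) * (gp (a + 1) t - g (a + 1) t / 2))
      (fun t => (H3_Hderiv N (a + 1 + 1) (N - 1 - (a + 1)) t).sub (H3_src (a + 1) t))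
      (fun t => by
        refine ((H3_Hderiv N (a + 1 + 1) (N - 1 - (a + 1) + 1) t).sub (H3_src2 (a + 1) t)).congr_deriv ?_
        rw [H_rec N (a + 1) (N - 1 - (a + 1) + 1) t, show N - 1 - (a + 1) + 1 = N - 1 - a by omega, ih' t,
          if_neg (by omega), Nat.add_sub_cancel]
        ring)
      (by rw [H_init N (a + 1) (N - 1 - (a + 1)) (by omega), g_zero]; simp)
      (by rw [H_init N (a + 1) (N - 1 - (a + 1) + 1) (by omega), g_zero, gp_zero]; simp) t
    linarith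

theorem stair_fun (N i : ℕ) (hi : i < N) (t : ℝ) :
    iteratedDeriv i (H N (N - i)) t = Real.exp (-t / 2) * g (N - 1 - i) t := by
  have := H3_fun N (N - 1 - i) (by omega) t
  rw [show N - 1 - (N - 1 - i) = i by omega, show N - 1 - i + 1 = N - i by omega] at this
  exact this

/-- the binomial sums -/
noncomputable def H3_S (c : ℕ → ℝ) (l : ℕ) : ℝ :=
  ∑ k ∈ Finset.range (l + 1), (l.choose k : ℝ) * (-1 / 2) ^ (l - k) * c k

theorem H3_pascal (c : ℕ → ℝ) (l : ℕ) :
    H3_S c (l + 1) = -1 / 2 * H3_S c l + H3_S (fun k => c (k + 1)) l := by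
  unfold H3_S
  rw [Finset.sum_range_succ' _ (l + 1)]
  have h1 : ∑ k ∈ Finset.range (l + 1), (((l + 1).choose (k + 1) : ℕ) : ℝ) * (-1 / 2) ^ (l + 1 - (k + 1)) * c (k + 1) =
      ∑ k ∈ Finset.range (l + 1), (l.choose k : ℝ) * (-1 / 2) ^ (l - k) * c (k + 1) +
      ∑ k ∈ Finset.range (l + 1), (l.choose (k + 1) : ℝ) * (-1 / 2) ^ (l - k) * c (k + 1) := by
    rw [← Finset.sum_add_distrib]
    refine Finset.sum_congr rfl fun k _ => ?_
    rw [Nat.choose_succ_succ, show l + 1 - (k + 1) = l - k by omega]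
    push_cast
    ring
  have h2 : ∑ k ∈ Finset.range (l + 1), (l.choose (k + 1) : ℝ) * (-1 / 2) ^ (l - k) * c (k + 1) =
      ∑ k ∈ Finset.range l, (l.choose (k + 1) : ℝ) * (-1 / 2) ^ (l - k) * c (k + 1) := by
    rw [Finset.sum_range_succ, Nat.choose_succ_self]
    simp
  have h3 : -1 / 2 * ∑ k ∈ Finset.range (l + 1), (l.choose k : ℝ) * (-1 / 2) ^ (l - k) * c k =
      ∑ k ∈ Finset.range l, (l.choose (k + 1) : ℝ) * (-1 / 2) ^ (l - k) * c (k + 1) + (-1 / 2) ^ (l + 1) * c 0 := by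
    rw [Finset.sum_range_succ', mul_add, Finset.mul_sum]
    congr 1
    · refine Finset.sum_congr rfl fun k hk => ?_
      rw [Finset.mem_range] at hk
      rw [show l - k = (l - (k + 1)) + 1 by omega, pow_succ]
      ring
    · simp only [Nat.choose_zero_right, Nat.cast_one, Nat.sub_zero, one_mul, pow_succ]
      ring
  rw [h1, h2, h3]
  simp only [Nat.choose_zero_right, Nat.cast_one, Nat.sub_zero, one_mul]
  ring

theorem H3_S_deriv (c : ℝ → ℕ → ℝ) (hc : ∀ k t, HasDerivAt (fun t => c t k) (c t (k + 1)) t) (l : ℕ) (t : ℝ) :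
    HasDerivAt (fun t => Real.exp (-t / 2) * H3_S (c t) l) (Real.exp (-t / 2) * H3_S (c t) (l + 1)) t := by
  have h1 : HasDerivAt (fun t : ℝ => Real.exp (-t / 2)) (Real.exp (-t / 2) * (-1 / 2)) t := by
    have : HasDerivAt (fun t : ℝ => -t / 2) (-1 / 2) t := by
      simpa using ((hasDerivAt_id t).neg).div_const 2
    exact this.exp
  have h2 : HasDerivAt (fun t => H3_S (c t) l) (H3_S (fun k => c t (k + 1)) l) t := by
    unfold H3_S
    exact HasDerivAt.fun_sum fun k _ => (hc k t).const_mul _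
  refine (h1.mul h2).congr_deriv ?_
  rw [H3_pascal]
  ring

theorem exp_iter (a l : ℕ) (t : ℝ) :
    iteratedDeriv l (fun t => Real.exp (-t / 2) * g a t) t =
      Real.exp (-t / 2) * ∑ k ∈ Finset.range (l + 1),
        (l.choose k : ℝ) * (-1 / 2) ^ (l - k) * PowerSeries.coeff a (dp (Gs t) (Gs' t) k) := by
  have h : ∀ l, iteratedDeriv l (fun t => Real.exp (-t / 2) * g a t) =
      fun t => Real.exp (-t / 2) * H3_S (fun k => PowerSeries.coeff a (dp (Gs t) (Gs' t) k)) l := by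
    intro l
    induction l with
    | zero =>
      funext t
      simp [H3_S, dp, Gs]
    | succ l ih =>
      rw [iteratedDeriv_succ, ih]
      funext t
      exact (H3_S_deriv (fun t k => PowerSeries.coeff a (dp (Gs t) (Gs' t) k))
        (fun k t => dpG_deriv a k t) l t).deriv
  rw [h l]
  rfl

/-- the constant triangular matrix -/
noncomputable def H3_U (N : ℕ) : Matrix (Fin N) (Fin N) ℝ :=
  Matrix.of fun k l => (((l : ℕ).choose (k : ℕ) : ℕ) : ℝ) * (-1 / 2) ^ ((l : ℕ) - (k : ℕ))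

theorem H3_U_det (N : ℕ) : (H3_U N).det = 1 := by
  have h : (H3_U N).BlockTriangular id := by
    intro i j hij
    have : (j : ℕ) < (i : ℕ) := hij
    simp only [H3_U, Matrix.of_apply, Nat.choose_eq_zero_of_lt this, Nat.cast_zero, zero_mul]
  rw [Matrix.det_of_isUpperTriangular h]
  refine Finset.prod_eq_one fun i _ => ?_
  simp [H3_U]

theorem H3_mulU (N : ℕ) (A : Matrix (Fin N) (Fin N) ℝ) (c : ℕ → ℝ) (a l : Fin N)
    (h : ∀ k : Fin N, A a k = c k) : (A * H3_U N) a l = H3_S c l := by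
  rw [Matrix.mul_apply]
  unfold H3_S
  have h1 : ∑ k ∈ Finset.range ((l : ℕ) + 1), (((l : ℕ).choose k : ℕ) : ℝ) * (-1 / 2) ^ ((l : ℕ) - k) * c k =
      ∑ k ∈ Finset.range N, (((l : ℕ).choose k : ℕ) : ℝ) * (-1 / 2) ^ ((l : ℕ) - k) * c k := by
    apply Finset.sum_subset
    · intro k hk
      rw [Finset.mem_range] at hk ⊢
      have := l.2
      omega
    · intro k _ hk
      rw [Finset.mem_range, not_lt] at hk
      rw [Nat.choose_eq_zero_of_lt (by omega)]
      simp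
  rw [h1, ← Fin.sum_univ_eq_sum_range (fun k => (((l : ℕ).choose k : ℕ) : ℝ) * (-1 / 2) ^ ((l : ℕ) - k) * c k) N]
  refine Finset.sum_congr rfl fun k _ => ?_
  rw [h k]
  simp only [H3_U, Matrix.of_apply]
  ring

/-- the matrix `F` -/
noncomputable def H3_F (N : ℕ) (t : ℝ) : Matrix (Fin N) (Fin N) ℝ :=
  Real.exp (-t / 2) • (Psi N t * H3_U N)

theorem H3_Dm_fun (N : ℕ) (i : ℕ) (hi : i < N) (l : ℕ) (t : ℝ) :
    iteratedDeriv (l + i) (H N (N - i)) t = iteratedDeriv l (fun t => Real.exp (-t / 2) * g (N - 1 - i) t) t := by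
  have h1 : iteratedDeriv i (H N (N - i)) = fun t => Real.exp (-t / 2) * g (N - 1 - i) t :=
    funext fun t => stair_fun N i hi t
  rw [← h1, iteratedDeriv_eq_iterate, iteratedDeriv_eq_iterate, iteratedDeriv_eq_iterate,
    Function.iterate_add_apply]

theorem H3_rev (N : ℕ) (i : Fin N) : ((Fin.rev i : Fin N) : ℕ) = N - 1 - (i : ℕ) := by
  rw [Fin.val_rev]; omega

theorem H3_Dm (N : ℕ) (t : ℝ) (i j : Fin N) :
    Dm N (stair N) t i j = H3_F N t (Fin.rev i) (Fin.rev j) := by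
  have h1 : Dm N (stair N) t i j = iteratedDeriv (N - 1 - (j : ℕ) + (i : ℕ)) (H N (N - (i : ℕ))) t := rfl
  rw [h1, H3_Dm_fun N i i.2 (N - 1 - (j : ℕ)) t, exp_iter]
  have h2 : H3_F N t (Fin.rev i) (Fin.rev j) =
      Real.exp (-t / 2) * (Psi N t * H3_U N) (Fin.rev i) (Fin.rev j) := rfl
  rw [h2, H3_mulU N (Psi N t) (fun k => PowerSeries.coeff (N - 1 - (i : ℕ)) (dp (Gs t) (Gs' t) k))
    (Fin.rev i) (Fin.rev j) (fun k => by simp only [Psi, Matrix.of_apply]; rw [H3_rev]), H3_rev]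
  rfl

theorem H3_F_det (N : ℕ) (t : ℝ) (ht : 0 < t) : (H3_F N t).det = PN N t := by
  unfold H3_F
  rw [Matrix.det_smul, Matrix.det_mul, H3_U_det, mul_one, Fintype.card_fin, PN_det N t ht, ← Real.exp_nat_mul]
  congr 2
  ring

theorem H3_Dm_det (N : ℕ) (t : ℝ) (ht : 0 < t) : (Dm N (stair N) t).det = PN N t := by
  have h1 : Dm N (stair N) t = (H3_F N t).submatrix (Fin.revPerm : Fin N ≃ Fin N) (Fin.revPerm : Fin N ≃ Fin N) := by
    ext i j
    rw [H3_Dm]
    rfl
  rw [h1, Matrix.det_submatrix_equiv_self, H3_F_det N t ht]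

theorem det_stair (N : ℕ) (hN : 1 ≤ N) (t : ℝ) (ht : 0 < t) :
    (Dm N (stair N) t).det = PN N t := by
  have _ := hN
  exact H3_Dm_det N t ht

theorem H3_newrow (N : ℕ) (t : ℝ) (ht : 0 < t) (i j : Fin N) :
    iteratedDeriv (N - 1 - (j : ℕ) + (i : ℕ) + 1) (H N (stair N i)) t =
      ∑ k : Fin N, (Y N t (Fin.rev i) (Fin.rev k) - if i = k then 1 / 2 else 0) * Dm N (stair N) t k j := by
  have h1 : iteratedDeriv (N - 1 - (j : ℕ) + (i : ℕ) + 1) (H N (stair N i)) t =
      iteratedDeriv (N - 1 - (j : ℕ) + 1) (fun t => Real.exp (-t / 2) * g (N - 1 - (i : ℕ)) t) t := by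
    have := H3_Dm_fun N i i.2 (N - 1 - (j : ℕ) + 1) t
    rw [← this]
    rw [show N - 1 - (j : ℕ) + 1 + (i : ℕ) = N - 1 - (j : ℕ) + (i : ℕ) + 1 by omega]
    rfl
  rw [h1, exp_iter]
  have h2 : ∑ k ∈ Finset.range (N - 1 - (j : ℕ) + 1 + 1), (((N - 1 - (j : ℕ) + 1).choose k : ℕ) : ℝ) *
      (-1 / 2) ^ (N - 1 - (j : ℕ) + 1 - k) * PowerSeries.coeff (N - 1 - (i : ℕ)) (dp (Gs t) (Gs' t) k) =
      H3_S (fun k => PowerSeries.coeff (N - 1 - (i : ℕ)) (dp (Gs t) (Gs' t) k)) (N - 1 - (j : ℕ) + 1) := rfl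
  rw [h2, H3_pascal]
  have h3 : H3_S (fun k => PowerSeries.coeff (N - 1 - (i : ℕ)) (dp (Gs t) (Gs' t) k)) (N - 1 - (j : ℕ)) =
      (Psi N t * H3_U N) (Fin.rev i) (Fin.rev j) := by
    rw [H3_mulU N (Psi N t) (fun k => PowerSeries.coeff (N - 1 - (i : ℕ)) (dp (Gs t) (Gs' t) k))
      (Fin.rev i) (Fin.rev j) (fun k => by simp only [Psi, Matrix.of_apply]; rw [H3_rev]), H3_rev]
  have h4 : H3_S (fun k => PowerSeries.coeff (N - 1 - (i : ℕ)) (dp (Gs t) (Gs' t) (k + 1))) (N - 1 - (j : ℕ)) =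
      (DPsi N t * H3_U N) (Fin.rev i) (Fin.rev j) := by
    rw [H3_mulU N (DPsi N t) (fun k => PowerSeries.coeff (N - 1 - (i : ℕ)) (dp (Gs t) (Gs' t) (k + 1)))
      (Fin.rev i) (Fin.rev j) (fun k => by simp only [DPsi, Matrix.of_apply]; rw [H3_rev]), H3_rev]
  rw [h3, h4, ← Y_mul N t ht, Matrix.mul_assoc, Matrix.mul_apply (M := Y N t)]
  have h5 : ∀ k : Fin N, Dm N (stair N) t k j =
      Real.exp (-t / 2) * (Psi N t * H3_U N) (Fin.rev k) (Fin.rev j) := fun k => H3_Dm N t k j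
  have h6 : ∑ k : Fin N, Y N t (Fin.rev i) (Fin.rev k) * (Psi N t * H3_U N) (Fin.rev k) (Fin.rev j) =
      ∑ b : Fin N, Y N t (Fin.rev i) b * (Psi N t * H3_U N) b (Fin.rev j) :=
    Equiv.sum_comp (Fin.revPerm : Fin N ≃ Fin N) (fun b => Y N t (Fin.rev i) b * (Psi N t * H3_U N) b (Fin.rev j))
  have h7 : ∑ k : Fin N, (if i = k then (1 / 2 : ℝ) else 0) * (Psi N t * H3_U N) (Fin.rev k) (Fin.rev j) =
      1 / 2 * (Psi N t * H3_U N) (Fin.rev i) (Fin.rev j) := by
    rw [Finset.sum_eq_single i]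
    · simp
    · intro b _ hb
      rw [if_neg (Ne.symm hb), zero_mul]
    · intro h; exact absurd (Finset.mem_univ i) h
  have h8 : ∑ k : Fin N, (Y N t (Fin.rev i) (Fin.rev k) - if i = k then (1 / 2 : ℝ) else 0) * Dm N (stair N) t k j =
      Real.exp (-t / 2) * (∑ k : Fin N, Y N t (Fin.rev i) (Fin.rev k) * (Psi N t * H3_U N) (Fin.rev k) (Fin.rev j) -
        ∑ k : Fin N, (if i = k then (1 / 2 : ℝ) else 0) * (Psi N t * H3_U N) (Fin.rev k) (Fin.rev j)) := by
    rw [← Finset.sum_sub_distrib, Finset.mul_sum]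
    refine Finset.sum_congr rfl fun k _ => ?_
    rw [h5 k]
    ring
  rw [h8, h6, h7]
  ring

theorem det_stair_rem (N : ℕ) (hN : 1 ≤ N) (i : Fin N) (t : ℝ) (ht : 0 < t) :
    (Dm N (rem (stair N) i) t).det - (Dm N (stair N) t).det =
      PN N t * (Y N t (Fin.rev i) (Fin.rev i) - 1 / 2) := by
  rw [det_row N hN (stair N) i (by have := i.2; unfold stair; omega) t]
  have h1 : (fun j : Fin N => iteratedDeriv (N - 1 - (j : ℕ) + (i : ℕ) + 1) (H N (stair N i)) t) =
      ∑ k : Fin N, (Y N t (Fin.rev i) (Fin.rev k) - if i = k then (1 / 2 : ℝ) else 0) • Dm N (stair N) t k := by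
    funext j
    rw [H3_newrow N t ht i j, Finset.sum_apply]
    rfl
  rw [h1, Matrix.det_updateRow_sum, H3_Dm_det N t ht]
  simp only [if_true, smul_eq_mul]
  ring

end LPPEnd
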