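import Mathlib

set_option autoImplicit false

/-!
# A concavity lemma for a Painlevé V type equation (helper76)

`concave_of_ode`: a positive bounded solution `c` of
`-2 m M c c'' = (1 - z^2 - c^2) M^2 - 4 n c^2 z (1 - n z)`, `z = c'`, `M = m - 2 n c`,
with `0 ≤ z`, `m z ≤ c`, `(2n+1) c ≤ m` is concave.
-/

open Filter Topology Set

namespace LPPChain

/-- A function on `(0,∞)` with nonnegative derivative and limit `L` at `0+` is at least `L`. -/
theorem ge_of_deriv_nonneg {F F' : ℝ → ℝ} {L : ℝ}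
    (hF : ∀ m, 0 < m → HasDerivAt F (F' m) m) (h' : ∀ m, 0 < m → 0 ≤ F' m)
    (hL : Tendsto F (𝓝[>] 0) (𝓝 L)) : ∀ m, 0 < m → L ≤ F m := by
  intro m hm
  have hmono : MonotoneOn F (Ioi 0) := by
    apply monotoneOn_of_deriv_nonneg (convex_Ioi 0)
    · intro x hx
      exact (hF x hx).continuousAt.continuousWithinAt
    · intro x hx
      rw [interior_Ioi] at hx
      exact (hF x hx).differentiableAt.differentiableWithinAt
    · intro x hx
      rw [interior_Ioi] at hx
      rw [(hF x hx).deriv]; exact h' x hx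
  apply le_of_tendsto hL
  have : Ioo (0:ℝ) m ∈ 𝓝[>] (0:ℝ) := Ioo_mem_nhdsGT hm
  filter_upwards [this] with x hx
  exact hmono (mem_Ioi.2 hx.1) (mem_Ioi.2 hm) hx.2.le

/-- monotonicity on `(0,∞)` from the sign of the derivative -/
theorem mono_of_deriv_nonneg {F F' : ℝ → ℝ}
    (hF : ∀ m, 0 < m → HasDerivAt F (F' m) m) (h' : ∀ m, 0 < m → 0 ≤ F' m)
    {x y : ℝ} (hx : 0 < x) (hxy : x ≤ y) : F x ≤ F y := by
  have hmono : MonotoneOn F (Ioi 0) := by
    apply monotoneOn_of_deriv_nonneg (convex_Ioi 0)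
    · intro x hx
      exact (hF x hx).continuousAt.continuousWithinAt
    · intro x hx
      rw [interior_Ioi] at hx
      exact (hF x hx).differentiableAt.differentiableWithinAt
    · intro x hx
      rw [interior_Ioi] at hx
      rw [(hF x hx).deriv]; exact h' x hx
  exact hmono (mem_Ioi.2 hx) (mem_Ioi.2 (lt_of_lt_of_le hx hxy)) hxy

/-- A function on `(0,∞)` with zero derivative and limit `L` at `0+` is constant. -/
theorem eq_of_deriv_zero {F : ℝ → ℝ} {L : ℝ}
    (hF : ∀ m, 0 < m → HasDerivAt F 0 m)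
    (hL : Tendsto F (𝓝[>] 0) (𝓝 L)) : ∀ m, 0 < m → F m = L := by
  intro m hm
  apply le_antisymm
  · have h1 := ge_of_deriv_nonneg (F := fun x => - F x) (F' := fun _ => 0) (L := -L)
      (fun m hm => by
        have h := (hF m hm).neg
        rw [neg_zero] at h
        exact h) (fun _ _ => le_rfl) hL.neg m hm
    linarith
  · exact ge_of_deriv_nonneg (F' := fun _ => 0) hF (fun _ _ => le_rfl) hL m hm

/-- strict monotonicity on an interval -/
theorem strictMono_on_Icc {F F' : ℝ → ℝ} {a b : ℝ}
    (hF : ∀ m, a ≤ m → m ≤ b → HasDerivAt F (F' m) m)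
    (h' : ∀ m, a < m → m < b → 0 < F' m) (hab : a < b) : F a < F b := by
  have hs : StrictMonoOn F (Icc a b) := by
    apply strictMonoOn_of_deriv_pos (convex_Icc a b)
    · intro x hx
      exact (hF x hx.1 hx.2).continuousAt.continuousWithinAt
    · intro x hx
      rw [interior_Icc] at hx
      rw [(hF x hx.1.le hx.2.le).deriv]; exact h' x hx.1 hx.2
  exact hs (left_mem_Icc.2 hab.le) (right_mem_Icc.2 hab.le) hab

/-- derivative at the left end of an interval where `Q < 0`, `Q a = 0` -/
theorem deriv_nonpos_left {Q : ℝ → ℝ} {q a b : ℝ} (hab : a < b)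
    (hQ : HasDerivAt Q q a) (h0 : Q a = 0) (hneg : ∀ x, a < x → x < b → Q x ≤ 0) : q ≤ 0 := by
  have h1 : Tendsto (slope Q a) (𝓝[>] a) (𝓝 q) :=
    (hasDerivAt_iff_tendsto_slope.1 hQ).mono_left
      (nhdsWithin_mono _ (fun x (hx : a < x) => ne_of_gt hx))
  apply le_of_tendsto h1
  have : Ioo a b ∈ 𝓝[>] a := Ioo_mem_nhdsGT hab
  filter_upwards [this] with x hx
  rw [slope_def_field, h0, sub_zero]
  exact div_nonpos_of_nonpos_of_nonneg (hneg x hx.1 hx.2) (by linarith [hx.1])

/-- derivative at the right end of an interval where `Q < 0`, `Q b = 0` -/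
theorem deriv_nonneg_right {Q : ℝ → ℝ} {q a b : ℝ} (hab : a < b)
    (hQ : HasDerivAt Q q b) (h0 : Q b = 0) (hneg : ∀ x, a < x → x < b → Q x ≤ 0) : 0 ≤ q := by
  have h1 : Tendsto (slope Q b) (𝓝[<] b) (𝓝 q) :=
    (hasDerivAt_iff_tendsto_slope.1 hQ).mono_left
      (nhdsWithin_mono _ (fun x (hx : x < b) => ne_of_lt hx))
  apply ge_of_tendsto h1
  have : Ioo a b ∈ 𝓝[<] b := Ioo_mem_nhdsLT hab
  filter_upwards [this] with x hx
  rw [slope_def_field, h0, sub_zero]
  exact div_nonneg_of_nonpos (hneg x hx.1 hx.2) (by linarith [hx.2])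

/-- `Θ(z) = (1-nz)(1-2nz)/(1-z²)` is strictly decreasing on `[0, 1/(2n+1)]`. -/
theorem theta_lt {n x y : ℝ} (hn : 1 ≤ n) (hx : 0 ≤ x) (hxy : x < y)
    (hy : (2 * n + 1) * y ≤ 1) :
    (1 - n * y) * (1 - 2 * n * y) * (1 - x ^ 2) < (1 - n * x) * (1 - 2 * n * x) * (1 - y ^ 2) := by
  have key : (1 - n * x) * (1 - 2 * n * x) * (1 - y ^ 2) -
      (1 - n * y) * (1 - 2 * n * y) * (1 - x ^ 2) =
      (y - x) * (3 * n - (2 * n ^ 2 + 1) * (x + y) + 3 * n * x * y) := by ring
  have hxy2 : (2 * n + 1) * (x + y) ≤ 2 := by nlinarith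
  have h1 : 0 < 3 * n - (2 * n ^ 2 + 1) * (x + y) := by
    by_contra hcon
    push Not at hcon
    have h2 : 3 * n * (2 * n + 1) ≤ (2 * n ^ 2 + 1) * ((2 * n + 1) * (x + y)) := by nlinarith
    have h3 : (2 * n ^ 2 + 1) * ((2 * n + 1) * (x + y)) ≤ (2 * n ^ 2 + 1) * 2 := by
      apply mul_le_mul_of_nonneg_left hxy2; positivity
    nlinarith
  have h4 : 0 ≤ 3 * n * x * y := by
    have : 0 ≤ y := by linarith
    positivity
  have h5 : 0 < (y - x) * (3 * n - (2 * n ^ 2 + 1) * (x + y) + 3 * n * x * y) := by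
    apply mul_pos <;> linarith
  linarith

set_option maxHeartbeats 4000000 in
theorem concave_of_ode {n : ℝ} (hn : 1 ≤ n) {c z z' : ℝ → ℝ}
    (hc : ∀ m, 0 < m → HasDerivAt c (z m) m) (hz : ∀ m, 0 < m → HasDerivAt z (z' m) m)
    (cpos : ∀ m, 0 < m → 0 < c m) (c1 : ∀ m, 0 < m → c m ≤ 1)
    (z0 : ∀ m, 0 < m → 0 ≤ z m) (hmz : ∀ m, 0 < m → m * z m ≤ c m)
    (hcm : ∀ m, 0 < m → (2 * n + 1) * c m ≤ m)
    (hE : ∀ m, 0 < m → -(2 * m * (m - 2 * n * c m) * c m * z' m) =
      (1 - z m ^ 2 - c m ^ 2) * (m - 2 * n * c m) ^ 2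
        - 4 * n * c m ^ 2 * z m * (1 - n * z m)) :
    ∀ m, 0 < m → z' m ≤ 0 := by
  intro m0 hm0
  by_contra hcon
  push Not at hcon
  set Q : ℝ → ℝ := fun m => (1 - z m ^ 2 - c m ^ 2) * (m - 2 * n * c m) ^ 2
        - 4 * n * c m ^ 2 * z m * (1 - n * z m) with hQdef
  have Mpos : ∀ m, 0 < m → 0 < m - 2 * n * c m := by
    intro m hm
    have := hcm m hm
    have := cpos m hm
    nlinarith
  have hQz : ∀ m, 0 < m → (Q m < 0 ↔ 0 < z' m) := by
    intro m hm
    have h1 : Q m = -(2 * m * (m - 2 * n * c m) * c m * z' m) := (hE m hm).symm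
    have h2 : 0 < 2 * m * (m - 2 * n * c m) * c m := by
      have := Mpos m hm; have := cpos m hm; positivity
    rw [h1]
    constructor
    · intro h
      by_contra h3
      push Not at h3
      nlinarith [mul_nonneg h2.le (neg_nonneg.2 h3)]
    · intro h
      have := mul_pos h2 h
      linarith
  have hQz0 : ∀ m, 0 < m → Q m = 0 → z' m = 0 := by
    intro m hm h0
    have h1 : Q m = -(2 * m * (m - 2 * n * c m) * c m * z' m) := (hE m hm).symm
    have h2 : 0 < 2 * m * (m - 2 * n * c m) * c m := by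
      have := Mpos m hm; have := cpos m hm; positivity
    rw [h0] at h1
    have h3 : 2 * m * (m - 2 * n * c m) * c m * z' m = 0 := by linarith
    rcases mul_eq_zero.1 h3 with h | h
    · linarith
    · exact h
  -- derivative of Q
  have hQd : ∀ m, 0 < m → HasDerivAt Q
      ((-(2 * z m * z' m) - 2 * c m * z m) * (m - 2 * n * c m) ^ 2 +
        (1 - z m ^ 2 - c m ^ 2) * (2 * (m - 2 * n * c m) * (1 - 2 * n * z m))
        - (4 * n * (2 * c m * z m) * z m * (1 - n * z m) + 4 * n * c m ^ 2 * z' m * (1 - n * z m)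
          + 4 * n * c m ^ 2 * z m * (-(n * z' m)))) m := by
    intro m hm
    have hcd := hc m hm
    have hzd := hz m hm
    have hM : HasDerivAt (fun m => m - 2 * n * c m) (1 - 2 * n * z m) m :=
      (hasDerivAt_id m).sub (hcd.const_mul (2 * n))
    have he : HasDerivAt (fun m => 1 - z m ^ 2 - c m ^ 2)
        (-(2 * z m * z' m) - 2 * c m * z m) m := by
      have h := ((hzd.pow 2).const_sub 1).sub (hcd.pow 2)
      have e : (-(2 * z m * z' m) - 2 * c m * z m) =
        (-(((2:ℕ):ℝ) * z m ^ (2 - 1) * z' m) - ((2:ℕ):ℝ) * c m ^ (2 - 1) * z m) := by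
        norm_num
      rw [e]; exact h
    have h1 := he.mul (hM.pow 2)
    have h2 := (((hcd.pow 2).const_mul (4 * n)).mul hzd).mul ((hzd.const_mul n).const_sub 1)
    have h3 := h1.sub h2
    refine h3.congr_deriv ?_
    simp only [Pi.pow_apply, Pi.mul_apply, Pi.sub_apply]
    norm_num
    ring
  have hQcont : ∀ m, 0 < m → ContinuousAt Q m := fun m hm => (hQd m hm).continuousAt
  have hQ0 : Q m0 < 0 := (hQz m0 hm0).2 hcon
  -- the right end
  obtain ⟨b, hb0, hbQ, hbneg⟩ : ∃ b, m0 < b ∧ Q b = 0 ∧ ∀ x, m0 ≤ x → x < b → Q x < 0 := by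
    by_cases hS : ∃ m, m0 ≤ m ∧ 0 ≤ Q m
    · obtain ⟨m1, hm1, hm1Q⟩ := hS
      set S : Set ℝ := {x | x ∈ Icc m0 m1 ∧ 0 ≤ Q x} with hSdef
      have hQon : ContinuousOn Q (Icc m0 m1) := fun x hx =>
        (hQcont x (lt_of_lt_of_le hm0 hx.1)).continuousWithinAt
      have hSc : IsCompact S := by
        have : IsClosed (Icc m0 m1 ∩ Q ⁻¹' (Ici 0)) :=
          hQon.preimage_isClosed_of_isClosed isClosed_Icc isClosed_Ici
        have h2 : S = Icc m0 m1 ∩ Q ⁻¹' (Ici 0) := by
          ext x; simp [hSdef]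
        rw [h2]
        exact isCompact_Icc.of_isClosed_subset this inter_subset_left
      have hSn : S.Nonempty := ⟨m1, right_mem_Icc.2 hm1, hm1Q⟩
      have hbS : sInf S ∈ S := hSc.sInf_mem hSn
      set b := sInf S with hb
      have hb1 : m0 ≤ b := hbS.1.1
      have hneg : ∀ x, m0 ≤ x → x < b → Q x < 0 := by
        intro x hx1 hx2
        by_contra hx3
        push Not at hx3
        have : x ∈ S := ⟨⟨hx1, hx2.le.trans hbS.1.2⟩, hx3⟩
        have := csInf_le hSc.bddBelow this
        linarith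
      have hb2 : m0 < b := by
        rcases hb1.lt_or_eq with h | h
        · exact h
        · exfalso
          have := hbS.2
          rw [← h] at this
          linarith
      refine ⟨b, hb2, ?_, hneg⟩
      apply le_antisymm _ hbS.2
      have hbpos : 0 < b := hm0.trans hb2
      have ht : Tendsto Q (𝓝[<] b) (𝓝 (Q b)) :=
        (hQcont b hbpos).tendsto.mono_left nhdsWithin_le_nhds
      apply le_of_tendsto ht
      have : Ioo m0 b ∈ 𝓝[<] b := Ioo_mem_nhdsLT hb2
      filter_upwards [this] with x hx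
      exact (hneg x hx.1.le hx.2).le
    · exfalso
      push Not at hS
      -- c is unbounded
      have hz1 : z m0 < z (m0 + 1) := by
        apply strictMono_on_Icc (F' := z') (fun m h1 _ => hz m (lt_of_lt_of_le hm0 h1)) _
          (by linarith)
        intro m h1 _
        exact (hQz m (hm0.trans h1)).1 (hS m h1.le)
      set δ := z (m0 + 1) with hδ
      have hδpos : 0 < δ := lt_of_le_of_lt (z0 m0 hm0) hz1
      have hzge : ∀ m, m0 + 1 ≤ m → δ ≤ z m := by
        intro m hm
        rcases hm.lt_or_eq with h | h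
        · apply le_of_lt
          apply strictMono_on_Icc (F' := z')
            (fun m h1 _ => hz m (by linarith)) _ h
          intro x h1 _
          exact (hQz x (by linarith)).1 (hS x (by linarith))
        · rw [← h]
      have hbig : c (m0 + 1) + δ * (1 / δ) ≤ c (m0 + 1 + 1 / δ) := by
        have hd : 0 < 1 / δ := by positivity
        have hmono : MonotoneOn (fun m => c m - δ * m) (Icc (m0 + 1) (m0 + 1 + 1 / δ)) := by
          apply monotoneOn_of_deriv_nonneg (convex_Icc _ _)
          · intro x hx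
            have hx0 : 0 < x := by linarith [hx.1]
            exact ((hc x hx0).continuousAt.sub
              (continuousAt_const.mul continuousAt_id)).continuousWithinAt
          · intro x hx
            rw [interior_Icc] at hx
            have hx0 : 0 < x := by linarith [hx.1]
            exact ((hc x hx0).sub ((hasDerivAt_id x).const_mul δ)).differentiableAt.differentiableWithinAt
          · intro x hx
            rw [interior_Icc] at hx
            have hx0 : 0 < x := by linarith [hx.1]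
            have h1 : HasDerivAt (fun m => c m - δ * m) (z x - δ * 1) x :=
              (hc x hx0).sub ((hasDerivAt_id x).const_mul δ)
            rw [h1.deriv]
            have := hzge x hx.1.le
            linarith
        have h2 := hmono (left_mem_Icc.2 (by linarith)) (right_mem_Icc.2 (by linarith))
          (by linarith : m0 + 1 ≤ m0 + 1 + 1 / δ)
        simp only at h2
        nlinarith
      have h3 : δ * (1 / δ) = 1 := by field_simp
      rw [h3] at hbig
      have h4 := c1 (m0 + 1 + 1 / δ) (by positivity)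
      have h5 := cpos (m0 + 1) (by linarith)
      linarith
  -- the left end
  obtain ⟨a, ha, ha0, haQ, haneg⟩ :
      ∃ a, 0 < a ∧ a < m0 ∧ Q a = 0 ∧ ∀ x, a < x → x ≤ m0 → Q x < 0 := by
    by_cases hS : ∃ m, 0 < m ∧ m ≤ m0 ∧ 0 ≤ Q m
    · obtain ⟨m1, hm10, hm1, hm1Q⟩ := hS
      set S : Set ℝ := {x | x ∈ Icc m1 m0 ∧ 0 ≤ Q x} with hSdef
      have hQon : ContinuousOn Q (Icc m1 m0) := fun x hx =>
        (hQcont x (lt_of_lt_of_le hm10 hx.1)).continuousWithinAt
      have hSc : IsCompact S := by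
        have : IsClosed (Icc m1 m0 ∩ Q ⁻¹' (Ici 0)) :=
          hQon.preimage_isClosed_of_isClosed isClosed_Icc isClosed_Ici
        have h2 : S = Icc m1 m0 ∩ Q ⁻¹' (Ici 0) := by
          ext x; simp [hSdef]
        rw [h2]
        exact isCompact_Icc.of_isClosed_subset this inter_subset_left
      have hSn : S.Nonempty := ⟨m1, left_mem_Icc.2 hm1, hm1Q⟩
      have haS : sSup S ∈ S := hSc.sSup_mem hSn
      set a := sSup S with ha
      have ha1 : a ≤ m0 := haS.1.2
      have hapos : 0 < a := lt_of_lt_of_le hm10 haS.1.1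
      have hneg : ∀ x, a < x → x ≤ m0 → Q x < 0 := by
        intro x hx1 hx2
        by_contra hx3
        push Not at hx3
        have : x ∈ S := ⟨⟨haS.1.1.trans hx1.le, hx2⟩, hx3⟩
        have := le_csSup hSc.bddAbove this
        linarith
      have ha2 : a < m0 := by
        rcases ha1.lt_or_eq with h | h
        · exact h
        · exfalso
          have := haS.2
          rw [h] at this
          linarith
      refine ⟨a, hapos, ha2, ?_, hneg⟩
      apply le_antisymm _ haS.2
      have ht : Tendsto Q (𝓝[>] a) (𝓝 (Q a)) :=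
        (hQcont a hapos).tendsto.mono_left nhdsWithin_le_nhds
      apply le_of_tendsto ht
      have : Ioo a m0 ∈ 𝓝[>] a := Ioo_mem_nhdsGT ha2
      filter_upwards [this] with x hx
      exact (hneg x hx.1 hx.2.le).le
    · exfalso
      push Not at hS
      have hF : ∀ m, 0 < m → HasDerivAt (fun m => m * z m - c m) (m * z' m) m := by
        intro m hm
        have h := ((hasDerivAt_id m).mul (hz m hm)).sub (hc m hm)
        refine h.congr_deriv ?_
        simp only [id]
        ring
      have hlim : Tendsto (fun m => m * z m - c m) (𝓝[>] 0) (𝓝 0) := by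
        have h1 : Tendsto (fun m : ℝ => -m) (𝓝[>] 0) (𝓝 0) := by
          have : Tendsto (fun m : ℝ => -m) (𝓝 0) (𝓝 (-0)) := tendsto_id.neg
          rw [neg_zero] at this
          exact this.mono_left nhdsWithin_le_nhds
        apply tendsto_of_tendsto_of_tendsto_of_le_of_le' h1 tendsto_const_nhds
        · filter_upwards [self_mem_nhdsWithin] with m hm
          have hm : 0 < m := hm
          have h2 := hcm m hm
          have h3 := mul_nonneg hm.le (z0 m hm)
          have h4 := cpos m hm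
          nlinarith
        · filter_upwards [self_mem_nhdsWithin] with m hm
          have hm : 0 < m := hm
          have := hmz m hm
          linarith
      have hhalf : 0 ≤ m0 / 2 * z (m0 / 2) - c (m0 / 2) := by
        apply le_of_tendsto hlim
        have : Ioo (0:ℝ) (m0 / 2) ∈ 𝓝[>] (0:ℝ) := Ioo_mem_nhdsGT (by linarith)
        filter_upwards [this] with x hx
        apply le_of_lt
        apply strictMono_on_Icc (F := fun m => m * z m - c m) (F' := fun m => m * z' m)
          (fun m h1 _ => hF m (lt_of_lt_of_le hx.1 h1)) _ hx.2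
        intro m h1 h2
        have hmpos : 0 < m := hx.1.trans h1
        exact mul_pos hmpos ((hQz m hmpos).1 (hS m hmpos (by linarith)))
      have hlt : m0 / 2 * z (m0 / 2) - c (m0 / 2) < m0 * z m0 - c m0 := by
        apply strictMono_on_Icc (F := fun m => m * z m - c m) (F' := fun m => m * z' m)
          (fun m h1 _ => hF m (by linarith)) _ (by linarith)
        intro m h1 h2
        have hmpos : 0 < m := by linarith
        exact mul_pos hmpos ((hQz m hmpos).1 (hS m hmpos (by linarith)))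
      have := hmz m0 hm0
      linarith
  have hbpos : 0 < b := hm0.trans hb0
  have hab : a < b := ha0.trans hb0
  have hneg : ∀ x, a < x → x < b → Q x < 0 := by
    intro x h1 h2
    rcases le_or_gt x m0 with h | h
    · exact haneg x h1 h
    · exact hbneg x h.le h2
  have hza : z' a = 0 := hQz0 a ha haQ
  have hzb : z' b = 0 := hQz0 b hbpos hbQ
  have hqa := deriv_nonpos_left hab (hQd a ha) haQ (fun x h1 h2 => (hneg x h1 h2).le)
  have hqb := deriv_nonneg_right hab (hQd b hbpos) hbQ (fun x h1 h2 => (hneg x h1 h2).le)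
  rw [hza] at hqa
  rw [hzb] at hqb
  have hzlt : z a < z b := by
    apply strictMono_on_Icc (F' := z') (fun m h1 _ => hz m (lt_of_lt_of_le ha h1)) _ hab
    intro m h1 h2
    exact (hQz m (ha.trans h1)).1 (hneg m h1 h2)
  have hza0 := z0 a ha
  have hzb0 : 0 < z b := lt_of_le_of_lt hza0 hzlt
  have hMa := Mpos a ha
  have hMb := Mpos b hbpos
  have hca := cpos a ha
  have hcb := cpos b hbpos
  -- z ≤ c/m ≤ 1/(2n+1)
  have hzle : ∀ m, 0 < m → (2 * n + 1) * z m ≤ 1 := by
    intro m hm
    have h1 := hmz m hm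
    have h2 := hcm m hm
    have h3 : m * ((2 * n + 1) * z m) ≤ m * 1 := by nlinarith
    exact le_of_mul_le_mul_left h3 hm
  have hcmono : c a < c b := by
    apply strictMono_on_Icc (F' := z) (fun m h1 _ => hc m (lt_of_lt_of_le ha h1)) _ hab
    intro m h1 h2
    have : z a < z m := by
      apply strictMono_on_Icc (F' := z') (fun m h1 _ => hz m (lt_of_lt_of_le ha h1)) _ h1
      intro x h3 h4
      exact (hQz x (ha.trans h3)).1 (hneg x h3 (h4.trans h2))
    linarith
  -- at b
  have hQa : (1 - z a ^ 2 - c a ^ 2) * (a - 2 * n * c a) ^ 2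
        = 4 * n * c a ^ 2 * z a * (1 - n * z a) := by
    have : Q a = 0 := haQ
    simp only [hQdef] at this
    linarith
  have hQb : (1 - z b ^ 2 - c b ^ 2) * (b - 2 * n * c b) ^ 2
        = 4 * n * c b ^ 2 * z b * (1 - n * z b) := by
    have : Q b = 0 := hbQ
    simp only [hQdef] at this
    linarith
  have hza1 : 0 < z a := by
    rcases hza0.lt_or_eq with h | h
    · exact h
    · exfalso
      rw [← h] at hQa
      have h1 : (1 - c a ^ 2) * (a - 2 * n * c a) ^ 2 = 0 := by
        have h0 : (1 - (0:ℝ) ^ 2 - c a ^ 2) * (a - 2 * n * c a) ^ 2 =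
          (1 - c a ^ 2) * (a - 2 * n * c a) ^ 2 := by ring
        rw [← h0, hQa]; ring
      rcases mul_eq_zero.1 h1 with h2 | h2
      · have h3 : c a ^ 2 = 1 := by linarith
        have h4 : c a = 1 := by nlinarith [c1 a ha]
        have := c1 b hbpos
        linarith
      · have := pow_pos hMa 2
        linarith
  set A := a - 2 * n * c a with hA
  set B := b - 2 * n * c b with hB
  -- the key inequality at b
  have kb : (1 - z b ^ 2) * B ^ 3 ≤ 4 * n * (1 - n * z b) * (1 - 2 * n * z b) * c b ^ 3 := by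
    have h1 : 0 ≤ (2 * B * z b) * (4 * n * (1 - n * z b) * (1 - 2 * n * z b) * c b ^ 3
        - (1 - z b ^ 2) * B ^ 3) := by
      have h2 : (2 * B * z b) * (4 * n * (1 - n * z b) * (1 - 2 * n * z b) * c b ^ 3
        - (1 - z b ^ 2) * B ^ 3) =
        c b * B ^ 2 * ((-(2 * z b * 0) - 2 * c b * z b) * B ^ 2 +
        (1 - z b ^ 2 - c b ^ 2) * (2 * B * (1 - 2 * n * z b))
        - (4 * n * (2 * c b * z b) * z b * (1 - n * z b) + 4 * n * c b ^ 2 * 0 * (1 - n * z b)
          + 4 * n * c b ^ 2 * z b * (-(n * 0)))) := by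
        linear_combination (-(2 * B * c b * (1 - 2 * n * z b)) - 2 * z b * B ^ 2) * hQb
      rw [h2]
      have : 0 ≤ c b * B ^ 2 := by positivity
      exact mul_nonneg this hqb
    have h3 : 0 < 2 * B * z b := by positivity
    have h4 := nonneg_of_mul_nonneg_right h1 h3
    linarith
  have ka : 4 * n * (1 - n * z a) * (1 - 2 * n * z a) * c a ^ 3 ≤ (1 - z a ^ 2) * A ^ 3 := by
    have h1 : (2 * A * z a) * (4 * n * (1 - n * z a) * (1 - 2 * n * z a) * c a ^ 3
        - (1 - z a ^ 2) * A ^ 3) ≤ 0 := by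
      have h2 : (2 * A * z a) * (4 * n * (1 - n * z a) * (1 - 2 * n * z a) * c a ^ 3
        - (1 - z a ^ 2) * A ^ 3) =
        c a * A ^ 2 * ((-(2 * z a * 0) - 2 * c a * z a) * A ^ 2 +
        (1 - z a ^ 2 - c a ^ 2) * (2 * A * (1 - 2 * n * z a))
        - (4 * n * (2 * c a * z a) * z a * (1 - n * z a) + 4 * n * c a ^ 2 * 0 * (1 - n * z a)
          + 4 * n * c a ^ 2 * z a * (-(n * 0)))) := by
        linear_combination (-(2 * A * c a * (1 - 2 * n * z a)) - 2 * z a * A ^ 2) * hQa
      rw [h2]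
      have : 0 ≤ c a * A ^ 2 := by positivity
      exact mul_nonpos_of_nonneg_of_nonpos this hqa
    have h3 : 0 < 2 * A * z a := by positivity
    by_contra h4
    push Not at h4
    have h5 := mul_pos h3 (sub_pos.2 h4)
    linarith
  -- mu monotone : A / c a ≤ B / c b
  have hmu : A * c b ≤ B * c a := by
    -- c/m nonincreasing
    have h1 : c b / b ≤ c a / a := by
      have hd : ∀ m, 0 < m → HasDerivAt (fun m => - (c m / m)) (-((z m * m - c m * 1) / m ^ 2)) m :=
        fun m hm => ((hc m hm).div (hasDerivAt_id m) hm.ne').neg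
      have := mono_of_deriv_nonneg hd (fun m hm => by
        have := hmz m hm
        rw [neg_nonneg]
        apply div_nonpos_of_nonpos_of_nonneg
        · linarith
        · positivity) ha hab.le
      linarith
    rw [div_le_div_iff₀ hbpos ha] at h1
    rw [hA, hB]
    nlinarith
  have hth := theta_lt hn hza0 hzlt (hzle b hbpos)
  -- combine
  have hzb1 : z b < 1 := by
    have := hzle b hbpos
    nlinarith
  have hza1' : z a < 1 := by linarith
  have e1 : 0 < 1 - z a ^ 2 := by nlinarith
  have e2 : 0 < 1 - z b ^ 2 := by nlinarith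
  have hcube : (A * c b) ^ 3 ≤ (B * c a) ^ 3 := by
    apply pow_le_pow_left₀ _ hmu
    positivity
  -- Θ(zb) ≥ (B/cb)^3 ≥ (A/ca)^3 ≥ Θ(za)
  have f1 : (1 - z b ^ 2) * (1 - z a ^ 2) * (B * c a) ^ 3 ≤
      4 * n * (1 - n * z b) * (1 - 2 * n * z b) * (1 - z a ^ 2) * (c a * c b) ^ 3 := by
    have : 0 ≤ (1 - z a ^ 2) * c a ^ 3 := by positivity
    have h := mul_le_mul_of_nonneg_left kb this
    nlinarith [h]
  have f2 : 4 * n * (1 - n * z a) * (1 - 2 * n * z a) * (1 - z b ^ 2) * (c a * c b) ^ 3 ≤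
      (1 - z b ^ 2) * (1 - z a ^ 2) * (A * c b) ^ 3 := by
    have : 0 ≤ (1 - z b ^ 2) * c b ^ 3 := by positivity
    have h := mul_le_mul_of_nonneg_left ka this
    nlinarith [h]
  have f3 : (1 - z b ^ 2) * (1 - z a ^ 2) * (A * c b) ^ 3 ≤
      (1 - z b ^ 2) * (1 - z a ^ 2) * (B * c a) ^ 3 :=
    mul_le_mul_of_nonneg_left hcube (by positivity)
  have f4 : 4 * n * (c a * c b) ^ 3 * ((1 - n * z a) * (1 - 2 * n * z a) * (1 - z b ^ 2)) ≤
      4 * n * (c a * c b) ^ 3 * ((1 - n * z b) * (1 - 2 * n * z b) * (1 - z a ^ 2)) := by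
    linarith
  have f5 : 0 < 4 * n * (c a * c b) ^ 3 := by positivity
  have f6 := le_of_mul_le_mul_left f4 f5
  linarith

end LPPChain
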