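import Mathlib
import Pool.Agent.Lib.MP_267da7_pr.H76a

set_option autoImplicit false

/-!
# The zero-energy Darboux chain of `V = 1/4` (helper76)

`ψ 0 = e^{m/2}`, `ψ (n+1) ψ n = ∫_0^m ψ n ^ 2`.  (For point-to-line LPP: `ψ (n+1) = e^{m/2} P (n+1) / P n`
up to a constant.)  `c n = ψ (n+1)/ψ n`, `w n = ψ n' / ψ n`, `V n` the potential (`w (n+1)` solves the Riccati
equation `w' + w^2 = V n`).
-/

open Filter Topology Set

namespace LPPChain

structure IsChain (ψ : ℕ → ℝ → ℝ) : Prop where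
  zero : ∀ m, 0 < m → ψ 0 m = Real.exp (m / 2)
  pos : ∀ n m, 0 < m → 0 < ψ n m
  der : ∀ n m, 0 < m → HasDerivAt (fun x => ψ (n + 1) x * ψ n x) (ψ n m ^ 2) m
  lim : ∀ n, Tendsto (fun x => ψ (n + 1) x * ψ n x) (𝓝[>] 0) (𝓝 0)

noncomputable def c (ψ : ℕ → ℝ → ℝ) (n : ℕ) (m : ℝ) : ℝ := ψ (n + 1) m / ψ n m

noncomputable def w (ψ : ℕ → ℝ → ℝ) : ℕ → ℝ → ℝ
  | 0, _ => 1 / 2
  | n + 1, m => 1 / c ψ n m - w ψ n m

noncomputable def V (ψ : ℕ → ℝ → ℝ) : ℕ → ℝ → ℝ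
  | 0, _ => 1 / 4
  | n + 1, m => 2 * w ψ (n + 1) m ^ 2 - V ψ n m

noncomputable def V' (ψ : ℕ → ℝ → ℝ) : ℕ → ℝ → ℝ
  | 0, _ => 0
  | n + 1, m => 4 * w ψ (n + 1) m * (V ψ n m - w ψ (n + 1) m ^ 2) - V' ψ n m

/-- `z n = c n '` -/
noncomputable def z (ψ : ℕ → ℝ → ℝ) (n : ℕ) (m : ℝ) : ℝ := 1 - 2 * w ψ n m * c ψ n m

/-- `z' n = c n ''` -/
noncomputable def z' (ψ : ℕ → ℝ → ℝ) (n : ℕ) (m : ℝ) : ℝ :=
  2 * c ψ n m * (V ψ n m - w ψ n m * w ψ (n + 1) m)

variable {ψ : ℕ → ℝ → ℝ}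

theorem c_pos (h : IsChain ψ) (n : ℕ) {m : ℝ} (hm : 0 < m) : 0 < c ψ n m :=
  div_pos (h.pos _ _ hm) (h.pos _ _ hm)

theorem ψ_succ (h : IsChain ψ) (n : ℕ) {m : ℝ} (hm : 0 < m) : ψ (n + 1) m = c ψ n m * ψ n m := by
  have := (h.pos n m hm).ne'
  unfold c
  field_simp

theorem w_add (n : ℕ) (m : ℝ) : w ψ (n + 1) m + w ψ n m = 1 / c ψ n m := by
  simp [w]

theorem w_add_mul (h : IsChain ψ) (n : ℕ) {m : ℝ} (hm : 0 < m) :
    (w ψ (n + 1) m + w ψ n m) * c ψ n m = 1 := by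
  rw [w_add]
  have := (c_pos h n hm).ne'
  field_simp

theorem w_succ_mul (h : IsChain ψ) (n : ℕ) {m : ℝ} (hm : 0 < m) :
    2 * w ψ (n + 1) m * c ψ n m = 1 + z ψ n m := by
  have := w_add_mul h n hm
  unfold z
  linarith

theorem hasDerivAt_ψ (h : IsChain ψ) (n : ℕ) :
    ∀ m, 0 < m → HasDerivAt (ψ n) (w ψ n m * ψ n m) m := by
  induction n with
  | zero =>
    intro m hm
    have h1 : HasDerivAt (fun x : ℝ => Real.exp (x / 2)) (Real.exp (m / 2) * (1 / 2)) m :=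
      ((hasDerivAt_id m).div_const 2).exp
    have h2 : ψ 0 =ᶠ[𝓝 m] fun x => Real.exp (x / 2) := by
      filter_upwards [lt_mem_nhds hm] with x hx
      exact h.zero x hx
    have h3 := h1.congr_of_eventuallyEq h2
    refine h3.congr_deriv ?_
    rw [h.zero m hm]
    simp [w]; ring
  | succ n ih =>
    intro m hm
    have hd := (h.der n m hm).div (ih m hm) (h.pos n m hm).ne'
    have he : ψ (n + 1) =ᶠ[𝓝 m] (fun x => ψ (n + 1) x * ψ n x) / ψ n := by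
      filter_upwards [lt_mem_nhds hm] with x hx
      have := (h.pos n x hx).ne'
      simp only [Pi.div_apply]
      field_simp
    have h3 := hd.congr_of_eventuallyEq he
    refine h3.congr_deriv ?_
    have p0 := (h.pos n m hm).ne'
    have p1 := (h.pos (n + 1) m hm).ne'
    simp only [w, c]
    field_simp

theorem hasDerivAt_c (h : IsChain ψ) (n : ℕ) (m : ℝ) (hm : 0 < m) :
    HasDerivAt (c ψ n) (z ψ n m) m := by
  have hd := (hasDerivAt_ψ h (n + 1) m hm).div (hasDerivAt_ψ h n m hm) (h.pos n m hm).ne'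
  have : c ψ n = ψ (n + 1) / ψ n := by
    ext x; simp [c]
  rw [this]
  refine hd.congr_deriv ?_
  have p0 := (h.pos n m hm).ne'
  have p1 := (h.pos (n + 1) m hm).ne'
  simp only [w, c, z]
  field_simp
  ring

theorem hasDerivAt_w_aux (h : IsChain ψ) (n : ℕ)
    (ih : ∀ m, 0 < m → HasDerivAt (w ψ n) (w ψ n m ^ 2 - V ψ n m) m) (m : ℝ) (hm : 0 < m) :
    HasDerivAt (w ψ (n + 1)) (V ψ n m - w ψ (n + 1) m ^ 2) m := by
  have hcd := hasDerivAt_c h n m hm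
  have cp := (c_pos h n hm).ne'
  have hd := (hcd.inv cp).sub (ih m hm)
  have : w ψ (n + 1) = (c ψ n)⁻¹ - w ψ n := by
    ext x; simp [w]
  rw [this]
  refine hd.congr_deriv ?_
  simp only [Pi.sub_apply, Pi.inv_apply, z]
  field_simp
  ring

theorem hasDerivAt_w (h : IsChain ψ) (n : ℕ) :
    ∀ m, 0 < m → HasDerivAt (w ψ n) (w ψ n m ^ 2 - V ψ n m) m := by
  induction n with
  | zero =>
    intro m hm
    have h1 : HasDerivAt (fun _ : ℝ => (1 / 2 : ℝ)) 0 m := hasDerivAt_const m _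
    have : w ψ 0 = fun _ => (1 / 2 : ℝ) := by ext x; simp [w]
    rw [this]
    refine h1.congr_deriv ?_
    simp [V]; norm_num
  | succ n ih =>
    intro m hm
    have hd := hasDerivAt_w_aux h n ih m hm
    refine hd.congr_deriv ?_
    simp only [V]; ring

theorem hasDerivAt_w' (h : IsChain ψ) (n : ℕ) (m : ℝ) (hm : 0 < m) :
    HasDerivAt (w ψ (n + 1)) (V ψ n m - w ψ (n + 1) m ^ 2) m :=
  hasDerivAt_w_aux h n (hasDerivAt_w h n) m hm

theorem hasDerivAt_V (h : IsChain ψ) (n : ℕ) :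
    ∀ m, 0 < m → HasDerivAt (V ψ n) (V' ψ n m) m := by
  induction n with
  | zero =>
    intro m hm
    have h1 : HasDerivAt (fun _ : ℝ => (1 / 4 : ℝ)) 0 m := hasDerivAt_const m _
    have : V ψ 0 = fun _ => (1 / 4 : ℝ) := by ext x; simp [V]
    rw [this]
    refine h1.congr_deriv ?_
    simp [V']
  | succ n ih =>
    intro m hm
    have hd := (((hasDerivAt_w' h n m hm).pow 2).const_mul 2).sub (ih m hm)
    have : V ψ (n + 1) = (fun y => 2 * (w ψ (n + 1) ^ 2) y) - V ψ n := by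
      ext x; simp [V]
    rw [this]
    refine hd.congr_deriv ?_
    simp only [V']
    norm_num
    ring

theorem hasDerivAt_z (h : IsChain ψ) (n : ℕ) (m : ℝ) (hm : 0 < m) :
    HasDerivAt (z ψ n) (z' ψ n m) m := by
  have hd := (((hasDerivAt_w h n m hm).const_mul 2).mul (hasDerivAt_c h n m hm)).const_sub 1
  have : z ψ n = fun x => 1 - ((fun y => 2 * w ψ n y) * c ψ n) x := by
    ext x; simp [z]
  rw [this]
  refine hd.congr_deriv ?_
  have cp := (c_pos h n hm).ne'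
  simp only [z, z', w]
  field_simp
  ring

end LPPChain
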