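import Mathlib
import Pool.Agent.Lib.MP_267da7_pr.H76b

set_option autoImplicit false

/-!
# Concavity of `c n = ψ (n+1)/ψ n` and monotonicity of the potentials (helper76)
-/

open Filter Topology Set

namespace LPPChain

variable {ψ : ℕ → ℝ → ℝ}

theorem lim_id : Tendsto (fun m : ℝ => m) (𝓝[>] 0) (𝓝 0) :=
  tendsto_id.mono_left nhdsWithin_le_nhds

theorem lim_exp : Tendsto (fun m : ℝ => Real.exp m) (𝓝[>] 0) (𝓝 1) := by
  have : Tendsto (fun m : ℝ => Real.exp m) (𝓝 0) (𝓝 (Real.exp 0)) := Real.continuous_exp.tendsto 0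
  rw [Real.exp_zero] at this
  exact this.mono_left nhdsWithin_le_nhds

structure Good (ψ : ℕ → ℝ → ℝ) (n : ℕ) : Prop where
  w_half : ∀ m, 0 < m → 1 / 2 ≤ w ψ n m
  w_anti : ∀ m, 0 < m → w ψ n m ^ 2 ≤ V ψ n m
  V_le : ∀ m, 0 < m → V ψ n m ≤ 2 * w ψ n m ^ 2
  W_mono : ∀ m, 0 < m → 0 ≤ w ψ n m + m * (w ψ n m ^ 2 - V ψ n m)
  W_lim : Tendsto (fun m => m * w ψ n m) (𝓝[>] 0) (𝓝 n)
  T1 : ∀ m, 0 < m → n * z ψ n m = 1 / 2 - 2 * V ψ n m - m * V' ψ n m
  ψ_le : ∀ m, 0 < m → ψ n m ≤ Real.exp (m / 2)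
  ψ_small : 1 ≤ n → ∀ m, 0 < m → ψ n m ≤ m * Real.exp (m / 2)

theorem exp_half_sq (m : ℝ) : Real.exp (m / 2) ^ 2 = Real.exp m := by
  rw [sq, ← Real.exp_add]; congr 1; ring

section
variable {n : ℕ}

theorem ψ_sq_le (h : IsChain ψ) (hle : ∀ m, 0 < m → ψ n m ≤ Real.exp (m / 2)) {m : ℝ}
    (hm : 0 < m) : ψ n m ^ 2 ≤ Real.exp m := by
  rw [← exp_half_sq]
  exact pow_le_pow_left₀ (h.pos n m hm).le (hle m hm) 2

theorem lim_mψ (h : IsChain ψ) (hle : ∀ m, 0 < m → ψ n m ≤ Real.exp (m / 2)) :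
    Tendsto (fun m => m * ψ n m ^ 2) (𝓝[>] 0) (𝓝 0) := by
  have h1 : Tendsto (fun m : ℝ => m * Real.exp m) (𝓝[>] 0) (𝓝 0) := by
    have := lim_id.mul lim_exp
    simpa using this
  apply tendsto_of_tendsto_of_tendsto_of_le_of_le' tendsto_const_nhds h1
  · filter_upwards [self_mem_nhdsWithin] with m hm
    have hm : 0 < m := hm
    positivity
  · filter_upwards [self_mem_nhdsWithin] with m hm
    have hm : 0 < m := hm
    exact mul_le_mul_of_nonneg_left (ψ_sq_le h hle hm) hm.le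

theorem c_le (h : IsChain ψ) (hle : ∀ m, 0 < m → ψ n m ≤ Real.exp (m / 2))
    (hw : ∀ m, 0 < m → 0 ≤ w ψ n m) : ∀ m, 0 < m → c ψ n m ≤ m := by
  intro m hm
  have hF : ∀ m, 0 < m → HasDerivAt (fun m => m * ψ n m ^ 2 - ψ (n + 1) m * ψ n m)
      (2 * m * w ψ n m * ψ n m ^ 2) m := by
    intro m hm
    have hd := ((hasDerivAt_id m).mul ((hasDerivAt_ψ h n m hm).pow 2)).sub (h.der n m hm)
    refine hd.congr_deriv ?_
    simp only [id, Pi.pow_apply]
    norm_num
    ring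
  have hL : Tendsto (fun m => m * ψ n m ^ 2 - ψ (n + 1) m * ψ n m) (𝓝[>] 0) (𝓝 0) := by
    have := (lim_mψ h hle).sub (h.lim n)
    simpa using this
  have h1 := ge_of_deriv_nonneg hF (fun m hm => by
    have := hw m hm; positivity) hL m hm
  have p := h.pos n m hm
  rw [ψ_succ h n hm] at h1
  have h2 : 0 ≤ (m - c ψ n m) * ψ n m ^ 2 := by nlinarith
  have h3 := nonneg_of_mul_nonneg_left h2 (by positivity : 0 < ψ n m ^ 2)
  linarith

theorem lim_c (h : IsChain ψ) (hle : ∀ m, 0 < m → ψ n m ≤ Real.exp (m / 2))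
    (hw : ∀ m, 0 < m → 0 ≤ w ψ n m) : Tendsto (c ψ n) (𝓝[>] 0) (𝓝 0) := by
  apply tendsto_of_tendsto_of_tendsto_of_le_of_le' tendsto_const_nhds lim_id
  · filter_upwards [self_mem_nhdsWithin] with m hm
    exact (c_pos h n hm).le
  · filter_upwards [self_mem_nhdsWithin] with m hm
    exact c_le h hle hw m hm

namespace Good

theorem w_nonneg (G : Good ψ n) (m : ℝ) (hm : 0 < m) : 0 ≤ w ψ n m :=
  le_trans (by norm_num) (G.w_half m hm)

theorem c_le_m (h : IsChain ψ) (G : Good ψ n) : ∀ m, 0 < m → c ψ n m ≤ m :=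
  c_le h G.ψ_le G.w_nonneg

/-- `(F ψ²)' ` helper -/
theorem der_mul_ψ (h : IsChain ψ) {F F' : ℝ → ℝ} (n : ℕ)
    (hF : ∀ m, 0 < m → HasDerivAt F (F' m) m) :
    ∀ m, 0 < m → HasDerivAt (fun x => F x * ψ n x ^ 2)
      ((F' m + 2 * w ψ n m * F m) * ψ n m ^ 2) m := by
  intro m hm
  have hd := (hF m hm).mul ((hasDerivAt_ψ h n m hm).pow 2)
  refine hd.congr_deriv ?_
  simp only [Pi.pow_apply]
  norm_num
  ring

theorem nonneg_of_mul_ψ (h : IsChain ψ) {x : ℝ} {m : ℝ} (hm : 0 < m)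
    (hx : 0 ≤ x * ψ n m ^ 2) : 0 ≤ x :=
  nonneg_of_mul_nonneg_left hx (by have := h.pos n m hm; positivity)

theorem z_nonneg (h : IsChain ψ) (G : Good ψ n) : ∀ m, 0 < m → 0 ≤ z ψ n m := by
  intro m hm
  have hd := der_mul_ψ h n (F := z ψ n) (F' := z' ψ n) (hasDerivAt_z h n)
  have hd' : ∀ m, 0 < m → HasDerivAt (fun x => z ψ n x * ψ n x ^ 2)
      (2 * (V ψ n m - w ψ n m ^ 2) * c ψ n m * ψ n m ^ 2) m := by
    intro m hm
    refine (hd m hm).congr_deriv ?_
    have cp := (c_pos h n hm).ne'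
    simp only [z, z', w]
    field_simp
    ring
  have hnn : ∀ m, 0 < m → 0 ≤ 2 * (V ψ n m - w ψ n m ^ 2) * c ψ n m * ψ n m ^ 2 := by
    intro m hm
    have := G.w_anti m hm
    have h2 : 0 ≤ V ψ n m - w ψ n m ^ 2 := by linarith
    have := c_pos h n hm
    positivity
  rcases Nat.eq_zero_or_pos n with hn | hn
  · -- n = 0
    subst hn
    have hL : Tendsto (fun x => z ψ 0 x * ψ 0 x ^ 2) (𝓝[>] 0) (𝓝 1) := by
      have h1 : Tendsto (fun x => (1 - c ψ 0 x) * Real.exp x) (𝓝[>] 0) (𝓝 ((1 - 0) * 1)) :=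
        ((tendsto_const_nhds).sub (lim_c h G.ψ_le G.w_nonneg)).mul lim_exp
      simp only [sub_zero, mul_one] at h1
      apply h1.congr'
      filter_upwards [self_mem_nhdsWithin] with x hx
      have hx : 0 < x := hx
      rw [h.zero x hx, exp_half_sq]
      simp [z, w]
    have := ge_of_deriv_nonneg hd' hnn hL m hm
    exact nonneg_of_mul_ψ h hm (by linarith)
  · have hψ2 : Tendsto (fun x => ψ n x ^ 2) (𝓝[>] 0) (𝓝 0) := by
      have h1 : Tendsto (fun m : ℝ => m * (m * Real.exp m)) (𝓝[>] 0) (𝓝 0) := by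
        have := lim_id.mul (lim_id.mul lim_exp)
        simpa using this
      apply tendsto_of_tendsto_of_tendsto_of_le_of_le' tendsto_const_nhds h1
      · filter_upwards [self_mem_nhdsWithin] with m hm
        positivity
      · filter_upwards [self_mem_nhdsWithin] with m hm
        have hm : 0 < m := hm
        have h2 := pow_le_pow_left₀ (h.pos n m hm).le (G.ψ_small hn m hm) 2
        have h3 : (m * Real.exp (m / 2)) ^ 2 = m * (m * Real.exp m) := by
          rw [mul_pow, exp_half_sq]; ring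
        linarith
    have hL : Tendsto (fun x => z ψ n x * ψ n x ^ 2) (𝓝[>] 0) (𝓝 0) := by
      have h1 : Tendsto (fun m => -((1 + 2 * (m * w ψ n m)) * ψ n m ^ 2)) (𝓝[>] 0) (𝓝 0) := by
        have := (((G.W_lim.const_mul 2).const_add 1).mul hψ2).neg
        simpa using this
      apply tendsto_of_tendsto_of_tendsto_of_le_of_le' h1 hψ2
      · filter_upwards [self_mem_nhdsWithin] with m hm
        have hm : 0 < m := hm
        have h2 := G.c_le_m h m hm
        have h3 := G.w_nonneg m hm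
        have h4 : -(1 + 2 * (m * w ψ n m)) ≤ z ψ n m := by
          unfold z
          nlinarith [mul_le_mul_of_nonneg_left h2 h3]
        have h5 : 0 ≤ ψ n m ^ 2 := by positivity
        nlinarith [mul_le_mul_of_nonneg_right h4 h5]
      · filter_upwards [self_mem_nhdsWithin] with m hm
        have hm : 0 < m := hm
        have h3 := G.w_nonneg m hm
        have h4 := c_pos h n hm
        have h5 : z ψ n m ≤ 1 := by
          unfold z
          have : 0 ≤ 2 * w ψ n m * c ψ n m := by positivity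
          linarith
        have h6 : 0 ≤ ψ n m ^ 2 := by positivity
        nlinarith [mul_le_mul_of_nonneg_right h5 h6]
    have := ge_of_deriv_nonneg hd' hnn hL m hm
    exact nonneg_of_mul_ψ h hm this

theorem c_le_one (h : IsChain ψ) (G : Good ψ n) : ∀ m, 0 < m → c ψ n m ≤ 1 := by
  intro m hm
  have hz := G.z_nonneg h m hm
  have hw := G.w_half m hm
  have hc := c_pos h n hm
  unfold z at hz
  nlinarith

theorem mz_le (h : IsChain ψ) (G : Good ψ n) : ∀ m, 0 < m → m * z ψ n m ≤ c ψ n m := by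
  intro m hm
  have hF : ∀ m, 0 < m → HasDerivAt (fun x => c ψ n x * (1 + 2 * (x * w ψ n x)) - x)
      (z ψ n m * (1 + 2 * (m * w ψ n m)) +
        c ψ n m * (2 * (w ψ n m + m * (w ψ n m ^ 2 - V ψ n m))) - 1) m := by
    intro m hm
    have hd := ((hasDerivAt_c h n m hm).mul
      ((((hasDerivAt_id m).mul (hasDerivAt_w h n m hm)).const_mul 2).const_add 1)).sub
      (hasDerivAt_id m)
    refine hd.congr_deriv ?_
    simp only [id, Pi.mul_apply]
    ring
  have hd := der_mul_ψ h n hF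
  have hd' : ∀ m, 0 < m → HasDerivAt
      (fun x => (c ψ n x * (1 + 2 * (x * w ψ n x)) - x) * ψ n x ^ 2)
      (2 * c ψ n m * (w ψ n m + m * (w ψ n m ^ 2 - V ψ n m)) * ψ n m ^ 2) m := by
    intro m hm
    refine (hd m hm).congr_deriv ?_
    simp only [z]
    ring
  have hL : Tendsto (fun x => (c ψ n x * (1 + 2 * (x * w ψ n x)) - x) * ψ n x ^ 2)
      (𝓝[>] 0) (𝓝 0) := by
    have h0 := lim_mψ h G.ψ_le
    have h1 : Tendsto (fun m => -(m * ψ n m ^ 2)) (𝓝[>] 0) (𝓝 0) := by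
      simpa using h0.neg
    have h2 : Tendsto (fun m => (1 + 2 * (m * w ψ n m)) * (m * ψ n m ^ 2)) (𝓝[>] 0) (𝓝 0) := by
      have := ((G.W_lim.const_mul 2).const_add 1).mul h0
      simpa using this
    apply tendsto_of_tendsto_of_tendsto_of_le_of_le' h1 h2
    · filter_upwards [self_mem_nhdsWithin] with m hm
      have hm : 0 < m := hm
      have h3 := G.w_nonneg m hm
      have h4 := c_pos h n hm
      have h5 : 0 ≤ c ψ n m * (1 + 2 * (m * w ψ n m)) := by positivity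
      have h6 : 0 ≤ ψ n m ^ 2 := by positivity
      nlinarith [mul_nonneg h5 h6]
    · filter_upwards [self_mem_nhdsWithin] with m hm
      have hm : 0 < m := hm
      have h3 := G.w_nonneg m hm
      have h4 := G.c_le_m h m hm
      have h5 : 0 ≤ (1 + 2 * (m * w ψ n m)) * ψ n m ^ 2 := by positivity
      have h6 : 0 ≤ m * ψ n m ^ 2 := by positivity
      nlinarith [mul_le_mul_of_nonneg_right h4 h5]
  have h1 := ge_of_deriv_nonneg hd' (fun m hm => by
    have := G.W_mono m hm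
    have := c_pos h n hm
    positivity) hL m hm
  have h2 := nonneg_of_mul_ψ h hm h1
  unfold z
  nlinarith

theorem W_ge (h : IsChain ψ) (G : Good ψ n) : ∀ m, 0 < m → (n : ℝ) ≤ m * w ψ n m := by
  apply ge_of_deriv_nonneg (F' := fun m => w ψ n m + m * (w ψ n m ^ 2 - V ψ n m))
  · intro m hm
    have hd := (hasDerivAt_id m).mul (hasDerivAt_w h n m hm)
    refine hd.congr_deriv ?_
    simp
  · exact G.W_mono
  · exact G.W_lim

theorem c_le_div (h : IsChain ψ) (G : Good ψ n) :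
    ∀ m, 0 < m → (2 * (n : ℝ) + 1) * c ψ n m ≤ m := by
  intro m hm
  have hF : ∀ m, 0 < m → HasDerivAt (fun x => x - (2 * (n : ℝ) + 1) * c ψ n x)
      (1 - (2 * (n : ℝ) + 1) * z ψ n m) m := by
    intro m hm
    exact (hasDerivAt_id m).sub ((hasDerivAt_c h n m hm).const_mul _)
  have hd := der_mul_ψ h n hF
  have hL : Tendsto (fun x => (x - (2 * (n : ℝ) + 1) * c ψ n x) * ψ n x ^ 2)
      (𝓝[>] 0) (𝓝 0) := by
    have h0 := lim_mψ h G.ψ_le
    have h1 : Tendsto (fun m => -((2 * (n : ℝ) + 1) * (m * ψ n m ^ 2))) (𝓝[>] 0) (𝓝 0) := by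
      simpa using (h0.const_mul (2 * (n : ℝ) + 1)).neg
    apply tendsto_of_tendsto_of_tendsto_of_le_of_le' h1 h0
    · filter_upwards [self_mem_nhdsWithin] with m hm
      have hm : 0 < m := hm
      have h4 := G.c_le_m h m hm
      have h5 : 0 ≤ (2 * (n : ℝ) + 1) * ψ n m ^ 2 := by positivity
      have h6 : 0 ≤ m * ψ n m ^ 2 := by positivity
      nlinarith [mul_le_mul_of_nonneg_right h4 h5]
    · filter_upwards [self_mem_nhdsWithin] with m hm
      have hm : 0 < m := hm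
      have h4 := c_pos h n hm
      have h5 : 0 ≤ (2 * (n : ℝ) + 1) * c ψ n m * ψ n m ^ 2 := by positivity
      nlinarith
  have h1 := ge_of_deriv_nonneg hd (fun m hm => by
    have h2 := G.W_ge h m hm
    have h3 : (1 - (2 * (n : ℝ) + 1) * z ψ n m + 2 * w ψ n m * (m - (2 * (n : ℝ) + 1) * c ψ n m))
        = 2 * (m * w ψ n m - n) := by
      simp only [z]; ring
    rw [h3]
    have : 0 ≤ m * w ψ n m - n := by linarith
    positivity) hL m hm
  have h2 := nonneg_of_mul_ψ h hm h1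
  linarith

theorem w_succ_half (h : IsChain ψ) (G : Good ψ n) : ∀ m, 0 < m → 1 / 2 ≤ w ψ (n + 1) m := by
  intro m hm
  have h1 := w_succ_mul h n hm
  have h2 := G.z_nonneg h m hm
  have h3 := G.c_le_one h m hm
  have h4 := c_pos h n hm
  by_contra hcon
  push Not at hcon
  have h5 : 2 * w ψ (n + 1) m * c ψ n m < 1 := by
    nlinarith
  linarith

theorem ψ_succ_small (h : IsChain ψ) (G : Good ψ n) :
    ∀ m, 0 < m → ψ (n + 1) m ≤ m * Real.exp (m / 2) := by
  intro m hm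
  rw [ψ_succ h n hm]
  have h1 := G.c_le_m h m hm
  have h2 := G.ψ_le m hm
  have h3 := h.pos n m hm
  have h4 := c_pos h n hm
  exact mul_le_mul h1 h2 h3.le hm.le

theorem ψ_succ_le (h : IsChain ψ) (G : Good ψ n) :
    ∀ m, 0 < m → ψ (n + 1) m ≤ Real.exp (m / 2) := by
  intro m hm
  rw [ψ_succ h n hm]
  have h1 := G.c_le_one h m hm
  have h2 := G.ψ_le m hm
  have h3 := h.pos n m hm
  have h4 := c_pos h n hm
  nlinarith

theorem W_succ_lim (h : IsChain ψ) (G : Good ψ n) :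
    Tendsto (fun m => m * w ψ (n + 1) m) (𝓝[>] 0) (𝓝 ((n + 1 : ℕ) : ℝ)) := by
  -- m / c → 2n+1
  have h1 : Tendsto (fun m => m / c ψ n m) (𝓝[>] 0) (𝓝 (2 * (n : ℝ) + 1)) := by
    have hu : Tendsto (fun m => 1 + 2 * (m * w ψ n m)) (𝓝[>] 0) (𝓝 (2 * (n : ℝ) + 1)) := by
      have := (G.W_lim.const_mul 2).const_add 1
      rwa [add_comm (1 : ℝ) (2 * (n : ℝ))] at this
    apply tendsto_of_tendsto_of_tendsto_of_le_of_le' tendsto_const_nhds hu
    · filter_upwards [self_mem_nhdsWithin] with m hm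
      have hm : 0 < m := hm
      rw [le_div_iff₀ (c_pos h n hm)]
      exact G.c_le_div h m hm
    · filter_upwards [self_mem_nhdsWithin] with m hm
      have hm : 0 < m := hm
      rw [div_le_iff₀ (c_pos h n hm)]
      have h2 := G.mz_le h m hm
      unfold z at h2
      nlinarith
  have h2 := h1.sub G.W_lim
  have e : (2 * (n : ℝ) + 1) - n = ((n + 1 : ℕ) : ℝ) := by push_cast; ring
  rw [e] at h2
  apply h2.congr
  intro m
  simp only [w]
  ring

theorem lim_ψ_div (h : IsChain ψ) (G : Good ψ n) :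
    Tendsto (fun m => ψ (n + 1) m ^ 2 / m) (𝓝[>] 0) (𝓝 0) := by
  have h1 : Tendsto (fun m : ℝ => m * Real.exp m) (𝓝[>] 0) (𝓝 0) := by
    have := lim_id.mul lim_exp
    simpa using this
  apply tendsto_of_tendsto_of_tendsto_of_le_of_le' tendsto_const_nhds h1
  · filter_upwards [self_mem_nhdsWithin] with m hm
    have hm : 0 < m := hm
    positivity
  · filter_upwards [self_mem_nhdsWithin] with m hm
    have hm : 0 < m := hm
    rw [div_le_iff₀ hm]
    have h2 := pow_le_pow_left₀ (h.pos (n + 1) m hm).le (G.ψ_succ_small h m hm) 2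
    have h3 : (m * Real.exp (m / 2)) ^ 2 = m * Real.exp m * m := by
      rw [mul_pow, exp_half_sq]; ring
    linarith

/-- `W' ψ_{n+1}² → 0` -/
theorem lim_Y (h : IsChain ψ) (G : Good ψ n) :
    Tendsto (fun m => (w ψ (n + 1) m + m * (V ψ n m - w ψ (n + 1) m ^ 2)) * ψ (n + 1) m ^ 2)
      (𝓝[>] 0) (𝓝 0) := by
  have h0 := G.lim_ψ_div h
  have h1 := G.W_succ_lim h
  have a1 : Tendsto (fun m => (m * w ψ (n + 1) m) * (ψ (n + 1) m ^ 2 / m)) (𝓝[>] 0) (𝓝 0) := by
    simpa using h1.mul h0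
  have a2 : Tendsto (fun m => (m * w ψ (n + 1) m) ^ 2 * (ψ (n + 1) m ^ 2 / m)) (𝓝[>] 0) (𝓝 0) := by
    simpa using (h1.pow 2).mul h0
  have a3' : Tendsto (fun m => 2 * (m * w ψ n m) ^ 2 * (ψ (n + 1) m ^ 2 / m)) (𝓝[>] 0) (𝓝 0) := by
    simpa using ((G.W_lim.pow 2).const_mul 2).mul h0
  have a3 : Tendsto (fun m => (m ^ 2 * V ψ n m) * (ψ (n + 1) m ^ 2 / m)) (𝓝[>] 0) (𝓝 0) := by
    apply tendsto_of_tendsto_of_tendsto_of_le_of_le' tendsto_const_nhds a3'
    · filter_upwards [self_mem_nhdsWithin] with m hm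
      have hm : 0 < m := hm
      have : 0 ≤ V ψ n m := le_trans (sq_nonneg _) (G.w_anti m hm)
      positivity
    · filter_upwards [self_mem_nhdsWithin] with m hm
      have hm : 0 < m := hm
      have h4 := G.V_le m hm
      apply mul_le_mul_of_nonneg_right _ (by positivity)
      nlinarith [mul_le_mul_of_nonneg_left h4 (by positivity : (0:ℝ) ≤ m ^ 2)]
  have := (a1.add a3).sub a2
  simp only [add_zero, sub_zero] at this
  apply this.congr'
  filter_upwards [self_mem_nhdsWithin] with m hm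
  have hm : m ≠ 0 := ne_of_gt hm
  field_simp
  ring

/-- the Toda relation -/
theorem T2 (h : IsChain ψ) (G : Good ψ n) : ∀ m, 0 < m →
    w ψ (n + 1) m + m * (V ψ n m - w ψ (n + 1) m ^ 2) =
      (((n : ℝ) + 1) * c ψ (n + 1) m - n * c ψ n m) / 2 := by
  have hF : ∀ m, 0 < m → HasDerivAt (fun x => w ψ (n + 1) x + x * (V ψ n x - w ψ (n + 1) x ^ 2)
      + n * c ψ n x / 2 - ((n : ℝ) + 1) * c ψ (n + 1) x / 2)
      ((V ψ n m - w ψ (n + 1) m ^ 2) + ((V ψ n m - w ψ (n + 1) m ^ 2) +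
        m * (V' ψ n m - 2 * w ψ (n + 1) m * (V ψ n m - w ψ (n + 1) m ^ 2)))
        + n * z ψ n m / 2 - ((n : ℝ) + 1) * z ψ (n + 1) m / 2) m := by
    intro m hm
    have hw := hasDerivAt_w' h n m hm
    have hV := hasDerivAt_V h n m hm
    have hd := ((hw.add ((hasDerivAt_id m).mul (hV.sub (hw.pow 2)))).add
      (((hasDerivAt_c h n m hm).const_mul (n : ℝ)).div_const 2)).sub
      (((hasDerivAt_c h (n + 1) m hm).const_mul ((n : ℝ) + 1)).div_const 2)
    refine hd.congr_deriv ?_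
    simp only [id, Pi.sub_apply, Pi.pow_apply]
    norm_num
  have hd := der_mul_ψ h (n + 1) hF
  have hd0 : ∀ m, 0 < m → HasDerivAt (fun x => (w ψ (n + 1) x + x * (V ψ n x - w ψ (n + 1) x ^ 2)
      + n * c ψ n x / 2 - ((n : ℝ) + 1) * c ψ (n + 1) x / 2) * ψ (n + 1) x ^ 2) 0 m := by
    intro m hm
    refine (hd m hm).congr_deriv ?_
    have t1 := G.T1 m hm
    have hz := w_succ_mul h n hm
    have hz1 : z ψ (n + 1) m = 1 - 2 * w ψ (n + 1) m * c ψ (n + 1) m := rfl
    rw [hz1]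
    have hz0 : z ψ n m = 2 * w ψ (n + 1) m * c ψ n m - 1 := by linarith
    have : ((V ψ n m - w ψ (n + 1) m ^ 2) + ((V ψ n m - w ψ (n + 1) m ^ 2) +
        m * (V' ψ n m - 2 * w ψ (n + 1) m * (V ψ n m - w ψ (n + 1) m ^ 2)))
        + n * z ψ n m / 2 - ((n : ℝ) + 1) * (1 - 2 * w ψ (n + 1) m * c ψ (n + 1) m) / 2
        + 2 * w ψ (n + 1) m * (w ψ (n + 1) m + m * (V ψ n m - w ψ (n + 1) m ^ 2)
      + n * c ψ n m / 2 - ((n : ℝ) + 1) * c ψ (n + 1) m / 2)) = 0 := by
      rw [hz0] at t1 ⊢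
      linear_combination t1
    rw [this, zero_mul]
  have hL : Tendsto (fun x => (w ψ (n + 1) x + x * (V ψ n x - w ψ (n + 1) x ^ 2)
      + n * c ψ n x / 2 - ((n : ℝ) + 1) * c ψ (n + 1) x / 2) * ψ (n + 1) x ^ 2)
      (𝓝[>] 0) (𝓝 0) := by
    have b1 := G.lim_Y h
    have hw1 : ∀ m, 0 < m → 0 ≤ w ψ (n + 1) m := fun m hm =>
      le_trans (by norm_num) (G.w_succ_half h m hm)
    have b2 := lim_c h G.ψ_le G.w_nonneg
    have b3 := lim_c h (G.ψ_succ_le h) hw1
    have b4 : Tendsto (fun m => ψ (n + 1) m ^ 2) (𝓝[>] 0) (𝓝 0) := by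
      have := (G.lim_ψ_div h).mul lim_id
      simp only [mul_zero] at this
      apply this.congr'
      filter_upwards [self_mem_nhdsWithin] with m hm
      have hm : m ≠ 0 := ne_of_gt hm
      field_simp
    have b5 : Tendsto (fun m => (n * c ψ n m / 2 - ((n : ℝ) + 1) * c ψ (n + 1) m / 2)
        * ψ (n + 1) m ^ 2) (𝓝[>] 0) (𝓝 0) := by
      have := (((b2.const_mul (n : ℝ)).div_const 2).sub
        ((b3.const_mul ((n : ℝ) + 1)).div_const 2)).mul b4
      simpa using this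
    have := b1.add b5
    simp only [add_zero] at this
    apply this.congr
    intro m
    ring
  intro m hm
  have h1 := eq_of_deriv_zero hd0 hL m hm
  have p := h.pos (n + 1) m hm
  rcases mul_eq_zero.1 h1 with h2 | h2
  · linarith
  · have : 0 < ψ (n + 1) m ^ 2 := by positivity
    linarith

/-- the algebraic first integral -/
theorem I (h : IsChain ψ) (G : Good ψ n) : ∀ m, 0 < m →
    4 * (m * w ψ (n + 1) m - n) * (m * w ψ (n + 1) m - n - 1) =
      (m - 2 * n * c ψ n m) * (m - 2 * ((n : ℝ) + 1) * c ψ (n + 1) m) := by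
  have hF : ∀ m, 0 < m → HasDerivAt (fun m => 4 * (m * w ψ (n + 1) m - n) *
      (m * w ψ (n + 1) m - n - 1) -
      (m - 2 * n * c ψ n m) * (m - 2 * ((n : ℝ) + 1) * c ψ (n + 1) m)) 0 m := by
    intro m hm
    have hw := hasDerivAt_w' h n m hm
    have hW : HasDerivAt (fun m => m * w ψ (n + 1) m)
        (w ψ (n + 1) m + m * (V ψ n m - w ψ (n + 1) m ^ 2)) m := by
      refine ((hasDerivAt_id m).mul hw).congr_deriv ?_
      simp
    rw [G.T2 h m hm] at hW
    have h1 := ((hW.sub_const (n : ℝ)).const_mul 4).mul ((hW.sub_const (n : ℝ)).sub_const 1)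
    have h2 := ((hasDerivAt_id m).sub ((hasDerivAt_c h n m hm).const_mul (2 * (n : ℝ)))).mul
      ((hasDerivAt_id m).sub ((hasDerivAt_c h (n + 1) m hm).const_mul (2 * ((n : ℝ) + 1))))
    refine (h1.sub h2).congr_deriv ?_
    have hz := w_succ_mul h n hm
    have hz1 : z ψ (n + 1) m = 1 - 2 * w ψ (n + 1) m * c ψ (n + 1) m := rfl
    have hz0 : z ψ n m = 2 * w ψ (n + 1) m * c ψ n m - 1 := by linarith
    simp only [id, Pi.sub_apply]
    rw [hz1, hz0]
    ring
  have hL : Tendsto (fun m => 4 * (m * w ψ (n + 1) m - n) *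
      (m * w ψ (n + 1) m - n - 1) -
      (m - 2 * n * c ψ n m) * (m - 2 * ((n : ℝ) + 1) * c ψ (n + 1) m)) (𝓝[>] 0) (𝓝 0) := by
    have hw1 : ∀ m, 0 < m → 0 ≤ w ψ (n + 1) m := fun m hm =>
      le_trans (by norm_num) (G.w_succ_half h m hm)
    have b1 := G.W_succ_lim h
    have b2 := lim_c h G.ψ_le G.w_nonneg
    have b3 := lim_c h (G.ψ_succ_le h) hw1
    have := (((b1.sub_const (n : ℝ)).const_mul 4).mul ((b1.sub_const (n : ℝ)).sub_const 1)).sub
      ((lim_id.sub (b2.const_mul (2 * (n : ℝ)))).mul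
      (lim_id.sub (b3.const_mul (2 * ((n : ℝ) + 1)))))
    have e : 4 * (((n + 1 : ℕ) : ℝ) - n) * (((n + 1 : ℕ) : ℝ) - n - 1) -
      (0 - 2 * (n : ℝ) * 0) * (0 - 2 * ((n : ℝ) + 1) * 0) = 0 := by push_cast; ring
    rw [e] at this
    exact this
  intro m hm
  have := eq_of_deriv_zero hF hL m hm
  linarith

/-- second order equation for `c n` -/
theorem E (h : IsChain ψ) (G : Good ψ n) : ∀ m, 0 < m →
    -(2 * m * (m - 2 * n * c ψ n m) * c ψ n m * z' ψ n m) =
      (1 - z ψ n m ^ 2 - c ψ n m ^ 2) * (m - 2 * n * c ψ n m) ^ 2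
        - 4 * n * c ψ n m ^ 2 * z ψ n m * (1 - n * z ψ n m) := by
  intro m hm
  have i := G.I h m hm
  have t2 := G.T2 h m hm
  have cp := c_pos h n hm
  have hw1 := w_succ_mul h n hm
  have hw0 : 2 * w ψ n m * c ψ n m = 1 - z ψ n m := by unfold z; ring
  have hz' : z' ψ n m = 2 * c ψ n m * (V ψ n m - w ψ n m * w ψ (n + 1) m) := rfl
  set C := c ψ n m
  set Z := z ψ n m
  set W1 := w ψ (n + 1) m
  set W0 := w ψ n m
  set D := c ψ (n + 1) m
  set U := V ψ n m
  have e1 : W1 = (1 + Z) / (2 * C) := by field_simp; linarith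
  have e0 : W0 = (1 - Z) / (2 * C) := by field_simp; linarith
  have eU : U = z' ψ n m / (2 * C) + (1 - Z ^ 2) / (4 * C ^ 2) := by
    rw [hz', e1, e0]; field_simp; ring
  have eD : 2 * ((n : ℝ) + 1) * D = 2 * n * C + 4 * (W1 + m * (U - W1 ^ 2)) := by
    rw [t2]; ring
  have i2 : 4 * (m * W1 - n) * (m * W1 - n - 1) =
      (m - 2 * n * C) * (m - (2 * n * C + 4 * (W1 + m * (U - W1 ^ 2)))) := by
    rw [← eD]; linarith
  rw [eU, e1] at i2
  field_simp at i2
  nlinarith [i2]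

/-- concavity of `c n` -/
theorem z'_nonpos (h : IsChain ψ) (G : Good ψ n) : ∀ m, 0 < m → z' ψ n m ≤ 0 := by
  rcases Nat.eq_zero_or_pos n with hn | hn
  · subst hn
    intro m hm
    have hz := G.z_nonneg h m hm
    have hw1 := w_succ_mul h 0 hm
    have e : z' ψ 0 m = - z ψ 0 m := by
      have h0 : w ψ 0 m = 1 / 2 := rfl
      have h1 : V ψ 0 m = 1 / 4 := rfl
      simp only [z', h0, h1]
      have hz0 : z ψ 0 m = 1 - c ψ 0 m := by simp [z, w]
      rw [hz0] at hw1 ⊢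
      linarith
    linarith
  · have hn1 : (1 : ℝ) ≤ n := by exact_mod_cast hn
    exact concave_of_ode hn1 (hasDerivAt_c h n) (hasDerivAt_z h n) (fun m hm => c_pos h n hm)
      (G.c_le_one h) (G.z_nonneg h) (G.mz_le h) (G.c_le_div h) (G.E h)

theorem z_le (h : IsChain ψ) (G : Good ψ n) :
    ∀ m, 0 < m → (2 * (n : ℝ) + 1) * z ψ n m ≤ 1 := by
  intro m hm
  have h1 := G.mz_le h m hm
  have h2 := G.c_le_div h m hm
  have h3 : m * ((2 * (n : ℝ) + 1) * z ψ n m) ≤ m * 1 := by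
    have : (0:ℝ) ≤ 2 * (n : ℝ) + 1 := by positivity
    nlinarith [mul_le_mul_of_nonneg_left h1 this]
  exact le_of_mul_le_mul_left h3 hm

theorem succ (h : IsChain ψ) (G : Good ψ n) : Good ψ (n + 1) := by
  have hanti : ∀ m, 0 < m → V ψ n m ≤ w ψ (n + 1) m ^ 2 := by
    intro m hm
    have h1 := G.z'_nonpos h m hm
    have h2 := c_pos h n hm
    have h3 := G.w_succ_half h m hm
    have h4 := G.z_nonneg h m hm
    have h5 : V ψ n m ≤ w ψ n m * w ψ (n + 1) m := by
      unfold z' at h1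
      by_contra hcon
      push Not at hcon
      have : 0 < 2 * c ψ n m * (V ψ n m - w ψ n m * w ψ (n + 1) m) := by
        have : 0 < V ψ n m - w ψ n m * w ψ (n + 1) m := by linarith
        positivity
      linarith
    have h6 := w_succ_mul h n hm
    have h7 : w ψ n m ≤ w ψ (n + 1) m := by
      have h8 : 2 * w ψ n m * c ψ n m = 1 - z ψ n m := by unfold z; ring
      have h9 : w ψ n m * (2 * c ψ n m) ≤ w ψ (n + 1) m * (2 * c ψ n m) := by nlinarith
      exact le_of_mul_le_mul_right h9 (by positivity)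
    nlinarith
  have hVnn : ∀ m, 0 < m → 0 ≤ V ψ n m := fun m hm => le_trans (sq_nonneg _) (G.w_anti m hm)
  refine ⟨G.w_succ_half h, ?_, ?_, ?_, G.W_succ_lim h, ?_, G.ψ_succ_le h, fun _ => G.ψ_succ_small h⟩
  · intro m hm
    simp only [V]
    have := hanti m hm
    linarith
  · intro m hm
    simp only [V]
    have := hVnn m hm
    linarith
  · intro m hm
    have hF : ∀ m, 0 < m → HasDerivAt
        (fun x => w ψ (n + 1) x + x * (V ψ n x - w ψ (n + 1) x ^ 2))
        ((V ψ n m - w ψ (n + 1) m ^ 2) + ((V ψ n m - w ψ (n + 1) m ^ 2) +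
        m * (V' ψ n m - 2 * w ψ (n + 1) m * (V ψ n m - w ψ (n + 1) m ^ 2)))) m := by
      intro m hm
      have hw := hasDerivAt_w' h n m hm
      have hV := hasDerivAt_V h n m hm
      have hd := (hw.add ((hasDerivAt_id m).mul (hV.sub (hw.pow 2))))
      refine hd.congr_deriv ?_
      simp only [id, Pi.sub_apply, Pi.pow_apply]
      norm_num
    have hd := der_mul_ψ h (n + 1) hF
    have h1 := ge_of_deriv_nonneg hd (fun m hm => by
      have t1 := G.T1 m hm
      have hz := G.z_le h m hm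
      have hz0 := G.z_nonneg h m hm
      have e : (V ψ n m - w ψ (n + 1) m ^ 2 + (V ψ n m - w ψ (n + 1) m ^ 2 +
          m * (V' ψ n m - 2 * w ψ (n + 1) m * (V ψ n m - w ψ (n + 1) m ^ 2))) +
          2 * w ψ (n + 1) m * (w ψ (n + 1) m + m * (V ψ n m - w ψ (n + 1) m ^ 2))) =
          1 / 2 - n * z ψ n m := by
        linear_combination t1
      rw [e]
      have : 0 ≤ 1 / 2 - (n : ℝ) * z ψ n m := by linarith
      positivity) (G.lim_Y h) m hm
    have h2 := nonneg_of_mul_ψ h hm h1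
    simp only [V]
    have e : w ψ (n + 1) m + m * (w ψ (n + 1) m ^ 2 - (2 * w ψ (n + 1) m ^ 2 - V ψ n m)) =
      w ψ (n + 1) m + m * (V ψ n m - w ψ (n + 1) m ^ 2) := by ring
    rw [e]; exact h2
  · intro m hm
    -- differentiate T2
    have hw := hasDerivAt_w' h n m hm
    have hV := hasDerivAt_V h n m hm
    have hd := (hw.add ((hasDerivAt_id m).mul (hV.sub (hw.pow 2))))
    have hr := (((hasDerivAt_c h (n + 1) m hm).const_mul ((n : ℝ) + 1)).sub
      ((hasDerivAt_c h n m hm).const_mul (n : ℝ))).div_const 2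
    have heq : (w ψ (n + 1) + id * (V ψ n - w ψ (n + 1) ^ 2)) =ᶠ[𝓝 m]
        (fun x => ((fun y => ((n : ℝ) + 1) * c ψ (n + 1) y) - fun y => (n : ℝ) * c ψ n y) x / 2) := by
      filter_upwards [lt_mem_nhds hm] with x hx
      have := G.T2 h x hx
      simp only [Pi.add_apply, Pi.mul_apply, Pi.sub_apply, Pi.pow_apply, id]
      linarith
    have hu := (hr.congr_of_eventuallyEq heq).unique hd
    have t2 := G.T2 h m hm
    have hz := w_succ_mul h n hm
    have hz1 : z ψ (n + 1) m = 1 - 2 * w ψ (n + 1) m * c ψ (n + 1) m := rfl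
    have hz0 : z ψ n m = 2 * w ψ (n + 1) m * c ψ n m - 1 := by linarith
    rw [hz1, hz0] at hu
    simp only [id, Pi.sub_apply, Pi.pow_apply, one_mul] at hu
    rw [hz1]
    simp only [V, V']
    push_cast
    norm_num at hu
    linear_combination hu + 2 * w ψ (n + 1) m * t2

end Good
end

theorem good_zero (h : IsChain ψ) : Good ψ 0 := by
  refine ⟨?_, ?_, ?_, ?_, ?_, ?_, ?_, ?_⟩
  · intro m _; simp [w]
  · intro m _; simp [w, V]; norm_num
  · intro m _; simp [w, V]; norm_num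
  · intro m _; simp [w, V]; norm_num
  · have := lim_id.mul_const (1 / 2 : ℝ)
    simpa [w] using this
  · intro m _; simp [V, V']; norm_num
  · intro m hm; exact (h.zero m hm).le
  · intro hn; omega

theorem good (h : IsChain ψ) (n : ℕ) : Good ψ n := by
  induction n with
  | zero => exact good_zero h
  | succ n ih => exact ih.succ h

/-! ## Final statements -/

/-- `c n ≤ 1`, increasing, concave. -/
theorem c_facts (h : IsChain ψ) (n : ℕ) (m : ℝ) (hm : 0 < m) :
    0 < c ψ n m ∧ c ψ n m ≤ 1 ∧ 0 ≤ z ψ n m ∧ z' ψ n m ≤ 0 ∧ m * z ψ n m ≤ c ψ n m ∧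
      (2 * (n : ℝ) + 1) * c ψ n m ≤ m :=
  ⟨c_pos h n hm, (good h n).c_le_one h m hm, (good h n).z_nonneg h m hm,
    (good h n).z'_nonpos h m hm, (good h n).mz_le h m hm, (good h n).c_le_div h m hm⟩

/-- `V n ≤ w n w (n+1)`. -/
theorem V_le_mul (h : IsChain ψ) (n : ℕ) (m : ℝ) (hm : 0 < m) :
    V ψ n m ≤ w ψ n m * w ψ (n + 1) m := by
  have h1 := (good h n).z'_nonpos h m hm
  have h2 := c_pos h n hm
  unfold z' at h1
  by_contra hcon
  push Not at hcon
  have : 0 < 2 * c ψ n m * (V ψ n m - w ψ n m * w ψ (n + 1) m) := by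
    have : 0 < V ψ n m - w ψ n m * w ψ (n + 1) m := by linarith
    positivity
  linarith

theorem V_ge (h : IsChain ψ) (n : ℕ) (m : ℝ) (hm : 0 < m) : 1 / 4 ≤ V ψ n m := by
  have h1 := (good h n).w_anti m hm
  have h2 := (good h n).w_half m hm
  nlinarith

/-- `V n` is nonincreasing. -/
theorem V'_nonpos (h : IsChain ψ) (n : ℕ) (m : ℝ) (hm : 0 < m) : V' ψ n m ≤ 0 := by
  have t := (good h n).T1 m hm
  have h1 := V_ge h n m hm
  have h2 := (good h n).z_nonneg h m hm
  have h3 : m * V' ψ n m ≤ 0 := by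
    have : 0 ≤ (n : ℝ) * z ψ n m := by positivity
    linarith
  by_contra hcon
  push Not at hcon
  have := mul_pos hm hcon
  linarith

/-- `v n = m² V n` is nondecreasing: `2 V + m V' = 1/2 - n z ≥ 0`. -/
theorem two_V_add (h : IsChain ψ) (n : ℕ) (m : ℝ) (hm : 0 < m) :
    2 * V ψ n m + m * V' ψ n m = 1 / 2 - n * z ψ n m ∧ 0 ≤ 1 / 2 - (n : ℝ) * z ψ n m := by
  have t := (good h n).T1 m hm
  have hz := (good h n).z_le h m hm
  have hz0 := (good h n).z_nonneg h m hm
  constructor <;> linarith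

end LPPChain
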