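import Pool.Agent.Lib.MP_267da7_pr.M1

/-!
# M2: the three-point maximum principle

`al >= 1`, `lam + mu = 1`.  For `i = 0, 1` and the middle function put `ph_i(v,R) = al log R + f_i(v,R)`; hypotheses `hpde`:
`-(ph_i)_v = (ph_i)_RR + (ph_i)_R^2 - U_i` (written out for `f_i`).
`Cc(v,R0,R1) = ph(v, lam R0 + mu R1) - lam ph_0(v,R0) - mu ph_1(v,R1)`.  Claim `Cc >= 0`.

(1) lower bound: `Cc >= al (log(lam R0 + mu R1) - lam log R0 - mu log R1) - tau v >= -tau v` (`f_i <= 0`, `f >= -tau`; concavity of `log`).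
(2) Let `b = bar`, `K = 4 + 4 al + 2 C`, `K' = K + 1`, `0 < eps <= 1`, `H > 0` and
 `G = Cc + eps (b(lam R0 + mu R1) + K' (H - v))` on `[0,H] x (0,oo)^2`.  Fix a point `(v0,r0,r1)` of this domain.
 `G` has a minimum: `{G <= G(v0,r0,r1)}` is contained in a compact box: `b(R) <= const` (with `R = lam R0 + mu R1`, since `Cc >= -tau 0`-type
 bound `tau v <= t0`) confines `R` to `[r', r'']`, so `R0 <= r''/lam`, `R1 <= r''/mu`; and `al(log R - lam log R0 - mu log R1) <= const`
 bounds `R0`, `R1` away from `0`.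
(3) At a minimum `(v,R0,R1)` with `v < H`, write `R = lam R0 + mu R1`, `cst = ph_R(v,R) = al/R + f_R(v,R)`, `p = d/dR0 Cc = lam (cst - ph_0')`,
 `q = d/dR1 Cc = mu (cst - ph_1')`.  From `hpde` and `hconv`:
 `-Cc_v = [ph_RR - lam ph_0RR - mu ph_1RR] + [cst^2 - lam ph_0'^2 - mu ph_1'^2] - [U - lam U_0 - mu U_1]`, the last bracket is `<= 0`, the middle one is
 `2 cst (p+q) - p^2/lam - q^2/mu` (insert `ph_0' = cst - p/lam`, `ph_1' = cst - q/mu`), the first one is the second derivative of
 `t -> Cc(v,R0+t,R1+t)` at `0`.  Minimality: `G_v >= 0` gives `Cc_v >= eps K'`; `p = -eps lam b'(R)`, `q = -eps mu b'(R)`; second derivative along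
 `(1,1)`: `>= -eps b''(R)`.  So `-eps K' >= -Cc_v >= -eps (b'' + 2 cst b' + eps b'^2)`, i.e. `K' <= b'' + 2 cst b' + eps b'^2`.
 But `|b'| <= 1/R`, `b'' <= 1/R^2 + 2`, `2 (al/R) b' = 2 al(-1/R^2 + 2/(R^2+1)) <= -2al/R^2 + 4 al`, `2 f_R b' <= 2 C` (`|f_R| <= C R`), `eps b'^2 <= 1/R^2`:
 sum `<= (2 - 2 al)/R^2 + 2 + 4 al + 2 C <= K < K'`.  Contradiction.
(4) So the minimum is attained at `v = H`, where `G >= Cc >= -tau H`.  Hence `Cc(v0,r0,r1) >= -tau H - eps (b(..) + K' H)`; let `eps -> 0`, then
 `H -> oo` (`tau -> 0`): `Cc >= 0`.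
-/

open Real MeasureTheory Set Filter
open scoped Topology

namespace LPPEnd

theorem M2_bar (al : ℝ) (hal : 1 ≤ al) (R b2 eps : ℝ) (hR : 0 < R) (hb : b2 ≤ 1 / R ^ 2 + 2)
    (he : eps ≤ 1) :
    b2 + 2 * al / R * ((R ^ 2 - 1) / (R * (R ^ 2 + 1))) +
      eps * ((R ^ 2 - 1) / (R * (R ^ 2 + 1))) ^ 2 ≤ 2 + 4 * al := by
  have h1 : 2 * al / R * ((R ^ 2 - 1) / (R * (R ^ 2 + 1))) =
      2 * al * (2 / (1 + R ^ 2)) - 2 * al * (1 / R ^ 2) := by
    field_simp
    ring
  rw [h1]
  have h2 : 2 / (1 + R ^ 2) ≤ 2 := by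
    rw [div_le_iff₀ (by positivity)]; nlinarith [sq_nonneg R]
  have h3 : 0 ≤ 1 / R ^ 2 := by positivity
  have h4 : ((R ^ 2 - 1) / (R * (R ^ 2 + 1))) ^ 2 ≤ 1 / R ^ 2 := by
    rw [div_pow, div_le_div_iff₀ (by positivity) (by positivity)]
    have : (R ^ 2 - 1) ^ 2 ≤ (R ^ 2 + 1) ^ 2 := by nlinarith [sq_nonneg R]
    nlinarith [sq_nonneg R, mul_le_mul_of_nonneg_right this (sq_nonneg R)]
  have h5 : 0 ≤ ((R ^ 2 - 1) / (R * (R ^ 2 + 1))) ^ 2 := by positivity
  nlinarith

theorem M2_beta (R : ℝ) (hR : 0 < R) : |(R ^ 2 - 1) / (R * (R ^ 2 + 1))| ≤ 1 / R := by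
  rw [abs_div, abs_of_pos (show 0 < R * (R ^ 2 + 1) by positivity),
    div_le_div_iff₀ (by positivity) hR]
  have : |R ^ 2 - 1| ≤ R ^ 2 + 1 := by
    rw [abs_le]
    constructor <;> nlinarith [sq_nonneg R]
  nlinarith

theorem M2_log (lam mu : ℝ) (hl : 0 < lam) (hmu : 0 < mu) (h1 : lam + mu = 1) (a b : ℝ)
    (ha : 0 < a) (hb : 0 < b) :
    lam * Real.log a + mu * Real.log b ≤ Real.log (lam * a + mu * b) := by
  have := strictConcaveOn_log_Ioi.concaveOn.2 (x := a) (y := b) ha hb hl.le hmu.le h1
  simpa [smul_eq_mul] using this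

theorem M2 (al : ℝ) (hal : 1 ≤ al) (lam mu : ℝ) (hl : 0 < lam) (hmu : 0 < mu) (h1 : lam + mu = 1)
    (f f0 f1 fv f0v f1v fR f0R f1R fRR f0RR f1RR U U0 U1 : ℝ → ℝ → ℝ) (tau : ℝ → ℝ) (C t0 : ℝ)
    (hC : 0 ≤ C)
    (hc : ContinuousOn (fun p : ℝ × ℝ => f p.1 p.2) (Ici 0 ×ˢ Ioi 0))
    (hc0 : ContinuousOn (fun p : ℝ × ℝ => f0 p.1 p.2) (Ici 0 ×ˢ Ioi 0))
    (hc1 : ContinuousOn (fun p : ℝ × ℝ => f1 p.1 p.2) (Ici 0 ×ˢ Ioi 0))
    (hv : ∀ v R, 0 ≤ v → 0 < R → HasDerivAt (fun v => f v R) (fv v R) v)
    (hv0 : ∀ v R, 0 ≤ v → 0 < R → HasDerivAt (fun v => f0 v R) (f0v v R) v)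
    (hv1 : ∀ v R, 0 ≤ v → 0 < R → HasDerivAt (fun v => f1 v R) (f1v v R) v)
    (hR : ∀ v R, 0 ≤ v → 0 < R → HasDerivAt (fun R => f v R) (fR v R) R)
    (hR0 : ∀ v R, 0 ≤ v → 0 < R → HasDerivAt (fun R => f0 v R) (f0R v R) R)
    (hR1 : ∀ v R, 0 ≤ v → 0 < R → HasDerivAt (fun R => f1 v R) (f1R v R) R)
    (hRR : ∀ v R, 0 ≤ v → 0 < R → HasDerivAt (fun R => fR v R) (fRR v R) R)
    (hRR0 : ∀ v R, 0 ≤ v → 0 < R → HasDerivAt (fun R => f0R v R) (f0RR v R) R)
    (hRR1 : ∀ v R, 0 ≤ v → 0 < R → HasDerivAt (fun R => f1R v R) (f1RR v R) R)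
    (hpde : ∀ v R, 0 ≤ v → 0 < R →
      -fv v R = (fRR v R - al / R ^ 2) + (al / R + fR v R) ^ 2 - U v R)
    (hpde0 : ∀ v R, 0 ≤ v → 0 < R →
      -f0v v R = (f0RR v R - al / R ^ 2) + (al / R + f0R v R) ^ 2 - U0 v R)
    (hpde1 : ∀ v R, 0 ≤ v → 0 < R →
      -f1v v R = (f1RR v R - al / R ^ 2) + (al / R + f1R v R) ^ 2 - U1 v R)
    (hconv : ∀ v R0 R1, 0 ≤ v → 0 < R0 → 0 < R1 →
      U v (lam * R0 + mu * R1) ≤ lam * U0 v R0 + mu * U1 v R1)
    (hle0 : ∀ v R, 0 ≤ v → 0 < R → f0 v R ≤ 0)
    (hle1 : ∀ v R, 0 ≤ v → 0 < R → f1 v R ≤ 0)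
    (hge : ∀ v R, 0 ≤ v → 0 < R → -tau v ≤ f v R)
    (htau : ∀ v, 0 ≤ v → 0 ≤ tau v ∧ tau v ≤ t0)
    (htau0 : Tendsto tau atTop (𝓝 0))
    (hgrad : ∀ v R, 0 ≤ v → 0 < R → |fR v R| ≤ C * R) :
    ∀ v R0 R1, 0 ≤ v → 0 < R0 → 0 < R1 →
      lam * (al * Real.log R0 + f0 v R0) + mu * (al * Real.log R1 + f1 v R1) ≤
        al * Real.log (lam * R0 + mu * R1) + f v (lam * R0 + mu * R1) := by
  intro v0 a0 b0 hvz ha0 hb0
  by_contra hneg
  push Not at hneg
  have halp : 0 < al := by linarith
  set Cc : ℝ → ℝ → ℝ → ℝ := fun v a b => al * Real.log (lam * a + mu * b) + f v (lam * a + mu * b) -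
    (lam * (al * Real.log a + f0 v a) + mu * (al * Real.log b + f1 v b)) with hCc
  have hRpos : ∀ a b, 0 < a → 0 < b → 0 < lam * a + mu * b := fun a b ha hb => by positivity
  -- lower bound, precise form
  have hlow : ∀ v a b, 0 ≤ v → 0 < a → 0 < b →
      al * (Real.log (lam * a + mu * b) - (lam * Real.log a + mu * Real.log b)) - tau v ≤
        Cc v a b := by
    intro v a b hv' ha hb
    have e1 := hle0 v a hv' ha
    have e2 := hle1 v b hv' hb
    have e3 := hge v (lam * a + mu * b) hv' (hRpos a b ha hb)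
    have e4 : lam * f0 v a ≤ 0 := mul_nonpos_of_nonneg_of_nonpos hl.le e1
    have e5 : mu * f1 v b ≤ 0 := mul_nonpos_of_nonneg_of_nonpos hmu.le e2
    simp only [hCc]
    nlinarith
  have hlow1 : ∀ v a b, 0 ≤ v → 0 < a → 0 < b → -tau v ≤ Cc v a b := by
    intro v a b hv' ha hb
    have e1 := hlow v a b hv' ha hb
    have e2 := M2_log lam mu hl hmu h1 a b ha hb
    have e3 : 0 ≤ al * (Real.log (lam * a + mu * b) - (lam * Real.log a + mu * Real.log b)) :=
      mul_nonneg halp.le (by linarith)
    linarith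
  set d : ℝ := -Cc v0 a0 b0 / 2 with hd
  have hC0neg : Cc v0 a0 b0 < 0 := by
    simp only [hCc]; linarith
  have hdpos : 0 < d := by rw [hd]; linarith
  obtain ⟨H0, hH0⟩ := Filter.eventually_atTop.1 (htau0.eventually_lt_const hdpos)
  set H : ℝ := max H0 (v0 + 1) with hH
  have hH1 : H0 ≤ H := le_max_left _ _
  have hH2 : v0 + 1 ≤ H := le_max_right _ _
  set K : ℝ := 3 + 4 * al + 2 * C with hK
  have hKpos : 0 < K := by rw [hK]; linarith
  set Rz : ℝ := lam * a0 + mu * b0 with hRz
  have hRzpos : 0 < Rz := hRpos a0 b0 ha0 hb0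
  have claim : ∀ eps : ℝ, 0 < eps → eps ≤ 1 →
      -d ≤ Cc v0 a0 b0 + eps * (bar Rz + K * (H - v0)) := by
    intro eps heps heps1
    set G : ℝ → ℝ → ℝ → ℝ := fun v a b =>
      Cc v a b + eps * (bar (lam * a + mu * b) + K * (H - v)) with hG
    set M : ℝ := (G v0 a0 b0 + t0) / eps with hM
    set M' : ℝ := (G v0 a0 b0 + t0) / al with hM'
    have hz : ∀ᶠ R in 𝓝[>] (0:ℝ), M < bar R := bar_zero.eventually_gt_atTop M
    obtain ⟨δ, hδ, hδ'⟩ := mem_nhdsGT_iff_exists_Ioo_subset.1 hz
    have hδ0 : 0 < δ := hδ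
    obtain ⟨r2, hr2⟩ := Filter.eventually_atTop.1 (bar_top.eventually_gt_atTop M)
    -- the box
    set a1 : ℝ := min (Real.exp ((lam * Real.log (δ / 2) + mu * Real.log mu - M') / lam)) a0 with ha1
    set a2 : ℝ := max (r2 / lam) a0 with ha2
    set b1 : ℝ := min (Real.exp ((mu * Real.log (δ / 2) + lam * Real.log lam - M') / mu)) b0 with hb1
    set b2 : ℝ := max (r2 / mu) b0 with hb2
    have ha1pos : 0 < a1 := lt_min (Real.exp_pos _) ha0
    have hb1pos : 0 < b1 := lt_min (Real.exp_pos _) hb0
    have hbox : ∀ v a b, 0 ≤ v → v ≤ H → 0 < a → 0 < b → G v a b < G v0 a0 b0 →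
        (a1 ≤ a ∧ a ≤ a2) ∧ (b1 ≤ b ∧ b ≤ b2) := by
      intro v a b hv' hvH ha hb hlt
      have hR' := hRpos a b ha hb
      have hbarp := bar_pos _ hR'
      have e0 : 0 ≤ K * (H - v) := mul_nonneg hKpos.le (by linarith)
      have e1 := hlow1 v a b hv' ha hb
      have e2 := hlow v a b hv' ha hb
      have e3 := (htau v hv').2
      have hlt' : Cc v a b + eps * (bar (lam * a + mu * b) + K * (H - v)) < G v0 a0 b0 := hlt
      have e4 : 0 ≤ eps * (K * (H - v)) := mul_nonneg heps.le e0
      have e5 : eps * (bar (lam * a + mu * b) + K * (H - v)) =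
        eps * bar (lam * a + mu * b) + eps * (K * (H - v)) := by ring
      have e6 : 0 ≤ eps * bar (lam * a + mu * b) := mul_nonneg heps.le hbarp.le
      have e7 : bar (lam * a + mu * b) < M := by
        rw [hM, lt_div_iff₀ heps]
        linarith
      have e8 : al * (Real.log (lam * a + mu * b) - (lam * Real.log a + mu * Real.log b)) <
          G v0 a0 b0 + t0 := by linarith
      have e9 : Real.log (lam * a + mu * b) - (lam * Real.log a + mu * Real.log b) < M' := by
        rw [hM', lt_div_iff₀ halp]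
        linarith
      have hRlow : δ / 2 ≤ lam * a + mu * b := by
        by_contra hcon
        push Not at hcon
        have : lam * a + mu * b ∈ Ioo (0:ℝ) δ := ⟨hR', by linarith⟩
        have := hδ' this
        simp only [mem_ofPred_eq] at this
        linarith
      have hRup : lam * a + mu * b ≤ r2 := by
        by_contra hcon
        push Not at hcon
        have := hr2 _ hcon.le
        linarith
      have hlogR : Real.log (δ / 2) ≤ Real.log (lam * a + mu * b) :=
        Real.log_le_log (by linarith) hRlow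
      have hla : Real.log lam + Real.log a ≤ Real.log (lam * a + mu * b) := by
        rw [← Real.log_mul hl.ne' ha.ne']
        exact Real.log_le_log (by positivity) (by have := mul_pos hmu hb; linarith)
      have hlb : Real.log mu + Real.log b ≤ Real.log (lam * a + mu * b) := by
        rw [← Real.log_mul hmu.ne' hb.ne']
        exact Real.log_le_log (by positivity) (by have := mul_pos hl ha; linarith)
      refine ⟨⟨?_, ?_⟩, ?_, ?_⟩
      · refine (min_le_left _ _).trans ?_
        rw [← Real.le_log_iff_exp_le ha, div_le_iff₀ hl]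
        have e10 := mul_le_mul_of_nonneg_left hlb hmu.le
        have e11 := mul_le_mul_of_nonneg_left hlogR hl.le
        have e12 : Real.log (lam * a + mu * b) = lam * Real.log (lam * a + mu * b) +
          mu * Real.log (lam * a + mu * b) := by rw [← add_mul, h1, one_mul]
        linarith
      · refine le_trans ?_ (le_max_left _ _)
        rw [le_div_iff₀ hl]
        have := mul_pos hmu hb
        linarith
      · refine (min_le_left _ _).trans ?_
        rw [← Real.le_log_iff_exp_le hb, div_le_iff₀ hmu]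
        have e10 := mul_le_mul_of_nonneg_left hla hl.le
        have e11 := mul_le_mul_of_nonneg_left hlogR hmu.le
        have e12 : Real.log (lam * a + mu * b) = lam * Real.log (lam * a + mu * b) +
          mu * Real.log (lam * a + mu * b) := by rw [← add_mul, h1, one_mul]
        linarith
      · refine le_trans ?_ (le_max_left _ _)
        rw [le_div_iff₀ hmu]
        have := mul_pos hl ha
        linarith
    have hcompact : IsCompact (Icc (0:ℝ) H ×ˢ (Icc a1 a2 ×ˢ Icc b1 b2)) :=
      isCompact_Icc.prod (isCompact_Icc.prod isCompact_Icc)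
    have hcontG : ContinuousOn (fun p : ℝ × (ℝ × ℝ) => G p.1 p.2.1 p.2.2)
        (Icc (0:ℝ) H ×ˢ (Icc a1 a2 ×ˢ Icc b1 b2)) := by
      intro p hp
      obtain ⟨hp1, hp2, hp3⟩ := hp
      have hpa : 0 < p.2.1 := lt_of_lt_of_le ha1pos hp2.1
      have hpb : 0 < p.2.2 := lt_of_lt_of_le hb1pos hp3.1
      have hpR := hRpos _ _ hpa hpb
      set S : Set (ℝ × (ℝ × ℝ)) := Icc (0:ℝ) H ×ˢ (Icc a1 a2 ×ˢ Icc b1 b2)
      have hRc : Continuous (fun p : ℝ × (ℝ × ℝ) => lam * p.2.1 + mu * p.2.2) := by fun_prop
      have c1 : ContinuousWithinAt (fun p : ℝ × (ℝ × ℝ) => Real.log (lam * p.2.1 + mu * p.2.2)) S p :=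
        (hRc.continuousAt.log hpR.ne').continuousWithinAt
      have c2 : ContinuousWithinAt (fun p : ℝ × (ℝ × ℝ) => Real.log p.2.1) S p :=
        ((by fun_prop : Continuous (fun p : ℝ × (ℝ × ℝ) => p.2.1)).continuousAt.log
          hpa.ne').continuousWithinAt
      have c3 : ContinuousWithinAt (fun p : ℝ × (ℝ × ℝ) => Real.log p.2.2) S p :=
        ((by fun_prop : Continuous (fun p : ℝ × (ℝ × ℝ) => p.2.2)).continuousAt.log
          hpb.ne').continuousWithinAt
      have c4 : ContinuousWithinAt (fun p : ℝ × (ℝ × ℝ) => f p.1 (lam * p.2.1 + mu * p.2.2)) S p := by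
        refine ContinuousWithinAt.comp (f := fun p : ℝ × (ℝ × ℝ) => (p.1, lam * p.2.1 + mu * p.2.2))
          (g := fun q : ℝ × ℝ => f q.1 q.2) (t := Ici 0 ×ˢ Ioi 0) ?_ ?_ ?_
        · exact hc _ ⟨hp1.1, hpR⟩
        · exact (by fun_prop : Continuous (fun p : ℝ × (ℝ × ℝ) =>
            (p.1, lam * p.2.1 + mu * p.2.2))).continuousWithinAt
        · intro q hq
          obtain ⟨hq1, hq2, hq3⟩ := hq
          exact ⟨hq1.1, hRpos _ _ (lt_of_lt_of_le ha1pos hq2.1) (lt_of_lt_of_le hb1pos hq3.1)⟩
      have c5 : ContinuousWithinAt (fun p : ℝ × (ℝ × ℝ) => f0 p.1 p.2.1) S p := by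
        refine ContinuousWithinAt.comp (f := fun p : ℝ × (ℝ × ℝ) => (p.1, p.2.1))
          (g := fun q : ℝ × ℝ => f0 q.1 q.2) (t := Ici 0 ×ˢ Ioi 0) ?_ ?_ ?_
        · exact hc0 _ ⟨hp1.1, hpa⟩
        · exact (by fun_prop : Continuous (fun p : ℝ × (ℝ × ℝ) =>
            (p.1, p.2.1))).continuousWithinAt
        · intro q hq
          obtain ⟨hq1, hq2, hq3⟩ := hq
          exact ⟨hq1.1, lt_of_lt_of_le ha1pos hq2.1⟩
      have c6 : ContinuousWithinAt (fun p : ℝ × (ℝ × ℝ) => f1 p.1 p.2.2) S p := by
        refine ContinuousWithinAt.comp (f := fun p : ℝ × (ℝ × ℝ) => (p.1, p.2.2))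
          (g := fun q : ℝ × ℝ => f1 q.1 q.2) (t := Ici 0 ×ˢ Ioi 0) ?_ ?_ ?_
        · exact hc1 _ ⟨hp1.1, hpb⟩
        · exact (by fun_prop : Continuous (fun p : ℝ × (ℝ × ℝ) =>
            (p.1, p.2.2))).continuousWithinAt
        · intro q hq
          obtain ⟨hq1, hq2, hq3⟩ := hq
          exact ⟨hq1.1, lt_of_lt_of_le hb1pos hq3.1⟩
      have c7 : ContinuousWithinAt (fun p : ℝ × (ℝ × ℝ) => bar (lam * p.2.1 + mu * p.2.2)) S p := by
        have h8 : ContinuousAt bar (lam * p.2.1 + mu * p.2.2) := (bar_deriv _ hpR).continuousAt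
        exact (ContinuousAt.comp (f := fun p : ℝ × (ℝ × ℝ) => lam * p.2.1 + mu * p.2.2) h8
          hRc.continuousAt).continuousWithinAt
      have c8 : ContinuousWithinAt (fun p : ℝ × (ℝ × ℝ) => p.1) S p :=
        continuous_fst.continuousWithinAt
      simp only [hG, hCc]
      exact (((continuousWithinAt_const.mul c1).add c4).sub
        ((continuousWithinAt_const.mul ((continuousWithinAt_const.mul c2).add c5)).add
          (continuousWithinAt_const.mul ((continuousWithinAt_const.mul c3).add c6)))).add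
        (continuousWithinAt_const.mul (c7.add
          (continuousWithinAt_const.mul (continuousWithinAt_const.sub c8))))
    have hin0 : ((v0, (a0, b0)) : ℝ × (ℝ × ℝ)) ∈ Icc (0:ℝ) H ×ˢ (Icc a1 a2 ×ˢ Icc b1 b2) :=
      ⟨⟨hvz, by linarith⟩, ⟨min_le_right _ _, le_max_right _ _⟩,
        ⟨min_le_right _ _, le_max_right _ _⟩⟩
    obtain ⟨⟨vs, as, bs⟩, hmem, hmin⟩ := hcompact.exists_isMinOn ⟨_, hin0⟩ hcontG
    have hvs0 : 0 ≤ vs := hmem.1.1
    have hvsH : vs ≤ H := hmem.1.2
    have has : 0 < as := lt_of_lt_of_le ha1pos hmem.2.1.1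
    have hbs : 0 < bs := lt_of_lt_of_le hb1pos hmem.2.2.1
    have hmin0 : G vs as bs ≤ G v0 a0 b0 := hmin hin0
    have hglob : ∀ v a b, 0 ≤ v → v ≤ H → 0 < a → 0 < b → G vs as bs ≤ G v a b := by
      intro v a b g1 g2 g3 g4
      by_cases hcase : G v a b < G v0 a0 b0
      · obtain ⟨⟨i1, i2⟩, i3, i4⟩ := hbox v a b g1 g2 g3 g4 hcase
        exact hmin (a := ((v, (a, b)) : ℝ × (ℝ × ℝ))) ⟨⟨g1, g2⟩, ⟨i1, i2⟩, ⟨i3, i4⟩⟩
      · exact hmin0.trans (not_lt.1 hcase)
    set Rs : ℝ := lam * as + mu * bs with hRs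
    have hRspos : 0 < Rs := hRpos as bs has hbs
    have hkey : -d ≤ G vs as bs := by
      have hbp : 0 < bar Rs := bar_pos Rs hRspos
      by_cases hcase : vs < H
      · exfalso
        obtain ⟨c2, hc2, hc2'⟩ := bar_deriv2 Rs hRspos
        set be : ℝ := (Rs ^ 2 - 1) / (Rs * (Rs ^ 2 + 1)) with hbe
        -- v direction
        have hvd : HasDerivAt (fun v => G v as bs)
            ((0 + fv vs Rs) - (lam * (0 + f0v vs as) + mu * (0 + f1v vs bs)) +
              eps * (0 + K * (-1))) vs := by
          refine HasDerivAt.add (HasDerivAt.sub ((hasDerivAt_const vs _).add (hv vs Rs hvs0 hRspos))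
            (HasDerivAt.add (HasDerivAt.const_mul lam ((hasDerivAt_const vs _).add
              (hv0 vs as hvs0 has))) (HasDerivAt.const_mul mu ((hasDerivAt_const vs _).add
              (hv1 vs bs hvs0 hbs))))) ?_
          refine HasDerivAt.const_mul eps ?_
          refine (hasDerivAt_const vs _).add ?_
          refine HasDerivAt.const_mul K ?_
          simpa using (hasDerivAt_id vs).const_sub H
        have q1 := M1_right (fun v => G v as bs) vs _ H hcase hvd
          (fun t ht => hglob t as bs (by linarith [ht.1]) ht.2.le has hbs)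
        -- a direction
        have hRa : HasDerivAt (fun a => lam * a + mu * bs) lam as := by
          simpa using ((hasDerivAt_id as).const_mul lam).add_const (mu * bs)
        have hRb : HasDerivAt (fun b => lam * as + mu * b) mu bs := by
          simpa using ((hasDerivAt_id bs).const_mul mu).const_add (lam * as)
        have hlogR : HasDerivAt Real.log Rs⁻¹ Rs := Real.hasDerivAt_log hRspos.ne'
        have hbarR : HasDerivAt bar be Rs := bar_deriv Rs hRspos
        have cpa : ∀ (φ : ℝ → ℝ) (φ' : ℝ), HasDerivAt φ φ' Rs →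
            HasDerivAt (fun a => φ (lam * a + mu * bs)) (φ' * lam) as := fun φ φ' hφ =>
          HasDerivAt.comp as hφ hRa
        have cpb : ∀ (φ : ℝ → ℝ) (φ' : ℝ), HasDerivAt φ φ' Rs →
            HasDerivAt (fun b => φ (lam * as + mu * b)) (φ' * mu) bs := fun φ φ' hφ =>
          HasDerivAt.comp bs hφ hRb
        have had : HasDerivAt (fun a => G vs a bs)
            ((al * (Rs⁻¹ * lam) + fR vs Rs * lam) - (lam * (al * as⁻¹ + f0R vs as) + 0) +
              eps * (be * lam + 0)) as := by
          refine HasDerivAt.add (HasDerivAt.sub (HasDerivAt.add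
            (HasDerivAt.const_mul al (cpa Real.log _ hlogR)) ?_)
            (HasDerivAt.add (HasDerivAt.const_mul lam (HasDerivAt.add
              (HasDerivAt.const_mul al (Real.hasDerivAt_log has.ne')) (hR0 vs as hvs0 has)))
              (hasDerivAt_const as _))) ?_
          · exact cpa (fun R => f vs R) _ (hR vs Rs hvs0 hRspos)
          · refine HasDerivAt.const_mul eps (HasDerivAt.add ?_ (hasDerivAt_const as _))
            exact cpa bar _ hbarR
        have hbd : HasDerivAt (fun b => G vs as b)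
            ((al * (Rs⁻¹ * mu) + fR vs Rs * mu) - (0 + mu * (al * bs⁻¹ + f1R vs bs)) +
              eps * (be * mu + 0)) bs := by
          refine HasDerivAt.add (HasDerivAt.sub (HasDerivAt.add
            (HasDerivAt.const_mul al (cpb Real.log _ hlogR)) ?_)
            (HasDerivAt.add (hasDerivAt_const bs _) (HasDerivAt.const_mul mu (HasDerivAt.add
              (HasDerivAt.const_mul al (Real.hasDerivAt_log hbs.ne')) (hR1 vs bs hvs0 hbs))))) ?_
          · exact cpb (fun R => f vs R) _ (hR vs Rs hvs0 hRspos)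
          · refine HasDerivAt.const_mul eps (HasDerivAt.add ?_ (hasDerivAt_const bs _))
            exact cpb bar _ hbarR
        have hla : IsLocalMin (fun a => G vs a bs) as := by
          filter_upwards [Ioi_mem_nhds has] with a ha
          exact hglob vs a bs hvs0 hvsH ha hbs
        have hlb : IsLocalMin (fun b => G vs as b) bs := by
          filter_upwards [Ioi_mem_nhds hbs] with b hb
          exact hglob vs as b hvs0 hvsH has hb
        have q2 := hla.hasDerivAt_eq_zero had
        have q3 := hlb.hasDerivAt_eq_zero hbd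
        -- diagonal direction
        have hm1 : 0 < min as bs := lt_min has hbs
        have hGt : (fun t => G vs (as + t) (bs + t)) = fun t =>
            (al * Real.log (Rs + t) + f vs (Rs + t)) -
            (lam * (al * Real.log (as + t) + f0 vs (as + t)) +
              mu * (al * Real.log (bs + t) + f1 vs (bs + t))) +
            eps * (bar (Rs + t) + K * (H - vs)) := by
          funext t
          have : lam * (as + t) + mu * (bs + t) = Rs + t := by
            rw [hRs]; linear_combination t * h1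
          simp only [hG, hCc, this]
        have shift : ∀ (c t : ℝ), HasDerivAt (fun t => c + t) 1 t := fun c t => by
          simpa using (hasDerivAt_id t).const_add c
        have htd : ∀ t ∈ Ioo (0 - min as bs) (0 + min as bs),
            HasDerivAt (fun t => G vs (as + t) (bs + t))
              ((fun t => (al * (Rs + t)⁻¹ + fR vs (Rs + t)) -
                (lam * (al * (as + t)⁻¹ + f0R vs (as + t)) +
                  mu * (al * (bs + t)⁻¹ + f1R vs (bs + t))) +
                eps * (((Rs + t) ^ 2 - 1) / ((Rs + t) * ((Rs + t) ^ 2 + 1)))) t) t := by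
          intro t ht
          have hta : 0 < as + t := by
            have := ht.1; have := min_le_left as bs; linarith
          have htb : 0 < bs + t := by
            have := ht.1; have := min_le_right as bs; linarith
          have htR : 0 < Rs + t := by
            have : lam * (as + t) + mu * (bs + t) = Rs + t := by
              rw [hRs]; linear_combination t * h1
            rw [← this]
            exact hRpos _ _ hta htb
          rw [hGt]
          have sh : ∀ (φ : ℝ → ℝ) (φ' c : ℝ), HasDerivAt φ φ' (c + t) →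
              HasDerivAt (fun t => φ (c + t)) φ' t := by
            intro φ φ' c hφ
            have := HasDerivAt.comp t hφ (shift c t)
            rw [mul_one] at this
            exact this
          simp only
          refine HasDerivAt.add (HasDerivAt.sub (HasDerivAt.add
            (HasDerivAt.const_mul al (sh Real.log _ Rs (Real.hasDerivAt_log htR.ne')))
            (sh (fun R => f vs R) _ Rs (hR vs _ hvs0 htR)))
            (HasDerivAt.add (HasDerivAt.const_mul lam (HasDerivAt.add
              (HasDerivAt.const_mul al (sh Real.log _ as (Real.hasDerivAt_log hta.ne')))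
              (sh (fun R => f0 vs R) _ as (hR0 vs _ hvs0 hta))))
              (HasDerivAt.const_mul mu (HasDerivAt.add
              (HasDerivAt.const_mul al (sh Real.log _ bs (Real.hasDerivAt_log htb.ne')))
              (sh (fun R => f1 vs R) _ bs (hR1 vs _ hvs0 htb)))))) ?_
          refine HasDerivAt.const_mul eps ?_
          have := (sh bar _ Rs (bar_deriv _ htR)).add_const (K * (H - vs))
          exact this
        have htt : HasDerivAt (fun t => (al * (Rs + t)⁻¹ + fR vs (Rs + t)) -
                (lam * (al * (as + t)⁻¹ + f0R vs (as + t)) +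
                  mu * (al * (bs + t)⁻¹ + f1R vs (bs + t))) +
                eps * (((Rs + t) ^ 2 - 1) / ((Rs + t) * ((Rs + t) ^ 2 + 1))))
              ((al * (-(Rs ^ 2)⁻¹) + fRR vs Rs) -
                (lam * (al * (-(as ^ 2)⁻¹) + f0RR vs as) +
                  mu * (al * (-(bs ^ 2)⁻¹) + f1RR vs bs)) + eps * c2) 0 := by
          have sh : ∀ (φ : ℝ → ℝ) (φ' c : ℝ), HasDerivAt φ φ' c →
              HasDerivAt (fun t => φ (c + t)) φ' 0 := by
            intro φ φ' c hφ
            have hφ' : HasDerivAt φ φ' (c + 0) := by rw [add_zero]; exact hφ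
            have := HasDerivAt.comp (0:ℝ) hφ' (shift c 0)
            rw [mul_one] at this
            exact this
          exact HasDerivAt.add (HasDerivAt.sub (HasDerivAt.add
            (HasDerivAt.const_mul al (sh (fun x => x⁻¹) _ Rs (hasDerivAt_inv hRspos.ne')))
            (sh (fun R => fR vs R) _ Rs (hRR vs _ hvs0 hRspos)))
            (HasDerivAt.add (HasDerivAt.const_mul lam (HasDerivAt.add
              (HasDerivAt.const_mul al (sh (fun x => x⁻¹) _ as (hasDerivAt_inv has.ne')))
              (sh (fun R => f0R vs R) _ as (hRR0 vs _ hvs0 has))))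
              (HasDerivAt.const_mul mu (HasDerivAt.add
              (HasDerivAt.const_mul al (sh (fun x => x⁻¹) _ bs (hasDerivAt_inv hbs.ne')))
              (sh (fun R => f1R vs R) _ bs (hRR1 vs _ hvs0 hbs))))))
            (HasDerivAt.const_mul eps
              (sh (fun R => (R ^ 2 - 1) / (R * (R ^ 2 + 1))) c2 Rs hc2))
        have hlt : IsLocalMin (fun t => G vs (as + t) (bs + t)) 0 := by
          filter_upwards [Ioo_mem_nhds (show -min as bs < 0 by linarith) hm1] with t ht
          simp only [add_zero]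
          exact hglob vs (as + t) (bs + t) hvs0 hvsH
            (by have := ht.1; have := min_le_left as bs; linarith)
            (by have := ht.1; have := min_le_right as bs; linarith)
        obtain ⟨-, q4⟩ := min_second _ _ 0 _ _ hm1 htd htt hlt
        -- algebra
        have p1 := hpde vs Rs hvs0 hRspos
        have p2 := hpde0 vs as hvs0 has
        have p3 := hpde1 vs bs hvs0 hbs
        have p4 := hconv vs as bs hvs0 has hbs
        rw [← hRs] at p4
        have w1 : al / as + f0R vs as = (al / Rs + fR vs Rs) + eps * be := by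
          have : lam * ((al / as + f0R vs as) - ((al / Rs + fR vs Rs) + eps * be)) = 0 := by
            simp only [div_eq_mul_inv]
            linarith
          rcases mul_eq_zero.1 this with h | h
          · exact absurd h hl.ne'
          · linarith
        have w2 : al / bs + f1R vs bs = (al / Rs + fR vs Rs) + eps * be := by
          have : mu * ((al / bs + f1R vs bs) - ((al / Rs + fR vs Rs) + eps * be)) = 0 := by
            simp only [div_eq_mul_inv]
            linarith
          rcases mul_eq_zero.1 this with h | h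
          · exact absurd h hmu.ne'
          · linarith
        rw [w1] at p2
        rw [w2] at p3
        have w3 : 0 ≤ (fRR vs Rs - al / Rs ^ 2) - (lam * (f0RR vs as - al / as ^ 2) +
            mu * (f1RR vs bs - al / bs ^ 2)) + eps * c2 := by
          simp only [div_eq_mul_inv]
          linarith
        set A : ℝ := al / Rs + fR vs Rs with hA
        have w4 : eps * K ≤ eps * c2 + (A + eps * be) ^ 2 - A ^ 2 := by
          have r1 : lam * -f0v vs as = lam * (f0RR vs as - al / as ^ 2 + (A + eps * be) ^ 2 -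
            U0 vs as) := congrArg (fun z => lam * z) p2
          have r2 : mu * -f1v vs bs = mu * (f1RR vs bs - al / bs ^ 2 + (A + eps * be) ^ 2 -
            U1 vs bs) := congrArg (fun z => mu * z) p3
          have r3 : lam * (A + eps * be) ^ 2 + mu * (A + eps * be) ^ 2 = (A + eps * be) ^ 2 := by
            rw [← add_mul, h1, one_mul]
          linarith
        have w5 : K ≤ c2 + 2 * A * be + eps * be ^ 2 := by
          have : eps * K ≤ eps * (c2 + 2 * A * be + eps * be ^ 2) := by
            linarith [w4, (by ring : eps * (c2 + 2 * A * be + eps * be ^ 2) =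
              eps * c2 + (A + eps * be) ^ 2 - A ^ 2)]
          exact le_of_mul_le_mul_left this heps
        have w6 := M2_bar al hal Rs c2 eps hRspos hc2' heps1
        rw [← hbe] at w6
        have w7 : 2 * fR vs Rs * be ≤ 2 * C := by
          have t1 := hgrad vs Rs hvs0 hRspos
          have t2 := M2_beta Rs hRspos
          rw [← hbe] at t2
          have t3 : |fR vs Rs * be| ≤ C * Rs * (1 / Rs) := by
            rw [abs_mul]
            exact mul_le_mul t1 t2 (abs_nonneg _) (by positivity)
          have t4 : C * Rs * (1 / Rs) = C := by field_simp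
          rw [t4] at t3
          have t5 := le_abs_self (fR vs Rs * be)
          linarith
        have w8 : 2 * A * be = 2 * al / Rs * be + 2 * fR vs Rs * be := by
          rw [hA]; ring
        rw [w8] at w5
        rw [hK] at w5
        linarith
      · have hvH : vs = H := le_antisymm hvsH (not_lt.1 hcase)
        have g1 := hH0 H hH1
        have g2 := hlow1 vs as bs hvs0 has hbs
        show -d ≤ Cc vs as bs + eps * (bar (lam * as + mu * bs) + K * (H - vs))
        rw [← hRs, hvH, sub_self, mul_zero, add_zero]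
        rw [hvH] at g2
        have : 0 ≤ eps * bar Rs := by positivity
        linarith
    exact hkey.trans hmin0
  have hb0' := bar_pos Rz hRzpos
  have hQ : 0 < bar Rz + K * (H - v0) := by
    have : 0 < H - v0 := by linarith
    positivity
  set Q : ℝ := bar Rz + K * (H - v0) with hQdef
  have h2 := claim (min 1 (d / (2 * Q))) (lt_min one_pos (by positivity)) (min_le_left _ _)
  have h3 : min 1 (d / (2 * Q)) * Q ≤ d / 2 := by
    have : min 1 (d / (2 * Q)) * Q ≤ d / (2 * Q) * Q :=
      mul_le_mul_of_nonneg_right (min_le_right _ _) hQ.le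
    have h4 : d / (2 * Q) * Q = d / 2 := by field_simp
    linarith
  have h5 : Cc v0 a0 b0 = -2 * d := by rw [hd]; ring
  rw [h5] at h2
  linarith

end LPPEnd
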