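import Mathlib

/-!
# Up-right paths, their weights, and the end point of a maximising path (MP_267da7_pr)

An (infinite) up-right lattice path `p` starts at `(1,1)` and each step adds `(1,0)` or `(0,1)`.  Its point number `i` (counted from `0`) is on the line
`x + y = i + 2`; so its first `2n-1` points (numbers `0, ..., 2n-2`) form an up-right path from `(1,1)` to the line `x + y = 2n`, and every finite up-right
path from `(1,1)` to this line arises in this way.
-/

namespace LPPEnd

/-- (infinite) up-right lattice path started at `(1,1)`. -/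
def IsPath (p : ℕ → ℕ+ × ℕ+) : Prop :=
  p 0 = (1, 1) ∧ ∀ i, p (i + 1) = ((p i).1 + 1, (p i).2) ∨ p (i + 1) = ((p i).1, (p i).2 + 1)

/-- the weight of the first `2n-1` points of the path (the part from `(1,1)` to the line `x+y=2n`). -/
noncomputable def weight (n : ℕ) (x : ℕ+ × ℕ+ → ℝ) (p : ℕ → ℕ+ × ℕ+) : ℝ :=
  ∑ i ∈ Finset.range (2 * n - 1), x (p i)

/-- some maximising path from `(1,1)` to the line `x+y=2n` ends at the point `(k, 2n-k)`. -/
def EndsAt (n k : ℕ) (x : ℕ+ × ℕ+ → ℝ) : Prop :=
  ∃ p, IsPath p ∧ ((p (2 * n - 2)).1 : ℕ) = k ∧ ∀ q, IsPath q → weight n x q ≤ weight n x p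

end LPPEnd
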