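import Pool.Agent.Lib.MP_267da7_pr.Defs
import Pool.Agent.Lib.MP_267da7_pr.Paths

/-!
# P1: paths and last passage values; scaling
-/

open Real MeasureTheory Set Filter
open scoped Topology

namespace LPPEnd

/-- 0-based weights -/
def cellx (x : ℕ+ × ℕ+ → ℝ) : ℕ → ℕ → ℝ := fun i j => x (i.succPNat, j.succPNat)

theorem path_sum (p : ℕ → ℕ+ × ℕ+) (hp : IsPath p) (l : ℕ) :
    ((p l).1 : ℕ) + ((p l).2 : ℕ) = l + 2 := by
  induction l with
  | zero =>
    rw [hp.1]
    rfl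
  | succ l ih =>
    rcases hp.2 l with h | h
    · rw [h]
      have h1 : (((p l).1 + 1 : ℕ+) : ℕ) = (p l).1 + 1 := PNat.add_coe _ _
      change (((p l).1 + 1 : ℕ+) : ℕ) + ((p l).2 : ℕ) = l + 1 + 2
      omega
    · rw [h]
      have h1 : (((p l).2 + 1 : ℕ+) : ℕ) = (p l).2 + 1 := PNat.add_coe _ _
      change ((p l).1 : ℕ) + (((p l).2 + 1 : ℕ+) : ℕ) = l + 1 + 2
      omega

private lemma P1_succ (n : ℕ) : (n + 1).succPNat = n.succPNat + 1 := rfl

private lemma P1_pair (z : ℕ+ × ℕ+) {i j : ℕ} (hi : (z.1 : ℕ) = i + 1) (hj : (z.2 : ℕ) = j + 1) :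
    z = (i.succPNat, j.succPNat) := by
  apply Prod.ext
  · exact PNat.eq (by rw [hi]; rfl)
  · exact PNat.eq (by rw [hj]; rfl)

private lemma P1_pred (p : ℕ → ℕ+ × ℕ+) (hp : IsPath p) (m a b : ℕ)
    (h : p (m + 1) = (a.succPNat, b.succPNat)) :
    (∃ a', a = a' + 1 ∧ p m = (a'.succPNat, b.succPNat)) ∨
      (∃ b', b = b' + 1 ∧ p m = (a.succPNat, b'.succPNat)) := by
  have ha : ((a.succPNat : ℕ+) : ℕ) = a + 1 := rfl
  have hb : ((b.succPNat : ℕ+) : ℕ) = b + 1 := rfl
  have p1 := (p m).1.pos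
  have p2 := (p m).2.pos
  rcases hp.2 m with h1 | h1
  · left
    rw [h] at h1
    have h2 : a.succPNat = (p m).1 + 1 := congrArg Prod.fst h1
    have h3 : b.succPNat = (p m).2 := congrArg Prod.snd h1
    have h4 : ((p m).1 : ℕ) + 1 = a + 1 := by
      rw [← ha, h2, PNat.add_coe]
      rfl
    refine ⟨a - 1, by omega, P1_pair _ (by omega) (by rw [← h3]; rfl)⟩
  · right
    rw [h] at h1
    have h2 : a.succPNat = (p m).1 := congrArg Prod.fst h1
    have h3 : b.succPNat = (p m).2 + 1 := congrArg Prod.snd h1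
    have h4 : ((p m).2 : ℕ) + 1 = b + 1 := by
      rw [← hb, h3, PNat.add_coe]
      rfl
    refine ⟨b - 1, by omega, P1_pair _ (by rw [← h2]; rfl) (by omega)⟩

theorem path_le (x : ℕ+ × ℕ+ → ℝ) (p : ℕ → ℕ+ × ℕ+) (hp : IsPath p) (i j : ℕ)
    (h : p (i + j) = (i.succPNat, j.succPNat)) :
    ∑ l ∈ Finset.range (i + j + 1), x (p l) ≤ L (cellx x) i j := by
  suffices H : ∀ m i j : ℕ, i + j = m → p (i + j) = (i.succPNat, j.succPNat) →
      ∑ l ∈ Finset.range (i + j + 1), x (p l) ≤ L (cellx x) i j from H _ i j rfl h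
  intro m
  induction m with
  | zero =>
    intro i j hij h
    obtain rfl : i = 0 := by omega
    obtain rfl : j = 0 := by omega
    rw [show (0 : ℕ) + 0 + 1 = 1 from rfl, Finset.sum_range_one, L]
    rw [show (0 : ℕ) + 0 = 0 from rfl] at h
    rw [h]
    exact le_rfl
  | succ m ih =>
    intro i j hij h
    rw [Finset.sum_range_succ, h]
    rw [hij] at h
    rcases P1_pred p hp m i j h with ⟨a', rfl, h1⟩ | ⟨b', rfl, h1⟩
    · have h2 : a' + j = m := by omega
      have h3 := ih a' j h2 (by rw [h2]; exact h1)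
      rw [show a' + 1 + j = a' + j + 1 by omega]
      cases j with
      | zero =>
        rw [L]
        have : cellx x (a' + 1) 0 = x ((a' + 1).succPNat, (0 : ℕ).succPNat) := rfl
        linarith
      | succ j =>
        rw [L]
        have : cellx x (a' + 1) (j + 1) = x ((a' + 1).succPNat, (j + 1).succPNat) := rfl
        have h4 := le_max_left (L (cellx x) a' (j + 1)) (L (cellx x) (a' + 1) j)
        linarith
    · have h2 : i + b' = m := by omega
      have h3 := ih i b' h2 (by rw [h2]; exact h1)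
      rw [show i + (b' + 1) = i + b' + 1 by omega]
      cases i with
      | zero =>
        rw [L]
        have : cellx x 0 (b' + 1) = x ((0 : ℕ).succPNat, (b' + 1).succPNat) := rfl
        linarith
      | succ i =>
        rw [L]
        have : cellx x (i + 1) (b' + 1) = x ((i + 1).succPNat, (b' + 1).succPNat) := rfl
        have h4 := le_max_right (L (cellx x) i (b' + 1)) (L (cellx x) (i + 1) b')
        linarith

private lemma P1_ext (p : ℕ → ℕ+ × ℕ+) (hp : IsPath p) (m : ℕ) (z : ℕ+ × ℕ+)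
    (hz : z = ((p m).1 + 1, (p m).2) ∨ z = ((p m).1, (p m).2 + 1)) :
    ∃ q, IsPath q ∧ (∀ l ≤ m, q l = p l) ∧ q (m + 1) = z := by
  refine ⟨fun l => if l ≤ m then p l else
    (Nat.succPNat (z.1.natPred + (l - (m + 1))), z.2), ⟨?_, ?_⟩, ?_, ?_⟩
  · simp only [Nat.zero_le, if_true]
    exact hp.1
  · intro i
    rcases lt_trichotomy i m with h | h | h
    · simp only [show i + 1 ≤ m by omega, show i ≤ m by omega, if_true]
      exact hp.2 i
    · subst h
      simp only [show ¬ (i + 1 ≤ i) by omega, le_refl, if_true, if_false, Nat.sub_self,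
        Nat.add_zero, PNat.succPNat_natPred]
      exact hz
    · left
      simp only [show ¬ (i + 1 ≤ m) by omega, show ¬ (i ≤ m) by omega, if_false]
      rw [show z.1.natPred + (i + 1 - (m + 1)) = z.1.natPred + (i - (m + 1)) + 1 by omega,
        P1_succ]
  · intro l hl
    simp only [hl, if_true]
  · simp only [show ¬ (m + 1 ≤ m) by omega, if_false, Nat.sub_self, Nat.add_zero,
      PNat.succPNat_natPred]

private lemma P1_step (x : ℕ+ × ℕ+ → ℝ) (p q : ℕ → ℕ+ × ℕ+) (m : ℕ) (z : ℕ+ × ℕ+)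
    (h : ∀ l ≤ m, q l = p l) (hz : q (m + 1) = z) :
    ∑ l ∈ Finset.range (m + 1 + 1), x (q l) = x z + ∑ l ∈ Finset.range (m + 1), x (p l) := by
  rw [Finset.sum_range_succ, hz, add_comm]
  congr 1
  refine Finset.sum_congr rfl fun l hl => ?_
  rw [h l (by have := Finset.mem_range.mp hl; omega)]

theorem path_exists (x : ℕ+ × ℕ+ → ℝ) (i j : ℕ) :
    ∃ p, IsPath p ∧ p (i + j) = (i.succPNat, j.succPNat) ∧
      ∑ l ∈ Finset.range (i + j + 1), x (p l) = L (cellx x) i j := by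
  suffices H : ∀ m i j : ℕ, i + j = m → ∃ p, IsPath p ∧ p (i + j) = (i.succPNat, j.succPNat) ∧
      ∑ l ∈ Finset.range (i + j + 1), x (p l) = L (cellx x) i j from H _ i j rfl
  intro m
  induction m with
  | zero =>
    intro i j hij
    obtain rfl : i = 0 := by omega
    obtain rfl : j = 0 := by omega
    refine ⟨fun l => (l.succPNat, 1), ⟨rfl, fun i => Or.inl rfl⟩, rfl, ?_⟩
    rw [show (0 : ℕ) + 0 + 1 = 1 from rfl, Finset.sum_range_one, L]
    rfl
  | succ m ih =>
    have hR : ∀ i j : ℕ, i + j = m → ∃ p, IsPath p ∧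
        p (i + 1 + j) = ((i + 1).succPNat, j.succPNat) ∧
        ∑ l ∈ Finset.range (i + 1 + j + 1), x (p l) =
          cellx x (i + 1) j + L (cellx x) i j := by
      intro i j hij
      obtain ⟨p, hp, h1, h2⟩ := ih i j hij
      obtain ⟨q, hq, h3, h4⟩ := P1_ext p hp (i + j) ((i + 1).succPNat, j.succPNat)
        (Or.inl (by rw [h1, P1_succ]))
      rw [show i + 1 + j = i + j + 1 by omega]
      refine ⟨q, hq, h4, ?_⟩
      rw [P1_step x p q (i + j) _ h3 h4, h2]
      rfl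
    have hU : ∀ i j : ℕ, i + j = m → ∃ p, IsPath p ∧
        p (i + (j + 1)) = (i.succPNat, (j + 1).succPNat) ∧
        ∑ l ∈ Finset.range (i + (j + 1) + 1), x (p l) =
          cellx x i (j + 1) + L (cellx x) i j := by
      intro i j hij
      obtain ⟨p, hp, h1, h2⟩ := ih i j hij
      obtain ⟨q, hq, h3, h4⟩ := P1_ext p hp (i + j) (i.succPNat, (j + 1).succPNat)
        (Or.inr (by rw [h1, P1_succ]))
      rw [show i + (j + 1) = i + j + 1 by omega]
      refine ⟨q, hq, h4, ?_⟩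
      rw [P1_step x p q (i + j) _ h3 h4, h2]
      rfl
    intro i j hij
    rcases i with _ | i
    · rcases j with _ | j
      · omega
      · obtain ⟨p, hp, h1, h2⟩ := hU 0 j (by omega)
        exact ⟨p, hp, h1, by rw [h2, L]⟩
    · rcases j with _ | j
      · obtain ⟨p, hp, h1, h2⟩ := hR i 0 (by omega)
        exact ⟨p, hp, h1, by rw [h2, L]⟩
      · rcases le_total (L (cellx x) i (j + 1)) (L (cellx x) (i + 1) j) with hle | hle
        · obtain ⟨p, hp, h1, h2⟩ := hU (i + 1) j (by omega)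
          exact ⟨p, hp, h1, by rw [h2, L, max_eq_right hle]⟩
        · obtain ⟨p, hp, h1, h2⟩ := hR i (j + 1) (by omega)
          exact ⟨p, hp, h1, by rw [h2, L, max_eq_left hle]⟩

private lemma P1_ends (n : ℕ) (hn : 1 ≤ n) (p : ℕ → ℕ+ × ℕ+) (hp : IsPath p) :
    1 ≤ ((p (2 * n - 2)).1 : ℕ) ∧ ((p (2 * n - 2)).1 : ℕ) ≤ 2 * n - 1 ∧
      p (2 * n - 2) = ((((p (2 * n - 2)).1 : ℕ) - 1).succPNat,
        (2 * n - 1 - ((p (2 * n - 2)).1 : ℕ)).succPNat) := by
  have h := path_sum p hp (2 * n - 2)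
  have p1 := (p (2 * n - 2)).1.pos
  have p2 := (p (2 * n - 2)).2.pos
  exact ⟨p1, by omega, P1_pair _ (by omega) (by omega)⟩

theorem EndsAt_iff (n k : ℕ) (hn : 1 ≤ n) (x : ℕ+ × ℕ+ → ℝ) :
    EndsAt n k x ↔ 1 ≤ k ∧ k ≤ 2 * n - 1 ∧ ∀ i, i < 2 * n - 1 →
      L (cellx x) i (2 * n - 2 - i) ≤ L (cellx x) (k - 1) (2 * n - 1 - k) := by
  constructor
  · rintro ⟨p, hp, hk, hmax⟩
    obtain ⟨h1, h2, h3⟩ := P1_ends n hn p hp
    rw [hk] at h1 h2 h3
    refine ⟨h1, h2, fun i hi => ?_⟩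
    obtain ⟨q, hq, h4, h5⟩ := path_exists x i (2 * n - 2 - i)
    have h6 : i + (2 * n - 2 - i) + 1 = 2 * n - 1 := by omega
    have h7 : k - 1 + (2 * n - 1 - k) = 2 * n - 2 := by omega
    have h8 : k - 1 + (2 * n - 1 - k) + 1 = 2 * n - 1 := by omega
    have h9 := path_le x p hp (k - 1) (2 * n - 1 - k) (by rw [h7]; exact h3)
    have h10 := hmax q hq
    unfold weight at h10
    rw [h6] at h5
    rw [h8] at h9
    linarith
  · rintro ⟨h1, h2, h3⟩
    obtain ⟨p, hp, h4, h5⟩ := path_exists x (k - 1) (2 * n - 1 - k)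
    have h7 : k - 1 + (2 * n - 1 - k) = 2 * n - 2 := by omega
    have h8 : k - 1 + (2 * n - 1 - k) + 1 = 2 * n - 1 := by omega
    rw [h7] at h4
    rw [h8] at h5
    refine ⟨p, hp, ?_, ?_⟩
    · rw [h4]
      change k - 1 + 1 = k
      omega
    · intro q hq
      obtain ⟨g1, g2, g3⟩ := P1_ends n hn q hq
      set i : ℕ := ((q (2 * n - 2)).1 : ℕ) - 1 with hi
      have g4 : 2 * n - 1 - ((q (2 * n - 2)).1 : ℕ) = 2 * n - 2 - i := by omega
      rw [g4] at g3
      have g5 : i + (2 * n - 2 - i) = 2 * n - 2 := by omega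
      have g6 : i + (2 * n - 2 - i) + 1 = 2 * n - 1 := by omega
      have g7 := path_le x q hq i (2 * n - 2 - i) (by rw [g5]; exact g3)
      rw [g6] at g7
      have g8 := h3 i (by omega)
      unfold weight
      rw [h5]
      exact g7.trans g8

private lemma P1_weight (n : ℕ) (x : ℕ+ × ℕ+ → ℝ) (r : ℝ) (p : ℕ → ℕ+ × ℕ+) :
    weight n (fun z => r * x z) p = r * weight n x p := by
  unfold weight
  rw [Finset.mul_sum]

theorem EndsAt_scale (n k : ℕ) (x : ℕ+ × ℕ+ → ℝ) (r : ℝ) (hr : 0 < r) :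
    EndsAt n k x ↔ EndsAt n k (fun z => r * x z) := by
  have h : ∀ p q : ℕ → ℕ+ × ℕ+, weight n x q ≤ weight n x p ↔
      weight n (fun z => r * x z) q ≤ weight n (fun z => r * x z) p := by
    intro p q
    rw [P1_weight, P1_weight]
    exact (mul_le_mul_iff_right₀ hr).symm
  constructor
  · rintro ⟨p, hp, hk, hm⟩
    exact ⟨p, hp, hk, fun q hq => (h p q).1 (hm q hq)⟩
  · rintro ⟨p, hp, hk, hm⟩
    exact ⟨p, hp, hk, fun q hq => (h p q).2 (hm q hq)⟩

end LPPEnd
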