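import Pool.Agent.Lib.MP_267da7_pr.P1
import Pool.Agent.Lib.MP_267da7_pr.G3

/-!
# P2: reduction to rate one and 0-based cells

`W1 W r (i,j) = r * W (i+1, j+1)`.  Independence: `iIndepFun.precomp` for the injective map `(i,j) -> (i.succPNat, j.succPNat)` and composition with the
measurable function `r * ·` (`iIndepFun.comp`).  Law: the image of `expMeasure r` under `y -> r y` is `expMeasure 1` (compare distribution functions,
`cdf_expMeasure_eq`, or `exists` in Mathlib).  `cellx (fun z => r * W z om) = xW (W1 W r) om` (`rfl`).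
-/

open Real MeasureTheory Set Filter
open scoped Topology

namespace LPPEnd

/-- rescaled 0-based weights -/
noncomputable def W1 {Om' : Type*} (W : ℕ+ × ℕ+ → Om' → ℝ) (r : ℝ) : ℕ × ℕ → Om' → ℝ :=
  fun z ω => r * W (z.1.succPNat, z.2.succPNat) ω

/-- the image of the exponential law of rate `r` under `y -> r y` is the law of rate one. -/
theorem P2_map_exp (r : ℝ) (hr : 0 < r) :
    (ProbabilityTheory.expMeasure r).map (fun y => r * y) = ProbabilityTheory.expMeasure 1 := by
  have := ProbabilityTheory.isProbabilityMeasure_expMeasure hr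
  have := ProbabilityTheory.isProbabilityMeasure_expMeasure one_pos
  have hmeas : Measurable fun y : ℝ => r * y := measurable_const_mul r
  have : IsProbabilityMeasure ((ProbabilityTheory.expMeasure r).map fun y => r * y) :=
    Measure.isProbabilityMeasure_map hmeas.aemeasurable
  refine Measure.eq_of_cdf _ _ ?_
  ext x
  rw [ProbabilityTheory.cdf_expMeasure_eq one_pos, ProbabilityTheory.cdf_eq_real,
    map_measureReal_apply hmeas measurableSet_Iic]
  have hset : (fun y : ℝ => r * y) ⁻¹' Iic x = Iic (x / r) := by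
    ext y
    simp only [mem_preimage, mem_Iic]
    rw [le_div_iff₀ hr, mul_comm]
  rw [hset, ← ProbabilityTheory.cdf_eq_real, ProbabilityTheory.cdf_expMeasure_eq hr]
  by_cases hx : 0 ≤ x
  · rw [if_pos hx, if_pos (div_nonneg hx hr.le)]
    congr 2
    field_simp
  · rw [if_neg hx, if_neg]
    intro h
    exact hx (by
      have := mul_nonneg h hr.le
      rwa [div_mul_cancel₀ _ hr.ne'] at this)

variable {Om' : Type*} [MeasurableSpace Om'] (P : Measure Om') [IsProbabilityMeasure P]
  (W : ℕ+ × ℕ+ → Om' → ℝ)

theorem W1_spec (r : ℝ) (hr : 0 < r) (hm : ∀ z, Measurable (W z))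
    (hind : ProbabilityTheory.iIndepFun W P)
    (hlaw : ∀ z, P.map (W z) = ProbabilityTheory.expMeasure r) :
    (∀ z, Measurable (W1 W r z)) ∧ ProbabilityTheory.iIndepFun (W1 W r) P ∧
      ∀ z, P.map (W1 W r z) = ProbabilityTheory.expMeasure 1 := by
  have hinj : Function.Injective fun z : ℕ × ℕ => ((z.1.succPNat, z.2.succPNat) : ℕ+ × ℕ+) := by
    intro a b h
    have h1 := congrArg Prod.fst h
    have h2 := congrArg Prod.snd h
    exact Prod.ext (Nat.succPNat_injective h1) (Nat.succPNat_injective h2)
  refine ⟨fun z => (hm _).const_mul r, ?_, fun z => ?_⟩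
  · exact (hind.precomp hinj).comp (fun _ y => r * y) fun _ => measurable_const_mul r
  · have h : W1 W r z = (fun y => r * y) ∘ W (z.1.succPNat, z.2.succPNat) := rfl
    rw [h, ← Measure.map_map (measurable_const_mul r) (hm _), hlaw, P2_map_exp r hr]

theorem W1_cell (r : ℝ) (ω : Om') :
    cellx (fun z => r * W z ω) = xW (W1 W r) ω := rfl

end LPPEnd
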