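import Pool.Agent.Lib.MP_267da7_pr.Defs
import Pool.Agent.Lib.MP_267da7_pr.H76c

/-!
# T0: two one-sided comparison tools on `(0, oo)`

`tool0`: `f` is nondecreasing on `(0,oo)` (derivative `>= 0`), so `f m >= lim_(0+) f`.

`tool1`: suppose `f m1 < 0` for some `m1 > 0`.  Let `S = {m in (0,m1] : f m >= 0}`.
If `S` is empty then `f < 0` on `(0,m1]`, hence `f' >= 0` there, `f` is nondecreasing on `(0,m1]` and
`0 <= l = lim f <= f m1 < 0`.  If `S` is nonempty let `a = sSup S`; by continuity `f a >= 0` (so `a < m1`), and `f < 0` on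
`(a, m1]`; so `f` is nondecreasing on `[a,m1]` (mean value theorem) and `f m1 >= f a >= 0`.  Contradiction.
-/

open Real MeasureTheory Set Filter
open scoped Topology

namespace LPPEnd

theorem tool0 (f f' : ℝ → ℝ) (hd : ∀ m, 0 < m → HasDerivAt f (f' m) m)
    (hf : ∀ m, 0 < m → 0 ≤ f' m) (l : ℝ) (hl : Tendsto f (𝓝[>] 0) (𝓝 l)) :
    ∀ m, 0 < m → l ≤ f m :=
  LPPChain.ge_of_deriv_nonneg hd hf hl

theorem tool1 (f f' : ℝ → ℝ) (hd : ∀ m, 0 < m → HasDerivAt f (f' m) m)
    (hf : ∀ m, 0 < m → f m < 0 → 0 ≤ f' m) (l : ℝ) (hl0 : 0 ≤ l)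
    (hl : Tendsto f (𝓝[>] 0) (𝓝 l)) :
    ∀ m, 0 < m → 0 ≤ f m := by
  intro m1 hm1
  by_contra hneg
  push Not at hneg
  have hcont : ∀ x, 0 < x → ContinuousAt f x := fun x hx => (hd x hx).continuousAt
  by_cases hS : ∃ x, 0 < x ∧ x ≤ m1 ∧ 0 ≤ f x
  · obtain ⟨x1, hx0, hx1, hfx⟩ := hS
    set S : Set ℝ := {x | x ∈ Icc x1 m1 ∧ 0 ≤ f x} with hSdef
    have hon : ContinuousOn f (Icc x1 m1) := fun x hx =>
      (hcont x (lt_of_lt_of_le hx0 hx.1)).continuousWithinAt
    have hSc : IsCompact S := by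
      have h1 : IsClosed (Icc x1 m1 ∩ f ⁻¹' (Ici 0)) :=
        hon.preimage_isClosed_of_isClosed isClosed_Icc isClosed_Ici
      have h2 : S = Icc x1 m1 ∩ f ⁻¹' (Ici 0) := by
        ext x; simp [hSdef]
      rw [h2]
      exact isCompact_Icc.of_isClosed_subset h1 inter_subset_left
    have hSn : S.Nonempty := ⟨x1, left_mem_Icc.2 hx1, hfx⟩
    have haS : sSup S ∈ S := hSc.sSup_mem hSn
    set a := sSup S with ha
    have hapos : 0 < a := lt_of_lt_of_le hx0 haS.1.1
    have ham : a < m1 := by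
      rcases haS.1.2.lt_or_eq with h | h
      · exact h
      · exfalso
        have := haS.2
        rw [h] at this
        linarith
    have hneg' : ∀ x, a < x → x ≤ m1 → f x < 0 := by
      intro x h1 h2
      by_contra h3
      push Not at h3
      have h4 : x ∈ S := ⟨⟨haS.1.1.trans h1.le, h2⟩, h3⟩
      have := le_csSup hSc.bddAbove h4
      linarith
    have hmono : MonotoneOn f (Icc a m1) := by
      apply monotoneOn_of_deriv_nonneg (convex_Icc a m1)
      · intro x hx
        exact (hcont x (lt_of_lt_of_le hapos hx.1)).continuousWithinAt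
      · intro x hx
        rw [interior_Icc] at hx
        exact (hd x (hapos.trans hx.1)).differentiableAt.differentiableWithinAt
      · intro x hx
        rw [interior_Icc] at hx
        rw [(hd x (hapos.trans hx.1)).deriv]
        exact hf x (hapos.trans hx.1) (hneg' x hx.1 hx.2.le)
    have := hmono (left_mem_Icc.2 ham.le) (right_mem_Icc.2 ham.le) ham.le
    linarith [haS.2]
  · push Not at hS
    have hmono : MonotoneOn f (Ioc 0 m1) := by
      apply monotoneOn_of_deriv_nonneg (convex_Ioc 0 m1)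
      · intro x hx
        exact (hcont x hx.1).continuousWithinAt
      · intro x hx
        rw [interior_Ioc] at hx
        exact (hd x hx.1).differentiableAt.differentiableWithinAt
      · intro x hx
        rw [interior_Ioc] at hx
        rw [(hd x hx.1).deriv]
        exact hf x hx.1 (hS x hx.1 hx.2.le)
    have hle : l ≤ f m1 := by
      apply le_of_tendsto hl
      have : Ioo (0:ℝ) m1 ∈ 𝓝[>] (0:ℝ) := Ioo_mem_nhdsGT hm1
      filter_upwards [this] with x hx
      exact hmono ⟨hx.1, hx.2.le⟩ ⟨hm1, le_rfl⟩ hx.2.le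
    linarith

end LPPEnd
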