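import Pool.Agent.Lib.MP_267da7_pr.G5
import Pool.Agent.Lib.MP_267da7_pr.H3
import Pool.Agent.Lib.MP_267da7_pr.E7
import Pool.Agent.Lib.MP_267da7_pr.F10

/-!
# Z1: the endpoint distribution for 0-based cells and rate one

`N >= 1`, `p i = P(L_(i') <= L_i for all corners i' of the staircase)`.
Write `a = N-1-i` (`Fin.rev i`), `r_a t = Y_(a,a) t - 1/2`.
(1) for `t > 0`: `Pl (rem stair i) t - Pl stair t = PN t * r_a t` (`Pl_det`, `det_stair`, `det_stair_rem`).
(2) `r_a >= 0`, `r_a -> 0` at infinity (`Pl_lim`: both probabilities tend to `1`, `PN -> 1`).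
(3) `r_a' = K psi_a psi_(N-1-a)` (`Ymain`).  `K <= 0`; `r_a t = -K int_t^oo psi_a psi_(N-1-a)`.
(4) `p i = int_0^oo PN t r_a t dt = -K int_0^oo S(m) psi_a psi_(N-1-a) dm` (Tonelli).
-/

open Real MeasureTheory Set Filter
open scoped Topology

namespace LPPEnd

theorem corners_stair (N : ℕ) : corners N (stair N) = Finset.range N := by
  ext i
  unfold corners stair
  rw [Finset.mem_filter, Finset.mem_range]
  constructor
  · rintro ⟨h, -⟩; exact h
  · intro h; exact ⟨h, by omega⟩

theorem stair_anti (N : ℕ) : Antitone (stair N) := by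
  intro a b h
  simp only [stair]
  omega

/-- the tail integral -/
theorem z1_tail (r f : ℝ → ℝ) (K : ℝ) (hd : ∀ t, 0 < t → HasDerivAt r (K * f t) t)
    (hf : ∀ t, 0 < t → 0 < f t) (hr : ∀ t, 0 < t → 0 ≤ r t) (hl : Tendsto r atTop (𝓝 0)) :
    K ≤ 0 ∧ ∀ t, 0 < t → IntegrableOn (fun s => -K * f s) (Ioi t) ∧
      r t = ∫ s in Ioi t, -K * f s := by
  have hK : K ≤ 0 := by
    by_contra hK
    rw [not_le] at hK
    have hmono : StrictMonoOn r (Ioi 0) := by
      apply strictMonoOn_of_deriv_pos (convex_Ioi 0)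
      · intro t ht; exact (hd t ht).continuousAt.continuousWithinAt
      · intro t ht
        rw [interior_Ioi] at ht
        rw [(hd t ht).deriv]
        exact mul_pos hK (hf t ht)
    have h12 : r 1 < r 2 := hmono (by norm_num : (1:ℝ) ∈ Ioi 0) (by norm_num : (2:ℝ) ∈ Ioi 0) (by norm_num)
    have h1 := hr 1 one_pos
    have h2 : 0 < r 2 := lt_of_le_of_lt h1 h12
    have h3 : ∀ᶠ t in atTop, r 2 ≤ r t := by
      filter_upwards [eventually_ge_atTop (2:ℝ)] with t ht
      rcases ht.eq_or_lt with h | h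
      · rw [← h]
      · exact (hmono (by norm_num : (2:ℝ) ∈ Ioi 0) (by simp only [mem_Ioi]; linarith) h).le
    have := ge_of_tendsto hl h3
    linarith
  refine ⟨hK, fun t ht => ?_⟩
  have hcont : ContinuousWithinAt (fun s => -r s) (Ici t) t :=
    ((hd t ht).continuousAt.neg).continuousWithinAt
  have hder : ∀ x ∈ Ioi t, HasDerivAt (fun s => -r s) (-K * f x) x := by
    intro x hx
    have := (hd x (lt_trans ht hx)).neg
    rw [show -K * f x = -(K * f x) by ring]
    exact this
  have hpos : ∀ x ∈ Ioi t, 0 ≤ -K * f x := by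
    intro x hx
    exact mul_nonneg (by linarith) (hf x (lt_trans ht hx)).le
  have hlim : Tendsto (fun s => -r s) atTop (𝓝 0) := by simpa using hl.neg
  refine ⟨integrableOn_Ioi_deriv_of_nonneg hcont hder hpos hlim, ?_⟩
  rw [integral_Ioi_of_hasDerivAt_of_nonneg hcont hder hpos hlim]
  ring

/-- Tonelli for the triangle -/
theorem z1_tonelli (P f : ℝ → ℝ) (hP : ContinuousOn P (Ici 0)) (hP0 : ∀ t, 0 < t → 0 < P t)
    (hf : ContinuousOn f (Ioi 0)) (hf0 : ∀ t, 0 < t → 0 ≤ f t)
    (hi : IntegrableOn (fun m => (∫ t in (0:ℝ)..m, P t) * f m) (Ioi 0)) :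
    ∫ t in Ioi (0:ℝ), P t * ∫ s in Ioi t, f s =
      ∫ m in Ioi (0:ℝ), (∫ t in (0:ℝ)..m, P t) * f m := by
  set μ : Measure ℝ := volume.restrict (Ioi 0) with hμ
  let F : ℝ → ℝ → ℝ := fun t s => (Ioi t).indicator (fun s => P t * f s) s
  have hPm : AEStronglyMeasurable P μ :=
    (hP.mono Ioi_subset_Ici_self).aestronglyMeasurable measurableSet_Ioi
  have hfm : AEStronglyMeasurable f μ := hf.aestronglyMeasurable measurableSet_Ioi
  have hFeq : Function.uncurry F = {p : ℝ × ℝ | p.1 < p.2}.indicator (fun p => P p.1 * f p.2) := by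
    ext ⟨t, s⟩
    simp only [Function.uncurry, F, indicator, mem_Ioi, mem_ofPred_eq]
  have hFm : AEStronglyMeasurable (Function.uncurry F) (μ.prod μ) := by
    rw [hFeq]
    apply AEStronglyMeasurable.indicator
    · exact (hPm.comp_fst).mul (hfm.comp_snd)
    · exact measurableSet_lt measurable_fst measurable_snd
  -- inner integral in t
  have hPint : ∀ m, 0 < m → IntegrableOn P (Ioc 0 m) := by
    intro m hm
    have : ContinuousOn P (Icc 0 m) := hP.mono (fun x hx => hx.1)
    exact (this.integrableOn_Icc).mono_set Ioc_subset_Icc_self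
  have hslice : ∀ m, 0 < m → (fun t => F t m) =ᵐ[μ] (Ioo 0 m).indicator (fun t => P t * f m) := by
    intro m hm
    filter_upwards [ae_restrict_mem measurableSet_Ioi] with t ht
    simp only [F, indicator, mem_Ioi, mem_Ioo]
    simp only [mem_Ioi] at ht
    by_cases h : t < m
    · simp [h, ht]
    · simp [h]
  have hinner : ∀ m, 0 < m → ∫ t, F t m ∂μ = (∫ t in (0:ℝ)..m, P t) * f m := by
    intro m hm
    rw [integral_congr_ae (hslice m hm), hμ, integral_indicator measurableSet_Ioo,
      Measure.restrict_restrict measurableSet_Ioo,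
      show Ioo (0:ℝ) m ∩ Ioi 0 = Ioo 0 m from inter_eq_left.2 (fun x hx => hx.1),
      ← integral_Ioc_eq_integral_Ioo, integral_mul_const,
      intervalIntegral.integral_of_le hm.le]
  have hFint : Integrable (Function.uncurry F) (μ.prod μ) := by
    rw [integrable_prod_iff' hFm]
    constructor
    · filter_upwards [ae_restrict_mem measurableSet_Ioi] with m hm
      have : Integrable ((Ioo 0 m).indicator (fun t => P t * f m)) μ := by
        rw [integrable_indicator_iff measurableSet_Ioo]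
        have h1 : IntegrableOn (fun t => P t * f m) (Ioo 0 m) :=
          ((hPint m hm).mono_set Ioo_subset_Ioc_self).mul_const _
        rw [IntegrableOn, hμ, Measure.restrict_restrict measurableSet_Ioo,
          show Ioo (0:ℝ) m ∩ Ioi 0 = Ioo 0 m from inter_eq_left.2 (fun x hx => hx.1)]
        exact h1
      exact this.congr (hslice m hm).symm
    · have : (fun m => ∫ t, ‖Function.uncurry F (t, m)‖ ∂μ) =ᵐ[μ]
          fun m => (∫ t in (0:ℝ)..m, P t) * f m := by
        filter_upwards [ae_restrict_mem measurableSet_Ioi] with m hm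
        rw [← hinner m hm]
        apply integral_congr_ae
        filter_upwards [ae_restrict_mem measurableSet_Ioi] with t ht
        simp only [Function.uncurry, F, indicator, mem_Ioi, Real.norm_eq_abs]
        split_ifs with h
        · exact abs_of_nonneg (mul_nonneg (hP0 t ht).le (hf0 m hm))
        · simp
      exact Integrable.congr hi this.symm
  have hswap := integral_integral_swap hFint
  have h1 : ∫ t, ∫ s, F t s ∂μ ∂μ = ∫ t in Ioi (0:ℝ), P t * ∫ s in Ioi t, f s := by
    apply setIntegral_congr_fun measurableSet_Ioi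
    intro t ht
    simp only [F]
    rw [hμ, integral_indicator measurableSet_Ioi, Measure.restrict_restrict measurableSet_Ioi,
      show Ioi t ∩ Ioi (0:ℝ) = Ioi t from inter_eq_left.2
        (fun x hx => lt_trans (show (0:ℝ) < t from ht) hx),
      integral_const_mul]
  have h2 : ∫ m, ∫ t, F t m ∂μ ∂μ = ∫ m in Ioi (0:ℝ), (∫ t in (0:ℝ)..m, P t) * f m := by
    apply setIntegral_congr_fun measurableSet_Ioi
    intro m hm
    exact hinner m hm
  rw [← h1, hswap, h2]
variable {Om' : Type*} [MeasurableSpace Om'] (P : Measure Om') [IsProbabilityMeasure P]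
  (W : ℕ × ℕ → Om' → ℝ)

/-- endpoint probabilities -/
noncomputable def pE {Om' : Type*} [MeasurableSpace Om'] (P : Measure Om')
    (W : ℕ × ℕ → Om' → ℝ) (N i : ℕ) : ℝ :=
  (P {ω | ∀ i' ∈ corners N (stair N),
    L (xW W ω) i' (stair N i' - 1) ≤ L (xW W ω) i (stair N i - 1)}).toReal

theorem Z1 (hm : ∀ z, Measurable (W z)) (hind : ProbabilityTheory.iIndepFun W P)
    (hlaw : ∀ z, P.map (W z) = ProbabilityTheory.expMeasure 1) (N : ℕ) (hN : 1 ≤ N) :
    (∀ i, i < N → 0 < pE P W N i) ∧ (∑ i ∈ Finset.range N, pE P W N i = 1) ∧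
    (∀ i, 1 ≤ i → i + 2 ≤ N → pE P W N (i - 1) * pE P W N (i + 1) ≤ pE P W N i ^ 2) := by
  have hl := stair_anti N
  have h0 : stair N N = 0 := by simp [stair]
  have hc : corners N (stair N) = Finset.range N := corners_stair N
  have hPl : ∀ t, 0 < t → Pl P W (stair N) t = PN N t := fun t ht => by
    rw [Pl_det P W hm hind hlaw N hN (stair N) hl h0 t ht.le, det_stair N hN t ht]
  have hPpos : ∀ t, 0 < t → 0 < PN N t := fun t ht => PN_pos N t ht
  have hst0 : 1 ≤ stair N 0 := by simp only [stair]; omega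
  have hP : ∀ t, 0 < t → PN N t ≤ 1 ∧ PN N t ≤ t := fun t ht => by
    rw [← hPl t ht]
    exact ⟨((Pl_meas P W hm (stair N)).2 t).2, Pl_le P W hm hlaw (stair N) hst0 t ht.le⟩
  have hpsi : ∀ a t, 0 < t → 0 < psi N a t := fun a t ht => psi_pos N a t ht
  obtain ⟨K, hK⟩ := Ymain N hN hpsi
  have hcor : ∀ i, i < N → i ∈ corners N (stair N) := fun i hi => by
    rw [hc]; exact Finset.mem_range.2 hi
  have hdiff : ∀ (i : ℕ) (hi : i < N) (t : ℝ), 0 < t →
      Pl P W (rem (stair N) i) t - Pl P W (stair N) t =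
        PN N t * (Y N t (Fin.rev ⟨i, hi⟩) (Fin.rev ⟨i, hi⟩) - 1 / 2) := by
    intro i hi t ht
    obtain ⟨ha, hb, -⟩ := rem_anti N (stair N) hl h0 i (hcor i hi)
    rw [Pl_det P W hm hind hlaw N hN (rem (stair N) i) ha hb t ht.le,
      Pl_det P W hm hind hlaw N hN (stair N) hl h0 t ht.le]
    exact det_stair_rem N hN ⟨i, hi⟩ t ht
  have hlimS : Tendsto (PN N) atTop (𝓝 1) := by
    apply (Pl_lim P W hm N (stair N) hl h0).congr'
    filter_upwards [eventually_gt_atTop (0:ℝ)] with t ht
    exact hPl t ht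
  -- the functions r
  have hr0 : ∀ (i : ℕ) (hi : i < N) (t : ℝ), 0 < t →
      0 ≤ Y N t (Fin.rev ⟨i, hi⟩) (Fin.rev ⟨i, hi⟩) - 1 / 2 := by
    intro i hi t ht
    have h1 := (Pl_arg P W hm hind hlaw N (stair N) hl h0 i (hcor i hi)).2.1 t ht.le
    have h2 : 0 ≤ PN N t * (Y N t (Fin.rev ⟨i, hi⟩) (Fin.rev ⟨i, hi⟩) - 1 / 2) := by
      rw [← hdiff i hi t ht]; linarith
    exact nonneg_of_mul_nonneg_right h2 (hPpos t ht)
  have hrlim : ∀ (i : ℕ) (hi : i < N),
      Tendsto (fun t => Y N t (Fin.rev ⟨i, hi⟩) (Fin.rev ⟨i, hi⟩) - 1 / 2) atTop (𝓝 0) := by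
    intro i hi
    obtain ⟨ha, hb, -⟩ := rem_anti N (stair N) hl h0 i (hcor i hi)
    have h1 := Pl_lim P W hm N (rem (stair N) i) ha hb
    have h2 := Pl_lim P W hm N (stair N) hl h0
    have h3 : Tendsto (fun t => (Pl P W (rem (stair N) i) t - Pl P W (stair N) t) / PN N t) atTop
        (𝓝 ((1 - 1) / 1)) := (h1.sub h2).div hlimS one_ne_zero
    rw [sub_self, zero_div] at h3
    apply h3.congr'
    filter_upwards [eventually_gt_atTop (0:ℝ)] with t ht
    rw [hdiff i hi t ht, mul_div_cancel_left₀ _ (hPpos t ht).ne']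
  have hrd : ∀ (i : ℕ) (hi : i < N) (t : ℝ), 0 < t →
      HasDerivAt (fun t => Y N t (Fin.rev ⟨i, hi⟩) (Fin.rev ⟨i, hi⟩) - 1 / 2)
        (K * (psi N (N - (i + 1)) t * psi N (N - 1 - (N - (i + 1))) t)) t := by
    intro i hi t ht
    have := hK t ht (Fin.rev ⟨i, hi⟩)
    rw [Fin.val_rev] at this
    exact this.sub_const _
  have hfpos : ∀ (i : ℕ) (t : ℝ), 0 < t →
      0 < psi N (N - (i + 1)) t * psi N (N - 1 - (N - (i + 1))) t :=
    fun i t ht => mul_pos (hpsi _ t ht) (hpsi _ t ht)
  have htail := fun (i : ℕ) (hi : i < N) =>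
    z1_tail (fun t => Y N t (Fin.rev ⟨i, hi⟩) (Fin.rev ⟨i, hi⟩) - 1 / 2)
      (fun t => psi N (N - (i + 1)) t * psi N (N - 1 - (N - (i + 1))) t) K
      (hrd i hi) (hfpos i) (hr0 i hi) (hrlim i hi)
  have hK0 : K ≤ 0 := (htail 0 hN).1
  have hpsic : ∀ a, ContinuousOn (psi N a) (Ioi 0) := fun a t ht =>
    (psi_deriv N a t ht).continuousAt.continuousWithinAt
  -- the formula for the endpoint probabilities
  have hpE : ∀ (i : ℕ), i < N → pE P W N i = -K *
      ∫ m in Ioi (0:ℝ), SN N m * (psi N (N - (i + 1)) m * psi N (N - 1 - (N - (i + 1))) m) := by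
    intro i hi
    have h1 := (Pl_arg P W hm hind hlaw N (stair N) hl h0 i (hcor i hi)).2.2
    have h2 : pE P W N i = ∫ t in Ioi (0:ℝ), PN N t *
        ∫ s in Ioi t, -K * (psi N (N - (i + 1)) s * psi N (N - 1 - (N - (i + 1))) s) := by
      rw [pE, h1]
      apply setIntegral_congr_fun measurableSet_Ioi
      intro t ht
      simp only
      rw [hdiff i hi t ht]
      congr 1
      exact ((htail i hi).2 t ht).2
    have hint := (int_S N hN hP (N - (i + 1)) (by omega)).1
    rw [h2, z1_tonelli (PN N) _ (PN_cont N) hPpos]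
    · rw [← integral_const_mul]
      apply setIntegral_congr_fun measurableSet_Ioi
      intro m _
      simp only [SN]
      ring
    · exact continuousOn_const.mul ((hpsic _).mul (hpsic _))
    · intro t ht
      exact mul_nonneg (by linarith) (hfpos i t ht).le
    · have h5 : IntegrableOn (fun m => -K * (SN N m *
          (psi N (N - (i + 1)) m * psi N (N - 1 - (N - (i + 1))) m))) (Ioi 0) :=
        hint.const_mul (-K)
      refine IntegrableOn.congr_fun h5 ?_ measurableSet_Ioi
      intro m _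
      simp only [SN]
      ring
  -- K is not zero
  have hKne : K ≠ 0 := by
    intro hK00
    have hz : ∀ i, i < N → ∀ t, 0 < t → Pl P W (rem (stair N) i) t - Pl P W (stair N) t = 0 := by
      intro i hi t ht
      rw [hdiff i hi t ht]
      have h6 : Y N t (Fin.rev ⟨i, hi⟩) (Fin.rev ⟨i, hi⟩) - 1 / 2 = ∫ s in Ioi t,
        -K * (psi N (N - (i + 1)) s * psi N (N - 1 - (N - (i + 1))) s) :=
        ((htail i hi).2 t ht).2
      rw [h6, hK00]
      simp
    have h1 := Pl_eq P W hm hind hlaw N (stair N) hl h0 ⟨0, hcor 0 hN⟩ 1 zero_le_one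
    rw [hPl 1 one_pos] at h1
    have h2 : ∫ t in (0:ℝ)..1, ∑ i ∈ corners N (stair N),
        (Pl P W (rem (stair N) i) t - Pl P W (stair N) t) = 0 := by
      rw [intervalIntegral.integral_of_le zero_le_one]
      rw [setIntegral_congr_fun (g := fun _ => (0:ℝ)) measurableSet_Ioc]
      · simp
      · intro t ht
        simp only
        rw [hc]
        exact Finset.sum_eq_zero fun i hi => hz i (Finset.mem_range.1 hi) t ht.1
    have := hPpos 1 one_pos
    linarith
  have hKneg : 0 < -K := by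
    rcases hK0.lt_or_eq with h | h
    · linarith
    · exact absurd h hKne
  refine ⟨?_, ?_, ?_⟩
  · intro i hi
    rw [hpE i hi]
    exact mul_pos hKneg (Epos N (N - (i + 1)) (by omega) hP)
  · have h1 : ∑ i ∈ Finset.range N, pE P W N i =
        ∫ t in Ioi (0:ℝ), ∑ i ∈ corners N (stair N),
          (Pl P W (rem (stair N) i) t - Pl P W (stair N) t) := by
      rw [integral_finsetSum _ fun i hi =>
        (Pl_arg P W hm hind hlaw N (stair N) hl h0 i hi).1, hc]
      exact Finset.sum_congr rfl fun i hi =>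
        (Pl_arg P W hm hind hlaw N (stair N) hl h0 i (hcor i (Finset.mem_range.1 hi))).2.2
    have hint : IntegrableOn (fun t => ∑ i ∈ corners N (stair N),
        (Pl P W (rem (stair N) i) t - Pl P W (stair N) t)) (Ioi 0) :=
      integrable_finsetSum _ fun i hi => (Pl_arg P W hm hind hlaw N (stair N) hl h0 i hi).1
    have h2 := intervalIntegral_tendsto_integral_Ioi 0 hint tendsto_id
    rw [h1]
    refine tendsto_nhds_unique h2 ?_
    apply (Pl_lim P W hm N (stair N) hl h0).congr'
    filter_upwards [eventually_ge_atTop (0:ℝ)] with t ht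
    exact Pl_eq P W hm hind hlaw N (stair N) hl h0 ⟨0, hcor 0 hN⟩ t ht
  · intro i hi1 hi2
    rw [hpE (i - 1) (by omega), hpE (i + 1) (by omega), hpE i (by omega)]
    have h := Emain N (N - (i + 1)) (by omega) (by omega) hP
    rw [show N - (i + 1) - 1 = N - (i + 1 + 1) by omega,
      show N - (i + 1) + 1 = N - (i - 1 + 1) by omega] at h
    have h3 : 0 ≤ K ^ 2 := sq_nonneg K
    nlinarith [mul_le_mul_of_nonneg_left h h3]

end LPPEnd
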