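import Pool.Agent.Lib.MP_267da7_pr.P2
import Pool.Agent.Lib.MP_267da7_pr.Z1

/-!
# Z2: the endpoint theorem in terms of the definitions of `Paths`

`Z2_set`: the event `EndsAt n k` in terms of the 0-based rescaled weights; `Z2_exists`: a maximising path exists; `Z2_unique`: finitely many measurable sets
covering the space whose probabilities sum to one are disjoint up to null sets.
-/

open MeasureTheory Filter
open scoped Topology

namespace LPPEnd

variable {Om' : Type*} [MeasurableSpace Om'] (P : Measure Om') [IsProbabilityMeasure P]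
  (W : ℕ+ × ℕ+ → Om' → ℝ)

theorem Z2_set (r : ℝ) (hr : 0 < r) (n k : ℕ) (hn : 1 ≤ n) (hk1 : 1 ≤ k)
    (hk2 : k ≤ 2 * n - 1) :
    {ω | EndsAt n k (fun z => W z ω)} =
      {ω | ∀ i' ∈ corners (2 * n - 1) (stair (2 * n - 1)),
        L (xW (W1 W r) ω) i' (stair (2 * n - 1) i' - 1) ≤
          L (xW (W1 W r) ω) (k - 1) (stair (2 * n - 1) (k - 1) - 1)} := by
  ext ω
  rw [Set.mem_ofPred_eq, Set.mem_ofPred_eq, EndsAt_scale n k _ r hr, EndsAt_iff n k hn,
    W1_cell W r ω, corners_stair]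
  constructor
  · rintro ⟨-, -, h⟩ i' hi'
    have := h i' (Finset.mem_range.1 hi')
    simp only [stair]
    rw [show 2 * n - 1 - i' - 1 = 2 * n - 2 - i' by omega,
      show 2 * n - 1 - (k - 1) - 1 = 2 * n - 1 - k by omega]
    exact this
  · intro h
    refine ⟨hk1, hk2, fun i hi => ?_⟩
    have := h i (Finset.mem_range.2 hi)
    simp only [stair] at this
    rw [show 2 * n - 1 - i - 1 = 2 * n - 2 - i by omega,
      show 2 * n - 1 - (k - 1) - 1 = 2 * n - 1 - k by omega] at this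
    exact this

theorem Z2_exists (n : ℕ) (hn : 1 ≤ n) (x : ℕ+ × ℕ+ → ℝ) :
    ∃ k, 1 ≤ k ∧ k ≤ 2 * n - 1 ∧ EndsAt n k x := by
  obtain ⟨i0, hi0, hmax⟩ := Finset.exists_max_image (Finset.range (2 * n - 1))
    (fun i => L (cellx x) i (2 * n - 2 - i)) ⟨0, Finset.mem_range.2 (by omega)⟩
  rw [Finset.mem_range] at hi0
  refine ⟨i0 + 1, by omega, by omega, ?_⟩
  rw [EndsAt_iff n (i0 + 1) hn]
  refine ⟨by omega, by omega, fun i hi => ?_⟩
  have := hmax i (Finset.mem_range.2 hi)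
  rw [show i0 + 1 - 1 = i0 by omega, show 2 * n - 1 - (i0 + 1) = 2 * n - 2 - i0 by omega]
  exact this

theorem Z2_meas (hm : ∀ z, Measurable (W z)) (r : ℝ) (hr : 0 < r) (n k : ℕ) (hn : 1 ≤ n)
    (hk1 : 1 ≤ k) (hk2 : k ≤ 2 * n - 1) : MeasurableSet {ω | EndsAt n k (fun z => W z ω)} := by
  rw [Z2_set W r hr n k hn hk1 hk2]
  have hx : Measurable (fun ω => xW (W1 W r) ω) := by
    refine measurable_pi_lambda _ fun i => measurable_pi_lambda _ fun j => ?_
    exact (hm _).const_mul r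
  have hL : ∀ i j, Measurable (fun ω => L (xW (W1 W r) ω) i j) := fun i j =>
    (L_meas i j).comp hx
  have : {ω | ∀ i' ∈ corners (2 * n - 1) (stair (2 * n - 1)),
        L (xW (W1 W r) ω) i' (stair (2 * n - 1) i' - 1) ≤
          L (xW (W1 W r) ω) (k - 1) (stair (2 * n - 1) (k - 1) - 1)} =
      ⋂ i' ∈ corners (2 * n - 1) (stair (2 * n - 1)),
        {ω | L (xW (W1 W r) ω) i' (stair (2 * n - 1) i' - 1) ≤
          L (xW (W1 W r) ω) (k - 1) (stair (2 * n - 1) (k - 1) - 1)} := by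
    ext ω
    simp
  rw [this]
  exact Finset.measurableSet_biInter _ fun i' _ => measurableSet_le (hL _ _) (hL _ _)

/-- finitely many measurable sets covering the space, with the sum of the probabilities equal to `1`:
almost every point is in exactly one of them. -/
theorem Z2_unique (s : Finset ℕ) (E : ℕ → Set Om') (hE : ∀ k ∈ s, MeasurableSet (E k))
    (hcov : ∀ ω, ∃ k ∈ s, ω ∈ E k) (hsum : ∑ k ∈ s, P.real (E k) = 1) :
    ∀ᵐ ω ∂P, ∀ k ∈ s, ∀ l ∈ s, ω ∈ E k → ω ∈ E l → k = l := by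
  classical
  have hint : ∀ k ∈ s, Integrable ((E k).indicator fun _ => (1:ℝ)) P := fun k hk =>
    (integrable_const (1:ℝ)).indicator (hE k hk)
  have h1 : ∫ ω, (∑ k ∈ s, (E k).indicator (fun _ => (1:ℝ)) ω - 1) ∂P = 0 := by
    rw [integral_sub (integrable_finsetSum _ hint) (integrable_const _), integral_finsetSum _ hint]
    have : ∑ k ∈ s, ∫ ω, (E k).indicator (fun _ => (1:ℝ)) ω ∂P = 1 := by
      refine Eq.trans (Finset.sum_congr rfl fun k hk => ?_) hsum
      rw [integral_indicator (hE k hk), setIntegral_const, smul_eq_mul, mul_one]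
    rw [this]
    simp
  have hge : ∀ ω, 0 ≤ ∑ k ∈ s, (E k).indicator (fun _ => (1:ℝ)) ω - 1 := by
    intro ω
    obtain ⟨k, hk, hω⟩ := hcov ω
    have : (E k).indicator (fun _ => (1:ℝ)) ω ≤ ∑ k ∈ s, (E k).indicator (fun _ => (1:ℝ)) ω :=
      Finset.single_le_sum (f := fun k => (E k).indicator (fun _ => (1:ℝ)) ω)
        (fun i _ => Set.indicator_nonneg (fun _ _ => zero_le_one) ω) hk
    rw [Set.indicator_of_mem hω] at this
    linarith
  have h2 := (integral_eq_zero_iff_of_nonneg hge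
    ((integrable_finsetSum _ hint).sub (integrable_const _))).1 h1
  filter_upwards [h2] with ω hω k hk l hl hωk hωl
  by_contra hne
  have h3 : ∑ j ∈ s, (E j).indicator (fun _ => (1:ℝ)) ω - 1 = 0 := hω
  have h4 : ∑ j ∈ ({k, l} : Finset ℕ), (E j).indicator (fun _ => (1:ℝ)) ω ≤
      ∑ j ∈ s, (E j).indicator (fun _ => (1:ℝ)) ω := by
    apply Finset.sum_le_sum_of_subset_of_nonneg
    · intro j hj
      rw [Finset.mem_insert, Finset.mem_singleton] at hj
      rcases hj with h | h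
      · rw [h]; exact hk
      · rw [h]; exact hl
    · intro j _ _
      exact Set.indicator_nonneg (fun _ _ => zero_le_one) ω
  rw [Finset.sum_pair hne, Set.indicator_of_mem hωk, Set.indicator_of_mem hωl] at h4
  linarith

theorem endpoint_main
    {Ω : Type*} [MeasurableSpace Ω] (P : Measure Ω) [IsProbabilityMeasure P]
    (W : ℕ+ × ℕ+ → Ω → ℝ) (hm : ∀ z, Measurable (W z)) (hind : ProbabilityTheory.iIndepFun W P)
    (r : ℝ) (hr : 0 < r) (hlaw : ∀ z, P.map (W z) = ProbabilityTheory.expMeasure r)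
    (n : ℕ) (hn : 1 ≤ n) :
    (∀ᵐ ω ∂P, ∃! k, EndsAt n k (fun z => W z ω)) ∧
    (∀ k, 1 ≤ k → k ≤ 2 * n - 1 → 0 < P.real {ω | EndsAt n k (fun z => W z ω)}) ∧
    (∑ k ∈ Finset.Icc 1 (2 * n - 1), P.real {ω | EndsAt n k (fun z => W z ω)} = 1) ∧
    (∀ k, 2 ≤ k → k ≤ 2 * n - 2 →
      P.real {ω | EndsAt n (k - 1) (fun z => W z ω)} *
        P.real {ω | EndsAt n (k + 1) (fun z => W z ω)} ≤
      P.real {ω | EndsAt n k (fun z => W z ω)} ^ 2) := by
  obtain ⟨h1, h2, h3⟩ := W1_spec P W r hr hm hind hlaw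
  obtain ⟨z1, z2, z3⟩ := Z1 P (W1 W r) h1 h2 h3 (2 * n - 1) (by omega)
  have key : ∀ k, 1 ≤ k → k ≤ 2 * n - 1 →
      P.real {ω | EndsAt n k (fun z => W z ω)} = pE P (W1 W r) (2 * n - 1) (k - 1) := by
    intro k hk1 hk2
    rw [Z2_set W r hr n k hn hk1 hk2]
    rfl
  have hsum : ∑ k ∈ Finset.Icc 1 (2 * n - 1), P.real {ω | EndsAt n k (fun z => W z ω)} = 1 := by
    rw [← z2]
    refine Finset.sum_nbij' (fun k => k - 1) (fun i => i + 1) ?_ ?_ ?_ ?_ ?_
    · intro k hk
      rw [Finset.mem_Icc] at hk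
      rw [Finset.mem_range]
      omega
    · intro i hi
      rw [Finset.mem_range] at hi
      rw [Finset.mem_Icc]
      omega
    · intro k hk
      rw [Finset.mem_Icc] at hk
      omega
    · intro i _
      omega
    · intro k hk
      rw [Finset.mem_Icc] at hk
      exact key k hk.1 hk.2
  refine ⟨?_, ?_, hsum, ?_⟩
  · have hu := Z2_unique P (Finset.Icc 1 (2 * n - 1)) (fun k => {ω | EndsAt n k (fun z => W z ω)})
      (fun k hk => by
        rw [Finset.mem_Icc] at hk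
        exact Z2_meas W hm r hr n k hn hk.1 hk.2)
      (fun ω => by
        obtain ⟨k, hk1, hk2, hk3⟩ := Z2_exists n hn (fun z => W z ω)
        exact ⟨k, Finset.mem_Icc.2 ⟨hk1, hk2⟩, hk3⟩) hsum
    filter_upwards [hu] with ω hω
    obtain ⟨k, hk1, hk2, hk3⟩ := Z2_exists n hn (fun z => W z ω)
    refine ⟨k, hk3, fun l hl => ?_⟩
    obtain ⟨hl1, hl2, -⟩ := (EndsAt_iff n l hn _).1 hl
    exact hω l (Finset.mem_Icc.2 ⟨hl1, hl2⟩) k (Finset.mem_Icc.2 ⟨hk1, hk2⟩) hl hk3
  · intro k hk1 hk2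
    rw [key k hk1 hk2]
    exact z1 (k - 1) (by omega)
  · intro k hk1 hk2
    rw [key (k - 1) (by omega) (by omega), key (k + 1) (by omega) (by omega),
      key k (by omega) (by omega)]
    have := z3 (k - 1) (by omega) (by omega)
    rw [show k - 1 + 1 = k + 1 - 1 by omega] at this
    exact this

end LPPEnd
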